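import Mathlib
import Pool.Agent.Lib.P0c8ca5N.Gap

/-!
# Triples of group elements: definitions

`A` is a finite group, all groups are subgroups of `A` (or quotients `NQ Q`).

* `Pel p x`: `x` is a p-element; `Preg p x` (library): p-regular; `pr p x` (library): p-regular part.
* `IsWt p H m`: the function `m` on `A` is invariant under `H` and vanishes outside the p-regular
  elements.
* `nE H m`, `nA p H m`, `nL p H m`: the three weighted counts in `H`.
* `IsCh p σ`: `σ` is a chain of nontrivial p-subgroups, `sN σ` its stabilizer.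
* `eE`, `eA`, `eL`: the alternating sums over the chains.
* `fK p K`: minus the reduced Euler characteristic of the poset of the nontrivial p-subgroups
  normalized by `K`.
* `dW p m t`: the weight of the triple `t = (a, b, c)`, nonzero only if `[a, b] c` is a nontrivial
  p-element; `gen t = <a, b, c>`; `Opr p H = O^p(H)`; `NoP p H`: `O_p(H) = 1`.
* `bB p U m`: the sum of `dW` over the triples in `U` generating a group that contains `O^p(U)`.
* `mb Q m`: the image of `m` in `N(Q)/Q`.
-/

namespace Pool.Agent.Lib.P0c8ca5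

/-- `x` is a p-element -/
def Pel (p : ℕ) {A : Type*} [Group A] (x : A) : Prop := ∃ n : ℕ, x ^ p ^ n = 1

section
variable {A : Type*} [Group A]

/-- the commutator -/
def cmt (a b : A) : A := a * b * a⁻¹ * b⁻¹

/-- `m` is invariant under conjugation by `H` and vanishes outside the p-regular elements -/
structure IsWt (p : ℕ) (H : Subgroup A) (m : A → ℤ) : Prop where
  conj : ∀ h ∈ H, ∀ x, m (h * x * h⁻¹) = m x
  reg : ∀ x, m x ≠ 0 → Preg p x

open Classical in
/-- pairs `(a, b)` in `H`, weighted by `m` at the inverse of the commutator -/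
noncomputable def nE (H : Subgroup A) (m : A → ℤ) : ℤ :=
  ∑ᶠ t : A × A, if t.1 ∈ H ∧ t.2 ∈ H then m ((cmt t.1 t.2)⁻¹) else 0

open Classical in
/-- triples `(a, b, c)` in `H` with `[a, b] c` a p-element, weighted by `m c` -/
noncomputable def nA (p : ℕ) (H : Subgroup A) (m : A → ℤ) : ℤ :=
  ∑ᶠ t : A × A × A, if (t.1 ∈ H ∧ t.2.1 ∈ H ∧ t.2.2 ∈ H) ∧ Pel p (cmt t.1 t.2.1 * t.2.2)
    then m t.2.2 else 0

open Classical in
/-- triples `(s, g, c)` in `H` with `s` p-regular and `(c s)' = g s g⁻¹`, weighted by `m c` -/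
noncomputable def nL (p : ℕ) (H : Subgroup A) (m : A → ℤ) : ℤ :=
  ∑ᶠ t : A × A × A, if (t.1 ∈ H ∧ t.2.1 ∈ H ∧ t.2.2 ∈ H) ∧ Preg p t.1 ∧
    pr p (t.2.2 * t.1) = t.2.1 * t.1 * t.2.1⁻¹ then m t.2.2 else 0

/-- `σ` is a chain of nontrivial p-subgroups -/
def IsCh (p : ℕ) (σ : Finset (Subgroup A)) : Prop :=
  IsChain (· ≤ ·) (σ : Set (Subgroup A)) ∧ ∀ Q ∈ σ, IsPGroup p Q ∧ Q ≠ ⊥

/-- the elements normalizing all members of `σ` -/
def sN (σ : Finset (Subgroup A)) : Subgroup A := ⨅ Q ∈ σ, Subgroup.normalizer (Q : Set A)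

open Classical in
/-- alternating sum of a function of the stabilizers over the chains of nontrivial p-subgroups -/
noncomputable def chS (p : ℕ) (F : Subgroup A → ℤ) : ℤ :=
  ∑ᶠ σ : Finset (Subgroup A), if IsCh p σ then (-1) ^ σ.card * F (sN σ) else 0

/-- alternating sum of `nE` -/
noncomputable def eE (p : ℕ) (m : A → ℤ) : ℤ := chS p (fun U => nE U m)

/-- alternating sum of `nA` -/
noncomputable def eA (p : ℕ) (m : A → ℤ) : ℤ := chS p (fun U => nA p U m)

/-- alternating sum of `nL` -/
noncomputable def eL (p : ℕ) (m : A → ℤ) : ℤ := chS p (fun U => nL p U m)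

open Classical in
/-- minus the reduced Euler characteristic of the poset of nontrivial p-subgroups normalized
by `K` -/
noncomputable def fK (p : ℕ) (K : Subgroup A) : ℤ := chS p (fun U => if K ≤ U then 1 else 0)

open Classical in
/-- the weight of a triple, nonzero only if `[a, b] c` is a nontrivial p-element -/
noncomputable def dW (p : ℕ) (m : A → ℤ) (t : A × A × A) : ℤ :=
  if Pel p (cmt t.1 t.2.1 * t.2.2) ∧ cmt t.1 t.2.1 * t.2.2 ≠ 1 then m t.2.2 else 0

/-- the group generated by the triple -/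
def gen (t : A × A × A) : Subgroup A := Subgroup.closure {t.1, t.2.1, t.2.2}

/-- `O^p(H)` -/
def Opr (p : ℕ) (H : Subgroup A) : Subgroup A := Subgroup.closure {x | x ∈ H ∧ Preg p x}

/-- `O_p(H) = 1` -/
def NoP (p : ℕ) (H : Subgroup A) : Prop :=
  ∀ R : Subgroup A, R ≤ H → H ≤ Subgroup.normalizer (R : Set A) → IsPGroup p R → R = ⊥

open Classical in
/-- the sum of `dW` over the triples in `U` generating a group that contains `O^p(U)` -/
noncomputable def bB (p : ℕ) (U : Subgroup A) (m : A → ℤ) : ℤ :=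
  ∑ᶠ t : A × A × A, if gen t ≤ U ∧ Opr p U ≤ gen t then dW p m t else 0

/-- the image of `m` in `N(Q)/Q` -/
noncomputable def mb (Q : Subgroup A) (m : A → ℤ) : NQ Q → ℤ := fun y =>
  ∑ᶠ c : {c : ↥(Subgroup.normalizer (Q : Set A)) // (QuotientGroup.mk c : NQ Q) = y}, m (c : A)

open Classical in
/-- the weight side: sum over all p-subgroups `Q` of `|Q|` times the count in `N(Q)/Q` -/
noncomputable def wS (p : ℕ) (m : A → ℤ) : ℤ :=
  ∑ᶠ Q : Subgroup A, if IsPGroup p Q then
    (Nat.card Q : ℤ) * nA p (⊤ : Subgroup (NQ Q)) (mb Q m) else 0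

end

end Pool.Agent.Lib.P0c8ca5
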