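import Mathlib
import Pool.Agent.Lib.P0c8ca5V.Defs

/-! `k(B) = sum of l(b_u)`, step 2: nilpotent central elements. -/

namespace Pool.Agent.Lib.P0c8ca5

open MonoidAlgebra

variable {p : ℕ} {k : Type*} [Field k] {A : Type*} [Group A]

open Classical in
/-- The trace of the action of `z` on the class functions of `H`. -/
noncomputable def trE (k : Type*) [Field k] {A : Type*} [Group A] [Fintype A] (H : Subgroup A)
    (z : A → k) : k :=
  ∑ᶠ X : Cl H (fun x => x ∈ H), ∑ y : A,
    if y ∈ H ∧ ∃ h ∈ H, y * (X.out : A) = h * (X.out : A) * h⁻¹ then z y else 0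

open Classical in
/-- The trace of the action of `z` on the class functions of `H` constant on p-sections. -/
noncomputable def trL (k : Type*) [Field k] (p : ℕ) {A : Type*} [Group A] [Fintype A]
    (H : Subgroup A) (z : A → k) : k :=
  ∑ᶠ X : Cl H (fun x => x ∈ H ∧ Preg p x), ∑ y : A,
    if y ∈ H ∧ ∃ h ∈ H, pr p (y * (X.out : A)) = h * (X.out : A) * h⁻¹ then z y else 0

/-! ### Auxiliary lemmas -/

namespace R2bAux

/-- the part of `a` supported in `H`, in the group algebra of `↥H` -/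
noncomputable def dnH (H : Subgroup A) (a : MonoidAlgebra k A) : MonoidAlgebra k ↥H :=
  MonoidAlgebra.comapDomain Subtype.val Subtype.val_injective a

theorem coeff_dnH (H : Subgroup A) (a : MonoidAlgebra k A) (x : ↥H) :
    (dnH H a).coeff x = a.coeff (x : A) := rfl

theorem up_dnH {N : Subgroup A} {z : MonoidAlgebra k A} (hz : SuppIn N z) :
    MonoidAlgebra.mapDomain N.subtype (dnH N z) = z := by
  apply MonoidAlgebra.mapDomain_comapDomain
  intro x hx
  exact ⟨⟨x, hz x (Finsupp.mem_support_iff.1 hx)⟩, rfl⟩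

theorem dnH_nilp {N : Subgroup A} {z : MonoidAlgebra k A} (hz : SuppIn N z)
    (hn : IsNilpotent z) : IsNilpotent (dnH N z) := by
  have h1 : MonoidAlgebra.mapDomainRingHom k N.subtype (dnH N z) = z := up_dnH hz
  rw [← h1] at hn
  refine (IsNilpotent.map_iff ?_).1 hn
  exact MonoidAlgebra.mapDomain_injective N.subtype_injective

theorem dnH_commute {N : Subgroup A} {z : MonoidAlgebra k A} (hz : InvBy N z) (x : ↥N) :
    Commute (dnH N z) (single x (1 : k)) := by
  have h : InvBy (⊤ : Subgroup ↥N) (dnH N z) := by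
    intro g _ y
    rw [coeff_dnH, coeff_dnH]
    exact hz g g.2 y
  exact (invBy_iff_commute.1 h x (Subgroup.mem_top _)).symm

theorem conv_conv [Fintype A] (c d : MonoidAlgebra k A) (f : A → k) :
    conv d (conv c f) = conv (c * d) f := by
  funext x
  unfold conv
  simp only [coeff_mul_fin, Finset.sum_mul, Finset.mul_sum]
  rw [Finset.sum_comm]
  conv_rhs => rw [Finset.sum_comm]
  refine Finset.sum_congr rfl fun g _ => ?_
  rw [← Equiv.sum_comp (Equiv.mulLeft g) (fun w => c.coeff g * d.coeff (g⁻¹ * w) * f (w * x))]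
  refine Finset.sum_congr rfl fun h _ => ?_
  simp only [Equiv.coe_mulLeft, inv_mul_cancel_left, mul_assoc]
  ring

theorem conv_one [Fintype A] (f : A → k) : conv (1 : MonoidAlgebra k A) f = f := by
  classical
  funext x
  unfold conv
  rw [Finset.sum_eq_single 1]
  · rw [one_mul, MonoidAlgebra.one_def, coeff_single, Finsupp.single_eq_same, one_mul]
  · intro y _ hy
    rw [MonoidAlgebra.one_def, coeff_single, Finsupp.single_eq_of_ne hy, zero_mul]
  · intro h
    exact absurd (Finset.mem_univ _) h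

/-- class functions of `H`, extended by zero -/
def CF (H : Subgroup A) (f : A → k) : Prop :=
  (∀ x, x ∉ H → f x = 0) ∧ ∀ h ∈ H, ∀ x, f (h * x * h⁻¹) = f x

theorem conv_CF [Fintype A] {H : Subgroup A} {z : MonoidAlgebra k A} (hz : SuppIn H z)
    (hinv : InvBy H z) {f : A → k} (hf : CF H f) : CF H (conv z f) := by
  refine ⟨fun x hx => ?_, fun g hg x => ?_⟩
  · unfold conv
    refine Finset.sum_eq_zero fun y _ => ?_
    by_cases hy : z.coeff y = 0
    · rw [hy, zero_mul]
    · rw [hf.1, mul_zero]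
      intro h
      apply hx
      have := H.mul_mem (H.inv_mem (hz y hy)) h
      rwa [inv_mul_cancel_left] at this
  · unfold conv
    rw [← Equiv.sum_comp (MulAut.conj g).toEquiv]
    refine Finset.sum_congr rfl fun y _ => ?_
    have e1 : (MulAut.conj g).toEquiv y = g * y * g⁻¹ := rfl
    have e2 : g * y * g⁻¹ * (g * x * g⁻¹) = g * (y * x) * g⁻¹ := by group
    rw [e1, e2, hinv g hg, hf.2 g hg]

open Classical in
/-- the matrix of the action of `z` on the class functions -/
noncomputable def MT [Fintype A] (H : Subgroup A) (z : MonoidAlgebra k A) :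
    Matrix (Cl H (fun x => x ∈ H)) (Cl H (fun x => x ∈ H)) k :=
  fun X Y => ∑ y : A, if y ∈ H ∧ ∃ h ∈ H, y * (X.out : A) = h * (Y.out : A) * h⁻¹
    then z.coeff y else 0

open Classical in
theorem MT_mulVec [Fintype A] {H : Subgroup A} [Fintype (Cl H (fun x => x ∈ H))]
    {z : MonoidAlgebra k A} (hz : SuppIn H z) {f : A → k} (hf : CF H f) :
    (MT H z).mulVec (fun Y => f (Y.out : A)) = fun X => conv z f (X.out : A) := by
  funext X
  unfold Matrix.mulVec dotProduct conv
  simp only [MT, Finset.sum_mul]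
  rw [Finset.sum_comm]
  refine Finset.sum_congr rfl fun y _ => ?_
  by_cases hy : y ∈ H
  · have hyx : y * (X.out : A) ∈ H := H.mul_mem hy X.out.2
    set Y0 : Cl H (fun x => x ∈ H) := Quotient.mk _ ⟨y * (X.out : A), hyx⟩ with hY0
    rw [Finset.sum_eq_single Y0]
    · obtain ⟨g, hg, e⟩ : ∃ g ∈ H, (Y0.out : A) = g * (y * (X.out : A)) * g⁻¹ := by
        have h1 : Quotient.mk (clSetoid H (fun x => x ∈ H)) ⟨y * (X.out : A), hyx⟩
            = Quotient.mk _ Y0.out := by rw [Quotient.out_eq]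
        exact Quotient.exact h1
      rw [if_pos ⟨hy, g⁻¹, H.inv_mem hg, by rw [e]; group⟩, e, hf.2 g hg]
    · intro Y _ hY
      rw [if_neg, zero_mul]
      rintro ⟨_, h, hh, e⟩
      apply hY
      rw [hY0, ← Quotient.out_eq Y]
      exact Quotient.sound ⟨h, hh, e⟩
    · intro h
      exact absurd (Finset.mem_univ _) h
  · have h0 : z.coeff y = 0 := by
      by_contra h
      exact hy (hz y h)
    rw [h0, zero_mul]
    refine Finset.sum_eq_zero fun Y _ => ?_
    rw [ite_self, zero_mul]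

theorem MT_pow [Fintype A] {H : Subgroup A} [Fintype (Cl H (fun x => x ∈ H))]
    [DecidableEq (Cl H (fun x => x ∈ H))]
    {z : MonoidAlgebra k A} (hz : SuppIn H z) (hinv : InvBy H z) (n : ℕ) :
    ∀ {f : A → k}, CF H f →
    ((MT H z) ^ n).mulVec (fun Y => f (Y.out : A)) = fun X => conv (z ^ n) f (X.out : A) := by
  induction n with
  | zero =>
    intro f _
    rw [pow_zero, pow_zero, Matrix.one_mulVec, conv_one]
  | succ n ih =>
    intro f hf
    rw [pow_succ, ← Matrix.mulVec_mulVec, MT_mulVec hz hf, ih (conv_CF hz hinv hf), conv_conv,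
      ← pow_succ']

theorem MT_nilp [Fintype A] {H : Subgroup A} [Fintype (Cl H (fun x => x ∈ H))]
    [DecidableEq (Cl H (fun x => x ∈ H))]
    {z : MonoidAlgebra k A} (hz : SuppIn H z) (hinv : InvBy H z) (hn : IsNilpotent z) :
    IsNilpotent (MT H z) := by
  classical
  obtain ⟨n, hn⟩ := hn
  refine ⟨n, ?_⟩
  ext X Y
  set f : A → k := fun x => if h : x ∈ H then
    (if (Quotient.mk (clSetoid H (fun x => x ∈ H)) ⟨x, h⟩) = Y then (1 : k) else 0) else 0 with hf
  have hCF : CF H f := by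
    refine ⟨fun x hx => dif_neg hx, fun h hh x => ?_⟩
    by_cases hx : x ∈ H
    · have hx' : h * x * h⁻¹ ∈ H := H.mul_mem (H.mul_mem hh hx) (H.inv_mem hh)
      simp only [hf]
      rw [dif_pos hx, dif_pos hx']
      have e : Quotient.mk (clSetoid H (fun x => x ∈ H)) ⟨h * x * h⁻¹, hx'⟩
          = Quotient.mk _ ⟨x, hx⟩ := (Quotient.sound ⟨h, hh, rfl⟩ :
            Quotient.mk (clSetoid H (fun x => x ∈ H)) ⟨x, hx⟩
              = Quotient.mk _ ⟨h * x * h⁻¹, hx'⟩).symm
      rw [e]
    · have hx' : h * x * h⁻¹ ∉ H := by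
        intro h1
        apply hx
        have := H.mul_mem (H.mul_mem (H.inv_mem hh) h1) hh
        have e : h⁻¹ * (h * x * h⁻¹) * h = x := by group
        rwa [e] at this
      simp only [hf]
      rw [dif_neg hx, dif_neg hx']
  have h1 := congrFun (MT_pow hz hinv n hCF) X
  rw [hn] at h1
  have h2 : (fun Z : Cl H (fun x => x ∈ H) => f (Z.out : A)) = Pi.single Y 1 := by
    funext Z
    simp only [hf]
    rw [dif_pos Z.out.2]
    have e : Quotient.mk (clSetoid H (fun x => x ∈ H)) ⟨(Z.out : A), Z.out.2⟩ = Z :=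
      Quotient.out_eq Z
    rw [e, Pi.single_apply]
  rw [h2, Matrix.mulVec_single_one] at h1
  have h3 : conv (0 : MonoidAlgebra k A) f (X.out : A) = 0 := by
    unfold conv
    exact Finset.sum_eq_zero fun y _ => by simp
  rw [h3] at h1
  exact h1

open Classical in
theorem card_fib [Fintype A] (H : Subgroup A) {x w h : A} (hh : h ∈ H) (e : w = h * x * h⁻¹) :
    (Finset.univ.filter fun g : A => g ∈ H ∧ w = g * x * g⁻¹).card
      = (Finset.univ.filter fun g : A => g ∈ H ∧ x = g * x * g⁻¹).card := by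
  refine Finset.card_bij' (fun g _ => h⁻¹ * g) (fun g _ => h * g) ?_ ?_ ?_ ?_
  · intro g hg
    obtain ⟨h1, h2⟩ := (Finset.mem_filter.1 hg).2
    refine Finset.mem_filter.2 ⟨Finset.mem_univ _, H.mul_mem (H.inv_mem hh) h1, ?_⟩
    have : h⁻¹ * g * x * (h⁻¹ * g)⁻¹ = h⁻¹ * (g * x * g⁻¹) * h := by group
    rw [this, ← h2, e]
    group
  · intro g hg
    obtain ⟨h1, h2⟩ := (Finset.mem_filter.1 hg).2
    refine Finset.mem_filter.2 ⟨Finset.mem_univ _, H.mul_mem hh h1, ?_⟩
    have : h * g * x * (h * g)⁻¹ = h * (g * x * g⁻¹) * h⁻¹ := by group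
    rw [this, ← h2, e]
  · intro g _
    simp
  · intro g _
    simp

open Classical in
theorem card_fib' [Fintype A] (H : Subgroup A) {x w h : A} (hh : h ∈ H) (e : w = h * x * h⁻¹) :
    (Finset.univ.filter fun g : A => g ∈ H ∧ w = g * w * g⁻¹).card
      = (Finset.univ.filter fun g : A => g ∈ H ∧ w = g * x * g⁻¹).card := by
  refine Finset.card_bij' (fun g _ => g * h) (fun g _ => g * h⁻¹) ?_ ?_ ?_ ?_
  · intro g hg
    obtain ⟨h1, h2⟩ := (Finset.mem_filter.1 hg).2
    refine Finset.mem_filter.2 ⟨Finset.mem_univ _, H.mul_mem h1 hh, ?_⟩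
    have : g * h * x * (g * h)⁻¹ = g * (h * x * h⁻¹) * g⁻¹ := by group
    rw [this, ← e, ← h2]
  · intro g hg
    obtain ⟨h1, h2⟩ := (Finset.mem_filter.1 hg).2
    refine Finset.mem_filter.2 ⟨Finset.mem_univ _, H.mul_mem h1 (H.inv_mem hh), ?_⟩
    have : g * h⁻¹ * w * (g * h⁻¹)⁻¹ = g * (h⁻¹ * w * h) * g⁻¹ := by group
    have e2 : h⁻¹ * w * h = x := by rw [e]; group
    rw [this, e2, ← h2]
  · intro g _
    simp
  · intro g _
    simp

open Classical in
/-- the sum over the classes against the sum over the elements -/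
theorem cnt [Fintype A] (H : Subgroup A) (P : A → Prop)
    (hPc : ∀ g ∈ H, ∀ x, P x → P (g * x * g⁻¹)) (f : A → A)
    (hf : ∀ g ∈ H, ∀ x, f (g * x * g⁻¹) = g * f x * g⁻¹) {m : A → ℤ}
    (hm : ∀ h ∈ H, ∀ x, m (h * x * h⁻¹) = m x) :
    ∑ x : A, ∑ g : A, ∑ c : A, (if P x ∧ g ∈ H ∧ c ∈ H ∧ f (c * x) = g * x * g⁻¹ then m c else 0)
      = (Nat.card H : ℤ) * ∑ᶠ X : Cl H P, ∑ y : A,
        if y ∈ H ∧ ∃ h ∈ H, f (y * (X.out : A)) = h * (X.out : A) * h⁻¹ then m y else 0 := by
  set G : A → ℤ := fun x => ∑ y : A,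
    if y ∈ H ∧ ∃ h ∈ H, f (y * x) = h * x * h⁻¹ then m y else 0 with hG
  have hGc : ∀ g ∈ H, ∀ x, G (g * x * g⁻¹) = G x := by
    intro g hg x
    simp only [hG]
    rw [← Equiv.sum_comp (MulAut.conj g).toEquiv]
    refine Finset.sum_congr rfl fun y _ => ?_
    have e1 : (MulAut.conj g).toEquiv y = g * y * g⁻¹ := rfl
    have e2 : g * y * g⁻¹ * (g * x * g⁻¹) = g * (y * x) * g⁻¹ := by group
    rw [e1, e2, hf g hg, hm g hg]
    have e3 : (g * y * g⁻¹ ∈ H ∧ ∃ h ∈ H, g * f (y * x) * g⁻¹ = h * (g * x * g⁻¹) * h⁻¹) ↔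
        (y ∈ H ∧ ∃ h ∈ H, f (y * x) = h * x * h⁻¹) := by
      constructor
      · rintro ⟨h1, h, hh, h2⟩
        refine ⟨?_, g⁻¹ * h * g, H.mul_mem (H.mul_mem (H.inv_mem hg) hh) hg, ?_⟩
        · have := H.mul_mem (H.mul_mem (H.inv_mem hg) h1) hg
          have e : g⁻¹ * (g * y * g⁻¹) * g = y := by group
          rwa [e] at this
        · have e : f (y * x) = g⁻¹ * (g * f (y * x) * g⁻¹) * g := by group
          rw [e, h2]
          group
      · rintro ⟨h1, h, hh, h2⟩
        refine ⟨H.mul_mem (H.mul_mem hg h1) (H.inv_mem hg), g * h * g⁻¹,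
          H.mul_mem (H.mul_mem hg hh) (H.inv_mem hg), ?_⟩
        rw [h2]
        group
    simp only [e3]
  set C : A → ℕ := fun x => (Finset.univ.filter fun g : A => g ∈ H ∧ x = g * x * g⁻¹).card with hC
  have step1 : ∀ x, ∑ g : A, ∑ c : A,
      (if P x ∧ g ∈ H ∧ c ∈ H ∧ f (c * x) = g * x * g⁻¹ then m c else 0)
      = if P x then (C x : ℤ) * G x else 0 := by
    intro x
    by_cases hPx : P x
    · rw [if_pos hPx, Finset.sum_comm]
      simp only [hG, Finset.mul_sum]
      refine Finset.sum_congr rfl fun c _ => ?_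
      by_cases hc : c ∈ H ∧ ∃ h ∈ H, f (c * x) = h * x * h⁻¹
      · rw [if_pos hc]
        obtain ⟨hc1, h, hh, e⟩ := hc
        have h1 := card_fib H hh e
        simp only [hC]
        rw [← h1, ← Finset.sum_filter_add_sum_filter_not Finset.univ
          (fun g : A => g ∈ H ∧ f (c * x) = g * x * g⁻¹)]
        have h2 : ∑ g ∈ Finset.univ.filter (fun g : A => g ∈ H ∧ f (c * x) = g * x * g⁻¹),
            (if P x ∧ g ∈ H ∧ c ∈ H ∧ f (c * x) = g * x * g⁻¹ then m c else 0)
            = ∑ g ∈ Finset.univ.filter (fun g : A => g ∈ H ∧ f (c * x) = g * x * g⁻¹), m c := by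
          refine Finset.sum_congr rfl fun g hg => ?_
          obtain ⟨h3, h4⟩ := (Finset.mem_filter.1 hg).2
          rw [if_pos ⟨hPx, h3, hc1, h4⟩]
        have h3 : ∑ g ∈ Finset.univ.filter (fun g : A => ¬ (g ∈ H ∧ f (c * x) = g * x * g⁻¹)),
            (if P x ∧ g ∈ H ∧ c ∈ H ∧ f (c * x) = g * x * g⁻¹ then m c else 0) = 0 := by
          refine Finset.sum_eq_zero fun g hg => ?_
          have h4 := (Finset.mem_filter.1 hg).2
          rw [if_neg]
          rintro ⟨_, h5, _, h6⟩
          exact h4 ⟨h5, h6⟩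
        rw [h2, h3, add_zero, Finset.sum_const, nsmul_eq_mul]
      · rw [if_neg hc, mul_zero]
        refine Finset.sum_eq_zero fun g _ => ?_
        rw [if_neg]
        rintro ⟨_, h1, h2, h3⟩
        exact hc ⟨h2, g, h1, h3⟩
    · rw [if_neg hPx]
      refine Finset.sum_eq_zero fun g _ => Finset.sum_eq_zero fun c _ => ?_
      rw [if_neg (fun h => hPx h.1)]
  simp only [step1]
  let _ : Fintype (Cl H P) := Fintype.ofFinite _
  rw [finsum_eq_sum_of_fintype]
  have step2 : ∀ x : A, (if P x then (C x : ℤ) * G x else 0)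
      = ∑ X : Cl H P, ∑ g : A, if g ∈ H ∧ x = g * (X.out : A) * g⁻¹ then G (X.out : A) else 0 := by
    intro x
    by_cases hPx : P x
    · rw [if_pos hPx]
      set X0 : Cl H P := Quotient.mk _ ⟨x, hPx⟩ with hX0
      obtain ⟨g0, hg0, e0⟩ : ∃ g ∈ H, (X0.out : A) = g * x * g⁻¹ := by
        have h1 : Quotient.mk (clSetoid H P) ⟨x, hPx⟩ = Quotient.mk _ X0.out := by
          rw [Quotient.out_eq]
        exact Quotient.exact h1
      have e1 : x = g0⁻¹ * (X0.out : A) * g0⁻¹⁻¹ := by rw [e0]; group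
      rw [Finset.sum_eq_single X0]
      · have h1 := card_fib' H (H.inv_mem hg0) e1
        simp only [hC]
        rw [h1, ← Finset.sum_filter, Finset.sum_const, nsmul_eq_mul, e0, hGc g0 hg0]
      · intro Y _ hY
        refine Finset.sum_eq_zero fun g _ => ?_
        rw [if_neg]
        rintro ⟨hg, e⟩
        apply hY
        rw [hX0, ← Quotient.out_eq Y]
        exact Quotient.sound ⟨g, hg, e⟩
      · intro h
        exact absurd (Finset.mem_univ _) h
    · rw [if_neg hPx]
      symm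
      refine Finset.sum_eq_zero fun Y _ => Finset.sum_eq_zero fun g _ => ?_
      rw [if_neg]
      rintro ⟨hg, e⟩
      apply hPx
      rw [e]
      exact hPc g hg _ Y.out.2
  simp only [step2]
  rw [Finset.sum_comm, Finset.mul_sum]
  refine Finset.sum_congr rfl fun X _ => ?_
  rw [Finset.sum_comm]
  have h1 : ∀ g : A, ∑ x : A, (if g ∈ H ∧ x = g * (X.out : A) * g⁻¹ then G (X.out : A) else 0)
      = if g ∈ H then G (X.out : A) else 0 := by
    intro g
    by_cases hg : g ∈ H
    · rw [if_pos hg, Finset.sum_eq_single (g * (X.out : A) * g⁻¹)]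
      · rw [if_pos ⟨hg, rfl⟩]
      · intro y _ hy
        rw [if_neg (fun h => hy h.2)]
      · intro h
        exact absurd (Finset.mem_univ _) h
    · rw [if_neg hg]
      exact Finset.sum_eq_zero fun y _ => if_neg (fun h => hg h.1)
  simp only [h1]
  rw [← Finset.sum_filter, Finset.sum_const, nsmul_eq_mul]
  congr 2
  rw [Nat.card_eq_fintype_card, Fintype.card_subtype]

end R2bAux

/-- A nilpotent central element has trace zero on the class functions. -/
theorem trE_nilpotent [Fact p.Prime] [CharP k p] [Fintype A] {H : Subgroup A}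
    {z : MonoidAlgebra k A} (hz : SuppIn H z) (hinv : InvBy H z) (hn : IsNilpotent z) :
    trE k H (fun y => z.coeff y) = 0 := by
  classical
  let _ : Fintype (Cl H (fun x => x ∈ H)) := Fintype.ofFinite _
  have h1 : trE k H (fun y => z.coeff y) = (R2bAux.MT H z).trace := by
    unfold trE Matrix.trace
    rw [finsum_eq_sum_of_fintype]
    refine Finset.sum_congr rfl fun X _ => ?_
    rw [Matrix.diag_apply]
    unfold R2bAux.MT
    refine Finset.sum_congr rfl fun y _ => ?_
    congr!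
  rw [h1]
  exact (Matrix.isNilpotent_trace_of_isNilpotent (R2bAux.MT_nilp hz hinv hn)).eq_zero

/-- A nilpotent central element has trace zero on the class functions constant on p-sections. -/
theorem trL_nilpotent [Fact p.Prime] [CharP k p] [Fintype A] {H : Subgroup A}
    {z : MonoidAlgebra k A} (hz : SuppIn H z) (hinv : InvBy H z) (hn : IsNilpotent z) :
    trL k p H (fun y => z.coeff y) = 0 := by
  classical
  unfold trL
  rw [finsum_eq_zero_of_forall_eq_zero]
  intro X
  set x : A := (X.out : A) with hx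
  have hxH : x ∈ H := X.out.2.1
  let _ : Fintype ↥H := Fintype.ofFinite _
  set f : ↥H → k := fun w => if ∃ h ∈ H, pr p (w : A) = h * x * h⁻¹ then 1 else 0 with hf
  have hf1 : ∀ a b, f (a * b) = f (b * a) := by
    intro a b
    have e : ((b * a : ↥H) : A) = (b : A) * ((a * b : ↥H) : A) * (b : A)⁻¹ := by
      simp only [Subgroup.coe_mul]
      group
    have h1 : (∃ h ∈ H, pr p ((a * b : ↥H) : A) = h * x * h⁻¹) ↔
        (∃ h ∈ H, pr p ((b * a : ↥H) : A) = h * x * h⁻¹) := by
      rw [e, pr_conj]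
      constructor
      · rintro ⟨h, hh, h2⟩
        refine ⟨b * h, H.mul_mem b.2 hh, ?_⟩
        rw [h2]
        group
      · rintro ⟨h, hh, h2⟩
        refine ⟨(b : A)⁻¹ * h, H.mul_mem (H.inv_mem b.2) hh, ?_⟩
        have e2 : pr p ((a * b : ↥H) : A)
            = (b : A)⁻¹ * ((b : A) * pr p ((a * b : ↥H) : A) * (b : A)⁻¹) * b := by group
        rw [e2, h2]
        group
    simp only [hf, h1]
  set r : ℕ := Nat.card A * Nat.totient (ordCompl[p] (Nat.card A)) with hr
  have hur : uexp p A = p ^ r := rfl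
  have hr0 : 0 < r := by
    apply Nat.mul_pos Nat.card_pos
    exact Nat.totient_pos.2 (Nat.ordCompl_pos p Nat.card_pos.ne')
  have hfr : ∀ w, f (w ^ p ^ r) = f w := by
    intro w
    have h1 : ((w ^ p ^ r : ↥H) : A) = pr p (w : A) := by
      rw [pr, hur, Subgroup.coe_pow]
    simp only [hf]
    rw [h1, pr_pr]
  have h0 := ChC.Fl_nilpotent f hf1 r hr0 hfr (R2bAux.dnH H z * single ⟨x, hxH⟩ (1 : k))
    ((R2bAux.dnH_commute hinv ⟨x, hxH⟩).isNilpotent_mul_right (R2bAux.dnH_nilp hz hn))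
  rw [ChC.Fl_apply, ← Equiv.sum_comp (Equiv.mulRight (⟨x, hxH⟩ : ↥H))] at h0
  refine Eq.trans ?_ h0
  have h1 : ∑ y : A, (if y ∈ H ∧ ∃ h ∈ H, pr p (y * x) = h * x * h⁻¹ then z.coeff y else 0)
      = ∑ y ∈ Finset.univ.filter (fun y : A => y ∈ H),
        (if ∃ h ∈ H, pr p (y * x) = h * x * h⁻¹ then z.coeff y else 0) := by
    rw [Finset.sum_filter]
    refine Finset.sum_congr rfl fun y _ => ?_
    by_cases hy : y ∈ H
    · simp only [hy, true_and, if_true]
    · simp only [hy, false_and, if_false]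
  rw [h1]
  symm
  refine Finset.sum_bij (fun (y : ↥H) _ => (y : A)) ?_ ?_ ?_ ?_
  · intro y _
    exact Finset.mem_filter.2 ⟨Finset.mem_univ _, y.2⟩
  · intro a _ b _ h
    exact Subtype.ext h
  · intro b hb
    exact ⟨⟨b, (Finset.mem_filter.1 hb).2⟩, Finset.mem_univ _, rfl⟩
  · intro y _
    rw [coeff_mul_single_apply, mul_one, Equiv.coe_mulRight, mul_inv_cancel_right,
      R2bAux.coeff_dnH]
    simp only [hf]
    split_ifs with h2 h3 h3
    · rw [mul_one]
    · exact absurd h2 h3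
    · exact absurd h3 h2
    · rw [mul_zero]

/-- `nE H m / |H|` reduces to the trace of `∑ m y • y`. -/
theorem nE_trE [Fintype A] (H : Subgroup A) {m : A → ℤ}
    (hm : ∀ h ∈ H, ∀ x, m (h * x * h⁻¹) = m x) :
    ∃ t : ℤ, nE H m = (Nat.card H : ℤ) * t ∧ (t : k) = trE k H (fun y => (m y : k)) := by
  classical
  refine ⟨∑ᶠ X : Cl H (fun x => x ∈ H), ∑ y : A,
    if y ∈ H ∧ ∃ h ∈ H, y * (X.out : A) = h * (X.out : A) * h⁻¹ then m y else 0, ?_, ?_⟩
  · have h := R2bAux.cnt H (fun x => x ∈ H)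
      (fun g hg x hx => H.mul_mem (H.mul_mem hg hx) (H.inv_mem hg)) id (fun g _ x => rfl) hm
    simp only [id] at h
    rw [← h]
    unfold nE
    rw [finsum_eq_sum_of_fintype, Fintype.sum_prod_type]
    refine Finset.sum_congr rfl fun a _ => Finset.sum_congr rfl fun b _ => ?_
    by_cases hab : a ∈ H ∧ b ∈ H
    · rw [if_pos hab, Finset.sum_eq_single (b * a * b⁻¹ * a⁻¹)]
      · rw [if_pos]
        · congr 1
          unfold cmt
          group
        · refine ⟨hab.1, hab.2, ?_, by group⟩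
          exact H.mul_mem (H.mul_mem (H.mul_mem hab.2 hab.1) (H.inv_mem hab.2)) (H.inv_mem hab.1)
      · intro c _ hc
        rw [if_neg]
        rintro ⟨_, _, _, e⟩
        apply hc
        rw [← e]
        group
      · intro h
        exact absurd (Finset.mem_univ _) h
    · rw [if_neg hab]
      symm
      refine Finset.sum_eq_zero fun c _ => ?_
      rw [if_neg]
      rintro ⟨h1, h2, _⟩
      exact hab ⟨h1, h2⟩
  · let _ : Fintype (Cl H (fun x => x ∈ H)) := Fintype.ofFinite _
    unfold trE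
    rw [finsum_eq_sum_of_fintype, finsum_eq_sum_of_fintype]
    push_cast
    rfl

/-- `nL H m / |H|` reduces to the trace of `∑ m y • y`. -/
theorem nL_trL [Fact p.Prime] [Fintype A] (H : Subgroup A) {m : A → ℤ}
    (hm : ∀ h ∈ H, ∀ x, m (h * x * h⁻¹) = m x) :
    ∃ t : ℤ, nL p H m = (Nat.card H : ℤ) * t ∧ (t : k) = trL k p H (fun y => (m y : k)) := by
  classical
  refine ⟨∑ᶠ X : Cl H (fun x => x ∈ H ∧ Preg p x), ∑ y : A,
    if y ∈ H ∧ ∃ h ∈ H, pr p (y * (X.out : A)) = h * (X.out : A) * h⁻¹ then m y else 0, ?_, ?_⟩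
  · have h := R2bAux.cnt H (fun x => x ∈ H ∧ Preg p x)
      (fun g hg x hx => ⟨H.mul_mem (H.mul_mem hg hx.1) (H.inv_mem hg), (preg_conj g x).2 hx.2⟩)
      (pr p) (fun g _ x => pr_conj g x) hm
    rw [← h]
    unfold nL
    rw [finsum_eq_sum_of_fintype, Fintype.sum_prod_type]
    refine Finset.sum_congr rfl fun s _ => ?_
    rw [Fintype.sum_prod_type]
    refine Finset.sum_congr rfl fun g _ => Finset.sum_congr rfl fun c _ => ?_
    have e : ((s ∈ H ∧ g ∈ H ∧ c ∈ H) ∧ Preg p s ∧ pr p (c * s) = g * s * g⁻¹) ↔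
        ((s ∈ H ∧ Preg p s) ∧ g ∈ H ∧ c ∈ H ∧ pr p (c * s) = g * s * g⁻¹) := by tauto
    by_cases h1 : (s ∈ H ∧ g ∈ H ∧ c ∈ H) ∧ Preg p s ∧ pr p (c * s) = g * s * g⁻¹
    · rw [if_pos h1, if_pos (e.1 h1)]
    · rw [if_neg h1, if_neg (fun h2 => h1 (e.2 h2))]
  · let _ : Fintype (Cl H (fun x => x ∈ H ∧ Preg p x)) := Fintype.ofFinite _
    unfold trL
    rw [finsum_eq_sum_of_fintype, finsum_eq_sum_of_fintype]
    push_cast
    rfl

end Pool.Agent.Lib.P0c8ca5
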