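import Mathlib
import Pool.Agent.Lib.P0c8ca5V.R2b
import Pool.Agent.Lib.P0c8ca5.Official

/-!
# The trace formula: definitions and linearity

* `zel k m`: the element of `kA` with coefficients `m x`; `hpe p k A`: the sum of all p-elements.
* `trE k H z`, `trL k p H z` (R2b): the traces of the convolution with `z` on the class functions,
  and on the class functions constant on p-sections.
-/

namespace Pool.Agent.Lib.P0c8ca5

open MonoidAlgebra

set_option linter.unusedSectionVars false

section defs
variable {A : Type*} [Group A]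

/-- the element with coefficients `m x` -/
noncomputable def zel [Finite A] (k : Type*) [Field k] (m : A → ℤ) : MonoidAlgebra k A :=
  MonoidAlgebra.ofCoeff (Finsupp.equivFunOnFinite.symm fun x => ((m x : ℤ) : k))

theorem zel_coeff [Finite A] {k : Type*} [Field k] (m : A → ℤ) (x : A) :
    (zel k m).coeff x = ((m x : ℤ) : k) := rfl

theorem zel_mem [Finite A] {k : Type*} [Field k] {m : A → ℤ}
    (hm : ∀ h x, m (h * x * h⁻¹) = m x) : zel k m ∈ fixAlg k (⊤ : Subgroup A) ⊤ := by
  rw [mem_fixAlg]
  exact ⟨fun x _ => Subgroup.mem_top x, fun g _ x => by rw [zel_coeff, zel_coeff, hm]⟩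

open Classical in
/-- the sum of the p-elements -/
noncomputable def hpe (p : ℕ) (k : Type*) [Field k] (A : Type*) [Group A] [Finite A] :
    MonoidAlgebra k A :=
  MonoidAlgebra.ofCoeff (Finsupp.equivFunOnFinite.symm fun x => if Pel p x then (1 : k) else 0)

open Classical in
theorem hpe_coeff (p : ℕ) (k : Type*) [Field k] [Finite A] (x : A) :
    (hpe p k A).coeff x = if Pel p x then 1 else 0 := by
  unfold hpe
  rw [coeff_ofCoeff, Finsupp.equivFunOnFinite_symm_apply_apply]

end defs

section lin
variable {p : ℕ} {k : Type*} [Field k] {A : Type*} [Group A] [Fintype A]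

theorem trE_add (H : Subgroup A) (f g : A → k) :
    trE k H (fun x => f x + g x) = trE k H f + trE k H g := by
  unfold trE
  rw [← finsum_add_distrib (Set.toFinite _) (Set.toFinite _)]
  refine finsum_congr (fun X => ?_)
  rw [← Finset.sum_add_distrib]
  refine Finset.sum_congr rfl (fun y _ => ?_)
  split_ifs
  · rfl
  · rw [add_zero]

theorem trE_smul (H : Subgroup A) (c : k) (f : A → k) :
    trE k H (fun x => c * f x) = c * trE k H f := by
  unfold trE
  rw [mul_finsum]
  refine finsum_congr (fun X => ?_)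
  rw [Finset.mul_sum]
  refine Finset.sum_congr rfl (fun y _ => ?_)
  split_ifs
  · rfl
  · rw [mul_zero]

theorem trL_add (H : Subgroup A) (f g : A → k) :
    trL k p H (fun x => f x + g x) = trL k p H f + trL k p H g := by
  unfold trL
  rw [← finsum_add_distrib (Set.toFinite _) (Set.toFinite _)]
  refine finsum_congr (fun X => ?_)
  rw [← Finset.sum_add_distrib]
  refine Finset.sum_congr rfl (fun y _ => ?_)
  split_ifs
  · rfl
  · rw [add_zero]

theorem trL_smul (H : Subgroup A) (c : k) (f : A → k) :
    trL k p H (fun x => c * f x) = c * trL k p H f := by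
  unfold trL
  rw [mul_finsum]
  refine finsum_congr (fun X => ?_)
  rw [Finset.mul_sum]
  refine Finset.sum_congr rfl (fun y _ => ?_)
  split_ifs
  · rfl
  · rw [mul_zero]

end lin

section blk
variable {k : Type*} [Field k] [IsAlgClosed k] {A : Type*} [Group A] [Finite A]

/-- a central element is nilpotent or invertible on a block -/
theorem blk_nilp_or_unit {K : Subgroup A} {f z : MonoidAlgebra k A} (h : IsBlock K f)
    (hz : z ∈ fixAlg k K K) : IsNilpotent (z * f) ∨ ∃ w ∈ fixAlg k K K, z * w * f = f := by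
  have hA : IsArtinianRing (fixAlg k K K) := IsArtinianRing.of_finite k _
  rcases h.primIdem.nilp_or_unit (⟨z, hz⟩ : fixAlg k K K) with h1 | ⟨w, hw⟩
  · left
    obtain ⟨n, hn⟩ := h1
    refine ⟨n, ?_⟩
    have h2 := congrArg Subtype.val hn
    rw [Subalgebra.coe_pow] at h2
    exact h2
  · exact Or.inr ⟨w.1, w.2, congrArg Subtype.val hw⟩

/-- a central element is a scalar on a block up to a central nilpotent element -/
theorem blk_scalar {K : Subgroup A} {f z : MonoidAlgebra k A} (h : IsBlock K f)
    (hz : z ∈ fixAlg k K K) : ∃ (c : k) (w : MonoidAlgebra k A), w ∈ fixAlg k K K ∧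
      IsNilpotent w ∧ z * f = c • f + w := by
  have hA : IsArtinianRing (fixAlg k K K) := IsArtinianRing.of_finite k _
  obtain ⟨l, hl⟩ := PrimIdem.exists_char (k := k) h.primIdem
  have h0 : l (⟨z, hz⟩ - algebraMap k (fixAlg k K K) (l ⟨z, hz⟩)) = 0 := by
    rw [map_sub, AlgHom.commutes]; simp
  have h3 : (((⟨z, hz⟩ : fixAlg k K K) - algebraMap k (fixAlg k K K) (l ⟨z, hz⟩)) *
      (⟨f, h.mem⟩ : fixAlg k K K) : fixAlg k K K).1 = z * f - l ⟨z, hz⟩ • f := by
    change (z - algebraMap k (MonoidAlgebra k A) (l ⟨z, hz⟩)) * f = _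
    rw [sub_mul, Algebra.algebraMap_eq_smul_one, smul_mul_assoc, one_mul]
  rcases h.primIdem.nilp_or_unit (⟨z, hz⟩ - algebraMap k (fixAlg k K K) (l ⟨z, hz⟩)) with
    h1 | ⟨w, hw⟩
  · refine ⟨l ⟨z, hz⟩, z * f - l ⟨z, hz⟩ • f, ?_, ?_, by abel⟩
    · exact (fixAlg k K K).sub_mem ((fixAlg k K K).mul_mem hz h.mem)
        ((fixAlg k K K).smul_mem h.mem _)
    · obtain ⟨n, hn⟩ := h1
      refine ⟨n, ?_⟩
      have h2 := congrArg Subtype.val hn
      rw [Subalgebra.coe_pow, h3] at h2
      exact h2
  · exfalso
    have h2 := congrArg l hw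
    rw [map_mul, map_mul, h0, zero_mul, zero_mul, hl] at h2
    exact zero_ne_one h2

end blk

end Pool.Agent.Lib.P0c8ca5
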