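import Pool.Agent.Lib.P0c8ca5V.THpA

/-!
# THpB (1 h): the sum of the p-elements is nilpotent on the blocks of positive defect

PROOF. Suppose not: by `blk_nilp_or_unit` (TDefs) there is a central `w` with `hpe * w * f = f`, so `hpe * hpe * (w * w * f) = f` (everything commutes: `hpe`, `w`, `f` central).
Since `f` is a block and not `IsDZ`, there is a p-subgroup `P ≠ ⊥` with `HasBr P f`; let `z ∈ P` be of order `p` (Cauchy: `exists_prime_orderOf_dvd_card'`),
`D = zpowers z`, `C = centralizer D`, so `f.coeff x ≠ 0` for some `x ∈ centralizer P ⊆ C`. Let `β = resS (C : Set A)` (`coeff_resS..`):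
`resS_mul` for the p-group `D` and `D`-invariant elements (all central elements are): `β (hpe * hpe * (w w f)) = β hpe * β hpe * β (w w f)`.
Claim `β hpe * β hpe = 0`: `β hpe = ∑_{u ∈ C, Pel u} u`, its coefficient function is invariant under `u ↦ z * u` (`z` is a p-element that commutes with all of `C`:
`Pel p (z * u) ↔ Pel p u` for `u ∈ C`), so `single z 1 * β hpe = β hpe`. The coefficient of `β hpe * β hpe` at `y` is
`∑_{u} b u * b (u⁻¹ * y)` (`coeff_mul_fin`), a sum of a function invariant under the translation `u ↦ z * u` without fixed points of the p-group `D`: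
`sum_eq_sum_fixed` (P0c8ca5.Basic) with the empty set `S` gives `0`.
So `β f = 0`, contradiction to `f.coeff x ≠ 0`, `x ∈ C`.
-/

namespace Pool.Agent.Lib.P0c8ca5

open MonoidAlgebra

set_option linter.unusedSectionVars false

variable {p : ℕ} {k : Type*} [Field k] {A : Type*} [Group A] [Finite A]
variable [Fact p.Prime] [CharP k p] [IsAlgClosed k]

namespace THpBAux

omit [Finite A] [CharP k p] [IsAlgClosed k] [Fact p.Prime] [Field k] in
theorem pel_mul {d u : A} (hd : Pel p d) (hc : Commute d u) (hu : Pel p u) : Pel p (d * u) := by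
  obtain ⟨m, hm⟩ := hd
  obtain ⟨n, hn⟩ := hu
  refine ⟨m + n, ?_⟩
  rw [hc.mul_pow, pow_add, pow_mul, hm, one_pow, one_mul, mul_comm (p ^ m), pow_mul, hn, one_pow]

theorem res_sq [Fintype A] {D : Subgroup A} (hD : IsPGroup p D) (hne : D ≠ ⊥)
    (hcomm : D ≤ Subgroup.centralizer (D : Set A)) :
    resS (Subgroup.centralizer (D : Set A) : Set A) (hpe p k A) *
      resS (Subgroup.centralizer (D : Set A) : Set A) (hpe p k A) = 0 := by
  classical
  set C := Subgroup.centralizer (D : Set A) with hC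
  have hpel : ∀ d ∈ D, Pel p d := by
    intro d hd
    obtain ⟨n, hn⟩ := hD ⟨d, hd⟩
    exact ⟨n, by simpa using congrArg Subtype.val hn⟩
  have hcm : ∀ d ∈ D, ∀ u ∈ C, d * u = u * d := by
    intro d hd u hu
    exact Subgroup.mem_centralizer_iff.1 hu d hd
  have hb : ∀ d ∈ D, ∀ u, (resS (C : Set A) (hpe p k A)).coeff (d * u) =
      (resS (C : Set A) (hpe p k A)).coeff u := by
    intro d hd u
    by_cases hu : u ∈ C
    · have hdu : d * u ∈ C := C.mul_mem (hcomm hd) hu
      rw [coeff_resS_of_mem _ (SetLike.mem_coe.2 hu), coeff_resS_of_mem _ (SetLike.mem_coe.2 hdu),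
        hpe_coeff, hpe_coeff]
      have h : Pel p (d * u) ↔ Pel p u := by
        constructor
        · intro h1
          have h2 := pel_mul (hpel d⁻¹ (D.inv_mem hd))
            (show Commute d⁻¹ (d * u) from hcm d⁻¹ (D.inv_mem hd) _ hdu) h1
          rwa [inv_mul_cancel_left] at h2
        · exact pel_mul (hpel d hd) (hcm d hd u hu)
      by_cases hp : Pel p u
      · rw [if_pos hp, if_pos (h.2 hp)]
      · rw [if_neg hp, if_neg (fun h' => hp (h.1 h'))]
    · have hdu : d * u ∉ C := by
        intro h'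
        apply hu
        have := C.mul_mem (C.inv_mem (hcomm hd)) h'
        rwa [inv_mul_cancel_left] at this
      rw [coeff_resS_of_notMem _ (fun h' => hu (SetLike.mem_coe.1 h')),
        coeff_resS_of_notMem _ (fun h' => hdu (SetLike.mem_coe.1 h'))]
  ext y
  rw [coeff_mul_fin]
  rw [sum_eq_sum_fixed (p := p) hD ((MulAction.toPermHom A A).comp D.subtype)
    (fun u => (resS (C : Set A) (hpe p k A)).coeff u *
      (resS (C : Set A) (hpe p k A)).coeff (u⁻¹ * y)) ?_ ∅ ?_]
  · rw [Finset.sum_empty]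
    rfl
  · intro g u
    change (resS (C : Set A) (hpe p k A)).coeff ((g : A) * u) *
      (resS (C : Set A) (hpe p k A)).coeff (((g : A) * u)⁻¹ * y) = _
    rw [hb g g.2 u]
    by_cases hu : u ∈ C
    · have h1 : ((g : A) * u)⁻¹ * y = (g : A)⁻¹ * (u⁻¹ * y) := by
        rw [hcm g g.2 u hu]
        group
      rw [h1, hb _ (D.inv_mem g.2)]
    · rw [coeff_resS_of_notMem _ (fun h' => hu (SetLike.mem_coe.1 h')), zero_mul, zero_mul]
  · intro x
    constructor
    · intro hx
      exact absurd hx (Finset.notMem_empty x)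
    · intro hx
      exfalso
      obtain ⟨z, hz, hz1⟩ := (Subgroup.bot_or_exists_ne_one D).resolve_left hne
      apply hz1
      have h1 : z * x = x := hx ⟨z, hz⟩
      exact mul_eq_right.1 h1

end THpBAux

theorem hpe_nonDZ {f : MonoidAlgebra k A} (hf : IsBlock (⊤ : Subgroup A) f)
    (h : ¬ IsDZ p (⊤ : Subgroup A) f) : IsNilpotent (hpe p k A * f) := by
  classical
  cases nonempty_fintype A
  rcases blk_nilp_or_unit hf (hpe_mem (p := p) (k := k) (A := A)) with h1 | ⟨w, hw, hwf⟩
  · exact h1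
  exfalso
  have hex : ∃ P : Subgroup A, IsPGroup p P ∧ HasBr P f ∧ P ≠ ⊥ := by
    by_contra hcon
    apply h
    refine ⟨hf, fun P _ hP hbr => ?_⟩
    by_contra hne
    exact hcon ⟨P, hP, hbr, hne⟩
  obtain ⟨P, hP, ⟨x, hx, hfx⟩, hPne⟩ := hex
  obtain ⟨z, hz, hz1⟩ := (Subgroup.bot_or_exists_ne_one P).resolve_left hPne
  have hDP : Subgroup.zpowers z ≤ P := by rwa [Subgroup.zpowers_le]
  have hD : IsPGroup p (Subgroup.zpowers z) := hP.to_le hDP
  have hDne : Subgroup.zpowers z ≠ ⊥ := by
    rwa [Ne, Subgroup.zpowers_eq_bot]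
  have hcomm : Subgroup.zpowers z ≤
      Subgroup.centralizer ((Subgroup.zpowers z : Subgroup A) : Set A) := by
    rw [Subgroup.zpowers_le, Subgroup.mem_centralizer_iff]
    rintro _ ⟨n, rfl⟩
    exact ((Commute.refl z).zpow_left n).eq
  have hsq := THpBAux.res_sq (p := p) (k := k) hD hDne hcomm
  have hh : hpe p k A ∈ fixAlg k (⊤ : Subgroup A) ⊤ := hpe_mem
  have hwf' : w * f ∈ fixAlg k (⊤ : Subgroup A) ⊤ := (fixAlg k _ _).mul_mem hw hf.mem
  have hwwf : w * (w * f) ∈ fixAlg k (⊤ : Subgroup A) ⊤ := (fixAlg k _ _).mul_mem hw hwf'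
  have hhh : hpe p k A * hpe p k A ∈ fixAlg k (⊤ : Subgroup A) ⊤ := (fixAlg k _ _).mul_mem hh hh
  have hfe : hpe p k A * hpe p k A * (w * (w * f)) = f := by
    have hc : w * hpe p k A = hpe p k A * w :=
      commute_of (mem_fixAlg.1 hw).1 (mem_fixAlg.1 hh).2
    calc hpe p k A * hpe p k A * (w * (w * f)) = hpe p k A * (hpe p k A * w) * (w * f) := by
          simp only [mul_assoc]
      _ = hpe p k A * (w * hpe p k A) * (w * f) := by rw [hc]
      _ = hpe p k A * w * (hpe p k A * w * f) := by simp only [mul_assoc]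
      _ = f := by rw [hwf, hwf]
  have hinv : ∀ a : MonoidAlgebra k A, a ∈ fixAlg k (⊤ : Subgroup A) ⊤ →
      InvBy (Subgroup.zpowers z) a := fun a ha => (mem_fixAlg.1 ha).2.mono le_top
  have h0 : resS (Subgroup.centralizer ((Subgroup.zpowers z : Subgroup A) : Set A) : Set A) f
      = 0 := by
    rw [← hfe, resS_mul hD (hinv _ hhh) (hinv _ hwwf), resS_mul hD (hinv _ hh) (hinv _ hh), hsq,
      zero_mul]
  apply hfx
  have hxC : x ∈ Subgroup.centralizer ((Subgroup.zpowers z : Subgroup A) : Set A) :=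
    Subgroup.centralizer_le (SetLike.coe_subset_coe.2 hDP) hx
  rw [← coeff_resS_of_mem (S := (Subgroup.centralizer
    ((Subgroup.zpowers z : Subgroup A) : Set A) : Set A)) f hxC, h0]
  rfl

end Pool.Agent.Lib.P0c8ca5
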