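import Mathlib
import Pool.Agent.Lib.P0c8ca5V.Defs
import Pool.Agent.Lib.P0c8ca5N.Least

/-! Group theory of `O^p` and `O_p`. -/

namespace Pool.Agent.Lib.P0c8ca5

namespace OpmAux

theorem orderOf_conj {A : Type*} [Group A] (g y : A) : orderOf (g * y * g⁻¹) = orderOf y := by
  have := MulEquiv.orderOf_eq (MulAut.conj g) y
  simpa using this

theorem cg_infO {A : Type*} [Group A] (g : A) (P Q : Subgroup A) :
    cg g (P ⊓ Q) = cg g P ⊓ cg g Q := by
  ext x
  simp only [mem_cg, Subgroup.mem_inf]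

theorem cg_centO {A : Type*} [Group A] (g : A) (T : Subgroup A) :
    cg g (Subgroup.centralizer (T : Set A)) = Subgroup.centralizer (cg g T : Set A) := by
  ext x
  rw [mem_cg, Subgroup.mem_centralizer_iff, Subgroup.mem_centralizer_iff]
  constructor
  · intro h y hy
    have h1 := h _ (mem_cg.1 hy)
    calc y * x = g * (g⁻¹ * y * g * (g⁻¹ * x * g)) * g⁻¹ := by group
      _ = g * (g⁻¹ * x * g * (g⁻¹ * y * g)) * g⁻¹ := by rw [h1]
      _ = x * y := by group
  · intro h y hy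
    have h2 : g * y * g⁻¹ ∈ (cg g T : Set A) := by
      change g * y * g⁻¹ ∈ cg g T
      rw [mem_cg]
      have e : g⁻¹ * (g * y * g⁻¹) * g = y := by group
      rw [e]; exact hy
    have h1 := h _ h2
    calc y * (g⁻¹ * x * g) = g⁻¹ * (g * y * g⁻¹ * x) * g := by group
      _ = g⁻¹ * (x * (g * y * g⁻¹)) * g := by rw [h1]
      _ = g⁻¹ * x * g * y := by group

end OpmAux

variable {p : ℕ} {A : Type*} [Group A]

theorem Opr_le (H : Subgroup A) : Opr p H ≤ H := by
  unfold Opr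
  rw [Subgroup.closure_le]
  exact fun x hx => hx.1

theorem Opr_mono {U H : Subgroup A} (h : U ≤ H) : Opr p U ≤ Opr p H :=
  Subgroup.closure_mono fun _ hx => ⟨h hx.1, hx.2⟩

namespace OpmAux

theorem Opr_cg' (g : A) (H : Subgroup A) : Opr p (cg g H) = cg g (Opr p H) := by
  unfold Opr cg
  rw [MonoidHom.map_closure]
  congr 1
  ext x
  constructor
  · rintro ⟨⟨y, hy, rfl⟩, hx⟩
    refine ⟨y, ⟨hy, ?_⟩, rfl⟩
    have hx' : Preg p (g * y * g⁻¹) := hx
    unfold Preg at hx' ⊢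
    rwa [orderOf_conj] at hx'
  · rintro ⟨y, ⟨hy, hx⟩, rfl⟩
    refine ⟨⟨y, hy, rfl⟩, ?_⟩
    change Preg p (g * y * g⁻¹)
    unfold Preg at hx ⊢
    rwa [orderOf_conj]

end OpmAux

theorem Opr_normal (H : Subgroup A) : H ≤ Subgroup.normalizer (Opr p H : Set A) := by
  intro g hg
  rw [← cg_eq_self_iff, ← OpmAux.Opr_cg', cg_eq_self_iff.2 (Subgroup.le_normalizer hg)]

theorem Opr_cg (g : A) (H : Subgroup A) : Opr p (cg g H) = cg g (Opr p H) := OpmAux.Opr_cg' g H

/-- `H / O^p(H)` is a p-group. -/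
theorem Opr_pow [Fact p.Prime] [Finite A] {H : Subgroup A} {x : A} (hx : x ∈ H) :
    ∃ n : ℕ, x ^ p ^ n ∈ Opr p H := by
  obtain ⟨r, hr⟩ := uexp_eq p A
  refine ⟨r, ?_⟩
  rw [← hr]
  exact Subgroup.subset_closure ⟨pr_mem hx, preg_pr x⟩

/-- If `O^p(U) ≤ H ≤ U`, then `O^p(H) = O^p(U)`. -/
theorem Opr_eq_of_le [Fact p.Prime] [Finite A] {U H : Subgroup A} (h1 : Opr p U ≤ H)
    (h2 : H ≤ U) : Opr p H = Opr p U := by
  refine le_antisymm (Opr_mono h2) ?_
  conv_lhs => unfold Opr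
  rw [Subgroup.closure_le]
  exact fun x hx => Subgroup.subset_closure ⟨h1 (Subgroup.subset_closure hx), hx.2⟩

/-- If `O^p(H) ≤ K ≤ H` (or more generally `K ≤ H`), `x ^ p ^ n ∈ K` for all `x ∈ H`, `K` normal in
`H`, then `O^p(H) ≤ K`. -/
theorem Opr_le_of_pow [Fact p.Prime] [Finite A] {H K : Subgroup A} (hKH : K ≤ H)
    (hn : H ≤ Subgroup.normalizer (K : Set A)) (h : ∀ x ∈ H, ∃ n : ℕ, x ^ p ^ n ∈ K) :
    Opr p H ≤ K := by
  unfold Opr
  rw [Subgroup.closure_le]
  rintro x ⟨hx, hr⟩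
  obtain ⟨n, hn'⟩ := h x hx
  exact mem_of_preg hr hn'

namespace OpmAux

/-- A normal p-subgroup of a normal subgroup of a group with `O_p = 1` is trivial. -/
theorem bot_of_normal [Fact p.Prime] [Finite A] {H O R : Subgroup A} (hH : NoP p H) (hO : O ≤ H)
    (hn : H ≤ Subgroup.normalizer (O : Set A)) (hR : R ≤ O) (hRp : IsPGroup p R)
    (hRn : O ≤ Subgroup.normalizer (R : Set A)) : R = ⊥ := by
  have hM := Op_mem p O
  have hle : ∀ h ∈ H, cg h (Op p O) ≤ Op p O := by
    intro h hh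
    have hO' : cg h O = O := cg_eq_self_iff.2 (hn hh)
    refine le_Op ?_ (isPGroup_cg hM.2.1) ?_
    · conv_rhs => rw [← hO']
      exact cg_le_cg hM.1
    · intro x hx
      rw [← cg_eq_self_iff, cg_cg]
      have h1 : h⁻¹ * x * h ∈ O := by
        rw [← hO', mem_cg] at hx
        exact hx
      have h2 := cg_eq_self_iff.2 (hM.2.2 h1)
      have e1 : x * h = h * (h⁻¹ * x * h) := by group
      rw [e1, ← cg_cg, h2]
  have heq : H ≤ Subgroup.normalizer (Op p O : Set A) := by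
    intro h hh
    rw [← cg_eq_self_iff]
    apply le_antisymm (hle h hh)
    have := cg_le_cg (g := h) (hle h⁻¹ (H.inv_mem hh))
    rwa [cg_cg, mul_inv_cancel, cg_one] at this
  have hbot := hH (Op p O) (hM.1.trans hO) heq hM.2.1
  have h3 : R ≤ Op p O := le_Op hR hRp hRn
  rw [hbot] at h3
  exact le_bot_iff.1 h3

end OpmAux

/-- If `O_p(H) = 1`, then a p-subgroup `R` of `A` normalized by `O^p(H)` and contained in `H`
centralizes `O^p(H)`, and the centralizer of `O^p(H)` in `H` is a p'-group; so `R = 1`. -/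
theorem norm_trivial [Fact p.Prime] [Finite A] {H R : Subgroup A} (hH : NoP p H) (hRH : R ≤ H)
    (hR : IsPGroup p R) (hn : Opr p H ≤ Subgroup.normalizer (R : Set A)) : R = ⊥ := by
  have hOH : Opr p H ≤ H := Opr_le H
  have hON : H ≤ Subgroup.normalizer (Opr p H : Set A) := Opr_normal H
  -- `R ⊓ O = ⊥`
  have hRO : R ⊓ Opr p H = ⊥ := by
    refine OpmAux.bot_of_normal hH hOH hON inf_le_right (hR.to_le inf_le_left) ?_
    intro x hx
    rw [← cg_eq_self_iff, OpmAux.cg_infO, cg_eq_self_iff.2 (hn hx),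
      cg_eq_self_iff.2 (hON (hOH hx))]
  -- `R` centralizes `O`
  have hcent : R ≤ Subgroup.centralizer (Opr p H : Set A) := by
    intro r hr
    rw [Subgroup.mem_centralizer_iff]
    intro o ho
    have h1 : r * (o * r⁻¹ * o⁻¹) ∈ R :=
      R.mul_mem hr ((Subgroup.mem_normalizer_iff.1 (hn ho) r⁻¹).1 (R.inv_mem hr))
    have h2 : (r * o * r⁻¹) * o⁻¹ ∈ Opr p H :=
      (Opr p H).mul_mem ((Subgroup.mem_normalizer_iff.1 (hON (hRH hr)) o).1 ho)
        ((Opr p H).inv_mem ho)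
    have e : (r * o * r⁻¹) * o⁻¹ = r * (o * r⁻¹ * o⁻¹) := by group
    rw [e] at h2
    have h3 : r * (o * r⁻¹ * o⁻¹) ∈ (⊥ : Subgroup A) := by
      rw [← hRO]; exact ⟨h1, h2⟩
    rw [Subgroup.mem_bot] at h3
    have h4 : r * o = o * r := by
      calc r * o = (r * (o * r⁻¹ * o⁻¹)) * (o * r) := by group
        _ = o * r := by rw [h3, one_mul]
    exact h4.symm
  -- a Sylow subgroup of `H` containing `R`
  obtain ⟨P, hP⟩ := exists_isSyl (p := p) H
  obtain ⟨g, hg, hRP⟩ := hP.conj R hRH hR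
  have hS := hP.cg_self hg
  have hsup : Opr p H ⊔ cg g P = H :=
    hS.sup_eq hOH hON fun x hx => Opr_pow hx
  -- `Q = S ⊓ C(O)` is normal in `H`
  have hQn : H ≤ Subgroup.normalizer
      ((cg g P ⊓ Subgroup.centralizer (Opr p H : Set A) : Subgroup A) : Set A) := by
    conv_lhs => rw [← hsup]
    refine sup_le ?_ ?_
    · intro x hx
      rw [Subgroup.mem_normalizer_iff]
      intro q
      constructor
      · intro hq
        have h1 := (Subgroup.mem_centralizer_iff.1 hq.2) x hx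
        have h2 : x * q * x⁻¹ = q := by rw [h1]; group
        rw [h2]; exact hq
      · intro hq
        have h1 := (Subgroup.mem_centralizer_iff.1 hq.2) x hx
        have h2 : q = x * q * x⁻¹ := by
          calc q = x⁻¹ * (x * q * x⁻¹ * x) := by group
            _ = x⁻¹ * (x * (x * q * x⁻¹)) := by rw [h1]
            _ = x * q * x⁻¹ := by group
        rw [h2]; exact hq
    · intro s hs
      have hsH : s ∈ H := hS.le hs
      have hcs : cg s (cg g P) = cg g P := cg_eq_self_iff.2 (Subgroup.le_normalizer hs)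
      rw [← cg_eq_self_iff, OpmAux.cg_infO, hcs, OpmAux.cg_centO, cg_eq_self_iff.2 (hON hsH)]
  have hQ := hH _ (inf_le_left.trans hS.le) hQn (hS.isPGroup.to_le inf_le_left)
  have h5 : R ≤ cg g P ⊓ Subgroup.centralizer (Opr p H : Set A) := le_inf hRP hcent
  rw [hQ] at h5
  exact le_bot_iff.1 h5

/-- If `O^p(U) = O^p(U')`, `U ≤ U'` and `U` has a nontrivial normal p-subgroup, then so has `U'`. -/
theorem NoP_up [Fact p.Prime] [Finite A] {U U' : Subgroup A} (h : U ≤ U')
    (ho : Opr p U = Opr p U') (hU' : NoP p U') : NoP p U := by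
  intro R hR hn hRp
  refine norm_trivial hU' (hR.trans h) hRp ?_
  rw [← ho]
  exact (Opr_le U).trans hn

/-- If `O_p(U) ≠ 1` for `O^p(U)` instead of `U`, then `O_p(U) ≠ 1`. -/
theorem NoP_Opr [Fact p.Prime] [Finite A] {U : Subgroup A} (hU : NoP p U) : NoP p (Opr p U) := by
  intro R hR hn hRp
  exact norm_trivial hU (hR.trans (Opr_le U)) hRp hn

end Pool.Agent.Lib.P0c8ca5
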