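import Mathlib
import Pool.Agent.Lib.P0c8ca5V.Defs

/-! Divisibility of the counts by the order of the group, and their values as traces. -/

namespace Pool.Agent.Lib.P0c8ca5

variable {p : ℕ} {A : Type*} [Group A]

namespace FrobAux

/-- the fibres of `b ↦ b x b⁻¹` over the conjugates of `x` have equal size -/
theorem fib_card [DecidableEq A] (H : Subgroup A) [Fintype H] (x y : H)
    (h : H) (hy : y = h * x * h⁻¹) :
    (Finset.univ.filter (fun b : H => b * x * b⁻¹ = y)).card
      = (Finset.univ.filter (fun b : H => b * x * b⁻¹ = x)).card := by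
  refine Finset.card_bij' (fun b _ => h⁻¹ * b) (fun b _ => h * b) ?_ ?_ ?_ ?_
  · intro b hb
    simp only [Finset.mem_filter, Finset.mem_univ, true_and] at hb ⊢
    rw [hy] at hb
    calc h⁻¹ * b * x * (h⁻¹ * b)⁻¹ = h⁻¹ * (b * x * b⁻¹) * h := by group
      _ = h⁻¹ * (h * x * h⁻¹) * h := by rw [hb]
      _ = x := by group
  · intro b hb
    simp only [Finset.mem_filter, Finset.mem_univ, true_and] at hb ⊢
    calc h * b * x * (h * b)⁻¹ = h * (b * x * b⁻¹) * h⁻¹ := by group
      _ = y := by rw [hb, hy]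
  · intro b _; simp
  · intro b _; simp

theorem pair_sum [Finite A] (H : Subgroup A) (F : A → A → ℤ)
    (hF : ∀ h ∈ H, ∀ s t, F (h * s * h⁻¹) (h * t * h⁻¹) = F s t) :
    ∑ᶠ t : ↥H × ↥H, F (t.1 : A) ((t.2 : A) * (t.1 : A) * (t.2 : A)⁻¹)
      = (Nat.card H : ℤ) * ∑ᶠ X : Cl H (fun x => x ∈ H),
          ∑ᶠ y : {y : A // InCl H (fun x => x ∈ H) X y}, F (X.out : A) (y : A) := by
  classical
  have _ := Fintype.ofFinite A
  have _ : Fintype (Cl H (fun x => x ∈ H)) := Fintype.ofFinite _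
  let κ : H → Cl H (fun x => x ∈ H) := fun a => Quotient.mk (clSetoid H (fun x => x ∈ H)) ⟨a, a.2⟩
  rw [finsum_eq_sum_of_fintype, Fintype.sum_prod_type]
  rw [finsum_eq_sum_of_fintype, Finset.mul_sum]
  rw [← Finset.sum_fiberwise Finset.univ κ]
  refine Finset.sum_congr rfl fun X _ => ?_
  obtain ⟨x, hx⟩ : ∃ x : H, (x : A) = (X.out : A) := ⟨⟨X.out, X.out.2⟩, rfl⟩
  have hκx : κ x = X := by
    have : κ x = Quotient.mk (clSetoid H (fun x => x ∈ H)) X.out := by
      change Quotient.mk (clSetoid H (fun x => x ∈ H)) _ = _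
      congr 1
      exact Subtype.ext hx
    rw [this]; exact Quotient.out_eq X
  have hconj : ∀ y : H, κ y = X → ∃ h : H, y = h * x * h⁻¹ := by
    intro y hy
    rw [← hκx] at hy
    obtain ⟨h, hh, e⟩ := Quotient.exact hy.symm
    exact ⟨⟨h, hh⟩, Subtype.ext e⟩
  have hconj' : ∀ h : H, κ (h * x * h⁻¹) = X := by
    intro h
    rw [← hκx]
    have e : clSetoid H (fun x => x ∈ H) ⟨x, x.2⟩ ⟨(h * x * h⁻¹ : H), (h * x * h⁻¹).2⟩ :=
      ⟨h, h.2, rfl⟩
    exact (Quotient.sound e).symm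
  -- the inner sum is constant on the class
  have hg : ∀ a : H, κ a = X → ∑ b : H, F (a : A) ((b : A) * a * (b : A)⁻¹)
      = ∑ b : H, F (x : A) ((b : A) * x * (b : A)⁻¹) := by
    intro a ha
    obtain ⟨h, rfl⟩ := hconj a ha
    refine Fintype.sum_equiv (MulAut.conj h⁻¹).toEquiv _ _ fun b => ?_
    rw [← hF (h : A) h.2 (x : A),
      show (MulAut.conj h⁻¹).toEquiv b = h⁻¹ * b * h by simp]
    congr 1
    simp only [Subgroup.coe_mul, Subgroup.coe_inv]
    group
  -- the sum over the group is |C_H(x)| times the sum over the class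
  have hN : ∀ y : H, κ y = X → (Finset.univ.filter (fun b : H => b * x * b⁻¹ = y)).card
      = (Finset.univ.filter (fun b : H => b * x * b⁻¹ = x)).card := by
    intro y hy
    obtain ⟨h, hh⟩ := hconj y hy
    exact fib_card H x y h hh
  have hsum : ∀ f : H → ℤ, ∑ b : H, f (b * x * b⁻¹)
      = ((Finset.univ.filter (fun b : H => b * x * b⁻¹ = x)).card : ℤ) *
        ∑ y ∈ Finset.univ.filter (fun y : H => κ y = X), f y := by
    intro f
    rw [← Finset.sum_fiberwise_of_maps_to (s := Finset.univ)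
      (t := Finset.univ.filter (fun y : H => κ y = X)) (g := fun b => b * x * b⁻¹)
      (fun b _ => by simp [hconj' b]), Finset.mul_sum]
    refine Finset.sum_congr rfl fun y hy => ?_
    rw [Finset.mem_filter] at hy
    rw [← hN y hy.2]
    rw [Finset.sum_congr rfl (g := fun _ => f y)]
    · simp
    · intro b hb
      rw [(Finset.mem_filter.1 hb).2]
  have hcard : ((Finset.univ.filter (fun b : H => b * x * b⁻¹ = x)).card : ℤ) *
      ((Finset.univ.filter (fun y : H => κ y = X)).card : ℤ) = (Nat.card H : ℤ) := by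
    have := hsum (fun _ => 1)
    simp only [Finset.sum_const, Finset.card_univ, nsmul_eq_mul, mul_one] at this
    rw [Nat.card_eq_fintype_card, this]
  rw [Finset.sum_congr rfl (g := fun _ => ∑ b : H, F (x : A) ((b : A) * x * (b : A)⁻¹))
    (fun a ha => hg a (Finset.mem_filter.1 ha).2)]
  rw [Finset.sum_const, nsmul_eq_mul]
  have h1 := hsum (fun y => F (x : A) (y : A))
  simp only [Subgroup.coe_mul, Subgroup.coe_inv] at h1
  rw [h1, ← hcard, hx]
  have h2 : ∑ᶠ y : {y : A // InCl H (fun x => x ∈ H) X y}, F (X.out : A) (y : A)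
      = ∑ y ∈ Finset.univ.filter (fun y : H => κ y = X), F (X.out : A) (y : A) := by
    rw [finsum_eq_sum_of_fintype]
    refine Finset.sum_bij' (fun y _ => ⟨(y : A), y.2.1⟩)
      (fun y hy => ⟨(y : A), ⟨y.2, (Finset.mem_filter.1 hy).2⟩⟩) ?_ ?_ ?_ ?_ ?_
    · intro y _
      simp only [Finset.mem_filter, Finset.mem_univ, true_and]
      exact y.2.2
    · intro y _; exact Finset.mem_univ _
    · intro y _; rfl
    · intro y _; rfl
    · intro y _; rfl
  rw [h2]
  ring

open Classical in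
/-- sums over triples in `H` as sums over `H × H` of a function of a conjugate pair -/
theorem triple_sum [Finite A] (H : Subgroup A) (m : A → ℤ) (R : A → A → A → Prop) :
    ∑ᶠ t : A × A × A, (if (t.1 ∈ H ∧ t.2.1 ∈ H ∧ t.2.2 ∈ H) ∧ R t.1 t.2.1 t.2.2
      then m t.2.2 else 0) =
    ∑ᶠ t : ↥H × ↥H, ∑ᶠ c : H, if R t.1 t.2 c then m (c : A) else 0 := by
  have _ := Fintype.ofFinite A
  simp only [finsum_eq_sum_of_fintype, Fintype.sum_prod_type]
  have key : ∀ f : A → ℤ, ∑ a : A, (if a ∈ H then f a else 0) = ∑ a : H, f a := by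
    intro f
    rw [← Finset.sum_filter]
    exact Finset.sum_bij' (fun a ha => ⟨a, (Finset.mem_filter.1 ha).2⟩) (fun a _ => (a : A))
      (fun _ _ => Finset.mem_univ _)
      (fun a _ => Finset.mem_filter.2 ⟨Finset.mem_univ _, a.2⟩) (fun _ _ => rfl)
      (fun _ _ => rfl) (fun _ _ => rfl)
  rw [← key (fun a => ∑ b : H, ∑ c : H, if R a b c then m (c : A) else 0)]
  refine Finset.sum_congr rfl fun a _ => ?_
  by_cases ha : a ∈ H
  · rw [if_pos ha, ← key (fun b => ∑ c : H, if R a b c then m (c : A) else 0)]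
    refine Finset.sum_congr rfl fun b _ => ?_
    by_cases hb : b ∈ H
    · rw [if_pos hb, ← key (fun c => if R a b c then m c else 0)]
      refine Finset.sum_congr rfl fun c _ => ?_
      by_cases hc : c ∈ H
      · simp [ha, hb, hc]
      · simp [hc]
    · rw [if_neg hb]
      exact Finset.sum_eq_zero fun c _ => by simp [hb]
  · rw [if_neg ha]
    exact Finset.sum_eq_zero fun b _ => Finset.sum_eq_zero fun c _ => by simp [ha]

theorem pel_conj {h x : A} : Pel p (h * x * h⁻¹) ↔ Pel p x := by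
  unfold Pel
  refine exists_congr fun n => ?_
  rw [conj_pow]
  constructor
  · intro e
    have : x ^ p ^ n = h⁻¹ * (h * x ^ p ^ n * h⁻¹) * h := by group
    rw [this, e]; group
  · intro e; rw [e]; group

theorem preg_conj {h x : A} : Preg p (h * x * h⁻¹) ↔ Preg p x := by
  unfold Preg
  rw [show h * x * h⁻¹ = MulAut.conj h x from rfl,
    show orderOf (MulAut.conj h x) = orderOf x from
      orderOf_injective (MulAut.conj h).toMonoidHom (MulAut.conj h).injective x]

theorem pr_conj' {h x : A} : pr p (h * x * h⁻¹) = h * pr p x * h⁻¹ := by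
  unfold pr
  rw [conj_pow]

end FrobAux

open FrobAux

/-- For a class function `ψ` of `H`, the sum of `ψ [a,b]` over `a, b` in `H` is
`|H|` times the sum over representatives `x` of the classes of `H` of the sum over the
conjugates `y` of `x` of `ψ (x y⁻¹)`. -/
theorem comm_sum [Finite A] (H : Subgroup A) (ψ : A → ℤ) (hψ : ∀ h ∈ H, ∀ x, ψ (h * x * h⁻¹) = ψ x) :
    ∑ᶠ t : ↥H × ↥H, ψ (cmt (t.1 : A) (t.2 : A))
      = (Nat.card H : ℤ) * ∑ᶠ X : Cl H (fun x => x ∈ H),
          ∑ᶠ y : {y : A // InCl H (fun x => x ∈ H) X y}, ψ ((X.out : A) * (y : A)⁻¹) := by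
  have := pair_sum H (fun s t => ψ (s * t⁻¹)) (fun h hh s t => by
    rw [← hψ h hh (s * t⁻¹)]; congr 1; group)
  rw [← this]
  refine finsum_congr fun t => ?_
  congr 1
  unfold cmt
  group

theorem nE_dvd [Finite A] (H : Subgroup A) {m : A → ℤ} (hm : IsWt p H m) :
    (Nat.card H : ℤ) ∣ nE H m := by
  classical
  have h1 : nE H m = ∑ᶠ t : ↥H × ↥H, m ((cmt (t.1 : A) (t.2 : A))⁻¹) := by
    have _ := Fintype.ofFinite A
    unfold nE
    simp only [finsum_eq_sum_of_fintype]
    rw [← Finset.sum_filter]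
    exact Finset.sum_bij' (fun t ht => (⟨t.1, (Finset.mem_filter.1 ht).2.1⟩,
        ⟨t.2, (Finset.mem_filter.1 ht).2.2⟩)) (fun t _ => ((t.1 : A), (t.2 : A)))
      (fun _ _ => Finset.mem_univ _)
      (fun t _ => Finset.mem_filter.2 ⟨Finset.mem_univ _, t.1.2, t.2.2⟩) (fun _ _ => rfl)
      (fun _ _ => rfl) (fun _ _ => rfl)
  rw [h1, comm_sum H (fun x => m x⁻¹) (fun h hh x => by
    rw [← hm.conj h hh x⁻¹]; congr 1; group)]
  exact Dvd.intro _ rfl

theorem nA_dvd [Finite A] (H : Subgroup A) {m : A → ℤ} (hm : IsWt p H m) :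
    (Nat.card H : ℤ) ∣ nA p H m := by
  classical
  have h1 : nA p H m = ∑ᶠ t : ↥H × ↥H, ∑ᶠ c : H,
      if Pel p (cmt (t.1 : A) t.2 * (c : A)) then m (c : A) else 0 := by
    unfold nA
    exact triple_sum H m (fun a b c => Pel p (cmt a b * c))
  rw [h1, comm_sum H (fun x => ∑ᶠ c : H, if Pel p (x * (c : A)) then m (c : A) else 0)
    (fun h hh x => ?_)]
  · exact Dvd.intro _ rfl
  · refine (finsum_comp_equiv (MulAut.conj (⟨h, hh⟩ : H)).toEquiv).symm.trans ?_
    refine finsum_congr fun c => ?_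
    have e1 : (((MulAut.conj (⟨h, hh⟩ : H)).toEquiv c : H) : A) = h * c * h⁻¹ := by
      simp
    rw [e1, hm.conj h hh]
    have e2 : h * x * h⁻¹ * (h * c * h⁻¹) = h * (x * c) * h⁻¹ := by group
    rw [e2]
    simp only [pel_conj]

theorem nL_dvd [Finite A] (H : Subgroup A) {m : A → ℤ} (hm : IsWt p H m) :
    (Nat.card H : ℤ) ∣ nL p H m := by
  classical
  have h1 : nL p H m = ∑ᶠ t : ↥H × ↥H, ∑ᶠ c : H,
      if Preg p (t.1 : A) ∧ pr p ((c : A) * t.1) = (t.2 : A) * t.1 * (t.2 : A)⁻¹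
        then m (c : A) else 0 := by
    unfold nL
    convert triple_sum H m (fun s g c => Preg p s ∧ pr p (c * s) = g * s * g⁻¹)
  rw [h1, pair_sum H (fun s t => ∑ᶠ c : H,
    if Preg p s ∧ pr p ((c : A) * s) = t then m (c : A) else 0) (fun h hh s t => ?_)]
  · exact Dvd.intro _ rfl
  · refine (finsum_comp_equiv (MulAut.conj (⟨h, hh⟩ : H)).toEquiv).symm.trans ?_
    refine finsum_congr fun c => ?_
    have e1 : (((MulAut.conj (⟨h, hh⟩ : H)).toEquiv c : H) : A) = h * c * h⁻¹ := by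
      simp
    rw [e1, hm.conj h hh]
    have e2 : h * c * h⁻¹ * (h * s * h⁻¹) = h * (c * s) * h⁻¹ := by group
    rw [e2]
    simp only [preg_conj, pr_conj']
    have e3 : (h * pr p (↑c * s) * h⁻¹ = h * t * h⁻¹) ↔ pr p (↑c * s) = t := by
      rw [mul_left_inj, mul_right_inj]
    simp only [e3]

end Pool.Agent.Lib.P0c8ca5
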