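import Mathlib
import Pool.Agent.Lib.P0c8ca5V.Defs

/-! Orbit lemmas: sums of invariant functions over finite `T`-sets. -/

namespace Pool.Agent.Lib.P0c8ca5

namespace OrbAux

open Classical in
theorem dvd_sum_orbits {T X : Type*} [Group T] [MulAction T X] [Fintype X] (F : X → ℤ)
    (hF : ∀ (t : T) (x : X), F (t • x) = F x) (N : ℤ)
    (h : ∀ x, N ∣ (Nat.card (MulAction.orbit T x) : ℤ) * F x) :
    N ∣ ∑ x : X, F x := by
  have hs : ∑ x : X, F x
      = ∑ ω : MulAction.orbitRel.Quotient T X,
          ∑ x ∈ Finset.univ.filter (fun x => (Quotient.mk'' x : MulAction.orbitRel.Quotient T X) = ω), F x := by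
    rw [Finset.sum_fiberwise]
  rw [hs]
  refine Finset.dvd_sum fun ω _ => ?_
  obtain ⟨x0, rfl⟩ := Quotient.exists_rep ω
  have hmem : ∀ x : X, (Quotient.mk'' x : MulAction.orbitRel.Quotient T X) = ⟦x0⟧ ↔
      x ∈ MulAction.orbit T x0 := by
    intro x
    rw [← MulAction.orbitRel_apply]
    exact Quotient.eq''
  have hc : ∑ x ∈ Finset.univ.filter (fun x => (Quotient.mk'' x : MulAction.orbitRel.Quotient T X) = ⟦x0⟧), F x
      = (Nat.card (MulAction.orbit T x0) : ℤ) * F x0 := by
    have h1 : ∀ x ∈ Finset.univ.filter (fun x => (Quotient.mk'' x : MulAction.orbitRel.Quotient T X) = ⟦x0⟧),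
        F x = F x0 := by
      intro x hx
      rw [Finset.mem_filter] at hx
      obtain ⟨t, rfl⟩ := (hmem x).1 hx.2
      exact hF t x0
    rw [Finset.sum_congr rfl h1, Finset.sum_const, nsmul_eq_mul]
    congr 2
    rw [Nat.card_eq_card_toFinset]
    congr 1
    ext x
    rw [Finset.mem_filter, Set.mem_toFinset, ← hmem x]
    simp
  rw [hc]
  exact h x0

theorem card_orbit_mul {T X : Type*} [Group T] [MulAction T X] (x : X) :
    Nat.card (MulAction.orbit T x) * Nat.card (MulAction.stabilizer T x) = Nat.card T := by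
  rw [← Nat.card_prod]
  exact Nat.card_congr (MulAction.orbitProdStabilizerEquivGroup T x)

open Classical in
theorem finsum_sub {X : Type*} [Fintype X] (P : X → Prop) (ε : X → ℤ) :
    ∑ᶠ x : {x : X // P x}, ε x = ∑ x ∈ Finset.univ.filter P, ε x := by
  rw [finsum_eq_sum_of_fintype]
  exact (Finset.sum_subtype (Finset.univ.filter P) (by simp) ε).symm

end OrbAux

/-- If `F` is invariant and `q |T_x|` divides `F x` for all `x`, then `q |T|` divides the sum. -/
theorem orb_dvd {T X : Type*} [Group T] [Finite T] [MulAction T X] [Fintype X] (F : X → ℤ)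
    (hF : ∀ (t : T) (x : X), F (t • x) = F x) (q : ℤ)
    (h : ∀ x, q * (Nat.card (MulAction.stabilizer T x) : ℤ) ∣ F x) :
    q * (Nat.card T : ℤ) ∣ ∑ x : X, F x := by
  refine OrbAux.dvd_sum_orbits F hF _ fun x => ?_
  have h1 := mul_dvd_mul_left (Nat.card (MulAction.orbit T x) : ℤ) (h x)
  have h2 : (Nat.card T : ℤ)
      = (Nat.card (MulAction.orbit T x) : ℤ) * (Nat.card (MulAction.stabilizer T x) : ℤ) := by
    rw [← OrbAux.card_orbit_mul (T := T) x]
    push_cast
    ring
  rw [h2, mul_left_comm]
  exact h1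

/-- The same with the p-parts of the orders. -/
theorem orb_dvd_p {p : ℕ} [Fact p.Prime] {T X : Type*} [Group T] [Finite T] [MulAction T X]
    [Fintype X] (F : X → ℤ) (hF : ∀ (t : T) (x : X), F (t • x) = F x) (q : ℤ)
    (h : ∀ x, q * (ordProj[p] (Nat.card (MulAction.stabilizer T x)) : ℕ) ∣ F x) :
    q * (ordProj[p] (Nat.card T) : ℕ) ∣ ∑ x : X, F x := by
  refine OrbAux.dvd_sum_orbits F hF _ fun x => ?_
  have h0 := OrbAux.card_orbit_mul (T := T) x
  have hT : Nat.card T ≠ 0 := Nat.card_pos.ne'
  have ha : Nat.card (MulAction.orbit T x) ≠ 0 := by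
    intro h1
    rw [h1, zero_mul] at h0
    exact hT h0.symm
  have hb : Nat.card (MulAction.stabilizer T x) ≠ 0 := by
    intro h1
    rw [h1, mul_zero] at h0
    exact hT h0.symm
  have h2 : ordProj[p] (Nat.card T)
      = ordProj[p] (Nat.card (MulAction.orbit T x))
        * ordProj[p] (Nat.card (MulAction.stabilizer T x)) := by
    rw [← h0]
    exact Nat.ordProj_mul p ha hb
  rw [h2]
  have h3 : ((ordProj[p] (Nat.card (MulAction.orbit T x)) : ℕ) : ℤ)
      ∣ (Nat.card (MulAction.orbit T x) : ℤ) := by
    exact_mod_cast Nat.ordProj_dvd _ p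
  have h4 := mul_dvd_mul h3 (h x)
  rw [Nat.cast_mul, mul_left_comm]
  exact h4

/-- Downward induction: if for every `U ≤ T` in an upward closed family the sum of the invariant
sign function `ε` over all `x` with `U ≤ s x` vanishes, then so does the sum over all `x` with
`s x = U` (`s x ≤ T`). -/
theorem exact_zero {A X : Type*} [Group A] [Finite A] [Fintype X] (T : Subgroup A)
    (s : X → Subgroup A) (hs : ∀ x, s x ≤ T) (ε : X → ℤ) (𝓑 : Subgroup A → Prop)
    (hup : ∀ U U', 𝓑 U → U ≤ U' → U' ≤ T → 𝓑 U')
    (h : ∀ U, 𝓑 U → U ≤ T → ∑ᶠ x : {x : X // U ≤ s x}, ε x = 0) (U : Subgroup A) (hU : 𝓑 U)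
    (hUT : U ≤ T) : ∑ᶠ x : {x : X // s x = U}, ε x = 0 := by
  classical
  have _ : Fintype (Subgroup A) := Fintype.ofFinite _
  induction U using WellFoundedGT.induction with
  | ind U IH =>
    rw [OrbAux.finsum_sub]
    have h1 := h U hU hUT
    rw [OrbAux.finsum_sub] at h1
    have h2 : ∑ x ∈ Finset.univ.filter (fun x => U ≤ s x), ε x
        = ∑ x ∈ Finset.univ.filter (fun x => s x = U), ε x
          + ∑ x ∈ Finset.univ.filter (fun x => U < s x), ε x := by
      rw [← Finset.sum_union]
      · congr 1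
        ext x
        simp only [Finset.mem_filter, Finset.mem_univ, true_and, Finset.mem_union]
        rw [le_iff_eq_or_lt]
        constructor
        · rintro (h | h)
          · exact Or.inl h.symm
          · exact Or.inr h
        · rintro (h | h)
          · exact Or.inl h.symm
          · exact Or.inr h
      · rw [Finset.disjoint_filter]
        intro x _ hx hx'
        rw [hx] at hx'
        exact lt_irrefl _ hx'
    have h3 : ∑ x ∈ Finset.univ.filter (fun x => U < s x), ε x = 0 := by
      have h4 : ∑ x ∈ Finset.univ.filter (fun x => U < s x), ε x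
          = ∑ V : Subgroup A, ∑ x ∈ (Finset.univ.filter (fun x => U < s x)).filter
              (fun x => s x = V), ε x :=
        (Finset.sum_fiberwise (Finset.univ.filter (fun x => U < s x)) s ε).symm
      rw [h4]
      refine Finset.sum_eq_zero fun V _ => ?_
      by_cases hV : U < V ∧ V ≤ T
      · have h5 := IH V hV.1 (hup U V hU hV.1.le hV.2) hV.2
        rw [OrbAux.finsum_sub] at h5
        rw [← h5]
        congr 1
        ext x
        simp only [Finset.mem_filter, Finset.mem_univ, true_and]
        constructor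
        · exact fun h => h.2
        · exact fun h => ⟨by rw [h]; exact hV.1, h⟩
      · refine Finset.sum_eq_zero fun x hx => ?_
        exfalso
        simp only [Finset.mem_filter, Finset.mem_univ, true_and] at hx
        exact hV ⟨hx.2 ▸ hx.1, hx.2 ▸ hs x⟩
    rw [h2, h3, add_zero] at h1
    exact h1

end Pool.Agent.Lib.P0c8ca5
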