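import Mathlib
import Pool.Agent.Lib.P0c8ca5V.Orb
import Pool.Agent.Lib.P0c8ca5V.Frob

/-! Divisibility of alternating sums over chains and of sums over subgroups. -/

namespace Pool.Agent.Lib.P0c8ca5

variable {p : ℕ} {A : Type*} [Group A]

namespace ChOrbAux

/-- conjugation as a permutation -/
def ce (g : A) : A ≃ A := (MulAut.conj g).toEquiv

theorem ce_apply (g x : A) : ce g x = g * x * g⁻¹ := rfl

theorem mem_cg' (g x : A) (H : Subgroup A) : g * x * g⁻¹ ∈ cg g H ↔ x ∈ H := by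
  rw [mem_cg]
  have : g⁻¹ * (g * x * g⁻¹) * g = x := by group
  rw [this]

theorem cmt_conj (g a b : A) :
    cmt (g * a * g⁻¹) (g * b * g⁻¹) = g * cmt a b * g⁻¹ := by
  unfold cmt
  group

theorem pel_conj (g x : A) : Pel p (g * x * g⁻¹) ↔ Pel p x := by
  unfold Pel
  refine exists_congr fun n => ?_
  rw [conj_pow]
  constructor
  · intro h
    have : x ^ p ^ n = g⁻¹ * (g * x ^ p ^ n * g⁻¹) * g := by group
    rw [this, h]
    group
  · intro h
    rw [h]
    group

theorem cg_inj (g : A) : Function.Injective (cg g) := by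
  intro P Q h
  have := congrArg (cg g⁻¹) h
  rwa [cg_cg, cg_cg, inv_mul_cancel, cg_one, cg_one] at this

theorem ite_eq {P Q : Prop} {_ : Decidable P} {_ : Decidable Q} {x y : ℤ} (h : P ↔ Q)
    (h' : x = y) : (if P then x else 0) = if Q then y else 0 := by
  subst h'
  by_cases hQ : Q
  · rw [if_pos hQ, if_pos (h.2 hQ)]
  · rw [if_neg hQ, if_neg fun hP => hQ (h.1 hP)]

/-- the conjugates of the members -/
def cgS (g : A) (σ : Finset (Subgroup A)) : Finset (Subgroup A) := σ.map ⟨cg g, cg_inj g⟩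

theorem mem_cgS {g : A} {σ : Finset (Subgroup A)} {Q : Subgroup A} :
    Q ∈ cgS g σ ↔ ∃ R ∈ σ, cg g R = Q := by
  unfold cgS
  rw [Finset.mem_map]
  rfl

/-- the action on the subgroups -/
@[reducible] def actU : MulAction A (Subgroup A) where
  smul g P := cg g P
  one_smul P := cg_one P
  mul_smul g h P := (cg_cg g h P).symm

/-- the action on the sets of subgroups -/
@[reducible] def actS : MulAction A (Finset (Subgroup A)) where
  smul g σ := cgS g σ
  one_smul σ := by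
    change cgS 1 σ = σ
    ext Q
    rw [mem_cgS]
    constructor
    · rintro ⟨R, hR, rfl⟩
      rw [cg_one]
      exact hR
    · intro h
      exact ⟨Q, h, cg_one Q⟩
  mul_smul g h σ := by
    change cgS (g * h) σ = cgS g (cgS h σ)
    ext Q
    rw [mem_cgS, mem_cgS]
    constructor
    · rintro ⟨R, hR, rfl⟩
      exact ⟨cg h R, mem_cgS.2 ⟨R, hR, rfl⟩, cg_cg g h R⟩
    · rintro ⟨R, hR, rfl⟩
      obtain ⟨R', hR', rfl⟩ := mem_cgS.1 hR
      exact ⟨R', hR', (cg_cg g h R').symm⟩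

theorem mem_sN {σ : Finset (Subgroup A)} {x : A} : x ∈ sN σ ↔ ∀ Q ∈ σ, cg x Q = Q := by
  unfold sN
  simp only [Subgroup.mem_iInf, cg_eq_self_iff]

theorem sN_cgS (g : A) (σ : Finset (Subgroup A)) : sN (cgS g σ) = cg g (sN σ) := by
  ext x
  rw [mem_cg, mem_sN, mem_sN]
  constructor
  · intro h Q hQ
    have h1 := h (cg g Q) (mem_cgS.2 ⟨Q, hQ, rfl⟩)
    rw [cg_cg] at h1
    have h2 := congrArg (cg g⁻¹) h1
    rw [cg_cg, cg_cg, inv_mul_cancel, cg_one, ← mul_assoc] at h2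
    exact h2
  · intro h Q hQ
    obtain ⟨R, hR, rfl⟩ := mem_cgS.1 hQ
    have h1 := congrArg (cg g) (h R hR)
    rw [cg_cg] at h1
    rw [cg_cg]
    have : g * (g⁻¹ * x * g) = x * g := by group
    rw [this] at h1
    exact h1

theorem isCh_cgS_imp (g : A) {σ : Finset (Subgroup A)} (h : IsCh p σ) : IsCh p (cgS g σ) := by
  refine ⟨?_, ?_⟩
  · intro Q hQ R hR _
    obtain ⟨Q', hQ', rfl⟩ := mem_cgS.1 (Finset.mem_coe.1 hQ)
    obtain ⟨R', hR', rfl⟩ := mem_cgS.1 (Finset.mem_coe.1 hR)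
    rcases h.1.total (Finset.mem_coe.2 hQ') (Finset.mem_coe.2 hR') with h1 | h1
    · exact Or.inl (cg_le_cg h1)
    · exact Or.inr (cg_le_cg h1)
  · intro Q hQ
    obtain ⟨R, hR, rfl⟩ := mem_cgS.1 hQ
    obtain ⟨h1, h2⟩ := h.2 R hR
    refine ⟨isPGroup_cg h1, fun h3 => h2 ?_⟩
    have h4 := congrArg (cg g⁻¹) h3
    rw [cg_cg, inv_mul_cancel, cg_one] at h4
    rw [h4]
    unfold cg
    exact Subgroup.map_bot _

theorem cgS_cgS (g h : A) (σ : Finset (Subgroup A)) : cgS g (cgS h σ) = cgS (g * h) σ :=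
  (actS.mul_smul g h σ).symm

theorem cgS_one (σ : Finset (Subgroup A)) : cgS 1 σ = σ := actS.one_smul σ

theorem isCh_cgS (g : A) (σ : Finset (Subgroup A)) : IsCh p (cgS g σ) ↔ IsCh p σ := by
  constructor
  · intro h
    have := isCh_cgS_imp g⁻¹ h
    rwa [cgS_cgS, inv_mul_cancel, cgS_one] at this
  · exact isCh_cgS_imp g

theorem card_cgS (g : A) (σ : Finset (Subgroup A)) : (cgS g σ).card = σ.card :=
  Finset.card_map _

/-- the stabilizer of a chain normalizes its members -/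
theorem cgS_eq_iff [Finite A] {σ : Finset (Subgroup A)} (h : IsCh p σ) (g : A) :
    cgS g σ = σ ↔ g ∈ sN σ := by
  rw [mem_sN]
  constructor
  · intro h1 Q hQ
    have h2 : cg g Q ∈ σ := by
      rw [← h1]
      exact mem_cgS.2 ⟨Q, hQ, rfl⟩
    have h3 : Nat.card (cg g Q) = Nat.card Q := card_cg g Q
    rcases h.1.total (Finset.mem_coe.2 h2) (Finset.mem_coe.2 hQ) with h4 | h4
    · exact Subgroup.eq_of_le_of_card_ge h4 h3.ge
    · exact (Subgroup.eq_of_le_of_card_ge h4 h3.le).symm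
  · intro h1
    ext Q
    rw [mem_cgS]
    constructor
    · rintro ⟨R, hR, rfl⟩
      rw [h1 R hR]
      exact hR
    · intro hQ
      exact ⟨Q, hQ, h1 Q hQ⟩

end ChOrbAux

open ChOrbAux

/-- The conjugate of `nE`, `nA`, `nL` by `g`. -/
theorem nE_conj (H : Subgroup A) (g : A) {m : A → ℤ}
    (hm : ∀ x, m (g * x * g⁻¹) = m x) : nE (cg g H) m = nE H m := by
  unfold nE
  rw [← finsum_comp_equiv ((ce g).prodCongr (ce g))]
  refine finsum_congr fun t => ?_
  refine ite_eq (and_congr (mem_cg' g _ H) (mem_cg' g _ H)) ?_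
  have h1 : (cmt (g * t.1 * g⁻¹) (g * t.2 * g⁻¹))⁻¹ = g * (cmt t.1 t.2)⁻¹ * g⁻¹ := by
    rw [cmt_conj]
    group
  exact (congrArg m h1).trans (hm _)

theorem nA_conj (H : Subgroup A) (g : A) {m : A → ℤ}
    (hm : ∀ x, m (g * x * g⁻¹) = m x) : nA p (cg g H) m = nA p H m := by
  unfold nA
  rw [← finsum_comp_equiv ((ce g).prodCongr ((ce g).prodCongr (ce g)))]
  refine finsum_congr fun t => ?_
  refine ite_eq (and_congr (and_congr (mem_cg' g _ H) (and_congr (mem_cg' g _ H)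
    (mem_cg' g _ H))) ?_) (hm _)
  have h1 : cmt (g * t.1 * g⁻¹) (g * t.2.1 * g⁻¹) * (g * t.2.2 * g⁻¹) =
      g * (cmt t.1 t.2.1 * t.2.2) * g⁻¹ := by
    rw [cmt_conj]
    group
  have h2 := pel_conj (p := p) g (cmt t.1 t.2.1 * t.2.2)
  rw [← h1] at h2
  exact h2

theorem nL_conj (H : Subgroup A) (g : A) {m : A → ℤ}
    (hm : ∀ x, m (g * x * g⁻¹) = m x) : nL p (cg g H) m = nL p H m := by
  unfold nL
  rw [← finsum_comp_equiv ((ce g).prodCongr ((ce g).prodCongr (ce g)))]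
  refine finsum_congr fun t => ?_
  have h1 : g * t.2.2 * g⁻¹ * (g * t.1 * g⁻¹) = g * (t.2.2 * t.1) * g⁻¹ := by group
  have h2 : g * t.2.1 * g⁻¹ * (g * t.1 * g⁻¹) * (g * t.2.1 * g⁻¹)⁻¹ =
      g * (t.2.1 * t.1 * t.2.1⁻¹) * g⁻¹ := by group
  have h3 : (pr p (g * t.2.2 * g⁻¹ * (g * t.1 * g⁻¹)) =
      g * t.2.1 * g⁻¹ * (g * t.1 * g⁻¹) * (g * t.2.1 * g⁻¹)⁻¹) ↔
      (pr p (t.2.2 * t.1) = t.2.1 * t.1 * t.2.1⁻¹) := by
    rw [h1, h2, pr_conj]
    constructor
    · intro h
      exact mul_left_cancel (mul_right_cancel h)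
    · intro h
      rw [h]
  exact ite_eq (and_congr (and_congr (mem_cg' g _ H) (and_congr (mem_cg' g _ H)
    (mem_cg' g _ H))) (and_congr (preg_conj g t.1) h3)) (hm _)

/-- If `F` is invariant under conjugation and `q |sN σ|` divides `F (sN σ)` for all chains, then
`q |A|` divides the alternating sum. -/
theorem chS_dvd [Finite A] (F : Subgroup A → ℤ) (hF : ∀ g U, F (cg g U) = F U) (q : ℤ)
    (h : ∀ σ, IsCh p σ → q * (Nat.card (sN σ) : ℤ) ∣ F (sN σ)) :
    q * (Nat.card A : ℤ) ∣ chS p F := by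
  classical
  have : Fintype (Subgroup A) := Fintype.ofFinite _
  unfold chS
  rw [finsum_eq_sum_of_fintype]
  let _ := actS (A := A)
  refine orb_dvd (T := A) (fun σ : Finset (Subgroup A) =>
    if IsCh p σ then (-1) ^ σ.card * F (sN σ) else 0) (fun t σ => ?_) q fun σ => ?_
  · have e : t • σ = cgS t σ := rfl
    simp only [e, isCh_cgS, card_cgS, sN_cgS, hF]
  · by_cases hσ : IsCh p σ
    · simp only [if_pos hσ]
      have e : MulAction.stabilizer A σ = sN σ := by
        ext g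
        rw [MulAction.mem_stabilizer_iff]
        exact cgS_eq_iff hσ g
      rw [e]
      exact Dvd.dvd.mul_left (h σ hσ) _
    · simp only [if_neg hσ]
      exact dvd_zero _

/-- The same for sums over all subgroups. -/
theorem sub_dvd [Finite A] (F : Subgroup A → ℤ) (hF : ∀ g U, F (cg g U) = F U) (q : ℤ)
    (h : ∀ U : Subgroup A, q * (Nat.card ↥(Subgroup.normalizer (U : Set A)) : ℤ) ∣ F U) :
    q * (Nat.card A : ℤ) ∣ ∑ᶠ U : Subgroup A, F U := by
  classical
  have : Fintype (Subgroup A) := Fintype.ofFinite _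
  rw [finsum_eq_sum_of_fintype]
  let _ := actU (A := A)
  refine orb_dvd (T := A) F (fun t U => hF t U) q fun U => ?_
  have e : MulAction.stabilizer A U = Subgroup.normalizer (U : Set A) := by
    ext g
    rw [MulAction.mem_stabilizer_iff]
    exact cg_eq_self_iff
  rw [e]
  exact h U

/-- The same for sums over all subgroups and p-parts. -/
theorem sub_dvd_p [Fact p.Prime] [Finite A] (F : Subgroup A → ℤ) (hF : ∀ g U, F (cg g U) = F U)
    (q : ℤ) (h : ∀ U : Subgroup A,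
      q * (ordProj[p] (Nat.card ↥(Subgroup.normalizer (U : Set A))) : ℕ) ∣ F U) :
    q * (ordProj[p] (Nat.card A) : ℕ) ∣ ∑ᶠ U : Subgroup A, F U := by
  classical
  have : Fintype (Subgroup A) := Fintype.ofFinite _
  rw [finsum_eq_sum_of_fintype]
  let _ := actU (A := A)
  refine orb_dvd_p (T := A) F (fun t U => hF t U) q fun U => ?_
  have e : MulAction.stabilizer A U = Subgroup.normalizer (U : Set A) := by
    ext g
    rw [MulAction.mem_stabilizer_iff]
    exact cg_eq_self_iff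
  rw [e]
  exact h U

end Pool.Agent.Lib.P0c8ca5
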