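import Mathlib
import Pool.Agent.Lib.P0c8ca5V.Defs
import Pool.Agent.Lib.P0c8ca5V.Frob
import Pool.Agent.Lib.P0c8ca5N.RegP
import Pool.Agent.Lib.P0c8ca5N.CopA
import Pool.Agent.Lib.P0c8ca5.WeightsD

/-! The counts in the quotient by a normal p-subgroup. -/

namespace Pool.Agent.Lib.P0c8ca5

namespace QuoAux

universe u

section gen
variable {p : ℕ} {B C : Type*} [Group B] [Group C]

theorem preg_hom {f : B →* C} {x : B} (h : Preg p x) : Preg p (f x) :=
  fun hd => h (hd.trans (orderOf_map_dvd f x))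

theorem pr_hom [Fact p.Prime] [Finite B] [Finite C] (f : B →* C) (x : B) :
    pr p (f x) = f (pr p x) := by
  obtain ⟨n, hn⟩ := exists_pow_mul_inv_pr (p := p) x
  have hc : Commute (f (x * (pr p x)⁻¹)) (f (pr p x)) := by
    have h1 : Commute x (pr p x) := (Commute.refl x).pow_right _
    have h2 : Commute (x * (pr p x)⁻¹) (pr p x) := h1.mul_left (Commute.refl _).inv_left
    exact h2.map f
  have e : f x = f (x * (pr p x)⁻¹) * f (pr p x) := by
    rw [← map_mul]; congr 1; group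
  rw [e, pr_mul hc, pr_of_pow (n := n) (by rw [← map_pow, hn, map_one]),
    pr_eq_self (preg_hom (preg_pr x)), one_mul]

end gen

/-- Two p-regular elements in the same coset of a normal p-subgroup `U` are conjugate under `U`. -/
theorem conj_aux {p : ℕ} [Fact p.Prime] (n : ℕ) : ∀ (B : Type u) [Group B] [Finite B],
    Nat.card B = n → ∀ (U : Subgroup B) [U.Normal], IsPGroup p U → ∀ s t : B, Preg p s →
    Preg p t → s⁻¹ * t ∈ U → ∃ r ∈ U, t = r * s * r⁻¹ := by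
  induction n using Nat.strong_induction_on with
  | _ n ih =>
  intro B _ _ hn U _ hU s t hs ht hst
  by_cases hbot : U = ⊥
  · subst hbot
    rw [Subgroup.mem_bot, inv_mul_eq_one] at hst
    exact ⟨1, Subgroup.one_mem _, by rw [hst]; group⟩
  have hnt : Nontrivial U := by
    rw [Subgroup.nontrivial_iff_ne_bot]
    exact hbot
  have hcn := hU.center_nontrivial
  set Z : Subgroup B := (Subgroup.center U).map U.subtype with hZ
  have hZn : Z.Normal := by
    rw [hZ]; infer_instance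
  have hZU : Z ≤ U := by
    rw [hZ]
    exact Subgroup.map_subtype_le _
  have hZcomm : ∀ a ∈ Z, ∀ b ∈ Z, a * b = b * a := by
    rintro _ ⟨a, ha, rfl⟩ _ ⟨b, _, rfl⟩
    have := (Subgroup.mem_center_iff.mp ha) b
    have h2 := congrArg (U.subtype) this
    rw [map_mul, map_mul] at h2
    exact h2.symm
  have hZ1 : 1 < Nat.card Z := by
    have h1 : Nat.card Z = Nat.card (Subgroup.center U) := by
      rw [hZ]
      exact Subgroup.card_map_of_injective U.subtype_injective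
    rw [h1]
    exact Finite.one_lt_card
  -- the quotient
  obtain ⟨r0, hr0, hq0⟩ : ∃ r0 ∈ U, (r0 * s * r0⁻¹)⁻¹ * t ∈ Z := by
    have hcard : Nat.card (B ⧸ Z) < n := by
      have h1 := Subgroup.card_eq_card_quotient_mul_card_subgroup Z
      rw [hn] at h1
      have h2 : 0 < Nat.card (B ⧸ Z) := Nat.card_pos
      rw [h1]
      calc Nat.card (B ⧸ Z) = Nat.card (B ⧸ Z) * 1 := (mul_one _).symm
        _ < _ := Nat.mul_lt_mul_of_pos_left hZ1 h2
    have hUn : (U.map (QuotientGroup.mk' Z)).Normal :=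
      Subgroup.Normal.map inferInstance _ (QuotientGroup.mk'_surjective Z)
    obtain ⟨r, hr, hcom⟩ := ih _ hcard (B ⧸ Z) rfl (U.map (QuotientGroup.mk' Z)) (hU.map _)
      (QuotientGroup.mk' Z s) (QuotientGroup.mk' Z t) (preg_hom hs) (preg_hom ht)
      ⟨_, hst, by simp only [map_mul, map_inv]⟩
    obtain ⟨r0, hr0, rfl⟩ := hr
    refine ⟨r0, hr0, ?_⟩
    rw [← QuotientGroup.eq_one_iff]
    change QuotientGroup.mk' Z ((r0 * s * r0⁻¹)⁻¹ * t) = 1
    rw [map_mul, hcom, map_inv, map_mul, map_mul, map_inv]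
    group
  set s1 := r0 * s * r0⁻¹ with hs1
  have hs1p : Preg p s1 := (preg_conj r0 s).2 hs
  let _ : CommGroup Z := { (inferInstance : Group Z) with
    mul_comm := fun a b => Subtype.ext (hZcomm a a.2 b b.2) }
  let c : Z →* Z := (MulAut.conjNormal s1⁻¹ : MulAut Z).toMonoidHom
  have hc : ∀ a : Z, ((c a : Z) : B) = s1⁻¹ * a * s1 := by
    intro a
    change ((MulAut.conjNormal s1⁻¹ a : Z) : B) = _
    rw [MulAut.conjNormal_apply, inv_inv]
  have hmem : ∀ i : ℕ, (s1 ^ i)⁻¹ * t ^ i ∈ Z := by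
    intro i
    induction i with
    | zero => simp [Z.one_mem]
    | succ i ihi =>
      have h1 : (s1 ^ (i + 1))⁻¹ * t ^ (i + 1) =
          (s1⁻¹ * ((s1 ^ i)⁻¹ * t ^ i) * s1) * (s1⁻¹ * t) := by
        rw [pow_succ, pow_succ]; group
      rw [h1]
      refine Z.mul_mem ?_ hq0
      have := hZn.conj_mem _ ihi s1⁻¹
      rwa [inv_inv] at this
  obtain ⟨r, hr⟩ := coprime_abelian c ⟨_, hq0⟩ (fun i => ⟨_, hmem i⟩)
    (by apply Subtype.ext; simp) (by
      intro i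
      apply Subtype.ext
      have hcm := hZcomm _ hq0 _ (c ⟨_, hmem i⟩).2
      rw [Subgroup.coe_mul]
      simp only
      rw [hcm, hc]
      simp only
      rw [pow_succ, pow_succ]; group) (orderOf s1 * orderOf t) (by
      apply Subtype.ext
      simp only
      rw [pow_mul, pow_orderOf_eq_one, one_pow, mul_comm, pow_mul, pow_orderOf_eq_one, one_pow]
      simp) (by
      have hZp : IsPGroup p Z := hU.to_le hZU
      obtain ⟨k, hk⟩ := IsPGroup.iff_card.mp hZp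
      rw [hk]
      apply Nat.Coprime.pow_left
      rw [Nat.coprime_mul_iff_right]
      exact ⟨(Nat.Prime.coprime_iff_not_dvd (Fact.out : p.Prime)).2 hs1p,
        (Nat.Prime.coprime_iff_not_dvd (Fact.out : p.Prime)).2 ht⟩)
  refine ⟨(r : B)⁻¹ * r0, U.mul_mem (U.inv_mem (hZU r.2)) hr0, ?_⟩
  have h1 := congrArg (Subtype.val) hr
  rw [hc, Subgroup.coe_mul, Subgroup.coe_inv] at h1
  simp only at h1
  -- h1 : s1⁻¹ * r * s1 = (s1⁻¹ * t)⁻¹ * r
  have h2 : (s1⁻¹ * t) * (s1⁻¹ * r * s1) = (r : B) := by rw [h1]; group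
  have h3 : s1⁻¹ * (r : B) * s1 ∈ Z := by
    have := (c r).2
    rwa [hc] at this
  have h4 := hZcomm _ hq0 _ h3
  rw [h2] at h4
  -- h4 : r = s1⁻¹ * r * s1 * (s1⁻¹ * t)
  have h5 : t = (r : B)⁻¹ * s1 * (r : B) := by
    calc t = (r : B)⁻¹ * s1 * (s1⁻¹ * (r : B) * s1 * (s1⁻¹ * t)) := by group
      _ = (r : B)⁻¹ * s1 * (r : B) := by rw [← h4]
  rw [h5, hs1]
  group

section cnt
variable {p : ℕ} [Fact p.Prime] {N : Type u} [Group N] {K : Type*} [Group K]

theorem conj_lift [Finite N] {π : N →* K} (hk : IsPGroup p π.ker) {s t : N} (hs : Preg p s)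
    (ht : Preg p t) (h : π s = π t) : ∃ r ∈ π.ker, t = r * s * r⁻¹ :=
  conj_aux (Nat.card N) N rfl π.ker hk s t hs ht (by
    rw [MonoidHom.mem_ker, map_mul, map_inv, h, inv_mul_cancel])

open Classical in
/-- number of the `q` in the kernel with `q x q⁻¹ = y` -/
noncomputable def kap [Fintype N] (π : N →* K) (x y : N) : ℤ :=
  ∑ q : π.ker, if (q : N) * x * (q : N)⁻¹ = y then 1 else 0

omit [Fact p.Prime] in
theorem kap_eq [Fintype N] (π : N →* K) {x y v : N} (hv : v ∈ π.ker) (h : y = v * x * v⁻¹) :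
    kap π x y = kap π x x := by
  classical
  unfold kap
  symm
  refine Fintype.sum_equiv (Equiv.mulLeft (⟨v, hv⟩ : π.ker)) _ _ (fun q => ?_)
  congr 1
  rw [h]
  simp only [Equiv.coe_mulLeft, Subgroup.coe_mul, eq_iff_iff]
  constructor
  · intro e
    calc v * (q : N) * x * (v * (q : N))⁻¹ = v * ((q : N) * x * (q : N)⁻¹) * v⁻¹ := by group
      _ = _ := by rw [e]
  · intro e
    have : v * ((q : N) * x * (q : N)⁻¹) * v⁻¹ = v * x * v⁻¹ := by rw [← e]; group
    exact mul_left_cancel (mul_right_cancel this)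

omit [Fact p.Prime] in
theorem kap_conj [Fintype N] (π : N →* K) (h x : N) :
    kap π (h * x * h⁻¹) (h * x * h⁻¹) = kap π x x := by
  classical
  unfold kap
  symm
  refine Fintype.sum_equiv (MulAut.conjNormal h : MulAut π.ker).toEquiv _ _ (fun q => ?_)
  congr 1
  change _ = (((MulAut.conjNormal h q : π.ker) : N) * (h * x * h⁻¹) *
    ((MulAut.conjNormal h q : π.ker) : N)⁻¹ = h * x * h⁻¹)
  rw [MulAut.conjNormal_apply]
  apply propext
  constructor
  · intro e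
    calc h * (q : N) * h⁻¹ * (h * x * h⁻¹) * (h * (q : N) * h⁻¹)⁻¹
        = h * ((q : N) * x * (q : N)⁻¹) * h⁻¹ := by group
      _ = _ := by rw [e]
  · intro e
    have : h * ((q : N) * x * (q : N)⁻¹) * h⁻¹ = h * x * h⁻¹ := by rw [← e]; group
    exact mul_left_cancel (mul_right_cancel this)

omit [Fact p.Prime] in
open Classical in
theorem sum_fib [Fintype N] (π : N →* K) (g0 : N) (f : N → ℤ) :
    ∑ g : N, (if π g = π g0 then f g else 0) = ∑ q : π.ker, f ((q : N) * g0) := by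
  symm
  refine Fintype.sum_of_injective (fun q : π.ker => (q : N) * g0) ?_ _ _ ?_ ?_
  · intro a b hab
    exact Subtype.ext (mul_right_cancel hab)
  · intro g hg
    rw [if_neg]
    intro e
    refine hg ⟨⟨g * g0⁻¹, ?_⟩, ?_⟩
    · rw [MonoidHom.mem_ker, map_mul, map_inv, e, mul_inv_cancel]
    · simp
  · intro q
    rw [if_pos]
    rw [map_mul, (MonoidHom.mem_ker).1 q.2, one_mul]

open Classical in
theorem cntL [Fintype N] [Finite K] (π : N →* K) (hπ : Function.Surjective π)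
    (hk : IsPGroup p π.ker) (c : N) (X : K × K) :
    ∑ x : N × N, (if (π x.1 = X.1 ∧ π x.2 = X.2) ∧ Preg p x.1 ∧
        pr p (c * x.1) = x.2 * x.1 * x.2⁻¹ then (1 : ℤ) else 0)
      = if Preg p X.1 ∧ pr p (π c * X.1) = X.2 * X.1 * X.2⁻¹ then (Nat.card π.ker : ℤ) else 0 := by
  by_cases h : Preg p X.1 ∧ pr p (π c * X.1) = X.2 * X.1 * X.2⁻¹
  · rw [if_pos h, Fintype.sum_prod_type]
    obtain ⟨g0, hg0⟩ := hπ X.2
    obtain ⟨s', hs'⟩ := hπ X.1
    set s0 := pr p s' with hs0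
    have hs0r : Preg p s0 := preg_pr _
    have hs0π : π s0 = X.1 := by
      rw [hs0, ← pr_hom, hs']
      exact pr_eq_self h.1
    have key : ∀ s : N, ∑ g : N, (if (π s = X.1 ∧ π g = X.2) ∧ Preg p s ∧
        pr p (c * s) = g * s * g⁻¹ then (1 : ℤ) else 0)
        = ∑ q : π.ker, if (q : N) * s0 * (q : N)⁻¹ = s then 1 else 0 := by
      intro s
      by_cases h1 : π s = X.1 ∧ Preg p s
      · obtain ⟨v, hv, hsv⟩ := conj_lift hk hs0r h1.2 (hs0π.trans h1.1.symm)
        have e1 : ∑ g : N, (if (π s = X.1 ∧ π g = X.2) ∧ Preg p s ∧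
            pr p (c * s) = g * s * g⁻¹ then (1 : ℤ) else 0)
            = ∑ g : N, (if π g = π g0 then (if pr p (c * s) = g * s * g⁻¹ then (1 : ℤ) else 0)
              else 0) := by
          refine Finset.sum_congr rfl (fun g _ => ?_)
          rw [hg0]
          by_cases h2 : π g = X.2
          · by_cases h3 : pr p (c * s) = g * s * g⁻¹
            · rw [if_pos ⟨⟨h1.1, h2⟩, h1.2, h3⟩, if_pos h2, if_pos h3]
            · rw [if_neg (fun h4 => h3 h4.2.2), if_pos h2, if_neg h3]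
          · rw [if_neg (fun h4 => h2 h4.1.2), if_neg h2]
        rw [e1, sum_fib]
        have hy : Preg p (pr p (c * s)) := preg_pr _
        have hx : Preg p (g0 * s * g0⁻¹) := (preg_conj g0 s).2 h1.2
        have hxy : π (g0 * s * g0⁻¹) = π (pr p (c * s)) := by
          rw [← pr_hom, map_mul π c s, h1.1, h.2, map_mul, map_mul, map_inv, h1.1, hg0]
        obtain ⟨w, hw, hyw⟩ := conj_lift hk hx hy hxy
        have e2 : (∑ q : π.ker, if pr p (c * s) = (q : N) * g0 * s * ((q : N) * g0)⁻¹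
            then (1 : ℤ) else 0) = kap π (g0 * s * g0⁻¹) (pr p (c * s)) := by
          unfold kap
          refine Finset.sum_congr rfl (fun q _ => ?_)
          congr 1
          apply propext
          have e3 : (q : N) * g0 * s * ((q : N) * g0)⁻¹ =
            (q : N) * (g0 * s * g0⁻¹) * (q : N)⁻¹ := by group
          rw [e3]
          exact eq_comm
        rw [e2, kap_eq π hw hyw, kap_conj]
        change _ = kap π s0 s
        rw [kap_eq π hv hsv, hsv, kap_conj]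
      · rw [Finset.sum_eq_zero, Finset.sum_eq_zero]
        · intro q _
          rw [if_neg]
          intro e
          apply h1
          rw [← e]
          refine ⟨?_, (preg_conj _ _).2 hs0r⟩
          rw [map_mul, map_mul, map_inv, (MonoidHom.mem_ker).1 q.2, hs0π]
          simp
        · intro g _
          rw [if_neg]
          rintro ⟨⟨h2, -⟩, h3, -⟩
          exact h1 ⟨h2, h3⟩
    rw [Finset.sum_congr rfl (fun s _ => key s), Finset.sum_comm]
    have e4 : ∀ q : π.ker, (∑ s : N, if (q : N) * s0 * (q : N)⁻¹ = s then (1 : ℤ) else 0) = 1 := by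
      intro q
      rw [Finset.sum_ite_eq Finset.univ, if_pos (Finset.mem_univ _)]
    rw [Finset.sum_congr rfl (fun q _ => e4 q)]
    simp [Nat.card_eq_fintype_card]
  · rw [if_neg h, Finset.sum_eq_zero]
    intro x _
    rw [if_neg]
    rintro ⟨⟨h1, h2⟩, h3, h4⟩
    apply h
    rw [← h1, ← h2]
    refine ⟨preg_hom h3, ?_⟩
    rw [← map_mul π c, pr_hom, h4, map_mul, map_mul, map_inv]

omit [Fact p.Prime] in
theorem pel_lift {π : N →* K} (hk : IsPGroup p π.ker) (x : N) : Pel p (π x) ↔ Pel p x := by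
  constructor
  · rintro ⟨n, hn⟩
    have h1 : x ^ p ^ n ∈ π.ker := by rw [MonoidHom.mem_ker, map_pow, hn]
    obtain ⟨k, hk'⟩ := hk ⟨_, h1⟩
    refine ⟨n + k, ?_⟩
    have h2 := congrArg Subtype.val hk'
    rw [Subgroup.coe_pow] at h2
    simp only at h2
    rw [pow_add, pow_mul, h2]
    rfl
  · rintro ⟨n, hn⟩
    exact ⟨n, by rw [← map_pow, hn, map_one]⟩

theorem cmt_map {B C : Type*} [Group B] [Group C] (f : B →* C) (a b : B) :
    f (cmt a b) = cmt (f a) (f b) := by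
  simp [cmt]

open Classical in
theorem cntA [Fintype N] (π : N →* K) (hπ : Function.Surjective π)
    (hk : IsPGroup p π.ker) (c : N) (X : K × K) :
    ∑ x : N × N, (if (π x.1 = X.1 ∧ π x.2 = X.2) ∧ Pel p (cmt x.1 x.2 * c) then (1 : ℤ) else 0)
      = if Pel p (cmt X.1 X.2 * π c) then (Nat.card π.ker : ℤ) ^ 2 else 0 := by
  obtain ⟨a0, ha0⟩ := hπ X.1
  obtain ⟨b0, hb0⟩ := hπ X.2
  have e1 : ∀ x : N × N, (if (π x.1 = X.1 ∧ π x.2 = X.2) ∧ Pel p (cmt x.1 x.2 * c) then (1 : ℤ)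
      else 0) = (if Pel p (cmt X.1 X.2 * π c) then (1 : ℤ) else 0) *
        ((if π x.1 = π a0 then 1 else 0) * (if π x.2 = π b0 then 1 else 0)) := by
    intro x
    rw [ha0, hb0]
    by_cases h1 : π x.1 = X.1
    · by_cases h2 : π x.2 = X.2
      · have h3 : Pel p (cmt X.1 X.2 * π c) ↔ Pel p (cmt x.1 x.2 * c) := by
          rw [← h1, ← h2, ← cmt_map, ← map_mul, pel_lift hk]
        rw [if_pos h1, if_pos h2]
        by_cases h4 : Pel p (cmt x.1 x.2 * c)
        · rw [if_pos ⟨⟨h1, h2⟩, h4⟩, if_pos (h3.2 h4)]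
          simp
        · rw [if_neg (fun h => h4 h.2), if_neg (fun h => h4 (h3.1 h))]
          simp
      · rw [if_neg (fun h => h2 h.1.2), if_neg h2]
        simp
    · rw [if_neg (fun h => h1 h.1.1), if_neg h1]
      simp
  rw [Finset.sum_congr rfl (fun x _ => e1 x), ← Finset.mul_sum, Fintype.sum_prod_type]
  have e2 : ∀ g0 : N, (∑ g : N, if π g = π g0 then (1 : ℤ) else 0) = (Nat.card π.ker : ℤ) := by
    intro g0
    rw [sum_fib π g0 (fun _ => 1)]
    simp [Nat.card_eq_fintype_card]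
  have e3 : (∑ x : N, ∑ x1 : N, (if π x = π a0 then (1 : ℤ) else 0) *
      (if π x1 = π b0 then (1 : ℤ) else 0)) = (∑ x : N, (if π x = π a0 then (1 : ℤ) else 0)) *
      ∑ x1 : N, (if π x1 = π b0 then (1 : ℤ) else 0) := (Finset.sum_mul_sum _ _ _ _).symm
  simp only
  rw [e3, e2, e2]
  split_ifs
  · ring
  · ring

end cnt

section mta
variable {N K : Type*} [Group N] [Group K] [Fintype N] [Fintype K]

open Classical in
/-- summation over the fibres -/
theorem fib_sum (π : N →* K) (Hs : Subgroup K) (f : N × N → N → Prop) (F : K × K → K → Prop)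
    (M : ℤ) (hf : ∀ (c : N) (X : K × K),
      ∑ x : N × N, (if (π x.1 = X.1 ∧ π x.2 = X.2) ∧ f x c then (1 : ℤ) else 0)
        = if F X (π c) then M else 0) (m : N → ℤ) :
    ∑ t : N × N × N, (if (π t.1 ∈ Hs ∧ π t.2.1 ∈ Hs ∧ π t.2.2 ∈ Hs) ∧ f (t.1, t.2.1) t.2.2
        then m t.2.2 else 0)
      = M * ∑ T : K × K × K, (if (T.1 ∈ Hs ∧ T.2.1 ∈ Hs ∧ T.2.2 ∈ Hs) ∧ F (T.1, T.2.1) T.2.2
        then ∑ c : N, (if π c = T.2.2 then m c else 0) else 0) := by
  have eL : ∑ t : N × N × N, (if (π t.1 ∈ Hs ∧ π t.2.1 ∈ Hs ∧ π t.2.2 ∈ Hs) ∧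
      f (t.1, t.2.1) t.2.2 then m t.2.2 else 0)
      = ∑ c : N, ∑ x : N × N, (if (π x.1 ∈ Hs ∧ π x.2 ∈ Hs ∧ π c ∈ Hs) ∧ f x c then m c
        else 0) := by
    rw [← Fintype.sum_prod_type_right (fun y : (N × N) × N =>
      if (π y.1.1 ∈ Hs ∧ π y.1.2 ∈ Hs ∧ π y.2 ∈ Hs) ∧ f y.1 y.2 then m y.2 else 0)]
    exact (Fintype.sum_equiv (Equiv.prodAssoc N N N) _ _ (fun y => rfl)).symm
  have eR : ∑ T : K × K × K, (if (T.1 ∈ Hs ∧ T.2.1 ∈ Hs ∧ T.2.2 ∈ Hs) ∧ F (T.1, T.2.1) T.2.2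
        then ∑ c : N, (if π c = T.2.2 then m c else 0) else 0)
      = ∑ c : N, ∑ X : K × K, (if (X.1 ∈ Hs ∧ X.2 ∈ Hs ∧ π c ∈ Hs) ∧ F X (π c) then m c
        else 0) := by
    have e1 : ∑ T : K × K × K, (if (T.1 ∈ Hs ∧ T.2.1 ∈ Hs ∧ T.2.2 ∈ Hs) ∧ F (T.1, T.2.1) T.2.2
        then ∑ c : N, (if π c = T.2.2 then m c else 0) else 0)
      = ∑ C : K, ∑ X : K × K, (if (X.1 ∈ Hs ∧ X.2 ∈ Hs ∧ C ∈ Hs) ∧ F X C then
        ∑ c : N, (if π c = C then m c else 0) else 0) := by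
      rw [← Fintype.sum_prod_type_right (fun y : (K × K) × K =>
        if (y.1.1 ∈ Hs ∧ y.1.2 ∈ Hs ∧ y.2 ∈ Hs) ∧ F y.1 y.2 then
          ∑ c : N, (if π c = y.2 then m c else 0) else 0)]
      exact (Fintype.sum_equiv (Equiv.prodAssoc K K K) _ _ (fun y => rfl)).symm
    rw [e1]
    have e2 : ∀ C : K, ∑ X : K × K, (if (X.1 ∈ Hs ∧ X.2 ∈ Hs ∧ C ∈ Hs) ∧ F X C then
        ∑ c : N, (if π c = C then m c else 0) else 0)
        = ∑ c : N, (if π c = C then ∑ X : K × K, (if (X.1 ∈ Hs ∧ X.2 ∈ Hs ∧ π c ∈ Hs) ∧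
          F X (π c) then m c else 0) else 0) := by
      intro C
      have e3 : ∀ X : K × K, (if (X.1 ∈ Hs ∧ X.2 ∈ Hs ∧ C ∈ Hs) ∧ F X C then
        ∑ c : N, (if π c = C then m c else 0) else 0) = ∑ c : N, (if π c = C then
          (if (X.1 ∈ Hs ∧ X.2 ∈ Hs ∧ π c ∈ Hs) ∧ F X (π c) then m c else 0) else 0) := by
        intro X
        by_cases h : (X.1 ∈ Hs ∧ X.2 ∈ Hs ∧ C ∈ Hs) ∧ F X C
        · rw [if_pos h]
          refine Finset.sum_congr rfl (fun c _ => ?_)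
          by_cases h2 : π c = C
          · rw [if_pos h2, if_pos h2, h2, if_pos h]
          · rw [if_neg h2, if_neg h2]
        · rw [if_neg h, Finset.sum_eq_zero]
          intro c _
          by_cases h2 : π c = C
          · rw [if_pos h2, h2, if_neg h]
          · rw [if_neg h2]
      rw [Finset.sum_congr rfl (fun X _ => e3 X), Finset.sum_comm]
      refine Finset.sum_congr rfl (fun c _ => ?_)
      by_cases h2 : π c = C
      · simp only [if_pos h2]
      · simp only [if_neg h2, Finset.sum_const_zero]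
    rw [Finset.sum_congr rfl (fun C _ => e2 C), Finset.sum_comm]
    refine Finset.sum_congr rfl (fun c _ => ?_)
    rw [Finset.sum_ite_eq Finset.univ, if_pos (Finset.mem_univ _)]
  rw [eL, eR, Finset.mul_sum]
  refine Finset.sum_congr rfl (fun c _ => ?_)
  have e5 : ∑ x : N × N, (if (π x.1 ∈ Hs ∧ π x.2 ∈ Hs ∧ π c ∈ Hs) ∧ f x c then m c else 0)
      = ∑ X : K × K, ∑ x : N × N, (if (π x.1, π x.2) = X then
        (if (π x.1 ∈ Hs ∧ π x.2 ∈ Hs ∧ π c ∈ Hs) ∧ f x c then m c else 0) else 0) := by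
    rw [Finset.sum_comm]
    refine Finset.sum_congr rfl (fun x _ => ?_)
    rw [Finset.sum_ite_eq Finset.univ, if_pos (Finset.mem_univ _)]
  rw [e5, Finset.mul_sum]
  refine Finset.sum_congr rfl (fun X _ => ?_)
  have e6 : ∀ x : N × N, (if (π x.1, π x.2) = X then
        (if (π x.1 ∈ Hs ∧ π x.2 ∈ Hs ∧ π c ∈ Hs) ∧ f x c then m c else 0) else 0)
      = (if X.1 ∈ Hs ∧ X.2 ∈ Hs ∧ π c ∈ Hs then m c else 0) *
        (if (π x.1 = X.1 ∧ π x.2 = X.2) ∧ f x c then (1 : ℤ) else 0) := by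
    intro x
    by_cases h : (π x.1, π x.2) = X
    · have h1 : π x.1 = X.1 := by rw [← h]
      have h2 : π x.2 = X.2 := by rw [← h]
      rw [if_pos h, h1, h2]
      by_cases h3 : X.1 ∈ Hs ∧ X.2 ∈ Hs ∧ π c ∈ Hs
      · by_cases h4 : f x c
        · simp [h3, h4]
        · simp [h4]
      · simp [h3]
    · have h1 : ¬ (π x.1 = X.1 ∧ π x.2 = X.2) := fun h2 => h (Prod.ext h2.1 h2.2)
      have h5 : (if (π x.1 = X.1 ∧ π x.2 = X.2) ∧ f x c then (1 : ℤ) else 0) = 0 :=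
        if_neg (fun h2 => h1 h2.1)
      rw [if_neg h, h5, mul_zero]
  rw [Finset.sum_congr rfl (fun x _ => e6 x), ← Finset.mul_sum, hf]
  by_cases h3 : X.1 ∈ Hs ∧ X.2 ∈ Hs ∧ π c ∈ Hs
  · by_cases h4 : F X (π c)
    · rw [if_pos h3, if_pos h4, if_pos ⟨h3, h4⟩]
      ring
    · have h5 : (if (X.1 ∈ Hs ∧ X.2 ∈ Hs ∧ π c ∈ Hs) ∧ F X (π c) then m c else 0) = 0 :=
        if_neg (fun h => h4 h.2)
      rw [if_neg h4, h5]
      ring
  · have h5 : (if (X.1 ∈ Hs ∧ X.2 ∈ Hs ∧ π c ∈ Hs) ∧ F X (π c) then m c else 0) = 0 :=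
      if_neg (fun h => h3 h.1)
    rw [if_neg h3, h5]
    ring

end mta

end QuoAux

open QuoAux

variable {p : ℕ} {A : Type*} [Group A]

namespace QuoAux

/-- the quotient map -/
abbrev pim (Q : Subgroup A) : ↥(Subgroup.normalizer (Q : Set A)) →* NQ Q :=
  QuotientGroup.mk' (Q.subgroupOf (Subgroup.normalizer (Q : Set A)))

theorem pim_surj (Q : Subgroup A) : Function.Surjective (pim Q) :=
  QuotientGroup.mk'_surjective _

theorem pim_ker_p {Q : Subgroup A} (hQ : IsPGroup p Q) : IsPGroup p (pim Q).ker := by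
  rw [QuotientGroup.ker_mk']
  exact hQ.comap_of_injective _ (Subgroup.subtype_injective _)

theorem pim_ker_card (Q : Subgroup A) : Nat.card (pim Q).ker = Nat.card Q := by
  rw [QuotientGroup.ker_mk']
  exact Nat.card_congr (Subgroup.subgroupOfEquivOfLe
    (Subgroup.le_normalizer : Q ≤ Subgroup.normalizer (Q : Set A))).toEquiv

open Classical in
theorem mb_sum [Fintype A] (Q : Subgroup A) (m : A → ℤ) (y : NQ Q) :
    mb Q m y = ∑ c : ↥(Subgroup.normalizer (Q : Set A)), if pim Q c = y then m c else 0 := by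
  unfold mb
  rw [finsum_eq_sum_of_fintype, ← Finset.sum_filter]
  exact (Finset.sum_subtype (Finset.univ.filter (fun c => pim Q c = y))
    (p := fun c => (QuotientGroup.mk c : NQ Q) = y)
    (fun c => by rw [Finset.mem_filter]; exact ⟨fun h => h.2, fun h => ⟨Finset.mem_univ _, h⟩⟩)
    (fun c => m (c : A))).symm

theorem mem_iff {Q H : Subgroup A} (hQH : Q ≤ H) (x : ↥(Subgroup.normalizer (Q : Set A))) :
    pim Q x ∈ sec H Q ↔ (x : A) ∈ H :=
  qm_mem_sec_iff (x := (x : A)) (hx := x.2) hQH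

theorem preg_coe' {N : Subgroup A} (x : ↥N) : Preg p (x : A) ↔ Preg p x := by
  unfold Preg
  rw [Subgroup.orderOf_coe]

theorem pr_coe' [Fact p.Prime] [Finite A] {N : Subgroup A} (x : ↥N) :
    pr p (x : A) = ((pr p x : ↥N) : A) := pr_hom N.subtype x

theorem pel_coe' {N : Subgroup A} (x : ↥N) : Pel p (x : A) ↔ Pel p x := by
  unfold Pel
  refine exists_congr (fun n => ?_)
  rw [← Subgroup.coe_pow]
  exact OneMemClass.coe_eq_one

open Classical in
theorem sum_restr [Fintype A] {N : Subgroup A} (f : A × A × A → ℤ)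
    (hf : ∀ t, ¬ (t.1 ∈ N ∧ t.2.1 ∈ N ∧ t.2.2 ∈ N) → f t = 0) :
    ∑ᶠ t : A × A × A, f t = ∑ t : ↥N × ↥N × ↥N, f ((t.1 : A), (t.2.1 : A), (t.2.2 : A)) := by
  rw [finsum_eq_sum_of_fintype]
  symm
  refine Fintype.sum_of_injective (fun t : ↥N × ↥N × ↥N => ((t.1 : A), (t.2.1 : A), (t.2.2 : A)))
    ?_ _ _ ?_ ?_
  · rintro ⟨a, b, c⟩ ⟨a', b', c'⟩ h
    simp only [Prod.mk.injEq, SetLike.coe_eq_coe] at h
    exact Prod.ext h.1 (Prod.ext h.2.1 h.2.2)
  · rintro ⟨a, b, c⟩ h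
    apply hf
    rintro ⟨h1, h2, h3⟩
    exact h ⟨(⟨a, h1⟩, ⟨b, h2⟩, ⟨c, h3⟩), rfl⟩
  · intro t
    rfl

theorem ite_c {P P' : Prop} {i : Decidable P} {i' : Decidable P'} (h : P ↔ P') {a b a' b' : ℤ}
    (ha : a = a') (hb : b = b') : @ite ℤ P i a b = @ite ℤ P' i' a' b' := by
  by_cases hp : P
  · rw [if_pos hp, if_pos (h.1 hp), ha]
  · rw [if_neg hp, if_neg (fun x => hp (h.2 x)), hb]

end QuoAux

theorem mb_isWt [Fact p.Prime] [Finite A] (Q : Subgroup A) {m : A → ℤ} (hm : IsWt p ⊤ m) :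
    IsWt p (⊤ : Subgroup (NQ Q)) (mb Q m) := by
  classical
  have := Fintype.ofFinite A
  constructor
  · intro h _ y
    obtain ⟨g, rfl⟩ := pim_surj Q h
    rw [mb_sum, mb_sum]
    symm
    refine Fintype.sum_equiv (MulAut.conj g).toEquiv _ _ (fun c => ?_)
    change _ = if pim Q (g * c * g⁻¹) = _ then m ((g : A) * c * (g : A)⁻¹) else 0
    rw [hm.conj _ (Subgroup.mem_top _)]
    by_cases h1 : pim Q c = y
    · rw [if_pos h1, if_pos (by rw [map_mul, map_mul, map_inv, h1])]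
    · rw [if_neg h1, if_neg]
      intro h2
      rw [map_mul, map_mul, map_inv] at h2
      exact h1 (mul_left_cancel (mul_right_cancel h2))
  · intro y hy
    rw [mb_sum] at hy
    obtain ⟨c, _, hc⟩ := Finset.exists_ne_zero_of_sum_ne_zero hy
    by_cases h1 : pim Q c = y
    · rw [if_pos h1] at hc
      rw [← h1]
      exact preg_hom ((preg_coe' c).1 (hm.reg _ hc))
    · rw [if_neg h1] at hc
      exact absurd rfl hc

/-- For `Q ≤ H ≤ N(Q)`: `|Q| nL(H/Q) = nL(H)`. -/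
theorem nL_quo [Fact p.Prime] [Finite A] {Q H : Subgroup A} (hQ : IsPGroup p Q) (hQH : Q ≤ H)
    (hH : H ≤ Subgroup.normalizer (Q : Set A)) {m : A → ℤ} (hm : IsWt p ⊤ m) :
    (Nat.card Q : ℤ) * nL p (sec H Q) (mb Q m) = nL p H m := by
  classical
  have := Fintype.ofFinite A
  have := Fintype.ofFinite (NQ Q)
  have h1 := fib_sum (pim Q) (sec H Q)
    (fun x c => Preg p x.1 ∧ pr p (c * x.1) = x.2 * x.1 * x.2⁻¹)
    (fun X C => Preg p X.1 ∧ pr p (C * X.1) = X.2 * X.1 * X.2⁻¹) (Nat.card (pim Q).ker : ℤ)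
    (fun c X => by
      refine Eq.trans (Finset.sum_congr rfl (fun x _ => ite_c Iff.rfl rfl rfl))
        ((cntL (pim Q) (pim_surj Q) (pim_ker_p hQ) c X).trans (ite_c Iff.rfl rfl rfl)))
    (fun c => m c)
  rw [pim_ker_card] at h1
  unfold nL
  rw [sum_restr (N := Subgroup.normalizer (Q : Set A)) (fun t : A × A × A =>
    if (t.1 ∈ H ∧ t.2.1 ∈ H ∧ t.2.2 ∈ H) ∧ Preg p t.1 ∧
      pr p (t.2.2 * t.1) = t.2.1 * t.1 * t.2.1⁻¹ then m t.2.2 else 0)]
  · rw [finsum_eq_sum_of_fintype]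
    simp only [mb_sum]
    refine Eq.trans (congrArg _ (Finset.sum_congr rfl (fun T _ => ite_c Iff.rfl
      (Finset.sum_congr rfl (fun c _ => ite_c Iff.rfl rfl rfl)) rfl)))
      (h1.symm.trans (Finset.sum_congr rfl (fun t _ => ite_c ?_ rfl rfl)))
    rw [mem_iff hQH, mem_iff hQH, mem_iff hQH]
    refine and_congr Iff.rfl (and_congr (preg_coe' t.1).symm ?_)
    rw [← Subgroup.coe_mul, pr_coe']
    rw [← Subgroup.coe_mul, ← Subgroup.coe_inv, ← Subgroup.coe_mul]
    exact (SetLike.coe_eq_coe).symm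
  · intro t ht
    rw [if_neg]
    rintro ⟨⟨h2, h3, h4⟩, -⟩
    exact ht ⟨hH h2, hH h3, hH h4⟩

/-- For `Q ≤ H ≤ N(Q)`: `nA(H) = |Q|^2 nA(H/Q)`. -/
theorem nA_quo [Fact p.Prime] [Finite A] {Q H : Subgroup A} (hQ : IsPGroup p Q) (hQH : Q ≤ H)
    (hH : H ≤ Subgroup.normalizer (Q : Set A)) {m : A → ℤ} (hm : IsWt p ⊤ m) :
    nA p H m = (Nat.card Q : ℤ) ^ 2 * nA p (sec H Q) (mb Q m) := by
  classical
  have := Fintype.ofFinite A
  have := Fintype.ofFinite (NQ Q)
  have h1 := fib_sum (pim Q) (sec H Q)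
    (fun x c => Pel p (cmt x.1 x.2 * c))
    (fun X C => Pel p (cmt X.1 X.2 * C)) ((Nat.card (pim Q).ker : ℤ) ^ 2)
    (fun c X => by
      refine Eq.trans (Finset.sum_congr rfl (fun x _ => ite_c Iff.rfl rfl rfl))
        ((cntA (pim Q) (pim_surj Q) (pim_ker_p hQ) c X).trans (ite_c Iff.rfl rfl rfl)))
    (fun c => m c)
  rw [pim_ker_card] at h1
  unfold nA
  rw [sum_restr (N := Subgroup.normalizer (Q : Set A)) (fun t : A × A × A =>
    if (t.1 ∈ H ∧ t.2.1 ∈ H ∧ t.2.2 ∈ H) ∧ Pel p (cmt t.1 t.2.1 * t.2.2) then m t.2.2 else 0)]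
  · rw [finsum_eq_sum_of_fintype]
    simp only [mb_sum]
    refine Eq.trans (Finset.sum_congr rfl (fun t _ => ite_c ?_ rfl rfl)) (h1.trans
      (congrArg _ (Finset.sum_congr rfl (fun T _ => ite_c Iff.rfl
      (Finset.sum_congr rfl (fun c _ => ite_c Iff.rfl rfl rfl)) rfl))))
    rw [mem_iff hQH, mem_iff hQH, mem_iff hQH]
    refine and_congr Iff.rfl ?_
    rw [← pel_coe', Subgroup.coe_mul]
    rfl
  · intro t ht
    rw [if_neg]
    rintro ⟨⟨h2, h3, h4⟩, -⟩
    exact ht ⟨hH h2, hH h3, hH h4⟩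

/-- If `H` has a nontrivial normal p-subgroup, then `p |H|` divides `nA(H)`. -/
theorem nA_dvd_p [Fact p.Prime] [Finite A] {Q H : Subgroup A} (hQ : IsPGroup p Q) (hQ1 : Q ≠ ⊥)
    (hQH : Q ≤ H) (hH : H ≤ Subgroup.normalizer (Q : Set A)) {m : A → ℤ} (hm : IsWt p ⊤ m) :
    (p : ℤ) * (Nat.card H : ℤ) ∣ nA p H m := by
  have hw : IsWt p (sec H Q) (mb Q m) :=
    ⟨fun h _ x => (mb_isWt Q hm).conj h (Subgroup.mem_top h) x, (mb_isWt Q hm).reg⟩
  have h1 := nA_dvd (sec H Q) hw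
  have h2 := card_sec hQH
  rw [inf_eq_left.2 hH] at h2
  have h3 : p ∣ Nat.card Q := by
    obtain ⟨k, hk⟩ := IsPGroup.iff_card.mp hQ
    rw [hk]
    refine dvd_pow_self p ?_
    rintro rfl
    rw [pow_zero] at hk
    exact hQ1 (Subgroup.card_eq_one.1 hk)
  rw [nA_quo hQ hQH hH hm, ← h2]
  obtain ⟨u, hu⟩ := h1
  obtain ⟨v, hv⟩ := h3
  rw [hu]
  refine ⟨(v : ℤ) * u, ?_⟩
  have hv' : (Nat.card Q : ℤ) = (p : ℤ) * v := by exact_mod_cast hv
  push_cast
  rw [hv']
  ring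

end Pool.Agent.Lib.P0c8ca5
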