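import Mathlib
import Pool.Agent.Lib.P0c8ca5V.ChOrb
import Pool.Agent.Lib.P0c8ca5V.Quo

/-! `nA = eA` modulo `p |A|`, and `eA - eE` as a sum over triples. -/

namespace Pool.Agent.Lib.P0c8ca5

variable {p : ℕ} {A : Type*} [Group A]

namespace CBAux

theorem isWt_of_top {m : A → ℤ} (hm : IsWt p ⊤ m) (H : Subgroup A) : IsWt p H m :=
  ⟨fun h _ x => hm.conj h (Subgroup.mem_top h) x, hm.reg⟩

theorem wt_conj {m : A → ℤ} (hm : IsWt p ⊤ m) (g x : A) : m (g * x * g⁻¹) = m x :=
  hm.conj g (Subgroup.mem_top g) x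

/-- `U` has a nontrivial normal p-subgroup. -/
def HasN (p : ℕ) (U : Subgroup A) : Prop :=
  ∃ Q : Subgroup A, Q ≤ U ∧ U ≤ Subgroup.normalizer (Q : Set A) ∧ IsPGroup p Q ∧ Q ≠ ⊥

theorem hasN_cg_of {U : Subgroup A} (g : A) (h : HasN p U) : HasN p (cg g U) := by
  obtain ⟨Q, hQU, hUN, hp, h1⟩ := h
  refine ⟨cg g Q, cg_le_cg hQU, ?_, ?_, ?_⟩
  · intro x hx
    rw [cg, Subgroup.mem_map] at hx
    obtain ⟨u, hu, rfl⟩ := hx
    have hu' := hUN hu
    rw [Subgroup.mem_normalizer_iff] at hu' ⊢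
    intro y
    simp only [cg, Subgroup.mem_map, MulEquiv.coe_toMonoidHom, MulAut.conj_apply]
    constructor
    · rintro ⟨z, hz, rfl⟩
      exact ⟨u * z * u⁻¹, (hu' z).1 hz, by group⟩
    · rintro ⟨z, hz, e⟩
      refine ⟨u⁻¹ * z * u, ?_, ?_⟩
      · rw [hu' (u⁻¹ * z * u)]
        have : u * (u⁻¹ * z * u) * u⁻¹ = z := by group
        rw [this]
        exact hz
      · have : y = (g * u * g⁻¹)⁻¹ * (g * z * g⁻¹) * (g * u * g⁻¹) := by
          rw [e]; group
        rw [this]; group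
  · exact hp.map _
  · intro h
    apply h1
    rw [cg, Subgroup.map_eq_bot_iff_of_injective] at h
    · exact h
    · exact (MulAut.conj g).injective

theorem hasN_cg (g : A) (U : Subgroup A) : HasN p (cg g U) ↔ HasN p U := by
  constructor
  · intro h
    have := hasN_cg_of g⁻¹ h
    rwa [cg_cg, inv_mul_cancel, cg_one] at this
  · exact hasN_cg_of g

theorem sN_empty : sN (∅ : Finset (Subgroup A)) = ⊤ := by
  simp [sN]

theorem isCh_empty : IsCh p (∅ : Finset (Subgroup A)) := by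
  refine ⟨?_, ?_⟩
  · intro x hx
    simp at hx
  · intro Q hQ
    simp at hQ

theorem hasN_sN {σ : Finset (Subgroup A)} (h : IsCh p σ) (hne : σ ≠ ∅) : HasN p (sN σ) := by
  obtain ⟨Q, hQ, hmin⟩ : ∃ Q ∈ σ, ∀ P ∈ σ, Q ≤ P := by
    obtain ⟨Q, hQ, hm⟩ := Finset.exists_minimal (s := σ) (Finset.nonempty_iff_ne_empty.2 hne)
    refine ⟨Q, hQ, fun P hP => ?_⟩
    rcases h.1.total hQ hP with h1 | h1
    · exact h1
    · exact hm hP h1
  refine ⟨Q, ?_, ?_, (h.2 Q hQ).1, (h.2 Q hQ).2⟩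
  · refine le_iInf₂ (fun P hP => ?_)
    exact (hmin P hP).trans Subgroup.le_normalizer
  · exact iInf₂_le Q hQ

end CBAux

open CBAux

/-- For a nonempty chain, its least member is a nontrivial normal p-subgroup of `sN σ`; so only
the empty chain contributes to `eA` modulo `p |A|`. -/
theorem nA_eA [Fact p.Prime] [Finite A] {m : A → ℤ} (hm : IsWt p ⊤ m) :
    (p : ℤ) * (Nat.card A : ℤ) ∣ nA p (⊤ : Subgroup A) m - eA p m := by
  classical
  have := Fintype.ofFinite (Subgroup A)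
  set F : Subgroup A → ℤ := fun U => if HasN p U then nA p U m else 0 with hF
  have h1 : nA p (⊤ : Subgroup A) m - eA p m = F ⊤ - chS p F := by
    rw [eA, chS, chS, finsum_eq_sum_of_fintype, finsum_eq_sum_of_fintype,
      ← Finset.add_sum_erase _ _ (Finset.mem_univ (∅ : Finset (Subgroup A))),
      ← Finset.add_sum_erase (Finset.univ : Finset (Finset (Subgroup A)))
        (fun σ => if IsCh p σ then (-1) ^ σ.card * F (sN σ) else 0)
        (Finset.mem_univ (∅ : Finset (Subgroup A)))]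
    have e1 : ∑ σ ∈ Finset.univ.erase (∅ : Finset (Subgroup A)),
        (if IsCh p σ then (-1) ^ σ.card * nA p (sN σ) m else 0) =
        ∑ σ ∈ Finset.univ.erase (∅ : Finset (Subgroup A)),
        (if IsCh p σ then (-1) ^ σ.card * F (sN σ) else 0) := by
      refine Finset.sum_congr rfl (fun σ hσ => ?_)
      by_cases hc : IsCh p σ
      · rw [if_pos hc, if_pos hc, hF]
        simp only
        rw [if_pos (hasN_sN hc (Finset.ne_of_mem_erase hσ))]
      · rw [if_neg hc, if_neg hc]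
    simp only [isCh_empty, if_true, Finset.card_empty, pow_zero, one_mul, sN_empty]
    rw [e1]
    ring
  have hdv : ∀ U : Subgroup A, (p : ℤ) * (Nat.card U : ℤ) ∣ F U := by
    intro U
    rw [hF]
    simp only
    split_ifs with h
    · obtain ⟨Q, hQU, hUN, hp, hQ1⟩ := h
      exact nA_dvd_p hp hQ1 hQU hUN hm
    · exact dvd_zero _
  rw [h1]
  refine dvd_sub ?_ ?_
  · have := hdv ⊤
    rwa [Nat.card_congr (Subgroup.topEquiv (G := A)).toEquiv] at this
  · refine chS_dvd F ?_ _ (fun σ _ => hdv (sN σ))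
    intro g U
    rw [hF]
    simp only [hasN_cg]
    rw [nA_conj U g (fun x => wt_conj hm g x)]

namespace CBAux

theorem gen_le {t : A × A × A} {U : Subgroup A} :
    gen t ≤ U ↔ t.1 ∈ U ∧ t.2.1 ∈ U ∧ t.2.2 ∈ U := by
  rw [gen, Subgroup.closure_le]
  constructor
  · intro h
    exact ⟨h (by simp), h (by simp), h (by simp)⟩
  · rintro ⟨h1, h2, h3⟩ x hx
    simp only [Set.mem_insert_iff, Set.mem_singleton_iff] at hx
    rcases hx with rfl | rfl | rfl
    · exact h1
    · exact h2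
    · exact h3

theorem pel_one (p : ℕ) : Pel p (1 : A) := ⟨0, by simp⟩

open Classical in
theorem nA_sub_nE [Finite A] (p : ℕ) (H : Subgroup A) (m : A → ℤ) :
    nA p H m - nE H m = ∑ᶠ t : A × A × A, if gen t ≤ H then dW p m t else 0 := by
  have := Fintype.ofFinite A
  rw [nA, nE, finsum_eq_sum_of_fintype, finsum_eq_sum_of_fintype, finsum_eq_sum_of_fintype,
    sub_eq_iff_eq_add]
  have e1 : ∑ t : A × A, (if t.1 ∈ H ∧ t.2 ∈ H then m ((cmt t.1 t.2)⁻¹) else 0) =
      ∑ t : A × A × A, (if gen t ≤ H ∧ cmt t.1 t.2.1 * t.2.2 = 1 then m t.2.2 else 0) := by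
    rw [Fintype.sum_prod_type (fun t : A × A => if t.1 ∈ H ∧ t.2 ∈ H then m ((cmt t.1 t.2)⁻¹) else 0),
      Fintype.sum_prod_type (fun t : A × A × A => if gen t ≤ H ∧ cmt t.1 t.2.1 * t.2.2 = 1
        then m t.2.2 else 0)]
    refine Finset.sum_congr rfl (fun a _ => ?_)
    rw [Fintype.sum_prod_type (fun t : A × A => if gen (a, t) ≤ H ∧ cmt a t.1 * t.2 = 1
        then m t.2 else 0)]
    refine Finset.sum_congr rfl (fun b _ => ?_)
    rw [Finset.sum_eq_single ((cmt a b)⁻¹)]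
    · simp only [gen_le, mul_inv_cancel, and_true]
      by_cases h : a ∈ H ∧ b ∈ H
      · have hc : (cmt a b)⁻¹ ∈ H := by
          rw [cmt]
          exact H.inv_mem (H.mul_mem (H.mul_mem (H.mul_mem h.1 h.2) (H.inv_mem h.1))
            (H.inv_mem h.2))
        rw [if_pos h, if_pos ⟨h.1, h.2, hc⟩]
      · rw [if_neg h, if_neg (fun h' => h ⟨h'.1, h'.2.1⟩)]
    · intro c _ hc
      rw [if_neg]
      rintro ⟨-, h⟩
      exact hc (eq_inv_of_mul_eq_one_right h)
    · intro h
      exact absurd (Finset.mem_univ _) h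
  rw [e1, ← Finset.sum_add_distrib]
  refine Finset.sum_congr rfl (fun t _ => ?_)
  rw [dW]
  simp only [gen_le]
  by_cases h : t.1 ∈ H ∧ t.2.1 ∈ H ∧ t.2.2 ∈ H
  · by_cases h1 : cmt t.1 t.2.1 * t.2.2 = 1
    · have hp : Pel p (cmt t.1 t.2.1 * t.2.2) := by rw [h1]; exact pel_one p
      simp [h, h1, pel_one p]
    · by_cases h2 : Pel p (cmt t.1 t.2.1 * t.2.2)
      · simp [h, h1, h2]
      · simp [h, h1, h2]
  · simp [h]

end CBAux

/-- Double counting. -/
theorem eA_sub_eE [Finite A] (p : ℕ) (m : A → ℤ) :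
    eA p m - eE p m = ∑ᶠ t : A × A × A, dW p m t * fK p (gen t) := by
  classical
  have := Fintype.ofFinite A
  have := Fintype.ofFinite (Subgroup A)
  have e1 : eA p m - eE p m = ∑ σ : Finset (Subgroup A), if IsCh p σ then
      (-1) ^ σ.card * ∑ t : A × A × A, (if gen t ≤ sN σ then dW p m t else 0) else 0 := by
    rw [eA, eE, chS, chS, finsum_eq_sum_of_fintype, finsum_eq_sum_of_fintype,
      ← Finset.sum_sub_distrib]
    refine Finset.sum_congr rfl (fun σ _ => ?_)
    have h := nA_sub_nE p (sN σ) m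
    rw [finsum_eq_sum_of_fintype] at h
    by_cases hc : IsCh p σ
    · rw [if_pos hc, if_pos hc, if_pos hc, ← h]
      ring
    · rw [if_neg hc, if_neg hc, if_neg hc, sub_zero]
  rw [e1, finsum_eq_sum_of_fintype]
  have e2 : ∀ t : A × A × A, dW p m t * fK p (gen t) = ∑ σ : Finset (Subgroup A),
      if IsCh p σ then (-1) ^ σ.card * (if gen t ≤ sN σ then dW p m t else 0) else 0 := by
    intro t
    rw [fK, chS, finsum_eq_sum_of_fintype, Finset.mul_sum]
    refine Finset.sum_congr rfl (fun σ _ => ?_)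
    by_cases hc : IsCh p σ
    · rw [if_pos hc, if_pos hc]
      by_cases hg : gen t ≤ sN σ
      · rw [if_pos hg, if_pos hg]
        ring
      · rw [if_neg hg, if_neg hg]
        ring
    · rw [if_neg hc, if_neg hc, mul_zero]
  rw [Finset.sum_congr rfl (fun t _ => e2 t), Finset.sum_comm]
  refine Finset.sum_congr rfl (fun σ _ => ?_)
  by_cases hc : IsCh p σ
  · simp only [hc, if_true]
    rw [Finset.mul_sum]
  · simp [hc]

theorem eE_dvd [Fact p.Prime] [Finite A] {m : A → ℤ} (hm : IsWt p ⊤ m) :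
    (Nat.card A : ℤ) ∣ eE p m := by
  have h := chS_dvd (p := p) (fun U : Subgroup A => nE U m)
    (fun g U => nE_conj U g (fun x => wt_conj hm g x)) 1
    (fun σ _ => by rw [one_mul]; exact nE_dvd (sN σ) (isWt_of_top hm (sN σ)))
  rwa [one_mul] at h

theorem eA_dvd [Fact p.Prime] [Finite A] {m : A → ℤ} (hm : IsWt p ⊤ m) :
    (Nat.card A : ℤ) ∣ eA p m := by
  have h := chS_dvd (p := p) (fun U : Subgroup A => nA p U m)
    (fun g U => nA_conj U g (fun x => wt_conj hm g x)) 1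
    (fun σ _ => by rw [one_mul]; exact nA_dvd (sN σ) (isWt_of_top hm (sN σ)))
  rwa [one_mul] at h

end Pool.Agent.Lib.P0c8ca5
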