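import Mathlib
import Pool.Agent.Lib.P0c8ca5V.Defs

/-! Toggling lemma for chains of p-subgroups. -/

namespace Pool.Agent.Lib.P0c8ca5

variable {p : ℕ} {A : Type*} [Group A]

namespace TogAux

open Classical in
/-- the supremum of the members not containing `R` -/
noncomputable def bg (R : Subgroup A) (σ : Finset (Subgroup A)) : Subgroup A :=
  (σ.filter fun Q => ¬ R ≤ Q).sup id

/-- the toggled subgroup -/
noncomputable def tg (R : Subgroup A) (σ : Finset (Subgroup A)) : Subgroup A := R ⊔ bg R σ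

open Classical in
/-- the involution -/
noncomputable def inv (R : Subgroup A) (σ : Finset (Subgroup A)) : Finset (Subgroup A) :=
  if tg R σ ∈ σ then σ.erase (tg R σ) else insert (tg R σ) σ

theorem le_tg (R : Subgroup A) (σ : Finset (Subgroup A)) : R ≤ tg R σ := le_sup_left

open Classical in
theorem bg_insert (R T : Subgroup A) (σ : Finset (Subgroup A)) (h : R ≤ T) :
    bg R (insert T σ) = bg R σ := by
  unfold bg
  rw [Finset.filter_insert, if_neg (not_not.2 h)]

open Classical in
theorem bg_erase (R T : Subgroup A) (σ : Finset (Subgroup A)) (h : R ≤ T) :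
    bg R (σ.erase T) = bg R σ := by
  by_cases hT : T ∈ σ
  · conv_rhs => rw [← Finset.insert_erase hT]
    rw [bg_insert R T _ h]
  · rw [Finset.erase_eq_of_notMem hT]

open Classical in
theorem tg_inv (R : Subgroup A) (σ : Finset (Subgroup A)) : tg R (inv R σ) = tg R σ := by
  unfold inv
  split_ifs
  · show R ⊔ bg R (σ.erase (tg R σ)) = R ⊔ bg R σ
    rw [bg_erase R _ σ (le_tg R σ)]
  · show R ⊔ bg R (insert (tg R σ) σ) = R ⊔ bg R σ
    rw [bg_insert R _ σ (le_tg R σ)]

open Classical in
theorem inv_inv (R : Subgroup A) (σ : Finset (Subgroup A)) : inv R (inv R σ) = σ := by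
  have h := tg_inv R σ
  by_cases hT : tg R σ ∈ σ
  · have h1 : inv R σ = σ.erase (tg R σ) := if_pos hT
    have h2 : tg R (inv R σ) ∉ inv R σ := by
      rw [h, h1]
      exact Finset.notMem_erase _ _
    have h3 : inv R (inv R σ) = insert (tg R (inv R σ)) (inv R σ) := if_neg h2
    rw [h3, h, h1, Finset.insert_erase hT]
  · have h1 : inv R σ = insert (tg R σ) σ := if_neg hT
    have h2 : tg R (inv R σ) ∈ inv R σ := by
      rw [h, h1]
      exact Finset.mem_insert_self _ _
    have h3 : inv R (inv R σ) = (inv R σ).erase (tg R (inv R σ)) := if_pos h2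
    rw [h3, h, h1, Finset.erase_insert hT]

theorem inv_ne (R : Subgroup A) (σ : Finset (Subgroup A)) : inv R σ ≠ σ := by
  classical
  by_cases hT : tg R σ ∈ σ
  · have h1 : inv R σ = σ.erase (tg R σ) := if_pos hT
    rw [h1]
    intro h
    rw [Finset.erase_eq_self] at h
    exact h hT
  · have h1 : inv R σ = insert (tg R σ) σ := if_neg hT
    rw [h1]
    intro h
    rw [Finset.insert_eq_self] at h
    exact hT h

open Classical in
theorem le_bg (R Q : Subgroup A) (σ : Finset (Subgroup A)) (hQ : Q ∈ σ) (h : ¬ R ≤ Q) :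
    Q ≤ bg R σ := by
  unfold bg
  exact Finset.le_sup (f := id) (Finset.mem_filter.2 ⟨hQ, h⟩)

open Classical in
/-- `bg` is trivial or a member -/
theorem bg_mem (R : Subgroup A) (σ : Finset (Subgroup A))
    (h : IsChain (· ≤ ·) (σ : Set (Subgroup A))) :
    bg R σ = ⊥ ∨ (bg R σ ∈ σ ∧ ¬ R ≤ bg R σ) := by
  by_cases he : (σ.filter fun Q => ¬ R ≤ Q).Nonempty
  · right
    obtain ⟨M, hM, hmax⟩ := Finset.exists_maximal he
    have hMσ := Finset.mem_filter.1 hM
    have hall : ∀ Q ∈ σ.filter fun Q => ¬ R ≤ Q, Q ≤ M := by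
      intro Q hQ
      have hQσ := Finset.mem_filter.1 hQ
      rcases h.total hQσ.1 hMσ.1 with h1 | h1
      · exact h1
      · exact hmax hQ h1
    have hbg : bg R σ = M := by
      unfold bg
      refine le_antisymm (Finset.sup_le hall) ?_
      exact Finset.le_sup (f := id) hM
    rw [hbg]
    exact hMσ
  · left
    rw [Finset.not_nonempty_iff_eq_empty] at he
    unfold bg
    rw [he, Finset.sup_empty]

theorem sN_insert [DecidableEq (Subgroup A)] (T : Subgroup A) (σ : Finset (Subgroup A)) :
    sN (insert T σ) = Subgroup.normalizer (T : Set A) ⊓ sN σ := by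
  unfold sN
  rw [Finset.iInf_insert]

theorem mem_sN {x : A} {σ : Finset (Subgroup A)} :
    x ∈ sN σ ↔ ∀ Q ∈ σ, x ∈ Subgroup.normalizer (Q : Set A) := by
  unfold sN
  simp only [Subgroup.mem_iInf]

/-- the toggled subgroup is normalized -/
theorem norm_tg (R : Subgroup A) (σ : Finset (Subgroup A))
    (h : IsChain (· ≤ ·) (σ : Set (Subgroup A))) {x : A}
    (hx : x ∈ Subgroup.normalizer (R : Set A)) (hs : x ∈ sN σ) :
    x ∈ Subgroup.normalizer (tg R σ : Set A) := by
  have hb : x ∈ Subgroup.normalizer (bg R σ : Set A) := by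
    rcases bg_mem R σ h with h1 | h1
    · rw [h1]
      rw [Subgroup.mem_normalizer_iff]
      intro y
      rw [Subgroup.mem_bot, Subgroup.mem_bot]
      constructor
      · rintro rfl
        simp
      · intro hy
        have : y = x⁻¹ * (x * y * x⁻¹) * x := by group
        rw [this, hy]
        simp
    · exact mem_sN.1 hs _ h1.1
  rw [Subgroup.mem_normalizer_iff_map_conj_eq] at hx hb ⊢
  unfold tg
  rw [Subgroup.map_sup, hx, hb]

/-- inserting keeps the condition -/
theorem cond_insert [DecidableEq (Subgroup A)] (R : Subgroup A) (hR : IsPGroup p R)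
    (hR1 : R ≠ ⊥) (σ : Finset (Subgroup A)) (h : IsCh p σ ∧ R ≤ sN σ) :
    IsCh p (insert (tg R σ) σ) ∧ R ≤ sN (insert (tg R σ) σ) := by
  obtain ⟨⟨hc, hp⟩, hn⟩ := h
  have hb := bg_mem R σ hc
  refine ⟨⟨?_, ?_⟩, ?_⟩
  · rw [Finset.coe_insert]
    refine hc.insert ?_
    intro Q hQ _
    have hQσ : Q ∈ σ := hQ
    by_cases hRQ : R ≤ Q
    · left
      refine sup_le hRQ ?_
      rcases hb with h1 | h1
      · rw [h1]
        exact bot_le
      · rcases hc.total h1.1 hQσ with h2 | h2
        · exact h2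
        · exact absurd (hRQ.trans h2) h1.2
    · right
      refine le_trans ?_ (le_sup_right : bg R σ ≤ tg R σ)
      exact le_bg R Q σ hQσ hRQ
  · intro Q hQ
    rcases Finset.mem_insert.1 hQ with rfl | hQ
    · refine ⟨?_, ?_⟩
      · rcases hb with h1 | h1
        · unfold tg
          rw [h1, sup_bot_eq]
          exact hR
        · refine IsPGroup.to_sup_of_normal_right' hR (hp _ h1.1).1 ?_
          intro x hx
          exact mem_sN.1 (hn hx) _ h1.1
      · intro h2
        have h3 := le_tg R σ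
        rw [h2] at h3
        exact hR1 (le_bot_iff.1 h3)
    · exact hp Q hQ
  · rw [sN_insert]
    refine le_inf ?_ hn
    exact (le_tg R σ).trans Subgroup.le_normalizer

theorem cond_erase [DecidableEq (Subgroup A)] (R T : Subgroup A) (σ : Finset (Subgroup A))
    (h : IsCh p (insert T σ) ∧ R ≤ sN (insert T σ)) : IsCh p σ ∧ R ≤ sN σ := by
  obtain ⟨⟨hc, hp⟩, hn⟩ := h
  refine ⟨⟨?_, fun Q hQ => hp Q (Finset.mem_insert_of_mem hQ)⟩, ?_⟩
  · refine hc.mono ?_
    rw [Finset.coe_insert]
    exact Set.subset_insert _ _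
  · rw [sN_insert] at hn
    exact hn.trans inf_le_right

open Classical in
/-- the main cancellation -/
theorem cancel (R L : Subgroup A) (hR : IsPGroup p R) (hR1 : R ≠ ⊥)
    (hL : L ≤ Subgroup.normalizer (R : Set A)) (F : Subgroup A → ℤ) (σ : Finset (Subgroup A))
    (hT : tg R σ ∉ σ) :
    (if IsCh p σ ∧ R ≤ sN σ then (-1) ^ σ.card * F (L ⊓ sN σ) else 0) +
      (if IsCh p (insert (tg R σ) σ) ∧ R ≤ sN (insert (tg R σ) σ) then
        (-1) ^ (insert (tg R σ) σ).card * F (L ⊓ sN (insert (tg R σ) σ)) else 0) = 0 := by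
  by_cases h : IsCh p σ ∧ R ≤ sN σ
  · have h2 := cond_insert R hR hR1 σ h
    rw [if_pos h, if_pos h2, Finset.card_insert_of_notMem hT]
    have h3 : L ⊓ sN (insert (tg R σ) σ) = L ⊓ sN σ := by
      rw [sN_insert]
      refine le_antisymm (inf_le_inf_left L inf_le_right) ?_
      intro x hx
      obtain ⟨hx1, hx2⟩ := Subgroup.mem_inf.1 hx
      exact Subgroup.mem_inf.2 ⟨hx1, Subgroup.mem_inf.2 ⟨norm_tg R σ h.1.1 (hL hx1) hx2, hx2⟩⟩
    rw [h3]
    ring
  · have h2 : ¬ (IsCh p (insert (tg R σ) σ) ∧ R ≤ sN (insert (tg R σ) σ)) := fun h2 =>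
      h (cond_erase R _ σ h2)
    rw [if_neg h, if_neg h2, add_zero]

end TogAux

open Classical in
/-- Let `R` be a nontrivial p-subgroup and let `L` normalize `R`. The alternating sum of
`F (L ⊓ sN σ)` over all chains `σ` all of whose members are normalized by `R` vanishes.
Proof: if some member of `σ` does not contain `R`, let `P` be the largest such member and toggle
`P ⊔ R`; otherwise toggle `R`. -/
theorem toggle [Fact p.Prime] [Finite A] (R L : Subgroup A) (hR : IsPGroup p R) (hR1 : R ≠ ⊥)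
    (hL : L ≤ Subgroup.normalizer (R : Set A)) (F : Subgroup A → ℤ) :
    ∑ᶠ σ : Finset (Subgroup A), (if IsCh p σ ∧ R ≤ sN σ then (-1) ^ σ.card * F (L ⊓ sN σ) else 0)
      = 0 := by
  haveI : Fintype (Subgroup A) := Fintype.ofFinite _
  rw [finsum_eq_sum_of_fintype]
  refine Finset.sum_involution (fun σ _ => TogAux.inv R σ) ?_ ?_ (fun σ _ => Finset.mem_univ _) ?_
  · intro σ _
    by_cases hT : TogAux.tg R σ ∈ σ
    · have h1 : TogAux.inv R σ = σ.erase (TogAux.tg R σ) := if_pos hT
      have h2 := TogAux.tg_inv R σ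
      have h3 : TogAux.tg R (TogAux.inv R σ) ∉ TogAux.inv R σ := by
        rw [h2, h1]
        exact Finset.notMem_erase _ _
      have h4 := TogAux.cancel (p := p) R L hR hR1 hL F (TogAux.inv R σ) h3
      have h5 : insert (TogAux.tg R (TogAux.inv R σ)) (TogAux.inv R σ) = σ := by
        rw [h2, h1, Finset.insert_erase hT]
      rw [h5, add_comm] at h4
      exact h4
    · have h1 : TogAux.inv R σ = insert (TogAux.tg R σ) σ := if_neg hT
      have h4 := TogAux.cancel (p := p) R L hR hR1 hL F σ hT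
      rw [← h1] at h4
      exact h4
  · intro σ _ _
    exact TogAux.inv_ne R σ
  · intro σ _
    exact TogAux.inv_inv R σ

end Pool.Agent.Lib.P0c8ca5
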