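import Mathlib
import Pool.Agent.Lib.P0c8ca5V.Orb
import Pool.Agent.Lib.P0c8ca5V.Tog

/-! The Euler characteristics `fK`. -/

namespace Pool.Agent.Lib.P0c8ca5

variable {p : ℕ} {A : Type*} [Group A]

namespace FKmAux

open Classical in
theorem fK_eq (K : Subgroup A) :
    fK p K = ∑ᶠ σ : Finset (Subgroup A),
      if IsCh p σ ∧ K ≤ sN σ then (-1 : ℤ) ^ σ.card else 0 := by
  unfold fK chS
  refine finsum_congr fun σ => ?_
  by_cases h1 : IsCh p σ
  · by_cases h2 : K ≤ sN σ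
    · rw [if_pos h1, if_pos ⟨h1, h2⟩]
      show (-1 : ℤ) ^ σ.card * (if K ≤ sN σ then 1 else 0) = _
      rw [if_pos h2, mul_one]
    · rw [if_pos h1, if_neg (fun h => h2 h.2)]
      show (-1 : ℤ) ^ σ.card * (if K ≤ sN σ then 1 else 0) = _
      rw [if_neg h2, mul_zero]
  · rw [if_neg h1, if_neg (fun h => h1 h.1)]

/-- conjugation as a permutation of the subgroups -/
def cv (g : A) : Subgroup A ≃ Subgroup A where
  toFun := cg g
  invFun := cg g⁻¹
  left_inv Q := by rw [cg_cg, inv_mul_cancel, cg_one]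
  right_inv Q := by rw [cg_cg, mul_inv_cancel, cg_one]

/-- conjugation as a permutation of the finite sets of subgroups -/
def cs (g : A) : Finset (Subgroup A) ≃ Finset (Subgroup A) := (cv g).finsetCongr

theorem mem_cs {g : A} {σ : Finset (Subgroup A)} {Q : Subgroup A} :
    Q ∈ cs g σ ↔ cg g⁻¹ Q ∈ σ := by
  unfold cs
  rw [Equiv.finsetCongr_apply, Finset.mem_map_equiv]
  rfl

theorem cg_mem_cs {g : A} {σ : Finset (Subgroup A)} {Q : Subgroup A} (h : Q ∈ σ) :
    cg g Q ∈ cs g σ := by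
  rw [mem_cs, cg_cg, inv_mul_cancel, cg_one]
  exact h

theorem cs_one (σ : Finset (Subgroup A)) : cs 1 σ = σ := by
  ext Q
  rw [mem_cs, inv_one, cg_one]

theorem cs_mul (g h : A) (σ : Finset (Subgroup A)) : cs (g * h) σ = cs g (cs h σ) := by
  ext Q
  rw [mem_cs, mem_cs, mem_cs, cg_cg, mul_inv_rev]

theorem card_cs (g : A) (σ : Finset (Subgroup A)) : (cs g σ).card = σ.card := by
  unfold cs
  rw [Equiv.finsetCongr_apply, Finset.card_map]

theorem card_cg (g : A) (Q : Subgroup A) : Nat.card (cg g Q) = Nat.card Q :=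
  (Nat.card_congr (Q.equivMapOfInjective (MulAut.conj g).toMonoidHom
    (MulAut.conj g).injective).toEquiv).symm

theorem isPGroup_cg (g : A) {Q : Subgroup A} (h : IsPGroup p Q) : IsPGroup p (cg g Q) :=
  h.map _

theorem cg_bot (g : A) : cg g (⊥ : Subgroup A) = ⊥ := Subgroup.map_bot _

theorem cg_ne_bot (g : A) {Q : Subgroup A} (h : Q ≠ ⊥) : cg g Q ≠ ⊥ := by
  intro h1
  apply h
  have h2 := congrArg (cg g⁻¹) h1
  rw [cg_cg, inv_mul_cancel, cg_one, cg_bot] at h2
  exact h2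

theorem isCh_cs (g : A) {σ : Finset (Subgroup A)} (h : IsCh p σ) : IsCh p (cs g σ) := by
  obtain ⟨hc, hp⟩ := h
  refine ⟨?_, ?_⟩
  · intro Q hQ R hR hne
    have hQ' : cg g⁻¹ Q ∈ σ := mem_cs.1 hQ
    have hR' : cg g⁻¹ R ∈ σ := mem_cs.1 hR
    rcases hc.total hQ' hR' with h1 | h1
    · left
      have h2 := cg_le_cg (g := g) h1
      rwa [cg_cg, cg_cg, mul_inv_cancel, cg_one, cg_one] at h2
    · right
      have h2 := cg_le_cg (g := g) h1
      rwa [cg_cg, cg_cg, mul_inv_cancel, cg_one, cg_one] at h2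
  · intro Q hQ
    have hQ' : cg g⁻¹ Q ∈ σ := mem_cs.1 hQ
    have h1 := hp _ hQ'
    have h2 : cg g (cg g⁻¹ Q) = Q := by rw [cg_cg, mul_inv_cancel, cg_one]
    rw [← h2]
    exact ⟨isPGroup_cg g h1.1, cg_ne_bot g h1.2⟩

theorem isCh_cs_iff (g : A) (σ : Finset (Subgroup A)) : IsCh p (cs g σ) ↔ IsCh p σ := by
  constructor
  · intro h
    have h1 := isCh_cs g⁻¹ h
    rwa [← cs_mul, inv_mul_cancel, cs_one] at h1
  · exact isCh_cs g

theorem mem_sN {x : A} {σ : Finset (Subgroup A)} :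
    x ∈ sN σ ↔ ∀ Q ∈ σ, cg x Q = Q := by
  unfold sN
  simp only [Subgroup.mem_iInf, cg_eq_self_iff]

theorem sN_cs (g : A) (σ : Finset (Subgroup A)) : sN (cs g σ) = cg g (sN σ) := by
  ext x
  rw [mem_cg, mem_sN, mem_sN]
  constructor
  · intro h Q hQ
    have h1 := congrArg (cg g⁻¹) (h _ (cg_mem_cs (g := g) hQ))
    rw [cg_cg, cg_cg, cg_cg, inv_mul_cancel, cg_one] at h1
    exact h1
  · intro h Q hQ
    have h1 := congrArg (cg g) (h _ (mem_cs.1 hQ))
    rw [cg_cg, cg_cg, cg_cg, mul_inv_cancel, cg_one] at h1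
    have h2 : g * (g⁻¹ * x * g) * g⁻¹ = x := by group
    rw [h2] at h1
    exact h1

/-- a finite group acting on a chain fixes the members -/
theorem fix_of_chain [Finite A] {g : A} {σ : Finset (Subgroup A)} (h : IsCh p σ)
    (hg : cs g σ = σ) : g ∈ sN σ := by
  rw [mem_sN]
  intro Q hQ
  have h1 : cg g Q ∈ σ := by
    have := cg_mem_cs (g := g) hQ
    rwa [hg] at this
  rcases h.1.total h1 hQ with h2 | h2
  · exact Subgroup.eq_of_le_of_card_ge h2 (card_cg g Q).ge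
  · exact (Subgroup.eq_of_le_of_card_ge h2 (card_cg g Q).le).symm

open Classical in
theorem sum_subtype {X : Type*} (P : X → Prop) (f : X → ℤ) :
    ∑ᶠ x : {x : X // P x}, f x = ∑ᶠ x : X, if P x then f x else 0 := by
  rw [finsum_subtype_eq_finsum_cond (f := f) P]
  refine finsum_congr fun x => ?_
  rw [finsum_eq_if]

/-- the chains whose stabilizer contains `K` and is prime to `P` -/
def Y (p : ℕ) (K P : Subgroup A) : Type _ :=
  {σ : Finset (Subgroup A) // (IsCh p σ ∧ K ≤ sN σ) ∧ P ⊓ sN σ = ⊥}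

instance [Finite A] (K P : Subgroup A) : Finite (Y p K P) := by
  unfold Y
  infer_instance

theorem cent {K P : Subgroup A} (hP : P ≤ Subgroup.centralizer (K : Set A)) {g : A} (hg : g ∈ P)
    {k : A} (hk : k ∈ K) : g⁻¹ * k * g = k := by
  have h := Subgroup.mem_centralizer_iff.1 (hP hg) k hk
  rw [mul_assoc, h]
  group

theorem le_sN_cs {K P : Subgroup A} (hP : P ≤ Subgroup.centralizer (K : Set A)) {g : A}
    (hg : g ∈ P) {σ : Finset (Subgroup A)} (h : K ≤ sN σ) : K ≤ sN (cs g σ) := by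
  intro k hk
  rw [sN_cs, mem_cg, cent hP hg hk]
  exact h hk

theorem inf_sN_cs {P : Subgroup A} {g : A} (hg : g ∈ P) {σ : Finset (Subgroup A)}
    (h : P ⊓ sN σ = ⊥) : P ⊓ sN (cs g σ) = ⊥ := by
  rw [eq_bot_iff]
  intro x hx
  obtain ⟨h1, h2⟩ := Subgroup.mem_inf.1 hx
  rw [sN_cs, mem_cg] at h2
  have h3 : g⁻¹ * x * g ∈ P ⊓ sN σ :=
    Subgroup.mem_inf.2 ⟨P.mul_mem (P.mul_mem (P.inv_mem hg) h1) hg, h2⟩
  rw [h, Subgroup.mem_bot] at h3
  rw [Subgroup.mem_bot]
  have : x = g * (g⁻¹ * x * g) * g⁻¹ := by group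
  rw [this, h3]
  group

/-- the action of `P` on `Y` -/
@[reducible] def act {K P : Subgroup A} (hP : P ≤ Subgroup.centralizer (K : Set A)) :
    MulAction P (Y p K P) where
  smul g σ := ⟨cs (g : A) σ.1, ⟨isCh_cs _ σ.2.1.1, le_sN_cs hP g.2 σ.2.1.2⟩,
    inf_sN_cs g.2 σ.2.2⟩
  one_smul σ := Subtype.ext (by
    show cs ((1 : P) : A) σ.1 = σ.1
    rw [Subgroup.coe_one, cs_one])
  mul_smul g h σ := Subtype.ext (by
    show cs ((g * h : P) : A) σ.1 = cs (g : A) (cs (h : A) σ.1)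
    rw [Subgroup.coe_mul, cs_mul])

theorem card_dvd [Finite A] {K P : Subgroup A} (hP : P ≤ Subgroup.centralizer (K : Set A))
    [Fintype (Y p K P)] :
    (Nat.card P : ℤ) ∣ ∑ σ : Y p K P, (-1 : ℤ) ^ σ.1.card := by
  let _ := act (p := p) hP
  have h := orb_dvd (T := P) (X := Y p K P) (fun σ => (-1 : ℤ) ^ σ.1.card) ?_ 1 ?_
  · rwa [one_mul] at h
  · intro g σ
    show (-1 : ℤ) ^ (cs (g : A) σ.1).card = _
    rw [card_cs]
  · intro σ
    have h1 : MulAction.stabilizer P σ = ⊥ := by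
      rw [eq_bot_iff]
      intro g hg
      rw [MulAction.mem_stabilizer_iff] at hg
      have h2 : cs (g : A) σ.1 = σ.1 := congrArg Subtype.val hg
      have h3 : (g : A) ∈ P ⊓ sN σ.1 :=
        Subgroup.mem_inf.2 ⟨g.2, fix_of_chain σ.2.1.1 h2⟩
      rw [σ.2.2, Subgroup.mem_bot] at h3
      rw [Subgroup.mem_bot]
      exact Subtype.ext h3
    rw [h1, Subgroup.card_bot]
    simp

end FKmAux

/-- `fK p K = 0` if `K` has a nontrivial normal p-subgroup (`toggle` with `L = K`). -/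
theorem fK_zero [Fact p.Prime] [Finite A] {K R : Subgroup A} (hRK : R ≤ K)
    (hK : K ≤ Subgroup.normalizer (R : Set A)) (hR : IsPGroup p R) (hR1 : R ≠ ⊥) :
    fK p K = 0 := by
  classical
  rw [FKmAux.fK_eq]
  refine Eq.trans (finsum_congr fun σ => ?_)
    (toggle (p := p) R K hR hR1 hK (fun U => if K ≤ U then 1 else 0))
  by_cases h1 : IsCh p σ ∧ K ≤ sN σ
  · have h2 : IsCh p σ ∧ R ≤ sN σ := ⟨h1.1, hRK.trans h1.2⟩
    have h3 : K ≤ K ⊓ sN σ := le_inf le_rfl h1.2
    rw [if_pos h1, if_pos h2, if_pos h3, mul_one]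
  · rw [if_neg h1]
    symm
    split_ifs with h2 h3
    · exact absurd ⟨h2.1, h3.trans inf_le_right⟩ h1
    · rw [mul_zero]
    · rfl

/-- `fK p K = 1` if `K` normalizes no nontrivial p-subgroup of `A`. -/
theorem fK_one [Fact p.Prime] [Finite A] {K : Subgroup A}
    (h : ∀ R : Subgroup A, IsPGroup p R → K ≤ Subgroup.normalizer (R : Set A) → R = ⊥) :
    fK p K = 1 := by
  classical
  rw [FKmAux.fK_eq, finsum_eq_single _ ∅]
  · rw [if_pos, Finset.card_empty, pow_zero]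
    refine ⟨⟨?_, ?_⟩, ?_⟩
    · rw [Finset.coe_empty]
      exact Set.pairwise_empty _
    · intro Q hQ
      exact absurd hQ (Finset.notMem_empty Q)
    · intro x _
      rw [FKmAux.mem_sN]
      intro Q hQ
      exact absurd hQ (Finset.notMem_empty Q)
  · intro σ hσ
    rw [if_neg]
    rintro ⟨h1, h2⟩
    obtain ⟨Q, hQ⟩ := Finset.nonempty_iff_ne_empty.2 hσ
    refine (h1.2 Q hQ).2 (h Q (h1.2 Q hQ).1 ?_)
    intro x hx
    rw [← cg_eq_self_iff]
    exact FKmAux.mem_sN.1 (h2 hx) Q hQ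

theorem fK_conj [Finite A] (g : A) (K : Subgroup A) : fK p (cg g K) = fK p K := by
  classical
  rw [FKmAux.fK_eq, FKmAux.fK_eq, ← finsum_comp_equiv (FKmAux.cs g)]
  refine finsum_congr fun σ => ?_
  rw [FKmAux.card_cs, FKmAux.isCh_cs_iff, FKmAux.sN_cs]
  have h : cg g K ≤ cg g (sN σ) ↔ K ≤ sN σ := by
    constructor
    · intro h
      have h1 := cg_le_cg (g := g⁻¹) h
      rwa [cg_cg, cg_cg, inv_mul_cancel, cg_one, cg_one] at h1
    · exact cg_le_cg
  rw [h]

/-- Brown: the p-part of the order of the centralizer of `K` divides `fK p K`. Proof: let `P` be a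
Sylow p-subgroup of the centralizer; by `exact_zero` (with `s σ = P ⊓ sN σ`, on the chains
normalized by `K`, and `fK_zero` for `K ⊔ U`, `1 ≠ U ≤ P`) only the chains with `P ⊓ sN σ = 1`
count, on which `P` acts freely. -/
theorem cent_dvd_fK [Fact p.Prime] [Finite A] (K : Subgroup A) :
    ((ordProj[p] (Nat.card ↥(Subgroup.centralizer (K : Set A))) : ℕ) : ℤ) ∣ fK p K := by
  classical
  obtain ⟨P0⟩ : Nonempty (Sylow p ↥(Subgroup.centralizer (K : Set A))) := inferInstance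
  set P : Subgroup A := (P0 : Subgroup ↥(Subgroup.centralizer (K : Set A))).map
    (Subgroup.centralizer (K : Set A)).subtype with hPdef
  have hPC : P ≤ Subgroup.centralizer (K : Set A) := Subgroup.map_subtype_le _
  have hPp : IsPGroup p P := P0.isPGroup'.map _
  have hcard : Nat.card P = ordProj[p] (Nat.card ↥(Subgroup.centralizer (K : Set A))) := by
    rw [← P0.card_eq_multiplicity]
    exact (Nat.card_congr (Subgroup.equivMapOfInjective
      (P0 : Subgroup ↥(Subgroup.centralizer (K : Set A))) _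
      (Subgroup.subtype_injective _)).toEquiv).symm
  rw [← hcard]
  have : Fintype (Subgroup A) := Fintype.ofFinite _
  have : Fintype (FKmAux.Y p K P) := Fintype.ofFinite _
  have : Fintype {σ : Finset (Subgroup A) // IsCh p σ ∧ K ≤ sN σ} := Fintype.ofFinite _
  have h1 := FKmAux.card_dvd (p := p) (K := K) (P := P) hPC
  have hU : ∀ U : Subgroup A, U ≠ ⊥ → U ≤ P → fK p (K ⊔ U) = 0 := by
    intro U hU hUP
    refine fK_zero (R := U) le_sup_right ?_ (hPp.to_le hUP) hU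
    refine sup_le ?_ Subgroup.le_normalizer
    intro k hk
    rw [Subgroup.mem_normalizer_iff]
    intro u
    constructor
    · intro hu
      have h2 := FKmAux.cent hPC (hUP hu) hk
      have h3 : k * u * k⁻¹ = u := by
        have : k * u = u * k := by
          calc k * u = u * (u⁻¹ * k * u) := by group
            _ = u * k := by rw [h2]
        rw [this]
        group
      rw [h3]
      exact hu
    · intro hu
      have h2 := FKmAux.cent hPC (hUP hu) hk
      have h3 : u = k * u * k⁻¹ := by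
        have h4 : k⁻¹ * (k * u * k⁻¹) * k = k * u * k⁻¹ := by
          have h5 : k * (k * u * k⁻¹) = (k * u * k⁻¹) * k := by
            calc k * (k * u * k⁻¹) = (k * u * k⁻¹) * ((k * u * k⁻¹)⁻¹ * k * (k * u * k⁻¹)) := by
                  group
              _ = (k * u * k⁻¹) * k := by rw [h2]
          calc k⁻¹ * (k * u * k⁻¹) * k = k⁻¹ * ((k * u * k⁻¹) * k) := by group
            _ = k⁻¹ * (k * (k * u * k⁻¹)) := by rw [h5]
            _ = k * u * k⁻¹ := by group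
        calc u = k⁻¹ * (k * u * k⁻¹) * k := by group
          _ = k * u * k⁻¹ := h4
      rw [h3]
      exact hu
  have hz := exact_zero (A := A) (X := {σ : Finset (Subgroup A) // IsCh p σ ∧ K ≤ sN σ}) P
    (fun x => P ⊓ sN x.1) (fun x => inf_le_left) (fun x => (-1 : ℤ) ^ x.1.card)
    (fun U => U ≠ ⊥) (fun U U' h2 h3 _ h4 => h2 (le_bot_iff.1 (h4 ▸ h3))) ?_
  · have h2 : fK p K = ∑ x : {σ : Finset (Subgroup A) // IsCh p σ ∧ K ≤ sN σ},
        (-1 : ℤ) ^ x.1.card := by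
      have h6 := FKmAux.sum_subtype (fun σ : Finset (Subgroup A) => IsCh p σ ∧ K ≤ sN σ)
        (fun σ => (-1 : ℤ) ^ σ.card)
      rw [finsum_eq_sum_of_fintype] at h6
      rw [FKmAux.fK_eq]
      refine Eq.trans (finsum_congr fun σ => ?_) h6.symm
      by_cases h7 : IsCh p σ ∧ K ≤ sN σ
      · rw [if_pos h7, if_pos h7]
      · rw [if_neg h7, if_neg h7]
    have h3 : ∑ x : {σ : Finset (Subgroup A) // IsCh p σ ∧ K ≤ sN σ}, (-1 : ℤ) ^ x.1.card
        = ∑ U : Subgroup A, ∑ᶠ x : {x : {σ : Finset (Subgroup A) // IsCh p σ ∧ K ≤ sN σ} //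
            P ⊓ sN x.1 = U}, (-1 : ℤ) ^ x.1.1.card := by
      rw [← Finset.sum_fiberwise (Finset.univ) (fun x => P ⊓ sN x.1)
        (fun x : {σ : Finset (Subgroup A) // IsCh p σ ∧ K ≤ sN σ} => (-1 : ℤ) ^ x.1.card)]
      refine Finset.sum_congr rfl fun U _ => ?_
      rw [FKmAux.sum_subtype (fun x : {σ : Finset (Subgroup A) // IsCh p σ ∧ K ≤ sN σ} =>
        P ⊓ sN x.1 = U) (fun x => (-1 : ℤ) ^ x.1.card), finsum_eq_sum_of_fintype,
        Finset.sum_filter]
    have h4 : ∀ U : Subgroup A, U ≠ ⊥ →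
        ∑ᶠ x : {x : {σ : Finset (Subgroup A) // IsCh p σ ∧ K ≤ sN σ} //
            P ⊓ sN x.1 = U}, (-1 : ℤ) ^ x.1.1.card = 0 := by
      intro U hU1
      by_cases hUP : U ≤ P
      · exact hz U hU1 hUP
      · have : IsEmpty {x : {σ : Finset (Subgroup A) // IsCh p σ ∧ K ≤ sN σ} //
            P ⊓ sN x.1 = U} := ⟨fun x => hUP (by rw [← x.2]; exact inf_le_left)⟩
        exact finsum_of_isEmpty _
    have h5 : ∑ᶠ x : {x : {σ : Finset (Subgroup A) // IsCh p σ ∧ K ≤ sN σ} //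
            P ⊓ sN x.1 = ⊥}, (-1 : ℤ) ^ x.1.1.card = ∑ σ : FKmAux.Y p K P, (-1 : ℤ) ^ σ.1.card := by
      rw [← finsum_eq_sum_of_fintype]
      let e : {x : {σ : Finset (Subgroup A) // IsCh p σ ∧ K ≤ sN σ} // P ⊓ sN x.1 = ⊥} ≃
          FKmAux.Y p K P :=
        { toFun := fun x => ⟨x.1.1, x.1.2, x.2⟩
          invFun := fun x => ⟨⟨x.1, x.2.1⟩, x.2.2⟩
          left_inv := fun x => rfl
          right_inv := fun x => rfl }
      rw [← finsum_comp_equiv e]
      rfl
    rw [h2, h3, Finset.sum_eq_single (⊥ : Subgroup A) (fun U _ hU1 => h4 U hU1)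
      (fun h => absurd (Finset.mem_univ _) h), h5]
    exact h1
  · intro U hU1 hUP
    rw [← hU U hU1 hUP, FKmAux.fK_eq,
      FKmAux.sum_subtype (fun x : {σ : Finset (Subgroup A) // IsCh p σ ∧ K ≤ sN σ} =>
        U ≤ P ⊓ sN x.1) (fun x => (-1 : ℤ) ^ x.1.card)]
    have h6 := FKmAux.sum_subtype (fun σ : Finset (Subgroup A) => IsCh p σ ∧ K ≤ sN σ)
      (fun σ => if U ≤ P ⊓ sN σ then (-1 : ℤ) ^ σ.card else 0)
    refine h6.trans (finsum_congr fun σ => ?_)
    by_cases h7 : IsCh p σ ∧ K ≤ sN σ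
    · rw [if_pos h7]
      by_cases h8 : U ≤ sN σ
      · rw [if_pos (le_inf hUP h8), if_pos ⟨h7.1, sup_le h7.2 h8⟩]
      · rw [if_neg (fun h => h8 (h.trans inf_le_right)),
          if_neg (fun h => h8 (le_sup_right.trans h.2))]
    · rw [if_neg h7, if_neg (fun h => h7 ⟨h.1, le_sup_left.trans h.2⟩)]

end Pool.Agent.Lib.P0c8ca5
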