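import Mathlib
import Pool.Agent.Lib.P0c8ca5V.FKm
import Pool.Agent.Lib.P0c8ca5V.Opm

/-! The sum over the triples in `T` generating a subgroup containing `H = O^p(T)`. -/

namespace Pool.Agent.Lib.P0c8ca5

variable {p : ℕ} {A : Type*} [Group A]

namespace DAAux

theorem cg_inf (g : A) (P Q : Subgroup A) : cg g (P ⊓ Q) = cg g P ⊓ cg g Q := by
  ext x; simp only [mem_cg, Subgroup.mem_inf]

theorem cg_mem_self {g : A} {P : Subgroup A} (hg : g ∈ P) : cg g P = P :=
  cg_eq_self_iff.2 (Subgroup.le_normalizer hg)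

theorem cg_inv_cg (g : A) (P : Subgroup A) : cg g⁻¹ (cg g P) = P := by
  rw [cg_cg, inv_mul_cancel, cg_one]

theorem cg_cg_inv (g : A) (P : Subgroup A) : cg g (cg g⁻¹ P) = P := by
  rw [cg_cg, mul_inv_cancel, cg_one]

theorem cg_le_cg_iff {g : A} {P Q : Subgroup A} : cg g P ≤ cg g Q ↔ P ≤ Q := by
  rw [cg_le_iff, cg_inv_cg]

theorem cg_injective (g : A) : Function.Injective (cg g) := fun P Q h => by
  have := congrArg (cg g⁻¹) h
  rwa [cg_inv_cg, cg_inv_cg] at this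

theorem cg_normalizer (g : A) (Q : Subgroup A) :
    Subgroup.normalizer (cg g Q : Set A) = cg g (Subgroup.normalizer (Q : Set A)) := by
  ext x
  rw [mem_cg, ← cg_eq_self_iff, ← cg_eq_self_iff, cg_cg]
  constructor
  · intro h
    have := congrArg (cg g⁻¹) h
    rw [cg_cg, cg_inv_cg] at this
    rw [← mul_assoc] at this
    exact this
  · intro h
    have := congrArg (cg g) h
    rw [cg_cg] at this
    have e : g * (g⁻¹ * x * g) = x * g := by group
    rwa [e] at this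

open Classical in
/-- the conjugate of a finite set of subgroups -/
noncomputable def cgF (g : A) (σ : Finset (Subgroup A)) : Finset (Subgroup A) := σ.image (cg g)

open Classical in
theorem mem_cgF {g : A} {σ : Finset (Subgroup A)} {Q : Subgroup A} :
    Q ∈ cgF g σ ↔ cg g⁻¹ Q ∈ σ := by
  unfold cgF
  rw [Finset.mem_image]
  constructor
  · rintro ⟨P, hP, rfl⟩
    rwa [cg_inv_cg]
  · intro h
    exact ⟨_, h, cg_cg_inv g Q⟩

theorem cgF_one (σ : Finset (Subgroup A)) : cgF 1 σ = σ := by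
  ext Q; rw [mem_cgF, inv_one, cg_one]

theorem cgF_mul (g h : A) (σ : Finset (Subgroup A)) : cgF (g * h) σ = cgF g (cgF h σ) := by
  ext Q; rw [mem_cgF, mem_cgF, mem_cgF, cg_cg, mul_inv_rev]

open Classical in
theorem card_cgF (g : A) (σ : Finset (Subgroup A)) : (cgF g σ).card = σ.card :=
  Finset.card_image_of_injective _ (cg_injective g)

theorem mem_sN {σ : Finset (Subgroup A)} {x : A} :
    x ∈ sN σ ↔ ∀ Q ∈ σ, x ∈ Subgroup.normalizer (Q : Set A) := by
  simp only [sN, Subgroup.mem_iInf]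

theorem sN_cgF (g : A) (σ : Finset (Subgroup A)) : sN (cgF g σ) = cg g (sN σ) := by
  ext x
  rw [mem_cg, mem_sN, mem_sN]
  constructor
  · intro h Q hQ
    have h1 := h (cg g Q) (mem_cgF.2 (by rwa [cg_inv_cg]))
    rwa [cg_normalizer, mem_cg] at h1
  · intro h Q hQ
    have h1 := h _ (mem_cgF.1 hQ)
    rw [← mem_cg, ← cg_normalizer, cg_cg_inv] at h1
    exact h1

theorem isCh_cgF_mp {g : A} {σ : Finset (Subgroup A)} (h : IsCh p σ) : IsCh p (cgF g σ) := by
  refine ⟨?_, ?_⟩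
  · intro P hP Q hQ hne
    rw [Finset.mem_coe, mem_cgF] at hP hQ
    have hne' : cg g⁻¹ P ≠ cg g⁻¹ Q := fun e => hne (cg_injective _ e)
    rcases h.1 hP hQ hne' with h1 | h1
    · exact Or.inl (cg_le_cg_iff.1 h1)
    · exact Or.inr (cg_le_cg_iff.1 h1)
  · intro Q hQ
    obtain ⟨h1, h2⟩ := h.2 _ (mem_cgF.1 hQ)
    refine ⟨?_, ?_⟩
    · have := isPGroup_cg (g := g) h1
      rwa [cg_cg_inv] at this
    · rintro rfl
      apply h2
      rw [eq_bot_iff]
      intro x hx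
      rw [mem_cg, Subgroup.mem_bot] at hx
      rw [Subgroup.mem_bot]
      rw [inv_inv] at hx
      have : x = g⁻¹ * (g * x * g⁻¹) * g := by group
      rw [this, hx]; group

theorem isCh_cgF {g : A} {σ : Finset (Subgroup A)} : IsCh p (cgF g σ) ↔ IsCh p σ := by
  refine ⟨fun h => ?_, isCh_cgF_mp⟩
  have := isCh_cgF_mp (g := g⁻¹) h
  rwa [← cgF_mul, inv_mul_cancel, cgF_one] at this

theorem noP_cg_mp {g : A} {U : Subgroup A} (h : NoP p U) : NoP p (cg g U) := by
  intro R hR hn hp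
  have h1 := h (cg g⁻¹ R) (by rw [cg_le_iff, inv_inv]; exact hR)
    (by rw [cg_normalizer, ← cg_le_iff]; exact hn) (isPGroup_cg hp)
  have h2 := congrArg (cg g) h1
  rw [cg_cg_inv] at h2
  rw [h2, eq_bot_iff]
  intro x hx
  rw [mem_cg, Subgroup.mem_bot] at hx
  rw [Subgroup.mem_bot]
  have : x = g * (g⁻¹ * x * g) * g⁻¹ := by group
  rw [this, hx]; group

theorem noP_cg {g : A} {U : Subgroup A} : NoP p (cg g U) ↔ NoP p U := by
  refine ⟨fun h => ?_, noP_cg_mp⟩
  have := noP_cg_mp (g := g⁻¹) h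
  rwa [cg_inv_cg] at this

/-- conjugation of triples -/
def cT (g : A) : A × A × A ≃ A × A × A where
  toFun t := (g * t.1 * g⁻¹, g * t.2.1 * g⁻¹, g * t.2.2 * g⁻¹)
  invFun t := (g⁻¹ * t.1 * g, g⁻¹ * t.2.1 * g, g⁻¹ * t.2.2 * g)
  left_inv t := by ext <;> simp [mul_assoc]
  right_inv t := by ext <;> simp [mul_assoc]

theorem gen_le {t : A × A × A} {U : Subgroup A} :
    gen t ≤ U ↔ t.1 ∈ U ∧ t.2.1 ∈ U ∧ t.2.2 ∈ U := by
  unfold gen
  rw [Subgroup.closure_le]
  constructor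
  · intro h
    exact ⟨h (by simp), h (by simp), h (by simp)⟩
  · rintro ⟨h1, h2, h3⟩ x hx
    rcases hx with rfl | rfl | rfl
    exacts [h1, h2, h3]

theorem gen_cT_le (g : A) (t : A × A × A) : gen (cT g t) ≤ cg g (gen t) := by
  have h := gen_le.1 (le_refl (gen t))
  rw [gen_le]
  refine ⟨?_, ?_, ?_⟩
  · rw [mem_cg]
    have : g⁻¹ * (cT g t).1 * g = t.1 := by simp [cT, mul_assoc]
    rw [this]; exact h.1
  · rw [mem_cg]
    have : g⁻¹ * (cT g t).2.1 * g = t.2.1 := by simp [cT, mul_assoc]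
    rw [this]; exact h.2.1
  · rw [mem_cg]
    have : g⁻¹ * (cT g t).2.2 * g = t.2.2 := by simp [cT, mul_assoc]
    rw [this]; exact h.2.2

theorem gen_cT (g : A) (t : A × A × A) : gen (cT g t) = cg g (gen t) := by
  apply le_antisymm (gen_cT_le g t)
  rw [cg_le_iff]
  have h := gen_cT_le g⁻¹ (cT g t)
  have e : cT g⁻¹ (cT g t) = t := by
    ext <;> simp [cT, mul_assoc]
  rwa [e] at h

theorem pel_conj {g x : A} : Pel p (g * x * g⁻¹) ↔ Pel p x := by
  unfold Pel
  refine exists_congr (fun n => ?_)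
  rw [conj_pow, conj_eq_one_iff]

theorem dW_cT {m : A → ℤ} (hm : IsWt p ⊤ m) (g : A) (t : A × A × A) :
    dW p m (cT g t) = dW p m t := by
  have e : cmt (cT g t).1 (cT g t).2.1 * (cT g t).2.2 = g * (cmt t.1 t.2.1 * t.2.2) * g⁻¹ := by
    simp [cT, cmt, mul_assoc]
  have e2 : m (cT g t).2.2 = m t.2.2 := hm.conj g (Subgroup.mem_top g) _
  have e4 : g * (cmt t.1 t.2.1 * t.2.2) * g⁻¹ ≠ 1 ↔ cmt t.1 t.2.1 * t.2.2 ≠ 1 :=
    not_congr conj_eq_one_iff
  unfold dW
  rw [e, e2, pel_conj]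
  by_cases c1 : Pel p (cmt t.1 t.2.1 * t.2.2)
  · by_cases c2 : cmt t.1 t.2.1 * t.2.2 ≠ 1
    · rw [if_pos ⟨c1, e4.2 c2⟩, if_pos ⟨c1, c2⟩]
    · rw [if_neg (fun h => c2 (e4.1 h.2)), if_neg (fun h => c2 h.2)]
  · rw [if_neg (fun h => c1 h.1), if_neg (fun h => c1 h.1)]

theorem bB_cg {m : A → ℤ} (hm : IsWt p ⊤ m) (g : A) (U : Subgroup A) :
    bB p (cg g U) m = bB p U m := by
  unfold bB
  rw [← finsum_comp_equiv (cT g)]
  apply finsum_congr
  intro t
  rw [gen_cT, Opr_cg, cg_le_cg_iff, cg_le_cg_iff, dW_cT hm]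

theorem stab_iff [Finite A] {σ : Finset (Subgroup A)} (h : IsCh p σ) {t : A} :
    cgF t σ = σ ↔ t ∈ sN σ := by
  constructor
  · intro e
    rw [mem_sN]
    intro Q hQ
    rw [← cg_eq_self_iff]
    have h1 : cg t Q ∈ σ := by
      rw [← e, mem_cgF, cg_inv_cg]; exact hQ
    by_contra hne
    rcases h.1 h1 hQ hne with h2 | h2
    · exact hne (Subgroup.eq_of_le_of_card_ge h2 (card_cg t Q).ge)
    · exact hne (Subgroup.eq_of_le_of_card_ge h2 (card_cg t Q).le).symm
  · intro ht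
    rw [mem_sN] at ht
    ext Q
    rw [mem_cgF]
    constructor
    · intro hQ
      have h1 := cg_eq_self_iff.2 (ht _ hQ)
      rw [cg_cg_inv] at h1
      rw [h1]; exact hQ
    · intro hQ
      have h1 := cg_eq_self_iff.2 (ht _ hQ)
      have h2 := congrArg (cg t⁻¹) h1
      rw [cg_inv_cg] at h2
      rw [← h2]; exact hQ

/-- the action of `T` on the finite sets of subgroups -/
noncomputable def actT (T : Subgroup A) : MulAction T (Finset (Subgroup A)) where
  smul t σ := cgF (t : A) σ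
  one_smul σ := cgF_one σ
  mul_smul g h σ := cgF_mul (g : A) h σ

theorem card_stab [Finite A] {T : Subgroup A} {σ : Finset (Subgroup A)} (h : IsCh p σ) :
    Nat.card (@MulAction.stabilizer T (Finset (Subgroup A)) _ (actT T) σ) =
      Nat.card ↥(T ⊓ sN σ) := by
  letI := actT T
  have e : MulAction.stabilizer T σ = (T ⊓ sN σ).subgroupOf T := by
    ext t
    rw [MulAction.mem_stabilizer_iff, Subgroup.mem_subgroupOf, Subgroup.mem_inf]
    change cgF (t : A) σ = σ ↔ _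
    rw [stab_iff h]
    exact ⟨fun h => ⟨t.2, h⟩, fun h => h.2⟩
  rw [e]
  exact Nat.card_congr (Subgroup.subgroupOfEquivOfLe inf_le_left).toEquiv

open Classical in
theorem finsum_sub {X : Type*} (P : X → Prop) (f : X → ℤ) :
    ∑ᶠ x : {x // P x}, f x = ∑ᶠ x, if P x then f x else 0 := by
  rw [finsum_subtype_eq_finsum_cond]
  apply finsum_congr
  intro x
  rw [finsum_eq_if]

end DAAux

open DAAux

open Classical in
/-- Suppose that `p |U|_p` divides `bB p U m` for all `U ≤ T` with `O^p(U) = O^p(T)` and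
`O_p(U) = 1`. Then `p |T|_p` divides the sum of `dW * fK` over the triples in `T` generating a group
containing `O^p(T)`. Proof: expand `fK`; for a chain `σ` with `O^p(T) ≤ sN σ` the sum over the
triples in `T ⊓ sN σ` is `bB p (T ⊓ sN σ) m`; by `exact_zero` and `fK_zero` the chains with
`O_p(T ⊓ sN σ) ≠ 1` contribute zero (`NoP_up`); the others by `orb_dvd_p`. -/
theorem sum_T [Fact p.Prime] [Finite A] {T : Subgroup A} {m : A → ℤ} (hm : IsWt p ⊤ m)
    (h : ∀ U : Subgroup A, U ≤ T → Opr p U = Opr p T → NoP p U →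
      (p : ℤ) * (ordProj[p] (Nat.card U) : ℕ) ∣ bB p U m) :
    (p : ℤ) * (ordProj[p] (Nat.card T) : ℕ) ∣
      ∑ᶠ t : A × A × A, (if gen t ≤ T ∧ Opr p T ≤ gen t then dW p m t * fK p (gen t) else 0) := by
  haveI : Fintype A := Fintype.ofFinite A
  haveI : Fintype (Subgroup A) := Fintype.ofFinite _
  -- the sum over the chains
  have key : ∑ᶠ t : A × A × A,
      (if gen t ≤ T ∧ Opr p T ≤ gen t then dW p m t * fK p (gen t) else 0) =
      ∑ σ : Finset (Subgroup A), (if IsCh p σ ∧ Opr p T ≤ sN σ then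
        (-1) ^ σ.card * bB p (T ⊓ sN σ) m else 0) := by
    rw [finsum_eq_sum_of_fintype]
    have e1 : ∀ t : A × A × A,
        (if gen t ≤ T ∧ Opr p T ≤ gen t then dW p m t * fK p (gen t) else 0) =
        ∑ σ : Finset (Subgroup A), (if gen t ≤ T ∧ Opr p T ≤ gen t then
          dW p m t * (if IsCh p σ then (-1) ^ σ.card * (if gen t ≤ sN σ then 1 else 0) else 0)
          else 0) := by
      intro t
      split_ifs with ht
      · rw [← Finset.mul_sum, fK, chS, finsum_eq_sum_of_fintype]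
      · rw [Finset.sum_const_zero]
    rw [Finset.sum_congr rfl (fun t _ => e1 t), Finset.sum_comm]
    apply Finset.sum_congr rfl
    intro σ _
    split_ifs with hσ1 hσ2 hσ2
    · obtain ⟨_, hσ2⟩ := hσ2
      have hU : Opr p T ≤ T ⊓ sN σ := le_inf (Opr_le T) hσ2
      have hO : Opr p (T ⊓ sN σ) = Opr p T := Opr_eq_of_le hU inf_le_left
      rw [bB, finsum_eq_sum_of_fintype, Finset.mul_sum]
      apply Finset.sum_congr rfl
      intro t _
      rw [hO, le_inf_iff]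
      by_cases c1 : gen t ≤ T <;> by_cases c2 : Opr p T ≤ gen t <;> by_cases c3 : gen t ≤ sN σ <;>
        simp [c1, c2, c3, mul_comm]
    · apply Finset.sum_eq_zero
      intro t _
      split_ifs with c1 c2
      · exact absurd ⟨hσ1, c1.2.trans c2⟩ hσ2
      · simp
      · rfl
    · exact absurd hσ2.1 hσ1
    · simp
  rw [key]
  -- the chains with a normal p-subgroup cancel
  have hz : ∀ U : Subgroup A, (Opr p T ≤ U ∧ ¬ NoP p U) → U ≤ T →
      ∑ᶠ x : {x : {σ : Finset (Subgroup A) // IsCh p σ ∧ Opr p T ≤ sN σ} // T ⊓ sN x.1 = U},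
        ((-1 : ℤ)) ^ x.1.1.card = 0 := by
    intro U hU hUT
    refine exact_zero (X := {σ : Finset (Subgroup A) // IsCh p σ ∧ Opr p T ≤ sN σ}) T
      (fun x => T ⊓ sN x.1) (fun x => inf_le_left) (fun x => (-1) ^ x.1.card)
      (fun U => Opr p T ≤ U ∧ ¬ NoP p U) ?_ ?_ U hU hUT
    · rintro U U' ⟨h1, h2⟩ h3 h4
      refine ⟨h1.trans h3, fun h5 => h2 ?_⟩
      refine NoP_up h3 ?_ h5
      rw [Opr_eq_of_le h1 (h3.trans h4), Opr_eq_of_le (h1.trans h3) h4]
    · rintro U ⟨h1, h2⟩ h3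
      have h4 : fK p U = 0 := by
        unfold NoP at h2
        push Not at h2
        obtain ⟨R, hR1, hR2, hR3, hR4⟩ := h2
        exact fK_zero hR1 hR2 hR3 hR4
      rw [← h4, fK, chS]
      rw [finsum_sub (fun x : {σ : Finset (Subgroup A) // IsCh p σ ∧ Opr p T ≤ sN σ} =>
        U ≤ T ⊓ sN x.1) (fun x => (-1) ^ x.1.card)]
      rw [finsum_sub (fun σ : Finset (Subgroup A) => IsCh p σ ∧ Opr p T ≤ sN σ)
        (fun σ => if U ≤ T ⊓ sN σ then (-1) ^ σ.card else 0)]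
      apply finsum_congr
      intro σ
      by_cases c1 : IsCh p σ <;> by_cases c2 : U ≤ sN σ
      · have c3 : Opr p T ≤ sN σ := h1.trans c2
        have c4 : U ≤ T ⊓ sN σ := le_inf h3 c2
        simp [c1, c2, c3, c4]
      · have c4 : ¬ U ≤ T ⊓ sN σ := fun c => c2 (c.trans inf_le_right)
        simp [c1, c2, c4]
      · simp [c1]
      · simp [c1]
  have hz' : ∑ σ : Finset (Subgroup A), (if (IsCh p σ ∧ Opr p T ≤ sN σ) ∧ ¬ NoP p (T ⊓ sN σ) then
        (-1) ^ σ.card * bB p (T ⊓ sN σ) m else 0) = 0 := by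
    have e2 : ∑ σ : Finset (Subgroup A), (if (IsCh p σ ∧ Opr p T ≤ sN σ) ∧ ¬ NoP p (T ⊓ sN σ) then
        (-1) ^ σ.card * bB p (T ⊓ sN σ) m else 0) =
        ∑ x : {σ : Finset (Subgroup A) // IsCh p σ ∧ Opr p T ≤ sN σ},
          (if ¬ NoP p (T ⊓ sN x.1) then (-1) ^ x.1.card * bB p (T ⊓ sN x.1) m else 0) := by
      rw [← finsum_eq_sum_of_fintype, ← finsum_eq_sum_of_fintype,
        finsum_sub (fun σ : Finset (Subgroup A) => IsCh p σ ∧ Opr p T ≤ sN σ)
        (fun σ => if ¬ NoP p (T ⊓ sN σ) then (-1) ^ σ.card * bB p (T ⊓ sN σ) m else 0)]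
      apply finsum_congr
      intro σ
      by_cases c1 : IsCh p σ ∧ Opr p T ≤ sN σ
      · by_cases c2 : NoP p (T ⊓ sN σ)
        · rw [if_neg (fun h => h.2 c2), if_pos c1, if_neg (fun h => h c2)]
        · rw [if_pos ⟨c1, c2⟩, if_pos c1, if_pos c2]
      · rw [if_neg (fun h => c1 h.1), if_neg c1]
    rw [e2, ← Finset.sum_fiberwise (s := Finset.univ)
      (g := fun x : {σ : Finset (Subgroup A) // IsCh p σ ∧ Opr p T ≤ sN σ} => T ⊓ sN x.1)]
    apply Finset.sum_eq_zero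
    intro U _
    by_cases hU : (Opr p T ≤ U ∧ ¬ NoP p U) ∧ U ≤ T
    · have h1 := hz U hU.1 hU.2
      rw [finsum_sub (fun x : {σ : Finset (Subgroup A) // IsCh p σ ∧ Opr p T ≤ sN σ} =>
        T ⊓ sN x.1 = U) (fun x => (-1) ^ x.1.card), finsum_eq_sum_of_fintype,
        ← Finset.sum_filter] at h1
      calc _ = ∑ x ∈ Finset.univ.filter (fun x : {σ : Finset (Subgroup A) //
            IsCh p σ ∧ Opr p T ≤ sN σ} => T ⊓ sN x.1 = U), (-1) ^ x.1.card * bB p U m := by
            apply Finset.sum_congr rfl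
            intro x hx
            rw [Finset.mem_filter] at hx
            rw [hx.2, if_pos hU.1.2]
        _ = 0 := by rw [← Finset.sum_mul, h1, zero_mul]
    · apply Finset.sum_eq_zero
      intro x hx
      rw [Finset.mem_filter] at hx
      rw [if_neg]
      intro hn
      apply hU
      rw [← hx.2]
      exact ⟨⟨le_inf (Opr_le T) x.2.2, hn⟩, inf_le_left⟩
  have hs : ∑ σ : Finset (Subgroup A), (if IsCh p σ ∧ Opr p T ≤ sN σ then
        (-1) ^ σ.card * bB p (T ⊓ sN σ) m else 0) =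
      ∑ σ : Finset (Subgroup A), (if (IsCh p σ ∧ Opr p T ≤ sN σ) ∧ NoP p (T ⊓ sN σ) then
        (-1) ^ σ.card * bB p (T ⊓ sN σ) m else 0) := by
    have e3 : ∑ σ : Finset (Subgroup A), (if IsCh p σ ∧ Opr p T ≤ sN σ then
        (-1) ^ σ.card * bB p (T ⊓ sN σ) m else 0) =
      ∑ σ : Finset (Subgroup A), (if (IsCh p σ ∧ Opr p T ≤ sN σ) ∧ NoP p (T ⊓ sN σ) then
        (-1) ^ σ.card * bB p (T ⊓ sN σ) m else 0) +
      ∑ σ : Finset (Subgroup A), (if (IsCh p σ ∧ Opr p T ≤ sN σ) ∧ ¬ NoP p (T ⊓ sN σ) then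
        (-1) ^ σ.card * bB p (T ⊓ sN σ) m else 0) := by
      rw [← Finset.sum_add_distrib]
      apply Finset.sum_congr rfl
      intro σ _
      by_cases c1 : IsCh p σ ∧ Opr p T ≤ sN σ
      · by_cases c2 : NoP p (T ⊓ sN σ)
        · rw [if_pos c1, if_pos ⟨c1, c2⟩, if_neg (fun h => h.2 c2), add_zero]
        · rw [if_pos c1, if_neg (fun h => c2 h.2), if_pos ⟨c1, c2⟩, zero_add]
      · rw [if_neg c1, if_neg (fun h => c1 h.1), if_neg (fun h => c1 h.1), add_zero]
    rw [e3, hz', add_zero]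
  rw [hs]
  -- orbits
  refine @orb_dvd_p p _ T (Finset (Subgroup A)) _ _ (actT T) _ _ ?_ p ?_
  · intro t σ
    change (if (IsCh p (cgF (t : A) σ) ∧ Opr p T ≤ sN (cgF (t : A) σ)) ∧
      NoP p (T ⊓ sN (cgF (t : A) σ)) then (-1) ^ (cgF (t : A) σ).card *
        bB p (T ⊓ sN (cgF (t : A) σ)) m else 0) = _
    have hT : cg (t : A) T = T := cg_mem_self t.2
    have hO : cg (t : A) (Opr p T) = Opr p T := by rw [← Opr_cg, hT]
    have e1 : T ⊓ sN (cgF (t : A) σ) = cg (t : A) (T ⊓ sN σ) := by rw [sN_cgF, cg_inf, hT]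
    have e2 : Opr p T ≤ sN (cgF (t : A) σ) ↔ Opr p T ≤ sN σ := by
      rw [sN_cgF]
      conv_lhs => rw [← hO]
      exact cg_le_cg_iff
    rw [e1, e2, isCh_cgF, noP_cg, card_cgF, bB_cg hm]
  · intro σ
    split_ifs with hσ
    · obtain ⟨⟨c1, c2⟩, c3⟩ := hσ
      rw [card_stab c1]
      apply Dvd.dvd.mul_left
      exact h _ inf_le_left (Opr_eq_of_le (le_inf (Opr_le T) c2) inf_le_left) c3
    · exact dvd_zero _

end Pool.Agent.Lib.P0c8ca5
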