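import Mathlib
import Pool.Agent.Lib.P0c8ca5V.Defs

/-! The number of Sylow p-subgroups containing a given p-subgroup is 1 modulo p. -/

namespace Pool.Agent.Lib.P0c8ca5

/-- Action of `K` on the set of all Sylow subgroups by conjugation. -/
theorem card_sylow_over {p : ℕ} [Fact p.Prime] {W : Type*} [Group W] [Finite W] (K : Subgroup W)
    (hK : IsPGroup p K) : Nat.card {P : Sylow p W // K ≤ P} ≡ 1 [MOD p] := by
  have h1 := hK.card_modEq_card_fixedPoints (Sylow p W)
  have h2 : Nat.card {P : Sylow p W // K ≤ P}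
      = Nat.card (MulAction.fixedPoints K (Sylow p W)) := by
    refine Nat.card_congr (Equiv.subtypeEquivRight fun P => ?_)
    exact (hK.sylow_mem_fixedPoints_iff).symm
  rw [h2]
  exact h1.symm.trans (card_sylow_modEq_one p W)

/-- The preimage `T` in `A` of a Sylow p-subgroup of `N(H)/H`. -/
def upS {p : ℕ} {A : Type*} [Group A] (H : Subgroup A) (P : Sylow p (NQ H)) : Subgroup A :=
  ((P : Subgroup (NQ H)).comap (QuotientGroup.mk' _)).map
    (Subgroup.subtype (Subgroup.normalizer (H : Set A)))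

section
variable {p : ℕ} {A : Type*} [Group A]

namespace SylCAux

theorem mem_upS {H : Subgroup A} {P : Sylow p (NQ H)} {x : A} :
    x ∈ upS H P ↔ ∃ y : ↥(Subgroup.normalizer (H : Set A)),
      (QuotientGroup.mk y : NQ H) ∈ P ∧ (y : A) = x := by
  unfold upS
  rw [Subgroup.mem_map]
  rfl

theorem mk_eq_one {H : Subgroup A} {y : ↥(Subgroup.normalizer (H : Set A))} :
    (QuotientGroup.mk y : NQ H) = 1 ↔ (y : A) ∈ H := by
  rw [QuotientGroup.eq_one_iff, Subgroup.mem_subgroupOf]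

end SylCAux

theorem le_upS (H : Subgroup A) (P : Sylow p (NQ H)) : H ≤ upS H P := by
  intro x hx
  refine SylCAux.mem_upS.2 ⟨⟨x, Subgroup.le_normalizer hx⟩, ?_, rfl⟩
  rw [SylCAux.mk_eq_one.2 hx]
  exact one_mem P

theorem upS_le (H : Subgroup A) (P : Sylow p (NQ H)) :
    upS H P ≤ Subgroup.normalizer (H : Set A) := by
  intro x hx
  obtain ⟨y, -, rfl⟩ := SylCAux.mem_upS.1 hx
  exact y.2

theorem upS_card [Fact p.Prime] [Finite A] (H : Subgroup A) (P : Sylow p (NQ H)) :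
    ordProj[p] (Nat.card (upS H P))
      = ordProj[p] (Nat.card ↥(Subgroup.normalizer (H : Set A))) := by
  have h1 : Nat.card (upS H P) = Nat.card ↥((P : Subgroup (NQ H)).comap (QuotientGroup.mk' _)) :=
    Subgroup.card_map_of_injective (Subgroup.subtype_injective _)
  have h2 : ((P : Subgroup (NQ H)).comap (QuotientGroup.mk' _)).index
      = (P : Subgroup (NQ H)).index :=
    Subgroup.index_comap_of_surjective _ (QuotientGroup.mk'_surjective _)
  have h3 := Subgroup.card_mul_index ((P : Subgroup (NQ H)).comap (QuotientGroup.mk' _))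
  rw [h2] at h3
  have h4 : ¬ p ∣ (P : Subgroup (NQ H)).index := P.not_dvd_index
  have h5 : (P : Subgroup (NQ H)).index ≠ 0 := fun h => h4 (h ▸ dvd_zero p)
  rw [h1, ← h3, Nat.factorization_mul Nat.card_pos.ne' h5, Finsupp.add_apply,
    Nat.factorization_eq_zero_of_not_dvd h4, add_zero]

theorem upS_pow [Fact p.Prime] [Finite A] (H : Subgroup A) (P : Sylow p (NQ H)) {x : A}
    (hx : x ∈ upS H P) : ∃ n : ℕ, x ^ p ^ n ∈ H := by
  obtain ⟨y, hy, rfl⟩ := SylCAux.mem_upS.1 hx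
  obtain ⟨n, hn⟩ := P.isPGroup' ⟨_, hy⟩
  refine ⟨n, ?_⟩
  have h1 := congrArg (Subtype.val) hn
  have h2 : (QuotientGroup.mk (y ^ p ^ n) : NQ H) = 1 := h1
  exact SylCAux.mk_eq_one.1 h2

/-- For `H ≤ K ≤ N(H)` with `K / H` a p-group, the number of `P` with `K ≤ upS H P` is 1 mod p. -/
theorem card_upS_over [Fact p.Prime] [Finite A] {H K : Subgroup A} (hHK : H ≤ K)
    (hK : K ≤ Subgroup.normalizer (H : Set A)) (hp : ∀ x ∈ K, ∃ n : ℕ, x ^ p ^ n ∈ H) :
    Nat.card {P : Sylow p (NQ H) // K ≤ upS H P} ≡ 1 [MOD p] := by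
  have _ := hHK
  let K' : Subgroup (NQ H) := (K.subgroupOf _).map (QuotientGroup.mk' _)
  have hK' : IsPGroup p K' := by
    rintro ⟨x, hx⟩
    obtain ⟨y, hy, rfl⟩ := hx
    obtain ⟨n, hn⟩ := hp (y : A) (Subgroup.mem_subgroupOf.1 hy)
    refine ⟨n, Subtype.ext ?_⟩
    exact (SylCAux.mk_eq_one (y := y ^ p ^ n)).2 hn
  rw [← Nat.card_congr (Equiv.subtypeEquivRight fun P : Sylow p (NQ H) => ?_)]
  · exact card_sylow_over K' hK'
  · constructor
    · intro h x hx
      exact SylCAux.mem_upS.2 ⟨⟨x, hK hx⟩, h ⟨⟨x, hK hx⟩, Subgroup.mem_subgroupOf.2 hx, rfl⟩, rfl⟩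
    · rintro h _ ⟨y, hy, rfl⟩
      obtain ⟨z, hz, hzy⟩ := SylCAux.mem_upS.1 (h (Subgroup.mem_subgroupOf.1 hy))
      have : z = y := Subtype.ext hzy
      rw [this] at hz
      exact hz

end

end Pool.Agent.Lib.P0c8ca5
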