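import Mathlib
import Pool.Agent.Lib.P0c8ca5V.DA
import Pool.Agent.Lib.P0c8ca5V.SylC

/-! The sum over the triples with `O^p(<a,b,c>) = H`. -/

namespace Pool.Agent.Lib.P0c8ca5

variable {p : ℕ} {A : Type*} [Group A]

namespace DBAux

open DAAux

/-- The action of `N(H)` on the triples by conjugation. -/
def actN (T : Subgroup A) : MulAction T (A × A × A) where
  smul g t := cT (g : A) t
  one_smul t := by
    change cT ((1 : T) : A) t = t
    ext <;> simp [cT]
  mul_smul g h t := by
    change cT ((g * h : T) : A) t = cT (g : A) (cT (h : A) t)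
    ext <;> simp [cT, mul_assoc]

theorem cT_fix {g : A} {t : A × A × A} (h : cT g t = t) {x : A} (hx : x ∈ gen t) :
    x * g = g * x := by
  have h1 : g * t.1 * g⁻¹ = t.1 := congrArg Prod.fst h
  have h2 : g * t.2.1 * g⁻¹ = t.2.1 := congrArg (fun s => s.2.1) h
  have h3 : g * t.2.2 * g⁻¹ = t.2.2 := congrArg (fun s => s.2.2) h
  have h4 : gen t ≤ Subgroup.centralizer ({g} : Set A) := by
    rw [gen_le]
    refine ⟨?_, ?_, ?_⟩
    · rw [Subgroup.mem_centralizer_iff]
      rintro y rfl
      rw [mul_inv_eq_iff_eq_mul] at h1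
      exact h1
    · rw [Subgroup.mem_centralizer_iff]
      rintro y rfl
      rw [mul_inv_eq_iff_eq_mul] at h2
      exact h2
    · rw [Subgroup.mem_centralizer_iff]
      rintro y rfl
      rw [mul_inv_eq_iff_eq_mul] at h3
      exact h3
  exact ((Subgroup.mem_centralizer_iff.1 (h4 hx)) g rfl).symm

theorem card_stabT [Finite A] (T : Subgroup A) (t : A × A × A) :
    Nat.card (@MulAction.stabilizer T (A × A × A) _ (actN T) t) ∣
      Nat.card ↥(Subgroup.centralizer (gen t : Set A)) := by
  letI := actN T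
  have h1 : ((MulAction.stabilizer T t).map T.subtype) ≤
      Subgroup.centralizer (gen t : Set A) := by
    rintro _ ⟨g, hg, rfl⟩
    rw [Subgroup.mem_centralizer_iff]
    intro x hx
    have hg' : cT (g : A) t = t := hg
    exact cT_fix hg' hx
  have h2 := Subgroup.card_dvd_of_le h1
  rwa [Subgroup.card_map_of_injective (Subgroup.subtype_injective _)] at h2

theorem mem_smul_iff {W : Type*} [Group W] {P : Sylow p W} {g x : W} :
    x ∈ g • P ↔ g⁻¹ * x * g ∈ P := by
  change x ∈ ((g • P : Sylow p W) : Subgroup W) ↔ _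
  rw [Sylow.coe_subgroup_smul, Subgroup.mem_pointwise_smul_iff_inv_smul_mem]
  simp only [MulAut.smul_def, MulAut.conj_inv_apply]
  exact Iff.rfl

theorem upS_smul {H : Subgroup A} (g : ↥(Subgroup.normalizer (H : Set A))) (P : Sylow p (NQ H)) :
    upS H ((QuotientGroup.mk g : NQ H) • P) = cg (g : A) (upS H P) := by
  ext x
  rw [mem_cg, SylCAux.mem_upS, SylCAux.mem_upS]
  constructor
  · rintro ⟨y, hy, rfl⟩
    exact ⟨g⁻¹ * y * g, mem_smul_iff.1 hy, by simp⟩
  · rintro ⟨y, hy, hxy⟩
    refine ⟨g * y * g⁻¹, mem_smul_iff.2 ?_, ?_⟩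
    · have e : (QuotientGroup.mk g : NQ H)⁻¹ * QuotientGroup.mk (g * y * g⁻¹) *
          QuotientGroup.mk g = QuotientGroup.mk y := by
        rw [← QuotientGroup.mk_inv, ← QuotientGroup.mk_mul, ← QuotientGroup.mk_mul]
        congr 1
        group
      rw [e]; exact hy
    · simp only [Subgroup.coe_mul, Subgroup.coe_inv]
      rw [hxy]; group

/-- the number of the `P` with `K ≤ upS H P` -/
noncomputable def nP (p : ℕ) (H K : Subgroup A) : ℕ :=
  Nat.card {P : Sylow p (NQ H) // K ≤ upS H P}

theorem nP_cg {H : Subgroup A} {g : A} (hg : g ∈ Subgroup.normalizer (H : Set A))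
    (K : Subgroup A) : nP p H (cg g K) = nP p H K := by
  unfold nP
  symm
  refine Nat.card_congr ((MulAction.toPerm (QuotientGroup.mk (⟨g, hg⟩ :
    ↥(Subgroup.normalizer (H : Set A))) : NQ H)).subtypeEquiv fun P => ?_)
  change K ≤ upS H P ↔ cg g K ≤ upS H ((QuotientGroup.mk (⟨g, hg⟩ :
    ↥(Subgroup.normalizer (H : Set A))) : NQ H) • P)
  rw [upS_smul, cg_le_cg_iff]

end DBAux

open DAAux DBAux

open Classical in
/-- Suppose that `p |U|_p` divides `bB p U m` for all `U` with `O^p(U) = H` and `O_p(U) = 1`. Then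
`p |N(H)|_p` divides the sum of `dW * fK` over the triples `t` with `O^p(gen t) = H`. Proof: if
`H ≠ O^p(H)`, the sum is empty. Sum `sum_T` for `T = upS H P` over all `P`; every triple is counted
`1 + p j` times (`card_upS_over`), the error is divisible by `p |N(H)|_p` by `orb_dvd_p` and
`cent_dvd_fK`. -/
theorem sum_H [Fact p.Prime] [Finite A] {H : Subgroup A} {m : A → ℤ} (hm : IsWt p ⊤ m)
    (h : ∀ U : Subgroup A, Opr p U = H → NoP p U →
      (p : ℤ) * (ordProj[p] (Nat.card U) : ℕ) ∣ bB p U m) :
    (p : ℤ) * (ordProj[p] (Nat.card ↥(Subgroup.normalizer (H : Set A))) : ℕ) ∣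
      ∑ᶠ t : A × A × A, (if Opr p (gen t) = H then dW p m t * fK p (gen t) else 0) := by
  haveI : Fintype A := Fintype.ofFinite A
  haveI : Fintype (Sylow p (NQ H)) := Fintype.ofFinite _
  by_cases hH : Opr p H = H
  swap
  · have h0 : ∀ t : A × A × A,
        (if Opr p (gen t) = H then dW p m t * fK p (gen t) else 0) = 0 := by
      intro t
      rw [if_neg]
      intro e
      apply hH
      have h1 : Opr p (Opr p (gen t)) = Opr p (gen t) := Opr_eq_of_le le_rfl (Opr_le _)
      rwa [e] at h1
    rw [finsum_congr h0, finsum_zero]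
    exact dvd_zero _
  rw [finsum_eq_sum_of_fintype]
  -- the groups `upS H P`
  have hO : ∀ P : Sylow p (NQ H), Opr p (upS H P) = H := by
    intro P
    apply le_antisymm
    · exact Opr_le_of_pow (le_upS H P) (upS_le H P) (fun x hx => upS_pow H P hx)
    · conv_lhs => rw [← hH]
      exact Opr_mono (le_upS H P)
  have hP : ∀ P : Sylow p (NQ H),
      (p : ℤ) * (ordProj[p] (Nat.card ↥(Subgroup.normalizer (H : Set A))) : ℕ) ∣
        ∑ t : A × A × A, (if gen t ≤ upS H P ∧ H ≤ gen t then dW p m t * fK p (gen t) else 0) := by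
    intro P
    have h1 := sum_T (T := upS H P) hm (fun U _ hU hU' => h U (hU.trans (hO P)) hU')
    rw [upS_card, hO P, finsum_eq_sum_of_fintype] at h1
    exact h1
  -- the sum over all `P`
  have hS : (p : ℤ) * (ordProj[p] (Nat.card ↥(Subgroup.normalizer (H : Set A))) : ℕ) ∣
      ∑ t : A × A × A, (if Opr p (gen t) = H then
        (nP p H (gen t) : ℤ) * (dW p m t * fK p (gen t)) else 0) := by
    have h1 := Finset.dvd_sum (s := Finset.univ) (fun P _ => hP P)
    rw [Finset.sum_comm] at h1
    have h2 : ∀ t : A × A × A, ∑ P : Sylow p (NQ H),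
        (if gen t ≤ upS H P ∧ H ≤ gen t then dW p m t * fK p (gen t) else 0) =
        (if Opr p (gen t) = H then
        (nP p H (gen t) : ℤ) * (dW p m t * fK p (gen t)) else 0) := by
      intro t
      split_ifs with ht
      · have h3 : H ≤ gen t := by rw [← ht]; exact Opr_le _
        simp only [h3, and_true]
        rw [← Finset.sum_filter, Finset.sum_const, nP, Nat.card_eq_fintype_card,
          Fintype.card_subtype, nsmul_eq_mul]
      · apply Finset.sum_eq_zero
        intro P _
        rw [if_neg]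
        rintro ⟨h3, h4⟩
        apply ht
        have h5 : Opr p (gen t) = Opr p (upS H P) :=
          Opr_eq_of_le (by rw [hO P]; exact h4) h3
        rw [h5, hO P]
    rw [Finset.sum_congr rfl (fun t _ => h2 t)] at h1
    exact h1
  -- the error term
  have hE : (p : ℤ) * (ordProj[p] (Nat.card ↥(Subgroup.normalizer (H : Set A))) : ℕ) ∣
      ∑ t : A × A × A, (if Opr p (gen t) = H then
        ((nP p H (gen t) : ℤ) - 1) * (dW p m t * fK p (gen t)) else 0) := by
    refine @orb_dvd_p p _ (Subgroup.normalizer (H : Set A)) (A × A × A) _ _ (actN _) _ _ ?_ p ?_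
    · intro g t
      change (if Opr p (gen (cT (g : A) t)) = H then
        ((nP p H (gen (cT (g : A) t)) : ℤ) - 1) * (dW p m (cT (g : A) t) *
          fK p (gen (cT (g : A) t))) else 0) = _
      have h1 : cg (g : A) H = H := cg_eq_self_iff.2 g.2
      have h2 : cg (g : A) (Opr p (gen t)) = H ↔ Opr p (gen t) = H := by
        constructor
        · intro c
          exact cg_injective (g : A) (c.trans h1.symm)
        · intro c
          rw [c, h1]
      rw [gen_cT, Opr_cg, nP_cg g.2, dW_cT hm, fK_conj]
      by_cases h3 : Opr p (gen t) = H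
      · rw [if_pos (h2.2 h3), if_pos h3]
      · rw [if_neg (fun c => h3 (h2.1 c)), if_neg h3]
    · intro t
      split_ifs with ht
      · have h1 : (p : ℤ) ∣ (nP p H (gen t) : ℤ) - 1 := by
          have h2 : nP p H (gen t) ≡ 1 [MOD p] := by
            refine card_upS_over ?_ ?_ ?_
            · rw [← ht]; exact Opr_le _
            · rw [← ht]; exact Opr_normal _
            · intro x hx
              obtain ⟨n, hn⟩ := Opr_pow (p := p) hx
              rw [ht] at hn
              exact ⟨n, hn⟩
          have h3 := (Nat.modEq_iff_dvd.1 h2.symm)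
          simpa using h3
        have h4 : ((ordProj[p] (Nat.card (@MulAction.stabilizer
            (Subgroup.normalizer (H : Set A)) (A × A × A) _ (actN _) t)) : ℕ) : ℤ) ∣
            fK p (gen t) := by
          refine dvd_trans ?_ (cent_dvd_fK (gen t))
          exact_mod_cast Nat.ordProj_dvd_ordProj_of_dvd Nat.card_pos.ne' (card_stabT _ t) p
        exact mul_dvd_mul h1 (Dvd.dvd.mul_left h4 _)
      · exact dvd_zero _
  have hd := dvd_sub hS hE
  rw [← Finset.sum_sub_distrib] at hd
  have hfin : ∀ t : A × A × A, (if Opr p (gen t) = H then dW p m t * fK p (gen t) else 0) =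
      ((if Opr p (gen t) = H then (nP p H (gen t) : ℤ) * (dW p m t * fK p (gen t)) else 0) -
        (if Opr p (gen t) = H then
          ((nP p H (gen t) : ℤ) - 1) * (dW p m t * fK p (gen t)) else 0)) := by
    intro t
    split_ifs
    · ring
    · ring
  rw [Finset.sum_congr rfl (fun t _ => hfin t)]
  exact hd

end Pool.Agent.Lib.P0c8ca5
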