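import Mathlib
import Pool.Agent.Lib.P0c8ca5V.DB
import Pool.Agent.Lib.P0c8ca5V.ChOrb
import Pool.Agent.Lib.P0c8ca5V.CB

/-! Equivalence of the divisibility of `eA - eE` and of `bB` for all groups. -/

namespace Pool.Agent.Lib.P0c8ca5

universe u

section
variable {p : ℕ} {A : Type u} [Group A]

namespace DCAux

theorem preg_coe {H : Subgroup A} (x : ↥H) : Preg p (x : A) ↔ Preg p x := by
  unfold Preg
  rw [Subgroup.orderOf_coe]

theorem pel_coe {H : Subgroup A} (x : ↥H) : Pel p (x : A) ↔ Pel p x := by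
  unfold Pel
  refine exists_congr (fun n => ?_)
  rw [← Subgroup.coe_pow, OneMemClass.coe_eq_one]

/-- the triple in `A` of a triple in `U` -/
def up (U : Subgroup A) (t : ↥U × ↥U × ↥U) : A × A × A := (t.1, t.2.1, t.2.2)

theorem up_injective (U : Subgroup A) : Function.Injective (up U) := by
  rintro ⟨a, b, c⟩ ⟨a', b', c'⟩ h
  simp only [up, Prod.mk.injEq, Subtype.coe_inj] at h
  obtain ⟨rfl, rfl, rfl⟩ := h
  rfl

theorem gen_up (U : Subgroup A) (t : ↥U × ↥U × ↥U) :
    gen (up U t) = (gen t).map U.subtype := by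
  unfold gen up
  rw [MonoidHom.map_closure]
  congr 1
  simp [Set.image_insert_eq]

theorem Opr_top (U : Subgroup A) : Opr p U = (Opr p (⊤ : Subgroup ↥U)).map U.subtype := by
  unfold Opr
  rw [MonoidHom.map_closure]
  congr 1
  ext x
  simp only [Set.mem_ofPred_eq, Set.mem_image, Subgroup.mem_top, true_and, Subgroup.coe_subtype]
  constructor
  · rintro ⟨hx, h⟩
    exact ⟨⟨x, hx⟩, (preg_coe (⟨x, hx⟩ : ↥U)).1 h, rfl⟩
  · rintro ⟨y, hy, rfl⟩
    exact ⟨y.2, (preg_coe y).2 hy⟩

theorem cmt_up (U : Subgroup A) (t : ↥U × ↥U × ↥U) :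
    cmt (up U t).1 (up U t).2.1 * (up U t).2.2 = ((cmt t.1 t.2.1 * t.2.2 : ↥U) : A) := by
  simp [cmt, up]

theorem dW_up (U : Subgroup A) (m : A → ℤ) (t : ↥U × ↥U × ↥U) :
    dW p m (up U t) = dW p (fun x : ↥U => m x) t := by
  classical
  unfold dW
  rw [cmt_up, pel_coe]
  have h : (((cmt t.1 t.2.1 * t.2.2 : ↥U) : A) ≠ 1) ↔ (cmt t.1 t.2.1 * t.2.2 ≠ 1) := by
    exact not_congr OneMemClass.coe_eq_one
  by_cases h1 : Pel p (cmt t.1 t.2.1 * t.2.2) ∧ cmt t.1 t.2.1 * t.2.2 ≠ 1
  · rw [if_pos h1, if_pos ⟨h1.1, h.2 h1.2⟩]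
    rfl
  · rw [if_neg h1, if_neg (fun h2 => h1 ⟨h2.1, h.1 h2.2⟩)]

theorem range_up (U : Subgroup A) : Set.range (up U) = {t | gen t ≤ U} := by
  ext t
  rw [Set.mem_ofPred_eq, CBAux.gen_le]
  constructor
  · rintro ⟨s, rfl⟩
    exact ⟨s.1.2, s.2.1.2, s.2.2.2⟩
  · rintro ⟨h1, h2, h3⟩
    exact ⟨(⟨t.1, h1⟩, ⟨t.2.1, h2⟩, ⟨t.2.2, h3⟩), rfl⟩

end DCAux

open DCAux

/-- transport between the subgroup `U` of `A` and the group `U` -/
theorem bB_dn (U : Subgroup A) (m : A → ℤ) :
    bB p (⊤ : Subgroup ↥U) (fun x => m x) = bB p U m := by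
  classical
  unfold bB
  have h1 : ∀ t : ↥U × ↥U × ↥U, (if gen t ≤ ⊤ ∧ Opr p (⊤ : Subgroup ↥U) ≤ gen t
      then dW p (fun x : ↥U => m x) t else 0) =
      (if gen (up U t) ≤ U ∧ Opr p U ≤ gen (up U t) then dW p m (up U t) else 0) := by
    intro t
    rw [dW_up, gen_up, Opr_top U,
      Subgroup.map_le_map_iff_of_injective U.subtype_injective]
    have h2 : (gen t).map U.subtype ≤ U := by
      rintro _ ⟨y, -, rfl⟩
      exact y.2
    simp only [le_top, h2, true_and]
  rw [finsum_congr h1, ← finsum_mem_range (f := fun t : A × A × A =>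
    if gen t ≤ U ∧ Opr p U ≤ gen t then dW p m t else 0) (up_injective U), range_up,
    finsum_mem_def]
  refine finsum_congr (fun t => ?_)
  by_cases h : gen t ≤ U
  · rw [Set.indicator_of_mem (show t ∈ {t | gen t ≤ U} from h)]
  · rw [Set.indicator_of_notMem (show t ∉ {t | gen t ≤ U} from h), if_neg (fun h' => h h'.1)]

theorem NoP_dn (U : Subgroup A) : NoP p (⊤ : Subgroup ↥U) ↔ NoP p U := by
  constructor
  · intro h R hRU hn hp
    have h1 : R.subgroupOf U = ⊥ := by
      refine h _ le_top ?_ ?_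
      · intro x _
        rw [Subgroup.mem_normalizer_iff]
        intro y
        have h2 := hn x.2
        rw [Subgroup.mem_normalizer_iff] at h2
        have h3 := h2 (y : A)
        rw [Subgroup.mem_subgroupOf, Subgroup.mem_subgroupOf]
        exact h3
      · exact hp.comap_of_injective U.subtype U.subtype_injective
    rw [Subgroup.subgroupOf_eq_bot, disjoint_comm, disjoint_iff] at h1
    rw [inf_of_le_right hRU] at h1
    exact h1
  · intro h R _ hn hp
    have h1 : R.map U.subtype = ⊥ := by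
      refine h _ ?_ ?_ (hp.map _)
      · rintro _ ⟨y, -, rfl⟩
        exact y.2
      · intro x hx
        have h2 := hn (Subgroup.mem_top (⟨x, hx⟩ : ↥U))
        rw [Subgroup.mem_normalizer_iff] at h2 ⊢
        intro y
        constructor
        · rintro ⟨z, hz, rfl⟩
          exact ⟨⟨x, hx⟩ * z * ⟨x, hx⟩⁻¹, (h2 z).1 hz, rfl⟩
        · rintro ⟨z, hz, e⟩
          refine ⟨⟨x, hx⟩⁻¹ * z * ⟨x, hx⟩, (h2 _).2 ?_, ?_⟩
          · have e1 : (⟨x, hx⟩ : ↥U) * (⟨x, hx⟩⁻¹ * z * ⟨x, hx⟩) * ⟨x, hx⟩⁻¹ = z := by group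
            rw [e1]
            exact hz
          · have e1 : y = x⁻¹ * (x * y * x⁻¹) * x := by group
            rw [e1, ← e]
            rfl
    rwa [Subgroup.map_eq_bot_iff_of_injective _ U.subtype_injective] at h1

theorem IsWt_dn (U : Subgroup A) {m : A → ℤ} (hm : IsWt p ⊤ m) :
    IsWt p (⊤ : Subgroup ↥U) (fun x => m x) := by
  refine ⟨fun h _ x => ?_, fun x hx => ?_⟩
  · have := hm.conj (h : A) (Subgroup.mem_top _) (x : A)
    simpa using this
  · exact (preg_coe x).1 (hm.reg _ hx)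

end

namespace DCAux

variable {p : ℕ} {A : Type u} [Group A]

open Classical in
/-- the sum over the triples with `O^p(gen t) = H` -/
noncomputable def FH (p : ℕ) (m : A → ℤ) (H : Subgroup A) : ℤ :=
  ∑ᶠ t : A × A × A, (if Opr p (gen t) = H then dW p m t * fK p (gen t) else 0)

/-- conjugation of triples -/
def cj (g : A) : A × A × A ≃ A × A × A :=
  (MulAut.conj g).toEquiv.prodCongr ((MulAut.conj g).toEquiv.prodCongr (MulAut.conj g).toEquiv)

theorem gen_cj (g : A) (t : A × A × A) : gen (cj g t) = cg g (gen t) := by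
  unfold gen cg cj
  rw [MonoidHom.map_closure]
  congr 1
  simp [Set.image_insert_eq]

theorem cmt_cj (g : A) (t : A × A × A) :
    cmt (cj g t).1 (cj g t).2.1 * (cj g t).2.2 = g * (cmt t.1 t.2.1 * t.2.2) * g⁻¹ := by
  simp only [cmt, cj, Equiv.prodCongr_apply, Prod.map, MulEquiv.toEquiv_eq_coe,
    EquivLike.coe_coe, MulAut.conj_apply]
  group

theorem pel_cj (g x : A) : Pel p (g * x * g⁻¹) ↔ Pel p x := by
  unfold Pel
  refine exists_congr (fun n => ?_)
  rw [conj_pow, conj_eq_one_iff]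

theorem dW_cj {m : A → ℤ} (hm : IsWt p ⊤ m) (g : A) (t : A × A × A) :
    dW p m (cj g t) = dW p m t := by
  classical
  unfold dW
  rw [cmt_cj, pel_cj]
  have h1 : m (cj g t).2.2 = m t.2.2 := hm.conj g (Subgroup.mem_top g) t.2.2
  have h2 : (g * (cmt t.1 t.2.1 * t.2.2) * g⁻¹ ≠ 1) ↔ (cmt t.1 t.2.1 * t.2.2 ≠ 1) :=
    not_congr conj_eq_one_iff
  rw [h1]
  simp only [h2]

theorem FH_cg [Fact p.Prime] [Finite A] {m : A → ℤ} (hm : IsWt p ⊤ m) (g : A) (H : Subgroup A) :
    FH p m (cg g H) = FH p m H := by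
  classical
  unfold FH
  rw [← finsum_comp_equiv (cj g)]
  refine finsum_congr (fun t => ?_)
  rw [gen_cj, Opr_cg, dW_cj hm, fK_conj]
  have h : cg g (Opr p (gen t)) = cg g H ↔ Opr p (gen t) = H := by
    constructor
    · intro h
      have := congrArg (cg g⁻¹) h
      rwa [cg_cg, cg_cg, inv_mul_cancel, cg_one, cg_one] at this
    · intro h
      rw [h]
  simp only [h]

theorem sum_FH [Finite A] (m : A → ℤ) :
    ∑ᶠ t : A × A × A, dW p m t * fK p (gen t) = ∑ᶠ H : Subgroup A, FH p m H := by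
  classical
  have := Fintype.ofFinite A
  have := Fintype.ofFinite (Subgroup A)
  simp only [FH, finsum_eq_sum_of_fintype]
  rw [Finset.sum_comm]
  refine Finset.sum_congr rfl (fun t _ => ?_)
  rw [Finset.sum_ite_eq]
  simp

theorem cg_Opr_top [Finite A] (g : A) : cg g (Opr p (⊤ : Subgroup A)) = Opr p ⊤ := by
  rw [← Opr_cg]
  congr 1
  unfold cg
  exact Subgroup.map_top_of_surjective _ (MulAut.conj g).surjective

/-- the term `H = O^p(A)` -/
theorem FH_top [Fact p.Prime] [Finite A] (m : A → ℤ) (hA : NoP p (⊤ : Subgroup A)) :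
    FH p m (Opr p ⊤) = bB p (⊤ : Subgroup A) m := by
  classical
  unfold FH bB
  refine finsum_congr (fun t => ?_)
  have h : Opr p (gen t) = Opr p ⊤ ↔ (gen t ≤ ⊤ ∧ Opr p ⊤ ≤ gen t) := by
    constructor
    · intro h
      exact ⟨le_top, h ▸ Opr_le _⟩
    · rintro ⟨-, h⟩
      exact Opr_eq_of_le h le_top
  by_cases h1 : Opr p (gen t) = Opr p ⊤
  · rw [if_pos h1, if_pos (h.1 h1), fK_one, mul_one]
    intro R hR hn
    exact norm_trivial hA le_top hR ((h.1 h1).2.trans hn)
  · rw [if_neg h1, if_neg (fun h2 => h1 (h.2 h2))]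

/-- half of `eA_iff_bB` for one group -/
theorem eA_of_bB_one [Fact p.Prime] [Finite A] {m : A → ℤ} (hm : IsWt p ⊤ m)
    (h : ∀ U : Subgroup A, NoP p U →
      (p : ℤ) * (ordProj[p] (Nat.card U) : ℕ) ∣ bB p U m) :
    (p : ℤ) * (Nat.card A : ℤ) ∣ eA p m - eE p m := by
  have h1 : (p : ℤ) * (ordProj[p] (Nat.card A) : ℕ) ∣ eA p m - eE p m := by
    rw [eA_sub_eE, sum_FH]
    refine sub_dvd_p _ (fun g U => FH_cg hm g U) _ (fun K => ?_)
    exact sum_H hm (fun U _ hU2 => h U hU2)
  have h2 : (Nat.card A : ℤ) ∣ eA p m - eE p m := dvd_sub (eA_dvd hm) (eE_dvd hm)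
  have h3 : ((ordCompl[p] (Nat.card A) : ℕ) : ℤ) ∣ eA p m - eE p m :=
    dvd_trans (by exact_mod_cast Nat.ordCompl_dvd (Nat.card A) p) h2
  have h4 : IsCoprime ((p : ℤ) * (ordProj[p] (Nat.card A) : ℕ))
      ((ordCompl[p] (Nat.card A) : ℕ) : ℤ) := by
    have h5 : Nat.Coprime (p * ordProj[p] (Nat.card A)) (ordCompl[p] (Nat.card A)) := by
      have h6 := Nat.coprime_ordCompl (Fact.out : p.Prime) (Nat.card_pos (α := A)).ne'
      rw [Nat.coprime_mul_iff_left]
      exact ⟨h6, h6.pow_left _⟩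
    have := h5.isCoprime
    exact_mod_cast this
  have h7 := h4.mul_dvd h1 h3
  have h8 : (p : ℤ) * (ordProj[p] (Nat.card A) : ℕ) * ((ordCompl[p] (Nat.card A) : ℕ) : ℤ)
      = (p : ℤ) * (Nat.card A : ℤ) := by
    rw [mul_assoc]
    congr 1
    exact_mod_cast Nat.ordProj_mul_ordCompl_eq_self (Nat.card A) p
  rwa [h8] at h7

end DCAux

open DCAux

/-- Proof: `eA_sub_eE` and `sum_H` with `sub_dvd_p`; conversely by induction on the order, the term
`H = O^p(G)` is `bB p ⊤ m` because of `fK_one` and `norm_trivial`. -/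
theorem eA_iff_bB {p : ℕ} [Fact p.Prime] :
    (∀ (G : Type u) [Group G] [Finite G] (m : G → ℤ), IsWt p ⊤ m →
      (p : ℤ) * (Nat.card G : ℤ) ∣ eA p m - eE p m) ↔
    (∀ (G : Type u) [Group G] [Finite G] (m : G → ℤ), IsWt p ⊤ m → NoP p (⊤ : Subgroup G) →
      (p : ℤ) * (ordProj[p] (Nat.card G) : ℕ) ∣ bB p (⊤ : Subgroup G) m) := by
  constructor
  · intro H
    have key : ∀ n : ℕ, ∀ (G : Type u) [Group G] [Finite G] (m : G → ℤ), Nat.card G = n →
        IsWt p ⊤ m → NoP p (⊤ : Subgroup G) →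
        (p : ℤ) * (ordProj[p] (Nat.card G) : ℕ) ∣ bB p (⊤ : Subgroup G) m := by
      intro n
      induction n using Nat.strong_induction_on with
      | _ n ih =>
      intro G _ _ m hn hm hG
      classical
      have := Fintype.ofFinite (Subgroup G)
      have h1 : (p : ℤ) * (ordProj[p] (Nat.card G) : ℕ) ∣ ∑ᶠ H : Subgroup G, FH p m H := by
        rw [← sum_FH, ← eA_sub_eE]
        refine dvd_trans (mul_dvd_mul_left _ ?_) (H G m hm)
        exact_mod_cast Nat.ordProj_dvd (Nat.card G) p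
      have h2 : (p : ℤ) * (ordProj[p] (Nat.card G) : ℕ) ∣
          ∑ᶠ H : Subgroup G, (if H = Opr p ⊤ then 0 else FH p m H) := by
        refine sub_dvd_p _ ?_ _ ?_
        · intro g U
          have h3 : cg g U = Opr p ⊤ ↔ U = Opr p ⊤ := by
            constructor
            · intro h
              have := congrArg (cg g⁻¹) h
              rwa [cg_cg, inv_mul_cancel, cg_one, cg_Opr_top] at this
            · intro h
              rw [h, cg_Opr_top]
          simp only [h3, FH_cg hm]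
        · intro K
          split_ifs with hK
          · exact dvd_zero _
          · refine sum_H hm (fun U hU hU2 => ?_)
            have hlt : Nat.card U < n := by
              rw [← hn]
              refine lt_of_le_of_ne (Subgroup.card_le_card_group U) ?_
              intro h
              have : U = ⊤ := Subgroup.eq_top_of_card_eq U h
              exact hK (by rw [← hU, this])
            have := ih _ hlt (↥U) (fun x : ↥U => m x) rfl (IsWt_dn U hm) ((NoP_dn U).2 hU2)
            rwa [bB_dn] at this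
      have h4 : ∑ᶠ H : Subgroup G, FH p m H =
          (∑ᶠ H : Subgroup G, (if H = Opr p ⊤ then 0 else FH p m H)) + FH p m (Opr p ⊤) := by
        rw [finsum_eq_sum_of_fintype, finsum_eq_sum_of_fintype,
          ← Finset.sum_erase_add _ _ (Finset.mem_univ (Opr p (⊤ : Subgroup G))),
          ← Finset.sum_erase_add (Finset.univ : Finset (Subgroup G))
            (fun H => if H = Opr p ⊤ then 0 else FH p m H)
            (Finset.mem_univ (Opr p (⊤ : Subgroup G)))]
        simp only [if_true, add_zero]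
        congr 1
        refine Finset.sum_congr rfl (fun K hK => ?_)
        rw [if_neg (Finset.ne_of_mem_erase hK)]
      rw [h4] at h1
      rw [← FH_top m hG]
      exact (dvd_add_right h2).1 h1
    intro G _ _ m hm hG
    exact key _ G m rfl hm hG
  · intro H G _ _ m hm
    refine eA_of_bB_one hm (fun U hU2 => ?_)
    have := H (↥U) (fun x : ↥U => m x) (IsWt_dn U hm) ((NoP_dn U).2 hU2)
    rwa [bB_dn] at this

end Pool.Agent.Lib.P0c8ca5
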