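import Mathlib
import Pool.Agent.Lib.P0c8ca5N.ChC

/-! Coprime powers and products of class functions. -/

namespace Pool.Agent.Lib.P0c8ca5

open MonoidAlgebra ChC

namespace GalA

section
variable {k : Type*} [Field k] {G : Type*} [Group G] [Fintype G]

/-- the element of the group algebra with given coefficients -/
noncomputable def el (f : G → k) : MonoidAlgebra k G := ∑ x, single x (f x)

theorem coeff_el (f : G → k) (x : G) : (el f).coeff x = f x := by
  classical
  unfold el
  rw [coeff_sum, Finsupp.finset_sum_apply, Finset.sum_eq_single x]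
  · rw [coeff_single, Finsupp.single_eq_same]
  · intro y _ hy
    rw [coeff_single, Finsupp.single_eq_of_ne' hy]
  · intro h; exact absurd (Finset.mem_univ x) h

theorem mul_coeff (a b : MonoidAlgebra k G) (y : G) :
    (a * b).coeff y = ∑ x, a.coeff x * b.coeff (x⁻¹ * y) := by
  classical
  have h1 : (a * b).coeff y = Fl (fun z => if z = y then (1 : k) else 0) (a * b) := by
    rw [Fl_apply, Finset.sum_eq_single y]
    · rw [if_pos rfl, mul_one]
    · intro z _ hz
      rw [if_neg hz, mul_zero]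
    · intro h; exact absurd (Finset.mem_univ y) h
  rw [h1, Fl_mul]
  refine Finset.sum_congr rfl fun x _ => ?_
  rw [Finset.sum_eq_single (x⁻¹ * y)]
  · rw [if_pos (mul_inv_cancel_left x y), mul_one]
  · intro z _ hz
    rw [if_neg, mul_zero]
    intro h
    exact hz (by rw [← h, inv_mul_cancel_left])
  · intro h; exact absurd (Finset.mem_univ _) h

theorem el_central {f : G → k} (hf : ∀ g x, f (g * x * g⁻¹) = f x) (b : MonoidAlgebra k G) :
    el f * b = b * el f := by
  classical
  ext y
  rw [mul_coeff, mul_coeff]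
  refine Finset.sum_bij (fun x _ => x⁻¹ * y) (fun x _ => Finset.mem_univ _) ?_ ?_ ?_
  · intro x _ x' _ h
    exact inv_injective (mul_right_cancel h)
  · intro z _
    exact ⟨y * z⁻¹, Finset.mem_univ _, by group⟩
  · intro x _
    rw [coeff_el, coeff_el]
    have h1 : (x⁻¹ * y)⁻¹ * y = y⁻¹ * x * y⁻¹⁻¹ := by group
    rw [h1, hf, mul_comm]

theorem central_conj {z : MonoidAlgebra k G} (hz : ∀ b, z * b = b * z) (g x : G) :
    z.coeff (g * x * g⁻¹) = z.coeff x := by
  classical
  have h1 := congrArg (fun w : MonoidAlgebra k G => w.coeff (g * x)) (hz (single g 1))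
  simp only [mul_coeff] at h1
  rw [Finset.sum_eq_single (g * x * g⁻¹), Finset.sum_eq_single g] at h1
  · simpa [mul_assoc] using h1
  · intro y _ hy
    rw [coeff_single, Finsupp.single_eq_of_ne hy, zero_mul]
  · intro h; exact absurd (Finset.mem_univ _) h
  · intro y _ hy
    rw [coeff_single, Finsupp.single_eq_of_ne, mul_zero]
    intro h
    apply hy
    rw [inv_mul_eq_iff_eq_mul] at h
    rw [h, mul_inv_cancel_right]
  · intro h; exact absurd (Finset.mem_univ _) h

/-- the `l`-th power of a central element, characteristic `l` prime to the order of the group -/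
theorem pow_coeff {l : ℕ} [Fact l.Prime] [CharP k l] (hl : (Nat.card G).Coprime l)
    {z : MonoidAlgebra k G} (hz : ∀ b, z * b = b * z) (h : G) :
    (z ^ l).coeff (h ^ l) = z.coeff h ^ l := by
  classical
  have hzl : ∀ b, z ^ l * b = b * z ^ l := fun b =>
    ((show Commute z b from hz b).pow_left l).eq
  have hG : ((Fintype.card G : ℕ) : k) ≠ 0 := by
    intro h0
    rw [CharP.cast_eq_zero_iff k l, ← Nat.card_eq_fintype_card] at h0
    have h1 : l ∣ 1 := by
      rw [← hl.gcd_eq_one]
      exact Nat.dvd_gcd h0 dvd_rfl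
    exact (Fact.out : l.Prime).one_lt.ne' (Nat.dvd_one.1 h1)
  set φ : G → k := fun y => ∑ c : G, if c * h ^ l * c⁻¹ = y then 1 else 0 with hφ
  have hφ1 : ∀ x y, φ (x * y) = φ (y * x) := by
    intro x y
    simp only [hφ]
    rw [← Equiv.sum_comp (Equiv.mulLeft x)]
    refine Finset.sum_congr rfl fun c _ => ?_
    simp only [Equiv.coe_mulLeft]
    have h1 : (x * c * h ^ l * (x * c)⁻¹ = x * y) ↔ (c * h ^ l * c⁻¹ = y * x) := by
      rw [mul_inv_rev]
      constructor
      · intro h2
        have h3 : x * (c * h ^ l * c⁻¹) * x⁻¹ = x * y := by rw [← h2]; group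
        have h4 : c * h ^ l * c⁻¹ = x⁻¹ * (x * (c * h ^ l * c⁻¹) * x⁻¹) * x := by group
        rw [h4, h3, inv_mul_cancel_left]
      · intro h2
        have h4 : x * c * h ^ l * (c⁻¹ * x⁻¹) = x * (c * h ^ l * c⁻¹) * x⁻¹ := by group
        rw [h4, h2]
        group
    exact if_congr h1 rfl rfl
  have h1 := Fl_pow (p := l) φ hφ1 z 1
  rw [pow_one] at h1
  have h2 : Fl φ (z ^ l) = (Fintype.card G : k) * (z ^ l).coeff (h ^ l) := by
    rw [Fl_apply]
    simp only [hφ, Finset.mul_sum]
    rw [Finset.sum_comm]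
    have h3 : ∀ c : G, ∑ x : G, (z ^ l).coeff x * (if c * h ^ l * c⁻¹ = x then (1 : k) else 0)
        = (z ^ l).coeff (h ^ l) := by
      intro c
      rw [Finset.sum_eq_single (c * h ^ l * c⁻¹)]
      · rw [if_pos rfl, mul_one, central_conj hzl]
      · intro y _ hy
        rw [if_neg (fun h4 => hy h4.symm), mul_zero]
      · intro h4; exact absurd (Finset.mem_univ _) h4
    rw [Finset.sum_congr rfl (fun c _ => h3 c), Finset.sum_const, nsmul_eq_mul]
    rfl
  have h4 : ∑ g, z.coeff g ^ l * φ (g ^ l) = (Fintype.card G : k) * z.coeff h ^ l := by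
    simp only [hφ, Finset.mul_sum]
    rw [Finset.sum_comm]
    have h3 : ∀ c : G, ∑ x : G, z.coeff x ^ l * (if c * h ^ l * c⁻¹ = x ^ l then (1 : k) else 0)
        = z.coeff h ^ l := by
      intro c
      rw [Finset.sum_eq_single (c * h * c⁻¹)]
      · rw [if_pos conj_pow.symm, mul_one, central_conj hz]
      · intro y _ hy
        rw [if_neg, mul_zero]
        intro h4
        apply hy
        rw [← conj_pow] at h4
        exact ((powCoprime hl).injective h4).symm
      · intro h4; exact absurd (Finset.mem_univ _) h4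
    rw [Finset.sum_congr rfl (fun c _ => h3 c), Finset.sum_const, nsmul_eq_mul]
    rfl
  rw [h2, h4] at h1
  exact mul_left_cancel₀ hG h1

/-- The map `f ↦ f (x ^ l)` respects products of class functions with values in `ZMod l`. -/
theorem conv_pow_mod {l : ℕ} [Fact l.Prime] (hl : (Nat.card G).Coprime l) {f g : G → ZMod l}
    (hf : ∀ c x, f (c * x * c⁻¹) = f x) (hg : ∀ c x, g (c * x * c⁻¹) = g x) (a : G) :
    ∑ x, f (x ^ l) * g ((x⁻¹ * a) ^ l) = ∑ x, f x * g (x⁻¹ * a ^ l) := by
  have hf' : ∀ c x : G, (fun x => f (x ^ l)) (c * x * c⁻¹) = (fun x => f (x ^ l)) x := by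
    intro c x
    simp only [conj_pow, hf]
  have hg' : ∀ c x : G, (fun x => g (x ^ l)) (c * x * c⁻¹) = (fun x => g (x ^ l)) x := by
    intro c x
    simp only [conj_pow, hg]
  have cf : ∀ b, el (fun x => f (x ^ l)) * b = b * el (fun x => f (x ^ l)) :=
    el_central (f := fun x => f (x ^ l)) hf'
  have cg : ∀ b, el (fun x => g (x ^ l)) * b = b * el (fun x => g (x ^ l)) :=
    el_central (f := fun x => g (x ^ l)) hg'
  have cfg : ∀ b, el (fun x => f (x ^ l)) * el (fun x => g (x ^ l)) * b
      = b * (el (fun x => f (x ^ l)) * el (fun x => g (x ^ l))) := by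
    intro b
    rw [mul_assoc, cg b, ← mul_assoc, cf b, mul_assoc]
  have h1 := pow_coeff hl cfg a
  rw [ZMod.pow_card] at h1
  have h2 : (el (fun x => f (x ^ l)) * el (fun x => g (x ^ l))) ^ l
      = el (fun x => f (x ^ l)) ^ l * el (fun x => g (x ^ l)) ^ l :=
    (show Commute _ _ from cf _).mul_pow l
  have h3 : ∀ (u : G → ZMod l) (hu : ∀ b, el (fun x => u (x ^ l)) * b
      = b * el (fun x => u (x ^ l))) (y : G),
      (el (fun x => u (x ^ l)) ^ l).coeff y = u y := by
    intro u hu y
    obtain ⟨x, rfl⟩ := (powCoprime hl).surjective y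
    change (el (fun x => u (x ^ l)) ^ l).coeff (x ^ l) = u (x ^ l)
    rw [pow_coeff hl hu, ZMod.pow_card, coeff_el]
  rw [h2, mul_coeff, mul_coeff] at h1
  have h4 : ∀ x : G, (el (fun x => f (x ^ l)) ^ l).coeff x *
      (el (fun x => g (x ^ l)) ^ l).coeff (x⁻¹ * a ^ l) = f x * g (x⁻¹ * a ^ l) := by
    intro x
    rw [h3 f cf, h3 g cg]
  rw [Finset.sum_congr rfl (fun x _ => h4 x)] at h1
  rw [h1]
  refine Finset.sum_congr rfl fun x _ => ?_
  rw [coeff_el, coeff_el]

end

section
variable {G : Type*} [Group G] [Fintype G]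

/-- The map `f ↦ f (x ^ j)` respects products of class functions with values in `ℤ`. -/
theorem conv_pow {j : ℕ} (hj : (Nat.card G).Coprime j) {f g : G → ℤ}
    (hf : ∀ c x, f (c * x * c⁻¹) = f x) (hg : ∀ c x, g (c * x * c⁻¹) = g x) (a : G) :
    ∑ x, f (x ^ j) * g ((x⁻¹ * a) ^ j) = ∑ x, f x * g (x⁻¹ * a ^ j) := by
  set D : ℤ := ∑ x, f (x ^ j) * g ((x⁻¹ * a) ^ j) - ∑ x, f x * g (x⁻¹ * a ^ j) with hD
  obtain ⟨l, hl1, hl2, hl3⟩ := Nat.forall_exists_prime_gt_and_modEq (Nat.card G + D.natAbs)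
    (Nat.card_pos (α := G)).ne' hj.symm
  have hlf : Fact l.Prime := ⟨hl2⟩
  have hlG : (Nat.card G).Coprime l := by
    have h1 : Nat.gcd l (Nat.card G) = Nat.gcd j (Nat.card G) := hl3.gcd_eq
    rw [Nat.coprime_iff_gcd_eq_one, Nat.gcd_comm, h1, Nat.gcd_comm]
    exact hj
  have hpow : ∀ x : G, x ^ l = x ^ j := by
    intro x
    rw [pow_eq_pow_iff_modEq]
    exact hl3.of_dvd (orderOf_dvd_natCard x)
  have h1 := conv_pow_mod hlG (f := fun x => ((f x : ℤ) : ZMod l))
    (g := fun x => ((g x : ℤ) : ZMod l)) (fun c x => by rw [hf]) (fun c x => by rw [hg]) a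
  have h2 : ((D : ℤ) : ZMod l) = 0 := by
    rw [hD]
    push_cast
    rw [sub_eq_zero]
    simp only [hpow] at h1
    exact h1
  rw [ZMod.intCast_zmod_eq_zero_iff_dvd] at h2
  have h3 : D = 0 := by
    by_contra h4
    have h5 := Nat.le_of_dvd (Int.natAbs_pos.2 h4) (Int.natCast_dvd.1 h2)
    omega
  rw [hD, sub_eq_zero] at h3
  exact h3

end

end GalA

end Pool.Agent.Lib.P0c8ca5
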