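import Mathlib
import Pool.Agent.Lib.P0c8ca5V.Orb
import Pool.Agent.Lib.P0c8ca5V.Opm

/-!
# Rotations of triples

PROOF of `rot_dvd`. Let `X` be the set of the triples `t` with `uu t` a nontrivial p-element and
`O^p(A) ≤ gen t` (so `bB p ⊤ m` is the sum of `m t.2.2` over `X`), and `Y` the set of the orbits of
`A` on `X` under `cj3`. The centralizer in `A` of `gen t` contains no nontrivial p-element
(`norm_trivial` with `R = zpowers z`), so `|A|_p` divides the size of every orbit and hence the sum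
`F y` of `m t.2.2` over the orbit `y`. `E` induces a permutation of `Y` of order dividing `p ^ r`
(its `p ^ r`-th power is induced by `t ↦ cj3 (uu t) t`), and `F` is invariant under it. It has no
fixed point: if `E t = cj3 h t`, then `h` commutes with `u = uu t` (as `uu (cj3 h t) = h u h⁻¹`),
`E^[p ^ r] t = cj3 (h ^ p ^ r) t`, so `z = u⁻¹ h ^ p ^ r` centralizes `gen t`, is of order prime to
`p`, and commutes with `u`; so `h ^ p ^ r = u z` has order divisible by `p`, the order of `h` is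
divisible by `p ^ (r + 1)` and a power of `h` has order `p ^ (r + 1)`, contradiction. So all orbits
of the permutation on `Y` have length divisible by `p`.
-/

namespace Pool.Agent.Lib.P0c8ca5

variable {p : ℕ} {A : Type*} [Group A]

/-- `u = [a, b] c` -/
def uu (t : A × A × A) : A := cmt t.1 t.2.1 * t.2.2

/-- simultaneous conjugation -/
def cj3 (g : A) (t : A × A × A) : A × A × A :=
  (g * t.1 * g⁻¹, g * t.2.1 * g⁻¹, g * t.2.2 * g⁻¹)

/-- rotations of order `q` -/
structure IsRot (q : ℕ) (E : A × A × A → A × A × A) : Prop where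
  u : ∀ t, uu (E t) = uu t
  c : ∀ t, ∃ g, (E t).2.2 = g * t.2.2 * g⁻¹
  gn : ∀ t, gen (E t) = gen t
  cj : ∀ g t, E (cj3 g t) = cj3 g (E t)
  pow : ∀ t, E^[q] t = cj3 (uu t) t

namespace RotAux

theorem cj3_one (t : A × A × A) : cj3 1 t = t := by
  simp [cj3]

theorem cj3_mul (g h : A) (t : A × A × A) : cj3 (g * h) t = cj3 g (cj3 h t) := by
  simp [cj3, mul_assoc]

theorem uu_cj3' (g : A) (t : A × A × A) : uu (cj3 g t) = g * uu t * g⁻¹ := by
  unfold uu cmt cj3
  group

/-- conjugation by `g` as a permutation -/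
def cjP (g : A) : Equiv.Perm (A × A × A) where
  toFun := cj3 g
  invFun := cj3 g⁻¹
  left_inv t := by rw [← cj3_mul, inv_mul_cancel, cj3_one]
  right_inv t := by rw [← cj3_mul, mul_inv_cancel, cj3_one]

/-- conjugation as a homomorphism -/
def cjH : A →* Equiv.Perm (A × A × A) where
  toFun := cjP
  map_one' := Equiv.ext cj3_one
  map_mul' g h := Equiv.ext (cj3_mul g h)

theorem cjH_apply (g : A) (t : A × A × A) : cjH g t = cj3 g t := rfl

variable {E : A × A × A → A × A × A}

theorem iter_cj3 (hcj : ∀ g t, E (cj3 g t) = cj3 g (E t)) (n : ℕ) (g : A) (t : A × A × A) :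
    E^[n] (cj3 g t) = cj3 g (E^[n] t) := by
  induction n generalizing t with
  | zero => rfl
  | succ n ih => rw [Function.iterate_succ_apply, Function.iterate_succ_apply, hcj, ih]

theorem iter_fix (hcj : ∀ g t, E (cj3 g t) = cj3 g (E t)) {h : A} {t : A × A × A}
    (ht : E t = cj3 h t) (n : ℕ) : E^[n] t = cj3 (h ^ n) t := by
  induction n with
  | zero => rw [pow_zero, cj3_one]; rfl
  | succ n ih =>
    rw [Function.iterate_succ_apply, ht, iter_cj3 hcj, ih, ← cj3_mul, pow_succ']

theorem cent_of_fix {z : A} {t : A × A × A} (h : cj3 z t = t) {x : A} (hx : x ∈ gen t) :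
    z * x = x * z := by
  have h1 : z * t.1 * z⁻¹ = t.1 := congrArg Prod.fst h
  have h2 : z * t.2.1 * z⁻¹ = t.2.1 := congrArg (fun s : A × A × A => s.2.1) h
  have h3 : z * t.2.2 * z⁻¹ = t.2.2 := congrArg (fun s : A × A × A => s.2.2) h
  have h4 : gen t ≤ Subgroup.centralizer {z} := by
    unfold gen
    rw [Subgroup.closure_le]
    rintro y (rfl | rfl | rfl)
    · exact Subgroup.mem_centralizer_singleton_iff.2 (by rw [mul_inv_eq_iff_eq_mul] at h1; exact h1.symm)
    · exact Subgroup.mem_centralizer_singleton_iff.2 (by rw [mul_inv_eq_iff_eq_mul] at h2; exact h2.symm)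
    · exact Subgroup.mem_centralizer_singleton_iff.2 (by rw [mul_inv_eq_iff_eq_mul] at h3; exact h3.symm)
  exact (Subgroup.mem_centralizer_singleton_iff.1 (h4 hx)).symm

theorem no_p_cent [Fact p.Prime] [Finite A] (hO : NoP p (⊤ : Subgroup A)) {t : A × A × A}
    (ht : Opr p (⊤ : Subgroup A) ≤ gen t) {z : A} (hz : cj3 z t = t) : ¬ p ∣ orderOf z := by
  intro hp
  have hp0 : 0 < p := (Fact.out : p.Prime).pos
  obtain ⟨n, hn⟩ := hp
  have hn0 : n ≠ 0 := by
    rintro rfl
    rw [mul_zero] at hn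
    exact (orderOf_pos z).ne' hn
  have h1 : orderOf (z ^ n) = p := by
    rw [orderOf_pow' z hn0, hn, Nat.gcd_eq_right (Dvd.intro_left p rfl),
      Nat.mul_div_cancel _ (Nat.pos_of_ne_zero hn0)]
  have h2 : Subgroup.zpowers (z ^ n) = ⊥ := by
    refine norm_trivial hO le_top (IsPGroup.of_card (n := 1) (by
      rw [Nat.card_zpowers, h1, pow_one])) ?_
    intro x hx
    have h3 : z ^ n * x = x * z ^ n := by
      have h4 : Commute z x := cent_of_fix hz (ht hx)
      exact (h4.pow_left n).eq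
    have h5 : x ∈ Subgroup.centralizer (Subgroup.zpowers (z ^ n) : Set A) := by
      rw [Subgroup.mem_centralizer_iff]
      rintro y ⟨k, rfl⟩
      have h6 : Commute (z ^ n) x := h3
      exact (h6.zpow_left k).eq
    exact Subgroup.centralizer_le_normalizer _ h5
  rw [Subgroup.zpowers_eq_bot] at h2
  rw [h2, orderOf_one] at h1
  exact (Fact.out : p.Prime).one_lt.ne h1

theorem no_fix [Fact p.Prime] [Finite A] {r : ℕ} (hE : IsRot (p ^ r) E)
    (hO : NoP p (⊤ : Subgroup A)) (hno : ∀ x : A, orderOf x ≠ p ^ (r + 1)) {t : A × A × A}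
    (ht : Opr p (⊤ : Subgroup A) ≤ gen t) (hu : Pel p (uu t)) (hu1 : uu t ≠ 1) {h : A}
    (hh : E t = cj3 h t) : False := by
  have hp : p.Prime := Fact.out
  set u := uu t with hudef
  have h1 : h * u * h⁻¹ = u := by
    have h2 := hE.u t
    rw [hh, uu_cj3'] at h2
    exact h2
  have h2 : cj3 (h ^ p ^ r) t = cj3 u t := by
    rw [← iter_fix hE.cj hh, hE.pow]
  set z := u⁻¹ * h ^ p ^ r with hz
  have h3 : cj3 z t = t := by
    rw [hz, cj3_mul, h2, ← cj3_mul, inv_mul_cancel, cj3_one]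
  have h4 := no_p_cent hO ht h3
  have hug : u ∈ gen t := by
    have h1 : t.1 ∈ gen t := Subgroup.subset_closure (by simp)
    have h2 : t.2.1 ∈ gen t := Subgroup.subset_closure (by simp)
    have h3 : t.2.2 ∈ gen t := Subgroup.subset_closure (by simp)
    exact mul_mem (mul_mem (mul_mem (mul_mem h1 h2) (inv_mem h1)) (inv_mem h2)) h3
  have h5 : Commute z u := cent_of_fix h3 hug
  have h6 : h ^ p ^ r = u * z := by rw [hz]; group
  have h7 : p ∣ orderOf (h ^ p ^ r) := by
    by_contra h8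
    obtain ⟨a, ha⟩ := hu
    have h9 : u ^ (orderOf (h ^ p ^ r) * orderOf z) = 1 := by
      have h10 : (h ^ p ^ r) ^ (orderOf (h ^ p ^ r) * orderOf z) = 1 := by
        rw [pow_mul, pow_orderOf_eq_one, one_pow]
      rw [h6, h5.symm.mul_pow] at h10
      have h11 : z ^ (orderOf (u * z) * orderOf z) = 1 := by
        rw [mul_comm, pow_mul, pow_orderOf_eq_one, one_pow]
      rw [h11, mul_one] at h10
      rw [h6]
      exact h10
    have h10 : Nat.Coprime (orderOf (h ^ p ^ r) * orderOf z) (p ^ a) := by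
      refine Nat.Coprime.pow_right a (Nat.Coprime.symm ?_)
      exact Nat.Coprime.mul_right ((Nat.Prime.coprime_iff_not_dvd hp).2 h8)
        ((Nat.Prime.coprime_iff_not_dvd hp).2 h4)
    have h11 : orderOf u ∣ 1 := by
      rw [← h10]
      exact Nat.dvd_gcd (orderOf_dvd_of_pow_eq_one h9) (orderOf_dvd_of_pow_eq_one ha)
    exact hu1 (orderOf_eq_one_iff.1 (Nat.dvd_one.1 h11))
  obtain ⟨n, hn⟩ := h7
  have hn0 : n ≠ 0 := by
    rintro rfl
    rw [mul_zero] at hn
    exact (orderOf_pos _).ne' hn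
  refine hno (h ^ n) (orderOf_eq_prime_pow (p := p) (n := r) (x := h ^ n) ?_ ?_)
  · intro h8
    rw [← pow_mul, mul_comm, pow_mul] at h8
    have h9 := orderOf_dvd_of_pow_eq_one h8
    rw [hn] at h9
    have h10 := Nat.le_of_dvd (Nat.pos_of_ne_zero hn0) h9
    have := hp.two_le
    nlinarith [Nat.pos_of_ne_zero hn0]
  · rw [← pow_mul, mul_comm, pow_succ, mul_assoc, pow_mul, ← hn]
    exact pow_orderOf_eq_one _

theorem gen_cj3 (g : A) (t : A × A × A) :
    gen (cj3 g t) = (gen t).map (MulAut.conj g).toMonoidHom := by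
  unfold gen cj3
  rw [MonoidHom.map_closure, Set.image_insert_eq, Set.image_insert_eq, Set.image_singleton]
  rfl

theorem map_Opr_top (g : A) :
    (Opr p (⊤ : Subgroup A)).map (MulAut.conj g).toMonoidHom = Opr p ⊤ := by
  have h := Opr_cg (p := p) g (⊤ : Subgroup A)
  have h1 : cg g (⊤ : Subgroup A) = ⊤ := by
    rw [eq_top_iff]
    intro x _
    rw [mem_cg]
    exact Subgroup.mem_top _
  rw [h1] at h
  exact h.symm

/-- the weight in `bB` -/
noncomputable def wB (p : ℕ) (m : A → ℤ) (t : A × A × A) : ℤ := by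
  classical
  exact if gen t ≤ (⊤ : Subgroup A) ∧ Opr p (⊤ : Subgroup A) ≤ gen t then dW p m t else 0

theorem wB_cj3 {m : A → ℤ} (hm : IsWt p ⊤ m) (g : A) (t : A × A × A) :
    wB p m (cj3 g t) = wB p m t := by
  classical
  have h1 : (gen (cj3 g t) ≤ ⊤ ∧ Opr p (⊤ : Subgroup A) ≤ gen (cj3 g t)) ↔
      (gen t ≤ ⊤ ∧ Opr p (⊤ : Subgroup A) ≤ gen t) := by
    refine and_congr ⟨fun _ => le_top, fun _ => le_top⟩ ?_
    rw [gen_cj3]
    conv_lhs => rw [← map_Opr_top (p := p) g]
    exact Subgroup.map_le_map_iff_of_injective (MulAut.conj g).injective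
  have h2 : (Pel p (uu (cj3 g t)) ∧ uu (cj3 g t) ≠ 1) ↔ (Pel p (uu t) ∧ uu t ≠ 1) := by
    rw [uu_cj3']
    refine and_congr ?_ (not_congr ?_)
    · unfold Pel
      refine exists_congr fun n => ?_
      rw [conj_pow]
      exact conj_eq_one_iff
    · exact conj_eq_one_iff
  have h3 : dW p m (cj3 g t) = dW p m t := by
    change (if Pel p (uu (cj3 g t)) ∧ uu (cj3 g t) ≠ 1 then m (g * t.2.2 * g⁻¹) else 0)
      = if Pel p (uu t) ∧ uu t ≠ 1 then m t.2.2 else 0
    rw [hm.conj g (Subgroup.mem_top g)]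
    exact if_congr h2 rfl rfl
  unfold wB
  rw [h3]
  exact if_congr h1 rfl rfl

theorem wB_E {q : ℕ} (hE : IsRot q E) {m : A → ℤ} (hm : IsWt p ⊤ m) (t : A × A × A) :
    wB p m (E t) = wB p m t := by
  classical
  have h3 : dW p m (E t) = dW p m t := by
    change (if Pel p (uu (E t)) ∧ uu (E t) ≠ 1 then m (E t).2.2 else 0)
      = if Pel p (uu t) ∧ uu t ≠ 1 then m t.2.2 else 0
    obtain ⟨g, hg⟩ := hE.c t
    rw [hE.u, hg, hm.conj g (Subgroup.mem_top g)]
  unfold wB
  rw [h3, hE.gn]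

theorem of_wB_ne {m : A → ℤ} {t : A × A × A} (h : wB p m t ≠ 0) :
    Opr p (⊤ : Subgroup A) ≤ gen t ∧ Pel p (uu t) ∧ uu t ≠ 1 := by
  classical
  unfold wB at h
  split_ifs at h with h1
  · refine ⟨h1.2, ?_⟩
    change (if Pel p (uu t) ∧ uu t ≠ 1 then m t.2.2 else 0) ≠ 0 at h
    by_contra h2
    exact h (if_neg h2)
  · exact absurd rfl h

/-- the index of the set of powers of `E` which preserve the orbit of `t` -/
theorem arith {p a b k s : ℕ} (hp : p.Prime) (hs : s = k * b) (hk : ¬ p ∣ k) (hi : p ∣ a)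
    (hb : b ≠ 0) (ha : a ≠ 0) : p * ordProj[p] s ∣ ordProj[p] (b * a) := by
  obtain ⟨i, rfl⟩ := hi
  have hi0 : i ≠ 0 := by rintro rfl; exact ha (mul_zero p)
  have hk0 : k ≠ 0 := by rintro rfl; exact hk (dvd_zero p)
  have h1 : ordProj[p] k = 1 := by
    rw [Nat.factorization_eq_zero_of_not_dvd hk, pow_zero]
  have h2 : ordProj[p] p = p := by
    rw [hp.factorization_self, pow_one]
  rw [hs, Nat.ordProj_mul p hk0 hb, h1, one_mul, Nat.ordProj_mul p hb ha,
    Nat.ordProj_mul p hp.ne_zero hi0, h2]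
  exact ⟨ordProj[p] i, by ring⟩

end RotAux

open RotAux

/-- A rotation of order `p ^ r` and no elements of order `p ^ (r + 1)`: the number of triples is
divisible by `p |A|_p`. -/
theorem rot_dvd [Fact p.Prime] [Finite A] {r : ℕ} {E : A × A × A → A × A × A}
    (hE : IsRot (p ^ r) E) (hO : NoP p (⊤ : Subgroup A))
    (hno : ∀ x : A, orderOf x ≠ p ^ (r + 1)) {m : A → ℤ} (hm : IsWt p ⊤ m) :
    (p : ℤ) * (ordProj[p] (Nat.card A) : ℕ) ∣ bB p (⊤ : Subgroup A) m := by
  classical
  have hp : p.Prime := Fact.out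
  have : Fintype A := Fintype.ofFinite A
  have hinj : Function.Injective E := by
    intro s t hst
    have h1 : E^[p ^ r] s = E^[p ^ r] t := by
      obtain ⟨n, hn⟩ := Nat.exists_eq_succ_of_ne_zero (pow_pos hp.pos r).ne'
      rw [hn, Function.iterate_succ_apply, Function.iterate_succ_apply, hst]
    rw [hE.pow, hE.pow] at h1
    have h2 : uu s = uu t := by rw [← hE.u s, hst, hE.u t]
    rw [h2] at h1
    exact (cjP (uu t)).injective h1
  let F : Equiv.Perm (A × A × A) := Equiv.ofBijective E (Finite.injective_iff_bijective.1 hinj)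
  have hFE : ∀ t, F t = E t := fun t => rfl
  let C : Subgroup (Equiv.Perm (A × A × A)) := Subgroup.zpowers F
  have hcomm : ∀ (g : A) (c : ↥C), Commute (cjH g) (C.subtype c) := by
    rintro g ⟨c, k, rfl⟩
    refine Commute.zpow_right ?_ k
    exact Equiv.ext fun t => (hE.cj g t).symm
  let Ψ : A × ↥C →* Equiv.Perm (A × A × A) := MonoidHom.noncommCoprod cjH C.subtype hcomm
  let _ : MulAction (A × ↥C) (A × A × A) := MulAction.compHom _ Ψ
  have hsm : ∀ (g : A) (c : ↥C) (t : A × A × A),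
      ((g, c) : A × ↥C) • t = cj3 g ((c : Equiv.Perm (A × A × A)) t) := fun _ _ _ => rfl
  have hwF : ∀ (k : ℤ) (t : A × A × A), wB p m ((F ^ k) t) = wB p m t := by
    have h1 : ∀ (n : ℕ) (t : A × A × A), wB p m ((F ^ n) t) = wB p m t := by
      intro n
      induction n with
      | zero => intro t; rfl
      | succ n ih =>
        intro t
        rw [pow_succ, Equiv.Perm.mul_apply, ih, hFE, wB_E hE hm]
    intro k t
    obtain ⟨n, rfl | rfl⟩ := k.eq_nat_or_neg
    · rw [zpow_natCast, h1]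
    · rw [← h1 n ((F ^ (-(n : ℤ))) t), ← Equiv.Perm.mul_apply, zpow_neg, zpow_natCast,
        mul_inv_cancel]
      rfl
  have key := orb_dvd_p (p := p) (T := A × ↥C) (X := A × A × A)
    (fun t => ((ordProj[p] (Nat.card C) : ℕ) : ℤ) * wB p m t) ?_ (p : ℤ) ?_
  · rw [← Finset.mul_sum, Nat.card_prod, Nat.ordProj_mul p Nat.card_pos.ne' Nat.card_pos.ne'] at key
    have h1 : (((ordProj[p] (Nat.card C) : ℕ) : ℤ)) ≠ 0 := by
      exact_mod_cast (Nat.ordProj_pos (Nat.card C) p).ne'
    have h2 : (p : ℤ) * ((ordProj[p] (Nat.card A) * ordProj[p] (Nat.card C) : ℕ) : ℤ)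
        = ((ordProj[p] (Nat.card C) : ℕ) : ℤ) * ((p : ℤ) * (ordProj[p] (Nat.card A) : ℕ)) := by
      push_cast
      ring
    rw [h2] at key
    have h3 := (mul_dvd_mul_iff_left h1).1 key
    unfold bB
    rw [finsum_eq_sum_of_fintype]
    exact h3
  · rintro ⟨g, c, k, rfl⟩ t
    simp only [hsm]
    rw [wB_cj3 hm, hwF]
  · intro t
    by_cases hw : wB p m t = 0
    · simp only [hw, mul_zero]
      exact dvd_zero _
    obtain ⟨ht, hu, hu1⟩ := of_wB_ne hw
    refine Dvd.dvd.mul_right ?_ _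
    let S : Subgroup (A × ↥C) := MulAction.stabilizer (A × ↥C) t
    let π : ↥S →* ↥C := (MonoidHom.snd A ↥C).comp S.subtype
    have hπ : ∀ s : ↥S, π s = (s : A × ↥C).2 := fun s => rfl
    have hker : ¬ p ∣ Nat.card π.ker := by
      intro h1
      obtain ⟨s, hs⟩ := exists_prime_orderOf_dvd_card' p h1
      have h2 : ((s : ↥S) : A × ↥C).2 = 1 := s.2
      have h3 : (((s : ↥S) : A × ↥C)) • t = t := (s : ↥S).2
      have h4 : cj3 ((s : ↥S) : A × ↥C).1 t = t := by
        have h5 := hsm ((s : ↥S) : A × ↥C).1 ((s : ↥S) : A × ↥C).2 t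
        rw [h2] at h5
        rw [← Prod.mk.eta (p := ((s : ↥S) : A × ↥C)), h2] at h3
        exact h5.symm.trans h3
      refine no_p_cent hO ht h4 ?_
      have h5 : ((s : ↥S) : A × ↥C).1 ^ p = 1 := by
        have h6 : s ^ p = 1 := by rw [← hs]; exact pow_orderOf_eq_one s
        have h7 := congrArg (fun s : ↥π.ker => ((s : ↥S) : A × ↥C).1) h6
        simpa using h7
      have h6 : ((s : ↥S) : A × ↥C).1 ≠ 1 := by
        intro h7
        have h8 : s = 1 := Subtype.ext (Subtype.ext (Prod.ext h7 h2))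
        rw [h8, orderOf_one] at hs
        exact hp.one_lt.ne hs
      rw [orderOf_eq_prime h5 h6]
    let E0 : ↥C := ⟨F, Subgroup.mem_zpowers F⟩
    have hcm : ∀ a b : ↥C, a * b = b * a := by
      rintro ⟨a, i, rfl⟩ ⟨b, j, rfl⟩
      apply Subtype.ext
      exact zpow_mul_comm F i j
    have hN : π.range.Normal := ⟨fun n hn g => by
      rw [hcm g n, mul_inv_cancel_right]
      exact hn⟩
    have hidx : p ∣ π.range.index := by
      have h1 : E0 ^ p ^ r ∈ π.range := by
        refine ⟨⟨((uu t)⁻¹, E0 ^ p ^ r), ?_⟩, rfl⟩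
        change cj3 (uu t)⁻¹ ((F ^ p ^ r) t) = t
        rw [← Equiv.Perm.iterate_eq_pow]
        change cj3 (uu t)⁻¹ (E^[p ^ r] t) = t
        rw [hE.pow, ← cj3_mul, inv_mul_cancel, cj3_one]
      have h2 : E0 ∉ π.range := by
        rintro ⟨s, hs⟩
        rw [hπ] at hs
        have h3 : ((s : A × ↥C)) • t = t := s.2
        have h4 := hsm (s : A × ↥C).1 (s : A × ↥C).2 t
        rw [Prod.mk.eta, h3, hs] at h4
        have h5 : t = cj3 (s : A × ↥C).1 (E t) := h4
        refine no_fix hE hO hno ht hu hu1 (h := ((s : A × ↥C).1)⁻¹) ?_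
        conv_rhs => rw [h5]
        rw [← cj3_mul, inv_mul_cancel, cj3_one]
      have h3 : (QuotientGroup.mk E0 : ↥C ⧸ π.range) ^ p ^ r = 1 := by
        rw [← QuotientGroup.mk_pow, QuotientGroup.eq_one_iff]
        exact h1
      obtain ⟨j, _, hj⟩ := (Nat.dvd_prime_pow hp).1 (orderOf_dvd_of_pow_eq_one h3)
      have h4 : j ≠ 0 := by
        rintro rfl
        rw [pow_zero, orderOf_eq_one_iff, QuotientGroup.eq_one_iff] at hj
        exact h2 hj
      have h5 : p ∣ orderOf (QuotientGroup.mk E0 : ↥C ⧸ π.range) := by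
        rw [hj]
        exact dvd_pow_self p h4
      exact h5.trans (orderOf_dvd_natCard _)
    have h1 : Nat.card ↥S = Nat.card π.ker * Nat.card π.range := by
      rw [← Subgroup.index_ker, Subgroup.card_mul_index]
    have h2 := arith hp h1 hker hidx Nat.card_pos.ne' π.range.index_ne_zero_of_finite
    rw [Subgroup.card_mul_index] at h2
    exact_mod_cast h2

end Pool.Agent.Lib.P0c8ca5
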