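import Mathlib
import Pool.Agent.Lib.P0c8ca5V.Rot

/-! Rotations of triples: the number of triples and the number of fixed triples. -/

namespace Pool.Agent.Lib.P0c8ca5

variable {p : ℕ} {A : Type*} [Group A]

/-- the number of the p-elements `x` such that `E t` is the conjugate of `t` by `x` -/
noncomputable def nX (p : ℕ) (E : A × A × A → A × A × A) (t : A × A × A) : ℕ :=
  Nat.card {x : A // Pel p x ∧ E t = cj3 x t}

open RotAux

namespace RotPAux

variable {E : A × A × A → A × A × A}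

theorem E_inj [Fact p.Prime] {r : ℕ} (hE : IsRot (p ^ r) E) : Function.Injective E := by
  intro s t hst
  have h1 : E^[p ^ r] s = E^[p ^ r] t := by
    obtain ⟨n, hn⟩ := Nat.exists_eq_succ_of_ne_zero (pow_pos (Fact.out : p.Prime).pos r).ne'
    rw [hn, Function.iterate_succ_apply, Function.iterate_succ_apply, hst]
  rw [hE.pow, hE.pow] at h1
  have h2 : uu s = uu t := by rw [← hE.u s, hst, hE.u t]
  rw [h2] at h1
  exact (cjP (uu t)).injective h1

theorem nX_E [Fact p.Prime] {r : ℕ} (hE : IsRot (p ^ r) E) (t : A × A × A) :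
    nX p E (E t) = nX p E t := by
  unfold nX
  refine Nat.card_congr (Equiv.subtypeEquivRight fun x => and_congr Iff.rfl ?_)
  rw [← hE.cj]
  exact ⟨fun h => E_inj hE h, fun h => congrArg E h⟩

theorem pel_conj' (g x : A) : Pel p (g * x * g⁻¹) ↔ Pel p x := by
  unfold Pel
  refine exists_congr fun n => ?_
  rw [conj_pow]
  exact conj_eq_one_iff

theorem nX_cj3 {q : ℕ} (hE : IsRot q E) (g : A) (t : A × A × A) :
    nX p E (cj3 g t) = nX p E t := by
  unfold nX
  refine (Nat.card_congr (Equiv.subtypeEquiv (MulAut.conj g).toEquiv fun x => ?_)).symm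
  change _ ↔ Pel p (g * x * g⁻¹) ∧ E (cj3 g t) = cj3 (g * x * g⁻¹) (cj3 g t)
  rw [pel_conj', hE.cj, ← cj3_mul]
  refine and_congr Iff.rfl ?_
  have h1 : g * x * g⁻¹ * g = g * x := by group
  rw [h1, cj3_mul]
  exact ⟨fun h => congrArg _ h, fun h => (cjP g).injective h⟩

/-- A fixed class: the number of the p-elements inducing `E` is 1 modulo p. -/
theorem nX_mod [Fact p.Prime] [Finite A] {r : ℕ} (hE : IsRot (p ^ r) E)
    (hO : NoP p (⊤ : Subgroup A)) {t : A × A × A}
    (ht : Opr p (⊤ : Subgroup A) ≤ gen t) (hu : Pel p (uu t)) {h : A}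
    (hh : E t = cj3 h t) : (p : ℤ) ∣ 1 - (nX p E t : ℤ) := by
  classical
  have hp : p.Prime := Fact.out
  have : Fintype A := Fintype.ofFinite A
  have hEi := E_inj hE
  set u := uu t with hudef
  have h1 : h * u * h⁻¹ = u := by
    have h2 := hE.u t
    rw [hh, uu_cj3'] at h2
    exact h2
  have hcomm : Commute h u := mul_inv_eq_iff_eq_mul.1 h1
  have h2 : cj3 (h ^ p ^ r) t = cj3 u t := by
    rw [← iter_fix hE.cj hh, hE.pow]
  have h3 : ∀ n : ℕ, cj3 ((h ^ p ^ r) ^ n) t = cj3 (u ^ n) t := by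
    intro n
    induction n with
    | zero => rw [pow_zero, pow_zero]
    | succ n ih =>
      have h4 : (h ^ p ^ r) ^ n * u = u * (h ^ p ^ r) ^ n :=
        ((hcomm.pow_left _).pow_left _).eq
      rw [pow_succ, cj3_mul, h2, ← cj3_mul, h4, cj3_mul, ih, ← cj3_mul, ← pow_succ']
  obtain ⟨l, hl⟩ := hu
  have fixpow : ∀ g : A, cj3 g t = t → ∀ n : ℕ, cj3 (g ^ n) t = t := by
    intro g hg n
    induction n with
    | zero => rw [pow_zero, cj3_one]
    | succ n ih => rw [pow_succ, cj3_mul, hg, ih]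
  set y := pr p h with hy
  have h4 : cj3 (y ^ p ^ (r + l)) t = t := by
    have h5 : cj3 (h ^ p ^ (r + l)) t = t := by
      rw [pow_add, pow_mul, h3, hl, cj3_one]
    have h7 : y ^ p ^ (r + l) = (h ^ p ^ (r + l)) ^ uexp p A := by
      rw [hy]; unfold pr; rw [← pow_mul, ← pow_mul, mul_comm]
    rw [h7, fixpow _ h5]
  have h5 : cj3 y t = t := by
    have h6 : (p ^ (r + l)).Coprime (orderOf y) :=
      Nat.Coprime.pow_left _ ((Nat.Prime.coprime_iff_not_dvd hp).2 (preg_pr h))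
    obtain ⟨m, hm⟩ := exists_pow_eq_self_of_coprime h6
    rw [← hm, fixpow _ h4]
  have hyinv : cj3 y⁻¹ t = t := by
    conv_lhs => rw [← h5]
    rw [← cj3_mul, inv_mul_cancel, cj3_one]
  obtain ⟨x0, hx0⟩ : ∃ x0, x0 = h * y⁻¹ := ⟨_, rfl⟩
  have hx0p : Pel p x0 := by rw [hx0]; exact exists_pow_mul_inv_pr h
  have hx0t : E t = cj3 x0 t := by
    rw [hx0, cj3_mul, hyinv, hh]
  have hcent : ∀ x : A, E t = cj3 x t → cj3 (x0⁻¹ * x) t = t := by
    intro x hxt
    rw [cj3_mul, ← hxt, hx0t, ← cj3_mul, inv_mul_cancel, cj3_one]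
  have hstab : ∀ x : A, Pel p x ∧ E t = cj3 x t →
      Pel p (x0 * x * x0⁻¹) ∧ E t = cj3 (x0 * x * x0⁻¹) t := by
    rintro x ⟨hx, hxt⟩
    refine ⟨(pel_conj' x0 x).2 hx, ?_⟩
    have hc := hcent x hxt
    have hs : E (cj3 x0⁻¹ t) = t := by
      rw [hE.cj, hx0t, ← cj3_mul, inv_mul_cancel, cj3_one]
    have hcs : cj3 (x0⁻¹ * x) (cj3 x0⁻¹ t) = cj3 x0⁻¹ t := by
      apply hEi
      rw [hE.cj, hs, hc]
    have e1 : x0 * x * x0⁻¹ = x0 * (x0 * (x0⁻¹ * x) * x0⁻¹) := by group
    rw [e1, cj3_mul, cj3_mul (x0 * (x0⁻¹ * x)), cj3_mul x0 (x0⁻¹ * x), hcs, ← cj3_mul x0 x0⁻¹,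
      mul_inv_cancel, cj3_one, hx0t]
  let S := {x : A // Pel p x ∧ E t = cj3 x t}
  let f : Function.End S := fun s => ⟨x0 * s.1 * x0⁻¹, hstab s.1 s.2⟩
  have hf1 : ∀ (n : ℕ) (s : S), ((f ^ n) s : A) = x0 ^ n * s.1 * (x0 ^ n)⁻¹ := by
    intro n
    induction n with
    | zero =>
      intro s
      rw [pow_zero, pow_zero, one_mul, inv_one, mul_one]
      rfl
    | succ n ih =>
      intro s
      have h6 : (f ^ (n + 1)) s = f ((f ^ n) s) := by rw [pow_succ']; rfl
      rw [h6]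
      change x0 * ((f ^ n) s : A) * x0⁻¹ = _
      rw [ih, pow_succ']
      group
  obtain ⟨n, hn⟩ := hx0p
  have hf : f ^ p ^ n = 1 := by
    funext s
    apply Subtype.ext
    rw [hf1, hn, one_mul, inv_one, mul_one]
    rfl
  have h6 := Equiv.Perm.card_fixedPoints_modEq hf
  have h7 : Fintype.card (Function.fixedPoints f) = 1 := by
    rw [Fintype.card_eq_one_iff]
    have hx0S : Pel p x0 ∧ E t = cj3 x0 t := ⟨⟨n, hn⟩, hx0t⟩
    refine ⟨⟨⟨x0, hx0S⟩, ?_⟩, ?_⟩
    · apply Subtype.ext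
      change x0 * x0 * x0⁻¹ = x0
      group
    · rintro ⟨⟨x, hx, hxt⟩, hfx⟩
      have h8 : x0 * x * x0⁻¹ = x := congrArg Subtype.val hfx
      have h9 : Commute x0 x := mul_inv_eq_iff_eq_mul.1 h8
      have h10 := no_p_cent hO ht (hcent x hxt)
      obtain ⟨m, hm⟩ := hx
      have h11 : (x0⁻¹ * x) ^ p ^ (n + m) = 1 := by
        rw [h9.inv_left.mul_pow, inv_pow, pow_add, pow_mul x0, hn, one_pow, inv_one, one_mul,
          mul_comm (p ^ n), pow_mul, hm, one_pow]
      have h12 : orderOf (x0⁻¹ * x) = 1 := by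
        have h13 : Nat.Coprime (orderOf (x0⁻¹ * x)) (p ^ (n + m)) :=
          Nat.Coprime.pow_right _ ((Nat.Prime.coprime_iff_not_dvd hp).2 h10).symm
        exact Nat.dvd_one.1 (h13 ▸ Nat.dvd_gcd dvd_rfl (orderOf_dvd_of_pow_eq_one h11))
      rw [orderOf_eq_one_iff] at h12
      apply Subtype.ext
      apply Subtype.ext
      exact (inv_mul_eq_one.1 h12).symm
  rw [h7] at h6
  have h8 : nX p E t = Fintype.card S := by
    unfold nX
    exact Nat.card_eq_fintype_card
  rw [h8]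
  exact (Nat.modEq_iff_dvd).1 h6

theorem arith' {p a b k s : ℕ} (hp : p.Prime) (hs : s = k * b) (hk : ¬ p ∣ k) (ha : a ≠ 0)
    (hb : b ≠ 0) : ordProj[p] s ∣ ordProj[p] (b * a) := by
  have hk0 : k ≠ 0 := by rintro rfl; exact hk (dvd_zero p)
  have h1 : ordProj[p] k = 1 := by
    rw [Nat.factorization_eq_zero_of_not_dvd hk, pow_zero]
  rw [hs, Nat.ordProj_mul p hk0 hb, h1, one_mul, Nat.ordProj_mul p hb ha]
  exact dvd_mul_right _ _

end RotPAux

open RotPAux in
/-- The number of triples is congruent to the number of pairs `(x, t)`, `x` a p-element such that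
`E t` is the conjugate of `t` by `x`. -/
theorem rot_congr [Fact p.Prime] [Finite A] {r : ℕ} {E : A × A × A → A × A × A}
    (hE : IsRot (p ^ r) E) (hO : NoP p (⊤ : Subgroup A)) {m : A → ℤ} (hm : IsWt p ⊤ m) :
    (p : ℤ) * (ordProj[p] (Nat.card A) : ℕ) ∣
      bB p (⊤ : Subgroup A) m - ∑ᶠ t : A × A × A, wB p m t * (nX p E t : ℤ) := by
  classical
  have hp : p.Prime := Fact.out
  have : Fintype A := Fintype.ofFinite A
  have hinj := RotPAux.E_inj hE
  let F : Equiv.Perm (A × A × A) := Equiv.ofBijective E (Finite.injective_iff_bijective.1 hinj)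
  have hFE : ∀ t, F t = E t := fun t => rfl
  let C : Subgroup (Equiv.Perm (A × A × A)) := Subgroup.zpowers F
  have hcomm : ∀ (g : A) (c : ↥C), Commute (cjH g) (C.subtype c) := by
    rintro g ⟨c, k, rfl⟩
    refine Commute.zpow_right ?_ k
    exact Equiv.ext fun t => (hE.cj g t).symm
  let Ψ : A × ↥C →* Equiv.Perm (A × A × A) := MonoidHom.noncommCoprod cjH C.subtype hcomm
  let _ : MulAction (A × ↥C) (A × A × A) := MulAction.compHom _ Ψ
  have hsm : ∀ (g : A) (c : ↥C) (t : A × A × A),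
      ((g, c) : A × ↥C) • t = cj3 g ((c : Equiv.Perm (A × A × A)) t) := fun _ _ _ => rfl
  have hwF : ∀ (k : ℤ) (t : A × A × A), wB p m ((F ^ k) t) = wB p m t := by
    have h1 : ∀ (n : ℕ) (t : A × A × A), wB p m ((F ^ n) t) = wB p m t := by
      intro n
      induction n with
      | zero => intro t; rfl
      | succ n ih =>
        intro t
        rw [pow_succ, Equiv.Perm.mul_apply, ih, hFE, wB_E hE hm]
    intro k t
    obtain ⟨n, rfl | rfl⟩ := k.eq_nat_or_neg
    · rw [zpow_natCast, h1]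
    · rw [← h1 n ((F ^ (-(n : ℤ))) t), ← Equiv.Perm.mul_apply, zpow_neg, zpow_natCast,
        mul_inv_cancel]
      rfl
  have hnF : ∀ (k : ℤ) (t : A × A × A), nX p E ((F ^ k) t) = nX p E t := by
    have h1 : ∀ (n : ℕ) (t : A × A × A), nX p E ((F ^ n) t) = nX p E t := by
      intro n
      induction n with
      | zero => intro t; rfl
      | succ n ih =>
        intro t
        rw [pow_succ, Equiv.Perm.mul_apply, ih, hFE, RotPAux.nX_E hE]
    intro k t
    obtain ⟨n, rfl | rfl⟩ := k.eq_nat_or_neg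
    · rw [zpow_natCast, h1]
    · rw [← h1 n ((F ^ (-(n : ℤ))) t), ← Equiv.Perm.mul_apply, zpow_neg, zpow_natCast,
        mul_inv_cancel]
      rfl
  have key := orb_dvd_p (p := p) (T := A × ↥C) (X := A × A × A)
    (fun t => ((ordProj[p] (Nat.card C) : ℕ) : ℤ) * (wB p m t * (1 - (nX p E t : ℤ)))) ?_ (p : ℤ) ?_
  · rw [← Finset.mul_sum, Nat.card_prod, Nat.ordProj_mul p Nat.card_pos.ne' Nat.card_pos.ne'] at key
    have h1 : (((ordProj[p] (Nat.card C) : ℕ) : ℤ)) ≠ 0 := by
      exact_mod_cast (Nat.ordProj_pos (Nat.card C) p).ne'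
    have h2 : (p : ℤ) * ((ordProj[p] (Nat.card A) * ordProj[p] (Nat.card C) : ℕ) : ℤ)
        = ((ordProj[p] (Nat.card C) : ℕ) : ℤ) * ((p : ℤ) * (ordProj[p] (Nat.card A) : ℕ)) := by
      push_cast
      ring
    rw [h2] at key
    have h3 := (mul_dvd_mul_iff_left h1).1 key
    have h4 : bB p (⊤ : Subgroup A) m - ∑ᶠ t : A × A × A, wB p m t * (nX p E t : ℤ)
        = ∑ t : A × A × A, wB p m t * (1 - (nX p E t : ℤ)) := by
      unfold bB
      rw [finsum_eq_sum_of_fintype, finsum_eq_sum_of_fintype, ← Finset.sum_sub_distrib]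
      refine Finset.sum_congr rfl fun t _ => ?_
      unfold wB
      ring
    rw [h4]
    exact h3
  · rintro ⟨g, c, k, rfl⟩ t
    simp only [hsm]
    rw [wB_cj3 hm, hwF, RotPAux.nX_cj3 hE, hnF]
  · intro t
    by_cases hw : wB p m t = 0
    · simp only [hw, zero_mul, mul_zero]
      exact dvd_zero _
    obtain ⟨ht, hu, hu1⟩ := of_wB_ne hw
    let S : Subgroup (A × ↥C) := MulAction.stabilizer (A × ↥C) t
    let π : ↥S →* ↥C := (MonoidHom.snd A ↥C).comp S.subtype
    have hπ : ∀ s : ↥S, π s = (s : A × ↥C).2 := fun s => rfl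
    have hker : ¬ p ∣ Nat.card π.ker := by
      intro h1
      obtain ⟨s, hs⟩ := exists_prime_orderOf_dvd_card' p h1
      have h2 : ((s : ↥S) : A × ↥C).2 = 1 := s.2
      have h3 : (((s : ↥S) : A × ↥C)) • t = t := (s : ↥S).2
      have h4 : cj3 ((s : ↥S) : A × ↥C).1 t = t := by
        have h5 := hsm ((s : ↥S) : A × ↥C).1 ((s : ↥S) : A × ↥C).2 t
        rw [h2] at h5
        rw [← Prod.mk.eta (p := ((s : ↥S) : A × ↥C)), h2] at h3
        exact h5.symm.trans h3
      refine no_p_cent hO ht h4 ?_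
      have h5 : ((s : ↥S) : A × ↥C).1 ^ p = 1 := by
        have h6 : s ^ p = 1 := by rw [← hs]; exact pow_orderOf_eq_one s
        have h7 := congrArg (fun s : ↥π.ker => ((s : ↥S) : A × ↥C).1) h6
        simpa using h7
      have h6 : ((s : ↥S) : A × ↥C).1 ≠ 1 := by
        intro h7
        have h8 : s = 1 := Subtype.ext (Subtype.ext (Prod.ext h7 h2))
        rw [h8, orderOf_one] at hs
        exact hp.one_lt.ne hs
      rw [orderOf_eq_prime h5 h6]
    let E0 : ↥C := ⟨F, Subgroup.mem_zpowers F⟩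
    have hcm : ∀ a b : ↥C, a * b = b * a := by
      rintro ⟨a, i, rfl⟩ ⟨b, j, rfl⟩
      apply Subtype.ext
      exact zpow_mul_comm F i j
    have hN : π.range.Normal := ⟨fun n hn g => by
      rw [hcm g n, mul_inv_cancel_right]
      exact hn⟩
    have h1 : Nat.card ↥S = Nat.card π.ker * Nat.card π.range := by
      rw [← Subgroup.index_ker, Subgroup.card_mul_index]
    by_cases hfix : ∃ h : A, E t = cj3 h t
    · obtain ⟨h, hh⟩ := hfix
      obtain ⟨q, hq⟩ := RotPAux.nX_mod hE hO ht hu hh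
      have h2 := arith' hp h1 hker π.range.index_ne_zero_of_finite Nat.card_pos.ne'
      rw [Subgroup.card_mul_index] at h2
      obtain ⟨i, hi⟩ := h2
      refine ⟨(i : ℤ) * (wB p m t * q), ?_⟩
      rw [hq, hi]
      push_cast
      ring
    refine Dvd.dvd.mul_right ?_ _
    have hidx : p ∣ π.range.index := by
      have h1 : E0 ^ p ^ r ∈ π.range := by
        refine ⟨⟨((uu t)⁻¹, E0 ^ p ^ r), ?_⟩, rfl⟩
        change cj3 (uu t)⁻¹ ((F ^ p ^ r) t) = t
        rw [← Equiv.Perm.iterate_eq_pow]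
        change cj3 (uu t)⁻¹ (E^[p ^ r] t) = t
        rw [hE.pow, ← cj3_mul, inv_mul_cancel, cj3_one]
      have h2 : E0 ∉ π.range := by
        rintro ⟨s, hs⟩
        rw [hπ] at hs
        have h3 : ((s : A × ↥C)) • t = t := s.2
        have h4 := hsm (s : A × ↥C).1 (s : A × ↥C).2 t
        rw [Prod.mk.eta, h3, hs] at h4
        have h5 : t = cj3 (s : A × ↥C).1 (E t) := h4
        refine hfix ⟨((s : A × ↥C).1)⁻¹, ?_⟩
        conv_rhs => rw [h5]
        rw [← cj3_mul, inv_mul_cancel, cj3_one]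
      have h3 : (QuotientGroup.mk E0 : ↥C ⧸ π.range) ^ p ^ r = 1 := by
        rw [← QuotientGroup.mk_pow, QuotientGroup.eq_one_iff]
        exact h1
      obtain ⟨j, _, hj⟩ := (Nat.dvd_prime_pow hp).1 (orderOf_dvd_of_pow_eq_one h3)
      have h4 : j ≠ 0 := by
        rintro rfl
        rw [pow_zero, orderOf_eq_one_iff, QuotientGroup.eq_one_iff] at hj
        exact h2 hj
      have h5 : p ∣ orderOf (QuotientGroup.mk E0 : ↥C ⧸ π.range) := by
        rw [hj]
        exact dvd_pow_self p h4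
      exact h5.trans (orderOf_dvd_natCard _)
    have h2 := arith hp h1 hker hidx Nat.card_pos.ne' π.range.index_ne_zero_of_finite
    rw [Subgroup.card_mul_index] at h2
    exact_mod_cast h2

end Pool.Agent.Lib.P0c8ca5
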