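import Mathlib
import Pool.Agent.Lib.P0c8ca5V.RotP

/-! Fixed triples as pairs. -/

namespace Pool.Agent.Lib.P0c8ca5

variable {p : ℕ} {A : Type*} [Group A]

/-- a parametrization of the fixed triples by the elements `z` with `z ^ s = 1` -/
structure IsPar (q s : ℕ) (E : A × A × A → A × A × A) (T : A → A → A × A × A) : Prop where
  fix : ∀ x z, z ^ s = 1 → E (T x z) = cj3 x (T x z)
  u : ∀ x z, z ^ s = 1 → uu (T x z) = x ^ q
  surj : ∀ x t, E t = cj3 x t → uu t = x ^ q → ∃ z, z ^ s = 1 ∧ t = T x z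
  inj : ∀ x z z', T x z = T x z' → z = z'
  cc : ∀ x z, z ^ s = 1 → ∃ g, (T x z).2.2 = g * (x * z) ^ q * g⁻¹
  le : ∀ x z, gen (T x z) ≤ Subgroup.closure {x, z}
  zz : ∀ x z, ∃ i : ℤ, x ^ i * z ∈ gen (T x z)

open Classical in
/-- the pairs `(x, z)`, `x` a p-element with `x ^ q ≠ 1`, `z ^ s = 1`, generating a subgroup that
contains all p-regular elements, weighted by `m` at `(x z) ^ q` -/
noncomputable def pB (p q s : ℕ) (m : A → ℤ) : ℤ :=
  ∑ᶠ y : A × A, if Pel p y.1 ∧ y.1 ^ q ≠ 1 ∧ y.2 ^ s = 1 ∧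
    Opr p (⊤ : Subgroup A) ≤ Subgroup.closure {y.1, y.2} then m ((y.1 * y.2) ^ q) else 0

open RotAux

namespace ParAux

/-- powers in an extension by a normalizing element -/
theorem pow_mem_of {K : Subgroup A} {x y : A} (hx : x ∈ Subgroup.normalizer (K : Set A)) {i : ℤ}
    (hy : y * x ^ i ∈ K) (n : ℕ) : y ^ n * x ^ (i * n) ∈ K := by
  induction n with
  | zero => simp
  | succ n ih =>
    have h1 : x ^ (-(i * n)) * (y * x ^ i) * (x ^ (-(i * n)))⁻¹ ∈ K :=
      (Subgroup.mem_normalizer_iff.1 (zpow_mem hx _) _).1 hy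
    have h2 : y ^ (n + 1) * x ^ (i * ((n + 1 : ℕ) : ℤ))
        = (y ^ n * x ^ (i * n)) * (x ^ (-(i * n)) * (y * x ^ i) * (x ^ (-(i * n)))⁻¹) := by
      have h3 : x ^ (i * ((n + 1 : ℕ) : ℤ)) = x ^ i * x ^ (i * (n : ℤ)) := by
        rw [← zpow_add]
        congr 1
        push_cast
        ring
      rw [h3, pow_succ, zpow_neg]
      group
    rw [h2]
    exact mul_mem ih h1

/-- the subgroup of the elements of the form `k x ^ i` -/
def ext (K : Subgroup A) (x : A) (hx : x ∈ Subgroup.normalizer (K : Set A)) : Subgroup A where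
  carrier := {y | ∃ i : ℤ, y * x ^ i ∈ K}
  one_mem' := ⟨0, by simp⟩
  mul_mem' := by
    rintro y y' ⟨i, hi⟩ ⟨j, hj⟩
    refine ⟨j + i, ?_⟩
    have h1 : x ^ (-i) * (y' * x ^ j) * (x ^ (-i))⁻¹ ∈ K :=
      (Subgroup.mem_normalizer_iff.1 (zpow_mem hx _) _).1 hj
    have h2 : y * y' * x ^ (j + i) = (y * x ^ i) * (x ^ (-i) * (y' * x ^ j) * (x ^ (-i))⁻¹) := by
      rw [zpow_add, zpow_neg]
      group
    rw [h2]
    exact mul_mem hi h1
  inv_mem' := by
    rintro y ⟨i, hi⟩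
    refine ⟨-i, ?_⟩
    have h1 : x ^ i * (y * x ^ i)⁻¹ * (x ^ i)⁻¹ ∈ K :=
      (Subgroup.mem_normalizer_iff.1 (zpow_mem hx _) _).1 (inv_mem hi)
    have h2 : y⁻¹ * x ^ (-i) = x ^ i * (y * x ^ i)⁻¹ * (x ^ i)⁻¹ := by
      rw [zpow_neg]
      group
    change y⁻¹ * x ^ (-i) ∈ K
    rw [h2]
    exact h1

theorem norm_gen {q : ℕ} {E : A × A × A → A × A × A} (hE : IsRot q E) {t : A × A × A} {x : A}
    (h : E t = cj3 x t) : x ∈ Subgroup.normalizer (gen t : Set A) := by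
  have h1 : (gen t).map (MulAut.conj x).toMonoidHom = gen t := by
    rw [← gen_cj3, ← h, hE.gn]
  rw [Subgroup.mem_normalizer_iff]
  intro y
  constructor
  · intro hy
    rw [← h1]
    exact ⟨y, hy, rfl⟩
  · intro hy
    rw [← h1] at hy
    obtain ⟨y', hy', h2⟩ := hy
    have h3 : x * y' * x⁻¹ = x * y * x⁻¹ := h2
    have h4 : y' = y := by simpa using h3
    rw [← h4]
    exact hy'

theorem opr_iff [Fact p.Prime] [Finite A] {q r s : ℕ} {E : A × A × A → A × A × A}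
    {T : A → A → A × A × A} (hE : IsRot (p ^ r) E) (hT : IsPar q s E T) {x z : A}
    (hx : Pel p x) (hz : z ^ s = 1) :
    Opr p (⊤ : Subgroup A) ≤ gen (T x z) ↔
      Opr p (⊤ : Subgroup A) ≤ Subgroup.closure {x, z} := by
  refine ⟨fun h => h.trans (hT.le x z), fun h => ?_⟩
  have hn := norm_gen hE (hT.fix x z hz)
  have h1 : Subgroup.closure {x, z} ≤ ext (gen (T x z)) x hn := by
    rw [Subgroup.closure_le]
    rintro y (rfl | rfl)
    · exact ⟨-1, by simp⟩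
    · obtain ⟨i, hi⟩ := hT.zz x y
      refine ⟨i, ?_⟩
      have h2 : x ^ (-i) * (x ^ i * y) * (x ^ (-i))⁻¹ ∈ gen (T x y) :=
        (Subgroup.mem_normalizer_iff.1 (zpow_mem hn _) _).1 hi
      have h3 : y * x ^ i = x ^ (-i) * (x ^ i * y) * (x ^ (-i))⁻¹ := by
        rw [zpow_neg]
        group
      rw [h3]
      exact h2
  have h2 : Opr p (⊤ : Subgroup A) = Subgroup.closure {y | y ∈ (⊤ : Subgroup A) ∧ Preg p y} := rfl
  rw [h2, Subgroup.closure_le]
  rintro y ⟨_, hy⟩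
  have h3 : y ∈ Opr p (⊤ : Subgroup A) := Subgroup.subset_closure ⟨Subgroup.mem_top y, hy⟩
  obtain ⟨i, hi⟩ := h1 (h h3)
  obtain ⟨n, hn'⟩ := hx
  have h4 := pow_mem_of hn hi (p ^ n)
  have h5 : x ^ (i * ((p ^ n : ℕ) : ℤ)) = 1 := by
    rw [mul_comm, zpow_mul, zpow_natCast, hn', one_zpow]
  rw [h5, mul_one] at h4
  exact mem_of_preg hy h4

theorem uu_eq [Fact p.Prime] [Finite A] {r : ℕ} {E : A × A × A → A × A × A}
    (hE : IsRot (p ^ r) E) (hO : NoP p (⊤ : Subgroup A)) {t : A × A × A} {x : A}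
    (ht : Opr p (⊤ : Subgroup A) ≤ gen t) (hu : Pel p (uu t)) (hx : Pel p x)
    (h : E t = cj3 x t) : uu t = x ^ p ^ r := by
  have hp : p.Prime := Fact.out
  have h1 : x * uu t * x⁻¹ = uu t := by
    have h2 := hE.u t
    rw [h, uu_cj3'] at h2
    exact h2
  have hcomm : Commute x (uu t) := mul_inv_eq_iff_eq_mul.1 h1
  have h2 : cj3 (x ^ p ^ r) t = cj3 (uu t) t := by
    rw [← iter_fix hE.cj h, hE.pow]
  have h3 : cj3 ((uu t)⁻¹ * x ^ p ^ r) t = t := by
    rw [cj3_mul, h2, ← cj3_mul, inv_mul_cancel, cj3_one]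
  have h4 := no_p_cent hO ht h3
  obtain ⟨n, hn⟩ := hu
  obtain ⟨m, hm⟩ := hx
  have h5 : ((uu t)⁻¹ * x ^ p ^ r) ^ p ^ (n + m) = 1 := by
    have h6 : Commute (uu t)⁻¹ (x ^ p ^ r) := (hcomm.symm.inv_left).pow_right _
    rw [h6.mul_pow, inv_pow, pow_add, pow_mul (uu t), hn, one_pow, inv_one, one_mul,
      mul_comm (p ^ n), ← pow_mul, mul_comm (p ^ r), pow_mul, pow_mul, hm, one_pow, one_pow]
  have h6 : orderOf ((uu t)⁻¹ * x ^ p ^ r) = 1 := by
    have h13 : Nat.Coprime (orderOf ((uu t)⁻¹ * x ^ p ^ r)) (p ^ (n + m)) :=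
      Nat.Coprime.pow_right _ ((Nat.Prime.coprime_iff_not_dvd hp).2 h4).symm
    exact Nat.dvd_one.1 (h13 ▸ Nat.dvd_gcd dvd_rfl (orderOf_dvd_of_pow_eq_one h5))
  rw [orderOf_eq_one_iff] at h6
  exact (inv_mul_eq_one.1 h6)

end ParAux

open ParAux

theorem par_sum [Fact p.Prime] [Finite A] {r s : ℕ} {E : A × A × A → A × A × A}
    {T : A → A → A × A × A} (hE : IsRot (p ^ r) E) (hT : IsPar (p ^ r) s E T)
    (hO : NoP p (⊤ : Subgroup A)) {m : A → ℤ} (hm : IsWt p ⊤ m) :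
    ∑ᶠ t : A × A × A, wB p m t * (nX p E t : ℤ) = pB p (p ^ r) s m := by
  classical
  have : Fintype A := Fintype.ofFinite A
  unfold pB
  rw [finsum_eq_sum_of_fintype, finsum_eq_sum_of_fintype]
  have h1 : ∀ t : A × A × A, wB p m t * (nX p E t : ℤ)
      = ∑ x : A, if Pel p x ∧ E t = cj3 x t then wB p m t else 0 := by
    intro t
    rw [← Finset.sum_filter, Finset.sum_const, nsmul_eq_mul, mul_comm]
    congr 2
    unfold nX
    rw [Nat.card_eq_fintype_card, Fintype.card_subtype]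
  rw [Finset.sum_congr rfl (fun t _ => h1 t), Finset.sum_comm, Fintype.sum_prod_type]
  refine Finset.sum_congr rfl fun x _ => ?_
  have h2 : ∀ z : A, (if Pel p x ∧ x ^ p ^ r ≠ 1 ∧ z ^ s = 1 ∧
      Opr p (⊤ : Subgroup A) ≤ Subgroup.closure {x, z} then m ((x * z) ^ p ^ r) else 0)
      = if z ^ s = 1 then
        (if Pel p x ∧ E (T x z) = cj3 x (T x z) then wB p m (T x z) else 0) else 0 := by
    intro z
    by_cases hz : z ^ s = 1
    · rw [if_pos hz]
      by_cases hx : Pel p x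
      · rw [if_pos (show Pel p x ∧ E (T x z) = cj3 x (T x z) from ⟨hx, hT.fix x z hz⟩)]
        obtain ⟨g, hg⟩ := hT.cc x z hz
        have h3 : m (T x z).2.2 = m ((x * z) ^ p ^ r) := by
          rw [hg, hm.conj g (Subgroup.mem_top g)]
        have h4 : Pel p (x ^ p ^ r) := by
          obtain ⟨n, hn⟩ := hx
          exact ⟨n, by rw [← pow_mul, mul_comm, pow_mul, hn, one_pow]⟩
        unfold wB
        change _ = if gen (T x z) ≤ (⊤ : Subgroup A) ∧ Opr p (⊤ : Subgroup A) ≤ gen (T x z) then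
          (if Pel p (uu (T x z)) ∧ uu (T x z) ≠ 1 then m (T x z).2.2 else 0) else 0
        rw [hT.u x z hz, h3, opr_iff hE hT hx hz]
        by_cases h5 : Opr p (⊤ : Subgroup A) ≤ Subgroup.closure {x, z}
        · by_cases h6 : x ^ p ^ r = 1
          · simp [h6]
          · rw [if_pos ⟨hx, h6, hz, h5⟩, if_pos ⟨le_top, h5⟩, if_pos ⟨h4, h6⟩]
        · rw [if_neg (fun h => h5 h.2.2.2), if_neg (fun h => h5 h.2)]
      · rw [if_neg (fun h => hx h.1), if_neg (fun h => hx h.1)]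
    · rw [if_neg hz, if_neg (fun h => hz h.2.2.1)]
  rw [Finset.sum_congr rfl (fun z _ => h2 z)]
  set F : A × A × A → ℤ := fun t => if Pel p x ∧ E t = cj3 x t then wB p m t else 0 with hF
  have h7 : ∑ z : A, (if z ^ s = 1 then
        (if Pel p x ∧ E (T x z) = cj3 x (T x z) then wB p m (T x z) else 0) else 0)
      = ∑ z ∈ Finset.univ.filter (fun z : A => z ^ s = 1), F (T x z) :=
    (Finset.sum_filter _ _).symm
  have h8 : ∑ z ∈ Finset.univ.filter (fun z : A => z ^ s = 1), F (T x z)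
      = ∑ t ∈ (Finset.univ.filter (fun z : A => z ^ s = 1)).image (fun z => T x z), F t :=
    (Finset.sum_image (fun z _ z' _ h => hT.inj x z z' h)).symm
  rw [h7, h8]
  symm
  refine Finset.sum_subset (Finset.subset_univ _) fun t _ ht => ?_
  by_contra h3
  have h4 : Pel p x ∧ E t = cj3 x t := by
    by_contra h5
    exact h3 (if_neg h5)
  simp only [hF] at h3
  rw [if_pos h4] at h3
  obtain ⟨h5, h6, _⟩ := of_wB_ne h3
  obtain ⟨z, hz, hz'⟩ := hT.surj x t h4.2 (uu_eq hE hO h5 h6 h4.1 h4.2)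
  exact ht (Finset.mem_image.2 ⟨z, Finset.mem_filter.2 ⟨Finset.mem_univ z, hz⟩, hz'.symm⟩)

/-- The number of triples in terms of pairs. -/
theorem bB_congr_pB [Fact p.Prime] [Finite A] {r s : ℕ} {E : A × A × A → A × A × A}
    {T : A → A → A × A × A} (hE : IsRot (p ^ r) E) (hT : IsPar (p ^ r) s E T)
    (hO : NoP p (⊤ : Subgroup A)) {m : A → ℤ} (hm : IsWt p ⊤ m) :
    (p : ℤ) * (ordProj[p] (Nat.card A) : ℕ) ∣ bB p (⊤ : Subgroup A) m - pB p (p ^ r) s m := by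
  rw [← par_sum hE hT hO hm]
  exact rot_congr hE hO hm

end Pool.Agent.Lib.P0c8ca5
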