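import Mathlib
import Pool.Agent.Lib.P0c8ca5V.GalA
import Pool.Agent.Lib.P0c8ca5V.Par

/-! Coprime powers: the numbers of pairs and triples in a group. -/

namespace Pool.Agent.Lib.P0c8ca5

/-- the exponents acting trivially on the p-regular elements -/
def GalJ (p : ℕ) (A : Type*) [Group A] (j : ℕ) : Prop :=
  (Nat.card A).Coprime j ∧ j ≡ 1 [MOD ordCompl[p] (Nat.card A)]

namespace GalB

section
variable {p : ℕ} {G : Type*} [Group G] [Finite G]

theorem m_pow [Fact p.Prime] {m : G → ℤ} (hm : IsWt p ⊤ m) {j : ℕ} (hj : GalJ p G j) (w : G) :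
    m (w ^ j) = m w := by
  by_cases hw : Preg p w
  · have h1 : w ^ j = w := by
      conv_rhs => rw [← pow_one w]
      rw [pow_eq_pow_iff_modEq]
      exact hj.2.of_dvd (orderOf_dvd_ordCompl hw)
    rw [h1]
  · have h1 : m w = 0 := by
      by_contra h2
      exact hw (hm.reg w h2)
    have h2 : m (w ^ j) = 0 := by
      by_contra h3
      apply hw
      have h4 := hm.reg _ h3
      unfold Preg at h4 ⊢
      have h5 : (orderOf w).Coprime j := hj.1.coprime_dvd_left (orderOf_dvd_natCard w)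
      rwa [h5.orderOf_pow] at h4
    rw [h1, h2]

end

section
variable {p : ℕ} {G : Type*} [Group G] [Fintype G]

open Classical in
/-- pairs -/
theorem pairs_pow [Fact p.Prime] {q s : ℕ} {m : G → ℤ} (hm : IsWt p ⊤ m) {j : ℕ}
    (hj : GalJ p G j) {f : G → ℤ} (hf : ∀ c x, f (c * x * c⁻¹) = f x) :
    ∑ x : G, ∑ z : G, f (x ^ j) * (if z ^ s = 1 then m ((x * z) ^ q) else 0)
      = ∑ x : G, ∑ z : G, f x * (if z ^ s = 1 then m ((x * z) ^ q) else 0) := by
  set ω : G → ℤ := fun z => if z ^ s = 1 then 1 else 0 with hω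
  have hω1 : ∀ c x, ω (c * x * c⁻¹) = ω x := by
    intro c x
    simp only [hω, conj_pow, conj_eq_one_iff]
  have hω2 : ∀ z, ω (z ^ j) = ω z := by
    intro z
    have h1 : (z ^ j) ^ s = 1 ↔ z ^ s = 1 := by
      rw [← pow_mul, mul_comm, pow_mul]
      constructor
      · intro h
        exact (powCoprime hj.1).injective (by
          change (z ^ s) ^ j = (1 : G) ^ j
          rw [h, one_pow])
      · intro h
        rw [h, one_pow]
    simp only [hω, h1]
  have key : ∀ u : G → ℤ, ∑ x : G, ∑ z : G, u x * (if z ^ s = 1 then m ((x * z) ^ q) else 0)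
      = ∑ y : G, m (y ^ q) * ∑ x : G, u x * ω (x⁻¹ * y) := by
    intro u
    simp only [Finset.mul_sum]
    rw [Finset.sum_comm (s := (Finset.univ : Finset G)) (t := (Finset.univ : Finset G))
      (f := fun y x => m (y ^ q) * (u x * ω (x⁻¹ * y)))]
    refine Finset.sum_congr rfl fun x _ => ?_
    rw [← Equiv.sum_comp (Equiv.mulLeft x) (fun y => m (y ^ q) * (u x * ω (x⁻¹ * y)))]
    refine Finset.sum_congr rfl fun z _ => ?_
    simp only [Equiv.coe_mulLeft, inv_mul_cancel_left, hω]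
    split_ifs <;> ring
  rw [key (fun x => f (x ^ j)), key f]
  have h1 : ∀ y : G, ∑ x : G, f (x ^ j) * ω (x⁻¹ * y) = ∑ x : G, f x * ω (x⁻¹ * y ^ j) := by
    intro y
    rw [← GalA.conv_pow hj.1 hf hω1 y]
    refine Finset.sum_congr rfl fun x _ => ?_
    rw [hω2]
  rw [← Equiv.sum_comp (powCoprime hj.1) (fun y => m (y ^ q) * ∑ x : G, f x * ω (x⁻¹ * y))]
  refine Finset.sum_congr rfl fun y _ => ?_
  change m (y ^ q) * ∑ x : G, f (x ^ j) * ω (x⁻¹ * y)
    = m ((y ^ j) ^ q) * ∑ x : G, f x * ω (x⁻¹ * y ^ j)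
  rw [h1, ← pow_mul, mul_comm j q, pow_mul, m_pow hm hj]

open Classical in
/-- the number of the elements conjugating `b` into `y` -/
noncomputable def cc (b y : G) : ℤ := ∑ a : G, if a * b * a⁻¹ = y then 1 else 0

open Classical in
/-- the number of pairs with commutator `g` -/
noncomputable def cmm (g : G) : ℤ := ∑ a : G, ∑ b : G, if cmt a b = g then 1 else 0

theorem cc_conj (b c y : G) : cc b (c * y * c⁻¹) = cc b y := by
  classical
  unfold cc
  rw [← Equiv.sum_comp (Equiv.mulLeft c)]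
  refine Finset.sum_congr rfl fun a _ => ?_
  simp only [Equiv.coe_mulLeft]
  have h1 : (c * a * b * (c * a)⁻¹ = c * y * c⁻¹) ↔ (a * b * a⁻¹ = y) := by
    rw [mul_inv_rev]
    constructor
    · intro h
      have h2 : a * b * a⁻¹ = c⁻¹ * (c * a * b * (a⁻¹ * c⁻¹)) * c := by group
      rw [h2, h]
      group
    · intro h
      rw [← h]
      group
  exact if_congr h1 rfl rfl

theorem cc_pow {j : ℕ} (hj : (Nat.card G).Coprime j) (b y : G) : cc (b ^ j) (y ^ j) = cc b y := by
  classical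
  unfold cc
  refine Finset.sum_congr rfl fun a _ => ?_
  have h1 : (a * b ^ j * a⁻¹ = y ^ j) ↔ (a * b * a⁻¹ = y) := by
    rw [← conj_pow]
    exact ⟨fun h => (powCoprime hj).injective h, fun h => by rw [h]⟩
  exact if_congr h1 rfl rfl

theorem sum_cc (y w : G) : ∑ b : G, cc b y * cc b w = (Fintype.card G : ℤ) * cc w y := by
  classical
  unfold cc
  simp only [Finset.sum_mul_sum]
  rw [Finset.sum_comm]
  have h1 : ∀ a : G, ∑ b : G, ∑ a' : G, ((if a * b * a⁻¹ = y then (1 : ℤ) else 0) *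
      if a' * b * a'⁻¹ = w then 1 else 0) = ∑ c : G, if c * w * c⁻¹ = y then 1 else 0 := by
    intro a
    rw [Finset.sum_comm]
    rw [← Equiv.sum_comp ((Equiv.inv G).trans (Equiv.mulLeft a))
      (fun c => if c * w * c⁻¹ = y then (1 : ℤ) else 0)]
    refine Finset.sum_congr rfl fun a' _ => ?_
    simp only [Equiv.trans_apply, Equiv.inv_apply, Equiv.coe_mulLeft]
    rw [Finset.sum_eq_single (a'⁻¹ * w * a')]
    · have e1 : a' * (a'⁻¹ * w * a') * a'⁻¹ = w := by group
      have e2 : a * (a'⁻¹ * w * a') * a⁻¹ = a * a'⁻¹ * w * (a * a'⁻¹)⁻¹ := by group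
      rw [if_pos e1, mul_one, e2]
    · intro b _ hb
      rw [if_neg (c := a' * b * a'⁻¹ = w), mul_zero]
      intro h
      apply hb
      rw [← h]
      group
    · intro h; exact absurd (Finset.mem_univ _) h
  rw [Finset.sum_congr rfl (fun a _ => h1 a), Finset.sum_const, nsmul_eq_mul]
  rfl

theorem cmm_eq (g : G) : (Fintype.card G : ℤ) * cmm g = ∑ b : G, ∑ y : G, cc b y * cc b (g⁻¹ * y) := by
  classical
  rw [Finset.sum_comm]
  have h1 : ∀ y : G, ∑ b : G, cc b y * cc b (g⁻¹ * y) = (Fintype.card G : ℤ) * cc (g⁻¹ * y) y :=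
    fun y => sum_cc y (g⁻¹ * y)
  rw [Finset.sum_congr rfl (fun y _ => h1 y), ← Finset.mul_sum]
  congr 1
  unfold cmm cc
  rw [Finset.sum_comm, ← Equiv.sum_comp (Equiv.mulLeft g) (fun y : G => ∑ a : G,
    if a * (g⁻¹ * y) * a⁻¹ = y then (1 : ℤ) else 0)]
  refine Finset.sum_congr rfl fun b _ => Finset.sum_congr rfl fun a _ => ?_
  simp only [Equiv.coe_mulLeft, inv_mul_cancel_left]
  have h2 : (cmt a b = g) ↔ (a * b * a⁻¹ = g * b) := by
    unfold cmt
    exact mul_inv_eq_iff_eq_mul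
  exact if_congr h2 rfl rfl

theorem cmm_pow {j : ℕ} (hj : (Nat.card G).Coprime j) (g : G) : cmm (g ^ j) = cmm g := by
  classical
  have hG : (Fintype.card G : ℤ) ≠ 0 := by
    exact_mod_cast Fintype.card_ne_zero
  apply mul_left_cancel₀ hG
  rw [cmm_eq, cmm_eq]
  rw [← Equiv.sum_comp (powCoprime hj) (fun b : G => ∑ y : G, cc b y * cc b ((g ^ j)⁻¹ * y))]
  refine Finset.sum_congr rfl fun b _ => ?_
  change ∑ y : G, cc (b ^ j) y * cc (b ^ j) ((g ^ j)⁻¹ * y) = ∑ y : G, cc b y * cc b (g⁻¹ * y)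
  -- the class function `y ↦ cc (b ^ j) y⁻¹`
  have hcl : ∀ c x : G, (fun x => cc (b ^ j) x⁻¹) (c * x * c⁻¹) = (fun x => cc (b ^ j) x⁻¹) x := by
    intro c x
    have e1 : (c * x * c⁻¹)⁻¹ = c * x⁻¹ * c⁻¹ := by group
    simp only [e1, cc_conj]
  have h1 := GalA.conv_pow hj (f := fun x => cc (b ^ j) x) (g := fun x => cc (b ^ j) x⁻¹)
    (fun c x => cc_conj _ c x) hcl g
  have h2 : ∀ y : G, cc (b ^ j) (((y⁻¹ * g) ^ j)⁻¹) = cc b (g⁻¹ * y) := by
    intro y
    rw [← inv_pow, cc_pow hj, mul_inv_rev, inv_inv]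
  have h3 : ∀ y : G, (y⁻¹ * g ^ j)⁻¹ = (g ^ j)⁻¹ * y := by
    intro y
    rw [mul_inv_rev, inv_inv]
  simp only [h2, h3, cc_pow hj] at h1
  exact h1.symm

open Classical in
/-- triples -/
theorem triples_pow [Fact p.Prime] {m : G → ℤ} (hm : IsWt p ⊤ m) {j : ℕ}
    (hj : GalJ p G j) (f : G → ℤ) :
    ∑ t : G × G × G, f (uu t ^ j) * m t.2.2 = ∑ t : G × G × G, f (uu t) * m t.2.2 := by
  have hm1 : ∀ c x : G, m (c * x * c⁻¹) = m x := fun c x => hm.conj c (Subgroup.mem_top c) x
  have hcm1 : ∀ c x : G, cmm (c * x * c⁻¹) = cmm x := by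
    intro c x
    unfold cmm
    rw [← Equiv.sum_comp (MulAut.conj c).toEquiv]
    refine Finset.sum_congr rfl fun a _ => ?_
    rw [← Equiv.sum_comp (MulAut.conj c).toEquiv]
    refine Finset.sum_congr rfl fun b _ => ?_
    have h1 : cmt ((MulAut.conj c).toEquiv a) ((MulAut.conj c).toEquiv b) = c * cmt a b * c⁻¹ := by
      change cmt (c * a * c⁻¹) (c * b * c⁻¹) = c * cmt a b * c⁻¹
      unfold cmt
      group
    rw [h1]
    have h2 : (c * cmt a b * c⁻¹ = c * x * c⁻¹) ↔ (cmt a b = x) := by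
      constructor
      · intro h
        exact mul_left_cancel (mul_right_cancel h)
      · intro h
        rw [h]
    exact if_congr h2 rfl rfl
  have key : ∀ u : G → ℤ, ∑ t : G × G × G, u (uu t) * m t.2.2
      = ∑ y : G, u y * ∑ g : G, cmm g * m (g⁻¹ * y) := by
    intro u
    have h1 : ∀ y : G, ∑ g : G, cmm g * m (g⁻¹ * y) = ∑ a : G, ∑ b : G, m ((cmt a b)⁻¹ * y) := by
      intro y
      unfold cmm
      simp only [Finset.sum_mul]
      rw [Finset.sum_comm]
      refine Finset.sum_congr rfl fun a _ => ?_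
      rw [Finset.sum_comm]
      refine Finset.sum_congr rfl fun b _ => ?_
      rw [Finset.sum_eq_single (cmt a b)]
      · rw [if_pos rfl, one_mul]
      · intro g _ hg
        rw [if_neg (fun h => hg h.symm), zero_mul]
      · intro h; exact absurd (Finset.mem_univ _) h
    simp only [h1, Finset.mul_sum]
    rw [Fintype.sum_prod_type]
    simp only [Fintype.sum_prod_type]
    rw [Finset.sum_comm (s := (Finset.univ : Finset G)) (t := (Finset.univ : Finset G))
      (f := fun y a => ∑ b : G, u y * m ((cmt a b)⁻¹ * y))]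
    refine Finset.sum_congr rfl fun a _ => ?_
    rw [Finset.sum_comm (s := (Finset.univ : Finset G)) (t := (Finset.univ : Finset G))
      (f := fun y b => u y * m ((cmt a b)⁻¹ * y))]
    refine Finset.sum_congr rfl fun b _ => ?_
    rw [← Equiv.sum_comp (Equiv.mulLeft (cmt a b)) (fun y => u y * m ((cmt a b)⁻¹ * y))]
    refine Finset.sum_congr rfl fun c _ => ?_
    simp only [Equiv.coe_mulLeft, inv_mul_cancel_left]
    rfl
  rw [key (fun y => f (y ^ j)), key f]
  have h2 : ∀ y : G, ∑ g : G, cmm g * m (g⁻¹ * y) = ∑ g : G, cmm g * m (g⁻¹ * y ^ j) := by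
    intro y
    rw [← GalA.conv_pow hj.1 hcm1 hm1 y]
    refine Finset.sum_congr rfl fun g _ => ?_
    rw [cmm_pow hj.1, m_pow hm hj]
  rw [← Equiv.sum_comp (powCoprime hj.1) (fun y => f y * ∑ g : G, cmm g * m (g⁻¹ * y))]
  refine Finset.sum_congr rfl fun y _ => ?_
  change f (y ^ j) * ∑ g : G, cmm g * m (g⁻¹ * y) = f (y ^ j) * ∑ g : G, cmm g * m (g⁻¹ * y ^ j)
  rw [h2]

end

end GalB

end Pool.Agent.Lib.P0c8ca5
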