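import Mathlib
import Pool.Agent.Lib.P0c8ca5V.GalB

/-! Coprime powers: the numbers of generating pairs and triples. -/

namespace Pool.Agent.Lib.P0c8ca5

open RotAux

namespace GalD

section
variable {p : ℕ} {A : Type*} [Group A] [Fintype A]

open Classical in
theorem sum_gen_eq {X : Type*} [Fintype X] (cl : X → Subgroup A) (F : X → ℤ)
    (h : ∀ H : Subgroup A, ∑ x, (if cl x ≤ H then F x else 0) = 0) :
    ∀ (n : ℕ) (K : Subgroup A), Nat.card K = n → ∑ x, (if cl x = K then F x else 0) = 0 := by
  have : Fintype (Subgroup A) := Fintype.ofFinite _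
  intro n
  induction n using Nat.strong_induction_on with
  | _ n ih =>
    intro K hK
    have h1 := h K
    have h2 : ∑ x, (if cl x ≤ K then F x else 0)
        = ∑ H : Subgroup A, if H ≤ K then ∑ x, (if cl x = H then F x else 0) else 0 := by
      have h3 : ∀ H : Subgroup A, (if H ≤ K then ∑ x, (if cl x = H then F x else 0) else 0)
          = ∑ x, (if cl x = H then (if cl x ≤ K then F x else 0) else 0) := by
        intro H
        split_ifs with hH
        · refine Finset.sum_congr rfl fun x _ => ?_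
          by_cases hx : cl x = H
          · rw [if_pos hx, if_pos hx, if_pos (hx ▸ hH)]
          · rw [if_neg hx, if_neg hx]
        · symm
          refine Finset.sum_eq_zero fun x _ => ?_
          by_cases hx : cl x = H
          · rw [if_pos hx, if_neg (hx ▸ hH)]
          · rw [if_neg hx]
      rw [Finset.sum_congr rfl (fun H _ => h3 H), Finset.sum_comm]
      refine Finset.sum_congr rfl fun x _ => ?_
      rw [Finset.sum_ite_eq Finset.univ (cl x), if_pos (Finset.mem_univ _)]
    rw [h2, Finset.sum_eq_single K] at h1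
    · rwa [if_pos (le_refl K)] at h1
    · intro H _ hne
      split_ifs with hH
      · refine ih (Nat.card H) ?_ H rfl
        rw [← hK]
        by_contra h3
        exact hne (Subgroup.eq_of_le_of_card_ge hH (not_lt.1 h3))
      · rfl
    · intro h3; exact absurd (Finset.mem_univ _) h3

open Classical in
theorem sum_gen_zero {X : Type*} [Fintype X] (cl : X → Subgroup A) (F : X → ℤ)
    (h : ∀ H : Subgroup A, ∑ x, (if cl x ≤ H then F x else 0) = 0) (P : Subgroup A → Prop) :
    ∑ x, (if P (cl x) then F x else 0) = 0 := by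
  have : Fintype (Subgroup A) := Fintype.ofFinite _
  have h2 : ∑ x, (if P (cl x) then F x else 0)
      = ∑ H : Subgroup A, if P H then ∑ x, (if cl x = H then F x else 0) else 0 := by
    have h3 : ∀ H : Subgroup A, (if P H then ∑ x, (if cl x = H then F x else 0) else 0)
        = ∑ x, (if cl x = H then (if P (cl x) then F x else 0) else 0) := by
      intro H
      split_ifs with hH
      · refine Finset.sum_congr rfl fun x _ => ?_
        by_cases hx : cl x = H
        · rw [if_pos hx, if_pos hx, if_pos (hx ▸ hH)]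
        · rw [if_neg hx, if_neg hx]
      · symm
        refine Finset.sum_eq_zero fun x _ => ?_
        by_cases hx : cl x = H
        · rw [if_pos hx, if_neg (hx ▸ hH)]
        · rw [if_neg hx]
    rw [Finset.sum_congr rfl (fun H _ => h3 H), Finset.sum_comm]
    refine Finset.sum_congr rfl fun x _ => ?_
    rw [Finset.sum_ite_eq Finset.univ (cl x), if_pos (Finset.mem_univ _)]
  rw [h2]
  refine Finset.sum_eq_zero fun H _ => ?_
  split_ifs
  · exact sum_gen_eq cl F h (Nat.card H) H rfl
  · rfl

/-- pointwise invariance from the invariance of the sums -/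
theorem pointwise {φ : A → ℤ} (hφ : ∀ c x, φ (c * x * c⁻¹) = φ x) {j : ℕ}
    (hj : (Nat.card A).Coprime j)
    (h : ∀ f : A → ℤ, (∀ c x, f (c * x * c⁻¹) = f x) →
      ∑ x, f (x ^ j) * φ x = ∑ x, f x * φ x) (x : A) : φ (x ^ j) = φ x := by
  classical
  have h1 := h (fun y => GalB.cc (x ^ j) y) (fun c y => GalB.cc_conj _ c y)
  have h2 : ∑ y, GalB.cc (x ^ j) (y ^ j) * φ y = (Fintype.card A : ℤ) * φ x := by
    simp only [GalB.cc_pow hj]
    unfold GalB.cc
    simp only [Finset.sum_mul]
    rw [Finset.sum_comm]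
    have h3 : ∀ c : A, ∑ y, (if c * x * c⁻¹ = y then (1 : ℤ) else 0) * φ y = φ x := by
      intro c
      rw [Finset.sum_eq_single (c * x * c⁻¹)]
      · rw [if_pos rfl, one_mul, hφ]
      · intro y _ hy
        rw [if_neg (fun h4 => hy h4.symm), zero_mul]
      · intro h4; exact absurd (Finset.mem_univ _) h4
    rw [Finset.sum_congr rfl (fun c _ => h3 c), Finset.sum_const, nsmul_eq_mul]
    rfl
  have h4 : ∑ y, GalB.cc (x ^ j) y * φ y = (Fintype.card A : ℤ) * φ (x ^ j) := by
    unfold GalB.cc
    simp only [Finset.sum_mul]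
    rw [Finset.sum_comm]
    have h3 : ∀ c : A, ∑ y, (if c * x ^ j * c⁻¹ = y then (1 : ℤ) else 0) * φ y = φ (x ^ j) := by
      intro c
      rw [Finset.sum_eq_single (c * x ^ j * c⁻¹)]
      · rw [if_pos rfl, one_mul, hφ]
      · intro y _ hy
        rw [if_neg (fun h4 => hy h4.symm), zero_mul]
      · intro h4; exact absurd (Finset.mem_univ _) h4
    rw [Finset.sum_congr rfl (fun c _ => h3 c), Finset.sum_const, nsmul_eq_mul]
    rfl
  rw [h2, h4] at h1
  have hA : (Fintype.card A : ℤ) ≠ 0 := by
    exact_mod_cast Fintype.card_ne_zero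
  exact (mul_left_cancel₀ hA h1).symm

theorem GalJ_sub [Fact p.Prime] {j : ℕ} (hj : GalJ p A j) (H : Subgroup A) : GalJ p ↥H j := by
  have hd : Nat.card H ∣ Nat.card A := Subgroup.card_subgroup_dvd_card H
  refine ⟨hj.1.coprime_dvd_left hd, hj.2.of_dvd ?_⟩
  exact Nat.ordCompl_dvd_ordCompl_of_dvd hd p

theorem IsWt_sub {m : A → ℤ} (hm : IsWt p ⊤ m) (H : Subgroup A) :
    IsWt p (⊤ : Subgroup ↥H) (fun x => m x) := by
  refine ⟨fun h _ x => ?_, fun x hx => ?_⟩
  · exact hm.conj h (Subgroup.mem_top _) x
  · have h1 := hm.reg _ hx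
    unfold Preg at h1 ⊢
    rwa [Subgroup.orderOf_coe] at h1

open Classical in
theorem sum_sub {M : Type*} [AddCommMonoid M] (H : Subgroup A) (g : A → M) :
    ∑ x : A, (if x ∈ H then g x else 0) = ∑ x : ↥H, g x := by
  rw [← Finset.sum_filter]
  exact Finset.sum_subtype _ (fun x => by simp) g

open Classical in
/-- the number of the generating pairs with given first member -/
noncomputable def phP (p q s : ℕ) (m : A → ℤ) (x : A) : ℤ :=
  ∑ z : A, if z ^ s = 1 ∧ Opr p (⊤ : Subgroup A) ≤ Subgroup.closure {x, z} then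
    m ((x * z) ^ q) else 0

theorem closure_conj (c x z : A) : Subgroup.closure {c * x * c⁻¹, c * z * c⁻¹}
    = (Subgroup.closure ({x, z} : Set A)).map (MulAut.conj c).toMonoidHom := by
  rw [MonoidHom.map_closure, Set.image_insert_eq, Set.image_singleton]
  rfl

theorem opr_closure_conj (c x z : A) :
    Opr p (⊤ : Subgroup A) ≤ Subgroup.closure {c * x * c⁻¹, c * z * c⁻¹} ↔
      Opr p (⊤ : Subgroup A) ≤ Subgroup.closure {x, z} := by
  rw [closure_conj]
  conv_lhs => rw [← map_Opr_top (p := p) c]
  exact Subgroup.map_le_map_iff_of_injective (MulAut.conj c).injective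

theorem phP_conj {q s : ℕ} {m : A → ℤ} (hm : IsWt p ⊤ m) (c x : A) :
    phP p q s m (c * x * c⁻¹) = phP p q s m x := by
  classical
  unfold phP
  rw [← Equiv.sum_comp (MulAut.conj c).toEquiv]
  refine Finset.sum_congr rfl fun z _ => ?_
  change (if (c * z * c⁻¹) ^ s = 1 ∧ Opr p (⊤ : Subgroup A) ≤
    Subgroup.closure {c * x * c⁻¹, c * z * c⁻¹} then m ((c * x * c⁻¹ * (c * z * c⁻¹)) ^ q) else 0)
      = _
  have h1 : c * x * c⁻¹ * (c * z * c⁻¹) = c * (x * z) * c⁻¹ := by group
  have h2 : (c * z * c⁻¹) ^ s = 1 ↔ z ^ s = 1 := by rw [conj_pow, conj_eq_one_iff]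
  have h4 : m ((c * (x * z) * c⁻¹) ^ q) = m ((x * z) ^ q) := by
    rw [conj_pow, hm.conj c (Subgroup.mem_top c)]
  rw [h1, h4]
  exact if_congr (and_congr h2 (opr_closure_conj c x z)) rfl rfl

theorem phP_pow [Fact p.Prime] {q s : ℕ} {m : A → ℤ} (hm : IsWt p ⊤ m) {j : ℕ} (hj : GalJ p A j)
    (x : A) : phP p q s m (x ^ j) = phP p q s m x := by
  classical
  refine pointwise (phP_conj hm) hj.1 (fun f hf => ?_) x
  have h1 := sum_gen_zero (A := A) (X := A × A) (fun y => Subgroup.closure {y.1, y.2})
    (fun y => (f (y.1 ^ j) - f y.1) * (if y.2 ^ s = 1 then m ((y.1 * y.2) ^ q) else 0)) ?_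
    (fun K => Opr p (⊤ : Subgroup A) ≤ K)
  · have h2 : ∀ u : A → ℤ, ∑ x : A, u x * phP p q s m x
        = ∑ x : A, ∑ z : A, (if Opr p (⊤ : Subgroup A) ≤ Subgroup.closure {x, z} then
          u x * (if z ^ s = 1 then m ((x * z) ^ q) else 0) else 0) := by
      intro u
      refine Finset.sum_congr rfl fun x _ => ?_
      unfold phP
      rw [Finset.mul_sum]
      refine Finset.sum_congr rfl fun z _ => ?_
      by_cases h3 : z ^ s = 1
      · by_cases h4 : Opr p (⊤ : Subgroup A) ≤ Subgroup.closure {x, z}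
        · rw [if_pos ⟨h3, h4⟩, if_pos h4, if_pos h3]
        · rw [if_neg (fun h => h4 h.2), if_neg h4, mul_zero]
      · rw [if_neg (fun h => h3 h.1), if_neg h3, mul_zero]
        split_ifs <;> rfl
    rw [h2 (fun x => f (x ^ j)), h2 f, ← sub_eq_zero, ← Finset.sum_sub_distrib]
    rw [Fintype.sum_prod_type] at h1
    refine Eq.trans ?_ h1
    refine Finset.sum_congr rfl fun x _ => ?_
    rw [← Finset.sum_sub_distrib]
    refine Finset.sum_congr rfl fun z _ => ?_
    by_cases h4 : Opr p (⊤ : Subgroup A) ≤ Subgroup.closure {x, z}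
    · rw [if_pos h4, if_pos h4, if_pos h4, sub_mul]
    · rw [if_neg h4, if_neg h4, if_neg h4, sub_zero]
  · intro H
    have h3 := GalB.pairs_pow (q := q) (s := s) (IsWt_sub hm H) (GalJ_sub hj H)
      (f := fun x => f x) (fun c x => hf c x)
    rw [← sub_eq_zero, ← Finset.sum_sub_distrib] at h3
    rw [Fintype.sum_prod_type]
    have h4 : ∀ x : A, ∑ z : A, (if Subgroup.closure {x, z} ≤ H then
        (f (x ^ j) - f x) * (if z ^ s = 1 then m ((x * z) ^ q) else 0) else 0)
        = if x ∈ H then ∑ z : ↥H, ((f (x ^ j) - f x) *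
          (if (z : A) ^ s = 1 then m ((x * z) ^ q) else 0)) else 0 := by
      intro x
      by_cases hx : x ∈ H
      · rw [if_pos hx, ← sum_sub H (fun z => (f (x ^ j) - f x) *
          (if z ^ s = 1 then m ((x * z) ^ q) else 0))]
        refine Finset.sum_congr rfl fun z _ => ?_
        refine if_congr ?_ rfl rfl
        rw [Subgroup.closure_le]
        constructor
        · intro h; exact h (by simp)
        · rintro h y (rfl | rfl)
          · exact hx
          · exact h
      · rw [if_neg hx]
        refine Finset.sum_eq_zero fun z _ => ?_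
        rw [if_neg]
        intro h
        exact hx (h (Subgroup.subset_closure (by simp)))
    rw [Finset.sum_congr rfl (fun x _ => h4 x), sum_sub H (fun x => ∑ z : ↥H, ((f (x ^ j) - f x) *
          (if (z : A) ^ s = 1 then m ((x * z) ^ q) else 0)))]
    refine Eq.trans ?_ h3
    refine Finset.sum_congr rfl fun x _ => ?_
    rw [← Finset.sum_sub_distrib]
    refine Finset.sum_congr rfl fun z _ => ?_
    have h5 : ((z : A) ^ s = 1) ↔ (z ^ s = 1) := by
      rw [← Subgroup.coe_pow]
      exact OneMemClass.coe_eq_one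
    have h6 : (if (z : A) ^ s = 1 then m (((x : A) * z) ^ q) else 0)
        = if z ^ s = 1 then m (((x * z) ^ q : ↥H) : A) else 0 := if_congr h5 rfl rfl
    rw [h6]
    by_cases h7 : z ^ s = 1
    · simp only [if_pos h7]
      rw [sub_mul]
      rfl
    · simp only [if_neg h7, mul_zero, sub_zero]

open Classical in
/-- the number of the generating triples with given `u` -/
noncomputable def phT (p : ℕ) (m : A → ℤ) (u : A) : ℤ :=
  ∑ t : A × A × A, if uu t = u ∧ Opr p (⊤ : Subgroup A) ≤ gen t then m t.2.2 else 0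

theorem phT_conj {m : A → ℤ} (hm : IsWt p ⊤ m) (c u : A) :
    phT p m (c * u * c⁻¹) = phT p m u := by
  classical
  unfold phT
  rw [← Equiv.sum_comp (cjP c)]
  refine Finset.sum_congr rfl fun t _ => ?_
  change (if uu (cj3 c t) = c * u * c⁻¹ ∧ Opr p (⊤ : Subgroup A) ≤ gen (cj3 c t) then
    m (c * t.2.2 * c⁻¹) else 0) = _
  have h2 : uu (cj3 c t) = c * u * c⁻¹ ↔ uu t = u := by
    rw [uu_cj3']
    constructor
    · intro h
      exact mul_left_cancel (mul_right_cancel h)
    · intro h
      rw [h]
  have h3 : Opr p (⊤ : Subgroup A) ≤ gen (cj3 c t) ↔ Opr p (⊤ : Subgroup A) ≤ gen t := by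
    rw [gen_cj3]
    conv_lhs => rw [← map_Opr_top (p := p) c]
    exact Subgroup.map_le_map_iff_of_injective (MulAut.conj c).injective
  rw [hm.conj c (Subgroup.mem_top c)]
  exact if_congr (and_congr h2 h3) rfl rfl

theorem phT_pow [Fact p.Prime] {m : A → ℤ} (hm : IsWt p ⊤ m) {j : ℕ} (hj : GalJ p A j)
    (x : A) : phT p m (x ^ j) = phT p m x := by
  classical
  refine pointwise (phT_conj hm) hj.1 (fun f hf => ?_) x
  have h1 := sum_gen_zero (A := A) (X := A × A × A) gen
    (fun t => (f (uu t ^ j) - f (uu t)) * m t.2.2) ?_ (fun K => Opr p (⊤ : Subgroup A) ≤ K)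
  · have h2 : ∀ u : A → ℤ, ∑ x : A, u x * phT p m x
        = ∑ t : A × A × A, (if Opr p (⊤ : Subgroup A) ≤ gen t then u (uu t) * m t.2.2 else 0) := by
      intro u
      unfold phT
      simp only [Finset.mul_sum]
      rw [Finset.sum_comm]
      refine Finset.sum_congr rfl fun t _ => ?_
      rw [Finset.sum_eq_single (uu t)]
      · by_cases h4 : Opr p (⊤ : Subgroup A) ≤ gen t
        · rw [if_pos ⟨rfl, h4⟩, if_pos h4]
        · rw [if_neg (fun h => h4 h.2), if_neg h4, mul_zero]
      · intro y _ hy
        rw [if_neg (fun h => hy h.1.symm), mul_zero]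
      · intro h; exact absurd (Finset.mem_univ _) h
    rw [h2 (fun x => f (x ^ j)), h2 f, ← sub_eq_zero, ← Finset.sum_sub_distrib]
    refine Eq.trans ?_ h1
    refine Finset.sum_congr rfl fun t _ => ?_
    by_cases h4 : Opr p (⊤ : Subgroup A) ≤ gen t
    · rw [if_pos h4, if_pos h4, if_pos h4, sub_mul]
    · rw [if_neg h4, if_neg h4, if_neg h4, sub_zero]
  · intro H
    have h3 := GalB.triples_pow (IsWt_sub hm H) (GalJ_sub hj H) (fun x => f x)
    rw [← sub_eq_zero, ← Finset.sum_sub_distrib] at h3
    have h4 : ∑ t : A × A × A, (if gen t ≤ H then (f (uu t ^ j) - f (uu t)) * m t.2.2 else 0)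
        = ∑ a : A, if a ∈ H then (∑ b : A, if b ∈ H then (∑ c : A, if c ∈ H then
          (f (uu (a, b, c) ^ j) - f (uu (a, b, c))) * m c else 0) else 0) else 0 := by
      rw [Fintype.sum_prod_type]
      refine Finset.sum_congr rfl fun a _ => ?_
      rw [Fintype.sum_prod_type]
      have h5 : ∀ b c : A, gen (a, b, c) ≤ H ↔ a ∈ H ∧ b ∈ H ∧ c ∈ H := by
        intro b c
        unfold gen
        rw [Subgroup.closure_le]
        constructor
        · intro h
          exact ⟨h (by simp), h (by simp), h (by simp)⟩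
        · rintro ⟨ha, hb, hc⟩ y (rfl | rfl | rfl)
          · exact ha
          · exact hb
          · exact hc
      by_cases ha : a ∈ H
      · rw [if_pos ha]
        refine Finset.sum_congr rfl fun b _ => ?_
        by_cases hb : b ∈ H
        · rw [if_pos hb]
          refine Finset.sum_congr rfl fun c _ => ?_
          refine if_congr ?_ rfl rfl
          rw [h5]
          exact ⟨fun h => h.2.2, fun h => ⟨ha, hb, h⟩⟩
        · rw [if_neg hb]
          refine Finset.sum_eq_zero fun c _ => ?_
          rw [if_neg]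
          rw [h5]
          exact fun h => hb h.2.1
      · rw [if_neg ha]
        refine Finset.sum_eq_zero fun b _ => Finset.sum_eq_zero fun c _ => ?_
        rw [if_neg]
        rw [h5]
        exact fun h => ha h.1
    rw [h4, sum_sub H (fun a => ∑ b : A, if b ∈ H then (∑ c : A, if c ∈ H then
          (f (uu (a, b, c) ^ j) - f (uu (a, b, c))) * m c else 0) else 0)]
    refine Eq.trans ?_ h3
    rw [Fintype.sum_prod_type]
    refine Finset.sum_congr rfl fun a _ => ?_
    rw [sum_sub H (fun b => ∑ c : A, if c ∈ H then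
          (f (uu ((a : A), b, c) ^ j) - f (uu ((a : A), b, c))) * m c else 0)]
    rw [Fintype.sum_prod_type]
    refine Finset.sum_congr rfl fun b _ => ?_
    rw [sum_sub H (fun c => (f (uu ((a : A), (b : A), c) ^ j) - f (uu ((a : A), (b : A), c))) * m c)]
    refine Finset.sum_congr rfl fun c _ => ?_
    rw [sub_mul]
    rfl

end

end GalD

end Pool.Agent.Lib.P0c8ca5
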