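import Mathlib
import Pool.Agent.Lib.P0c8ca5V.Orb
import Pool.Agent.Lib.P0c8ca5V.GalB

/-! Class functions invariant under coprime powers: only the p-rational elements count. -/

namespace Pool.Agent.Lib.P0c8ca5

/-- `x` is conjugate to all `x ^ j` with `j` congruent to 1 modulo `p` -/
def PRat (p : ℕ) {A : Type*} [Group A] (x : A) : Prop := ∀ j : ℕ, j ≡ 1 [MOD p] → IsConj x (x ^ j)

namespace GalE

variable {p : ℕ} {A : Type*} [Group A]

/-- the group of the permutations `x ↦ x ^ j`, `j = 1` modulo `p` and modulo the p'-part -/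
def Lam (p : ℕ) (A : Type*) [Group A] [Finite A] : Subgroup (Equiv.Perm A) where
  carrier := {π | ∃ j : ℕ, GalJ p A j ∧ j ≡ 1 [MOD p] ∧ ∀ x, π x = x ^ j}
  one_mem' := ⟨1, ⟨Nat.coprime_one_right _, rfl⟩, rfl, fun x => by simp⟩
  mul_mem' := by
    rintro π π' ⟨j, hj, hj1, hj2⟩ ⟨j', hj', hj1', hj2'⟩
    refine ⟨j' * j, ⟨hj'.1.mul_right hj.1, ?_⟩, ?_, fun x => ?_⟩
    · simpa using hj'.2.mul hj.2
    · simpa using hj1'.mul hj1
    · rw [Equiv.Perm.mul_apply, hj2, hj2', pow_mul]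
  inv_mem' := by
    rintro π ⟨j, hj, hj1, hj2⟩
    have hfin : IsOfFinOrder π := isOfFinOrder_of_finite π
    have h1 : π⁻¹ = π ^ (orderOf π - 1) := by
      rw [inv_eq_iff_mul_eq_one, ← pow_succ', Nat.sub_add_cancel hfin.orderOf_pos,
        pow_orderOf_eq_one]
    rw [h1]
    refine ⟨j ^ (orderOf π - 1), ⟨hj.1.pow_right _, ?_⟩, ?_, fun x => ?_⟩
    · simpa using hj.2.pow (orderOf π - 1)
    · simpa using hj1.pow (orderOf π - 1)
    · generalize orderOf π - 1 = n
      induction n generalizing x with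
      | zero => simp
      | succ n ih =>
        rw [pow_succ', Equiv.Perm.mul_apply, ih, hj2, ← pow_mul, pow_succ]

theorem Lam_pGroup [Fact p.Prime] [Finite A] : IsPGroup p (Lam p A) := by
  have hp : p.Prime := Fact.out
  rintro ⟨π, j, hj, hj1, hj2⟩
  set a := (Nat.card A).factorization p with ha
  refine ⟨a, ?_⟩
  apply Subtype.ext
  apply Equiv.ext
  intro x
  have h1 : ∀ n : ℕ, ∀ x, (π ^ n) x = x ^ (j ^ n) := by
    intro n
    induction n with
    | zero => intro x; simp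
    | succ n ih =>
      intro x
      rw [pow_succ', Equiv.Perm.mul_apply, ih, hj2, ← pow_mul, pow_succ]
  change (π ^ p ^ a) x = x
  rw [h1]
  conv_rhs => rw [← pow_one x]
  rw [pow_eq_pow_iff_modEq]
  have h2 : j ^ p ^ a ≡ 1 [MOD Nat.card A] := by
    have h3 : Nat.card A = p ^ a * ordCompl[p] (Nat.card A) :=
      (Nat.ordProj_mul_ordCompl_eq_self (Nat.card A) p).symm
    have h4 : Nat.Coprime (p ^ a) (ordCompl[p] (Nat.card A)) :=
      (Nat.coprime_ordCompl hp Nat.card_pos.ne').pow_left a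
    rw [h3]
    refine (Nat.modEq_and_modEq_iff_modEq_mul h4).1 ⟨?_, ?_⟩
    · have h5 : ((p : ℕ) : ℤ) ∣ (j : ℤ) - 1 := by
        have := (Nat.modEq_iff_dvd).1 hj1.symm
        simpa using this
      have h6 := dvd_sub_pow_of_dvd_sub h5 a
      rw [one_pow] at h6
      have h7 : ((p ^ a : ℕ) : ℤ) ∣ ((j ^ p ^ a : ℕ) : ℤ) - ((1 : ℕ) : ℤ) := by
        push_cast
        exact (pow_dvd_pow (p : ℤ) (Nat.le_succ a)).trans h6
      exact ((Nat.modEq_iff_dvd).2 h7).symm
    · simpa using hj.2.pow (p ^ a)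
  exact h2.of_dvd (orderOf_dvd_natCard x)

/-- exponents for p-elements -/
theorem exists_galJ [Fact p.Prime] [Finite A] (hpA : p ∣ Nat.card A) {j : ℕ}
    (hj : j ≡ 1 [MOD p]) : ∃ i : ℕ, GalJ p A i ∧ i ≡ 1 [MOD p] ∧
      ∀ x : A, Pel p x → x ^ i = x ^ j := by
  have hp : p.Prime := Fact.out
  set a := (Nat.card A).factorization p with ha
  have ha0 : a ≠ 0 := by
    intro h
    have := (hp.dvd_iff_one_le_factorization Nat.card_pos.ne').1 hpA
    omega
  have h4 : Nat.Coprime (p ^ a) (ordCompl[p] (Nat.card A)) :=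
    (Nat.coprime_ordCompl hp Nat.card_pos.ne').pow_left a
  obtain ⟨i, hi1, hi2⟩ := Nat.chineseRemainder h4 j 1
  have hi3 : i ≡ 1 [MOD p] := (hi1.of_dvd (dvd_pow_self p ha0)).trans hj
  refine ⟨i, ⟨?_, hi2⟩, hi3, fun x hx => ?_⟩
  · have h3 : Nat.card A = p ^ a * ordCompl[p] (Nat.card A) :=
      (Nat.ordProj_mul_ordCompl_eq_self (Nat.card A) p).symm
    rw [h3]
    refine Nat.Coprime.mul_left ?_ ?_
    · refine Nat.Coprime.pow_left a ?_
      rw [Nat.coprime_iff_gcd_eq_one, Nat.gcd_comm, hi3.gcd_eq]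
      exact Nat.gcd_one_left p
    · rw [Nat.coprime_iff_gcd_eq_one, Nat.gcd_comm, hi2.gcd_eq]
      exact Nat.gcd_one_left _
  · rw [pow_eq_pow_iff_modEq]
    obtain ⟨n, hn⟩ := hx
    obtain ⟨b, hb, hb'⟩ := (Nat.dvd_prime_pow hp).1 (orderOf_dvd_of_pow_eq_one hn)
    have h5 : orderOf x ∣ p ^ a := by
      rw [hb']
      exact (hp.pow_dvd_iff_dvd_ordProj Nat.card_pos.ne').1 (hb' ▸ orderOf_dvd_natCard x)
    exact hi1.of_dvd h5

/-- conjugation -/
def cjA : A →* Equiv.Perm A where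
  toFun g := (MulAut.conj g).toEquiv
  map_one' := by
    apply Equiv.ext
    intro x
    change 1 * x * 1⁻¹ = x
    simp
  map_mul' g h := by
    apply Equiv.ext
    intro x
    change g * h * x * (g * h)⁻¹ = g * (h * x * h⁻¹) * g⁻¹
    group

theorem pRat_conj (g x : A) : PRat p (g * x * g⁻¹) ↔ PRat p x := by
  unfold PRat
  refine forall_congr' fun j => forall_congr' fun _ => ?_
  have h1 : IsConj x (g * x * g⁻¹) := isConj_iff.2 ⟨g, rfl⟩
  have h2 : IsConj (x ^ j) ((g * x * g⁻¹) ^ j) := by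
    rw [conj_pow]
    exact isConj_iff.2 ⟨g, rfl⟩
  exact ⟨fun h => (h1.trans h).trans h2.symm, fun h => (h1.symm.trans h).trans h2⟩

theorem isConj_pow {x y : A} (h : IsConj x y) (j : ℕ) : IsConj (x ^ j) (y ^ j) := by
  obtain ⟨c, hc⟩ := isConj_iff.1 h
  rw [← hc, conj_pow]
  exact isConj_iff.2 ⟨c, rfl⟩

theorem pRat_of_pow {x : A} (j : ℕ) (h : PRat p x) : PRat p (x ^ j) := by
  intro i hi
  have h1 := isConj_pow (h i hi) j
  rwa [← pow_mul, mul_comm, pow_mul] at h1

theorem pRat_perm [Finite A] {π : Equiv.Perm A} (hπ : π ∈ Lam p A) (x : A) :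
    PRat p (π x) ↔ PRat p x := by
  have h1 : ∀ π ∈ Lam p A, ∀ x : A, PRat p x → PRat p (π x) := by
    rintro π ⟨j, _, _, hj⟩ x hx
    rw [hj]
    exact pRat_of_pow j hx
  refine ⟨fun h => ?_, h1 π hπ x⟩
  have h2 := h1 π⁻¹ ((Lam p A).inv_mem hπ) _ h
  have h3 : π⁻¹ (π x) = x := by
    rw [← Equiv.Perm.mul_apply, inv_mul_cancel]
    rfl
  rwa [h3] at h2

theorem phi_perm [Finite A] {φ : A → ℤ} (hj : ∀ j, GalJ p A j → ∀ x, φ (x ^ j) = φ x)
    {π : Equiv.Perm A} (hπ : π ∈ Lam p A) (x : A) : φ (π x) = φ x := by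
  obtain ⟨j, hj1, _, hj2⟩ := hπ
  rw [hj2, hj j hj1]

open Classical in
theorem rat_sum [Fact p.Prime] [Fintype A] {φ : A → ℤ} (hcl : ∀ c x, φ (c * x * c⁻¹) = φ x)
    (hpel : ∀ x, φ x ≠ 0 → Pel p x) (hj : ∀ j, GalJ p A j → ∀ x, φ (x ^ j) = φ x)
    (hd : ∀ x, φ x ≠ 0 →
      ((ordProj[p] (Nat.card (Subgroup.centralizer ({x} : Set A))) : ℕ) : ℤ) ∣ φ x) :
    (p : ℤ) * (ordProj[p] (Nat.card A) : ℕ) ∣ ∑ x : A, if PRat p x then 0 else φ x := by
  have hp : p.Prime := Fact.out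
  by_cases hpA : p ∣ Nat.card A
  swap
  · have h1 : ∀ x : A, (if PRat p x then 0 else φ x) = 0 := by
      intro x
      split_ifs with hx
      · rfl
      · by_contra h2
        apply hx
        obtain ⟨n, hn⟩ := hpel x h2
        have h3 : orderOf x ∣ 1 := by
          have h4 : Nat.Coprime (Nat.card A) (p ^ n) :=
            Nat.Coprime.pow_right n ((Nat.Prime.coprime_iff_not_dvd hp).2 hpA).symm
          rw [← h4.gcd_eq_one]
          exact Nat.dvd_gcd (orderOf_dvd_natCard x) (orderOf_dvd_of_pow_eq_one hn)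
        have h5 : x = 1 := orderOf_eq_one_iff.1 (Nat.dvd_one.1 h3)
        rw [h5]
        intro j _
        rw [one_pow]
    rw [Finset.sum_eq_zero (fun x _ => h1 x)]
    exact dvd_zero _
  have hCp : IsPGroup p (Lam p A) := Lam_pGroup
  have hcomm : ∀ (g : A) (c : ↥(Lam p A)), Commute (cjA g) ((Lam p A).subtype c) := by
    rintro g ⟨c, j, hj1, hj2, hj3⟩
    apply Equiv.ext
    intro x
    change g * c x * g⁻¹ = c (g * x * g⁻¹)
    rw [hj3, hj3, conj_pow]
  let Ψ : A × ↥(Lam p A) →* Equiv.Perm A :=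
    MonoidHom.noncommCoprod cjA (Lam p A).subtype hcomm
  let _ : MulAction (A × ↥(Lam p A)) A := MulAction.compHom _ Ψ
  have hsm : ∀ (g : A) (c : ↥(Lam p A)) (x : A),
      ((g, c) : A × ↥(Lam p A)) • x = g * (c : Equiv.Perm A) x * g⁻¹ := fun _ _ _ => rfl
  have hcard : ∀ K : Subgroup ↥(Lam p A), ordProj[p] (Nat.card K) = Nat.card K := by
    intro K
    obtain ⟨n, hn⟩ := IsPGroup.iff_card.1 (hCp.to_subgroup K)
    rw [hn, hp.factorization_pow]
    simp
  have hcard' : ordProj[p] (Nat.card ↥(Lam p A)) = Nat.card ↥(Lam p A) := by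
    obtain ⟨n, hn⟩ := IsPGroup.iff_card.1 hCp
    rw [hn, hp.factorization_pow]
    simp
  have key := orb_dvd_p (p := p) (T := A × ↥(Lam p A)) (X := A)
    (fun x => ((Nat.card ↥(Lam p A) : ℕ) : ℤ) * (if PRat p x then 0 else φ x)) ?_ (p : ℤ) ?_
  · rw [← Finset.mul_sum, Nat.card_prod, Nat.ordProj_mul p Nat.card_pos.ne' Nat.card_pos.ne',
      hcard'] at key
    have h1 : (((Nat.card ↥(Lam p A) : ℕ) : ℤ)) ≠ 0 := by
      exact_mod_cast (Nat.card_pos (α := ↥(Lam p A))).ne'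
    have h2 : (p : ℤ) * ((ordProj[p] (Nat.card A) * Nat.card ↥(Lam p A) : ℕ) : ℤ)
        = ((Nat.card ↥(Lam p A) : ℕ) : ℤ) * ((p : ℤ) * (ordProj[p] (Nat.card A) : ℕ)) := by
      push_cast
      ring
    rw [h2] at key
    exact (mul_dvd_mul_iff_left h1).1 key
  · rintro ⟨g, c⟩ x
    simp only [hsm, hcl, phi_perm hj c.2]
    have h1 : PRat p (g * (c : Equiv.Perm A) x * g⁻¹) ↔ PRat p x :=
      (pRat_conj g _).trans (pRat_perm c.2 x)
    congr 1
    exact if_congr h1 rfl rfl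
  · intro x
    by_cases hx : PRat p x
    · simp only [if_pos hx, mul_zero]
      exact dvd_zero _
    by_cases hφ : φ x = 0
    · simp only [hφ, ite_self, mul_zero]
      exact dvd_zero _
    simp only [if_neg hx]
    let S : Subgroup (A × ↥(Lam p A)) := MulAction.stabilizer (A × ↥(Lam p A)) x
    let π : ↥S →* ↥(Lam p A) := (MonoidHom.snd A ↥(Lam p A)).comp S.subtype
    have hπ : ∀ s : ↥S, π s = (s : A × ↥(Lam p A)).2 := fun s => rfl
    have hker : Nat.card π.ker = Nat.card (Subgroup.centralizer ({x} : Set A)) := by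
      refine Nat.card_congr
        { toFun := fun s => ⟨((s : ↥S) : A × ↥(Lam p A)).1, ?_⟩
          invFun := fun g => ⟨⟨((g : A), 1), ?_⟩, ?_⟩
          left_inv := ?_
          right_inv := ?_ }
      · have h2 : ((s : ↥S) : A × ↥(Lam p A)).2 = 1 := s.2
        have h3 : (((s : ↥S) : A × ↥(Lam p A))) • x = x := (s : ↥S).2
        have h4 := hsm ((s : ↥S) : A × ↥(Lam p A)).1 ((s : ↥S) : A × ↥(Lam p A)).2 x
        rw [Prod.mk.eta, h3, h2] at h4
        rw [Subgroup.mem_centralizer_singleton_iff]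
        have h5 : x = ((s : ↥S) : A × ↥(Lam p A)).1 * x * (((s : ↥S) : A × ↥(Lam p A)).1)⁻¹ := h4
        exact (mul_inv_eq_iff_eq_mul.1 h5.symm)
      · change (g : A) * x * (g : A)⁻¹ = x
        have h5 := Subgroup.mem_centralizer_singleton_iff.1 g.2
        rw [mul_inv_eq_iff_eq_mul]
        exact h5
      · rfl
      · intro s
        apply Subtype.ext
        apply Subtype.ext
        have h2 : ((s : ↥S) : A × ↥(Lam p A)).2 = 1 := s.2
        exact Prod.ext rfl h2.symm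
      · intro g
        rfl
    have hidx : p ∣ π.range.index := by
      obtain ⟨n, hn⟩ := hCp.index π.range
      have h1 : n ≠ 0 := by
        rintro rfl
        rw [pow_zero, Subgroup.index_eq_one] at hn
        apply hx
        intro j hj1
        obtain ⟨i, hi1, hi2, hi3⟩ := exists_galJ hpA hj1
        let σ : ↥(Lam p A) := ⟨powCoprime hi1.1, i, hi1, hi2, fun _ => rfl⟩
        have h2 : σ ∈ π.range := by
          rw [hn]
          exact Subgroup.mem_top _
        obtain ⟨s, hs⟩ := h2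
        rw [hπ] at hs
        have h3 : ((s : A × ↥(Lam p A))) • x = x := s.2
        have h4 := hsm (s : A × ↥(Lam p A)).1 (s : A × ↥(Lam p A)).2 x
        rw [Prod.mk.eta, h3, hs] at h4
        have h5 : x = (s : A × ↥(Lam p A)).1 * x ^ i * ((s : A × ↥(Lam p A)).1)⁻¹ := h4
        rw [← hi3 x (hpel x hφ)]
        exact (isConj_iff.2 ⟨_, h5.symm⟩).symm
      rw [hn]
      exact dvd_pow_self p h1
    have h1 : Nat.card ↥S = Nat.card π.ker * Nat.card π.range := by
      rw [← Subgroup.index_ker, Subgroup.card_mul_index]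
    have h2 : Nat.card π.range * π.range.index = Nat.card ↥(Lam p A) :=
      Subgroup.card_mul_index _
    obtain ⟨i, hi⟩ := hidx
    obtain ⟨d, hd'⟩ := hd x hφ
    change (p : ℤ) * ((ordProj[p] (Nat.card ↥S) : ℕ) : ℤ) ∣ _
    rw [h1, Nat.ordProj_mul p Nat.card_pos.ne' Nat.card_pos.ne', hcard, hker, ← h2, hi, hd']
    refine ⟨(i : ℤ) * d, ?_⟩
    push_cast
    ring

end GalE

end Pool.Agent.Lib.P0c8ca5
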