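import Mathlib
import Pool.Agent.Lib.P0c8ca5V.GalD
import Pool.Agent.Lib.P0c8ca5V.GalE

/-! Only the p-rational elements count. -/

namespace Pool.Agent.Lib.P0c8ca5

open RotAux

section
variable {p : ℕ} {A : Type*} [Group A]

open Classical in
/-- the triples counted by `bB` with p-rational `u` -/
noncomputable def bR (p : ℕ) (m : A → ℤ) : ℤ :=
  ∑ᶠ t : A × A × A, if (Pel p (uu t) ∧ uu t ≠ 1) ∧ PRat p (uu t) ∧
    Opr p (⊤ : Subgroup A) ≤ gen t then m t.2.2 else 0

open Classical in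
/-- the pairs counted by `pB` with p-rational `x` -/
noncomputable def pR (p q s : ℕ) (m : A → ℤ) : ℤ :=
  ∑ᶠ y : A × A, if (Pel p y.1 ∧ y.1 ^ q ≠ 1) ∧ PRat p y.1 ∧ y.2 ^ s = 1 ∧
    Opr p (⊤ : Subgroup A) ≤ Subgroup.closure {y.1, y.2} then m ((y.1 * y.2) ^ q) else 0

namespace GalFAux

theorem ordProj_one [Fact p.Prime] {n : ℕ} (h : ¬ p ∣ n) : ordProj[p] n = 1 := by
  rw [Nat.factorization_eq_zero_of_not_dvd h, pow_zero]

/-- conjugation action of the centralizer on triples -/
@[reducible] def actC (x : A) : MulAction (Subgroup.centralizer ({x} : Set A)) (A × A × A) where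
  smul g t := cj3 (g : A) t
  one_smul t := cj3_one t
  mul_smul g h t := cj3_mul (g : A) (h : A) t

/-- conjugation action of the centralizer on elements -/
@[reducible] def actD (x : A) : MulAction (Subgroup.centralizer ({x} : Set A)) A where
  smul g z := (g : A) * z * (g : A)⁻¹
  one_smul z := by
    change (1 : A) * z * (1 : A)⁻¹ = z
    simp
  mul_smul g h z := by
    change (g : A) * h * z * ((g : A) * h)⁻¹ = g * (h * z * (h : A)⁻¹) * (g : A)⁻¹
    group

theorem phT_dvd [Fact p.Prime] [Fintype A] (hO : NoP p (⊤ : Subgroup A)) {m : A → ℤ}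
    (hm : IsWt p ⊤ m) (u : A) :
    ((ordProj[p] (Nat.card (Subgroup.centralizer ({u} : Set A))) : ℕ) : ℤ)
      ∣ GalD.phT p m u := by
  classical
  have key := @orb_dvd_p p _ (Subgroup.centralizer ({u} : Set A)) (A × A × A) _ _ (actC u) _
    (fun t => if uu t = u ∧ Opr p (⊤ : Subgroup A) ≤ gen t then m t.2.2 else 0) ?_ 1 ?_
  · rw [one_mul] at key
    exact key
  · intro g t
    have h2 : uu (cj3 (g : A) t) = u ↔ uu t = u := by
      rw [uu_cj3']
      have hg : u * (g : A) = g * u := Subgroup.mem_centralizer_singleton_iff.1 g.2 |>.symm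
      constructor
      · intro h
        rw [mul_inv_eq_iff_eq_mul, hg] at h
        exact mul_left_cancel h
      · intro h
        rw [h, mul_inv_eq_iff_eq_mul, hg]
    have h3 : Opr p (⊤ : Subgroup A) ≤ gen (cj3 (g : A) t) ↔ Opr p (⊤ : Subgroup A) ≤ gen t := by
      rw [gen_cj3]
      conv_lhs => rw [← map_Opr_top (p := p) (g : A)]
      exact Subgroup.map_le_map_iff_of_injective (MulAut.conj (g : A)).injective
    change (if uu (cj3 (g : A) t) = u ∧ Opr p (⊤ : Subgroup A) ≤ gen (cj3 (g : A) t) then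
      m ((g : A) * t.2.2 * (g : A)⁻¹) else 0) = _
    rw [hm.conj (g : A) (Subgroup.mem_top _)]
    exact if_congr (and_congr h2 h3) rfl rfl
  · intro t
    by_cases h : uu t = u ∧ Opr p (⊤ : Subgroup A) ≤ gen t
    · have h1 : ¬ p ∣ Nat.card (@MulAction.stabilizer (Subgroup.centralizer ({u} : Set A))
          (A × A × A) _ (actC u) t) := by
        intro h2
        obtain ⟨g, hg⟩ := exists_prime_orderOf_dvd_card' p h2
        have h3 : cj3 ((g : Subgroup.centralizer ({u} : Set A)) : A) t = t := g.2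
        refine no_p_cent hO h.2 h3 ?_
        rw [Subgroup.orderOf_coe, Subgroup.orderOf_coe, hg]
      rw [ordProj_one h1]
      simp
    · simp only [if_neg h]
      exact dvd_zero _

theorem phP_dvd [Fact p.Prime] [Fintype A] (hO : NoP p (⊤ : Subgroup A)) {q s : ℕ} {m : A → ℤ}
    (hm : IsWt p ⊤ m) (x : A) :
    ((ordProj[p] (Nat.card (Subgroup.centralizer ({x} : Set A))) : ℕ) : ℤ)
      ∣ GalD.phP p q s m x := by
  classical
  let _ := actD x
  have hsm : ∀ (g : Subgroup.centralizer ({x} : Set A)) (z : A),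
      g • z = (g : A) * z * (g : A)⁻¹ := fun _ _ => rfl
  have hgx : ∀ g : Subgroup.centralizer ({x} : Set A), (g : A) * x * (g : A)⁻¹ = x := by
    intro g
    rw [mul_inv_eq_iff_eq_mul]
    exact Subgroup.mem_centralizer_singleton_iff.1 g.2
  have key := orb_dvd_p (p := p) (T := Subgroup.centralizer ({x} : Set A)) (X := A)
    (fun z => if z ^ s = 1 ∧ Opr p (⊤ : Subgroup A) ≤ Subgroup.closure {x, z} then
      m ((x * z) ^ q) else 0) ?_ 1 ?_
  · rw [one_mul] at key
    exact key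
  · intro g z
    simp only [hsm]
    have h2 : ((g : A) * z * (g : A)⁻¹) ^ s = 1 ↔ z ^ s = 1 := by rw [conj_pow, conj_eq_one_iff]
    have h3 := GalD.opr_closure_conj (p := p) (g : A) x z
    rw [hgx g] at h3
    have hgx' : (g : A) * x = x * g := Subgroup.mem_centralizer_singleton_iff.1 g.2
    have h4 : m ((x * ((g : A) * z * (g : A)⁻¹)) ^ q) = m ((x * z) ^ q) := by
      have h5 : x * ((g : A) * z * (g : A)⁻¹) = (g : A) * (x * z) * (g : A)⁻¹ := by
        rw [← mul_assoc, ← mul_assoc, ← hgx', mul_assoc (g : A) x z]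
      rw [h5, conj_pow, hm.conj (g : A) (Subgroup.mem_top _)]
    rw [h4]
    exact if_congr (and_congr h2 h3) rfl rfl
  · intro z
    by_cases h : z ^ s = 1 ∧ Opr p (⊤ : Subgroup A) ≤ Subgroup.closure {x, z}
    · have h1 : ¬ p ∣ Nat.card (MulAction.stabilizer (Subgroup.centralizer ({x} : Set A)) z) := by
        intro h2
        obtain ⟨g, hg⟩ := exists_prime_orderOf_dvd_card' p h2
        have h3 : ((g : Subgroup.centralizer ({x} : Set A)) : A) * z *
            ((g : Subgroup.centralizer ({x} : Set A)) : A)⁻¹ = z := g.2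
        have h4 : cj3 ((g : Subgroup.centralizer ({x} : Set A)) : A) (x, z, 1) = (x, z, 1) := by
          unfold cj3
          simp only [hgx, h3]
          simp
        have h5 : Opr p (⊤ : Subgroup A) ≤ gen (x, z, (1 : A)) := by
          refine h.2.trans ?_
          unfold gen
          refine Subgroup.closure_mono ?_
          rintro y (rfl | rfl)
          · simp
          · simp
        refine no_p_cent hO h5 h4 ?_
        rw [Subgroup.orderOf_coe, Subgroup.orderOf_coe, hg]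
      rw [ordProj_one h1]
      simp
    · simp only [if_neg h]
      exact dvd_zero _

theorem pel_conj'' (g x : A) : Pel p (g * x * g⁻¹) ↔ Pel p x := by
  unfold Pel
  refine exists_congr fun n => ?_
  rw [conj_pow]
  exact conj_eq_one_iff

theorem pel_pow [Finite A] {j : ℕ} (hj : (Nat.card A).Coprime j) (x : A) :
    Pel p (x ^ j) ↔ Pel p x := by
  unfold Pel
  refine exists_congr fun n => ?_
  rw [← pow_mul, mul_comm, pow_mul]
  constructor
  · intro h
    exact (powCoprime hj).injective (by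
      change (x ^ p ^ n) ^ j = (1 : A) ^ j
      rw [h, one_pow])
  · intro h
    rw [h, one_pow]

theorem pow_one_iff [Finite A] {j : ℕ} (hj : (Nat.card A).Coprime j) (x : A) (q : ℕ) :
    (x ^ j) ^ q = 1 ↔ x ^ q = 1 := by
  rw [← pow_mul, mul_comm, pow_mul]
  constructor
  · intro h
    exact (powCoprime hj).injective (by
      change (x ^ q) ^ j = (1 : A) ^ j
      rw [h, one_pow])
  · intro h
    rw [h, one_pow]

/-- general form -/
theorem gen_rat [Fact p.Prime] [Fintype A] (q : ℕ) {ψ : A → ℤ}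
    (hcl : ∀ c x, ψ (c * x * c⁻¹) = ψ x)
    (hj : ∀ j, GalJ p A j → ∀ x, ψ (x ^ j) = ψ x)
    (hd : ∀ x, ((ordProj[p] (Nat.card (Subgroup.centralizer ({x} : Set A))) : ℕ) : ℤ) ∣ ψ x)
    [DecidablePred fun x : A => (Pel p x ∧ x ^ q ≠ 1) ∧ ¬ PRat p x] :
    (p : ℤ) * (ordProj[p] (Nat.card A) : ℕ) ∣
      ∑ x : A, if (Pel p x ∧ x ^ q ≠ 1) ∧ ¬ PRat p x then ψ x else 0 := by
  classical
  have h := GalE.rat_sum (p := p) (A := A)
    (φ := fun x => if Pel p x ∧ x ^ q ≠ 1 then ψ x else 0) (fun c x => ?_) (fun x hx => ?_)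
    (fun j hjj x => ?_) (fun x hx => ?_)
  · have h1 : ∑ x : A, (if (Pel p x ∧ x ^ q ≠ 1) ∧ ¬ PRat p x then ψ x else 0)
        = ∑ x : A, if PRat p x then 0 else (if Pel p x ∧ x ^ q ≠ 1 then ψ x else 0) := by
      refine Finset.sum_congr rfl fun x _ => ?_
      by_cases h2 : PRat p x
      · rw [if_pos h2, if_neg (fun h3 => h3.2 h2)]
      · rw [if_neg h2]
        exact if_congr ⟨fun h3 => h3.1, fun h3 => ⟨h3, h2⟩⟩ rfl rfl
    rw [h1]
    exact h
  · have h1 : (Pel p (c * x * c⁻¹) ∧ (c * x * c⁻¹) ^ q ≠ 1) ↔ (Pel p x ∧ x ^ q ≠ 1) := by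
      rw [pel_conj'', conj_pow, Ne, conj_eq_one_iff]
    simp only [hcl]
    exact if_congr h1 rfl rfl
  · by_contra h1
    exact hx (if_neg (fun h2 => h1 h2.1))
  · have h1 : (Pel p (x ^ j) ∧ (x ^ j) ^ q ≠ 1) ↔ (Pel p x ∧ x ^ q ≠ 1) := by
      rw [pel_pow hjj.1, Ne, pow_one_iff hjj.1]
    simp only [hj j hjj]
    exact if_congr h1 rfl rfl
  · by_cases h1 : Pel p x ∧ x ^ q ≠ 1
    · simp only [if_pos h1]
      exact hd x
    · simp only [if_neg h1]
      exact dvd_zero _

end GalFAux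

open GalFAux

theorem bB_rat [Fact p.Prime] [Finite A] (hO : NoP p (⊤ : Subgroup A)) {m : A → ℤ}
    (hm : IsWt p ⊤ m) :
    (p : ℤ) * (ordProj[p] (Nat.card A) : ℕ) ∣ bB p (⊤ : Subgroup A) m - bR p m := by
  classical
  have : Fintype A := Fintype.ofFinite A
  have h := gen_rat (p := p) 1 (ψ := GalD.phT p m) (GalD.phT_conj hm)
    (fun j hj x => GalD.phT_pow hm hj x) (phT_dvd hO hm)
  have h1 : bB p (⊤ : Subgroup A) m - bR p m
      = ∑ x : A, if (Pel p x ∧ x ^ 1 ≠ 1) ∧ ¬ PRat p x then GalD.phT p m x else 0 := by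
    have h2 : ∀ x : A, (if (Pel p x ∧ x ^ 1 ≠ 1) ∧ ¬ PRat p x then GalD.phT p m x else 0)
        = ∑ t : A × A × A, if uu t = x then (if (Pel p (uu t) ∧ uu t ≠ 1) ∧ ¬ PRat p (uu t) ∧
          Opr p (⊤ : Subgroup A) ≤ gen t then m t.2.2 else 0) else 0 := by
      intro x
      unfold GalD.phT
      split_ifs with hx
      · refine Finset.sum_congr rfl fun t _ => ?_
        by_cases h3 : uu t = x
        · rw [if_pos h3]
          rw [pow_one] at hx
          refine if_congr ?_ rfl rfl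
          rw [h3]
          exact ⟨fun h => ⟨hx.1, hx.2, h.2⟩, fun h => ⟨rfl, h.2.2⟩⟩
        · rw [if_neg h3, if_neg (fun h => h3 h.1)]
      · symm
        refine Finset.sum_eq_zero fun t _ => ?_
        by_cases h3 : uu t = x
        · rw [if_pos h3, if_neg]
          rintro ⟨h4, h5, _⟩
          apply hx
          rw [pow_one, ← h3]
          exact ⟨h4, h5⟩
        · rw [if_neg h3]
    rw [Finset.sum_congr rfl (fun x _ => h2 x), Finset.sum_comm]
    unfold bB bR
    rw [finsum_eq_sum_of_fintype, finsum_eq_sum_of_fintype, ← Finset.sum_sub_distrib]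
    refine Finset.sum_congr rfl fun t _ => ?_
    rw [Finset.sum_ite_eq Finset.univ (uu t), if_pos (Finset.mem_univ _)]
    change (if gen t ≤ (⊤ : Subgroup A) ∧ Opr p (⊤ : Subgroup A) ≤ gen t then
      (if Pel p (uu t) ∧ uu t ≠ 1 then m t.2.2 else 0) else 0) - _ = _
    by_cases h3 : Pel p (uu t) ∧ uu t ≠ 1
    · by_cases h4 : Opr p (⊤ : Subgroup A) ≤ gen t
      · by_cases h5 : PRat p (uu t)
        · rw [if_pos ⟨le_top, h4⟩, if_pos h3, if_pos ⟨h3, h5, h4⟩, if_neg (fun h => h.2.1 h5),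
            sub_self]
        · rw [if_pos ⟨le_top, h4⟩, if_pos h3, if_neg (fun h => h5 h.2.1), if_pos ⟨h3, h5, h4⟩,
            sub_zero]
      · rw [if_neg (fun h => h4 h.2), if_neg (fun h => h4 h.2.2), if_neg (fun h => h4 h.2.2),
          sub_zero]
    · have e1 : (if gen t ≤ (⊤ : Subgroup A) ∧ Opr p (⊤ : Subgroup A) ≤ gen t then
          (if Pel p (uu t) ∧ uu t ≠ 1 then m t.2.2 else 0) else 0) = 0 := by
        rw [if_neg h3, ite_self]
      have e2 : (if (Pel p (uu t) ∧ uu t ≠ 1) ∧ PRat p (uu t) ∧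
          Opr p (⊤ : Subgroup A) ≤ gen t then m t.2.2 else 0) = 0 := if_neg (fun h => h3 h.1)
      have e3 : (if (Pel p (uu t) ∧ uu t ≠ 1) ∧ ¬ PRat p (uu t) ∧
          Opr p (⊤ : Subgroup A) ≤ gen t then m t.2.2 else 0) = 0 := if_neg (fun h => h3 h.1)
      rw [e1, e2, e3, sub_zero]
  rw [h1]
  exact h

theorem pB_rat [Fact p.Prime] [Finite A] (hO : NoP p (⊤ : Subgroup A)) {q s : ℕ} {m : A → ℤ}
    (hm : IsWt p ⊤ m) :
    (p : ℤ) * (ordProj[p] (Nat.card A) : ℕ) ∣ pB p q s m - pR p q s m := by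
  classical
  have : Fintype A := Fintype.ofFinite A
  have h := gen_rat (p := p) q (ψ := GalD.phP p q s m) (GalD.phP_conj hm)
    (fun j hj x => GalD.phP_pow hm hj x) (phP_dvd hO hm)
  have h1 : pB p q s m - pR p q s m
      = ∑ x : A, if (Pel p x ∧ x ^ q ≠ 1) ∧ ¬ PRat p x then GalD.phP p q s m x else 0 := by
    unfold pB pR
    rw [finsum_eq_sum_of_fintype, finsum_eq_sum_of_fintype, ← Finset.sum_sub_distrib,
      Fintype.sum_prod_type]
    refine Finset.sum_congr rfl fun x _ => ?_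
    unfold GalD.phP
    split_ifs with hx
    · refine Finset.sum_congr rfl fun z _ => ?_
      rw [if_neg (c := (Pel p x ∧ x ^ q ≠ 1) ∧ PRat p x ∧ z ^ s = 1 ∧
        Opr p (⊤ : Subgroup A) ≤ Subgroup.closure {x, z}) (fun h => hx.2 h.2.1), sub_zero]
      refine if_congr ?_ rfl rfl
      exact ⟨fun h => h.2.2, fun h => ⟨hx.1.1, hx.1.2, h⟩⟩
    · refine Finset.sum_eq_zero fun z _ => ?_
      by_cases h3 : Pel p x ∧ x ^ q ≠ 1
      · have h4 : PRat p x := by
          by_contra h5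
          exact hx ⟨h3, h5⟩
        rw [sub_eq_zero]
        refine if_congr ?_ rfl rfl
        exact ⟨fun h => ⟨h3, h4, h.2.2⟩, fun h => ⟨h3.1, h3.2, h.2.2⟩⟩
      · rw [if_neg (fun h => h3 ⟨h.1, h.2.1⟩), if_neg (fun h => h3 h.1), sub_zero]
  rw [h1]
  exact h

end

end Pool.Agent.Lib.P0c8ca5
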