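import Mathlib
import Pool.Agent.Lib.P0c8ca5Bw.NR

/-! The block of `G ≀ C_p` over a product of blocks of `G` which is not invariant under rotation. -/

namespace Pool.Agent.Lib.P0c8ca5

open MonoidAlgebra Wr Bw

set_option linter.unusedSectionVars false

variable {p : ℕ} [Fact p.Prime] {k : Type*} [Field k] [IsAlgClosed k] [CharP k p]
  {G : Type*} [Group G] [Finite G]

/-- the sum of the rotations of a product -/
noncomputable def elT (p : ℕ) [Fact p.Prime] (β : Cp p → MonoidAlgebra k G) :
    MonoidAlgebra k (WG p G) := ∑ a : Cp p, elF p (fun q => β (a⁻¹ * q))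

namespace NRp

theorem elF_inj {β β' : Cp p → MonoidAlgebra k G} (hβ : ∀ q, IsBlock (⊤ : Subgroup G) (β q))
    (hβ' : ∀ q, IsBlock (⊤ : Subgroup G) (β' q)) (h : elF p β = elF p β') : β = β' := by
  rw [elF_eq_tr, elF_eq_tr] at h
  have h1 := tr_injOn _ (fun _ _ => Subgroup.mem_top _) (fun _ _ => Subgroup.mem_top _) h
  exact pt_idem_inj h1 (fun q => (hβ q).idem) (fun q => (hβ' q).idem)
    (fun q => (hβ' q).ne_zero)

theorem exists_block (p : ℕ) [Fact p.Prime] {k : Type*} [Field k] [IsAlgClosed k] [CharP k p]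
    {A : Type*} [Group A] [Fintype A] {c : MonoidAlgebra k A} (hc : c ≠ 0) :
    ∃ E : MonoidAlgebra k A, IsBlock (⊤ : Subgroup A) E ∧ E * c ≠ 0 := by
  classical
  let Bl : Finset (MonoidAlgebra k A) := (finite_isBlock (k := k) (⊤ : Subgroup A)).toFinset
  have hBl : ∀ b, b ∈ Bl ↔ IsBlock (⊤ : Subgroup A) b ∧ b * 1 ≠ 0 := by
    intro b
    rw [Set.Finite.mem_toFinset, mul_one]
    exact ⟨fun hb => ⟨hb, IsBlock.ne_zero hb⟩, fun hb => hb.1⟩
  have h1 := WSumAux.sum_blocks (p := p) (fixAlg k (⊤ : Subgroup A) ⊤).one_mem (one_mul 1) Bl hBl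
  by_contra hcon
  push Not at hcon
  apply hc
  rw [← one_mul c, ← h1, Finset.sum_mul]
  exact Finset.sum_eq_zero fun b hb => hcon b ((hBl b).1 hb).1

theorem fin_WG : Finite (WG p G) :=
  Finite.of_equiv _ (RegularWreathProduct.equivProd G (Cp p)).symm

end NRp

open NRp

/-- The block over a product of blocks which is not invariant under rotation, and the difference of
its numbers of irreducible Brauer characters and weights. -/
theorem block_over {β : Cp p → MonoidAlgebra k G} (hβ : ∀ q, IsBlock (⊤ : Subgroup G) (β q))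
    (hne : ∀ a : Cp p, a ≠ 1 → (fun q => β (a⁻¹ * q)) ≠ β) :
    IsBlock (⊤ : Subgroup (WG p G)) (elT p β) ∧
    gap p (⊤ : Subgroup (WG p G)) ⊤ (elT p β)
      = ∏ q, (Nat.card (Quotient (irrInvSetoid (⊤ : Subgroup G) ⊥ (β q))) : ℚ)
        - ∏ q, ((Nat.card (Quotient (irrInvSetoid (⊤ : Subgroup G) ⊥ (β q))) : ℚ)
          - gap p (⊤ : Subgroup G) ⊤ (β q)) := by
  classical
  have : Fintype G := Fintype.ofFinite G
  have : Finite (WG p G) := fin_WG
  have : Fintype (WG p G) := Fintype.ofFinite _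
  obtain ⟨c, hcdef⟩ : ∃ c : MonoidAlgebra k (WG p G), c = elF p β := ⟨_, rfl⟩
  have hc : IsBlock (bs p G) c := by rw [hcdef]; exact isBlock_elF hβ
  have hcj : ∀ g : WG p G, cj g c = elF p (fun q => β (g.right⁻¹ * q)) := by
    intro g
    rw [hcdef]
    exact cj_elF (fun q => (hβ q).invBy) g
  have hY : ∀ g, g ∈ bs p G ↔ cj g c = c := by
    intro g
    rw [mem_bs, hcj]
    constructor
    · intro hg
      rw [hg, hcdef]
      congr 1
      funext q
      rw [inv_one, one_mul]
    · intro h
      by_contra hg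
      rw [hcdef] at h
      exact hne _ hg (elF_inj (fun q => hβ _) hβ h)
  obtain ⟨E, hE, hEc⟩ := NRp.exists_block p hc.ne_zero
  have hst : IsBlock (bs p G) (E * c) := Fr.isBlock_stab (p := p) bs_normal hE hc hEc hY
  have hEc1 : E * c = c := by
    rcases hst.eq_or_mul_eq_zero hc with h | h
    · exact h
    · rw [mul_assoc, hc.idem] at h
      exact absurd h hEc
  have hgap : gap p (⊤ : Subgroup (WG p G)) ⊤ E = gap p (bs p G) (bs p G) c := by
    rw [gap_stab bs_normal hE hc hEc hY, hEc1]
  -- the sum of the conjugates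
  have hterm : ∀ a : Cp p, elF p (fun q => β (a⁻¹ * q)) = cj (⟨1, a⟩ : WG p G) c := by
    intro a
    rw [hcj]
  have hbl : ∀ a : Cp p, IsBlock (bs p G) (elF p (fun q => β (a⁻¹ * q))) :=
    fun a => isBlock_elF (fun q => hβ _)
  have hdist : ∀ a a' : Cp p, a ≠ a' →
      elF p (fun q => β (a⁻¹ * q)) * elF p (fun q => β (a'⁻¹ * q)) = 0 := by
    intro a a' haa
    rcases (hbl a).eq_or_mul_eq_zero (hbl a') with h | h
    · exfalso
      have h1 := elF_inj (fun q => hβ _) (fun q => hβ _) h
      apply hne (a'⁻¹ * a) (by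
        intro h2
        apply haa
        rw [inv_mul_eq_one] at h2
        exact h2.symm)
      funext q
      have h2 := congrFun h1 (a' * q)
      simp only [inv_mul_cancel_left] at h2
      rw [← h2]
      congr 1
      rw [mul_inv_rev, inv_inv, mul_assoc]
    · exact h
  have hET : E * elT p β = elT p β := by
    unfold elT
    rw [Finset.mul_sum]
    refine Finset.sum_congr rfl fun a _ => ?_
    rw [hterm]
    have h3 := congrArg (cj (⟨1, a⟩ : WG p G)) hEc1
    rwa [cj_mul, Fr.cj_top hE.mem] at h3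
  have hidem : elT p β * elT p β = elT p β := by
    unfold elT
    rw [Finset.sum_mul]
    refine Finset.sum_congr rfl fun a _ => ?_
    rw [Finset.mul_sum, Finset.sum_eq_single a]
    · exact (hbl a).idem
    · intro a' _ h
      exact hdist a a' (Ne.symm h)
    · intro h
      exact absurd (Finset.mem_univ _) h
  have hmem : elT p β ∈ fixAlg k (⊤ : Subgroup (WG p G)) ⊤ := by
    rw [mem_fixAlg]
    refine ⟨fun x _ => Subgroup.mem_top x, ?_⟩
    intro g _ x
    have h1 : cj g⁻¹ (elT p β) = elT p β := by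
      unfold elT
      have h2 : cj g⁻¹ (∑ a : Cp p, elF p (fun q => β (a⁻¹ * q)))
          = ∑ a : Cp p, cj g⁻¹ (elF p (fun q => β (a⁻¹ * q))) := by
        ext y
        rw [coeff_cj]
        simp only [coeff_sum, Finsupp.finset_sum_apply, coeff_cj]
      rw [h2]
      have h3 : ∀ a : Cp p, cj g⁻¹ (elF p (fun q => β (a⁻¹ * q)))
          = elF p (fun q => β (((g⁻¹).right * a)⁻¹ * q)) := by
        intro a
        rw [cj_elF (fun q => (hβ _).invBy)]
        congr 1
        funext q
        congr 1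
        rw [mul_inv_rev, mul_assoc]
      rw [Finset.sum_congr rfl fun a _ => h3 a]
      exact Equiv.sum_comp (Equiv.mulLeft (g⁻¹).right) (fun a => elF p (fun q => β (a⁻¹ * q)))
    have h2 := congrArg (fun z : MonoidAlgebra k (WG p G) => z.coeff x) h1
    rw [← h2]
    simp only [coeff_cj]
    congr 1
    group
  have hT0 : elT p β ≠ 0 := by
    intro h
    have h1 : elT p β * c = c := by
      unfold elT
      rw [Finset.sum_mul, Finset.sum_eq_single 1]
      · have h2 : elF p (fun q => β ((1 : Cp p)⁻¹ * q)) = c := by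
          rw [hcdef]
          congr 1
          funext q
          rw [inv_one, one_mul]
        rw [h2, hc.idem]
      · intro a _ ha
        have h3 := hdist a 1 ha
        have h2 : elF p (fun q => β ((1 : Cp p)⁻¹ * q)) = c := by
          rw [hcdef]
          congr 1
          funext q
          rw [inv_one, one_mul]
        rwa [h2] at h3
      · intro h
        exact absurd (Finset.mem_univ _) h
    rw [h, zero_mul] at h1
    exact hc.ne_zero h1.symm
  have hEq : E = elT p β := by
    rcases hE.mul_eq hmem hidem with h | h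
    · exfalso
      apply hT0
      rw [← hET]
      have h1 : E * elT p β = elT p β * E := Fr.comm_top hE.mem _
      rw [h1]
      exact h
    · have h1 : E * elT p β = elT p β * E := Fr.comm_top hE.mem _
      rw [← h, ← h1, hET]
  refine ⟨hEq ▸ hE, ?_⟩
  rw [← hEq, hgap]
  have g2 := gap_Ws (p := p) hc
  have hl : Nat.card (Quotient (irrInvSetoid (bs p G) ⊥ c)) =
      ∏ q, Nat.card (Quotient (irrInvSetoid (⊤ : Subgroup G) ⊥ (β q))) := by
    rw [hcdef, card_irrF hβ]
  have hW : Fr.Ws p (bs p G) c = ∏ q, Fr.Ws p (⊤ : Subgroup G) (β q) := by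
    rw [hcdef, Ws_elF hβ]
  rw [card_bsF, hl, hW] at g2
  push_cast at g2
  have hpos : (Nat.card G : ℚ) ≠ 0 := by
    exact_mod_cast (Nat.card_pos (α := G)).ne'
  have hWq : ∀ q, (Fr.Ws p (⊤ : Subgroup G) (β q) : ℚ) = (Nat.card G : ℚ) *
      ((Nat.card (Quotient (irrInvSetoid (⊤ : Subgroup G) ⊥ (β q))) : ℚ) -
        gap p (⊤ : Subgroup G) ⊤ (β q)) := by
    intro q
    have g1 := gap_Ws (p := p) (hβ q)
    rw [Subgroup.card_top] at g1
    rw [mul_sub, g1]
    ring
  have hprod : ∏ q, (Fr.Ws p (⊤ : Subgroup G) (β q) : ℚ) = (Nat.card G : ℚ) ^ p *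
      ∏ q, ((Nat.card (Quotient (irrInvSetoid (⊤ : Subgroup G) ⊥ (β q))) : ℚ) -
        gap p (⊤ : Subgroup G) ⊤ (β q)) := by
    rw [Finset.prod_congr rfl fun q _ => hWq q, Finset.prod_mul_distrib, Finset.prod_const,
      Finset.card_univ]
    congr 2
    rw [← Nat.card_eq_fintype_card]
    exact Nat.card_zmod p
  rw [hprod] at g2
  apply mul_left_cancel₀ (pow_ne_zero p hpos)
  rw [g2]
  ring

end Pool.Agent.Lib.P0c8ca5
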