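import Mathlib
import Pool.Agent.Lib.P0c8ca5V.Defs

/-! Toggling lemma for chains whose least member is not normal in all members. -/

namespace Pool.Agent.Lib.P0c8ca5

variable {p : ℕ} {A : Type*} [Group A]

namespace NTogAux

theorem sN_insert [DecidableEq (Subgroup A)] (T : Subgroup A) (σ : Finset (Subgroup A)) :
    sN (insert T σ) = Subgroup.normalizer (T : Set A) ⊓ sN σ := by
  unfold sN
  rw [Finset.iInf_insert]

theorem mem_sN {x : A} {σ : Finset (Subgroup A)} :
    x ∈ sN σ ↔ ∀ Q ∈ σ, x ∈ Subgroup.normalizer (Q : Set A) := by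
  unfold sN
  simp only [Subgroup.mem_iInf]

theorem norm_bot : Subgroup.normalizer ((⊥ : Subgroup A) : Set A) = ⊤ := by
  rw [eq_top_iff]
  intro x _
  rw [Subgroup.mem_normalizer_iff_map_conj_eq, Subgroup.map_bot]

/-- normalizers grow in p-groups -/
theorem grow [Fact p.Prime] [Finite A] {P P' : Subgroup A} (hp : IsPGroup p P') (h : P ≤ P')
    (hn : ¬ P' ≤ Subgroup.normalizer (P : Set A)) :
    P' ⊓ Subgroup.normalizer (P : Set A) ≠ P := by
  intro he
  have : Group.IsNilpotent P' := hp.isNilpotent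
  have hc : NormalizerCondition P' := Group.normalizerCondition_of_isNilpotent
  have hlt : P.subgroupOf P' < ⊤ := by
    rw [lt_top_iff_ne_top]
    intro h1
    rw [Subgroup.subgroupOf_eq_top] at h1
    exact hn (h1.trans Subgroup.le_normalizer)
  obtain ⟨x, hx, hx2⟩ := SetLike.exists_of_lt (hc _ hlt)
  have hxP : (x : A) ∉ P := fun h1 => hx2 (Subgroup.mem_subgroupOf.2 h1)
  have hxN : (x : A) ∈ Subgroup.normalizer (P : Set A) := by
    rw [Subgroup.mem_normalizer_iff] at hx ⊢
    intro y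
    constructor
    · intro hy
      have h1 := (hx ⟨y, h hy⟩).1 (Subgroup.mem_subgroupOf.2 hy)
      exact Subgroup.mem_subgroupOf.1 h1
    · intro hy
      have hy' : y ∈ P' := by
        have h2 : (x : A)⁻¹ * ((x : A) * y * (x : A)⁻¹) * (x : A) ∈ P' :=
          P'.mul_mem (P'.mul_mem (P'.inv_mem x.2) (h hy)) x.2
        have h3 : (x : A)⁻¹ * ((x : A) * y * (x : A)⁻¹) * (x : A) = y := by group
        rwa [h3] at h2
      have h1 := (hx ⟨y, hy'⟩).2 (Subgroup.mem_subgroupOf.2 hy)
      exact Subgroup.mem_subgroupOf.1 h1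
  apply hxP
  rw [← he]
  exact Subgroup.mem_inf.2 ⟨x.2, hxN⟩

/-- `P` is the least member, `P'` the least member not normalizing `P` -/
def Spec (σ : Finset (Subgroup A)) (P P' : Subgroup A) : Prop :=
  P ∈ σ ∧ (∀ Q ∈ σ, P ≤ Q) ∧ P' ∈ σ ∧ ¬ P' ≤ Subgroup.normalizer (P : Set A) ∧
    ∀ Q ∈ σ, ¬ Q ≤ Subgroup.normalizer (P : Set A) → P' ≤ Q

theorem spec_unique {σ : Finset (Subgroup A)} {P P' R R' : Subgroup A} (h : Spec σ P P')
    (h' : Spec σ R R') : P = R ∧ P' = R' := by
  obtain ⟨h1, h2, h3, h4, h5⟩ := h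
  obtain ⟨k1, k2, k3, k4, k5⟩ := h'
  have e : P = R := le_antisymm (h2 R k1) (k2 P h1)
  subst e
  exact ⟨rfl, le_antisymm (h5 _ k3 k4) (k5 _ h3 h4)⟩

open Classical in
/-- the toggled subgroup -/
noncomputable def tg (σ : Finset (Subgroup A)) : Subgroup A :=
  if h : ∃ x : Subgroup A × Subgroup A, Spec σ x.1 x.2 then
    h.choose.2 ⊓ Subgroup.normalizer (h.choose.1 : Set A) else ⊥

theorem tg_eq {σ : Finset (Subgroup A)} {P P' : Subgroup A} (h : Spec σ P P') :
    tg σ = P' ⊓ Subgroup.normalizer (P : Set A) := by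
  have he : ∃ x : Subgroup A × Subgroup A, Spec σ x.1 x.2 := ⟨(P, P'), h⟩
  unfold tg
  rw [dif_pos he]
  obtain ⟨e1, e2⟩ := spec_unique he.choose_spec h
  rw [e1, e2]

/-- the condition -/
def Bad (p : ℕ) (σ : Finset (Subgroup A)) : Prop :=
  IsCh p σ ∧ ∃ P ∈ σ, (∀ Q ∈ σ, P ≤ Q) ∧ ∃ Q ∈ σ, ¬ Q ≤ Subgroup.normalizer (P : Set A)

open Classical in
theorem exists_spec {σ : Finset (Subgroup A)} (h : Bad p σ) : ∃ P P', Spec σ P P' := by
  obtain ⟨⟨hc, hp⟩, P, hP, hle, Q, hQ, hQn⟩ := h
  have hne : (σ.filter fun R => ¬ R ≤ Subgroup.normalizer (P : Set A)).Nonempty :=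
    ⟨Q, Finset.mem_filter.2 ⟨hQ, hQn⟩⟩
  obtain ⟨M, hM, hmin⟩ := Finset.exists_minimal hne
  have hMσ := Finset.mem_filter.1 hM
  refine ⟨P, M, hP, hle, hMσ.1, hMσ.2, ?_⟩
  intro R hR hRn
  have hR' : R ∈ σ.filter fun R => ¬ R ≤ Subgroup.normalizer (P : Set A) :=
    Finset.mem_filter.2 ⟨hR, hRn⟩
  rcases hc.total hMσ.1 hR with h1 | h1
  · exact h1
  · exact hmin hR' h1

theorem bad_of_spec {σ : Finset (Subgroup A)} {P P' : Subgroup A} (hc : IsCh p σ)
    (h : Spec σ P P') : Bad p σ :=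
  ⟨hc, P, h.1, h.2.1, P', h.2.2.1, h.2.2.2.1⟩

theorem spec_insert [DecidableEq (Subgroup A)] {σ : Finset (Subgroup A)} {P P' : Subgroup A}
    (h : Spec σ P P') :
    Spec (insert (P' ⊓ Subgroup.normalizer (P : Set A)) σ) P P' := by
  obtain ⟨h1, h2, h3, h4, h5⟩ := h
  refine ⟨Finset.mem_insert_of_mem h1, ?_, Finset.mem_insert_of_mem h3, h4, ?_⟩
  · intro Q hQ
    rcases Finset.mem_insert.1 hQ with rfl | hQ
    · exact le_inf (h2 _ h3) Subgroup.le_normalizer
    · exact h2 Q hQ
  · intro Q hQ hQn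
    rcases Finset.mem_insert.1 hQ with rfl | hQ
    · exact absurd inf_le_right hQn
    · exact h5 Q hQ hQn

theorem spec_erase [DecidableEq (Subgroup A)] {σ : Finset (Subgroup A)} {P P' T : Subgroup A}
    (h : Spec σ P P') (hT : T ≠ P) (hT' : T ≠ P') : Spec (σ.erase T) P P' := by
  obtain ⟨h1, h2, h3, h4, h5⟩ := h
  exact ⟨Finset.mem_erase.2 ⟨hT.symm, h1⟩, fun Q hQ => h2 Q (Finset.mem_of_mem_erase hQ),
    Finset.mem_erase.2 ⟨hT'.symm, h3⟩, h4, fun Q hQ => h5 Q (Finset.mem_of_mem_erase hQ)⟩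

theorem isCh_mono {σ τ : Finset (Subgroup A)} (h : IsCh p σ) (hs : τ ⊆ σ) : IsCh p τ :=
  ⟨h.1.mono (Finset.coe_subset.2 hs), fun Q hQ => h.2 Q (hs hQ)⟩

theorem isCh_insert [DecidableEq (Subgroup A)] {σ : Finset (Subgroup A)} {P P' : Subgroup A}
    (hc : IsCh p σ) (h : Spec σ P P') :
    IsCh p (insert (P' ⊓ Subgroup.normalizer (P : Set A)) σ) := by
  obtain ⟨h1, h2, h3, h4, h5⟩ := h
  refine ⟨?_, ?_⟩
  · rw [Finset.coe_insert]
    refine hc.1.insert ?_
    intro Q hQ _
    have hQσ : Q ∈ σ := hQ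
    by_cases hQn : Q ≤ Subgroup.normalizer (P : Set A)
    · right
      rcases hc.1.total h3 hQσ with h6 | h6
      · exact absurd (h6.trans hQn) h4
      · exact le_inf h6 hQn
    · left
      exact inf_le_left.trans (h5 Q hQσ hQn)
  · intro Q hQ
    rcases Finset.mem_insert.1 hQ with rfl | hQ
    · refine ⟨(hc.2 _ h3).1.to_le inf_le_left, ?_⟩
      intro h6
      have h7 : P ≤ P' ⊓ Subgroup.normalizer (P : Set A) :=
        le_inf (h2 _ h3) Subgroup.le_normalizer
      rw [h6] at h7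
      exact (hc.2 _ h1).2 (le_bot_iff.1 h7)
    · exact hc.2 Q hQ

open Classical in
/-- the involution -/
noncomputable def inv (σ : Finset (Subgroup A)) : Finset (Subgroup A) :=
  if tg σ ∈ σ then σ.erase (tg σ) else insert (tg σ) σ

open Classical in
theorem inv_spec [Fact p.Prime] [Finite A] {σ : Finset (Subgroup A)} {P P' : Subgroup A}
    (hc : IsCh p σ) (h : Spec σ P P') : IsCh p (inv σ) ∧ Spec (inv σ) P P' := by
  have ht := tg_eq h
  have h1 : tg σ ≠ P := by
    rw [ht]
    exact grow (hc.2 _ h.2.2.1).1 (h.2.1 _ h.2.2.1) h.2.2.2.1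
  have h2 : tg σ ≠ P' := by
    intro h3
    apply h.2.2.2.1
    rw [← h3, ht]
    exact inf_le_right
  unfold inv
  split_ifs with h3
  · exact ⟨isCh_mono hc (Finset.erase_subset _ _), spec_erase h h1 h2⟩
  · rw [ht]
    exact ⟨isCh_insert hc h, spec_insert h⟩

open Classical in
theorem inv_inv [Fact p.Prime] [Finite A] {σ : Finset (Subgroup A)} (h : Bad p σ) :
    inv (inv σ) = σ := by
  obtain ⟨P, P', hs⟩ := exists_spec h
  obtain ⟨h1, h2⟩ := inv_spec h.1 hs
  have ht : tg (inv σ) = tg σ := by rw [tg_eq h2, tg_eq hs]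
  by_cases hT : tg σ ∈ σ
  · have e1 : inv σ = σ.erase (tg σ) := if_pos hT
    have e2 : tg (inv σ) ∉ inv σ := by
      rw [ht, e1]
      exact Finset.notMem_erase _ _
    have e3 : inv (inv σ) = insert (tg (inv σ)) (inv σ) := if_neg e2
    rw [e3, ht, e1, Finset.insert_erase hT]
  · have e1 : inv σ = insert (tg σ) σ := if_neg hT
    have e2 : tg (inv σ) ∈ inv σ := by
      rw [ht, e1]
      exact Finset.mem_insert_self _ _
    have e3 : inv (inv σ) = (inv σ).erase (tg (inv σ)) := if_pos e2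
    rw [e3, ht, e1, Finset.erase_insert hT]

theorem inv_ne (σ : Finset (Subgroup A)) : inv σ ≠ σ := by
  classical
  by_cases hT : tg σ ∈ σ
  · have h1 : inv σ = σ.erase (tg σ) := if_pos hT
    rw [h1]
    intro h
    rw [Finset.erase_eq_self] at h
    exact h hT
  · have h1 : inv σ = insert (tg σ) σ := if_neg hT
    rw [h1]
    intro h
    rw [Finset.insert_eq_self] at h
    exact hT h

theorem sN_toggle [DecidableEq (Subgroup A)] {σ : Finset (Subgroup A)} {P P' : Subgroup A}
    (h : Spec σ P P') : sN (insert (P' ⊓ Subgroup.normalizer (P : Set A)) σ) = sN σ := by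
  rw [sN_insert]
  refine le_antisymm inf_le_right (le_inf ?_ le_rfl)
  intro x hx
  have h1 := mem_sN.1 hx P h.1
  have h2 := mem_sN.1 hx P' h.2.2.1
  rw [Subgroup.mem_normalizer_iff]
  intro y
  have e1 := (Subgroup.mem_normalizer_iff.1 h2) y
  have hxN : x ∈ Subgroup.normalizer (P : Set A) := h1
  have e2 : y ∈ Subgroup.normalizer (P : Set A) ↔ x * y * x⁻¹ ∈ Subgroup.normalizer (P : Set A) := by
    constructor
    · intro hy
      exact Subgroup.mul_mem _ (Subgroup.mul_mem _ hxN hy) (Subgroup.inv_mem _ hxN)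
    · intro hy
      have h3 := Subgroup.mul_mem _ (Subgroup.mul_mem _ (Subgroup.inv_mem _ hxN) hy) hxN
      have h4 : x⁻¹ * (x * y * x⁻¹) * x = y := by group
      rwa [h4] at h3
  constructor
  · intro hy
    obtain ⟨a, b⟩ := Subgroup.mem_inf.1 hy
    exact Subgroup.mem_inf.2 ⟨e1.1 a, e2.1 b⟩
  · intro hy
    obtain ⟨a, b⟩ := Subgroup.mem_inf.1 hy
    exact Subgroup.mem_inf.2 ⟨e1.2 a, e2.2 b⟩

open Classical in
theorem cancel [Fact p.Prime] [Finite A] (F : Subgroup A → ℤ) {σ : Finset (Subgroup A)}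
    (h : Bad p σ) :
    (-1) ^ σ.card * F (sN σ) + (-1) ^ (inv σ).card * F (sN (inv σ)) = 0 := by
  obtain ⟨P, P', hs⟩ := exists_spec h
  have ht := tg_eq hs
  by_cases hT : tg σ ∈ σ
  · have e1 : inv σ = σ.erase (tg σ) := if_pos hT
    obtain ⟨h1, h2⟩ := inv_spec h.1 hs
    have e2 : insert (tg σ) (inv σ) = σ := by rw [e1, Finset.insert_erase hT]
    have e3 : tg σ ∉ inv σ := by
      rw [e1]
      exact Finset.notMem_erase _ _
    have e4 : σ.card = (inv σ).card + 1 := by
      rw [← Finset.card_insert_of_notMem e3, e2]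
    have e5 : sN σ = sN (inv σ) := by
      have := sN_toggle h2
      rw [← ht, e2] at this
      exact this
    rw [e4, e5]
    ring
  · have e1 : inv σ = insert (tg σ) σ := if_neg hT
    have e5 : sN (inv σ) = sN σ := by
      rw [e1, ht]
      exact sN_toggle hs
    have e4 : (inv σ).card = σ.card + 1 := by
      rw [e1, Finset.card_insert_of_notMem hT]
    rw [e4, e5]
    ring

open Classical in
/-- the least member -/
noncomputable def lst (σ : Finset (Subgroup A)) : Subgroup A :=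
  if h : ∃ P ∈ σ, ∀ Q ∈ σ, P ≤ Q then h.choose else ⊥

theorem lst_eq {σ : Finset (Subgroup A)} {P : Subgroup A} (hP : P ∈ σ) (h : ∀ Q ∈ σ, P ≤ Q) :
    lst σ = P := by
  have he : ∃ P ∈ σ, ∀ Q ∈ σ, P ≤ Q := ⟨P, hP, h⟩
  unfold lst
  rw [dif_pos he]
  exact le_antisymm (he.choose_spec.2 P hP) (h _ he.choose_spec.1)

/-- the good chains -/
def Good (p : ℕ) (σ : Finset (Subgroup A)) : Prop :=
  IsCh p σ ∧ ∃ P ∈ σ, (∀ Q ∈ σ, P ≤ Q) ∧ ∀ Q ∈ σ, Q ≤ Subgroup.normalizer (P : Set A)

/-- the pairs -/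
def Pr (p : ℕ) (x : Subgroup A × Finset (Subgroup A)) : Prop :=
  IsPGroup p x.1 ∧ IsCh p x.2 ∧
    (∀ P ∈ x.2, x.1 < P ∧ P ≤ Subgroup.normalizer (x.1 : Set A))

end NTogAux

open Classical in
/-- The alternating sum of `F (sN σ)` over all nonempty chains `σ` whose least member `P` is not
normalized by all members vanishes. Proof: let `P'` be the least member of `σ` not normalizing `P`
and toggle `P' ⊓ N(P)`, which is not `P`. -/
theorem ntoggle [Fact p.Prime] [Finite A] (F : Subgroup A → ℤ) :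
    ∑ᶠ σ : Finset (Subgroup A), (if IsCh p σ ∧ ∃ P ∈ σ, (∀ Q ∈ σ, P ≤ Q) ∧
        ∃ Q ∈ σ, ¬ Q ≤ Subgroup.normalizer (P : Set A)
      then (-1) ^ σ.card * F (sN σ) else 0) = 0 := by
  have : Fintype (Subgroup A) := Fintype.ofFinite _
  rw [finsum_eq_sum_of_fintype]
  refine (Finset.sum_congr rfl fun σ _ => ?_).trans
    ((Finset.sum_filter (fun σ : Finset (Subgroup A) => NTogAux.Bad p σ)
      (fun σ => (-1) ^ σ.card * F (sN σ))).symm.trans ?_)
  · by_cases h : NTogAux.Bad p σ
    · rw [if_pos h]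
      exact if_pos h
    · rw [if_neg h]
      exact if_neg h
  refine Finset.sum_involution (fun σ _ => NTogAux.inv σ) ?_ ?_ ?_ ?_
  · intro σ hσ
    exact NTogAux.cancel F (Finset.mem_filter.1 hσ).2
  · intro σ _ _
    exact NTogAux.inv_ne σ
  · intro σ hσ
    have h : NTogAux.Bad p σ := (Finset.mem_filter.1 hσ).2
    obtain ⟨P, P', hs⟩ := NTogAux.exists_spec h
    obtain ⟨h1, h2⟩ := NTogAux.inv_spec h.1 hs
    exact Finset.mem_filter.2 ⟨Finset.mem_univ _, NTogAux.bad_of_spec h1 h2⟩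
  · intro σ hσ
    exact NTogAux.inv_inv (p := p) (Finset.mem_filter.1 hσ).2

open Classical in
/-- Consequence: the sum over all pairs (p-subgroup `Q`, chain `τ` of p-subgroups strictly
containing `Q` and normalizing `Q`) of `(-1)^|τ| F (N(Q) ⊓ sN τ)` is `F ⊤`. -/
theorem pairs_sum [Fact p.Prime] [Finite A] (F : Subgroup A → ℤ) :
    ∑ᶠ x : Subgroup A × Finset (Subgroup A),
      (if IsPGroup p x.1 ∧ IsCh p x.2 ∧ (∀ P ∈ x.2, x.1 < P ∧ P ≤ Subgroup.normalizer (x.1 : Set A))
        then (-1) ^ x.2.card * F (Subgroup.normalizer (x.1 : Set A) ⊓ sN x.2) else 0) = F ⊤ := by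
  have hnt := ntoggle (p := p) F
  have : Fintype (Subgroup A) := Fintype.ofFinite _
  rw [finsum_eq_sum_of_fintype] at hnt
  rw [finsum_eq_sum_of_fintype]
  have hnt2 : ∑ σ ∈ Finset.univ.filter (fun σ : Finset (Subgroup A) => NTogAux.Bad p σ),
      (-1) ^ σ.card * F (sN σ) = 0 := by
    rw [← hnt, Finset.sum_filter]
    refine Finset.sum_congr rfl fun σ _ => ?_
    by_cases h : NTogAux.Bad p σ
    · rw [if_pos h]
      exact (if_pos h).symm
    · rw [if_neg h]
      exact (if_neg h).symm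
  refine (Finset.sum_congr rfl fun x _ => ?_).trans
    ((Finset.sum_filter (fun x : Subgroup A × Finset (Subgroup A) => NTogAux.Pr p x)
      (fun x => (-1) ^ x.2.card * F (Subgroup.normalizer (x.1 : Set A) ⊓ sN x.2))).symm.trans ?_)
  · by_cases h : NTogAux.Pr p x
    · rw [if_pos h]
      exact if_pos h
    · rw [if_neg h]
      exact if_neg h
  set W : Finset (Subgroup A) → ℤ := fun σ => (-1) ^ σ.card * F (sN σ) with hW
  set X : Finset (Subgroup A × Finset (Subgroup A)) :=
    Finset.univ.filter (fun x : Subgroup A × Finset (Subgroup A) => NTogAux.Pr p x) with hX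
  -- the chains
  have hall : ∑ σ ∈ Finset.univ.filter (fun σ : Finset (Subgroup A) => IsCh p σ), W σ =
      F ⊤ + ∑ σ ∈ Finset.univ.filter (fun σ : Finset (Subgroup A) => NTogAux.Good p σ), W σ := by
    have hsplit : Finset.univ.filter (fun σ : Finset (Subgroup A) => IsCh p σ) =
        insert ∅ ((Finset.univ.filter (fun σ : Finset (Subgroup A) => NTogAux.Good p σ)) ∪
          (Finset.univ.filter (fun σ : Finset (Subgroup A) => NTogAux.Bad p σ))) := by
      ext σ
      simp only [Finset.mem_filter, Finset.mem_univ, true_and, Finset.mem_insert,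
        Finset.mem_union]
      constructor
      · intro hc
        by_cases hne : σ = ∅
        · exact Or.inl hne
        · right
          obtain ⟨M, hM, hmin⟩ := Finset.exists_minimal (Finset.nonempty_iff_ne_empty.2 hne)
          have hle : ∀ Q ∈ σ, M ≤ Q := by
            intro Q hQ
            rcases hc.1.total hM hQ with h1 | h1
            · exact h1
            · exact hmin hQ h1
          by_cases hb : ∃ Q ∈ σ, ¬ Q ≤ Subgroup.normalizer (M : Set A)
          · exact Or.inr ⟨hc, M, hM, hle, hb⟩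
          · refine Or.inl ⟨hc, M, hM, hle, ?_⟩
            intro Q hQ
            by_contra h1
            exact hb ⟨Q, hQ, h1⟩
      · rintro (rfl | h | h)
        · exact ⟨by simp, by simp⟩
        · exact h.1
        · exact h.1
    have hdisj : Disjoint (Finset.univ.filter (fun σ : Finset (Subgroup A) => NTogAux.Good p σ))
        (Finset.univ.filter (fun σ : Finset (Subgroup A) => NTogAux.Bad p σ)) := by
      rw [Finset.disjoint_filter]
      rintro σ _ ⟨_, P, hP, hle, hall⟩ ⟨_, R, hR, hle', Q, hQ, hQn⟩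
      have e : P = R := le_antisymm (hle R hR) (hle' P hP)
      subst e
      exact hQn (hall Q hQ)
    have hemp : (∅ : Finset (Subgroup A)) ∉
        ((Finset.univ.filter (fun σ : Finset (Subgroup A) => NTogAux.Good p σ)) ∪
          (Finset.univ.filter (fun σ : Finset (Subgroup A) => NTogAux.Bad p σ))) := by
      simp only [Finset.mem_union, Finset.mem_filter, Finset.mem_univ, true_and, not_or]
      constructor
      · rintro ⟨_, P, hP, _⟩
        simp at hP
      · rintro ⟨_, P, hP, _⟩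
        simp at hP
    have hbad : ∑ σ ∈ Finset.univ.filter (fun σ : Finset (Subgroup A) => NTogAux.Bad p σ), W σ
        = 0 := hnt2
    have hW0 : W ∅ = F ⊤ := by
      simp only [hW, Finset.card_empty, pow_zero, one_mul]
      congr 1
      unfold sN
      simp
    rw [hsplit, Finset.sum_insert hemp, Finset.sum_union hdisj, hbad, add_zero, hW0]
  -- the pairs with trivial first entry
  have hbot : ∑ x ∈ X.filter (fun x => x.1 = ⊥),
      (-1) ^ x.2.card * F (Subgroup.normalizer (x.1 : Set A) ⊓ sN x.2) =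
      ∑ σ ∈ Finset.univ.filter (fun σ : Finset (Subgroup A) => IsCh p σ), W σ := by
    refine Finset.sum_bij' (fun x _ => x.2) (fun σ _ => ((⊥ : Subgroup A), σ)) ?_ ?_ ?_ ?_ ?_
    · intro x hx
      simp only [hX, Finset.mem_filter, Finset.mem_univ, true_and] at hx ⊢
      exact hx.1.2.1
    · intro σ hσ
      simp only [hX, Finset.mem_filter, Finset.mem_univ, true_and] at hσ ⊢
      refine ⟨⟨IsPGroup.of_bot, hσ, ?_⟩, trivial⟩
      intro P hP
      refine ⟨bot_lt_iff_ne_bot.2 (hσ.2 P hP).2, ?_⟩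
      have h1 := NTogAux.norm_bot (A := A)
      show P ≤ Subgroup.normalizer ((⊥ : Subgroup A) : Set A)
      rw [h1]
      exact le_top
    · intro x hx
      simp only [hX, Finset.mem_filter, Finset.mem_univ, true_and] at hx
      exact Prod.ext hx.2.symm rfl
    · intro σ _
      rfl
    · intro x hx
      simp only [hX, Finset.mem_filter, Finset.mem_univ, true_and] at hx
      rw [hx.2, NTogAux.norm_bot, top_inf_eq]
  -- the others
  have hne : ∑ x ∈ X.filter (fun x => ¬ x.1 = ⊥),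
      (-1) ^ x.2.card * F (Subgroup.normalizer (x.1 : Set A) ⊓ sN x.2) =
      - ∑ σ ∈ Finset.univ.filter (fun σ : Finset (Subgroup A) => NTogAux.Good p σ), W σ := by
    rw [← Finset.sum_neg_distrib]
    refine Finset.sum_bij' (fun x _ => insert x.1 x.2)
      (fun σ _ => (NTogAux.lst σ, σ.erase (NTogAux.lst σ))) ?_ ?_ ?_ ?_ ?_
    · intro x hx
      simp only [hX, Finset.mem_filter, Finset.mem_univ, true_and] at hx ⊢
      obtain ⟨⟨h1, h2, h3⟩, h4⟩ := hx
      refine ⟨⟨?_, ?_⟩, x.1, Finset.mem_insert_self _ _, ?_, ?_⟩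
      · rw [Finset.coe_insert]
        refine h2.1.insert ?_
        intro Q hQ _
        exact Or.inl (h3 Q hQ).1.le
      · intro Q hQ
        rcases Finset.mem_insert.1 hQ with rfl | hQ
        · exact ⟨h1, h4⟩
        · exact h2.2 Q hQ
      · intro Q hQ
        rcases Finset.mem_insert.1 hQ with rfl | hQ
        · exact le_rfl
        · exact (h3 Q hQ).1.le
      · intro Q hQ
        rcases Finset.mem_insert.1 hQ with rfl | hQ
        · exact Subgroup.le_normalizer
        · exact (h3 Q hQ).2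
    · intro σ hσ
      simp only [hX, Finset.mem_filter, Finset.mem_univ, true_and] at hσ ⊢
      obtain ⟨hc, P, hP, hle, hn⟩ := hσ
      rw [NTogAux.lst_eq hP hle]
      refine ⟨⟨(hc.2 P hP).1, NTogAux.isCh_mono hc (Finset.erase_subset _ _), ?_⟩, (hc.2 P hP).2⟩
      intro R hR
      obtain ⟨hR1, hR2⟩ := Finset.mem_erase.1 hR
      exact ⟨lt_of_le_of_ne (hle R hR2) (Ne.symm hR1), hn R hR2⟩
    · intro x hx
      simp only [hX, Finset.mem_filter, Finset.mem_univ, true_and] at hx
      obtain ⟨⟨h1, h2, h3⟩, h4⟩ := hx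
      have hl : NTogAux.lst (insert x.1 x.2) = x.1 := by
        refine NTogAux.lst_eq (Finset.mem_insert_self _ _) ?_
        intro Q hQ
        rcases Finset.mem_insert.1 hQ with rfl | hQ
        · exact le_rfl
        · exact (h3 Q hQ).1.le
      have hnm : x.1 ∉ x.2 := fun h => lt_irrefl _ (h3 _ h).1
      show (NTogAux.lst (insert x.1 x.2), (insert x.1 x.2).erase (NTogAux.lst (insert x.1 x.2))) = x
      rw [hl, Finset.erase_insert hnm]
    · intro σ hσ
      simp only [Finset.mem_filter, Finset.mem_univ, true_and] at hσ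
      obtain ⟨hc, P, hP, hle, hn⟩ := hσ
      show insert (NTogAux.lst σ) (σ.erase (NTogAux.lst σ)) = σ
      rw [NTogAux.lst_eq hP hle, Finset.insert_erase hP]
    · intro x hx
      simp only [hX, Finset.mem_filter, Finset.mem_univ, true_and] at hx
      obtain ⟨⟨h1, h2, h3⟩, h4⟩ := hx
      have hnm : x.1 ∉ x.2 := fun h => lt_irrefl _ (h3 _ h).1
      show _ = - ((-1) ^ (insert x.1 x.2).card * F (sN (insert x.1 x.2)))
      rw [Finset.card_insert_of_notMem hnm, NTogAux.sN_insert]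
      ring
  have hgoal := Finset.sum_filter_add_sum_filter_not X (fun x => x.1 = ⊥)
    (fun x => (-1) ^ x.2.card * F (Subgroup.normalizer (x.1 : Set A) ⊓ sN x.2))
  rw [hbot, hne, hall] at hgoal
  have : ∑ x ∈ X, (-1) ^ x.2.card * F (Subgroup.normalizer (x.1 : Set A) ⊓ sN x.2) = F ⊤ := by
    rw [← hgoal]
    ring
  exact this

end Pool.Agent.Lib.P0c8ca5
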