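import Mathlib
import Pool.Agent.Lib.P0c8ca5V.NTog
import Pool.Agent.Lib.P0c8ca5V.Quo

/-! `nL(A)` is the sum over all p-subgroups `Q` of `|Q|` times `eL` of `N(Q)/Q`. -/

namespace Pool.Agent.Lib.P0c8ca5

variable {p : ℕ} {A : Type*} [Group A]

namespace QCorAux

/-- chains of p-subgroups of `N(Q)` strictly containing `Q` -/
def Up (p : ℕ) (Q : Subgroup A) (τ : Finset (Subgroup A)) : Prop :=
  IsCh p τ ∧ ∀ P ∈ τ, Q < P ∧ P ≤ Subgroup.normalizer (Q : Set A)

theorem pre_sec' {Q P : Subgroup A} (h1 : Q ≤ P) (h2 : P ≤ Subgroup.normalizer (Q : Set A)) :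
    pre Q (sec P Q) = P := by
  ext x
  rw [mem_pre]
  constructor
  · rintro ⟨hx, hx'⟩
    exact (qm_mem_sec_iff h1).1 hx'
  · intro hx
    exact ⟨h2 hx, qm_mem_sec _ hx⟩

theorem pre_le' {Q : Subgroup A} (P : Subgroup (NQ Q)) :
    pre Q P ≤ Subgroup.normalizer (Q : Set A) := by
  intro x hx
  obtain ⟨h, -⟩ := mem_pre.1 hx
  exact h

theorem pre_mono' {Q : Subgroup A} {P P' : Subgroup (NQ Q)} (h : P ≤ P') :
    pre Q P ≤ pre Q P' := by
  intro x hx
  obtain ⟨hx', h1⟩ := mem_pre.1 hx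
  exact mem_pre.2 ⟨hx', h h1⟩

theorem lt_pre' {Q : Subgroup A} {P : Subgroup (NQ Q)} (h : P ≠ ⊥) : Q < pre Q P := by
  refine lt_of_le_of_ne (le_pre P) ?_
  intro he
  apply h
  rw [eq_bot_iff]
  intro w hw
  obtain ⟨x, hx, rfl⟩ := qm_surj w
  have h1 : x ∈ pre Q P := mem_pre.2 ⟨hx, hw⟩
  rw [← he] at h1
  exact Subgroup.mem_bot.2 (qm_eq_one_iff.2 h1)

theorem sec_ne_bot' {Q P : Subgroup A} (h1 : Q < P) (h2 : P ≤ Subgroup.normalizer (Q : Set A)) :
    sec P Q ≠ ⊥ := by
  intro he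
  obtain ⟨x, hx, hx2⟩ := SetLike.exists_of_lt h1
  have h3 : qm Q x (h2 hx) ∈ sec P Q := qm_mem_sec _ hx
  rw [he, Subgroup.mem_bot, qm_eq_one_iff] at h3
  exact hx2 h3

theorem mem_norm_sec {Q P : Subgroup A} (h1 : Q ≤ P) {x : A}
    (hx : x ∈ Subgroup.normalizer (Q : Set A)) (h2 : P ≤ Subgroup.normalizer (Q : Set A)) :
    qm Q x hx ∈ Subgroup.normalizer (sec P Q : Set (NQ Q))
      ↔ x ∈ Subgroup.normalizer (P : Set A) := by
  have key0 : ∀ y (hy : y ∈ Subgroup.normalizer (Q : Set A)),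
      qm Q x hx * qm Q y hy * (qm Q x hx)⁻¹ = qm Q (x * y * x⁻¹)
        ((Subgroup.normalizer (Q : Set A)).mul_mem
          ((Subgroup.normalizer (Q : Set A)).mul_mem hx hy)
          ((Subgroup.normalizer (Q : Set A)).inv_mem hx)) := fun y hy => rfl
  constructor
  · intro h
    rw [Subgroup.mem_normalizer_iff] at h ⊢
    have key : ∀ y (hy : y ∈ Subgroup.normalizer (Q : Set A)), y ∈ P ↔ x * y * x⁻¹ ∈ P := by
      intro y hy
      have h3 := h (qm Q y hy)
      rw [key0, qm_mem_sec_iff h1, qm_mem_sec_iff h1] at h3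
      exact h3
    intro y
    constructor
    · intro hy
      exact (key y (h2 hy)).1 hy
    · intro hy
      have h4 : y ∈ Subgroup.normalizer (Q : Set A) := by
        have h3 := (Subgroup.normalizer (Q : Set A)).mul_mem
          ((Subgroup.normalizer (Q : Set A)).mul_mem
          ((Subgroup.normalizer (Q : Set A)).inv_mem hx) (h2 hy)) hx
        have e2 : x⁻¹ * (x * y * x⁻¹) * x = y := by group
        rwa [e2] at h3
      exact (key y h4).2 hy
  · intro h
    rw [Subgroup.mem_normalizer_iff] at h ⊢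
    intro w
    obtain ⟨y, hy, rfl⟩ := qm_surj w
    rw [key0, qm_mem_sec_iff h1, qm_mem_sec_iff h1]
    exact h y

open Classical in
theorem sN_image {Q : Subgroup A} {τ : Finset (Subgroup A)} (h : Up p Q τ) :
    sN (τ.image fun P => sec P Q) = sec (Subgroup.normalizer (Q : Set A) ⊓ sN τ) Q := by
  ext w
  obtain ⟨x, hx, rfl⟩ := qm_surj w
  have hQ : Q ≤ Subgroup.normalizer (Q : Set A) ⊓ sN τ := by
    refine le_inf Subgroup.le_normalizer ?_
    intro y hy
    exact NTogAux.mem_sN.2 fun P hP => Subgroup.le_normalizer ((h.2 P hP).1.le hy)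
  rw [NTogAux.mem_sN, qm_mem_sec_iff hQ, Subgroup.mem_inf, NTogAux.mem_sN]
  constructor
  · intro h1
    refine ⟨hx, fun P hP => ?_⟩
    exact (mem_norm_sec (h.2 P hP).1.le hx (h.2 P hP).2).1
      (h1 _ (Finset.mem_image_of_mem _ hP))
  · rintro ⟨-, h1⟩ R hR
    obtain ⟨P, hP, rfl⟩ := Finset.mem_image.1 hR
    exact (mem_norm_sec (h.2 P hP).1.le hx (h.2 P hP).2).2 (h1 P hP)

open Classical in
theorem isCh_sec {Q : Subgroup A} {τ : Finset (Subgroup A)} (h : Up p Q τ) :
    IsCh p (τ.image fun P => sec P Q) := by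
  refine ⟨?_, ?_⟩
  · intro a ha b hb _
    obtain ⟨P, hP, rfl⟩ := Finset.mem_image.1 (Finset.mem_coe.1 ha)
    obtain ⟨R, hR, rfl⟩ := Finset.mem_image.1 (Finset.mem_coe.1 hb)
    rcases h.1.1.total hP hR with h1 | h1
    · exact Or.inl (sec_mono h1)
    · exact Or.inr (sec_mono h1)
  · intro a ha
    obtain ⟨P, hP, rfl⟩ := Finset.mem_image.1 ha
    refine ⟨?_, sec_ne_bot' (h.2 P hP).1 (h.2 P hP).2⟩
    exact ((h.1.2 P hP).1.comap_of_injective _ (Subgroup.subtype_injective _)).map _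

open Classical in
theorem up_pre {Q : Subgroup A} (hQ : IsPGroup p Q) {σ : Finset (Subgroup (NQ Q))}
    (h : IsCh p σ) : Up p Q (σ.image (pre Q)) := by
  refine ⟨⟨?_, ?_⟩, ?_⟩
  · intro a ha b hb _
    obtain ⟨P, hP, rfl⟩ := Finset.mem_image.1 (Finset.mem_coe.1 ha)
    obtain ⟨R, hR, rfl⟩ := Finset.mem_image.1 (Finset.mem_coe.1 hb)
    rcases h.1.total hP hR with h1 | h1
    · exact Or.inl (pre_mono' h1)
    · exact Or.inr (pre_mono' h1)
  · intro a ha
    obtain ⟨P, hP, rfl⟩ := Finset.mem_image.1 ha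
    refine ⟨isPGroup_pre hQ (h.2 P hP).1, ?_⟩
    have h1 := lt_pre' (h.2 P hP).2
    exact (lt_of_le_of_lt bot_le h1).ne'
  · intro a ha
    obtain ⟨P, hP, rfl⟩ := Finset.mem_image.1 ha
    exact ⟨lt_pre' (h.2 P hP).2, pre_le' P⟩

open Classical in
theorem image_sec_pre {Q : Subgroup A} (σ : Finset (Subgroup (NQ Q))) :
    (σ.image (pre Q)).image (fun P => sec P Q) = σ := by
  rw [Finset.image_image]
  conv_rhs => rw [← Finset.image_id (s := σ)]
  refine Finset.image_congr ?_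
  intro P _
  exact sec_pre P

open Classical in
theorem image_pre_sec {Q : Subgroup A} {τ : Finset (Subgroup A)} (h : Up p Q τ) :
    (τ.image fun P => sec P Q).image (pre Q) = τ := by
  rw [Finset.image_image]
  conv_rhs => rw [← Finset.image_id (s := τ)]
  refine Finset.image_congr ?_
  intro P hP
  exact pre_sec' (h.2 P hP).1.le (h.2 P hP).2

open Classical in
theorem card_image_sec {Q : Subgroup A} {τ : Finset (Subgroup A)} (h : Up p Q τ) :
    (τ.image fun P => sec P Q).card = τ.card := by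
  refine Finset.card_image_of_injOn ?_
  intro P hP R hR e
  have e1 : pre Q (sec P Q) = pre Q (sec R Q) := congrArg (pre Q) e
  rwa [pre_sec' (h.2 P hP).1.le (h.2 P hP).2, pre_sec' (h.2 R hR).1.le (h.2 R hR).2] at e1

end QCorAux

open QCorAux

open Classical in
/-- The chains of `N(Q)/Q` correspond to the chains of p-subgroups of `N(Q)` strictly
containing `Q`. -/
theorem eL_quo [Fact p.Prime] [Finite A] {Q : Subgroup A} (hQ : IsPGroup p Q) {m : A → ℤ}
    (hm : IsWt p ⊤ m) :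
    (Nat.card Q : ℤ) * eL p (mb Q m)
      = ∑ᶠ τ : Finset (Subgroup A),
          (if IsCh p τ ∧ (∀ P ∈ τ, Q < P ∧ P ≤ Subgroup.normalizer (Q : Set A))
            then (-1) ^ τ.card * nL p (Subgroup.normalizer (Q : Set A) ⊓ sN τ) m else 0) := by
  have hF1 : Fintype (Subgroup A) := Fintype.ofFinite _
  have hF2 : Fintype (Subgroup (NQ Q)) := Fintype.ofFinite _
  have eL' : eL p (mb Q m) = ∑ σ ∈ Finset.univ.filter
      (fun σ : Finset (Subgroup (NQ Q)) => IsCh p σ), (-1) ^ σ.card * nL p (sN σ) (mb Q m) := by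
    unfold eL chS
    rw [finsum_eq_sum_of_fintype, Finset.sum_filter]
  rw [eL', Finset.mul_sum, finsum_eq_sum_of_fintype]
  refine Eq.trans (Eq.symm ?_) ((Finset.sum_filter (fun τ : Finset (Subgroup A) => Up p Q τ)
    (fun τ => (-1) ^ τ.card * nL p (Subgroup.normalizer (Q : Set A) ⊓ sN τ) m)).trans
    (Finset.sum_congr rfl fun τ _ => ?_))
  swap
  · by_cases h : Up p Q τ
    · rw [if_pos h]
      exact (if_pos h).symm
    · rw [if_neg h]
      exact (if_neg h).symm
  refine Finset.sum_nbij' (fun τ => τ.image fun P => sec P Q) (fun σ => σ.image (pre Q))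
    ?_ ?_ ?_ ?_ ?_
  · intro τ hτ
    exact Finset.mem_filter.2 ⟨Finset.mem_univ _, isCh_sec (Finset.mem_filter.1 hτ).2⟩
  · intro σ hσ
    exact Finset.mem_filter.2 ⟨Finset.mem_univ _, up_pre hQ (Finset.mem_filter.1 hσ).2⟩
  · intro τ hτ
    exact image_pre_sec (p := p) (Finset.mem_filter.1 hτ).2
  · intro σ _
    exact image_sec_pre σ
  · intro τ hτ
    have h : Up p Q τ := (Finset.mem_filter.1 hτ).2
    have hQ' : Q ≤ Subgroup.normalizer (Q : Set A) ⊓ sN τ := by
      refine le_inf Subgroup.le_normalizer ?_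
      intro y hy
      exact NTogAux.mem_sN.2 fun P hP => Subgroup.le_normalizer ((h.2 P hP).1.le hy)
    have h1 := nL_quo hQ hQ' inf_le_left hm
    have h2 := sN_image h
    have h3 := card_image_sec h
    rw [h2, h3, ← h1]
    ring

open Classical in
theorem nL_decomp [Fact p.Prime] [Finite A] {m : A → ℤ} (hm : IsWt p ⊤ m) :
    nL p (⊤ : Subgroup A) m
      = ∑ᶠ Q : Subgroup A, (if IsPGroup p Q then (Nat.card Q : ℤ) * eL p (mb Q m) else 0) := by
  have hF1 : Fintype (Subgroup A) := Fintype.ofFinite _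
  rw [← pairs_sum (p := p) (fun U : Subgroup A => nL p U m), finsum_eq_sum_of_fintype,
    finsum_eq_sum_of_fintype, Fintype.sum_prod_type]
  refine Finset.sum_congr rfl fun Q _ => ?_
  by_cases hQ : IsPGroup p Q
  · rw [if_pos hQ, eL_quo hQ hm, finsum_eq_sum_of_fintype]
    refine Finset.sum_congr rfl fun τ _ => ?_
    by_cases h : IsCh p τ ∧ (∀ P ∈ τ, Q < P ∧ P ≤ Subgroup.normalizer (Q : Set A))
    · rw [if_pos h]
      exact if_pos ⟨hQ, h.1, h.2⟩
    · rw [if_neg h]
      exact if_neg fun h' => h ⟨h'.2.1, h'.2.2⟩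
  · rw [if_neg hQ]
    refine Finset.sum_eq_zero fun τ _ => ?_
    exact if_neg fun h' => hQ h'.1

end Pool.Agent.Lib.P0c8ca5
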