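import Mathlib
import Pool.Agent.Lib.P0c8ca5V.QCor
import Pool.Agent.Lib.P0c8ca5V.ChOrb

/-! The weight sum and the alternating sum (Knoerr-Robinson). -/

namespace Pool.Agent.Lib.P0c8ca5

universe u

namespace CCAux

section transport

variable {p : ℕ} {A : Type*} [Group A] {B : Type*} [Group B]

theorem pel_map (e : A ≃* B) (x : A) : Pel p (e x) ↔ Pel p x := by
  unfold Pel
  refine exists_congr fun n => ?_
  rw [← map_pow, map_eq_one_iff e e.injective]

theorem preg_map (e : A ≃* B) (x : A) : Preg p (e x) ↔ Preg p x := by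
  unfold Preg
  have h : orderOf (e x) = orderOf x := orderOf_injective e.toMonoidHom e.injective x
  rw [h]

theorem uexp_eq (e : A ≃* B) : uexp p B = uexp p A := by
  unfold uexp
  rw [Nat.card_congr e.toEquiv]

theorem pr_map (e : A ≃* B) (x : A) : pr p (e x) = e (pr p x) := by
  unfold pr
  rw [uexp_eq e, map_pow]

theorem cmt_map (e : A ≃* B) (a b : A) : cmt (e a) (e b) = e (cmt a b) := by
  unfold cmt
  simp

/-- the image of a subgroup -/
def mp (e : A ≃* B) (H : Subgroup A) : Subgroup B := H.map e.toMonoidHom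

theorem mem_mp (e : A ≃* B) (H : Subgroup A) (x : A) : e x ∈ mp e H ↔ x ∈ H := by
  unfold mp
  constructor
  · rintro ⟨y, hy, h⟩
    have h1 : e y = e x := h
    rw [← e.injective h1]
    exact hy
  · intro hx
    exact ⟨x, hx, rfl⟩

theorem mp_top (e : A ≃* B) : mp e (⊤ : Subgroup A) = ⊤ := by
  rw [eq_top_iff]
  intro y _
  have h := (mem_mp e ⊤ (e.symm y)).2 (Subgroup.mem_top _)
  rwa [MulEquiv.apply_symm_apply] at h

theorem nA_map (e : A ≃* B) (H : Subgroup A) (m : B → ℤ) :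
    nA p (mp e H) m = nA p H (fun x => m (e x)) := by
  classical
  unfold nA
  rw [← finsum_comp_equiv (Equiv.prodCongr e.toEquiv (Equiv.prodCongr e.toEquiv e.toEquiv))]
  refine finsum_congr fun t => ?_
  obtain ⟨a, b, c⟩ := t
  have h1 : ((e a ∈ mp e H ∧ e b ∈ mp e H ∧ e c ∈ mp e H) ∧ Pel p (cmt (e a) (e b) * e c)) ↔
      ((a ∈ H ∧ b ∈ H ∧ c ∈ H) ∧ Pel p (cmt a b * c)) := by
    rw [mem_mp, mem_mp, mem_mp, cmt_map, ← map_mul, pel_map]
  change (if (e a ∈ mp e H ∧ e b ∈ mp e H ∧ e c ∈ mp e H) ∧ Pel p (cmt (e a) (e b) * e c)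
    then m (e c) else 0) = if (a ∈ H ∧ b ∈ H ∧ c ∈ H) ∧ Pel p (cmt a b * c) then m (e c) else 0
  exact if_congr h1 rfl rfl

theorem nL_map (e : A ≃* B) (H : Subgroup A) (m : B → ℤ) :
    nL p (mp e H) m = nL p H (fun x => m (e x)) := by
  classical
  unfold nL
  rw [← finsum_comp_equiv (Equiv.prodCongr e.toEquiv (Equiv.prodCongr e.toEquiv e.toEquiv))]
  refine finsum_congr fun t => ?_
  obtain ⟨a, b, c⟩ := t
  have h1 : ((e a ∈ mp e H ∧ e b ∈ mp e H ∧ e c ∈ mp e H) ∧ Preg p (e a) ∧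
      pr p (e c * e a) = e b * e a * (e b)⁻¹) ↔
      ((a ∈ H ∧ b ∈ H ∧ c ∈ H) ∧ Preg p a ∧ pr p (c * a) = b * a * b⁻¹) := by
    have h2 : pr p (e c * e a) = e b * e a * (e b)⁻¹ ↔ pr p (c * a) = b * a * b⁻¹ := by
      rw [← map_mul, pr_map, ← map_mul, ← map_inv, ← map_mul]
      exact e.injective.eq_iff
    rw [mem_mp, mem_mp, mem_mp, preg_map, h2]
  change (if (e a ∈ mp e H ∧ e b ∈ mp e H ∧ e c ∈ mp e H) ∧ Preg p (e a) ∧
      pr p (e c * e a) = e b * e a * (e b)⁻¹ then m (e c) else 0) =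
    if (a ∈ H ∧ b ∈ H ∧ c ∈ H) ∧ Preg p a ∧ pr p (c * a) = b * a * b⁻¹ then m (e c) else 0
  exact if_congr h1 rfl rfl

/-- the induced bijection of the subgroups -/
def mpE (e : A ≃* B) : Subgroup A ≃ Subgroup B := (MulEquiv.mapSubgroup e).toEquiv

theorem mpE_apply (e : A ≃* B) (H : Subgroup A) : mpE e H = mp e H := rfl

theorem mp_le_mp (e : A ≃* B) (H K : Subgroup A) : mp e H ≤ mp e K ↔ H ≤ K :=
  (MulEquiv.mapSubgroup e).le_iff_le

theorem mp_bot (e : A ≃* B) (H : Subgroup A) : mp e H = ⊥ ↔ H = ⊥ := by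
  have h : (⊥ : Subgroup B) = mp e ⊥ := by
    unfold mp
    rw [Subgroup.map_bot]
  rw [h]
  exact (MulEquiv.mapSubgroup e).injective.eq_iff

theorem mp_isPGroup (e : A ≃* B) (H : Subgroup A) : IsPGroup p (mp e H) ↔ IsPGroup p H := by
  have e1 : H ≃* mp e H := H.equivMapOfInjective e.toMonoidHom e.injective
  constructor
  · intro h
    exact h.of_equiv e1.symm
  · intro h
    exact h.of_equiv e1

theorem mem_nor (e : A ≃* B) (H : Subgroup A) (x : A) :
    e x ∈ Subgroup.normalizer (mp e H : Set B) ↔ x ∈ Subgroup.normalizer (H : Set A) := by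
  rw [Subgroup.mem_normalizer_iff, Subgroup.mem_normalizer_iff]
  constructor
  · intro h y
    have h1 := h (e y)
    rw [← map_inv, ← map_mul, ← map_mul] at h1
    have h2 := mem_mp e H y
    have h3 := mem_mp e H (x * y * x⁻¹)
    rw [h2, h3] at h1
    exact h1
  · intro h y
    obtain ⟨z, rfl⟩ := e.surjective y
    have h1 := h z
    have h2 := mem_mp e H z
    have h3 := mem_mp e H (x * z * x⁻¹)
    rw [← map_inv, ← map_mul, ← map_mul, h2, h3]
    exact h1

/-- the induced bijection of the finite sets of subgroups -/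
noncomputable def fsE (e : A ≃* B) : Finset (Subgroup A) ≃ Finset (Subgroup B) :=
  (mpE e).finsetCongr

theorem mem_fsE (e : A ≃* B) (σ : Finset (Subgroup A)) (Q : Subgroup B) :
    Q ∈ fsE e σ ↔ ∃ P ∈ σ, mp e P = Q := by
  unfold fsE
  rw [Equiv.finsetCongr_apply, Finset.mem_map]
  rfl

theorem card_fsE (e : A ≃* B) (σ : Finset (Subgroup A)) : (fsE e σ).card = σ.card := by
  unfold fsE
  rw [Equiv.finsetCongr_apply, Finset.card_map]

theorem isCh_fsE (e : A ≃* B) (σ : Finset (Subgroup A)) : IsCh p (fsE e σ) ↔ IsCh p σ := by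
  unfold IsCh
  refine and_congr ?_ ?_
  · constructor
    · intro h P hP Q hQ hne
      have h1 : mp e P ∈ (fsE e σ : Set (Subgroup B)) := (mem_fsE e σ _).2 ⟨P, hP, rfl⟩
      have h2 : mp e Q ∈ (fsE e σ : Set (Subgroup B)) := (mem_fsE e σ _).2 ⟨Q, hQ, rfl⟩
      have h3 : mp e P ≠ mp e Q := fun h4 => hne ((MulEquiv.mapSubgroup e).injective h4)
      rcases h h1 h2 h3 with h4 | h4
      · exact Or.inl ((mp_le_mp e _ _).1 h4)
      · exact Or.inr ((mp_le_mp e _ _).1 h4)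
    · intro h P' hP' Q' hQ' hne
      obtain ⟨P, hP, rfl⟩ := (mem_fsE e σ _).1 hP'
      obtain ⟨Q, hQ, rfl⟩ := (mem_fsE e σ _).1 hQ'
      have h3 : P ≠ Q := fun h4 => hne (by rw [h4])
      rcases h hP hQ h3 with h4 | h4
      · exact Or.inl ((mp_le_mp e _ _).2 h4)
      · exact Or.inr ((mp_le_mp e _ _).2 h4)
  · constructor
    · intro h Q hQ
      have h1 := h (mp e Q) ((mem_fsE e σ _).2 ⟨Q, hQ, rfl⟩)
      rw [mp_isPGroup, Ne, mp_bot] at h1
      exact h1
    · intro h Q' hQ'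
      obtain ⟨Q, hQ, rfl⟩ := (mem_fsE e σ _).1 hQ'
      rw [mp_isPGroup, Ne, mp_bot]
      exact h Q hQ

theorem sN_fsE (e : A ≃* B) (σ : Finset (Subgroup A)) : sN (fsE e σ) = mp e (sN σ) := by
  ext y
  obtain ⟨x, rfl⟩ := e.surjective y
  rw [mem_mp]
  unfold sN
  simp only [Subgroup.mem_iInf]
  constructor
  · intro h Q hQ
    exact (mem_nor e Q x).1 (h (mp e Q) ((mem_fsE e σ _).2 ⟨Q, hQ, rfl⟩))
  · intro h Q' hQ'
    obtain ⟨Q, hQ, rfl⟩ := (mem_fsE e σ _).1 hQ'
    exact (mem_nor e Q x).2 (h Q hQ)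

theorem eL_map (e : A ≃* B) (m : B → ℤ) : eL p m = eL p (fun x => m (e x)) := by
  classical
  unfold eL chS
  rw [← finsum_comp_equiv (fsE e)]
  refine finsum_congr fun σ => ?_
  rw [card_fsE, sN_fsE]
  change (if IsCh p (fsE e σ) then (-1) ^ σ.card * nL p (mp e (sN σ)) m else 0) =
    if IsCh p σ then (-1) ^ σ.card * nL p (sN σ) (fun x => m (e x)) else 0
  rw [nL_map]
  exact if_congr (isCh_fsE e σ) rfl rfl

theorem nA_top_map (e : A ≃* B) (m : B → ℤ) :
    nA p (⊤ : Subgroup B) m = nA p (⊤ : Subgroup A) (fun x => m (e x)) := by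
  rw [← mp_top e, nA_map]

end transport

section conj

variable {p : ℕ} {A : Type*} [Group A]

theorem conj_mem_nor {R : Subgroup A} (a : A) {x : A}
    (hx : x ∈ Subgroup.normalizer (R : Set A)) :
    a * x * a⁻¹ ∈ Subgroup.normalizer (cg a R : Set A) := by
  rw [Subgroup.mem_normalizer_iff] at hx ⊢
  intro y
  rw [mem_cg, mem_cg, hx (a⁻¹ * y * a)]
  have h1 : a⁻¹ * (a * x * a⁻¹ * y * (a * x * a⁻¹)⁻¹) * a = x * (a⁻¹ * y * a) * x⁻¹ := by group
  rw [h1]

theorem conj_mem_nor' {R : Subgroup A} (a : A) {x : A}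
    (hx : x ∈ Subgroup.normalizer (cg a R : Set A)) :
    a⁻¹ * x * a ∈ Subgroup.normalizer (R : Set A) := by
  have h1 := conj_mem_nor a⁻¹ hx
  rw [cg_cg, inv_mul_cancel, cg_one, inv_inv] at h1
  exact h1

/-- conjugation on the normalizers -/
noncomputable def cjN (g : A) (U : Subgroup A) :
    ↥(Subgroup.normalizer (U : Set A)) ≃* ↥(Subgroup.normalizer (cg g U : Set A)) where
  toFun x := ⟨g * x * g⁻¹, conj_mem_nor g x.2⟩
  invFun y := ⟨g⁻¹ * y * g, conj_mem_nor' g y.2⟩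
  left_inv x := Subtype.ext (by
    change g⁻¹ * (g * (x : A) * g⁻¹) * g = x
    group)
  right_inv y := Subtype.ext (by
    change g * (g⁻¹ * (y : A) * g) * g⁻¹ = y
    group)
  map_mul' x y := Subtype.ext (by
    change g * ((x : A) * y) * g⁻¹ = g * x * g⁻¹ * (g * y * g⁻¹)
    group)

theorem cjN_coe (g : A) (U : Subgroup A) (x : ↥(Subgroup.normalizer (U : Set A))) :
    ((cjN g U x : ↥(Subgroup.normalizer (cg g U : Set A))) : A) = g * x * g⁻¹ := rfl

theorem cjN_map (g : A) (U : Subgroup A) :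
    (U.subgroupOf (Subgroup.normalizer (U : Set A))).map (cjN g U).toMonoidHom =
      (cg g U).subgroupOf (Subgroup.normalizer (cg g U : Set A)) := by
  ext y
  obtain ⟨x, rfl⟩ := (cjN g U).surjective y
  rw [Subgroup.mem_subgroupOf, cjN_coe, mem_cg]
  have h1 : g⁻¹ * (g * (x : A) * g⁻¹) * g = x := by group
  rw [h1]
  constructor
  · rintro ⟨z, hz, h⟩
    have h2 : cjN g U z = cjN g U x := h
    rw [← (cjN g U).injective h2]
    exact Subgroup.mem_subgroupOf.1 hz
  · intro hx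
    exact ⟨x, Subgroup.mem_subgroupOf.2 hx, rfl⟩

/-- conjugation on the quotients of the normalizers -/
noncomputable def cjQ (g : A) (U : Subgroup A) : NQ U ≃* NQ (cg g U) :=
  QuotientGroup.congr _ _ (cjN g U) (cjN_map g U)

theorem cjQ_mk (g : A) (U : Subgroup A) (x : ↥(Subgroup.normalizer (U : Set A))) :
    cjQ g U (QuotientGroup.mk x : NQ U) = (QuotientGroup.mk (cjN g U x) : NQ (cg g U)) := rfl

theorem mb_cjQ (g : A) (U : Subgroup A) {m : A → ℤ} (hm : ∀ x, m (g * x * g⁻¹) = m x)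
    (y : NQ U) : mb (cg g U) m (cjQ g U y) = mb U m y := by
  unfold mb
  rw [← finsum_comp_equiv (Equiv.subtypeEquiv (cjN g U).toEquiv (fun c => by
    change (QuotientGroup.mk c : NQ U) = y ↔
      (QuotientGroup.mk (cjN g U c) : NQ (cg g U)) = cjQ g U y
    rw [← cjQ_mk]
    exact (cjQ g U).injective.eq_iff.symm))]
  refine finsum_congr fun c => ?_
  change m (g * ((c : ↥(Subgroup.normalizer (U : Set A))) : A) * g⁻¹) = _
  exact hm _

theorem eL_cg (g : A) (U : Subgroup A) {m : A → ℤ} (hm : ∀ x, m (g * x * g⁻¹) = m x) :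
    eL p (mb (cg g U) m) = eL p (mb U m) := by
  rw [eL_map (cjQ g U)]
  congr 1
  funext y
  exact mb_cjQ g U hm y

theorem nA_cg (g : A) (U : Subgroup A) {m : A → ℤ} (hm : ∀ x, m (g * x * g⁻¹) = m x) :
    nA p (⊤ : Subgroup (NQ (cg g U))) (mb (cg g U) m) = nA p (⊤ : Subgroup (NQ U)) (mb U m) := by
  rw [nA_top_map (cjQ g U)]
  congr 1
  funext y
  exact mb_cjQ g U hm y

theorem cg_isPGroup (g : A) (U : Subgroup A) : IsPGroup p (cg g U) ↔ IsPGroup p U :=
  mp_isPGroup (MulAut.conj g) U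

theorem cg_bot_iff (g : A) (U : Subgroup A) : cg g U = ⊥ ↔ U = ⊥ :=
  mp_bot (MulAut.conj g) U

theorem cg_card (g : A) (U : Subgroup A) : Nat.card (cg g U) = Nat.card U :=
  Nat.card_congr (U.equivMapOfInjective (MulAut.conj g).toMonoidHom
    (MulAut.conj g).injective).symm.toEquiv

theorem mem_nor_bot (x : A) : x ∈ Subgroup.normalizer ((⊥ : Subgroup A) : Set A) := by
  rw [Subgroup.mem_normalizer_iff]
  intro y
  simp only [Subgroup.mem_bot]
  constructor
  · rintro rfl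
    group
  · intro h
    have h1 : y = x⁻¹ * (x * y * x⁻¹) * x := by group
    rw [h1, h]
    group

/-- the map to `N(1)/1` -/
def toNQ : A →* NQ (⊥ : Subgroup A) where
  toFun x := QuotientGroup.mk ⟨x, mem_nor_bot x⟩
  map_one' := rfl
  map_mul' _ _ := rfl

theorem toNQ_bij : Function.Bijective (toNQ : A →* NQ (⊥ : Subgroup A)) := by
  constructor
  · intro a b h
    have h1 : (QuotientGroup.mk ⟨a, mem_nor_bot a⟩ : NQ (⊥ : Subgroup A)) =
      QuotientGroup.mk ⟨b, mem_nor_bot b⟩ := h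
    rw [QuotientGroup.eq, Subgroup.mem_subgroupOf] at h1
    have h2 : a⁻¹ * b = 1 := Subgroup.mem_bot.1 h1
    exact (inv_mul_eq_one.1 h2)
  · intro y
    obtain ⟨x, rfl⟩ := QuotientGroup.mk_surjective y
    exact ⟨x, rfl⟩

/-- the isomorphism with `N(1)/1` -/
noncomputable def eNQ : A ≃* NQ (⊥ : Subgroup A) := MulEquiv.ofBijective toNQ toNQ_bij

theorem mb_eNQ (m : A → ℤ) (x : A) : mb (⊥ : Subgroup A) m (eNQ x) = m x := by
  unfold mb
  have h0 : ∀ c : ↥(Subgroup.normalizer ((⊥ : Subgroup A) : Set A)),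
      (QuotientGroup.mk c : NQ (⊥ : Subgroup A)) = eNQ x → (c : A) = x := by
    intro c hc
    have h1 : toNQ (c : A) = toNQ x := hc
    exact toNQ_bij.1 h1
  have hu : Unique {c : ↥(Subgroup.normalizer ((⊥ : Subgroup A) : Set A)) //
      (QuotientGroup.mk c : NQ (⊥ : Subgroup A)) = eNQ x} :=
    { default := ⟨⟨x, mem_nor_bot x⟩, rfl⟩
      uniq := fun c => Subtype.ext (Subtype.ext (h0 c.1 c.2)) }
  rw [finsum_unique]
  exact congrArg m (h0 _ hu.default.2)

theorem card_NQ [Finite A] (Q : Subgroup A) :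
    Nat.card (NQ Q) * Nat.card Q = Nat.card ↥(Subgroup.normalizer (Q : Set A)) := by
  have h1 := Subgroup.card_eq_card_quotient_mul_card_subgroup
    (Q.subgroupOf (Subgroup.normalizer (Q : Set A)))
  have h2 : Nat.card ↥(Q.subgroupOf (Subgroup.normalizer (Q : Set A))) = Nat.card Q :=
    Nat.card_congr (Subgroup.subgroupOfEquivOfLe Subgroup.le_normalizer).toEquiv
  rw [h1, h2]

open Classical in
/-- the difference of the terms for `Q` -/
noncomputable def FF (p : ℕ) (m : A → ℤ) (Q : Subgroup A) : ℤ :=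
  if IsPGroup p Q then
    (Nat.card Q : ℤ) * (eL p (mb Q m) - nA p (⊤ : Subgroup (NQ Q)) (mb Q m)) else 0

theorem FF_cg {m : A → ℤ} (hm : IsWt p ⊤ m) (g : A) (U : Subgroup A) :
    FF p m (cg g U) = FF p m U := by
  classical
  have hm' : ∀ x, m (g * x * g⁻¹) = m x := fun x => hm.conj g (Subgroup.mem_top g) x
  unfold FF
  rw [cg_card, eL_cg g U hm', nA_cg g U hm']
  exact if_congr (cg_isPGroup g U) rfl rfl

theorem diff_eq [Fact p.Prime] [Finite A] {m : A → ℤ} (hm : IsWt p ⊤ m) :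
    nL p (⊤ : Subgroup A) m - wS p m = ∑ᶠ Q : Subgroup A, FF p m Q := by
  classical
  rw [nL_decomp hm]
  unfold wS
  rw [← finsum_sub_distrib (Set.toFinite _) (Set.toFinite _)]
  refine finsum_congr fun Q => ?_
  unfold FF
  split_ifs
  · ring
  · ring

theorem FF_dvd [Finite A] {m : A → ℤ} (Q : Subgroup A)
    (h : IsPGroup p Q → (p : ℤ) * (Nat.card (NQ Q) : ℤ) ∣
      eL p (mb Q m) - nA p (⊤ : Subgroup (NQ Q)) (mb Q m)) :
    (p : ℤ) * (Nat.card ↥(Subgroup.normalizer (Q : Set A)) : ℤ) ∣ FF p m Q := by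
  classical
  unfold FF
  split_ifs with hQ
  · obtain ⟨c, hc⟩ := h hQ
    refine ⟨c, ?_⟩
    rw [hc, ← card_NQ Q]
    push_cast
    ring
  · exact dvd_zero _

theorem card_NQ_lt [Finite A] {Q : Subgroup A} (hQ : Q ≠ ⊥) : Nat.card (NQ Q) < Nat.card A := by
  have h1 := card_NQ Q
  have h2 : Nat.card ↥(Subgroup.normalizer (Q : Set A)) ≤ Nat.card A :=
    Nat.card_le_card_of_injective _ Subtype.val_injective
  have h3 : 1 < Nat.card Q := by
    rw [Subgroup.one_lt_card_iff_ne_bot]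
    exact hQ
  have h4 : 0 < Nat.card (NQ Q) := Nat.card_pos
  nlinarith

end conj

theorem back {p : ℕ} [Fact p.Prime]
    (h : ∀ (G : Type u) [Group G] [Finite G] (m : G → ℤ), IsWt p ⊤ m →
      (p : ℤ) * (Nat.card G : ℤ) ∣ eL p m - nA p (⊤ : Subgroup G) m)
    (G : Type u) [Group G] [Finite G] (m : G → ℤ) (hm : IsWt p ⊤ m) :
      (p : ℤ) * (Nat.card G : ℤ) ∣ nL p (⊤ : Subgroup G) m - wS p m := by
  rw [diff_eq hm]
  refine sub_dvd (FF p m) (fun g U => FF_cg hm g U) (p : ℤ) fun U => ?_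
  exact FF_dvd U fun _ => h (NQ U) (mb U m) (mb_isWt U hm)

theorem forth {p : ℕ} [Fact p.Prime]
    (h : ∀ (G : Type u) [Group G] [Finite G] (m : G → ℤ), IsWt p ⊤ m →
      (p : ℤ) * (Nat.card G : ℤ) ∣ nL p (⊤ : Subgroup G) m - wS p m) :
    ∀ (n : ℕ) (G : Type u) [Group G] [Finite G], Nat.card G = n → ∀ (m : G → ℤ), IsWt p ⊤ m →
      (p : ℤ) * (Nat.card G : ℤ) ∣ eL p m - nA p (⊤ : Subgroup G) m := by
  classical
  intro n
  induction n using Nat.strong_induction_on with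
  | _ n ih =>
    intro G _ _ hn m hm
    have h1 := h G m hm
    rw [diff_eq hm] at h1
    have h2 : (p : ℤ) * (Nat.card G : ℤ) ∣
        ∑ᶠ Q : Subgroup G, (if Q = ⊥ then 0 else FF p m Q) := by
      refine sub_dvd (fun Q => if Q = ⊥ then 0 else FF p m Q) (fun g U => ?_) (p : ℤ) fun U => ?_
      · rw [FF_cg hm g U]
        exact if_congr (cg_bot_iff g U) rfl rfl
      · split_ifs with hU
        · exact dvd_zero _
        · exact FF_dvd U fun _ =>
            ih (Nat.card (NQ U)) (hn ▸ card_NQ_lt hU) (NQ U) rfl (mb U m) (mb_isWt U hm)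
    have h3 : ∑ᶠ Q : Subgroup G, FF p m Q =
        FF p m ⊥ + ∑ᶠ Q : Subgroup G, (if Q = ⊥ then 0 else FF p m Q) := by
      have h4 : ∑ᶠ Q : Subgroup G, (if Q = ⊥ then FF p m Q else 0) = FF p m ⊥ := by
        rw [finsum_eq_single _ (⊥ : Subgroup G) (fun Q hQ => by simp [hQ])]
        simp
      rw [← h4, ← finsum_add_distrib (Set.toFinite _) (Set.toFinite _)]
      refine finsum_congr fun Q => ?_
      split_ifs <;> ring
    rw [h3] at h1
    have h5 : (p : ℤ) * (Nat.card G : ℤ) ∣ FF p m ⊥ := (dvd_add_left h2).1 h1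
    have h6 : FF p m (⊥ : Subgroup G) = eL p m - nA p (⊤ : Subgroup G) m := by
      unfold FF
      rw [if_pos IsPGroup.of_bot, Subgroup.card_bot, eL_map (eNQ : G ≃* NQ (⊥ : Subgroup G)),
        nA_top_map (eNQ : G ≃* NQ (⊥ : Subgroup G))]
      simp only [mb_eNQ]
      push_cast
      ring
    rwa [h6] at h5

end CCAux

/-- BAW modulo p in the form of `wS` for all groups is equivalent to `eL = nA` modulo `p |G|` for all
groups. Proof: `nL_decomp` and the definition of `wS` differ by the sum over the p-subgroups `Q` of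
`|Q| (eL - nA)` of `N(Q)/Q`; the term `Q = 1` is `eL - nA` of `G` (transport along
`G = N(1)/1`), the others have smaller order; induction on the order; `sub_dvd`. -/
theorem wS_iff_eL {p : ℕ} [Fact p.Prime] :
    (∀ (G : Type u) [Group G] [Finite G] (m : G → ℤ), IsWt p ⊤ m →
      (p : ℤ) * (Nat.card G : ℤ) ∣ nL p (⊤ : Subgroup G) m - wS p m) ↔
    (∀ (G : Type u) [Group G] [Finite G] (m : G → ℤ), IsWt p ⊤ m →
      (p : ℤ) * (Nat.card G : ℤ) ∣ eL p m - nA p (⊤ : Subgroup G) m) := by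
  constructor
  · intro h G _ _ m hm
    exact CCAux.forth h (Nat.card G) G rfl m hm
  · intro h G _ _ m hm
    exact CCAux.back h G m hm

end Pool.Agent.Lib.P0c8ca5
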