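import Pool.Agent.Lib.P0c8ca5V.THpA

/-!
# TCnt (1 h): `nA` as a trace; the image of `m` in `N(Q)/Q`

PROOF. `nA_trE`: let `m' w = ∑ u, if Pel p u then m (u⁻¹ * w) else 0` (a class function). `nE ⊤ m' = ∑_{a, b} m' ((cmt a b)⁻¹)`
`= ∑_{a, b} ∑_{u ∈ Pel} m (u⁻¹ * (cmt a b)⁻¹) = ∑_{a, b, c} [Pel ((cmt a b)⁻¹ * c⁻¹)] m c` (`c = u⁻¹ * (cmt a b)⁻¹`, `u = (cmt a b)⁻¹ * c⁻¹`), and `(cmt a b)⁻¹ * c⁻¹ = (c * cmt a b)⁻¹` is a
p-element iff `cmt a b * c` is one (inverse, conjugation): so `nE ⊤ m' = nA p ⊤ m` (`finsum` over finite types = `Finset` sums). Apply `nE_trE` (R2b) to `m'`; the casts of `m'` are the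
coefficients of `hpe * zel k m` (`coeff_hpe_mul`, `zel_coeff`).
`proj_zel`: compare coefficients at `qm Q n hn` (`qm_surj`): `coeff_proj` (P0c8ca5.Sect) and the definition of `mb` (`finsum` over a finite type;
`(QuotientGroup.mk c : NQ Q) = qm Q n hn ↔ n⁻¹ * c ∈ Q`, `qm_eq_iff`).
-/

namespace Pool.Agent.Lib.P0c8ca5

open MonoidAlgebra

set_option linter.unusedSectionVars false

variable {p : ℕ} {k : Type*} [Field k] {A : Type*} [Group A]

namespace TCntAux

theorem pel_inv {x : A} : Pel p x⁻¹ ↔ Pel p x := by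
  unfold Pel
  simp only [inv_pow, inv_eq_one]

theorem pel_conj {g x : A} : Pel p (g * x * g⁻¹) ↔ Pel p x := by
  unfold Pel
  simp only [conj_pow, conj_eq_one_iff]

theorem pel_comm {x y : A} : Pel p (x * y) ↔ Pel p (y * x) := by
  have h : y * (x * y) * y⁻¹ = y * x := by group
  rw [← h, pel_conj]

open Classical in
/-- the convolution of `m` with the indicator of the p-elements -/
noncomputable def mp (p : ℕ) [Fintype A] (m : A → ℤ) (w : A) : ℤ :=
  ∑ u : A, if Pel p u then m (u⁻¹ * w) else 0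

theorem mp_conj [Fintype A] {m : A → ℤ} (hm : ∀ h x, m (h * x * h⁻¹) = m x) (h x : A) :
    mp p m (h * x * h⁻¹) = mp p m x := by
  classical
  unfold mp
  rw [← Equiv.sum_comp (MulAut.conj h).toEquiv]
  refine Finset.sum_congr rfl fun u _ => ?_
  have e1 : (MulAut.conj h).toEquiv u = h * u * h⁻¹ := rfl
  have e2 : (h * u * h⁻¹)⁻¹ * (h * x * h⁻¹) = h * (u⁻¹ * x) * h⁻¹ := by group
  simp only [e1, pel_conj, e2, hm]

theorem mp_inv [Fintype A] (m : A → ℤ) (w : A) :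
    mp p m w⁻¹ = ∑ c : A, @ite ℤ (Pel p (w * c)) (Classical.propDecidable _) (m c) 0 := by
  classical
  unfold mp
  rw [← Equiv.sum_comp ((Equiv.mulRight w).trans (Equiv.inv A))]
  refine Finset.sum_congr rfl fun c _ => ?_
  have e1 : ((Equiv.mulRight w).trans (Equiv.inv A)) c = (c * w)⁻¹ := rfl
  have e2 : ((c * w)⁻¹)⁻¹ * w⁻¹ = c := by group
  simp only [e1, pel_inv, e2]
  by_cases h : Pel p (w * c)
  · rw [if_pos h, if_pos (pel_comm.1 h)]
  · rw [if_neg h, if_neg (fun h' => h (pel_comm.1 h'))]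

theorem nE_mp [Fintype A] (m : A → ℤ) :
    nE (⊤ : Subgroup A) (mp p m) = nA p (⊤ : Subgroup A) m := by
  classical
  unfold nE nA
  rw [finsum_eq_sum_of_fintype, finsum_eq_sum_of_fintype, Fintype.sum_prod_type,
    Fintype.sum_prod_type]
  refine Finset.sum_congr rfl fun a _ => ?_
  rw [Fintype.sum_prod_type]
  refine Finset.sum_congr rfl fun b _ => ?_
  rw [if_pos ⟨Subgroup.mem_top _, Subgroup.mem_top _⟩, mp_inv]
  refine Finset.sum_congr rfl fun c _ => ?_
  by_cases h : Pel p (cmt a b * c)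
  · rw [if_pos h, if_pos ⟨⟨Subgroup.mem_top _, Subgroup.mem_top _, Subgroup.mem_top _⟩, h⟩]
  · rw [if_neg h, if_neg (fun h' => h h'.2)]

end TCntAux

theorem nA_trE [Fintype A] [Fact p.Prime] {m : A → ℤ} (hm : ∀ h x, m (h * x * h⁻¹) = m x) :
    ∃ t : ℤ, nA p (⊤ : Subgroup A) m = (Nat.card A : ℤ) * t ∧
      (t : k) = trE k (⊤ : Subgroup A) (fun x => (hpe p k A * zel k m).coeff x) := by
  classical
  obtain ⟨t, h1, h2⟩ := nE_trE (k := k) (⊤ : Subgroup A) (m := TCntAux.mp p m)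
    (fun h _ x => TCntAux.mp_conj hm h x)
  refine ⟨t, ?_, ?_⟩
  · rw [← TCntAux.nE_mp, h1, Subgroup.card_top]
  · rw [h2]
    congr 1
    funext x
    rw [coeff_hpe_mul]
    unfold TCntAux.mp
    rw [Int.cast_sum]
    refine Finset.sum_congr rfl fun u _ => ?_
    split_ifs
    · rw [zel_coeff]
    · exact Int.cast_zero

theorem proj_zel [Finite A] (Q : Subgroup A) (m : A → ℤ) :
    proj Q (zel k m) = zel k (mb Q m) := by
  classical
  have hF : Fintype A := Fintype.ofFinite A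
  ext w
  obtain ⟨n, hn, rfl⟩ := qm_surj w
  rw [coeff_proj, zel_coeff]
  unfold mb
  rw [finsum_eq_sum_of_fintype, Int.cast_sum, ← Finset.sum_filter]
  have hR : ∀ x, n⁻¹ * x ∈ Q → x ∈ Subgroup.normalizer (Q : Set A) := by
    intro x hx
    have := (Subgroup.normalizer (Q : Set A)).mul_mem hn (Subgroup.le_normalizer hx)
    have e1 : n * (n⁻¹ * x) = x := by group
    rwa [e1] at this
  refine Finset.sum_bij' (fun x hx => (⟨⟨x, hR x (Finset.mem_filter.1 hx).2⟩,
      (qm_eq_iff.2 (Finset.mem_filter.1 hx).2).symm⟩ :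
      {c : ↥(Subgroup.normalizer (Q : Set A)) // (QuotientGroup.mk c : NQ Q) = qm Q n hn}))
    (fun y _ => ((y : ↥(Subgroup.normalizer (Q : Set A))) : A)) ?_ ?_ ?_ ?_ ?_
  · intro x _
    exact Finset.mem_univ _
  · intro y _
    rw [Finset.mem_filter]
    have h1 : qm Q n hn = qm Q (y.1 : A) y.1.2 := y.2.symm
    exact ⟨Finset.mem_univ _, qm_eq_iff.1 h1⟩
  · intro x _
    rfl
  · intro y _
    rfl
  · intro x _
    rw [zel_coeff]

end Pool.Agent.Lib.P0c8ca5
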