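import Pool.Agent.Lib.P0c8ca5V.TDefs
import Pool.Agent.Lib.P0c8ca5N.FB3

/-!
# TLs (1.2 h): the number of irreducible representations in a block as a trace

PROOF. As `card_irX_eq` in P0c8ca5N.FA (`card IBr = mult1 (EM p H P c)`, `P x = x ∈ H ∧ Preg p x`, here `H = ⊤`), whose proof constructs a basis of eigenvectors
`v χ Y = χ Y.out` of `EM p H P c` with eigenvalues `ω χ ∈ {0, 1}` and counts the `χ` with `ω χ = 1`. The trace of the matrix is the sum of the eigenvalues
(write it in the basis: `LinearMap.trace_eq_matrix_trace`, compare the proof of `mult1_eigen` in P0c8ca5N.Lin), hence the same number in `k`. The trace of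
`EM p ⊤ P b` is `trL k p ⊤ b.coeff` (definitions: `InCl ⊤ P X a ↔ P a ∧ ∃ h ∈ ⊤, a = h * X.out * h⁻¹`, `InCl_mk` in P0c8ca5N.Mv; `pr p _` is p-regular: `preg_pr`;
`finsum_eq_sum_of_fintype`). Finally `irrInvSetoid ⊤ ⊤ b` and `irrInvSetoid ⊤ ⊥ b` have the same number of classes: `card_irr_inv` (P0c8ca5N.ChD) for `X = ⊤` and `X = ⊥`; the
invariance of `χ ∈ IrrCh k ⊤` under conjugation is automatic (`chi_conj_mem`). Alternatively start from `card_inv_eq` (P0c8ca5N.FB3) with `G = X = ⊤`.
-/

namespace Pool.Agent.Lib.P0c8ca5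

open MonoidAlgebra

set_option linter.unusedSectionVars false

variable {p : ℕ} {k : Type*} [Field k] {A : Type*} [Group A] [Fintype A]
variable [Fact p.Prime] [CharP k p] [IsAlgClosed k]

namespace TLsAux

theorem trace_eigen {ι J : Type*} [Fintype ι] [Fintype J] (E : Matrix ι ι k) (v : J → ι → k)
    (hli : LinearIndependent k v) (hsp : ⊤ ≤ Submodule.span k (Set.range v)) (ω : J → k)
    (hv : ∀ j, E.mulVec (v j) = ω j • v j) : E.trace = ∑ j, ω j := by
  classical
  let b := Module.Basis.mk hli hsp
  have h1 : LinearMap.toMatrix b b (Matrix.toLin' E) = Matrix.diagonal ω := by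
    ext i j
    rw [LinearMap.toMatrix_apply, Module.Basis.mk_apply, Matrix.toLin'_apply, hv, map_smul,
      Finsupp.smul_apply]
    have : v j = b j := (Module.Basis.mk_apply hli hsp j).symm
    rw [this, Module.Basis.repr_self, Matrix.diagonal_apply, Finsupp.single_apply]
    by_cases hij : i = j
    · subst hij; simp
    · rw [if_neg (fun h => hij h.symm), if_neg hij]; simp
  have h2 : LinearMap.trace k (ι → k) (Matrix.toLin' E) = E.trace :=
    Matrix.trace_toLin'_eq E
  rw [← h2, LinearMap.trace_eq_matrix_trace k b, h1, Matrix.trace_diagonal]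

theorem trace_EM {H : Subgroup A} {c : MonoidAlgebra k A} (hc : SuppIn H c) (hc' : InvBy H c)
    (hcc : c * c = c) [Fintype (Cl H (fun x => x ∈ H ∧ Preg p x))] :
    (EM p H (fun x => x ∈ H ∧ Preg p x) c).trace
      = (Nat.card (Quotient (irrInvSetoid H H c)) : k) := by
  classical
  rw [card_irr_inv (X := H) Subgroup.le_normalizer hc hc' hcc]
  set P : A → Prop := fun x => x ∈ H ∧ Preg p x with hP
  have hmem : ∀ χ : IrrCh k H, (χ : A → k) ∈ XH p k H := by
    intro χ
    rw [← span_IrrCh]
    exact Submodule.subset_span χ.2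
  set v : IrrCh k H → Cl H P → k := fun χ Y => (χ : A → k) (Y.out : A) with hv
  set ω : IrrCh k H → k := fun χ => if conv c (χ : A → k) = (χ : A → k) then 1 else 0 with hω
  have hconv : ∀ χ : IrrCh k H, conv c (χ : A → k) = ω χ • (χ : A → k) := by
    intro χ
    by_cases h : conv c (χ : A → k) = (χ : A → k)
    · simp only [hω, if_pos h, one_smul]
      exact h
    · simp only [hω, if_neg h, zero_smul]
      exact conv_eq_zero_of_ne hc hc' hcc χ h
  -- the functions in `XH` are determined by the values at the representatives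
  have hdet : ∀ f ∈ XH p k H, (∀ Y : Cl H P, f (Y.out : A) = 0) → f = 0 := by
    intro f hf h0
    obtain ⟨h1, h2, h3⟩ := mem_XH.1 hf
    funext x
    by_cases hx : x ∈ H
    · have hPx : P (pr p x) := ⟨pr_mem hx, preg_pr x⟩
      obtain ⟨g, hg, e⟩ := InCl_out_conj
        (show InCl H P (Quotient.mk (clSetoid H P) ⟨pr p x, hPx⟩) (pr p x) from ⟨hPx, rfl⟩)
      have h4 := h0 (Quotient.mk (clSetoid H P) ⟨pr p x, hPx⟩)
      rw [e, h2 g hg, h3 x hx] at h4
      exact h4
    · exact h1 x hx
  have hli : LinearIndependent k v := by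
    rw [linearIndependent_iff]
    intro l hl
    have h1 := (linearIndependent_iff.1 (chi_linearIndependent (k := k) H)) l
    apply h1
    have hXH : Finsupp.linearCombination k (fun χ : IrrCh k H => (χ : A → k)) l ∈ XH p k H := by
      rw [Finsupp.linearCombination_apply]
      exact Submodule.sum_mem _ fun χ _ => Submodule.smul_mem _ _ (hmem χ)
    apply hdet _ hXH
    intro Y
    have h2 := congrFun hl Y
    rw [Finsupp.linearCombination_apply, Finsupp.sum, Finset.sum_apply] at h2 ⊢
    exact h2
  have hsp : ⊤ ≤ Submodule.span k (Set.range v) := by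
    intro φ _
    -- the extension of `φ`
    set f : A → k := fun x => if h : x ∈ H then
      φ (Quotient.mk (clSetoid H P) ⟨pr p x, pr_mem h, preg_pr x⟩) else 0 with hf
    have hfX : f ∈ XH p k H := by
      rw [mem_XH]
      refine ⟨fun x hx => dif_neg hx, ?_, ?_⟩
      · intro h hh x
        by_cases hx : x ∈ H
        · have hx' : h * x * h⁻¹ ∈ H := H.mul_mem (H.mul_mem hh hx) (H.inv_mem hh)
          simp only [hf]
          rw [dif_pos hx, dif_pos hx']
          congr 1
          apply Quotient.sound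
          refine ⟨h⁻¹, H.inv_mem hh, ?_⟩
          change pr p x = h⁻¹ * pr p (h * x * h⁻¹) * h⁻¹⁻¹
          rw [pr_conj]
          group
        · have hx' : h * x * h⁻¹ ∉ H := by
            intro h1
            apply hx
            have := H.mul_mem (H.mul_mem (H.inv_mem hh) h1) hh
            have e : h⁻¹ * (h * x * h⁻¹) * h = x := by group
            rwa [e] at this
          simp only [hf]
          rw [dif_neg hx, dif_neg hx']
      · intro x hx
        simp only [hf]
        rw [dif_pos hx, dif_pos (pr_mem hx)]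
        congr 2
        apply Subtype.ext
        exact pr_pr x
    have hfY : (fun Y : Cl H P => f (Y.out : A)) = φ := by
      funext Y
      simp only [hf]
      rw [dif_pos (Y.out.2.1)]
      congr 1
      have : (⟨pr p (Y.out : A), pr_mem Y.out.2.1, preg_pr _⟩ : {x : A // P x}) = Y.out :=
        Subtype.ext (pr_eq_self Y.out.2.2)
      rw [this, Quotient.out_eq]
    rw [← span_IrrCh] at hfX
    rw [← hfY]
    have key : ∀ g ∈ Submodule.span k (IrrCh k H),
        (fun Y : Cl H P => g (Y.out : A)) ∈ Submodule.span k (Set.range v) := by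
      intro g hg
      induction hg using Submodule.span_induction with
      | mem x hx => exact Submodule.subset_span ⟨⟨x, hx⟩, rfl⟩
      | zero => exact Submodule.zero_mem _
      | add x y _ _ hx hy => exact Submodule.add_mem _ hx hy
      | smul a x _ hx => exact Submodule.smul_mem _ a hx
    exact key f hfX
  have heig : ∀ χ : IrrCh k H, (EM p H P c).mulVec (v χ) = ω χ • v χ := by
    intro χ
    obtain ⟨h1, h2, h3⟩ := mem_XH.1 (hmem χ)
    funext X
    have h4 := EM_mulVec (p := p) (M := H) (P := P) (c := c) (f := (χ : A → k)) h2 X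
    rw [show (v χ) = (fun Y : Cl H P => (χ : A → k) (Y.out : A)) from rfl, h4]
    have h5 : ∑ h : A, (if P (pr p (h * (X.out : A))) then
        c.coeff h * (χ : A → k) (pr p (h * (X.out : A))) else 0)
        = conv c (χ : A → k) (X.out : A) := by
      unfold conv
      refine Finset.sum_congr rfl fun h _ => ?_
      by_cases hh : c.coeff h = 0
      · rw [hh, zero_mul, zero_mul, ite_self]
      · have hhH : h ∈ H := hc h hh
        have hhx : h * (X.out : A) ∈ H := H.mul_mem hhH X.out.2.1
        rw [if_pos ⟨pr_mem hhx, preg_pr _⟩, h3 _ hhx]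
    have h7 : conv c (χ : A → k) (X.out : A) =
        (ω χ • (fun Y : Cl H P => (χ : A → k) (Y.out : A))) X := by
      rw [hconv χ]
      rfl
    rw [← h7, ← h5]
    refine Finset.sum_congr (Finset.ext fun _ => by simp) fun h _ => ?_
    by_cases hP' : P (pr p (h * (X.out : A)))
    · rw [if_pos hP', if_pos hP']
    · rw [if_neg hP', if_neg hP']
  have _ : Finite (IrrCh k H) := inferInstance
  let _ : Fintype (IrrCh k H) := Fintype.ofFinite _
  have htr : (EM p H P c).trace = ∑ χ : IrrCh k H, ω χ :=
    trace_eigen (EM p H P c) v hli hsp ω heig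
  refine Eq.trans (Eq.trans ?_ htr) ?_
  · unfold Matrix.trace
    exact Finset.sum_congr (Finset.ext fun _ => by simp) fun _ _ => rfl
  have hequiv : ∀ χ : IrrCh k H, (conv c (χ : A → k) = (χ : A → k) ∧
      ∀ h ∈ H, ∀ x, (χ : A → k) (h * x * h⁻¹) = (χ : A → k) x) ↔
      conv c (χ : A → k) = (χ : A → k) := by
    intro χ
    exact ⟨fun h => h.1, fun h => ⟨h, (mem_XH.1 (hmem χ)).2.1⟩⟩
  rw [Nat.card_congr (Equiv.subtypeEquivRight hequiv), Nat.card_eq_fintype_card,
    Fintype.card_subtype, ← Finset.sum_boole]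

end TLsAux

open TLsAux in
theorem trL_blk {b : MonoidAlgebra k A} (hb : b ∈ fixAlg k (⊤ : Subgroup A) ⊤)
    (hbb : b * b = b) : trL k p (⊤ : Subgroup A) (fun x => b.coeff x)
      = (Nat.card (Quotient (irrInvSetoid (⊤ : Subgroup A) ⊤ b)) : k) := by
  classical
  obtain ⟨h1, h2⟩ := mem_fixAlg.1 hb
  let _ : Fintype (Cl (⊤ : Subgroup A) (fun x => x ∈ (⊤ : Subgroup A) ∧ Preg p x)) :=
    Fintype.ofFinite _
  rw [← trace_EM (p := p) h1 h2 hbb]
  unfold trL Matrix.trace
  rw [finsum_eq_sum_of_fintype]
  refine Finset.sum_congr rfl fun X _ => ?_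
  rw [Matrix.diag_apply]
  unfold EM
  refine Finset.sum_congr rfl fun y _ => ?_
  have key : (y ∈ (⊤ : Subgroup A) ∧ ∃ h ∈ (⊤ : Subgroup A),
      pr p (y * (X.out : A)) = h * (X.out : A) * h⁻¹) ↔
      InCl (⊤ : Subgroup A) (fun x => x ∈ (⊤ : Subgroup A) ∧ Preg p x) X
        (pr p (y * (X.out : A))) := by
    constructor
    · rintro ⟨_, h, hh, e⟩
      have hx : (pr p (y * (X.out : A))) ∈ (⊤ : Subgroup A) ∧ Preg p (pr p (y * (X.out : A))) :=
        ⟨Subgroup.mem_top _, preg_pr _⟩
      refine ⟨hx, Eq.trans ?_ (Quotient.out_eq X)⟩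
      apply Quotient.sound
      refine ⟨h⁻¹, Subgroup.mem_top _, ?_⟩
      change ((X.out : {x : A // x ∈ (⊤ : Subgroup A) ∧ Preg p x}) : A)
        = h⁻¹ * pr p (y * (X.out : A)) * h⁻¹⁻¹
      rw [e]
      group
    · intro h
      obtain ⟨g, hg, e⟩ := InCl_out_conj h
      refine ⟨Subgroup.mem_top _, g⁻¹, Subgroup.mem_top _, ?_⟩
      generalize hz : pr p (y * (X.out : A)) = z at e ⊢
      rw [e]
      group
  by_cases hk : InCl (⊤ : Subgroup A) (fun x => x ∈ (⊤ : Subgroup A) ∧ Preg p x) X
        (pr p (y * (X.out : A)))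
  · rw [if_pos (key.2 hk), if_pos hk]
  · rw [if_neg (fun h => hk (key.1 h)), if_neg hk]

end Pool.Agent.Lib.P0c8ca5
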