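import Pool.Agent.Lib.P0c8ca5V.TDzB
import Pool.Agent.Lib.P0c8ca5V.TLs
import Pool.Agent.Lib.P0c8ca5V.TCnt
import Pool.Agent.Lib.P0c8ca5V.Quo
import Pool.Agent.Lib.P0c8ca5V.CC

/-!
# TFin: the blockwise weight conjecture modulo `p` as a divisibility

`Lam z = trL z - ∑_{Q ∈ T} trE (hpe * proj Q z)`, `T` representatives of the p-subgroups; it is
linear, vanishes on central nilpotent elements, `Lam b = gap b` for the blocks `b` and
`Lam (zel m) = (nL m - wS m) / |A|`.
-/

namespace Pool.Agent.Lib.P0c8ca5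

open MonoidAlgebra

set_option linter.unusedSectionVars false

namespace TFinAux

section
variable {A : Type*} [Group A]

open Classical in
/-- representatives of the classes of the p-subgroups -/
noncomputable def TT (p : ℕ) (A : Type*) [Group A] [Finite A] : Finset (Subgroup A) :=
  letI : Fintype (Subgroup A) := Fintype.ofFinite _
  (Finset.univ.filter (fun Q : Subgroup A => IsPGroup p Q)).filter (fun Q => crep ⊤ Q = Q)

open Classical in
/-- the sum over all subgroups by classes, for functions with values in `ℤ` -/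
theorem sum_crepZ [Finite A] (H : Subgroup A) (F : Finset (Subgroup A))
    (hF : ∀ T ∈ F, ∀ h ∈ H, cg h T ∈ F) (w : Subgroup A → ℤ)
    (hw : ∀ T ∈ F, ∀ h ∈ H, w (cg h T) = w T) :
    ∑ T ∈ F, (Nat.card ↥(H ⊓ Subgroup.normalizer (T : Set A)) : ℤ) * w T
      = (Nat.card H : ℤ) * ∑ T ∈ (F.filter (fun T => crep H T = T)), w T := by
  have hmaps : ∀ T ∈ F, crep H T ∈ F.filter (fun T => crep H T = T) := by
    intro T hT
    rw [Finset.mem_filter]
    obtain ⟨h, hh, e⟩ := crep_spec H T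
    refine ⟨?_, crep_crep H T⟩
    rw [e]
    exact hF T hT h hh
  rw [← Finset.sum_fiberwise_of_maps_to hmaps, Finset.mul_sum]
  refine Finset.sum_congr rfl (fun T₀ hT₀ => ?_)
  rw [Finset.mem_filter] at hT₀
  obtain ⟨hT₀F, hT₀⟩ := hT₀
  have hS : ∀ Q, Q ∈ F.filter (fun T => crep H T = T₀) ↔ ∃ m ∈ H, Q = cg m T₀ := by
    intro Q
    rw [Finset.mem_filter]
    constructor
    · rintro ⟨_, hQ⟩
      obtain ⟨h, hh, e⟩ := crep_spec H Q
      refine ⟨h⁻¹, H.inv_mem hh, ?_⟩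
      rw [← hQ, e, cg_cg, inv_mul_cancel, cg_one]
    · rintro ⟨m, hm, rfl⟩
      exact ⟨hF T₀ hT₀F m hm, by rw [crep_cg hm, hT₀]⟩
  rw [← sum_class H T₀ _ hS, Nat.cast_sum, Finset.sum_mul]
  refine Finset.sum_congr rfl (fun Q hQ => ?_)
  obtain ⟨m, hm, rfl⟩ := (hS Q).1 hQ
  rw [hw T₀ hT₀F m hm]

end

section
variable {p : ℕ} {k : Type*} [Field k] {A : Type*} [Group A] [Fintype A]

/-- the local term -/
noncomputable def WQ (p : ℕ) (Q : Subgroup A) (z : MonoidAlgebra k A) : k :=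
  letI : Fintype (NQ Q) := Fintype.ofFinite _
  trE k (⊤ : Subgroup (NQ Q)) (fun x => (hpe p k (NQ Q) * proj Q z).coeff x)

/-- the functional -/
noncomputable def Lam (p : ℕ) (z : MonoidAlgebra k A) : k :=
  trL k p (⊤ : Subgroup A) (fun x => z.coeff x) - ∑ Q ∈ TT p A, WQ p Q z

theorem WQ_add (Q : Subgroup A) (y z : MonoidAlgebra k A) :
    WQ p Q (y + z) = WQ p Q y + WQ p Q z := by
  unfold WQ
  letI : Fintype (NQ Q) := Fintype.ofFinite _
  rw [← trE_add, proj_add, mul_add]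
  rfl

theorem WQ_smul (Q : Subgroup A) (c : k) (z : MonoidAlgebra k A) :
    WQ p Q (c • z) = c * WQ p Q z := by
  unfold WQ
  letI : Fintype (NQ Q) := Fintype.ofFinite _
  rw [← trE_smul, proj_smul, mul_smul_comm]
  rfl

theorem Lam_add (y z : MonoidAlgebra k A) : Lam p (y + z) = Lam p y + Lam p z := by
  unfold Lam
  have h1 : trL k p (⊤ : Subgroup A) (fun x => (y + z).coeff x)
      = trL k p (⊤ : Subgroup A) (fun x => y.coeff x)
        + trL k p (⊤ : Subgroup A) (fun x => z.coeff x) := by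
    rw [← trL_add]
    rfl
  rw [h1, Finset.sum_congr rfl (fun Q _ => WQ_add Q y z), Finset.sum_add_distrib]
  ring

theorem Lam_smul (c : k) (z : MonoidAlgebra k A) : Lam p (c • z) = c * Lam p z := by
  unfold Lam
  have h1 : trL k p (⊤ : Subgroup A) (fun x => (c • z).coeff x)
      = c * trL k p (⊤ : Subgroup A) (fun x => z.coeff x) := by
    rw [← trL_smul]
    rfl
  rw [h1, Finset.sum_congr rfl (fun Q _ => WQ_smul Q c z), ← Finset.mul_sum]
  ring

theorem Lam_zero : Lam p (0 : MonoidAlgebra k A) = 0 := by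
  have h := Lam_smul (p := p) (0 : k) (0 : MonoidAlgebra k A)
  rwa [zero_smul, zero_mul] at h

theorem Lam_sum {ι : Type*} (S : Finset ι) (z : ι → MonoidAlgebra k A) :
    Lam p (∑ i ∈ S, z i) = ∑ i ∈ S, Lam p (z i) := by
  classical
  induction S using Finset.induction_on with
  | empty => rw [Finset.sum_empty, Finset.sum_empty, Lam_zero]
  | insert a S ha ih => rw [Finset.sum_insert ha, Finset.sum_insert ha, Lam_add, ih]

theorem sec_top (Q : Subgroup A) : sec (⊤ : Subgroup A) Q = ⊤ := by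
  rw [eq_top_iff]
  intro w _
  obtain ⟨x, hx, rfl⟩ := qm_surj w
  exact qm_mem_sec _ (Subgroup.mem_top x)

theorem proj_mem {Q : Subgroup A} {z : MonoidAlgebra k A}
    (hz : z ∈ fixAlg k (⊤ : Subgroup A) ⊤) :
    proj Q z ∈ fixAlg k (⊤ : Subgroup (NQ Q)) ⊤ := by
  rw [← sec_top Q, mem_fixAlg]
  exact ⟨proj_suppIn (mem_fixAlg.1 hz).1 Q, proj_invBy' (mem_fixAlg.1 hz).2⟩

theorem proj_pow [Fact p.Prime] [CharP k p] {Q : Subgroup A} (hQ : IsPGroup p Q)
    {z : MonoidAlgebra k A} (hz : z ∈ fixAlg k (⊤ : Subgroup A) ⊤) (n : ℕ) :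
    proj Q (z ^ n) = proj Q z ^ n := by
  induction n with
  | zero => rw [pow_zero, pow_zero, proj_one]
  | succ n ih =>
    rw [pow_succ, pow_succ, proj_mul hQ, ih]
    · exact ((mem_fixAlg.1 ((fixAlg k (⊤ : Subgroup A) ⊤).pow_mem hz n)).2).mono le_top
    · exact ((mem_fixAlg.1 hz).2).mono le_top

theorem hpe_commute [Fact p.Prime] {z : MonoidAlgebra k A}
    (hz : z ∈ fixAlg k (⊤ : Subgroup A) ⊤) : Commute (hpe p k A) z :=
  commute_of (mem_fixAlg.1 (hpe_mem (p := p) (k := k) (A := A))).1 (mem_fixAlg.1 hz).2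

theorem mem_TT {Q : Subgroup A} (hQ : Q ∈ TT p A) : IsPGroup p Q := by
  classical
  unfold TT at hQ
  rw [Finset.mem_filter, Finset.mem_filter] at hQ
  exact hQ.1.2

theorem Lam_nilp [Fact p.Prime] [CharP k p] {z : MonoidAlgebra k A}
    (hz : z ∈ fixAlg k (⊤ : Subgroup A) ⊤) (hn : IsNilpotent z) : Lam p z = 0 := by
  unfold Lam
  rw [trL_nilpotent (mem_fixAlg.1 hz).1 (mem_fixAlg.1 hz).2 hn, zero_sub, neg_eq_zero]
  refine Finset.sum_eq_zero (fun Q hQ => ?_)
  have hQp := mem_TT hQ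
  unfold WQ
  letI : Fintype (NQ Q) := Fintype.ofFinite _
  have h1 : proj Q z ∈ fixAlg k (⊤ : Subgroup (NQ Q)) ⊤ := proj_mem hz
  have h2 := (fixAlg k (⊤ : Subgroup (NQ Q)) ⊤).mul_mem
    (hpe_mem (p := p) (k := k) (A := NQ Q)) h1
  refine trE_nilpotent (p := p) (mem_fixAlg.1 h2).1 (mem_fixAlg.1 h2).2 ?_
  obtain ⟨n, hn⟩ := hn
  refine ⟨n, ?_⟩
  have hproj0 : proj Q (0 : MonoidAlgebra k A) = 0 := by
    rw [← zero_smul k (0 : MonoidAlgebra k A), proj_smul, zero_smul]
  rw [(hpe_commute h1).mul_pow, ← proj_pow hQp hz, hn, hproj0, mul_zero]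

end

section
variable {p : ℕ} {k : Type*} [Field k] {A : Type*} [Group A] [Fintype A]
variable [Fact p.Prime] [CharP k p] [IsAlgClosed k]

/-- the gap as an integer -/
noncomputable def gp (p : ℕ) (b : MonoidAlgebra k A) : ℤ :=
  (Nat.card (Quotient (irrInvSetoid (⊤ : Subgroup A) ⊤ b)) : ℤ) - ∑ Q ∈ TT p A,
    (Nat.card {f : MonoidAlgebra k (NQ Q) | IsDZ p (sec ⊤ Q) f ∧ f * proj Q b = f} : ℤ)

theorem gap_gp {b : MonoidAlgebra k A} (hb : IsBlock (⊤ : Subgroup A) b) :
    gap p (⊤ : Subgroup A) ⊤ b = (gp p b : ℚ) := by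
  classical
  letI : Fintype (Subgroup A) := Fintype.ofFinite _
  let D : Finset (Subgroup A) := Finset.univ.filter (fun Q : Subgroup A => IsPGroup p Q)
  have hD : ∀ Q, Q ∈ D ↔ Q ∈ Supp p (⊤ : Subgroup A) ⊤ := by
    intro Q
    rw [Finset.mem_filter]
    constructor
    · rintro ⟨_, h⟩
      exact ⟨le_top, h, by rw [top_sup_eq]⟩
    · rintro ⟨_, h, _⟩
      exact ⟨Finset.mem_univ _, h⟩
  have h2 := finsum_DZ_supp (p := p) (k := k) (le_refl (⊤ : Subgroup A))
    (fun x _ => by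
      rw [Subgroup.mem_normalizer_iff]
      intro y
      simp) (fun x _ => ⟨0, Subgroup.mem_top _⟩)
    hb hb.invBy D hD
  have h3 := sum_crep (⊤ : Subgroup A) D
    (fun T hT h _ => by
      rw [Finset.mem_filter] at hT ⊢
      exact ⟨Finset.mem_univ _, isPGroup_cg hT.2⟩)
    (fun Q => Nat.card {f : MonoidAlgebra k (NQ Q) | IsDZ p (sec ⊤ Q) f ∧ f * proj Q b = f})
    (fun T _ h hh => card_cg_eq hb.suppIn hb.invBy hh)
  have hpos : (Nat.card (⊤ : Subgroup A) : ℚ) ≠ 0 := by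
    exact_mod_cast (Nat.card_pos (α := (⊤ : Subgroup A))).ne'
  rw [h3, Nat.cast_mul] at h2
  have h4 := mul_left_cancel₀ hpos h2
  unfold gap gp
  rw [h4]
  have h5 : TT p A = D.filter (fun Q => crep ⊤ Q = Q) := rfl
  rw [h5]
  push_cast
  rfl

theorem Lam_blk {b : MonoidAlgebra k A} (hb : IsBlock (⊤ : Subgroup A) b) :
    Lam p b = ((gp p b : ℤ) : k) := by
  unfold Lam gp
  rw [trL_blk hb.mem hb.idem]
  push_cast
  congr 1
  refine Finset.sum_congr rfl (fun Q hQ => ?_)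
  have hQp := mem_TT hQ
  unfold WQ
  letI : Fintype (NQ Q) := Fintype.ofFinite _
  have h1 : proj Q b * proj Q b = proj Q b := by
    rw [← proj_mul hQp (hb.invBy.mono le_top) (hb.invBy.mono le_top), hb.idem]
  rw [trE_hpe (p := p) (proj_mem hb.mem) h1, sec_top Q]

theorem Lam_zel {m : A → ℤ} (hm : IsWt p (⊤ : Subgroup A) m) :
    ∃ t : ℤ, nL p (⊤ : Subgroup A) m - wS p m = (Nat.card A : ℤ) * t ∧
      (t : k) = Lam p (zel k m) := by
  classical
  letI : Fintype (Subgroup A) := Fintype.ofFinite _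
  let D : Finset (Subgroup A) := Finset.univ.filter (fun Q : Subgroup A => IsPGroup p Q)
  obtain ⟨t₀, ht₀, ht₀'⟩ := nL_trL (p := p) (k := k) (⊤ : Subgroup A) hm.conj
  have hQ : ∀ Q : Subgroup A, ∃ t : ℤ, nA p (⊤ : Subgroup (NQ Q)) (mb Q m)
      = (Nat.card (NQ Q) : ℤ) * t ∧ (t : k) = WQ p Q (zel k m) := by
    intro Q
    letI : Fintype (NQ Q) := Fintype.ofFinite _
    have hmb := mb_isWt (p := p) Q hm
    obtain ⟨t, h1, h2⟩ := nA_trE (p := p) (k := k) (A := NQ Q) (m := mb Q m)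
      (fun h x => hmb.conj h (Subgroup.mem_top h) x)
    refine ⟨t, h1, ?_⟩
    rw [h2]
    unfold WQ
    rw [proj_zel]
  choose w hw1 hw2 using hQ
  have hwc : ∀ T ∈ D, ∀ h ∈ (⊤ : Subgroup A), w (cg h T) = w T := by
    intro T _ h _
    have h1 := CCAux.nA_cg (p := p) h T (m := m)
      (fun x => hm.conj h (Subgroup.mem_top h) x)
    rw [hw1, hw1] at h1
    have h2 : Nat.card (NQ (cg h T)) = Nat.card (NQ T) := by
      have e1 := CCAux.card_NQ (cg h T)
      have e2 := CCAux.card_NQ T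
      rw [← cg_normalizer, card_cg, card_cg, ← e2] at e1
      exact Nat.eq_of_mul_eq_mul_right Nat.card_pos e1
    rw [h2] at h1
    have hpos : (Nat.card (NQ T) : ℤ) ≠ 0 := by
      exact_mod_cast (Nat.card_pos (α := NQ T)).ne'
    exact mul_left_cancel₀ hpos h1
  have h3 := sum_crepZ (⊤ : Subgroup A) D
    (fun T hT h _ => by
      rw [Finset.mem_filter] at hT ⊢
      exact ⟨Finset.mem_univ _, isPGroup_cg hT.2⟩) w hwc
  have hcard : (Nat.card (⊤ : Subgroup A)) = Nat.card A :=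
    Nat.card_congr Subgroup.topEquiv.toEquiv
  have h4 : wS p m = (Nat.card A : ℤ) * ∑ T ∈ TT p A, w T := by
    have h5 : TT p A = D.filter (fun Q => crep ⊤ Q = Q) := rfl
    rw [h5, ← hcard, ← h3]
    unfold wS
    rw [finsum_eq_sum_of_fintype, ← Finset.sum_filter]
    refine Finset.sum_congr rfl (fun Q _ => ?_)
    rw [hw1, top_inf_eq, ← CCAux.card_NQ Q]
    push_cast
    ring
  refine ⟨t₀ - ∑ T ∈ TT p A, w T, ?_, ?_⟩
  · rw [ht₀, h4, hcard]
    ring
  · unfold Lam
    push_cast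
    rw [ht₀']
    congr 1
    exact Finset.sum_congr rfl (fun Q _ => hw2 Q)

/-- if `Lam` vanishes at all blocks it vanishes on the centre -/
theorem Lam_of_blk (h : ∀ b : MonoidAlgebra k A, IsBlock (⊤ : Subgroup A) b → Lam p b = 0)
    {z : MonoidAlgebra k A} (hz : z ∈ fixAlg k (⊤ : Subgroup A) ⊤) : Lam p z = 0 := by
  classical
  let Bl : Finset (MonoidAlgebra k A) := (finite_isBlock (k := k) (⊤ : Subgroup A)).toFinset
  have hBl : ∀ b, b ∈ Bl ↔ IsBlock (⊤ : Subgroup A) b ∧ b * 1 ≠ 0 := by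
    intro b
    rw [Set.Finite.mem_toFinset, mul_one]
    exact ⟨fun hb => ⟨hb, IsBlock.ne_zero hb⟩, fun hb => hb.1⟩
  have h1 := WSumAux.sum_blocks (p := p) (fixAlg k (⊤ : Subgroup A) ⊤).one_mem (one_mul 1) Bl hBl
  have h2 : z = ∑ b ∈ Bl, z * b := by
    rw [← Finset.mul_sum, h1, mul_one]
  rw [h2, Lam_sum]
  refine Finset.sum_eq_zero (fun b hb => ?_)
  have hb' := ((hBl b).1 hb).1
  obtain ⟨c, w, hw1, hw2, hw3⟩ := blk_scalar hb' hz
  rw [hw3, Lam_add, Lam_smul, h b hb', mul_zero, zero_add, Lam_nilp hw1 hw2]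

open Classical in
/-- the indicator of a class -/
noncomputable def icl (p : ℕ) (X : Cl (⊤ : Subgroup A) (Preg p)) (x : A) : ℤ :=
  if InCl (⊤ : Subgroup A) (Preg p) X x then 1 else 0

theorem icl_isWt (X : Cl (⊤ : Subgroup A) (Preg p)) : IsWt p (⊤ : Subgroup A) (icl p X) := by
  constructor
  · intro h hh x
    unfold icl
    have h1 := InCl_conj (M := (⊤ : Subgroup A)) (P := Preg p)
      (fun g _ x hx => (preg_conj g x).2 hx) (Y := X) (a := x) hh
    by_cases h2 : InCl (⊤ : Subgroup A) (Preg p) X x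
    · rw [if_pos h2, if_pos (h1.2 h2)]
    · rw [if_neg h2, if_neg (fun h3 => h2 (h1.1 h3))]
  · intro x hx
    unfold icl at hx
    by_contra h1
    apply hx
    rw [if_neg]
    rintro ⟨h2, _⟩
    exact h1 h2

theorem blk_eq_sum {b : MonoidAlgebra k A} (hb : IsBlock (⊤ : Subgroup A) b)
    [Fintype (Cl (⊤ : Subgroup A) (Preg p))] :
    b = ∑ X : Cl (⊤ : Subgroup A) (Preg p), b.coeff (X.out : A) • zel k (icl p X) := by
  classical
  ext x
  have hsum : (∑ X : Cl (⊤ : Subgroup A) (Preg p),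
      b.coeff (X.out : A) • zel k (icl p X)).coeff x
      = ∑ X : Cl (⊤ : Subgroup A) (Preg p), b.coeff (X.out : A) * ((icl p X x : ℤ) : k) := by
    have h1 : ∀ S : Finset (Cl (⊤ : Subgroup A) (Preg p)),
        (∑ X ∈ S, b.coeff (X.out : A) • zel k (icl p X)).coeff x
        = ∑ X ∈ S, b.coeff (X.out : A) * ((icl p X x : ℤ) : k) := by
      intro S
      induction S using Finset.induction_on with
      | empty => rfl
      | insert a S ha ih =>
        rw [Finset.sum_insert ha, Finset.sum_insert ha, ← ih]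
        rfl
    exact h1 Finset.univ
  rw [hsum]
  by_cases hx : Preg p x
  · let X : Cl (⊤ : Subgroup A) (Preg p) := Quotient.mk _ ⟨x, hx⟩
    have hX : InCl (⊤ : Subgroup A) (Preg p) X x := ⟨hx, rfl⟩
    rw [Finset.sum_eq_single X]
    · have h1 : icl p X x = 1 := if_pos hX
      rw [h1, Int.cast_one, mul_one]
      obtain ⟨g, _, hg⟩ := InCl_out_conj hX
      rw [hg]
      exact (hb.invBy g (Subgroup.mem_top g) x).symm
    · intro Y _ hY
      have h1 : icl p Y x = 0 := if_neg (fun h => hY (InCl_unique h hX))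
      rw [h1, Int.cast_zero, mul_zero]
    · intro h
      exact absurd (Finset.mem_univ _) h
  · have h1 : b.coeff x = 0 := by
      by_contra h
      exact hx (osima hb.mem hb.idem h)
    rw [h1]
    symm
    refine Finset.sum_eq_zero (fun Y _ => ?_)
    have h2 : icl p Y x = 0 := if_neg (fun h => hx h.1)
    rw [h2, Int.cast_zero, mul_zero]

end

end TFinAux

open TFinAux

variable {p : ℕ} {k : Type*} [Field k] {A : Type*} [Group A] [Fintype A]
variable [Fact p.Prime] [CharP k p] [IsAlgClosed k]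

theorem R1 : (∀ b : MonoidAlgebra k A, IsBlock (⊤ : Subgroup A) b →
      ∃ t : ℤ, gap p (⊤ : Subgroup A) ⊤ b = (p : ℚ) * t) ↔
    ∀ m : A → ℤ, IsWt p (⊤ : Subgroup A) m →
      ((p : ℤ) * (Nat.card A : ℤ)) ∣ nL p (⊤ : Subgroup A) m - wS p m := by
  classical
  have hA : (Nat.card A : ℤ) ≠ 0 := by exact_mod_cast (Nat.card_pos (α := A)).ne'
  constructor
  · intro h m hm
    obtain ⟨t, ht, ht'⟩ := Lam_zel (k := k) hm
    have h1 : Lam p (zel k m) = 0 := by
      refine Lam_of_blk (fun b hb => ?_) (zel_mem (fun h x => hm.conj h (Subgroup.mem_top h) x))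
      rw [Lam_blk hb]
      obtain ⟨s, hs⟩ := h b hb
      rw [gap_gp hb] at hs
      have h2 : gp p b = (p : ℤ) * s := by exact_mod_cast hs
      rw [h2, Int.cast_mul, Int.cast_natCast, CharP.cast_eq_zero, zero_mul]
    rw [h1] at ht'
    have h3 : (p : ℤ) ∣ t := (CharP.intCast_eq_zero_iff k p t).1 ht'
    rw [ht, mul_comm (p : ℤ)]
    exact mul_dvd_mul_left _ h3
  · intro h b hb
    letI : Fintype (Cl (⊤ : Subgroup A) (Preg p)) := Fintype.ofFinite _
    have h1 : Lam p b = 0 := by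
      rw [blk_eq_sum (p := p) hb, Lam_sum]
      refine Finset.sum_eq_zero (fun X _ => ?_)
      rw [Lam_smul]
      obtain ⟨t, ht, ht'⟩ := Lam_zel (k := k) (icl_isWt (A := A) X)
      have h2 := h _ (icl_isWt X)
      rw [ht, mul_comm (p : ℤ)] at h2
      have h3 : (p : ℤ) ∣ t := Int.dvd_of_mul_dvd_mul_left hA h2
      have h4 : (t : k) = 0 := (CharP.intCast_eq_zero_iff k p t).2 h3
      rw [← ht', h4, mul_zero]
    rw [Lam_blk hb] at h1
    obtain ⟨s, hs⟩ := (CharP.intCast_eq_zero_iff k p _).1 h1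
    refine ⟨s, ?_⟩
    rw [gap_gp hb, hs]
    push_cast
    rfl

end Pool.Agent.Lib.P0c8ca5
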