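import Mathlib
import Pool.Agent.Lib.P0c8ca5V.Defs

/-! `k(B) = sum of l(b_u)`, step 1: central idempotents, class by class. -/

namespace Pool.Agent.Lib.P0c8ca5

open MonoidAlgebra

variable {p : ℕ} {k : Type*} [Field k] {A : Type*} [Group A]

namespace R2aAux

theorem mem_cen_zpowers {u x : A} :
    x ∈ Subgroup.centralizer ((Subgroup.zpowers u : Subgroup A) : Set A) ↔ u * x = x * u := by
  rw [Subgroup.mem_centralizer_iff]
  constructor
  · intro h
    exact h u (Subgroup.mem_zpowers u)
  · rintro h g ⟨i, rfl⟩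
    exact ((show Commute u x from h).zpow_left i).eq

theorem mem_cen_single {u x : A} :
    x ∈ Subgroup.centralizer ({u} : Set A) ↔ u * x = x * u := by
  rw [Subgroup.mem_centralizer_iff]
  constructor
  · intro h
    exact h u rfl
  · rintro h g rfl
    exact h

/-- the part of `a` supported in `H`, in the group algebra of `↥H` -/
noncomputable def dnH (H : Subgroup A) (a : MonoidAlgebra k A) : MonoidAlgebra k ↥H :=
  MonoidAlgebra.comapDomain Subtype.val Subtype.val_injective a

theorem coeff_dnH (H : Subgroup A) (a : MonoidAlgebra k A) (x : ↥H) :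
    (dnH H a).coeff x = a.coeff (x : A) := rfl

theorem up_dnH {N : Subgroup A} {z : MonoidAlgebra k A} (hz : SuppIn N z) :
    MonoidAlgebra.mapDomain N.subtype (dnH N z) = z := by
  apply MonoidAlgebra.mapDomain_comapDomain
  intro x hx
  exact ⟨⟨x, hz x (Finsupp.mem_support_iff.1 hx)⟩, rfl⟩

theorem dnH_idem {N : Subgroup A} {z : MonoidAlgebra k A} (hz : SuppIn N z)
    (hn : z * z = z) : dnH N z * dnH N z = dnH N z := by
  have h1 : MonoidAlgebra.mapDomainRingHom k N.subtype (dnH N z) = z := up_dnH hz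
  have hinj : Function.Injective (MonoidAlgebra.mapDomainRingHom k N.subtype) :=
    MonoidAlgebra.mapDomain_injective N.subtype_injective
  apply hinj
  rw [map_mul, h1, hn]

theorem dnH_commute {N : Subgroup A} {z : MonoidAlgebra k A} (hz : InvBy N z) (x : ↥N) :
    Commute (dnH N z) (single x (1 : k)) := by
  have h : InvBy (⊤ : Subgroup ↥N) (dnH N z) := by
    intro g _ y
    rw [coeff_dnH, coeff_dnH]
    exact hz g g.2 y
  exact (invBy_iff_commute.1 h x (Subgroup.mem_top _)).symm

/-- the linear extension of a class function at `e s` depends only on the values at the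
p-regular parts -/
theorem Fl_eq [Fact p.Prime] [CharP k p] [Finite A] {N : Subgroup A} [Fintype ↥N]
    {z : MonoidAlgebra k A} (hz : SuppIn N z) (hinv : InvBy N z) (hn : z * z = z)
    {s : ↥N} (hs : Preg p (s : A)) (f g : ↥N → k) (hf : ∀ a b, f (a * b) = f (b * a))
    (hg : ∀ a b, g (a * b) = g (b * a)) (hfg : ∀ w, f (w ^ uexp p A) = g (w ^ uexp p A)) :
    ChC.Fl f (dnH N z * single s (1 : k)) = ChC.Fl g (dnH N z * single s (1 : k)) := by
  obtain ⟨r, hr⟩ := uexp_eq p A
  have hq : p ^ r ≠ 0 := (pow_pos (Fact.out : p.Prime).pos r).ne'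
  have hss : s ^ p ^ r = s := by
    apply Subtype.ext
    rw [Subgroup.coe_pow, ← hr]
    exact pr_eq_self hs
  have hi : IsIdempotentElem (dnH N z) := dnH_idem hz hn
  have ha : (dnH N z * single s (1 : k)) ^ p ^ r = dnH N z * single s (1 : k) := by
    rw [(dnH_commute hinv s).mul_pow, single_pow, one_pow, hss, hi.pow_eq hq]
  have h1 := ChC.Fl_pow (p := p) f hf (dnH N z * single s (1 : k)) r
  have h2 := ChC.Fl_pow (p := p) g hg (dnH N z * single s (1 : k)) r
  rw [ha] at h1 h2
  rw [h1, h2]
  refine Finset.sum_congr rfl fun w _ => ?_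
  rw [← hr, hfg w]

open Classical in
/-- from the sum over `↥N` to the sum over `A` -/
theorem Fl_sum [Fintype A] {N : Subgroup A} [Fintype ↥N]
    {z : MonoidAlgebra k A} (s : ↥N) (P : A → Prop) (f : ↥N → k)
    (hf1 : ∀ w : ↥N, P (w : A) → f w = 1) (hf0 : ∀ w : ↥N, ¬ P (w : A) → f w = 0) :
    ChC.Fl f (dnH N z * single s (1 : k))
      = ∑ y : A, if y ∈ N ∧ P (y * (s : A)) then z.coeff y else 0 := by
  rw [ChC.Fl_apply, ← Equiv.sum_comp (Equiv.mulRight s)]
  have h1 : ∑ y : A, (if y ∈ N ∧ P (y * (s : A)) then z.coeff y else 0)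
      = ∑ y ∈ Finset.univ.filter (fun y : A => y ∈ N),
        (if P (y * (s : A)) then z.coeff y else 0) := by
    rw [Finset.sum_filter]
    refine Finset.sum_congr rfl fun y _ => ?_
    by_cases hy : y ∈ N
    · simp only [hy, true_and, if_true]
    · simp only [hy, false_and, if_false]
  rw [h1]
  refine Finset.sum_bij (fun (y : ↥N) _ => (y : A)) ?_ ?_ ?_ ?_
  · intro y _
    exact Finset.mem_filter.2 ⟨Finset.mem_univ _, y.2⟩
  · intro a _ b _ h
    exact Subtype.ext h
  · intro b hb
    exact ⟨⟨b, (Finset.mem_filter.1 hb).2⟩, Finset.mem_univ _, rfl⟩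
  · intro y _
    rw [coeff_mul_single_apply, mul_one, Equiv.coe_mulRight, mul_inv_cancel_right, coeff_dnH]
    by_cases h2 : P ((y : A) * (s : A))
    · rw [if_pos h2, hf1 _ h2, mul_one]
    · rw [if_neg h2, hf0 _ h2, mul_zero]

end R2aAux

open Classical in
/-- For a central idempotent `e` of `kH`, a p-element `u` of `H` and a p-regular element `s` of
`C_H(u)`: the sum of `e y` over the `y` in `H` with `y (u s)` conjugate to `u s` in `H` is the sum
of `e y` over the `y` in `C_H(u)` with `(y s)'` conjugate to `s` in `C_H(u)`.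
Proof: the first sum may be restricted to `y` in `C_H(u)` (conjugation by `u`, orbits of p-power
length). Then, for `h w = 1` if `u w` is conjugate to `u s` in `H` and `0` otherwise (a class function
of `C_H(u)`), `e' s = (e' s)^q` for `e'` the part of `e` in `C_H(u)`, `q = uexp p A`, and `Fl_pow`
gives `h (e' s) = sum of (e y) (h ((y s)'))`; the same for the other side. -/
theorem idem_term [Fact p.Prime] [CharP k p] [Fintype A] {H : Subgroup A} {e : MonoidAlgebra k A}
    (he : SuppIn H e) (hinv : InvBy H e) (hee : e * e = e) {u s : A} (hu : u ∈ H) (hpu : Pel p u)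
    (hs : s ∈ H) (hps : Preg p s) (hus : Commute u s) :
    ∑ y : A, (if ∃ h ∈ H, y * (u * s) = h * (u * s) * h⁻¹ then e.coeff y else 0)
      = ∑ y : A, (if y ∈ H ⊓ Subgroup.centralizer ({u} : Set A) ∧
          ∃ h ∈ H ⊓ Subgroup.centralizer ({u} : Set A), pr p (y * s) = h * s * h⁻¹
            then e.coeff y else 0) := by
  set C : Subgroup A := H ⊓ Subgroup.centralizer ({u} : Set A) with hC
  set D : Subgroup A := Subgroup.zpowers u with hDdef
  have hmemC : ∀ x, x ∈ C ↔ x ∈ H ∧ u * x = x * u := by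
    intro x
    rw [hC, Subgroup.mem_inf, R2aAux.mem_cen_single]
  have hsC : s ∈ C := (hmemC s).2 ⟨hs, hus⟩
  have hD : IsPGroup p D := by
    obtain ⟨n, hn⟩ := hpu
    rintro ⟨g, i, rfl⟩
    refine ⟨n, Subtype.ext ?_⟩
    change (u ^ i) ^ p ^ n = 1
    rw [← zpow_natCast, ← zpow_mul, mul_comm, zpow_mul, zpow_natCast, hn, one_zpow]
  have hDH : D ≤ H := by
    rintro g ⟨i, rfl⟩
    exact H.zpow_mem hu i
  -- the part of `e` in the centralizer
  set e' : MonoidAlgebra k A := resS (Subgroup.centralizer (D : Set A) : Set A) e with he'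
  have he'e : e' * e' = e' := by
    rw [he', ← resS_mul hD (hinv.mono hDH) (hinv.mono hDH), hee]
  have he'C : SuppIn C e' := by
    intro x hx
    by_cases h : x ∈ (Subgroup.centralizer (D : Set A) : Set A)
    · rw [he', coeff_resS_of_mem _ h] at hx
      exact (hmemC x).2 ⟨he x hx, R2aAux.mem_cen_zpowers.1 h⟩
    · rw [he', coeff_resS_of_notMem _ h] at hx
      exact absurd rfl hx
  have hco : ∀ x, u * x = x * u → e'.coeff x = e.coeff x := by
    intro x hx
    rw [he', coeff_resS_of_mem]
    exact R2aAux.mem_cen_zpowers.2 hx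
  have he'inv : InvBy C e' := by
    intro g hg x
    obtain ⟨hg1, hg2⟩ := (hmemC g).1 hg
    by_cases h : u * x = x * u
    · have h2 : u * (g * x * g⁻¹) = g * x * g⁻¹ * u := by
        have c1 : Commute u g := hg2
        have c2 : Commute u x := h
        exact ((c1.mul_right c2).mul_right c1.inv_right).eq
      rw [hco _ h2, hco _ h, hinv g hg1]
    · have h2 : ¬ u * (g * x * g⁻¹) = g * x * g⁻¹ * u := by
        intro h3
        apply h
        have c1 : Commute u g := hg2
        have c2 : Commute u (g * x * g⁻¹) := h3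
        have c3 : Commute u (g⁻¹ * (g * x * g⁻¹) * g) :=
          (c1.inv_right.mul_right c2).mul_right c1
        have e3 : g⁻¹ * (g * x * g⁻¹) * g = x := by group
        rw [e3] at c3
        exact c3.eq
      rw [he', coeff_resS_of_notMem, coeff_resS_of_notMem]
      · exact fun h3 => h (R2aAux.mem_cen_zpowers.1 h3)
      · exact fun h3 => h2 (R2aAux.mem_cen_zpowers.1 h3)
  let _ : Fintype ↥C := Fintype.ofFinite _
  -- the main step
  have hpru : pr p u = 1 := by
    obtain ⟨n, hn⟩ := hpu
    exact pr_of_pow hn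
  have key := R2aAux.Fl_eq (p := p) (s := ⟨s, hsC⟩) he'C he'inv he'e hps
    (fun w : ↥C => if (∃ h ∈ H, u * (w : A) = h * (u * s) * h⁻¹) then (1 : k) else 0)
    (fun w : ↥C => if (∃ h ∈ C, pr p (w : A) = h * s * h⁻¹) then (1 : k) else 0)
    (by
      intro a b
      have h1 : (∃ h ∈ H, u * ((a * b : ↥C) : A) = h * (u * s) * h⁻¹) ↔
          (∃ h ∈ H, u * ((b * a : ↥C) : A) = h * (u * s) * h⁻¹) := by
        obtain ⟨hb1, hb2⟩ := (hmemC b).1 b.2
        have e1 : u * ((b * a : ↥C) : A) = (b : A) * (u * ((a * b : ↥C) : A)) * (b : A)⁻¹ := by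
          simp only [Subgroup.coe_mul]
          rw [← mul_assoc (b : A) u, ← hb2]
          group
        rw [e1]
        constructor
        · rintro ⟨h, hh, h2⟩
          refine ⟨b * h, H.mul_mem hb1 hh, ?_⟩
          rw [h2]
          group
        · rintro ⟨h, hh, h2⟩
          refine ⟨(b : A)⁻¹ * h, H.mul_mem (H.inv_mem hb1) hh, ?_⟩
          have e2 : u * ((a * b : ↥C) : A)
              = (b : A)⁻¹ * ((b : A) * (u * ((a * b : ↥C) : A)) * (b : A)⁻¹) * b := by group
          rw [e2, h2]
          group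
      simp only [h1])
    (by
      intro a b
      have h1 : (∃ h ∈ C, pr p ((a * b : ↥C) : A) = h * s * h⁻¹) ↔
          (∃ h ∈ C, pr p ((b * a : ↥C) : A) = h * s * h⁻¹) := by
        have e1 : ((b * a : ↥C) : A) = (b : A) * ((a * b : ↥C) : A) * (b : A)⁻¹ := by
          simp only [Subgroup.coe_mul]
          group
        rw [e1, pr_conj]
        constructor
        · rintro ⟨h, hh, h2⟩
          refine ⟨b * h, C.mul_mem b.2 hh, ?_⟩
          rw [h2]
          group
        · rintro ⟨h, hh, h2⟩
          refine ⟨(b : A)⁻¹ * h, C.mul_mem (C.inv_mem b.2) hh, ?_⟩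
          have e2 : pr p ((a * b : ↥C) : A)
              = (b : A)⁻¹ * ((b : A) * pr p ((a * b : ↥C) : A) * (b : A)⁻¹) * b := by group
          rw [e2, h2]
          group
      simp only [h1])
    (by
      intro w
      have h0 : ((w ^ uexp p A : ↥C) : A) = pr p (w : A) := rfl
      obtain ⟨hw1, hw2⟩ := (hmemC w).1 w.2
      have hc : Commute u (pr p (w : A)) := commute_pr hw2
      have h1 : (∃ h ∈ H, u * ((w ^ uexp p A : ↥C) : A) = h * (u * s) * h⁻¹) ↔
          (∃ h ∈ C, pr p ((w ^ uexp p A : ↥C) : A) = h * s * h⁻¹) := by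
        rw [h0, pr_pr]
        constructor
        · rintro ⟨h, hh, h2⟩
          have h3 := congrArg (pr p) h2
          rw [pr_mul hc, hpru, one_mul, pr_pr, pr_conj, pr_mul hus, hpru, one_mul,
            pr_eq_self hps] at h3
          refine ⟨h, (hmemC h).2 ⟨hh, ?_⟩, h3⟩
          rw [h3] at h2
          have h4 : u * h * s * h⁻¹ = h * u * s * h⁻¹ := by
            calc u * h * s * h⁻¹ = u * (h * s * h⁻¹) := by group
              _ = h * (u * s) * h⁻¹ := h2
              _ = h * u * s * h⁻¹ := by group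
          exact mul_right_cancel (mul_right_cancel h4)
        · rintro ⟨h, hh, h2⟩
          obtain ⟨hh1, hh2⟩ := (hmemC h).1 hh
          refine ⟨h, hh1, ?_⟩
          rw [h2]
          calc u * (h * s * h⁻¹) = (u * h) * s * h⁻¹ := by group
            _ = (h * u) * s * h⁻¹ := by rw [hh2]
            _ = h * (u * s) * h⁻¹ := by group
      simp only [h1])
  rw [R2aAux.Fl_sum (⟨s, hsC⟩ : ↥C) (fun x => ∃ h ∈ H, u * x = h * (u * s) * h⁻¹) _
      (fun w hw => if_pos hw) (fun w hw => if_neg hw),
    R2aAux.Fl_sum (⟨s, hsC⟩ : ↥C) (fun x => ∃ h ∈ C, pr p x = h * s * h⁻¹) _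
      (fun w hw => if_pos hw) (fun w hw => if_neg hw)] at key
  -- the left side
  have hL := sum_conj_eq (p := p) hD
    (fun y : A => if ∃ h ∈ H, y * (u * s) = h * (u * s) * h⁻¹ then e.coeff y else 0)
    (by
      intro d hd x
      have hdH : d ∈ H := hDH hd
      obtain ⟨i, rfl⟩ := hd
      have c0 : Commute u (u * s) := (Commute.refl u).mul_right hus
      have c1 : Commute (u ^ i) (u * s) := c0.zpow_left i
      have h1 : (∃ h ∈ H, (u ^ i) * x * (u ^ i)⁻¹ * (u * s) = h * (u * s) * h⁻¹) ↔
          (∃ h ∈ H, x * (u * s) = h * (u * s) * h⁻¹) := by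
        have e1 : (u ^ i) * x * (u ^ i)⁻¹ * (u * s) = (u ^ i) * (x * (u * s)) * (u ^ i)⁻¹ := by
          rw [mul_assoc ((u ^ i) * x), c1.inv_left.eq]
          group
        rw [e1]
        constructor
        · rintro ⟨h, hh, h2⟩
          refine ⟨(u ^ i)⁻¹ * h, H.mul_mem (H.inv_mem hdH) hh, ?_⟩
          have e2 : x * (u * s)
              = (u ^ i)⁻¹ * ((u ^ i) * (x * (u * s)) * (u ^ i)⁻¹) * (u ^ i) := by group
          rw [e2, h2]
          group
        · rintro ⟨h, hh, h2⟩
          refine ⟨(u ^ i) * h, H.mul_mem hdH hh, ?_⟩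
          rw [h2]
          group
      simp only [h1]
      rw [hinv _ hdH])
    (Finset.univ.filter (fun y => y ∈ Subgroup.centralizer (D : Set A)))
    (by
      intro x
      rw [Finset.mem_filter]
      simp)
  rw [hL, Finset.sum_filter]
  have hl : ∀ y : A, (if y ∈ Subgroup.centralizer (D : Set A) then
      (if ∃ h ∈ H, y * (u * s) = h * (u * s) * h⁻¹ then e.coeff y else 0) else 0)
      = if y ∈ C ∧ ∃ h ∈ H, u * (y * s) = h * (u * s) * h⁻¹ then e'.coeff y else 0 := by
    intro y
    by_cases hy : u * y = y * u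
    · rw [if_pos (R2aAux.mem_cen_zpowers.2 hy), hco y hy]
      have e1 : u * (y * s) = y * (u * s) := by
        rw [← mul_assoc, hy, mul_assoc]
      rw [e1]
      by_cases hyH : y ∈ H
      · have hyC : y ∈ C := (hmemC y).2 ⟨hyH, hy⟩
        simp only [hyC, true_and]
      · have h0 : e.coeff y = 0 := by
          by_contra h
          exact hyH (he y h)
        rw [h0, ite_self, ite_self]
    · rw [if_neg (fun h => hy (R2aAux.mem_cen_zpowers.1 h)), if_neg]
      rintro ⟨h, -⟩
      exact hy ((hmemC y).1 h).2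
  have hr : ∀ y : A, (if y ∈ C ∧ ∃ h ∈ C, pr p (y * s) = h * s * h⁻¹ then e'.coeff y else 0)
      = if y ∈ C ∧ ∃ h ∈ C, pr p (y * s) = h * s * h⁻¹ then e.coeff y else 0 := by
    intro y
    by_cases hy : y ∈ C ∧ ∃ h ∈ C, pr p (y * s) = h * s * h⁻¹
    · rw [if_pos hy, if_pos hy, hco y ((hmemC y).1 hy.1).2]
    · rw [if_neg hy, if_neg hy]
  refine Eq.trans ?_ (Eq.trans key ?_)
  · refine Finset.sum_congr rfl fun y _ => ?_
    rw [hl y]
    congr!
  · refine Finset.sum_congr rfl fun y _ => ?_
    rw [← hr y]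
    congr!

end Pool.Agent.Lib.P0c8ca5
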