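import Mathlib
import Pool.Agent.Lib.P0c8ca5V.R2a
import Pool.Agent.Lib.P0c8ca5V.R2b

/-! `k(B) = sum of l(b_u)`, step 3: all central elements; the congruence for the counts. -/

namespace Pool.Agent.Lib.P0c8ca5

open MonoidAlgebra

variable {p : ℕ} {A : Type*} [Group A]

namespace R2cAux

/-! ### p-elements, centralizers -/

theorem pel_conj {g x : A} : Pel p (g * x * g⁻¹) ↔ Pel p x := by
  unfold Pel
  constructor
  · rintro ⟨n, hn⟩
    refine ⟨n, ?_⟩
    rw [conj_pow] at hn
    have : x ^ p ^ n = g⁻¹ * (g * x ^ p ^ n * g⁻¹) * g := by group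
    rw [this, hn]
    group
  · rintro ⟨n, hn⟩
    refine ⟨n, ?_⟩
    rw [conj_pow, hn]
    group

theorem mem_K {H : Subgroup A} {u x : A} :
    x ∈ H ⊓ Subgroup.centralizer ({u} : Set A) ↔ x ∈ H ∧ Commute u x := by
  rw [Subgroup.mem_inf, Subgroup.mem_centralizer_singleton_iff]
  constructor
  · rintro ⟨h1, h2⟩
    exact ⟨h1, h2.symm⟩
  · rintro ⟨h1, h2⟩
    exact ⟨h1, h2.symm⟩

theorem commute_conj {g u x : A} : Commute (g * u * g⁻¹) (g * x * g⁻¹) ↔ Commute u x := by
  constructor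
  · intro h
    have h1 := h.eq
    have h2 : g * (u * x) * g⁻¹ = g * (x * u) * g⁻¹ := by
      calc g * (u * x) * g⁻¹ = (g * u * g⁻¹) * (g * x * g⁻¹) := by group
        _ = (g * x * g⁻¹) * (g * u * g⁻¹) := h1
        _ = g * (x * u) * g⁻¹ := by group
    exact mul_left_cancel (mul_right_cancel h2)
  · intro h
    have h1 := h.eq
    show (g * u * g⁻¹) * (g * x * g⁻¹) = (g * x * g⁻¹) * (g * u * g⁻¹)
    calc (g * u * g⁻¹) * (g * x * g⁻¹) = g * (u * x) * g⁻¹ := by group
      _ = g * (x * u) * g⁻¹ := by rw [h1]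
      _ = (g * x * g⁻¹) * (g * u * g⁻¹) := by group

theorem mem_conj_iff {H : Subgroup A} {h x : A} (hh : h ∈ H) : h * x * h⁻¹ ∈ H ↔ x ∈ H := by
  constructor
  · intro hx
    have := H.mul_mem (H.mul_mem (H.inv_mem hh) hx) hh
    have e : h⁻¹ * (h * x * h⁻¹) * h = x := by group
    rwa [e] at this
  · intro hx
    exact H.mul_mem (H.mul_mem hh hx) (H.inv_mem hh)

theorem mem_K_conj {H : Subgroup A} {u x h : A} (hh : h ∈ H) :
    h * x * h⁻¹ ∈ H ⊓ Subgroup.centralizer ({h * u * h⁻¹} : Set A) ↔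
      x ∈ H ⊓ Subgroup.centralizer ({u} : Set A) := by
  rw [mem_K, mem_K, mem_conj_iff hh, commute_conj]

/-- conjugation as a permutation -/
def cjE (h : A) : A ≃ A where
  toFun x := h * x * h⁻¹
  invFun x := h⁻¹ * x * h
  left_inv x := by group
  right_inv x := by group

theorem card_K_conj [Finite A] {H : Subgroup A} {u h : A} (hh : h ∈ H) :
    Nat.card ↥(H ⊓ Subgroup.centralizer ({h * u * h⁻¹} : Set A)) =
      Nat.card ↥(H ⊓ Subgroup.centralizer ({u} : Set A)) := by
  refine (Nat.card_congr ?_).symm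
  refine Equiv.subtypeEquiv (cjE h) fun x => ?_
  exact (mem_K_conj hh).symm

theorem nL_conj {H : Subgroup A} {m : A → ℤ}
    (hm : ∀ h ∈ H, ∀ x, m (h * x * h⁻¹) = m x) {u h : A} (hh : h ∈ H) :
    nL p (H ⊓ Subgroup.centralizer ({h * u * h⁻¹} : Set A)) m =
      nL p (H ⊓ Subgroup.centralizer ({u} : Set A)) m := by
  classical
  unfold nL
  rw [← finsum_comp_equiv ((cjE h).prodCongr ((cjE h).prodCongr (cjE h)))]
  refine finsum_congr fun t => ?_
  obtain ⟨s, g, c⟩ := t
  show (if (h * s * h⁻¹ ∈ _ ∧ h * g * h⁻¹ ∈ _ ∧ h * c * h⁻¹ ∈ _) ∧ Preg p (h * s * h⁻¹) ∧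
    pr p (h * c * h⁻¹ * (h * s * h⁻¹)) =
      h * g * h⁻¹ * (h * s * h⁻¹) * (h * g * h⁻¹)⁻¹ then m (h * c * h⁻¹) else 0) = _
  rw [hm h hh c]
  refine if_congr ?_ rfl rfl
  rw [mem_K_conj hh, mem_K_conj hh, mem_K_conj hh, preg_conj]
  have e1 : h * c * h⁻¹ * (h * s * h⁻¹) = h * (c * s) * h⁻¹ := by group
  have e2 : h * g * h⁻¹ * (h * s * h⁻¹) * (h * g * h⁻¹)⁻¹ = h * (g * s * g⁻¹) * h⁻¹ := by group
  rw [e1, e2, pr_conj]
  refine and_congr Iff.rfl (and_congr Iff.rfl ?_)
  constructor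
  · intro e
    exact mul_left_cancel (mul_right_cancel e)
  · intro e
    rw [e]

/-! ### sums over classes -/

theorem out_conj {H : Subgroup A} {P : A → Prop} {x : A} (hx : P x) :
    ∃ h ∈ H, ((Quotient.mk (clSetoid H P) ⟨x, hx⟩ : Cl H P).out : A) = h * x * h⁻¹ := by
  have h1 : (Quotient.mk (clSetoid H P) ⟨x, hx⟩ : Cl H P) =
      Quotient.mk (clSetoid H P) (Quotient.mk (clSetoid H P) ⟨x, hx⟩ : Cl H P).out :=
    (Quotient.out_eq _).symm
  exact Quotient.exact h1

theorem mk_eq {H : Subgroup A} {P : A → Prop} {x y : A} (hx : P x) (hy : P y)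
    (h : ∃ h ∈ H, y = h * x * h⁻¹) :
    (Quotient.mk (clSetoid H P) ⟨x, hx⟩ : Cl H P) = Quotient.mk (clSetoid H P) ⟨y, hy⟩ :=
  Quotient.sound h

theorem eq_mk {H : Subgroup A} {P : A → Prop} (U : Cl H P) {x : A} (hx : P x)
    (h : ∃ h ∈ H, x = h * (U.out : A) * h⁻¹) : U = Quotient.mk (clSetoid H P) ⟨x, hx⟩ := by
  rw [← Quotient.out_eq U]
  exact Quotient.sound h

open Classical in
theorem sum_clsR [Fintype A] (H : Subgroup A) {P : A → Prop} [Fintype (Cl H P)]
    (hP : ∀ h ∈ H, ∀ x, P x → P (h * x * h⁻¹)) (t : A → ℤ)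
    (ht : ∀ h ∈ H, ∀ x, t (h * x * h⁻¹) = t x) :
    ∑ u : A, (if P u then (Nat.card ↥(H ⊓ Subgroup.centralizer ({u} : Set A)) : ℤ) * t u else 0) =
      (Nat.card H : ℤ) * ∑ U : Cl H P, t (U.out : A) := by
  set Hf : Finset A := Finset.univ.filter fun h => h ∈ H with hHf
  have hcard : (Nat.card H : ℤ) = Hf.card := by
    rw [hHf, Nat.card_eq_fintype_card, Fintype.card_subtype]
  have h1 : (Nat.card H : ℤ) * ∑ U : Cl H P, t (U.out : A) =
      ∑ U : Cl H P, ∑ h ∈ Hf, ∑ u : A, if u = h * (U.out : A) * h⁻¹ then t u else 0 := by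
    rw [Finset.mul_sum]
    refine Finset.sum_congr rfl fun U _ => ?_
    rw [hcard, ← nsmul_eq_mul, ← Finset.sum_const]
    refine Finset.sum_congr rfl fun h hh => ?_
    rw [Finset.sum_ite_eq' Finset.univ, if_pos (Finset.mem_univ _)]
    exact (ht h (Finset.mem_filter.1 hh).2 _).symm
  rw [h1]
  have h2 : ∑ U : Cl H P, ∑ h ∈ Hf, ∑ u : A, (if u = h * (U.out : A) * h⁻¹ then t u else 0) =
      ∑ u : A, ∑ U : Cl H P, ∑ h ∈ Hf, if u = h * (U.out : A) * h⁻¹ then t u else 0 := by
    rw [Finset.sum_congr rfl fun U _ => Finset.sum_comm]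
    exact Finset.sum_comm
  rw [h2]
  refine Finset.sum_congr rfl fun u _ => ?_
  by_cases hu : P u
  · rw [if_pos hu]
    obtain ⟨h0, hh0, e0⟩ := out_conj (H := H) hu
    rw [Finset.sum_eq_single (Quotient.mk (clSetoid H P) ⟨u, hu⟩ : Cl H P)]
    · rw [← Finset.sum_filter, Finset.sum_const, nsmul_eq_mul]
      congr 1
      have hK : Nat.card ↥(H ⊓ Subgroup.centralizer ({u} : Set A)) =
          (Finset.univ.filter fun x => x ∈ H ⊓ Subgroup.centralizer ({u} : Set A)).card := by
        rw [Nat.card_eq_fintype_card, Fintype.card_subtype]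
      rw [hK]
      norm_cast
      refine Finset.card_bij' (fun x _ => x * h0⁻¹) (fun h _ => h * h0) ?_ ?_ ?_ ?_
      · intro x hx
        obtain ⟨hxH, hxu⟩ := mem_K.1 (Finset.mem_filter.1 hx).2
        refine Finset.mem_filter.2 ⟨Finset.mem_filter.2 ⟨Finset.mem_univ _,
          H.mul_mem hxH (H.inv_mem hh0)⟩, ?_⟩
        rw [e0]
        have e1 : x * h0⁻¹ * (h0 * u * h0⁻¹) * (x * h0⁻¹)⁻¹ = x * u * x⁻¹ := by group
        rw [e1, hxu.symm.eq]
        group
      · intro h hh
        obtain ⟨h3, h4⟩ := Finset.mem_filter.1 hh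
        refine Finset.mem_filter.2 ⟨Finset.mem_univ _, mem_K.2
          ⟨H.mul_mem (Finset.mem_filter.1 h3).2 hh0, ?_⟩⟩
        rw [e0] at h4
        show u * (h * h0) = (h * h0) * u
        have e1 : h * (h0 * u * h0⁻¹) * h⁻¹ = h * h0 * u * (h * h0)⁻¹ := by group
        rw [e1] at h4
        calc u * (h * h0) = h * h0 * u * (h * h0)⁻¹ * (h * h0) := by rw [← h4]
          _ = h * h0 * u := by group
      · intro x _
        group
      · intro h _
        group
    · intro U _ hne
      refine Finset.sum_eq_zero fun h hh => ?_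
      rw [if_neg]
      intro e
      exact hne (eq_mk U hu ⟨h, (Finset.mem_filter.1 hh).2, e⟩)
    · intro h
      exact absurd (Finset.mem_univ _) h
  · rw [if_neg hu]
    refine (Finset.sum_eq_zero fun U _ => Finset.sum_eq_zero fun h hh => ?_).symm
    rw [if_neg]
    intro e
    apply hu
    rw [e]
    exact hP h (Finset.mem_filter.1 hh).2 _ U.out.2

/-! ### the bijection of the classes -/

open Classical in
/-- the sum over the classes of `H` by the p-part and the p-regular part -/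
theorem sum_split {M : Type*} [AddCommMonoid M] [Fact p.Prime] [Fintype A] (H : Subgroup A)
    (f : A → M) (hf : ∀ h ∈ H, ∀ x, f (h * x * h⁻¹) = f x) :
    ∑ᶠ X : Cl H (fun x => x ∈ H), f (X.out : A) =
      ∑ᶠ U : Cl H (fun x => x ∈ H ∧ Pel p x),
        ∑ᶠ S : Cl (H ⊓ Subgroup.centralizer ({(U.out : A)} : Set A))
          (fun x => x ∈ H ⊓ Subgroup.centralizer ({(U.out : A)} : Set A) ∧ Preg p x),
          f ((U.out : A) * (S.out : A)) := by
  have hmem : ∀ (U : Cl H (fun x => x ∈ H ∧ Pel p x))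
      (S : Cl (H ⊓ Subgroup.centralizer ({(U.out : A)} : Set A))
        (fun x => x ∈ H ⊓ Subgroup.centralizer ({(U.out : A)} : Set A) ∧ Preg p x)),
      (U.out : A) * (S.out : A) ∈ H := fun U S =>
    H.mul_mem U.out.2.1 (mem_K.1 S.out.2.1).1
  let Φ : (Σ U : Cl H (fun x => x ∈ H ∧ Pel p x),
      Cl (H ⊓ Subgroup.centralizer ({(U.out : A)} : Set A))
        (fun x => x ∈ H ⊓ Subgroup.centralizer ({(U.out : A)} : Set A) ∧ Preg p x)) →
      Cl H (fun x => x ∈ H) := fun q =>
    Quotient.mk (clSetoid H (fun x => x ∈ H)) ⟨(q.1.out : A) * (q.2.out : A), hmem q.1 q.2⟩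
  have hpr : ∀ (U : Cl H (fun x => x ∈ H ∧ Pel p x))
      (S : Cl (H ⊓ Subgroup.centralizer ({(U.out : A)} : Set A))
        (fun x => x ∈ H ⊓ Subgroup.centralizer ({(U.out : A)} : Set A) ∧ Preg p x)),
      pr p ((U.out : A) * (S.out : A)) = (S.out : A) := by
    intro U S
    have hc : Commute (U.out : A) (S.out : A) := (mem_K.1 S.out.2.1).2
    obtain ⟨n, hn⟩ := U.out.2.2
    rw [pr_mul hc, pr_of_pow hn, pr_eq_self S.out.2.2, one_mul]
  have hinj : Function.Injective Φ := by
    rintro ⟨U, S⟩ ⟨U', S'⟩ he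
    obtain ⟨h, hh, e⟩ := Quotient.exact he
    have e : (U'.out : A) * (S'.out : A) = h * ((U.out : A) * (S.out : A)) * h⁻¹ := e
    have e1 : (S'.out : A) = h * (S.out : A) * h⁻¹ := by
      rw [← hpr U' S', e, pr_conj, hpr U S]
    have e2 : (U'.out : A) = h * (U.out : A) * h⁻¹ := by
      have : (U'.out : A) = (U'.out : A) * (S'.out : A) * (S'.out : A)⁻¹ := by group
      rw [this, e, e1]
      group
    have hU : U = U' := by
      rw [← Quotient.out_eq U, ← Quotient.out_eq U']
      exact Quotient.sound ⟨h, hh, e2⟩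
    subst hU
    have hS : S = S' := by
      rw [← Quotient.out_eq S, ← Quotient.out_eq S']
      refine Quotient.sound ⟨h, mem_K.2 ⟨hh, ?_⟩, e1⟩
      show (U.out : A) * h = h * (U.out : A)
      calc (U.out : A) * h = h * (U.out : A) * h⁻¹ * h := by rw [← e2]
        _ = h * (U.out : A) := by group
    rw [hS]
  have hsurj : Function.Surjective Φ := by
    intro X
    set x : A := (X.out : A) with hx
    have hxH : x ∈ H := X.out.2
    set u : A := x * (pr p x)⁻¹ with hu
    have hsH : pr p x ∈ H := pr_mem hxH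
    have huH : u ∈ H := H.mul_mem hxH (H.inv_mem hsH)
    have hup : Pel p u := exists_pow_mul_inv_pr x
    have hcx : Commute x (pr p x) := commute_pr (Commute.refl x)
    have hus : Commute u (pr p x) := by
      show x * (pr p x)⁻¹ * pr p x = pr p x * (x * (pr p x)⁻¹)
      rw [← mul_assoc, hcx.symm.eq]
      group
    have hxe : x = u * pr p x := by
      rw [hu]
      group
    obtain ⟨g, hg, eg⟩ := out_conj (H := H) (P := fun x => x ∈ H ∧ Pel p x) (x := u) ⟨huH, hup⟩
    set U : Cl H (fun x => x ∈ H ∧ Pel p x) :=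
      Quotient.mk (clSetoid H (fun x => x ∈ H ∧ Pel p x)) ⟨u, huH, hup⟩ with hU
    have hs' : g * pr p x * g⁻¹ ∈ H ⊓ Subgroup.centralizer ({(U.out : A)} : Set A) ∧
        Preg p (g * pr p x * g⁻¹) := by
      refine ⟨?_, (preg_conj g _).2 (preg_pr x)⟩
      rw [eg]
      exact (mem_K_conj hg).2 (mem_K.2 ⟨hsH, hus⟩)
    obtain ⟨l, hl, el⟩ := out_conj (H := H ⊓ Subgroup.centralizer ({(U.out : A)} : Set A))
      (P := fun x => x ∈ H ⊓ Subgroup.centralizer ({(U.out : A)} : Set A) ∧ Preg p x) hs'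
    obtain ⟨hlH, hlU⟩ := mem_K.1 hl
    set S : Cl (H ⊓ Subgroup.centralizer ({(U.out : A)} : Set A))
        (fun x => x ∈ H ⊓ Subgroup.centralizer ({(U.out : A)} : Set A) ∧ Preg p x) :=
      Quotient.mk (clSetoid _ _) ⟨g * pr p x * g⁻¹, hs'⟩ with hS
    refine ⟨⟨U, S⟩, ?_⟩
    refine Eq.trans (Eq.symm (Quotient.sound (s := clSetoid H (fun x => x ∈ H)) (a := X.out)
      (b := ⟨(U.out : A) * (S.out : A), hmem U S⟩)
      ⟨l * g, H.mul_mem hlH hg, ?_⟩)) (Quotient.out_eq X)
    show (U.out : A) * (S.out : A) = l * g * x * (l * g)⁻¹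
    rw [el]
    have e1 : (U.out : A) = l * (g * u * g⁻¹) * l⁻¹ := by
      rw [← eg, ← hlU.eq]
      group
    calc (U.out : A) * (l * (g * pr p x * g⁻¹) * l⁻¹)
        = l * (g * u * g⁻¹) * l⁻¹ * (l * (g * pr p x * g⁻¹) * l⁻¹) := by rw [← e1]
      _ = l * g * (u * pr p x) * (l * g)⁻¹ := by group
      _ = l * g * x * (l * g)⁻¹ := by rw [← hxe]
  have : Fintype (Cl H (fun x => x ∈ H)) := Fintype.ofFinite _
  have : Fintype (Cl H (fun x => x ∈ H ∧ Pel p x)) := Fintype.ofFinite _
  have : ∀ U : Cl H (fun x => x ∈ H ∧ Pel p x),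
      Fintype (Cl (H ⊓ Subgroup.centralizer ({(U.out : A)} : Set A))
        (fun x => x ∈ H ⊓ Subgroup.centralizer ({(U.out : A)} : Set A) ∧ Preg p x)) :=
    fun U => Fintype.ofFinite _
  rw [finsum_eq_sum_of_fintype, finsum_eq_sum_of_fintype]
  simp_rw [finsum_eq_sum_of_fintype]
  have hsig : ∑ q : (Σ U : Cl H (fun x => x ∈ H ∧ Pel p x),
      Cl (H ⊓ Subgroup.centralizer ({(U.out : A)} : Set A))
        (fun x => x ∈ H ⊓ Subgroup.centralizer ({(U.out : A)} : Set A) ∧ Preg p x)),
        f ((q.1.out : A) * (q.2.out : A)) =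
      ∑ U : Cl H (fun x => x ∈ H ∧ Pel p x),
        ∑ S : Cl (H ⊓ Subgroup.centralizer ({(U.out : A)} : Set A))
          (fun x => x ∈ H ⊓ Subgroup.centralizer ({(U.out : A)} : Set A) ∧ Preg p x),
          f ((U.out : A) * (S.out : A)) := Fintype.sum_sigma _
  rw [← hsig]
  symm
  refine Fintype.sum_bijective Φ ⟨hinj, hsurj⟩ _ _ fun q => ?_
  obtain ⟨h, hh, e⟩ := out_conj (H := H) (P := fun x => x ∈ H) (hmem q.1 q.2)
  show f ((q.1.out : A) * (q.2.out : A)) = f ((Φ q).out : A)
  rw [show ((Φ q).out : A) = h * ((q.1.out : A) * (q.2.out : A)) * h⁻¹ from e, hf h hh]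

/-! ### linearity of the two traces -/

section traces

variable {k : Type*} [Field k]

open Classical in
theorem trE_congr [Fintype A] {H : Subgroup A} {z w : A → k} (h : ∀ y ∈ H, z y = w y) :
    trE k H z = trE k H w := by
  unfold trE
  refine finsum_congr fun X => Finset.sum_congr rfl fun y _ => ?_
  split_ifs with hy
  · exact h y hy.1
  · rfl

open Classical in
theorem trL_congr [Fintype A] {H : Subgroup A} {z w : A → k} (h : ∀ y ∈ H, z y = w y) :
    trL k p H z = trL k p H w := by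
  unfold trL
  refine finsum_congr fun X => Finset.sum_congr rfl fun y _ => ?_
  split_ifs with hy
  · exact h y hy.1
  · rfl

open Classical in
theorem trE_lin [Fintype A] (H : Subgroup A) (c : k) (z w : A → k) :
    trE k H (fun y => c * z y + w y) = c * trE k H z + trE k H w := by
  have : Fintype (Cl H (fun x => x ∈ H)) := Fintype.ofFinite _
  unfold trE
  rw [finsum_eq_sum_of_fintype, finsum_eq_sum_of_fintype, finsum_eq_sum_of_fintype,
    Finset.mul_sum, ← Finset.sum_add_distrib]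
  refine Finset.sum_congr rfl fun X _ => ?_
  rw [Finset.mul_sum, ← Finset.sum_add_distrib]
  refine Finset.sum_congr rfl fun y _ => ?_
  split_ifs
  · rfl
  · ring

open Classical in
theorem trL_lin [Fintype A] (H : Subgroup A) (c : k) (z w : A → k) :
    trL k p H (fun y => c * z y + w y) = c * trL k p H z + trL k p H w := by
  have : Fintype (Cl H (fun x => x ∈ H ∧ Preg p x)) := Fintype.ofFinite _
  unfold trL
  rw [finsum_eq_sum_of_fintype, finsum_eq_sum_of_fintype, finsum_eq_sum_of_fintype,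
    Finset.mul_sum, ← Finset.sum_add_distrib]
  refine Finset.sum_congr rfl fun X _ => ?_
  rw [Finset.mul_sum, ← Finset.sum_add_distrib]
  refine Finset.sum_congr rfl fun y _ => ?_
  split_ifs
  · rfl
  · ring

/-- the identity for the element `z` -/
def Ok (p : ℕ) [Fintype A] (H : Subgroup A) (z : MonoidAlgebra k A) : Prop :=
  trE k H (fun y => z.coeff y)
      = ∑ᶠ U : Cl H (fun x => x ∈ H ∧ Pel p x),
          trL k p (H ⊓ Subgroup.centralizer ({(U.out : A)} : Set A)) (fun y => z.coeff y)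

theorem Ok.lin [Fintype A] {H : Subgroup A} {z w : MonoidAlgebra k A} (hz : Ok p H z)
    (hw : Ok p H w) (c : k) : Ok p H (c • z + w) := by
  have : Fintype (Cl H (fun x => x ∈ H ∧ Pel p x)) := Fintype.ofFinite _
  unfold Ok at *
  have e : (fun y => (c • z + w).coeff y) = fun y => c * z.coeff y + w.coeff y := by
    funext y
    simp
  rw [e, trE_lin, hz, hw]
  rw [finsum_eq_sum_of_fintype, finsum_eq_sum_of_fintype, finsum_eq_sum_of_fintype,
    Finset.mul_sum, ← Finset.sum_add_distrib]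
  exact Finset.sum_congr rfl fun U _ => (trL_lin _ c _ _).symm

theorem Ok.zero [Fintype A] {H : Subgroup A} : Ok p H (0 : MonoidAlgebra k A) := by
  have h0 : ∀ K : Subgroup A, trL k p K (fun y => (0 : MonoidAlgebra k A).coeff y) = 0 := by
    intro K
    have h := trL_lin (p := p) K (0 : k) (fun _ => 0) (fun _ => 0)
    unfold trL
    simp
  unfold Ok
  rw [finsum_congr fun U => h0 _, finsum_zero]
  unfold trE
  simp

open Classical in
/-- the identity for idempotents -/
theorem Ok.idem [Fact p.Prime] [CharP k p] [Fintype A] {H : Subgroup A} {e : MonoidAlgebra k A}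
    (he : SuppIn H e) (hinv : InvBy H e) (hee : e * e = e) : Ok p H e := by
  unfold Ok trE
  rw [sum_split (p := p) H (fun x => ∑ y : A, if y ∈ H ∧ ∃ h ∈ H, y * x = h * x * h⁻¹ then
    e.coeff y else 0)]
  · unfold trL
    refine finsum_congr fun U => finsum_congr fun S => ?_
    obtain ⟨h1, h2⟩ := mem_K.1 S.out.2.1
    refine Eq.trans (Finset.sum_congr rfl fun y _ => if_congr ?_ rfl rfl)
      (idem_term (p := p) he hinv hee U.out.2.1 U.out.2.2 h1 S.out.2.2 h2)
    constructor
    · exact fun h => h.2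
    · rintro ⟨h, hh, e1⟩
      refine ⟨?_, h, hh, e1⟩
      have hx : (U.out : A) * (S.out : A) ∈ H := H.mul_mem U.out.2.1 h1
      have e2 : y = h * ((U.out : A) * (S.out : A)) * h⁻¹ * ((U.out : A) * (S.out : A))⁻¹ := by
        rw [← e1]
        group
      rw [e2]
      exact H.mul_mem (H.mul_mem (H.mul_mem hh hx) (H.inv_mem hh)) (H.inv_mem hx)
  · intro g hg x
    rw [← Equiv.sum_comp (cjE g)]
    refine Finset.sum_congr rfl fun y _ => ?_
    show (if g * y * g⁻¹ ∈ H ∧ ∃ h ∈ H, g * y * g⁻¹ * (g * x * g⁻¹) = h * (g * x * g⁻¹) * h⁻¹ then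
      e.coeff (g * y * g⁻¹) else 0) = _
    rw [hinv g hg y]
    refine if_congr (and_congr (mem_conj_iff hg) ?_) rfl rfl
    constructor
    · rintro ⟨h, hh, e1⟩
      refine ⟨g⁻¹ * h * g, H.mul_mem (H.mul_mem (H.inv_mem hg) hh) hg, ?_⟩
      calc y * x = g⁻¹ * (g * y * g⁻¹ * (g * x * g⁻¹)) * g := by group
        _ = g⁻¹ * (h * (g * x * g⁻¹) * h⁻¹) * g := by rw [e1]
        _ = _ := by group
    · rintro ⟨h, hh, e1⟩
      refine ⟨g * h * g⁻¹, H.mul_mem (H.mul_mem hg hh) (H.inv_mem hg), ?_⟩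
      calc g * y * g⁻¹ * (g * x * g⁻¹) = g * (y * x) * g⁻¹ := by group
        _ = g * (h * x * h⁻¹) * g⁻¹ := by rw [e1]
        _ = _ := by group

theorem pow_invBy {M : Subgroup A} {z : MonoidAlgebra k A} (hz : InvBy M z) (n : ℕ) :
    InvBy M (z ^ n) := by
  rw [invBy_iff_commute] at *
  exact fun g hg => (hz g hg).pow_right n

theorem resS_pow [Fact p.Prime] [CharP k p] [Finite A] {D : Subgroup A} (hD : IsPGroup p D)
    {z : MonoidAlgebra k A} (hz : InvBy D z) (n : ℕ) :
    resS (Subgroup.centralizer (D : Set A) : Set A) (z ^ (n + 1)) =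
      resS (Subgroup.centralizer (D : Set A) : Set A) z ^ (n + 1) := by
  induction n with
  | zero => simp
  | succ n ih => rw [pow_succ z, resS_mul hD (pow_invBy hz _) hz, ih, ← pow_succ]

/-- the identity for nilpotent elements -/
theorem Ok.nil [Fact p.Prime] [CharP k p] [Fintype A] {H : Subgroup A} {z : MonoidAlgebra k A}
    (hz : SuppIn H z) (hinv : InvBy H z) (hn : IsNilpotent z) : Ok p H z := by
  unfold Ok
  rw [trE_nilpotent (p := p) hz hinv hn]
  symm
  refine (finsum_congr fun U => ?_).trans finsum_zero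
  set u : A := (U.out : A) with hu
  have huH : u ∈ H := U.out.2.1
  have hup : Pel p u := U.out.2.2
  have hD : IsPGroup p (Subgroup.zpowers u) := by
    obtain ⟨n, hn⟩ := hup
    intro x
    obtain ⟨j, hj⟩ := Subgroup.mem_zpowers_iff.1 x.2
    refine ⟨n, Subtype.ext ?_⟩
    show (x : A) ^ p ^ n = 1
    rw [← hj, ← zpow_natCast, ← zpow_mul, mul_comm, zpow_mul, zpow_natCast, hn, one_zpow]
  have hcen : ∀ x, x ∈ Subgroup.centralizer ((Subgroup.zpowers u : Subgroup A) : Set A) ↔
      Commute u x := by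
    intro x
    rw [Subgroup.mem_centralizer_iff]
    constructor
    · intro h
      exact h u (Subgroup.mem_zpowers u)
    · intro h y hy
      obtain ⟨j, hj⟩ := Subgroup.mem_zpowers_iff.1 hy
      rw [← hj]
      exact (h.zpow_left j).eq
  have hinvD : InvBy (Subgroup.zpowers u) z :=
    hinv.mono ((Subgroup.zpowers_le).2 huH)
  set z' := resS (Subgroup.centralizer ((Subgroup.zpowers u : Subgroup A) : Set A) : Set A) z
    with hz'
  have hc' : ∀ x, Commute u x → z'.coeff x = z.coeff x := fun x hx =>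
    coeff_resS_of_mem z ((hcen x).2 hx)
  have hc'' : ∀ x, ¬ Commute u x → z'.coeff x = 0 := fun x hx =>
    coeff_resS_of_notMem z (fun h => hx ((hcen x).1 h))
  have h1 : SuppIn (H ⊓ Subgroup.centralizer ({u} : Set A)) z' := by
    intro x hx
    by_cases hux : Commute u x
    · exact mem_K.2 ⟨hz x (by rwa [hc' x hux] at hx), hux⟩
    · exact absurd (hc'' x hux) hx
  have h2 : InvBy (H ⊓ Subgroup.centralizer ({u} : Set A)) z' := by
    intro g hg x
    obtain ⟨hgH, hgu⟩ := mem_K.1 hg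
    have hgc : g * u * g⁻¹ = u := by
      rw [← hgu.eq]
      group
    by_cases hux : Commute u x
    · rw [hc' x hux, hc' (g * x * g⁻¹), hinv g hgH]
      have := (commute_conj (g := g)).2 hux
      rwa [hgc] at this
    · rw [hc'' x hux, hc'' (g * x * g⁻¹)]
      intro h
      apply hux
      rw [← commute_conj (g := g), hgc]
      exact h
  have h3 : IsNilpotent z' := by
    obtain ⟨n, hn⟩ := hn
    refine ⟨n + 1, ?_⟩
    rw [← resS_pow hD hinvD, pow_succ, hn, zero_mul, resS_zero]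
  rw [trL_congr (w := fun y => z'.coeff y) fun y hy => (hc' y (mem_K.1 hy).2).symm]
  exact trL_nilpotent h1 h2 h3

/-- in a commutative finite-dimensional algebra -/
theorem prim_decomp {Z : Type*} [IsAlgClosed k] [CommRing Z] [Algebra k Z]
    [FiniteDimensional k Z] {b : Z} (hb : PrimIdem b) (z : Z) :
    ∃ (c : k) (w : Z), IsNilpotent w ∧ z * b = c • b + w := by
  obtain ⟨l, hl⟩ := hb.exists_char (k := k)
  have hA : IsArtinianRing Z := IsArtinianRing.of_finite k Z
  refine ⟨l z, (z - algebraMap k Z (l z)) * b, ?_, ?_⟩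
  · rcases hb.nilp_or_unit (z - algebraMap k Z (l z)) with h | ⟨w, hw⟩
    · exact h
    · exfalso
      have h2 := congrArg l hw
      rw [map_mul, map_mul, map_sub, AlgHom.commutes, hl] at h2
      simp at h2
  · rw [Algebra.smul_def]
    ring

end traces

end R2cAux

open R2cAux

open Classical in
/-- For every `H`-invariant function `z` on `H`: the trace on the class functions of `H` is the sum over
representatives `u` of the classes of p-elements of `H` of the traces on the class functions of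
`C_H(u)` constant on p-sections. (Central elements are linear combinations of block idempotents
plus a nilpotent central element; restriction to `C_H(u)` is an algebra homomorphism on the
centre.) -/
theorem trE_eq_sum {k : Type*} [Field k] [IsAlgClosed k] [Fact p.Prime] [CharP k p] [Fintype A]
    {H : Subgroup A} {z : MonoidAlgebra k A} (hz : SuppIn H z) (hinv : InvBy H z) :
    trE k H (fun y => z.coeff y)
      = ∑ᶠ U : Cl H (fun x => x ∈ H ∧ Pel p x),
          trL k p (H ⊓ Subgroup.centralizer ({(U.out : A)} : Set A)) (fun y => z.coeff y) := by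
  have hmem : z ∈ fixAlg k H H := mem_fixAlg.2 ⟨hz, hinv⟩
  have hfin := finite_isBlock (k := k) H
  set B : Finset (MonoidAlgebra k A) := hfin.toFinset with hB
  have hBm : ∀ b, b ∈ B ↔ IsBlock H b ∧ b * 1 ≠ 0 := by
    intro b
    rw [hB, Set.Finite.mem_toFinset, mul_one]
    exact ⟨fun h => ⟨h, h.ne_zero⟩, fun h => h.1⟩
  have hsum := WSumAux.sum_blocks (p := p) (H := H) (c := (1 : MonoidAlgebra k A))
    (Subalgebra.one_mem _) (one_mul 1) B hBm
  have hze : z = ∑ b ∈ B, z * b := by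
    rw [← Finset.mul_sum, hsum, mul_one]
  have hok : ∀ b ∈ B, Ok p H (z * b) := by
    intro b hb
    have hbb := ((hBm b).1 hb).1
    obtain ⟨c, w, hw, e⟩ := prim_decomp (k := k) hbb.primIdem (⟨z, hmem⟩ : fixAlg k H H)
    have e' : z * b = c • b + (w : MonoidAlgebra k A) := congrArg Subtype.val e
    rw [e']
    obtain ⟨hw1, hw2⟩ := mem_fixAlg.1 w.2
    refine Ok.lin (Ok.idem hbb.suppIn hbb.invBy hbb.idem) (Ok.nil hw1 hw2 ?_) c
    obtain ⟨n, hn⟩ := hw
    exact ⟨n, congrArg Subtype.val hn⟩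
  have key : ∀ T : Finset (MonoidAlgebra k A), T ⊆ B → Ok p H (∑ b ∈ T, z * b) := by
    intro T
    induction T using Finset.induction_on with
    | empty =>
      intro _
      rw [Finset.sum_empty]
      exact Ok.zero
    | insert b T hb ih =>
      intro hT
      rw [Finset.sum_insert hb]
      have h1 := Ok.lin (hok b (hT (Finset.mem_insert_self b T)))
        (ih fun x hx => hT (Finset.mem_insert_of_mem hx)) (1 : k)
      rwa [one_smul] at h1
  have h := key B (Finset.Subset.refl B)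
  rw [← hze] at h
  exact h

open Classical in
/-- `nE(H) = sum over the p-elements u of H of nL(C_H(u))` modulo `p |H|`. -/
theorem nE_nL [Fact p.Prime] [Finite A] (H : Subgroup A) {m : A → ℤ}
    (hm : ∀ h ∈ H, ∀ x, m (h * x * h⁻¹) = m x) :
    (p : ℤ) * (Nat.card H : ℤ) ∣ nE H m
      - ∑ᶠ u : A, (if u ∈ H ∧ Pel p u then
          nL p (H ⊓ Subgroup.centralizer ({u} : Set A)) m else 0) := by
  have : Fintype A := Fintype.ofFinite A
  have : Fintype (Cl H (fun x => x ∈ H ∧ Pel p x)) := Fintype.ofFinite _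
  let k := AlgebraicClosure (ZMod p)
  have hch : CharP k p := inferInstance
  obtain ⟨t, ht, ht'⟩ := nE_trE (k := k) H hm
  have hmK : ∀ u : A, ∀ h ∈ H ⊓ Subgroup.centralizer ({u} : Set A), ∀ x,
      m (h * x * h⁻¹) = m x := fun u h hh => hm h (Subgroup.mem_inf.1 hh).1
  choose s hs hs' using fun u : A => nL_trL (k := k) (p := p) _ (hmK u)
  have hcard : ∀ u : A, (Nat.card ↥(H ⊓ Subgroup.centralizer ({u} : Set A)) : ℤ) ≠ 0 := by
    intro u
    exact_mod_cast Nat.card_pos.ne'
  have hsinv : ∀ h ∈ H, ∀ x, s (h * x * h⁻¹) = s x := by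
    intro h hh x
    have h1 := nL_conj (p := p) hm (u := x) hh
    rw [hs, hs x, card_K_conj hh] at h1
    exact mul_left_cancel₀ (hcard x) h1
  have hsum := sum_clsR H (P := fun x => x ∈ H ∧ Pel p x)
    (fun h hh x hx => ⟨(mem_conj_iff hh).2 hx.1, pel_conj.2 hx.2⟩) s hsinv
  have e1 : ∑ᶠ u : A, (if u ∈ H ∧ Pel p u then
      nL p (H ⊓ Subgroup.centralizer ({u} : Set A)) m else 0) =
      (Nat.card H : ℤ) * ∑ U : Cl H (fun x => x ∈ H ∧ Pel p x), s (U.out : A) := by
    rw [← hsum, finsum_eq_sum_of_fintype]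
    refine Finset.sum_congr rfl fun u _ => ?_
    split_ifs
    · exact hs u
    · rfl
  rw [e1, ht, ← mul_sub, mul_comm (p : ℤ)]
  refine mul_dvd_mul_left _ ?_
  rw [← CharP.intCast_eq_zero_iff k p]
  push_cast
  rw [ht', sub_eq_zero]
  set z : MonoidAlgebra k A := MonoidAlgebra.ofCoeff
    (Finsupp.equivFunOnFinite.symm fun y => if y ∈ H then (m y : k) else 0) with hz
  have hzc : ∀ y, z.coeff y = if y ∈ H then (m y : k) else 0 := by
    intro y
    rw [hz, coeff_ofCoeff]
    rfl
  have hz1 : SuppIn H z := by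
    intro x hx
    by_contra h
    exact hx (by rw [hzc, if_neg h])
  have hz2 : InvBy H z := by
    intro g hg x
    rw [hzc, hzc, hm g hg x]
    exact if_congr (mem_conj_iff hg) rfl rfl
  have h := trE_eq_sum (p := p) hz1 hz2
  rw [trE_congr (w := fun y => (m y : k)) fun y hy => by rw [hzc, if_pos hy]] at h
  rw [h, finsum_eq_sum_of_fintype, Int.cast_sum]
  refine Finset.sum_congr rfl fun U _ => ?_
  rw [hs']
  exact trL_congr fun y hy => by rw [hzc, if_pos (Subgroup.mem_inf.1 hy).1]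

end Pool.Agent.Lib.P0c8ca5
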