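import Mathlib
import Pool.Agent.Lib.P0c8ca5V.ChOrb
import Pool.Agent.Lib.P0c8ca5V.Tog
import Pool.Agent.Lib.P0c8ca5V.R2c

/-! `eE = eL` modulo `p |A|`. -/

namespace Pool.Agent.Lib.P0c8ca5

variable {p : ℕ} {A : Type*} [Group A]

namespace CAAux

theorem mem_cg_iff (g : A) (U : Subgroup A) (x : A) : g * x * g⁻¹ ∈ cg g U ↔ x ∈ U := by
  rw [mem_cg]
  have : g⁻¹ * (g * x * g⁻¹) * g = x := by group
  rw [this]

theorem pel_conj (g x : A) : Pel p (g * x * g⁻¹) ↔ Pel p x := by
  unfold Pel
  constructor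
  · rintro ⟨n, hn⟩
    refine ⟨n, ?_⟩
    rw [conj_pow] at hn
    have h1 : g⁻¹ * (g * x ^ p ^ n * g⁻¹) * g = x ^ p ^ n := by group
    rw [hn] at h1
    rw [← h1]
    group
  · rintro ⟨n, hn⟩
    exact ⟨n, by rw [conj_pow, hn]; group⟩

theorem cg_infc (g u : A) (U : Subgroup A) :
    cg g (U ⊓ Subgroup.centralizer ({u} : Set A))
      = cg g U ⊓ Subgroup.centralizer ({g * u * g⁻¹} : Set A) := by
  ext x
  rw [mem_cg, Subgroup.mem_inf, Subgroup.mem_inf, mem_cg, Subgroup.mem_centralizer_singleton_iff,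
    Subgroup.mem_centralizer_singleton_iff]
  refine and_congr Iff.rfl ?_
  constructor
  · intro h
    have h1 : x * (g * u * g⁻¹) = g * ((g⁻¹ * x * g) * u) * g⁻¹ := by group
    have h2 : g * u * g⁻¹ * x = g * (u * (g⁻¹ * x * g)) * g⁻¹ := by group
    rw [h1, h2, h]
  · intro h
    have h1 : g⁻¹ * x * g * u = g⁻¹ * (x * (g * u * g⁻¹)) * g := by group
    have h2 : u * (g⁻¹ * x * g) = g⁻¹ * ((g * u * g⁻¹) * x) * g := by group
    rw [h1, h2, h]

open Classical in
/-- the sum of `nL` over the p-elements -/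
noncomputable def sL (p : ℕ) (m : A → ℤ) (U : Subgroup A) : ℤ :=
  ∑ᶠ u : A, (if u ∈ U ∧ Pel p u then
    nL p (U ⊓ Subgroup.centralizer ({u} : Set A)) m else 0)

theorem sL_conj {m : A → ℤ} (hm : ∀ g x, m (g * x * g⁻¹) = m x) (g : A) (U : Subgroup A) :
    sL p m (cg g U) = sL p m U := by
  classical
  unfold sL
  rw [← finsum_comp_equiv (MulAut.conj g).toEquiv]
  refine finsum_congr fun u => ?_
  have h1 : (MulAut.conj g).toEquiv u = g * u * g⁻¹ := rfl
  rw [h1]
  have h2 : (g * u * g⁻¹ ∈ cg g U ∧ Pel p (g * u * g⁻¹)) ↔ (u ∈ U ∧ Pel p u) := by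
    rw [mem_cg_iff, pel_conj]
  by_cases h : u ∈ U ∧ Pel p u
  · rw [if_pos h, if_pos (h2.2 h), ← cg_infc, nL_conj _ _ (hm g)]
  · rw [if_neg h, if_neg (fun h' => h (h2.1 h'))]

theorem cent_le (u : A) : Subgroup.centralizer ({u} : Set A) ≤
    Subgroup.normalizer ((Subgroup.zpowers u : Subgroup A) : Set A) := by
  intro g hg
  rw [Subgroup.mem_centralizer_singleton_iff] at hg
  have hc : Commute g u := hg
  rw [Subgroup.mem_normalizer_iff]
  intro x
  constructor
  · intro hx
    obtain ⟨n, rfl⟩ := Subgroup.mem_zpowers_iff.1 hx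
    have h1 : g * u ^ n * g⁻¹ = u ^ n := by
      rw [(hc.zpow_right n).eq]
      group
    rw [h1]
    exact hx
  · intro hx
    obtain ⟨n, hn⟩ := Subgroup.mem_zpowers_iff.1 hx
    have h1 : x = u ^ n := by
      have h2 : x = g⁻¹ * (g * x * g⁻¹) * g := by group
      rw [h2, ← hn, mul_assoc, ← (hc.zpow_right n).eq]
      group
    rw [h1]
    exact Subgroup.zpow_mem_zpowers u n

theorem isP_zpowers [Fact p.Prime] {u : A} (h : Pel p u) : IsPGroup p (Subgroup.zpowers u) := by
  obtain ⟨n, hn⟩ := h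
  intro x
  obtain ⟨k, hk⟩ := Subgroup.mem_zpowers_iff.1 x.2
  refine ⟨n, ?_⟩
  apply Subtype.ext
  rw [Subgroup.coe_pow, Subgroup.coe_one, ← hk, ← zpow_natCast, ← zpow_mul, mul_comm, zpow_mul,
    zpow_natCast, hn, one_zpow]

end CAAux

open CAAux

/-- The alternating sums of `nE` and of `nL` over the chains agree modulo `p |A|`.
Proof: `nE_nL` for all `sN σ` (with `chS_dvd`), interchange the sums; for a fixed p-element
`u ≠ 1` the sum over the chains normalized by `u` vanishes by `toggle` with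
`R = zpowers u`, `L = centralizer {u}`. -/
theorem eE_eL [Fact p.Prime] [Finite A] {m : A → ℤ} (hm : IsWt p ⊤ m) :
    (p : ℤ) * (Nat.card A : ℤ) ∣ eE p m - eL p m := by
  classical
  have := Fintype.ofFinite A
  have hc : ∀ g x, m (g * x * g⁻¹) = m x := fun g x => hm.conj g (Subgroup.mem_top g) x
  have h1 : (p : ℤ) * (Nat.card A : ℤ) ∣ chS p (fun U => nE U m - sL p m U) := by
    refine chS_dvd _ (fun g U => ?_) (p : ℤ) (fun σ _ => ?_)
    · rw [nE_conj _ _ (hc g), sL_conj hc]
    · exact nE_nL (sN σ) (fun h _ x => hc h x)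
  have h2 : chS p (fun U => nE U m - sL p m U) = eE p m - chS p (fun U => sL p m U) := by
    unfold eE chS
    rw [← finsum_sub_distrib (Set.toFinite _) (Set.toFinite _)]
    refine finsum_congr fun σ => ?_
    by_cases h : IsCh p σ
    · rw [if_pos h, if_pos h, if_pos h]
      ring
    · rw [if_neg h, if_neg h, if_neg h, sub_zero]
  have h3 : chS p (fun U => sL p m U) = eL p m := by
    have h4 : chS p (fun U => sL p m U) = ∑ᶠ u : A, ∑ᶠ σ : Finset (Subgroup A),
        (if Pel p u then (if IsCh p σ ∧ u ∈ sN σ then (-1) ^ σ.card *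
          nL p (Subgroup.centralizer ({u} : Set A) ⊓ sN σ) m else 0) else 0) := by
      unfold chS sL
      rw [finsum_eq_sum_of_fintype, finsum_eq_sum_of_fintype]
      have h5 : ∀ σ : Finset (Subgroup A), (if IsCh p σ then (-1 : ℤ) ^ σ.card *
          (∑ᶠ u : A, (if u ∈ sN σ ∧ Pel p u then
            nL p (sN σ ⊓ Subgroup.centralizer ({u} : Set A)) m else 0)) else 0)
          = ∑ u : A, (if Pel p u then (if IsCh p σ ∧ u ∈ sN σ then (-1) ^ σ.card *
          nL p (Subgroup.centralizer ({u} : Set A) ⊓ sN σ) m else 0) else 0) := by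
        intro σ
        by_cases h : IsCh p σ
        · rw [if_pos h, finsum_eq_sum_of_fintype, Finset.mul_sum]
          refine Finset.sum_congr rfl fun u _ => ?_
          by_cases hu : u ∈ sN σ
          · by_cases hp : Pel p u
            · rw [if_pos ⟨hu, hp⟩, if_pos hp, if_pos ⟨h, hu⟩, inf_comm]
            · rw [if_neg (fun h' => hp h'.2), if_neg hp, mul_zero]
          · rw [if_neg (fun h' => hu h'.1), mul_zero]
            split_ifs with h6 h7
            · exact absurd h7.2 hu
            · rfl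
            · rfl
        · rw [if_neg h]
          symm
          refine Finset.sum_eq_zero fun u _ => ?_
          split_ifs with h6 h7
          · exact absurd h7.1 h
          · rfl
          · rfl
      rw [Finset.sum_congr rfl fun σ _ => h5 σ, Finset.sum_comm]
      refine Finset.sum_congr rfl fun u _ => ?_
      rw [finsum_eq_sum_of_fintype]
    rw [h4, finsum_eq_single _ (1 : A)]
    · unfold eL chS
      refine finsum_congr fun σ => ?_
      have hp1 : Pel p (1 : A) := ⟨0, one_pow _⟩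
      rw [if_pos hp1]
      have h6 : Subgroup.centralizer ({(1 : A)} : Set A) ⊓ sN σ = sN σ := by
        rw [inf_eq_right]
        intro x _
        rw [Subgroup.mem_centralizer_singleton_iff, mul_one, one_mul]
      by_cases h : IsCh p σ
      · rw [if_pos ⟨h, Subgroup.one_mem _⟩, if_pos h, h6]
      · rw [if_neg (fun h' => h h'.1), if_neg h]
    · intro u hu
      by_cases hp : Pel p u
      · refine Eq.trans ?_ (toggle (Subgroup.zpowers u) (Subgroup.centralizer ({u} : Set A))
          (isP_zpowers hp) (fun h => hu (Subgroup.zpowers_eq_bot.1 h)) (cent_le u)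
          (fun V => nL p V m))
        refine finsum_congr fun σ => ?_
        rw [if_pos hp]
        have h7 : (IsCh p σ ∧ u ∈ sN σ) ↔ (IsCh p σ ∧ Subgroup.zpowers u ≤ sN σ) := by
          rw [Subgroup.zpowers_le]
        by_cases h : IsCh p σ ∧ u ∈ sN σ
        · rw [if_pos h, if_pos (h7.1 h)]
        · rw [if_neg h, if_neg (fun h' => h (h7.2 h'))]
      · simp only [if_neg hp, finsum_zero]
  rw [← h3, ← h2]
  exact h1

end Pool.Agent.Lib.P0c8ca5
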