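import Mathlib
import Pool.Agent.Lib.P0c8ca5V.TFin

/-! The blockwise weight conjecture modulo p as a congruence between `nL` and `wS`. -/

namespace Pool.Agent.Lib.P0c8ca5

open MonoidAlgebra

universe u v

/-- BAW modulo p for all blocks of `G`, in terms of the counts. -/
theorem baw_iff_wS {p : ℕ} [Fact p.Prime] {k : Type v} [Field k] [IsAlgClosed k] [CharP k p]
    (G : Type u) [Group G] [Finite G] :
    (∀ b : MonoidAlgebra k G, IsBlock (⊤ : Subgroup G) b →
      ∃ t : ℤ, gap p (⊤ : Subgroup G) ⊤ b = (p : ℚ) * t) ↔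
    ∀ m : G → ℤ, IsWt p ⊤ m →
      (p : ℤ) * (Nat.card G : ℤ) ∣ nL p (⊤ : Subgroup G) m - wS p m := by
  have := Fintype.ofFinite G
  exact R1

end Pool.Agent.Lib.P0c8ca5
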