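import Mathlib
import Pool.Agent.Lib.P0c8ca5V.RA
import Pool.Agent.Lib.P0c8ca5V.CA
import Pool.Agent.Lib.P0c8ca5V.CB
import Pool.Agent.Lib.P0c8ca5V.CC
import Pool.Agent.Lib.P0c8ca5V.DC
import Pool.Agent.Lib.P0c8ca5V.Rot

/-! One group at a time: BAW modulo p for the blocks of a given group. -/

namespace Pool.Agent.Lib.P0c8ca5

open MonoidAlgebra

universe u v

namespace LocAux

/-- half of `eA_iff_bB` for one group -/
theorem eA_of_bB {p : ℕ} [Fact p.Prime] (G : Type u) [Group G] [Finite G] {m : G → ℤ}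
    (hm : IsWt p ⊤ m)
    (h : ∀ U : Subgroup G, NoP p U →
      (p : ℤ) * (ordProj[p] (Nat.card U) : ℕ) ∣ bB p U m) :
    (p : ℤ) * (Nat.card G : ℤ) ∣ eA p m - eE p m := by
  have h1 : (p : ℤ) * (ordProj[p] (Nat.card G) : ℕ) ∣ eA p m - eE p m := by
    rw [eA_sub_eE, DCAux.sum_FH]
    refine sub_dvd_p _ (fun g U => DCAux.FH_cg hm g U) _ (fun K => ?_)
    refine sum_H hm (fun U _ hU2 => ?_)
    exact h U hU2
  have h2 : (Nat.card G : ℤ) ∣ eA p m - eE p m := dvd_sub (eA_dvd hm) (eE_dvd hm)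
  have h3 : ((ordCompl[p] (Nat.card G) : ℕ) : ℤ) ∣ eA p m - eE p m :=
    dvd_trans (by exact_mod_cast Nat.ordCompl_dvd (Nat.card G) p) h2
  have h4 : IsCoprime ((p : ℤ) * (ordProj[p] (Nat.card G) : ℕ))
      ((ordCompl[p] (Nat.card G) : ℕ) : ℤ) := by
    have h5 : Nat.Coprime (p * ordProj[p] (Nat.card G)) (ordCompl[p] (Nat.card G)) := by
      have h6 := Nat.coprime_ordCompl (Fact.out : p.Prime) (Nat.card_pos (α := G)).ne'
      rw [Nat.coprime_mul_iff_left]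
      exact ⟨h6, h6.pow_left _⟩
    have := h5.isCoprime
    exact_mod_cast this
  have h7 := h4.mul_dvd h1 h3
  have h8 : (p : ℤ) * (ordProj[p] (Nat.card G) : ℕ) * ((ordCompl[p] (Nat.card G) : ℕ) : ℤ)
      = (p : ℤ) * (Nat.card G : ℤ) := by
    rw [mul_assoc]
    congr 1
    exact_mod_cast Nat.ordProj_mul_ordCompl_eq_self (Nat.card G) p
  rwa [h8] at h7

theorem eL_of_eA {p : ℕ} [Fact p.Prime] (G : Type u) [Group G] [Finite G] {m : G → ℤ}
    (hm : IsWt p ⊤ m) (e3 : (p : ℤ) * (Nat.card G : ℤ) ∣ eA p m - eE p m) :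
    (p : ℤ) * (Nat.card G : ℤ) ∣ eL p m - nA p (⊤ : Subgroup G) m := by
  have e1 := eE_eL (p := p) hm
  have e2 := nA_eA (p := p) hm
  have e4 : eL p m - nA p (⊤ : Subgroup G) m
      = -((nA p (⊤ : Subgroup G) m - eA p m) + (eE p m - eL p m)
        + (eA p m - eE p m)) := by ring
  rw [e4, dvd_neg]
  exact dvd_add (dvd_add e2 e1) e3

theorem wS_of_eL {p : ℕ} [Fact p.Prime] (G : Type u) [Group G] [Finite G] {m : G → ℤ}
    (hm : IsWt p ⊤ m)
    (h : ∀ Q : Subgroup G, IsPGroup p Q → (p : ℤ) * (Nat.card (NQ Q) : ℤ) ∣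
      eL p (mb Q m) - nA p (⊤ : Subgroup (NQ Q)) (mb Q m)) :
    (p : ℤ) * (Nat.card G : ℤ) ∣ nL p (⊤ : Subgroup G) m - wS p m := by
  rw [CCAux.diff_eq hm]
  refine sub_dvd (CCAux.FF p m) (fun g U => CCAux.FF_cg hm g U) (p : ℤ) fun U => ?_
  exact CCAux.FF_dvd U (h U)

/-- the orders of the elements of `N(Q)/Q` -/
theorem no_order {p : ℕ} [Fact p.Prime] {G : Type u} [Group G] [Finite G] {s : ℕ}
    (hno : ∀ x : G, orderOf x ≠ p ^ s) {Q : Subgroup G} (hQ : IsPGroup p Q) (y : NQ Q) :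
    orderOf y ≠ p ^ s := by
  intro hy
  obtain ⟨x, rfl⟩ := QuotientGroup.mk_surjective y
  have h1 : (QuotientGroup.mk x : NQ Q) ^ p ^ s = 1 := by rw [← hy]; exact pow_orderOf_eq_one _
  rw [← QuotientGroup.mk_pow, QuotientGroup.eq_one_iff, Subgroup.mem_subgroupOf] at h1
  obtain ⟨n, hn⟩ := hQ ⟨_, h1⟩
  have h2 : (x : G) ^ p ^ (s + n) = 1 := by
    have h3 := congrArg Subtype.val hn
    rw [pow_add, pow_mul]
    simpa using h3
  obtain ⟨j, hj, hj'⟩ := (Nat.dvd_prime_pow (Fact.out : p.Prime)).1 (orderOf_dvd_of_pow_eq_one h2)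
  have h3 : s ≤ j := by
    by_contra h4
    have h5 : (QuotientGroup.mk x : NQ Q) ^ p ^ j = 1 := by
      rw [← QuotientGroup.mk_pow, QuotientGroup.eq_one_iff, Subgroup.mem_subgroupOf]
      have h6 : (x : G) ^ p ^ j = 1 := by rw [← hj']; exact pow_orderOf_eq_one _
      have h7 : ((x ^ p ^ j : ↥(Subgroup.normalizer (Q : Set G))) : G) = 1 := by
        push_cast
        exact h6
      rw [h7]
      exact Q.one_mem
    have h6 := orderOf_dvd_of_pow_eq_one h5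
    rw [hy] at h6
    have h7 := (Nat.pow_dvd_pow_iff_le_right (Fact.out : p.Prime).one_lt).1 h6
    omega
  refine hno ((x : G) ^ p ^ (j - s)) ?_
  rw [orderOf_pow' _ (pow_ne_zero _ (Fact.out : p.Prime).ne_zero), hj',
    Nat.gcd_eq_right (pow_dvd_pow p (Nat.sub_le j s))]
  rw [Nat.pow_div (Nat.sub_le j s) (Fact.out : p.Prime).pos]
  congr 1
  omega

end LocAux

open LocAux

/-- BAW modulo p for the blocks of one group -/
theorem gap_of_bB {p : ℕ} [Fact p.Prime] {k : Type v} [Field k] [IsAlgClosed k] [CharP k p]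
    (G : Type u) [Group G] [Finite G]
    (h : ∀ Q : Subgroup G, IsPGroup p Q → ∀ U : Subgroup (NQ Q), NoP p (⊤ : Subgroup ↥U) →
      ∀ m : ↥U → ℤ, IsWt p ⊤ m →
      (p : ℤ) * (ordProj[p] (Nat.card U) : ℕ) ∣ bB p (⊤ : Subgroup ↥U) m)
    (b : MonoidAlgebra k G) (hb : IsBlock (⊤ : Subgroup G) b) :
    ∃ t : ℤ, gap p (⊤ : Subgroup G) ⊤ b = (p : ℚ) * t := by
  refine (baw_iff_wS (k := k) G).2 (fun m hm => ?_) b hb
  refine wS_of_eL G hm fun Q hQ => ?_
  have h1 : IsWt p (⊤ : Subgroup (NQ Q)) (mb Q m) := mb_isWt Q hm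
  refine eL_of_eA (NQ Q) h1 (eA_of_bB (NQ Q) h1 fun U hU => ?_)
  rw [← bB_dn]
  exact h Q hQ U ((NoP_dn U).2 hU) _ (IsWt_dn U h1)

/-- A rotation of order `p ^ r` and no elements of order `p ^ (r + 1)`: BAW modulo `p` for all
blocks. -/
theorem rot_gap {p : ℕ} [Fact p.Prime] {k : Type v} [Field k] [IsAlgClosed k] [CharP k p] {r : ℕ}
    (E : ∀ (X : Type u) [Group X], X × X × X → X × X × X)
    (hE : ∀ (X : Type u) [Group X], IsRot (p ^ r) (E X))
    (G : Type u) [Group G] [Finite G] (hno : ∀ x : G, orderOf x ≠ p ^ (r + 1))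
    (b : MonoidAlgebra k G) (hb : IsBlock (⊤ : Subgroup G) b) :
    ∃ t : ℤ, gap p (⊤ : Subgroup G) ⊤ b = (p : ℚ) * t := by
  refine gap_of_bB G (fun Q hQ U hU m hm => ?_) b hb
  refine rot_dvd (hE ↥U) hU (fun x => ?_) hm
  have h1 := no_order hno hQ (x : NQ Q)
  rwa [Subgroup.orderOf_coe] at h1

end Pool.Agent.Lib.P0c8ca5
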