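import Mathlib
import Pool.Agent.Lib.P0c8ca5V.Defs

/-! From class functions to single conjugacy classes, and to numbers of triples. -/

namespace Pool.Agent.Lib.P0c8ca5

variable {p : ℕ} {G : Type*} [Group G]

namespace ClsFAux

open Classical in
/-- the triples counted by `bB` -/
def Good (p : ℕ) (t : G × G × G) : Prop :=
  (Pel p (cmt t.1 t.2.1 * t.2.2) ∧ cmt t.1 t.2.1 * t.2.2 ≠ 1) ∧
    Opr p (⊤ : Subgroup G) ≤ gen t

open Classical in
theorem bB_eq [Fintype G] (m : G → ℤ) :
    bB p (⊤ : Subgroup G) m = ∑ t : G × G × G, if Good p t then m t.2.2 else 0 := by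
  unfold bB
  rw [finsum_eq_sum_of_fintype]
  refine Finset.sum_congr rfl (fun t _ => ?_)
  unfold dW Good
  by_cases h1 : Opr p (⊤ : Subgroup G) ≤ gen t
  · by_cases h2 : Pel p (cmt t.1 t.2.1 * t.2.2) ∧ cmt t.1 t.2.1 * t.2.2 ≠ 1
    · rw [if_pos ⟨le_top, h1⟩, if_pos h2, if_pos ⟨h2, h1⟩]
    · rw [if_pos ⟨le_top, h1⟩, if_neg h2, if_neg (fun h => h2 h.1)]
  · rw [if_neg (fun h => h1 h.2), if_neg (fun h => h1 h.2)]

open Classical in
/-- the characteristic function of a class -/
noncomputable def ind (x c : G) : ℤ := if IsConj x c then 1 else 0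

theorem ind_pos {x c : G} (h : IsConj x c) : ind x c = 1 := if_pos h

theorem ind_neg {x c : G} (h : ¬ IsConj x c) : ind x c = 0 := if_neg h

theorem opr_le_iff (K : Subgroup G) :
    Opr p (⊤ : Subgroup G) ≤ K ↔ ∀ y : G, Preg p y → y ∈ K := by
  unfold Opr
  rw [Subgroup.closure_le]
  constructor
  · intro h y hy
    exact h ⟨Subgroup.mem_top y, hy⟩
  · rintro h y ⟨_, hy⟩
    exact h y hy

end ClsFAux

open ClsFAux

open Classical in
/-- The number of the triples for the conjugacy class of `x` is `bB` of the characteristic function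
of the class. -/
theorem bB_class [Finite G] (x : G) :
    ((Nat.card {t : G × G × G // IsConj x t.2.2 ∧
        Pel p (cmt t.1 t.2.1 * t.2.2) ∧ cmt t.1 t.2.1 * t.2.2 ≠ 1 ∧
        ∀ y : G, Preg p y → y ∈ Subgroup.closure ({t.1, t.2.1, t.2.2} : Set G)} : ℕ) : ℤ)
      = bB p (⊤ : Subgroup G) (fun c => if IsConj x c then 1 else 0) := by
  have : Fintype G := Fintype.ofFinite G
  rw [bB_eq, Nat.card_eq_fintype_card, Fintype.card_subtype, Finset.card_filter]
  push_cast
  refine Finset.sum_congr rfl (fun t _ => ?_)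
  by_cases h : Good p t
  · rw [if_pos h]
    by_cases h2 : IsConj x t.2.2
    · rw [if_pos h2, if_pos ⟨h2, h.1.1, h.1.2, (opr_le_iff _).1 h.2⟩]
    · rw [if_neg h2, if_neg (fun h3 => h2 h3.1)]
  · rw [if_neg h, if_neg]
    rintro ⟨_, h2, h3, h4⟩
    exact h ⟨⟨h2, h3⟩, (opr_le_iff _).2 h4⟩

open Classical in
theorem bB_iff_class [Finite G] (q : ℤ) :
    (∀ m : G → ℤ, IsWt p ⊤ m → q ∣ bB p (⊤ : Subgroup G) m) ↔
    ∀ x : G, Preg p x → q ∣ bB p (⊤ : Subgroup G) (fun c => if IsConj x c then 1 else 0) := by
  have : Fintype G := Fintype.ofFinite G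
  constructor
  · intro h x hx
    refine h _ ⟨fun g _ y => ?_, fun y hy => ?_⟩
    · have h1 : IsConj y (g * y * g⁻¹) := isConj_iff.2 ⟨g, rfl⟩
      by_cases h2 : IsConj x y
      · rw [if_pos h2, if_pos (h2.trans h1)]
      · rw [if_neg h2, if_neg (fun h3 => h2 (h3.trans h1.symm))]
    · by_cases h2 : IsConj x y
      · intro hd
        obtain ⟨c, hc⟩ := isConj_iff.1 h2
        apply hx
        rw [← hc] at hd
        have e1 : orderOf (c * x * c⁻¹) = orderOf x := by
          have := orderOf_injective (MulAut.conj c).toMonoidHom (MulAut.conj c).injective x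
          rw [← this]
          rfl
        rwa [e1] at hd
      · exact absurd (if_neg h2) hy
  · intro h m hm
    have key : bB p (⊤ : Subgroup G) m
        = ∑ X : ConjClasses G, m (Quotient.out X) *
            bB p (⊤ : Subgroup G) (ind (Quotient.out X)) := by
      simp only [bB_eq, Finset.mul_sum]
      rw [Finset.sum_comm]
      refine Finset.sum_congr rfl (fun t _ => ?_)
      by_cases hg : Good p t
      · simp only [if_pos hg]
        rw [Finset.sum_eq_single (ConjClasses.mk t.2.2)]
        · have h1 : IsConj (Quotient.out (ConjClasses.mk t.2.2)) t.2.2 :=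
            ConjClasses.mk_eq_mk_iff_isConj.1 (Quotient.out_eq _)
          rw [ind_pos h1, mul_one]
          obtain ⟨c, hc⟩ := isConj_iff.1 h1
          have h2 := hm.conj c (Subgroup.mem_top c) (Quotient.out (ConjClasses.mk t.2.2))
          rw [hc] at h2
          exact h2
        · intro X _ hX
          rw [ind_neg, mul_zero]
          intro h1
          apply hX
          have h2 := ConjClasses.mk_eq_mk_iff_isConj.2 h1
          rw [← h2]
          exact (Quotient.out_eq X).symm
        · intro h1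
          exact absurd (Finset.mem_univ _) h1
      · simp only [if_neg hg, mul_zero, Finset.sum_const_zero]
    rw [key]
    refine Finset.dvd_sum (fun X _ => ?_)
    by_cases h0 : m (Quotient.out X) = 0
    · rw [h0, zero_mul]
      exact dvd_zero q
    · exact Dvd.dvd.mul_left (h _ (hm.reg _ h0)) _

end Pool.Agent.Lib.P0c8ca5
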