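import Mathlib
import Pool.Agent.Lib.P0c8ca5V.RA
import Pool.Agent.Lib.P0c8ca5V.CA
import Pool.Agent.Lib.P0c8ca5V.CB
import Pool.Agent.Lib.P0c8ca5V.CC
import Pool.Agent.Lib.P0c8ca5V.DC
import Pool.Agent.Lib.P0c8ca5V.ClsF

/-! Main equivalence: BAW modulo p for all blocks and the divisibility of the numbers of triples. -/

namespace Pool.Agent.Lib.P0c8ca5

open MonoidAlgebra

universe u v

/-- chain sums for all groups -/
theorem baw_iff_chains {p : ℕ} [Fact p.Prime] {k : Type v} [Field k] [IsAlgClosed k] [CharP k p] :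
    (∀ (G : Type u) [Group G] [Finite G] (b : MonoidAlgebra k G), IsBlock (⊤ : Subgroup G) b →
      ∃ t : ℤ, gap p (⊤ : Subgroup G) ⊤ b = (p : ℚ) * t) ↔
    (∀ (G : Type u) [Group G] [Finite G] (m : G → ℤ), IsWt p ⊤ m →
      (p : ℤ) * (Nat.card G : ℤ) ∣ ∑ᶠ t : G × G × G, dW p m t * fK p (gen t)) := by
  have h1 : (∀ (G : Type u) [Group G] [Finite G] (b : MonoidAlgebra k G),
      IsBlock (⊤ : Subgroup G) b → ∃ t : ℤ, gap p (⊤ : Subgroup G) ⊤ b = (p : ℚ) * t) ↔
      (∀ (G : Type u) [Group G] [Finite G] (m : G → ℤ), IsWt p ⊤ m →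
      (p : ℤ) * (Nat.card G : ℤ) ∣ nL p (⊤ : Subgroup G) m - wS p m) := by
    constructor
    · intro h G _ _
      exact (baw_iff_wS (k := k) G).1 (h G)
    · intro h G _ _
      exact (baw_iff_wS (k := k) G).2 (h G)
  rw [h1, wS_iff_eL]
  constructor
  · intro h G _ _ m hm
    rw [← eA_sub_eE]
    have e1 := eE_eL (p := p) hm
    have e2 := nA_eA (p := p) hm
    have e3 := h G m hm
    have e4 : eA p m - eE p m
        = -((nA p (⊤ : Subgroup G) m - eA p m) + (eE p m - eL p m)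
          + (eL p m - nA p (⊤ : Subgroup G) m)) := by ring
    rw [e4, dvd_neg]
    exact dvd_add (dvd_add e2 e1) e3
  · intro h G _ _ m hm
    have e1 := eE_eL (p := p) hm
    have e2 := nA_eA (p := p) hm
    have e3 := h G m hm
    rw [← eA_sub_eE] at e3
    have e4 : eL p m - nA p (⊤ : Subgroup G) m
        = -((nA p (⊤ : Subgroup G) m - eA p m) + (eE p m - eL p m)
          + (eA p m - eE p m)) := by ring
    rw [e4, dvd_neg]
    exact dvd_add (dvd_add e2 e1) e3

/-- triples generating a subgroup containing all p-regular elements -/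
theorem baw_iff_triples {p : ℕ} [Fact p.Prime] {k : Type v} [Field k] [IsAlgClosed k]
    [CharP k p] :
    (∀ (G : Type u) [Group G] [Finite G] (b : MonoidAlgebra k G), IsBlock (⊤ : Subgroup G) b →
      ∃ t : ℤ, gap p (⊤ : Subgroup G) ⊤ b = (p : ℚ) * t) ↔
    (∀ (G : Type u) [Group G] [Finite G], NoP p (⊤ : Subgroup G) → ∀ x : G, Preg p x →
      p * ordProj[p] (Nat.card G) ∣ Nat.card {t : G × G × G // IsConj x t.2.2 ∧
        Pel p (cmt t.1 t.2.1 * t.2.2) ∧ cmt t.1 t.2.1 * t.2.2 ≠ 1 ∧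
        ∀ y : G, Preg p y → y ∈ Subgroup.closure ({t.1, t.2.1, t.2.2} : Set G)}) := by
  rw [baw_iff_chains]
  have h1 : (∀ (G : Type u) [Group G] [Finite G] (m : G → ℤ), IsWt p ⊤ m →
      (p : ℤ) * (Nat.card G : ℤ) ∣ ∑ᶠ t : G × G × G, dW p m t * fK p (gen t)) ↔
      (∀ (G : Type u) [Group G] [Finite G] (m : G → ℤ), IsWt p ⊤ m →
      (p : ℤ) * (Nat.card G : ℤ) ∣ eA p m - eE p m) := by
    constructor
    · intro h G _ _ m hm
      rw [eA_sub_eE]
      exact h G m hm
    · intro h G _ _ m hm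
      rw [← eA_sub_eE]
      exact h G m hm
  rw [h1, eA_iff_bB]
  constructor
  · intro h G _ _ hG x hx
    have h2 := (bB_iff_class ((p : ℤ) * (ordProj[p] (Nat.card G) : ℕ))).1
      (fun m hm => h G m hm hG) x hx
    rw [← bB_class] at h2
    exact_mod_cast h2
  · intro h G _ _ m hm hG
    refine (bB_iff_class ((p : ℤ) * (ordProj[p] (Nat.card G) : ℕ))).2 (fun x hx => ?_) m hm
    rw [← bB_class]
    exact_mod_cast h G hG x hx

end Pool.Agent.Lib.P0c8ca5
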