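import Mathlib
import Pool.Agent.Lib.P0c8ca5V.Rot

/-! The rotations of order 4 and 3 of the torus with two punctures. -/

namespace Pool.Agent.Lib.P0c8ca5

variable {A : Type*} [Group A]

/-- the rotation of order 4 -/
def E4 (t : A × A × A) : A × A × A :=
  (uu t * t.2.1, t.1⁻¹, (t.2.1 * t.1⁻¹ * t.2.1⁻¹) * t.2.2 * (t.2.1 * t.1⁻¹ * t.2.1⁻¹)⁻¹)

/-- the rotation of order 3 -/
def E3 (t : A × A × A) : A × A × A :=
  (uu t * t.2.1 * t.1⁻¹, t.1⁻¹,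
    (t.2.1 * t.1⁻¹ * t.2.1⁻¹) * t.2.2 * (t.2.1 * t.1⁻¹ * t.2.1⁻¹)⁻¹)

namespace RotXAux

theorem E4_uu (t : A × A × A) : uu (E4 t) = uu t := by
  simp only [uu, E4, cmt]
  group

theorem E3_uu (t : A × A × A) : uu (E3 t) = uu t := by
  simp only [uu, E3, cmt]
  group

theorem ext3 {s t : A × A × A} (h1 : s.1 = t.1) (h2 : s.2.1 = t.2.1) (h3 : uu s = uu t) :
    s = t := by
  have h4 : s.2.2 = t.2.2 := by
    unfold uu at h3
    rw [h1, h2] at h3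
    exact mul_left_cancel h3
  exact Prod.ext h1 (Prod.ext h2 h4)

theorem uu_cj3 (g : A) (t : A × A × A) : uu (cj3 g t) = g * uu t * g⁻¹ := by
  simp only [uu, cj3, cmt]
  group

theorem E4_pow (t : A × A × A) : E4^[4] t = cj3 (uu t) t := by
  have h0 : E4^[4] t = E4 (E4 (E4 (E4 t))) := rfl
  rw [h0]
  refine ext3 ?_ ?_ ?_
  · show uu (E4 (E4 (E4 t))) * (E4 (E4 (E4 t))).2.1 = uu t * t.1 * (uu t)⁻¹
    rw [E4_uu, E4_uu, E4_uu]
    show uu t * (E4 (E4 t)).1⁻¹ = _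
    show uu t * (uu (E4 t) * (E4 t).2.1)⁻¹ = _
    rw [E4_uu]
    show uu t * (uu t * t.1⁻¹)⁻¹ = _
    group
  · show (E4 (E4 (E4 t))).1⁻¹ = uu t * t.2.1 * (uu t)⁻¹
    show (uu (E4 (E4 t)) * (E4 (E4 t)).2.1)⁻¹ = _
    rw [E4_uu, E4_uu]
    show (uu t * (E4 t).1⁻¹)⁻¹ = _
    show (uu t * (uu t * t.2.1)⁻¹)⁻¹ = _
    group
  · rw [E4_uu, E4_uu, E4_uu, E4_uu, uu_cj3]
    group

theorem E3_pow (t : A × A × A) : E3^[3] t = cj3 (uu t) t := by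
  have h0 : E3^[3] t = E3 (E3 (E3 t)) := rfl
  rw [h0]
  refine ext3 ?_ ?_ ?_
  · show uu (E3 (E3 t)) * (E3 (E3 t)).2.1 * (E3 (E3 t)).1⁻¹ = uu t * t.1 * (uu t)⁻¹
    rw [E3_uu, E3_uu]
    show uu t * (E3 t).1⁻¹ * (uu (E3 t) * (E3 t).2.1 * (E3 t).1⁻¹)⁻¹ = _
    rw [E3_uu]
    show uu t * (uu t * t.2.1 * t.1⁻¹)⁻¹ * (uu t * t.1⁻¹ * (uu t * t.2.1 * t.1⁻¹)⁻¹)⁻¹ = _
    group
  · show (E3 (E3 t)).1⁻¹ = uu t * t.2.1 * (uu t)⁻¹
    show (uu (E3 t) * (E3 t).2.1 * (E3 t).1⁻¹)⁻¹ = _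
    rw [E3_uu]
    show (uu t * t.1⁻¹ * (uu t * t.2.1 * t.1⁻¹)⁻¹)⁻¹ = _
    group
  · rw [E3_uu, E3_uu, E3_uu, uu_cj3]
    group

theorem mem1 (t : A × A × A) : t.1 ∈ gen t := Subgroup.subset_closure (by simp)

theorem mem2 (t : A × A × A) : t.2.1 ∈ gen t := Subgroup.subset_closure (by simp)

theorem mem3 (t : A × A × A) : t.2.2 ∈ gen t := Subgroup.subset_closure (by simp)

theorem memu (t : A × A × A) : uu t ∈ gen t :=
  mul_mem (mul_mem (mul_mem (mul_mem (mem1 t) (mem2 t)) (inv_mem (mem1 t))) (inv_mem (mem2 t)))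
    (mem3 t)

theorem gen_le_of {s t : A × A × A} (h1 : s.1 ∈ gen t) (h2 : s.2.1 ∈ gen t)
    (h3 : s.2.2 ∈ gen t) : gen s ≤ gen t := by
  unfold gen at *
  rw [Subgroup.closure_le]
  rintro x (rfl | rfl | rfl)
  · exact h1
  · exact h2
  · exact h3

theorem E4_le (t : A × A × A) : gen (E4 t) ≤ gen t :=
  gen_le_of (mul_mem (memu t) (mem2 t)) (inv_mem (mem1 t))
    (mul_mem (mul_mem (mul_mem (mul_mem (mem2 t) (inv_mem (mem1 t))) (inv_mem (mem2 t)))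
      (mem3 t)) (inv_mem (mul_mem (mul_mem (mem2 t) (inv_mem (mem1 t))) (inv_mem (mem2 t)))))

theorem E3_le (t : A × A × A) : gen (E3 t) ≤ gen t :=
  gen_le_of (mul_mem (mul_mem (memu t) (mem2 t)) (inv_mem (mem1 t))) (inv_mem (mem1 t))
    (mul_mem (mul_mem (mul_mem (mul_mem (mem2 t) (inv_mem (mem1 t))) (inv_mem (mem2 t)))
      (mem3 t)) (inv_mem (mul_mem (mul_mem (mem2 t) (inv_mem (mem1 t))) (inv_mem (mem2 t)))))

theorem le_cj3 (t : A × A × A) : gen t ≤ gen (cj3 (uu t) t) := by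
  have h1 := mem1 (cj3 (uu t) t)
  have h2 := mem2 (cj3 (uu t) t)
  have h3 := mem3 (cj3 (uu t) t)
  have h4 := memu (cj3 (uu t) t)
  rw [uu_cj3] at h4
  have h5 : uu t ∈ gen (cj3 (uu t) t) := by
    have e1 : uu t * uu t * (uu t)⁻¹ = uu t := by group
    rw [e1] at h4
    exact h4
  have key : ∀ x : A, uu t * x * (uu t)⁻¹ ∈ gen (cj3 (uu t) t) → x ∈ gen (cj3 (uu t) t) := by
    intro x hx
    have e1 : x = (uu t)⁻¹ * (uu t * x * (uu t)⁻¹) * uu t := by group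
    rw [e1]
    exact mul_mem (mul_mem (inv_mem h5) hx) h5
  exact gen_le_of (key _ h1) (key _ h2) (key _ h3)

end RotXAux

open RotXAux

theorem E4_isRot : IsRot (A := A) 4 E4 where
  u := E4_uu
  c := fun t => ⟨t.2.1 * t.1⁻¹ * t.2.1⁻¹, rfl⟩
  gn := fun t => by
    refine le_antisymm (E4_le t) ?_
    have h1 : gen (E4^[4] t) ≤ gen (E4 t) :=
      (E4_le _).trans ((E4_le _).trans (E4_le _))
    rw [E4_pow] at h1
    exact (le_cj3 t).trans h1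
  cj := fun g t => by
    simp only [E4, cj3, uu, cmt]
    refine Prod.ext ?_ (Prod.ext ?_ ?_) <;> simp only <;> group
  pow := E4_pow

theorem E3_isRot : IsRot (A := A) 3 E3 where
  u := E3_uu
  c := fun t => ⟨t.2.1 * t.1⁻¹ * t.2.1⁻¹, rfl⟩
  gn := fun t => by
    refine le_antisymm (E3_le t) ?_
    have h1 : gen (E3^[3] t) ≤ gen (E3 t) := (E3_le _).trans (E3_le _)
    rw [E3_pow] at h1
    exact (le_cj3 t).trans h1
  cj := fun g t => by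
    simp only [E3, cj3, uu, cmt]
    refine Prod.ext ?_ (Prod.ext ?_ ?_) <;> simp only <;> group
  pow := E3_pow

/-- `p = 2`, no elements of order 8 -/
theorem rot_two [Finite A] (hO : NoP 2 (⊤ : Subgroup A)) (hno : ∀ x : A, orderOf x ≠ 8)
    {m : A → ℤ} (hm : IsWt 2 ⊤ m) :
    (2 : ℤ) * (ordProj[2] (Nat.card A) : ℕ) ∣ bB 2 (⊤ : Subgroup A) m := by
  have : Fact (Nat.Prime 2) := ⟨Nat.prime_two⟩
  have h := rot_dvd (p := 2) (r := 2) (E := E4) (A := A) (by norm_num; exact E4_isRot) hO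
    (by norm_num; exact hno) hm
  exact_mod_cast h

/-- `p = 3`, no elements of order 9 -/
theorem rot_three [Finite A] (hO : NoP 3 (⊤ : Subgroup A)) (hno : ∀ x : A, orderOf x ≠ 9)
    {m : A → ℤ} (hm : IsWt 3 ⊤ m) :
    (3 : ℤ) * (ordProj[3] (Nat.card A) : ℕ) ∣ bB 3 (⊤ : Subgroup A) m := by
  have : Fact (Nat.Prime 3) := ⟨Nat.prime_three⟩
  have h := rot_dvd (p := 3) (r := 1) (E := E3) (A := A) (by norm_num; exact E3_isRot) hO
    (by norm_num; exact hno) hm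
  exact_mod_cast h

end Pool.Agent.Lib.P0c8ca5
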