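import Mathlib
import Pool.Agent.Lib.P0c8ca5V.Par
import Pool.Agent.Lib.P0c8ca5V.RotX

/-! The fixed triples of the two rotations. -/

namespace Pool.Agent.Lib.P0c8ca5

variable {A : Type*} [Group A]

/-- the triples fixed by `E4` up to conjugation by `x` -/
def T4 (x z : A) : A × A × A := (x * x * z, x⁻¹ * z * x⁻¹, x⁻¹ * (z * x) ^ 4 * x)

/-- the triples fixed by `E3` up to conjugation by `x` -/
def T3 (x z : A) : A × A × A :=
  (z⁻¹ * x, x⁻¹ * x⁻¹ * z * x, x⁻¹ * x⁻¹ * (z * x) ^ 3 * (x * x))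

namespace ParXAux

theorem c_of_uu {s t : A × A × A} (h1 : s.1 = t.1) (h2 : s.2.1 = t.2.1) (h : uu s = uu t) :
    s = t := by
  obtain ⟨a, b, c⟩ := s
  obtain ⟨a', b', c'⟩ := t
  simp only at h1 h2
  subst h1
  subst h2
  unfold uu at h
  have h3 : c = c' := mul_left_cancel h
  rw [h3]

theorem uu_T4 (x z : A) (hz : z ^ 2 = 1) : uu (T4 x z) = x ^ 4 := by
  have hz1 : z * z = 1 := by rw [← pow_two, hz]
  have hz2 : ∀ w, z * (z * w) = w := fun w => by rw [← mul_assoc, hz1, one_mul]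
  have hi : z⁻¹ = z := inv_eq_of_mul_eq_one_left hz1
  simp only [uu, cmt, T4, mul_inv_rev, inv_inv, hi, pow_succ, pow_zero, one_mul, mul_assoc,
    mul_inv_cancel_left, inv_mul_cancel_left, hz2, mul_inv_cancel, inv_mul_cancel, mul_one, hz1]

theorem uu_T3 (x z : A) (hz : z ^ 3 = 1) : uu (T3 x z) = x ^ 3 := by
  have hz1 : z * (z * z) = 1 := by rw [← hz, pow_succ, pow_two, mul_assoc]
  have hi : z⁻¹ = z * z := inv_eq_of_mul_eq_one_left (by rw [mul_assoc]; exact hz1)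
  have hz2 : ∀ w, z * (z * (z * w)) = w := fun w => by
    have h : z * (z * (z * w)) = (z * (z * z)) * w := by simp only [mul_assoc]
    rw [h, hz1, one_mul]
  simp only [uu, cmt, T3, mul_inv_rev, inv_inv, hi, pow_succ, pow_zero, one_mul, mul_assoc,
    mul_inv_cancel_left, inv_mul_cancel_left, hz2, mul_inv_cancel, inv_mul_cancel, mul_one, hz1]

theorem fix_T4 (x z : A) (hz : z ^ 2 = 1) : E4 (T4 x z) = cj3 x (T4 x z) := by
  have h0 := uu_T4 x z hz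
  have hz1 : z * z = 1 := by rw [← pow_two, hz]
  have hz2 : ∀ w, z * (z * w) = w := fun w => by rw [← mul_assoc, hz1, one_mul]
  have hi : z⁻¹ = z := inv_eq_of_mul_eq_one_left hz1
  refine Prod.ext ?_ (Prod.ext ?_ ?_)
  · change uu (T4 x z) * (T4 x z).2.1 = x * (T4 x z).1 * x⁻¹
    rw [h0]
    simp only [T4, mul_inv_rev, inv_inv, hi, pow_succ, pow_zero, one_mul, mul_assoc,
      mul_inv_cancel_left, inv_mul_cancel_left, hz2, mul_inv_cancel, inv_mul_cancel, mul_one, hz1]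
  · change (T4 x z).1⁻¹ = x * (T4 x z).2.1 * x⁻¹
    simp only [T4, mul_inv_rev, inv_inv, hi, pow_succ, pow_zero, one_mul, mul_assoc,
      mul_inv_cancel_left, inv_mul_cancel_left, hz2, mul_inv_cancel, inv_mul_cancel, mul_one, hz1]
  · change (T4 x z).2.1 * (T4 x z).1⁻¹ * (T4 x z).2.1⁻¹ * (T4 x z).2.2 *
      ((T4 x z).2.1 * (T4 x z).1⁻¹ * (T4 x z).2.1⁻¹)⁻¹ = x * (T4 x z).2.2 * x⁻¹
    simp only [T4, mul_inv_rev, inv_inv, hi, pow_succ, pow_zero, one_mul, mul_assoc,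
      mul_inv_cancel_left, inv_mul_cancel_left, hz2, mul_inv_cancel, inv_mul_cancel, mul_one, hz1]

theorem fix_T3 (x z : A) (hz : z ^ 3 = 1) : E3 (T3 x z) = cj3 x (T3 x z) := by
  have h0 := uu_T3 x z hz
  have hz1 : z * (z * z) = 1 := by rw [← hz, pow_succ, pow_two, mul_assoc]
  have hi : z⁻¹ = z * z := inv_eq_of_mul_eq_one_left (by rw [mul_assoc]; exact hz1)
  have hz2 : ∀ w, z * (z * (z * w)) = w := fun w => by
    have h : z * (z * (z * w)) = (z * (z * z)) * w := by simp only [mul_assoc]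
    rw [h, hz1, one_mul]
  refine Prod.ext ?_ (Prod.ext ?_ ?_)
  · change uu (T3 x z) * (T3 x z).2.1 * (T3 x z).1⁻¹ = x * (T3 x z).1 * x⁻¹
    rw [h0]
    simp only [T3, mul_inv_rev, inv_inv, hi, pow_succ, pow_zero, one_mul, mul_assoc,
      mul_inv_cancel_left, inv_mul_cancel_left, hz2, mul_inv_cancel, inv_mul_cancel, mul_one, hz1]
  · change (T3 x z).1⁻¹ = x * (T3 x z).2.1 * x⁻¹
    simp only [T3, mul_inv_rev, inv_inv, hi, pow_succ, pow_zero, one_mul, mul_assoc,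
      mul_inv_cancel_left, inv_mul_cancel_left, hz2, mul_inv_cancel, inv_mul_cancel, mul_one, hz1]
  · change (T3 x z).2.1 * (T3 x z).1⁻¹ * (T3 x z).2.1⁻¹ * (T3 x z).2.2 *
      ((T3 x z).2.1 * (T3 x z).1⁻¹ * (T3 x z).2.1⁻¹)⁻¹ = x * (T3 x z).2.2 * x⁻¹
    simp only [T3, mul_inv_rev, inv_inv, hi, pow_succ, pow_zero, one_mul, mul_assoc,
      mul_inv_cancel_left, inv_mul_cancel_left, hz2, mul_inv_cancel, inv_mul_cancel, mul_one, hz1]

end ParXAux

open ParXAux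

theorem T4_isPar : IsPar (A := A) 4 2 E4 T4 where
  fix := fix_T4
  u := uu_T4
  surj := fun x t h hu => by
    have h1 : uu t * t.2.1 = x * t.1 * x⁻¹ := congrArg Prod.fst h
    have h2 : t.1⁻¹ = x * t.2.1 * x⁻¹ := congrArg (fun s : A × A × A => s.2.1) h
    have h3 : t.2.1 = x⁻¹ * t.1⁻¹ * x := by rw [h2]; group
    have h4 : (x⁻¹ * x⁻¹ * t.1) ^ 2 = 1 := by
      rw [hu, h3] at h1
      have h5 : x ^ 4 = x * t.1 * x⁻¹ * (x⁻¹ * t.1 * x) := by
        rw [← h1]; group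
      have h6 : (x⁻¹ * x⁻¹ * t.1) ^ 2 = x⁻¹ * x⁻¹ * (x⁻¹ * (x * t.1 * x⁻¹ * (x⁻¹ * t.1 * x)) * x⁻¹) := by
        rw [pow_two]; group
      rw [h6, ← h5]
      group
    refine ⟨x⁻¹ * x⁻¹ * t.1, h4, c_of_uu ?_ ?_ ?_⟩
    · change t.1 = x * x * (x⁻¹ * x⁻¹ * t.1)
      group
    · change t.2.1 = x⁻¹ * (x⁻¹ * x⁻¹ * t.1) * x⁻¹
      have h5 : x⁻¹ * x⁻¹ * t.1 = (x⁻¹ * x⁻¹ * t.1)⁻¹ := by
        rw [eq_inv_iff_mul_eq_one, ← pow_two, h4]
      rw [h3, h5]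
      group
    · rw [hu, uu_T4 _ _ h4]
  inj := fun x z z' h => by
    have h1 : x * x * z = x * x * z' := congrArg Prod.fst h
    exact mul_left_cancel h1
  cc := fun x z _ => ⟨x⁻¹ * x⁻¹, by
    change x⁻¹ * (z * x) ^ 4 * x = x⁻¹ * x⁻¹ * (x * z) ^ 4 * (x⁻¹ * x⁻¹)⁻¹
    simp only [pow_succ, pow_zero, one_mul, mul_inv_rev, inv_inv, mul_assoc,
      mul_inv_cancel_left, inv_mul_cancel_left]⟩
  le := fun x z => by
    have hx : x ∈ Subgroup.closure ({x, z} : Set A) := Subgroup.subset_closure (by simp)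
    have hz : z ∈ Subgroup.closure ({x, z} : Set A) := Subgroup.subset_closure (by simp)
    unfold gen
    rw [Subgroup.closure_le]
    rintro y (rfl | rfl | rfl)
    · exact mul_mem (mul_mem hx hx) hz
    · exact mul_mem (mul_mem (inv_mem hx) hz) (inv_mem hx)
    · exact mul_mem (mul_mem (inv_mem hx) (pow_mem (mul_mem hz hx) 4)) hx
  zz := fun x z => ⟨2, by
    have h1 : x ^ (2 : ℤ) * z = x * x * z := by rw [zpow_two]
    rw [h1]
    exact Subgroup.subset_closure (Or.inl rfl)⟩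

theorem T3_isPar : IsPar (A := A) 3 3 E3 T3 where
  fix := fix_T3
  u := uu_T3
  surj := fun x t h hu => by
    have h1 : uu t * t.2.1 * t.1⁻¹ = x * t.1 * x⁻¹ := congrArg Prod.fst h
    have h2 : t.1⁻¹ = x * t.2.1 * x⁻¹ := congrArg (fun s : A × A × A => s.2.1) h
    have h3 : t.2.1 = x⁻¹ * t.1⁻¹ * x := by rw [h2]; group
    have h4 : (t.1 * x⁻¹) ^ 3 = 1 := by
      rw [hu, h3] at h1
      have h5 : x ^ 3 = x * t.1 * x⁻¹ * t.1 * (x⁻¹ * t.1 * x) := by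
        have h6 : x ^ 3 = (x ^ 3 * (x⁻¹ * t.1⁻¹ * x) * t.1⁻¹) * t.1 * (x⁻¹ * t.1 * x) := by group
        rw [h6, h1]
      have h6 : (t.1 * x⁻¹) ^ 3 = x⁻¹ * (x * t.1 * x⁻¹ * t.1 * (x⁻¹ * t.1 * x)) * x⁻¹ * x⁻¹ := by
        simp only [pow_succ, pow_zero]; group
      rw [h6, ← h5]
      group
    have h5 : ((t.1 * x⁻¹)⁻¹) ^ 3 = 1 := by rw [inv_pow, h4, inv_one]
    refine ⟨(t.1 * x⁻¹)⁻¹, h5, c_of_uu ?_ ?_ ?_⟩
    · change t.1 = ((t.1 * x⁻¹)⁻¹)⁻¹ * x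
      group
    · change t.2.1 = x⁻¹ * x⁻¹ * (t.1 * x⁻¹)⁻¹ * x
      rw [h3]
      group
    · rw [hu, uu_T3 _ _ h5]
  inj := fun x z z' h => by
    have h1 : z⁻¹ * x = z'⁻¹ * x := congrArg Prod.fst h
    exact inv_injective (mul_right_cancel h1)
  cc := fun x z _ => ⟨x⁻¹ * x⁻¹ * x⁻¹, by
    change x⁻¹ * x⁻¹ * (z * x) ^ 3 * (x * x) =
      x⁻¹ * x⁻¹ * x⁻¹ * (x * z) ^ 3 * (x⁻¹ * x⁻¹ * x⁻¹)⁻¹
    simp only [pow_succ, pow_zero, one_mul, mul_inv_rev, inv_inv, mul_assoc,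
      mul_inv_cancel_left, inv_mul_cancel_left]⟩
  le := fun x z => by
    have hx : x ∈ Subgroup.closure ({x, z} : Set A) := Subgroup.subset_closure (by simp)
    have hz : z ∈ Subgroup.closure ({x, z} : Set A) := Subgroup.subset_closure (by simp)
    unfold gen
    rw [Subgroup.closure_le]
    rintro y (rfl | rfl | rfl)
    · exact mul_mem (inv_mem hz) hx
    · exact mul_mem (mul_mem (mul_mem (inv_mem hx) (inv_mem hx)) hz) hx
    · exact mul_mem (mul_mem (mul_mem (inv_mem hx) (inv_mem hx)) (pow_mem (mul_mem hz hx) 3))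
        (mul_mem hx hx)
  zz := fun x z => ⟨-1, by
    have h1 : x ^ (-1 : ℤ) * z = (z⁻¹ * x)⁻¹ := by group
    rw [h1]
    exact inv_mem (Subgroup.subset_closure (Or.inl rfl))⟩

end Pool.Agent.Lib.P0c8ca5
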