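import Mathlib
import Pool.Agent.Lib.P0c8ca5V.Main
import Pool.Agent.Lib.P0c8ca5V.ParX

/-! BAW modulo p for all blocks and numbers of pairs, for p = 2 and p = 3. -/

namespace Pool.Agent.Lib.P0c8ca5

open MonoidAlgebra

universe u v

namespace MainPAux

/-- the characteristic functions of the classes are weights -/
theorem isWt_class {p : ℕ} {G : Type*} [Group G] {x : G} (hx : Preg p x) {m : G → ℤ}
    (hm1 : ∀ c, IsConj x c → m c = 1) (hm2 : ∀ c, ¬ IsConj x c → m c = 0) :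
    IsWt p (⊤ : Subgroup G) m := by
  refine ⟨fun g _ y => ?_, fun y hy => ?_⟩
  · have h1 : IsConj y (g * y * g⁻¹) := isConj_iff.2 ⟨g, rfl⟩
    by_cases h2 : IsConj x y
    · rw [hm1 _ h2, hm1 _ (h2.trans h1)]
    · rw [hm2 _ h2, hm2 _ (fun h3 => h2 (h3.trans h1.symm))]
  · by_cases h2 : IsConj x y
    · intro hd
      obtain ⟨c, hc⟩ := isConj_iff.1 h2
      apply hx
      rw [← hc] at hd
      have e1 : orderOf (c * x * c⁻¹) = orderOf x := by
        have := orderOf_injective (MulAut.conj c).toMonoidHom (MulAut.conj c).injective x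
        rw [← this]
        rfl
      rwa [e1] at hd
    · exact absurd (hm2 _ h2) hy

open Classical in
theorem pB_class {G : Type*} [Group G] [Finite G] (p q s : ℕ) (x : G) :
    ((Nat.card {y : G × G // Pel p y.1 ∧ y.1 ^ q ≠ 1 ∧ y.2 ^ s = 1 ∧
        IsConj x ((y.1 * y.2) ^ q) ∧
        ∀ w : G, Preg p w → w ∈ Subgroup.closure ({y.1, y.2} : Set G)} : ℕ) : ℤ)
      = pB p q s (fun c => if IsConj x c then 1 else 0) := by
  have : Fintype G := Fintype.ofFinite G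
  unfold pB
  rw [finsum_eq_sum_of_fintype, Nat.card_eq_fintype_card, Fintype.card_subtype,
    Finset.card_filter]
  push_cast
  refine Finset.sum_congr rfl (fun y _ => ?_)
  by_cases h : Pel p y.1 ∧ y.1 ^ q ≠ 1 ∧ y.2 ^ s = 1 ∧
    Opr p (⊤ : Subgroup G) ≤ Subgroup.closure {y.1, y.2}
  · rw [if_pos h]
    by_cases h2 : IsConj x ((y.1 * y.2) ^ q)
    · rw [if_pos h2, if_pos ⟨h.1, h.2.1, h.2.2.1, h2, (ClsFAux.opr_le_iff _).1 h.2.2.2⟩]
    · rw [if_neg h2, if_neg (fun h3 => h2 h3.2.2.2.1)]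
  · rw [if_neg h, if_neg]
    rintro ⟨h1, h2, h3, _, h5⟩
    exact h ⟨h1, h2, h3, (ClsFAux.opr_le_iff _).2 h5⟩

/-- one group: the numbers of triples and of pairs -/
theorem triples_iff_pairs {p : ℕ} [Fact p.Prime] {r s : ℕ} {G : Type*} [Group G] [Finite G]
    {E : G × G × G → G × G × G} {T : G → G → G × G × G}
    (hE : IsRot (p ^ r) E) (hT : IsPar (p ^ r) s E T) (hG : NoP p (⊤ : Subgroup G)) (x : G)
    (hx : Preg p x) :
    p * ordProj[p] (Nat.card G) ∣ Nat.card {t : G × G × G // IsConj x t.2.2 ∧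
        Pel p (cmt t.1 t.2.1 * t.2.2) ∧ cmt t.1 t.2.1 * t.2.2 ≠ 1 ∧
        ∀ y : G, Preg p y → y ∈ Subgroup.closure ({t.1, t.2.1, t.2.2} : Set G)} ↔
    p * ordProj[p] (Nat.card G) ∣ Nat.card {y : G × G // Pel p y.1 ∧ y.1 ^ p ^ r ≠ 1 ∧
        y.2 ^ s = 1 ∧ IsConj x ((y.1 * y.2) ^ p ^ r) ∧
        ∀ w : G, Preg p w → w ∈ Subgroup.closure ({y.1, y.2} : Set G)} := by
  classical
  have h1 := bB_congr_pB hE hT hG (isWt_class hx
    (m := fun c => if IsConj x c then 1 else 0) (fun c hc => if_pos hc) (fun c hc => if_neg hc))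
  have h2 := bB_class (p := p) x
  have h3 := pB_class p (p ^ r) s x
  rw [← h2, ← h3] at h1
  rw [← Int.natCast_dvd_natCast, ← Int.natCast_dvd_natCast]
  push_cast at h1 ⊢
  exact (dvd_iff_dvd_of_dvd_sub h1)

theorem baw_iff_pairs_gen {p : ℕ} [Fact p.Prime] {k : Type v} [Field k] [IsAlgClosed k]
    [CharP k p] {r s : ℕ} (E : ∀ (X : Type u) [Group X], X × X × X → X × X × X)
    (T : ∀ (X : Type u) [Group X], X → X → X × X × X)
    (hE : ∀ (X : Type u) [Group X], IsRot (p ^ r) (E X))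
    (hT : ∀ (X : Type u) [Group X], IsPar (p ^ r) s (E X) (T X)) :
    (∀ (G : Type u) [Group G] [Finite G] (b : MonoidAlgebra k G), IsBlock (⊤ : Subgroup G) b →
      ∃ t : ℤ, gap p (⊤ : Subgroup G) ⊤ b = (p : ℚ) * t) ↔
    (∀ (G : Type u) [Group G] [Finite G], NoP p (⊤ : Subgroup G) → ∀ x : G, Preg p x →
      p * ordProj[p] (Nat.card G) ∣ Nat.card {y : G × G // Pel p y.1 ∧ y.1 ^ p ^ r ≠ 1 ∧
        y.2 ^ s = 1 ∧ IsConj x ((y.1 * y.2) ^ p ^ r) ∧
        ∀ w : G, Preg p w → w ∈ Subgroup.closure ({y.1, y.2} : Set G)}) := by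
  rw [baw_iff_triples]
  constructor
  · intro h G _ _ hG x hx
    exact (triples_iff_pairs (hE G) (hT G) hG x hx).1 (h G hG x hx)
  · intro h G _ _ hG x hx
    exact (triples_iff_pairs (hE G) (hT G) hG x hx).2 (h G hG x hx)

end MainPAux

open MainPAux

/-- p = 2 -/
theorem baw_iff_pairs_two {k : Type v} [Field k] [IsAlgClosed k] [CharP k 2] :
    (∀ (G : Type u) [Group G] [Finite G] (b : MonoidAlgebra k G), IsBlock (⊤ : Subgroup G) b →
      ∃ t : ℤ, gap 2 (⊤ : Subgroup G) ⊤ b = (2 : ℚ) * t) ↔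
    (∀ (G : Type u) [Group G] [Finite G], NoP 2 (⊤ : Subgroup G) → ∀ x : G, Preg 2 x →
      2 * ordProj[2] (Nat.card G) ∣ Nat.card {y : G × G // Pel 2 y.1 ∧ y.1 ^ 4 ≠ 1 ∧
        y.2 ^ 2 = 1 ∧ IsConj x ((y.1 * y.2) ^ 4) ∧
        ∀ w : G, Preg 2 w → w ∈ Subgroup.closure ({y.1, y.2} : Set G)}) := by
  have : Fact (Nat.Prime 2) := ⟨Nat.prime_two⟩
  exact baw_iff_pairs_gen (p := 2) (r := 2) (s := 2) (fun _ _ => E4) (fun _ _ => T4)
    (fun _ _ => E4_isRot) (fun _ _ => T4_isPar)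

/-- p = 3 -/
theorem baw_iff_pairs_three {k : Type v} [Field k] [IsAlgClosed k] [CharP k 3] :
    (∀ (G : Type u) [Group G] [Finite G] (b : MonoidAlgebra k G), IsBlock (⊤ : Subgroup G) b →
      ∃ t : ℤ, gap 3 (⊤ : Subgroup G) ⊤ b = (3 : ℚ) * t) ↔
    (∀ (G : Type u) [Group G] [Finite G], NoP 3 (⊤ : Subgroup G) → ∀ x : G, Preg 3 x →
      3 * ordProj[3] (Nat.card G) ∣ Nat.card {y : G × G // Pel 3 y.1 ∧ y.1 ^ 3 ≠ 1 ∧
        y.2 ^ 3 = 1 ∧ IsConj x ((y.1 * y.2) ^ 3) ∧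
        ∀ w : G, Preg 3 w → w ∈ Subgroup.closure ({y.1, y.2} : Set G)}) := by
  have : Fact (Nat.Prime 3) := ⟨Nat.prime_three⟩
  exact baw_iff_pairs_gen (p := 3) (r := 1) (s := 3) (fun _ _ => E3) (fun _ _ => T3)
    (fun _ _ => E3_isRot) (fun _ _ => T3_isPar)

end Pool.Agent.Lib.P0c8ca5
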