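import Mathlib
import Pool.Agent.Lib.P0c8ca5V.MainP
import Pool.Agent.Lib.P0c8ca5V.GalF
import Pool.Agent.Lib.P0c8ca5V.Loc

/-! BAW modulo p and numbers of triples and pairs with p-rational first element. -/

namespace Pool.Agent.Lib.P0c8ca5

open MonoidAlgebra

universe u v

namespace MainRAux

open MainPAux

section
variable {p : ℕ} {G : Type*} [Group G] [Finite G]

open Classical in
theorem bR_class (p : ℕ) (x : G) :
    ((Nat.card {t : G × G × G // IsConj x t.2.2 ∧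
        Pel p (cmt t.1 t.2.1 * t.2.2) ∧ cmt t.1 t.2.1 * t.2.2 ≠ 1 ∧
        PRat p (cmt t.1 t.2.1 * t.2.2) ∧
        ∀ y : G, Preg p y → y ∈ Subgroup.closure ({t.1, t.2.1, t.2.2} : Set G)} : ℕ) : ℤ)
      = bR p (fun c : G => if IsConj x c then 1 else 0) := by
  have : Fintype G := Fintype.ofFinite G
  unfold bR
  rw [finsum_eq_sum_of_fintype, Nat.card_eq_fintype_card, Fintype.card_subtype,
    Finset.card_filter]
  push_cast
  refine Finset.sum_congr rfl (fun t _ => ?_)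
  by_cases h : (Pel p (uu t) ∧ uu t ≠ 1) ∧ PRat p (uu t) ∧ Opr p (⊤ : Subgroup G) ≤ gen t
  · rw [if_pos h]
    by_cases h2 : IsConj x t.2.2
    · rw [if_pos h2, if_pos ⟨h2, h.1.1, h.1.2, h.2.1, (ClsFAux.opr_le_iff _).1 h.2.2⟩]
    · rw [if_neg h2, if_neg (fun h3 => h2 h3.1)]
  · rw [if_neg h, if_neg]
    rintro ⟨_, h2, h3, h4, h5⟩
    exact h ⟨⟨h2, h3⟩, h4, (ClsFAux.opr_le_iff _).2 h5⟩

open Classical in
theorem pR_class (p q s : ℕ) (x : G) :
    ((Nat.card {y : G × G // Pel p y.1 ∧ y.1 ^ q ≠ 1 ∧ PRat p y.1 ∧ y.2 ^ s = 1 ∧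
        IsConj x ((y.1 * y.2) ^ q) ∧
        ∀ w : G, Preg p w → w ∈ Subgroup.closure ({y.1, y.2} : Set G)} : ℕ) : ℤ)
      = pR p q s (fun c => if IsConj x c then 1 else 0) := by
  have : Fintype G := Fintype.ofFinite G
  unfold pR
  rw [finsum_eq_sum_of_fintype, Nat.card_eq_fintype_card, Fintype.card_subtype,
    Finset.card_filter]
  push_cast
  refine Finset.sum_congr rfl (fun y _ => ?_)
  by_cases h : (Pel p y.1 ∧ y.1 ^ q ≠ 1) ∧ PRat p y.1 ∧ y.2 ^ s = 1 ∧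
    Opr p (⊤ : Subgroup G) ≤ Subgroup.closure {y.1, y.2}
  · rw [if_pos h]
    by_cases h2 : IsConj x ((y.1 * y.2) ^ q)
    · rw [if_pos h2, if_pos ⟨h.1.1, h.1.2, h.2.1, h.2.2.1, h2, (ClsFAux.opr_le_iff _).1 h.2.2.2⟩]
    · rw [if_neg h2, if_neg (fun h3 => h2 h3.2.2.2.2.1)]
  · rw [if_neg h, if_neg]
    rintro ⟨h1, h2, h3, h4, _, h5⟩
    exact h ⟨⟨h1, h2⟩, h3, h4, (ClsFAux.opr_le_iff _).2 h5⟩

/-- one group: triples -/
theorem triples_iff_rat [Fact p.Prime] (hG : NoP p (⊤ : Subgroup G)) (x : G) (hx : Preg p x) :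
    p * ordProj[p] (Nat.card G) ∣ Nat.card {t : G × G × G // IsConj x t.2.2 ∧
        Pel p (cmt t.1 t.2.1 * t.2.2) ∧ cmt t.1 t.2.1 * t.2.2 ≠ 1 ∧
        ∀ y : G, Preg p y → y ∈ Subgroup.closure ({t.1, t.2.1, t.2.2} : Set G)} ↔
    p * ordProj[p] (Nat.card G) ∣ Nat.card {t : G × G × G // IsConj x t.2.2 ∧
        Pel p (cmt t.1 t.2.1 * t.2.2) ∧ cmt t.1 t.2.1 * t.2.2 ≠ 1 ∧
        PRat p (cmt t.1 t.2.1 * t.2.2) ∧
        ∀ y : G, Preg p y → y ∈ Subgroup.closure ({t.1, t.2.1, t.2.2} : Set G)} := by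
  classical
  have h1 := bB_rat hG (isWt_class hx
    (m := fun c => if IsConj x c then 1 else 0) (fun c hc => if_pos hc) (fun c hc => if_neg hc))
  have h2 := bB_class (p := p) x
  have h3 := bR_class p x
  rw [← h2, ← h3] at h1
  rw [← Int.natCast_dvd_natCast, ← Int.natCast_dvd_natCast]
  push_cast at h1 ⊢
  exact (dvd_iff_dvd_of_dvd_sub h1)

/-- one group: pairs -/
theorem pairs_iff_rat [Fact p.Prime] {q s : ℕ} (hG : NoP p (⊤ : Subgroup G)) (x : G)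
    (hx : Preg p x) :
    p * ordProj[p] (Nat.card G) ∣ Nat.card {y : G × G // Pel p y.1 ∧ y.1 ^ q ≠ 1 ∧
        y.2 ^ s = 1 ∧ IsConj x ((y.1 * y.2) ^ q) ∧
        ∀ w : G, Preg p w → w ∈ Subgroup.closure ({y.1, y.2} : Set G)} ↔
    p * ordProj[p] (Nat.card G) ∣ Nat.card {y : G × G // Pel p y.1 ∧ y.1 ^ q ≠ 1 ∧
        PRat p y.1 ∧ y.2 ^ s = 1 ∧ IsConj x ((y.1 * y.2) ^ q) ∧
        ∀ w : G, Preg p w → w ∈ Subgroup.closure ({y.1, y.2} : Set G)} := by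
  classical
  have h1 := pB_rat hG (q := q) (s := s) (isWt_class hx
    (m := fun c => if IsConj x c then 1 else 0) (fun c hc => if_pos hc) (fun c hc => if_neg hc))
  have h2 := pB_class p q s x
  have h3 := pR_class p q s x
  rw [← h2, ← h3] at h1
  rw [← Int.natCast_dvd_natCast, ← Int.natCast_dvd_natCast]
  push_cast at h1 ⊢
  exact (dvd_iff_dvd_of_dvd_sub h1)

theorem pRat_sub {U : Subgroup G} {x : ↥U} (h : PRat p x) : PRat p (x : G) := by
  intro j hj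
  obtain ⟨c, hc⟩ := isConj_iff.1 (h j hj)
  refine isConj_iff.2 ⟨c, ?_⟩
  have h1 := congrArg (fun y : ↥U => (y : G)) hc
  simpa using h1

/-- no p-rational elements: no pairs -/
theorem pR_zero {q s : ℕ} (h : ∀ x : G, Pel p x → x ^ q ≠ 1 → ¬ PRat p x) (m : G → ℤ) :
    pR p q s m = 0 := by
  classical
  unfold pR
  have h1 : ∀ y : G × G, (if (Pel p y.1 ∧ y.1 ^ q ≠ 1) ∧ PRat p y.1 ∧ y.2 ^ s = 1 ∧
    Opr p (⊤ : Subgroup G) ≤ Subgroup.closure {y.1, y.2} then m ((y.1 * y.2) ^ q) else 0) = 0 := by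
    intro y
    rw [if_neg]
    rintro ⟨h1, h2, _⟩
    exact h y.1 h1.1 h1.2 h2
  rw [finsum_congr h1, finsum_zero]

end

/-- BAW modulo p for the blocks of a group without p-rational elements of large order in the
sections `N(Q) / Q` -/
theorem gap_of_rat {p : ℕ} [Fact p.Prime] {k : Type v} [Field k] [IsAlgClosed k] [CharP k p]
    {r s : ℕ} (E : ∀ (X : Type u) [Group X], X × X × X → X × X × X)
    (T : ∀ (X : Type u) [Group X], X → X → X × X × X)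
    (hE : ∀ (X : Type u) [Group X], IsRot (p ^ r) (E X))
    (hT : ∀ (X : Type u) [Group X], IsPar (p ^ r) s (E X) (T X))
    (G : Type u) [Group G] [Finite G]
    (hno : ∀ Q : Subgroup G, IsPGroup p Q → ∀ x : NQ Q, Pel p x → x ^ p ^ r ≠ 1 → ¬ PRat p x)
    (b : MonoidAlgebra k G) (hb : IsBlock (⊤ : Subgroup G) b) :
    ∃ t : ℤ, gap p (⊤ : Subgroup G) ⊤ b = (p : ℚ) * t := by
  refine gap_of_bB G (fun Q hQ U hU m hm => ?_) b hb
  have h1 := bB_congr_pB (hE ↥U) (hT ↥U) hU hm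
  have h2 := pB_rat hU (q := p ^ r) (s := s) hm
  have h5 : ∀ x : ↥U, Pel p x → x ^ p ^ r ≠ 1 → ¬ PRat p x := by
    intro x hx hx1 hx2
    refine hno Q hQ (x : NQ Q) ?_ ?_ (pRat_sub hx2)
    · obtain ⟨n, hn⟩ := hx
      exact ⟨n, by rw [← Subgroup.coe_pow, hn]; rfl⟩
    · intro h4
      apply hx1
      apply Subtype.ext
      rw [Subgroup.coe_pow, h4]
      rfl
  have h3 : pR p (p ^ r) s m = 0 := pR_zero h5 m
  rw [h3, sub_zero] at h2
  have h4 := dvd_add h1 h2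
  rwa [sub_add_cancel] at h4

end MainRAux

open MainPAux MainRAux

/-- all p: triples with p-rational `[a, b] c` -/
theorem baw_iff_triples_rat {p : ℕ} [Fact p.Prime] {k : Type v} [Field k] [IsAlgClosed k]
    [CharP k p] :
    (∀ (G : Type u) [Group G] [Finite G] (b : MonoidAlgebra k G), IsBlock (⊤ : Subgroup G) b →
      ∃ t : ℤ, gap p (⊤ : Subgroup G) ⊤ b = (p : ℚ) * t) ↔
    (∀ (G : Type u) [Group G] [Finite G], NoP p (⊤ : Subgroup G) → ∀ x : G, Preg p x →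
      p * ordProj[p] (Nat.card G) ∣ Nat.card {t : G × G × G // IsConj x t.2.2 ∧
        Pel p (cmt t.1 t.2.1 * t.2.2) ∧ cmt t.1 t.2.1 * t.2.2 ≠ 1 ∧
        PRat p (cmt t.1 t.2.1 * t.2.2) ∧
        ∀ y : G, Preg p y → y ∈ Subgroup.closure ({t.1, t.2.1, t.2.2} : Set G)}) := by
  rw [baw_iff_triples]
  constructor
  · intro h G _ _ hG x hx
    exact (triples_iff_rat hG x hx).1 (h G hG x hx)
  · intro h G _ _ hG x hx
    exact (triples_iff_rat hG x hx).2 (h G hG x hx)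

/-- p = 2: pairs with rational `x` -/
theorem baw_iff_pairs_two_rat {k : Type v} [Field k] [IsAlgClosed k] [CharP k 2] :
    (∀ (G : Type u) [Group G] [Finite G] (b : MonoidAlgebra k G), IsBlock (⊤ : Subgroup G) b →
      ∃ t : ℤ, gap 2 (⊤ : Subgroup G) ⊤ b = (2 : ℚ) * t) ↔
    (∀ (G : Type u) [Group G] [Finite G], NoP 2 (⊤ : Subgroup G) → ∀ x : G, Preg 2 x →
      2 * ordProj[2] (Nat.card G) ∣ Nat.card {y : G × G // Pel 2 y.1 ∧ y.1 ^ 4 ≠ 1 ∧
        PRat 2 y.1 ∧ y.2 ^ 2 = 1 ∧ IsConj x ((y.1 * y.2) ^ 4) ∧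
        ∀ w : G, Preg 2 w → w ∈ Subgroup.closure ({y.1, y.2} : Set G)}) := by
  have : Fact (Nat.Prime 2) := ⟨Nat.prime_two⟩
  rw [baw_iff_pairs_two]
  constructor
  · intro h G _ _ hG x hx
    exact (pairs_iff_rat hG x hx).1 (h G hG x hx)
  · intro h G _ _ hG x hx
    exact (pairs_iff_rat hG x hx).2 (h G hG x hx)

/-- p = 3: pairs with 3-rational `x` -/
theorem baw_iff_pairs_three_rat {k : Type v} [Field k] [IsAlgClosed k] [CharP k 3] :
    (∀ (G : Type u) [Group G] [Finite G] (b : MonoidAlgebra k G), IsBlock (⊤ : Subgroup G) b →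
      ∃ t : ℤ, gap 3 (⊤ : Subgroup G) ⊤ b = (3 : ℚ) * t) ↔
    (∀ (G : Type u) [Group G] [Finite G], NoP 3 (⊤ : Subgroup G) → ∀ x : G, Preg 3 x →
      3 * ordProj[3] (Nat.card G) ∣ Nat.card {y : G × G // Pel 3 y.1 ∧ y.1 ^ 3 ≠ 1 ∧
        PRat 3 y.1 ∧ y.2 ^ 3 = 1 ∧ IsConj x ((y.1 * y.2) ^ 3) ∧
        ∀ w : G, Preg 3 w → w ∈ Subgroup.closure ({y.1, y.2} : Set G)}) := by
  have : Fact (Nat.Prime 3) := ⟨Nat.prime_three⟩
  rw [baw_iff_pairs_three]
  constructor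
  · intro h G _ _ hG x hx
    exact (pairs_iff_rat hG x hx).1 (h G hG x hx)
  · intro h G _ _ hG x hx
    exact (pairs_iff_rat hG x hx).2 (h G hG x hx)

/-- p = 2: groups whose sections `N(Q) / Q` have no rational 2-elements of order at least 8 -/
theorem gap_two_of_rat {k : Type v} [Field k] [IsAlgClosed k] [CharP k 2]
    (G : Type u) [Group G] [Finite G]
    (hno : ∀ Q : Subgroup G, IsPGroup 2 Q → ∀ x : NQ Q, Pel 2 x → x ^ 4 ≠ 1 → ¬ PRat 2 x)
    (b : MonoidAlgebra k G) (hb : IsBlock (⊤ : Subgroup G) b) :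
    ∃ t : ℤ, gap 2 (⊤ : Subgroup G) ⊤ b = (2 : ℚ) * t := by
  have : Fact (Nat.Prime 2) := ⟨Nat.prime_two⟩
  exact gap_of_rat (p := 2) (r := 2) (s := 2) (fun _ _ => E4) (fun _ _ => T4)
    (fun _ _ => E4_isRot) (fun _ _ => T4_isPar) G hno b hb

/-- p = 3: groups whose sections `N(Q) / Q` have no 3-elements `x` of order at least 9 conjugate
to all `x ^ j`, `j = 1` modulo 3 -/
theorem gap_three_of_rat {k : Type v} [Field k] [IsAlgClosed k] [CharP k 3]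
    (G : Type u) [Group G] [Finite G]
    (hno : ∀ Q : Subgroup G, IsPGroup 3 Q → ∀ x : NQ Q, Pel 3 x → x ^ 3 ≠ 1 → ¬ PRat 3 x)
    (b : MonoidAlgebra k G) (hb : IsBlock (⊤ : Subgroup G) b) :
    ∃ t : ℤ, gap 3 (⊤ : Subgroup G) ⊤ b = (3 : ℚ) * t := by
  have : Fact (Nat.Prime 3) := ⟨Nat.prime_three⟩
  exact gap_of_rat (p := 3) (r := 1) (s := 3) (fun _ _ => E3) (fun _ _ => T3)
    (fun _ _ => E3_isRot) (fun _ _ => T3_isPar) G hno b hb

end Pool.Agent.Lib.P0c8ca5
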