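import Mathlib
import Pool.Agent.Lib.P0c8ca5V.MainR

/-! The equivalences inside a class of groups closed under subgroups and quotients. -/

namespace Pool.Agent.Lib.P0c8ca5

open MonoidAlgebra

universe u v

/-- a class of groups closed under subgroups and quotients (and isomorphisms) -/
structure SecCl (C : ∀ (G : Type u) [Group G], Prop) : Prop where
  sub : ∀ (G H : Type u) [Group G] [Group H] (f : H →* G), Function.Injective f → C G → C H
  quo : ∀ (G H : Type u) [Group G] [Group H] (f : G →* H), Function.Surjective f → C G → C H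

namespace RelAux

theorem cNQ {C : ∀ (G : Type u) [Group G], Prop} (hC : SecCl C) {G : Type u} [Group G]
    (h : C G) (Q : Subgroup G) : C (NQ Q) :=
  hC.quo _ _ (QuotientGroup.mk' _) (QuotientGroup.mk'_surjective _)
    (hC.sub _ _ (Subgroup.subtype _) (Subgroup.subtype_injective _) h)

theorem cSub {C : ∀ (G : Type u) [Group G], Prop} (hC : SecCl C) {G : Type u} [Group G]
    (h : C G) (U : Subgroup G) : C ↥U :=
  hC.sub _ _ (Subgroup.subtype _) (Subgroup.subtype_injective _) h

open CCAux in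
theorem forthC {C : ∀ (G : Type u) [Group G], Prop} (hC : SecCl C) {p : ℕ} [Fact p.Prime]
    (h : ∀ (G : Type u) [Group G] [Finite G], C G → ∀ (m : G → ℤ), IsWt p ⊤ m →
      (p : ℤ) * (Nat.card G : ℤ) ∣ nL p (⊤ : Subgroup G) m - wS p m) :
    ∀ (n : ℕ) (G : Type u) [Group G] [Finite G], Nat.card G = n → C G →
      ∀ (m : G → ℤ), IsWt p ⊤ m →
      (p : ℤ) * (Nat.card G : ℤ) ∣ eL p m - nA p (⊤ : Subgroup G) m := by
  classical
  intro n
  induction n using Nat.strong_induction_on with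
  | _ n ih =>
    intro G _ _ hn hCG m hm
    have h1 := h G hCG m hm
    rw [diff_eq hm] at h1
    have h2 : (p : ℤ) * (Nat.card G : ℤ) ∣
        ∑ᶠ Q : Subgroup G, (if Q = ⊥ then 0 else FF p m Q) := by
      refine sub_dvd (fun Q => if Q = ⊥ then 0 else FF p m Q) (fun g U => ?_) (p : ℤ) fun U => ?_
      · rw [FF_cg hm g U]
        exact if_congr (cg_bot_iff g U) rfl rfl
      · split_ifs with hU
        · exact dvd_zero _
        · exact FF_dvd U fun _ =>
            ih (Nat.card (NQ U)) (hn ▸ card_NQ_lt hU) (NQ U) rfl (cNQ hC hCG U) (mb U m)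
              (mb_isWt U hm)
    have h3 : ∑ᶠ Q : Subgroup G, FF p m Q =
        FF p m ⊥ + ∑ᶠ Q : Subgroup G, (if Q = ⊥ then 0 else FF p m Q) := by
      have h4 : ∑ᶠ Q : Subgroup G, (if Q = ⊥ then FF p m Q else 0) = FF p m ⊥ := by
        rw [finsum_eq_single _ (⊥ : Subgroup G) (fun Q hQ => by simp [hQ])]
        simp
      rw [← h4, ← finsum_add_distrib (Set.toFinite _) (Set.toFinite _)]
      refine finsum_congr fun Q => ?_
      split_ifs <;> ring
    rw [h3] at h1
    have h5 : (p : ℤ) * (Nat.card G : ℤ) ∣ FF p m ⊥ := (dvd_add_left h2).1 h1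
    have h6 : FF p m (⊥ : Subgroup G) = eL p m - nA p (⊤ : Subgroup G) m := by
      unfold FF
      rw [if_pos IsPGroup.of_bot, Subgroup.card_bot, eL_map (eNQ : G ≃* NQ (⊥ : Subgroup G)),
        nA_top_map (eNQ : G ≃* NQ (⊥ : Subgroup G))]
      simp only [mb_eNQ]
      push_cast
      ring
    rwa [h6] at h5

open DCAux in
theorem keyC {C : ∀ (G : Type u) [Group G], Prop} (hC : SecCl C) {p : ℕ} [Fact p.Prime]
    (H : ∀ (G : Type u) [Group G] [Finite G], C G → ∀ (m : G → ℤ), IsWt p ⊤ m →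
      (p : ℤ) * (Nat.card G : ℤ) ∣ eA p m - eE p m) :
    ∀ n : ℕ, ∀ (G : Type u) [Group G] [Finite G] (m : G → ℤ), Nat.card G = n → C G →
        IsWt p ⊤ m → NoP p (⊤ : Subgroup G) →
        (p : ℤ) * (ordProj[p] (Nat.card G) : ℕ) ∣ bB p (⊤ : Subgroup G) m := by
  intro n
  induction n using Nat.strong_induction_on with
  | _ n ih =>
  intro G _ _ m hn hCG hm hG
  classical
  have := Fintype.ofFinite (Subgroup G)
  have h1 : (p : ℤ) * (ordProj[p] (Nat.card G) : ℕ) ∣ ∑ᶠ H : Subgroup G, FH p m H := by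
    rw [← sum_FH, ← eA_sub_eE]
    refine dvd_trans (mul_dvd_mul_left _ ?_) (H G hCG m hm)
    exact_mod_cast Nat.ordProj_dvd (Nat.card G) p
  have h2 : (p : ℤ) * (ordProj[p] (Nat.card G) : ℕ) ∣
      ∑ᶠ H : Subgroup G, (if H = Opr p ⊤ then 0 else FH p m H) := by
    refine sub_dvd_p _ ?_ _ ?_
    · intro g U
      have h3 : cg g U = Opr p ⊤ ↔ U = Opr p ⊤ := by
        constructor
        · intro h
          have := congrArg (cg g⁻¹) h
          rwa [cg_cg, inv_mul_cancel, cg_one, cg_Opr_top] at this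
        · intro h
          rw [h, cg_Opr_top]
      simp only [h3, FH_cg hm]
    · intro K
      split_ifs with hK
      · exact dvd_zero _
      · refine sum_H hm (fun U hU hU2 => ?_)
        have hlt : Nat.card U < n := by
          rw [← hn]
          refine lt_of_le_of_ne (Subgroup.card_le_card_group U) ?_
          intro h
          have : U = ⊤ := Subgroup.eq_top_of_card_eq U h
          exact hK (by rw [← hU, this])
        have := ih _ hlt (↥U) (fun x : ↥U => m x) rfl (cSub hC hCG U) (IsWt_dn U hm)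
          ((NoP_dn U).2 hU2)
        rwa [bB_dn] at this
  have h4 : ∑ᶠ H : Subgroup G, FH p m H =
      (∑ᶠ H : Subgroup G, (if H = Opr p ⊤ then 0 else FH p m H)) + FH p m (Opr p ⊤) := by
    rw [finsum_eq_sum_of_fintype, finsum_eq_sum_of_fintype,
      ← Finset.sum_erase_add _ _ (Finset.mem_univ (Opr p (⊤ : Subgroup G))),
      ← Finset.sum_erase_add (Finset.univ : Finset (Subgroup G))
        (fun H => if H = Opr p ⊤ then 0 else FH p m H)
        (Finset.mem_univ (Opr p (⊤ : Subgroup G)))]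
    simp only [if_true, add_zero]
    congr 1
    refine Finset.sum_congr rfl (fun K hK => ?_)
    rw [if_neg (Finset.ne_of_mem_erase hK)]
  rw [h4] at h1
  rw [← FH_top m hG]
  exact (dvd_add_right h2).1 h1

end RelAux

open RelAux MainRAux MainPAux

/-- BAW modulo p inside the class and the divisibility inside the class, in terms of `bB` -/
theorem relC {C : ∀ (G : Type u) [Group G], Prop} (hC : SecCl C) {p : ℕ} [Fact p.Prime]
    {k : Type v} [Field k] [IsAlgClosed k] [CharP k p] :
    (∀ (G : Type u) [Group G] [Finite G], C G → ∀ (b : MonoidAlgebra k G),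
      IsBlock (⊤ : Subgroup G) b → ∃ t : ℤ, gap p (⊤ : Subgroup G) ⊤ b = (p : ℚ) * t) ↔
    (∀ (G : Type u) [Group G] [Finite G], C G → NoP p (⊤ : Subgroup G) → ∀ (m : G → ℤ),
      IsWt p ⊤ m → (p : ℤ) * (ordProj[p] (Nat.card G) : ℕ) ∣ bB p (⊤ : Subgroup G) m) := by
  constructor
  · intro h G _ _ hCG hG m hm
    refine keyC hC (fun G _ _ hCG m hm => ?_) _ G m rfl hCG hm hG
    have h1 : ∀ (G : Type u) [Group G] [Finite G], C G → ∀ (m : G → ℤ), IsWt p ⊤ m →
      (p : ℤ) * (Nat.card G : ℤ) ∣ nL p (⊤ : Subgroup G) m - wS p m :=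
      fun G _ _ hCG => (baw_iff_wS (k := k) G).1 (h G hCG)
    have e3 := forthC hC h1 _ G rfl hCG m hm
    have e1 := eE_eL (p := p) hm
    have e2 := nA_eA (p := p) hm
    have e4 : eA p m - eE p m
        = -((nA p (⊤ : Subgroup G) m - eA p m) + (eE p m - eL p m)
          + (eL p m - nA p (⊤ : Subgroup G) m)) := by ring
    rw [e4, dvd_neg]
    exact dvd_add (dvd_add e2 e1) e3
  · intro h G _ _ hCG b hb
    refine gap_of_bB G (fun Q hQ U hU m hm => ?_) b hb
    exact h ↥U (cSub hC (cNQ hC hCG Q) U) hU m hm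

/-- triples, inside a class -/
theorem rel_triples {C : ∀ (G : Type u) [Group G], Prop} (hC : SecCl C) {p : ℕ} [Fact p.Prime]
    {k : Type v} [Field k] [IsAlgClosed k] [CharP k p] :
    (∀ (G : Type u) [Group G] [Finite G], C G → ∀ (b : MonoidAlgebra k G),
      IsBlock (⊤ : Subgroup G) b → ∃ t : ℤ, gap p (⊤ : Subgroup G) ⊤ b = (p : ℚ) * t) ↔
    (∀ (G : Type u) [Group G] [Finite G], C G → NoP p (⊤ : Subgroup G) → ∀ x : G, Preg p x →
      p * ordProj[p] (Nat.card G) ∣ Nat.card {t : G × G × G // IsConj x t.2.2 ∧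
        Pel p (cmt t.1 t.2.1 * t.2.2) ∧ cmt t.1 t.2.1 * t.2.2 ≠ 1 ∧
        PRat p (cmt t.1 t.2.1 * t.2.2) ∧
        ∀ y : G, Preg p y → y ∈ Subgroup.closure ({t.1, t.2.1, t.2.2} : Set G)}) := by
  rw [relC hC]
  constructor
  · intro h G _ _ hCG hG x hx
    refine (triples_iff_rat hG x hx).1 ?_
    have h2 := (bB_iff_class ((p : ℤ) * (ordProj[p] (Nat.card G) : ℕ))).1
      (fun m hm => h G hCG hG m hm) x hx
    rw [← bB_class] at h2
    exact_mod_cast h2
  · intro h G _ _ hCG hG m hm
    refine (bB_iff_class ((p : ℤ) * (ordProj[p] (Nat.card G) : ℕ))).2 (fun x hx => ?_) m hm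
    rw [← bB_class]
    exact_mod_cast (triples_iff_rat hG x hx).2 (h G hCG hG x hx)

end Pool.Agent.Lib.P0c8ca5
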