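import Mathlib
import Pool.Agent.Lib.P0c8ca5V.Rel

/-! The equivalences inside a class of groups and a family of weights. -/

namespace Pool.Agent.Lib.P0c8ca5

open MonoidAlgebra

universe u v

/-- a family of weights closed under restriction and passage to `N(Q)/Q` -/
structure WFam (p : ℕ) (W : ∀ (G : Type u) [Group G], (G → ℤ) → Prop) : Prop where
  wt : ∀ (G : Type u) [Group G] [Finite G] (m : G → ℤ), W G m → IsWt p ⊤ m
  sub : ∀ (G : Type u) [Group G] [Finite G] (m : G → ℤ), W G m → ∀ U : Subgroup G,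
    W ↥U (fun x => m x)
  mb : ∀ (G : Type u) [Group G] [Finite G] (m : G → ℤ), W G m → ∀ Q : Subgroup G,
    IsPGroup p Q → W (NQ Q) (mb Q m)

namespace RelWAux

open RelAux

variable {C : ∀ (G : Type u) [Group G], Prop} {W : ∀ (G : Type u) [Group G], (G → ℤ) → Prop}
  {p : ℕ}

open CCAux in
theorem forthW [Fact p.Prime] (hC : SecCl C) (hW : WFam p W)
    (h : ∀ (G : Type u) [Group G] [Finite G], C G → ∀ (m : G → ℤ), W G m →
      (p : ℤ) * (Nat.card G : ℤ) ∣ nL p (⊤ : Subgroup G) m - wS p m) :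
    ∀ (n : ℕ) (G : Type u) [Group G] [Finite G], Nat.card G = n → C G →
      ∀ (m : G → ℤ), W G m →
      (p : ℤ) * (Nat.card G : ℤ) ∣ eL p m - nA p (⊤ : Subgroup G) m := by
  classical
  intro n
  induction n using Nat.strong_induction_on with
  | _ n ih =>
    intro G _ _ hn hCG m hWm
    have hm := hW.wt G m hWm
    have h1 := h G hCG m hWm
    rw [diff_eq hm] at h1
    have h2 : (p : ℤ) * (Nat.card G : ℤ) ∣
        ∑ᶠ Q : Subgroup G, (if Q = ⊥ then 0 else FF p m Q) := by
      refine sub_dvd (fun Q => if Q = ⊥ then 0 else FF p m Q) (fun g U => ?_) (p : ℤ) fun U => ?_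
      · rw [FF_cg hm g U]
        exact if_congr (cg_bot_iff g U) rfl rfl
      · split_ifs with hU
        · exact dvd_zero _
        · exact FF_dvd U fun hUp =>
            ih (Nat.card (NQ U)) (hn ▸ card_NQ_lt hU) (NQ U) rfl (cNQ hC hCG U) (mb U m)
              (hW.mb G m hWm U hUp)
    have h3 : ∑ᶠ Q : Subgroup G, FF p m Q =
        FF p m ⊥ + ∑ᶠ Q : Subgroup G, (if Q = ⊥ then 0 else FF p m Q) := by
      have h4 : ∑ᶠ Q : Subgroup G, (if Q = ⊥ then FF p m Q else 0) = FF p m ⊥ := by
        rw [finsum_eq_single _ (⊥ : Subgroup G) (fun Q hQ => by simp [hQ])]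
        simp
      rw [← h4, ← finsum_add_distrib (Set.toFinite _) (Set.toFinite _)]
      refine finsum_congr fun Q => ?_
      split_ifs <;> ring
    rw [h3] at h1
    have h5 : (p : ℤ) * (Nat.card G : ℤ) ∣ FF p m ⊥ := (dvd_add_left h2).1 h1
    have h6 : FF p m (⊥ : Subgroup G) = eL p m - nA p (⊤ : Subgroup G) m := by
      unfold FF
      rw [if_pos IsPGroup.of_bot, Subgroup.card_bot, eL_map (eNQ : G ≃* NQ (⊥ : Subgroup G)),
        nA_top_map (eNQ : G ≃* NQ (⊥ : Subgroup G))]
      simp only [mb_eNQ]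
      push_cast
      ring
    rwa [h6] at h5

open DCAux in
theorem keyW [Fact p.Prime] (hC : SecCl C) (hW : WFam p W)
    (H : ∀ (G : Type u) [Group G] [Finite G], C G → ∀ (m : G → ℤ), W G m →
      (p : ℤ) * (Nat.card G : ℤ) ∣ eA p m - eE p m) :
    ∀ n : ℕ, ∀ (G : Type u) [Group G] [Finite G] (m : G → ℤ), Nat.card G = n → C G →
        W G m → NoP p (⊤ : Subgroup G) →
        (p : ℤ) * (ordProj[p] (Nat.card G) : ℕ) ∣ bB p (⊤ : Subgroup G) m := by
  intro n
  induction n using Nat.strong_induction_on with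
  | _ n ih =>
  intro G _ _ m hn hCG hWm hG
  classical
  have hm := hW.wt G m hWm
  have := Fintype.ofFinite (Subgroup G)
  have h1 : (p : ℤ) * (ordProj[p] (Nat.card G) : ℕ) ∣ ∑ᶠ H : Subgroup G, FH p m H := by
    rw [← sum_FH, ← eA_sub_eE]
    refine dvd_trans (mul_dvd_mul_left _ ?_) (H G hCG m hWm)
    exact_mod_cast Nat.ordProj_dvd (Nat.card G) p
  have h2 : (p : ℤ) * (ordProj[p] (Nat.card G) : ℕ) ∣
      ∑ᶠ H : Subgroup G, (if H = Opr p ⊤ then 0 else FH p m H) := by
    refine sub_dvd_p _ ?_ _ ?_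
    · intro g U
      have h3 : cg g U = Opr p ⊤ ↔ U = Opr p ⊤ := by
        constructor
        · intro h
          have := congrArg (cg g⁻¹) h
          rwa [cg_cg, inv_mul_cancel, cg_one, cg_Opr_top] at this
        · intro h
          rw [h, cg_Opr_top]
      simp only [h3, FH_cg hm]
    · intro K
      split_ifs with hK
      · exact dvd_zero _
      · refine sum_H hm (fun U hU hU2 => ?_)
        have hlt : Nat.card U < n := by
          rw [← hn]
          refine lt_of_le_of_ne (Subgroup.card_le_card_group U) ?_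
          intro h
          have : U = ⊤ := Subgroup.eq_top_of_card_eq U h
          exact hK (by rw [← hU, this])
        have := ih _ hlt (↥U) (fun x : ↥U => m x) rfl (cSub hC hCG U) (hW.sub G m hWm U)
          ((NoP_dn U).2 hU2)
        rwa [bB_dn] at this
  have h4 : ∑ᶠ H : Subgroup G, FH p m H =
      (∑ᶠ H : Subgroup G, (if H = Opr p ⊤ then 0 else FH p m H)) + FH p m (Opr p ⊤) := by
    rw [finsum_eq_sum_of_fintype, finsum_eq_sum_of_fintype,
      ← Finset.sum_erase_add _ _ (Finset.mem_univ (Opr p (⊤ : Subgroup G))),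
      ← Finset.sum_erase_add (Finset.univ : Finset (Subgroup G))
        (fun H => if H = Opr p ⊤ then 0 else FH p m H)
        (Finset.mem_univ (Opr p (⊤ : Subgroup G)))]
    simp only [if_true, add_zero]
    congr 1
    refine Finset.sum_congr rfl (fun K hK => ?_)
    rw [if_neg (Finset.ne_of_mem_erase hK)]
  rw [h4] at h1
  rw [← FH_top m hG]
  exact (dvd_add_right h2).1 h1

end RelWAux

open RelAux RelWAux

/-- The difference of the two sides and the triples, inside a class of groups and a family of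
weights. -/
theorem relW {C : ∀ (G : Type u) [Group G], Prop} (hC : SecCl C) {p : ℕ} [Fact p.Prime]
    {W : ∀ (G : Type u) [Group G], (G → ℤ) → Prop} (hW : WFam p W) :
    (∀ (G : Type u) [Group G] [Finite G], C G → ∀ (m : G → ℤ), W G m →
      (p : ℤ) * (Nat.card G : ℤ) ∣ nL p (⊤ : Subgroup G) m - wS p m) ↔
    (∀ (G : Type u) [Group G] [Finite G], C G → NoP p (⊤ : Subgroup G) → ∀ (m : G → ℤ),
      W G m → (p : ℤ) * (ordProj[p] (Nat.card G) : ℕ) ∣ bB p (⊤ : Subgroup G) m) := by
  constructor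
  · intro h G _ _ hCG hG m hWm
    refine keyW hC hW (fun G _ _ hCG m hWm => ?_) _ G m rfl hCG hWm hG
    have hm := hW.wt G m hWm
    have e3 := forthW hC hW h _ G rfl hCG m hWm
    have e1 := eE_eL (p := p) hm
    have e2 := nA_eA (p := p) hm
    have e4 : eA p m - eE p m
        = -((nA p (⊤ : Subgroup G) m - eA p m) + (eE p m - eL p m)
          + (eL p m - nA p (⊤ : Subgroup G) m)) := by ring
    rw [e4, dvd_neg]
    exact dvd_add (dvd_add e2 e1) e3
  · intro h G _ _ hCG m hWm
    have hm := hW.wt G m hWm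
    rw [CCAux.diff_eq hm]
    refine sub_dvd (CCAux.FF p m) (fun g U => CCAux.FF_cg hm g U) (p : ℤ) fun Q => ?_
    refine CCAux.FF_dvd Q fun hQ => ?_
    have hWQ := hW.mb G m hWm Q hQ
    have h1 : IsWt p (⊤ : Subgroup (NQ Q)) (mb Q m) := hW.wt _ _ hWQ
    refine LocAux.eL_of_eA (NQ Q) h1 (LocAux.eA_of_bB (NQ Q) h1 fun U hU => ?_)
    rw [← bB_dn]
    exact h ↥U (cSub hC (cNQ hC hCG Q) U) ((NoP_dn U).2 hU) _ (hW.sub _ _ hWQ U)

end Pool.Agent.Lib.P0c8ca5
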