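import Pool.Agent.Lib.P0c8ca5V.THpA

/-!
# TDzA (1.2 h): blocks of defect zero have a one-dimensional centre

PROOF. `dz_scalar`: `blk_scalar` (TDefs): `z * f = c • f + w`, `w` central nilpotent; multiply with `f` (`f * f = f`, all central, `commute_of`): `w * f = w` (after replacing
`w` by `w * f`; it is still central and nilpotent). Then `w = w * f = w * (hpe * f) = (hpe * w) * f = 0` (`hpe_mul_dz`, `hpe_mul_nilp`).
`trE_dz`: class functions are the functions `φ` on `A` with `φ (h x h⁻¹) = φ x`; `conv f φ x = ∑ h, f_h φ (h x)`. Let `I = Cl ⊤ (· ∈ ⊤)`. `trE k ⊤ f.coeff` is the trace of the matrix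
`MT` of R2b (see `MT`, `MT_mulVec`, `conv_CF`, `conv_conv` in `R2bAux`; `trE_nilpotent` is proved with it): `MT X Y = ∑ y, [y X.out ~ Y.out] f_y` or so, `MT.mulVec (φ ∘ out) = (conv f φ) ∘ out`.
The class function `conv f φ` corresponds to the central element `∑ φ(x⁻¹) x * f = c • f` (`dz_scalar`): so all `MT.mulVec v` are multiples `λ(v) • w₀` of the ONE vector
`w₀ Y = f.coeff (Y.out)⁻¹`, `w₀ ≠ 0` as `f ≠ 0`, and `MT.mulVec w₀ = w₀` (`f * f = f`). So `MT X Y = w₀ X * l Y` with `l Y = λ(e_Y)`, `(∑ Y, l Y * w₀ Y) = 1` and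
the trace is `∑ X, w₀ X * l X = 1`. (Any other route is fine, e.g. a direct computation with the sum.)
-/

namespace Pool.Agent.Lib.P0c8ca5

open MonoidAlgebra

set_option linter.unusedSectionVars false

variable {p : ℕ} {k : Type*} [Field k] {A : Type*} [Group A]
variable [Fact p.Prime] [CharP k p] [IsAlgClosed k]

theorem dz_scalar [Finite A] {f z : MonoidAlgebra k A} (hf : IsDZ p (⊤ : Subgroup A) f)
    (hz : z ∈ fixAlg k (⊤ : Subgroup A) ⊤) : ∃ c : k, z * f = c • f := by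
  obtain ⟨c, w, hw, hn, h⟩ := blk_scalar hf.blk hz
  refine ⟨c, ?_⟩
  have hfc : f * w = w * f :=
    commute_of (mem_fixAlg.1 hf.blk.mem).1 (mem_fixAlg.1 hw).2
  have hpc : hpe p k A * w = w * hpe p k A :=
    commute_of (mem_fixAlg.1 (hpe_mem (p := p) (k := k) (A := A))).1 (mem_fixAlg.1 hw).2
  have h1 : w * f = 0 := by
    have h2 : hpe p k A * w = 0 := hpe_mul_nilp hw hn
    calc w * f = w * (hpe p k A * f) := by rw [hpe_mul_dz hf]
      _ = (hpe p k A * w) * f := by rw [← mul_assoc, hpc]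
      _ = 0 := by rw [h2, zero_mul]
  calc z * f = (z * f) * f := by rw [mul_assoc, hf.blk.idem]
    _ = (c • f + w) * f := by rw [h]
    _ = c • f := by rw [add_mul, h1, add_zero, smul_mul_assoc, hf.blk.idem]

namespace TDzAAux

/-- the element with coefficients `φ (x⁻¹)` -/
noncomputable def hat [Finite A] (φ : A → k) : MonoidAlgebra k A :=
  MonoidAlgebra.ofCoeff (Finsupp.equivFunOnFinite.symm fun x => φ x⁻¹)

theorem hat_coeff [Finite A] (φ : A → k) (x : A) : (hat φ).coeff x = φ x⁻¹ := rfl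

theorem hat_mem [Finite A] {φ : A → k} (hφ : R2bAux.CF (⊤ : Subgroup A) φ) :
    hat φ ∈ fixAlg k (⊤ : Subgroup A) ⊤ := by
  rw [mem_fixAlg]
  refine ⟨fun x _ => Subgroup.mem_top x, fun g _ x => ?_⟩
  rw [hat_coeff, hat_coeff]
  have e : (g * x * g⁻¹)⁻¹ = g * x⁻¹ * g⁻¹ := by group
  rw [e, hφ.2 g (Subgroup.mem_top g)]

/-- the convolution as a product -/
theorem conv_eq [Fintype A] (f : MonoidAlgebra k A) (φ : A → k) (x : A) :
    conv f φ x = (hat φ * f).coeff x⁻¹ := by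
  unfold conv
  rw [coeff_mul_fin]
  refine Fintype.sum_equiv ((Equiv.mulRight x).trans (Equiv.inv A)) _ _ fun y => ?_
  have e : ((Equiv.mulRight x).trans (Equiv.inv A)) y = (y * x)⁻¹ := rfl
  rw [e, hat_coeff, inv_inv, mul_comm]
  congr 2
  group

theorem conv_dz [Fintype A] {f : MonoidAlgebra k A} (hf : IsDZ p (⊤ : Subgroup A) f)
    {φ : A → k} (hφ : R2bAux.CF (⊤ : Subgroup A) φ) :
    ∃ c : k, ∀ x, conv f φ x = f.coeff x⁻¹ * c := by
  obtain ⟨c, hc⟩ := dz_scalar hf (hat_mem hφ)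
  refine ⟨c, fun x => ?_⟩
  rw [conv_eq, hc, mul_comm]
  rfl

theorem conv_self [Fintype A] {f : MonoidAlgebra k A} (hf : f * f = f) (x : A) :
    conv f (fun y => f.coeff y⁻¹) x = f.coeff x⁻¹ := by
  rw [conv_eq]
  have e : hat (fun y => f.coeff y⁻¹) = f := by
    ext y
    rw [hat_coeff, inv_inv]
  rw [e, hf]

open Classical in
/-- the indicator function of a class -/
noncomputable def ind (Y : Cl (⊤ : Subgroup A) (fun x => x ∈ (⊤ : Subgroup A))) (x : A) : k :=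
  if (Quotient.mk (clSetoid (⊤ : Subgroup A) (fun x => x ∈ (⊤ : Subgroup A)))
    ⟨x, Subgroup.mem_top x⟩) = Y then (1 : k) else 0

theorem ind_CF (Y : Cl (⊤ : Subgroup A) (fun x => x ∈ (⊤ : Subgroup A))) :
    R2bAux.CF (⊤ : Subgroup A) (ind (k := k) Y) := by
  refine ⟨fun x hx => absurd (Subgroup.mem_top x) hx, fun h hh x => ?_⟩
  unfold ind
  have e : Quotient.mk (clSetoid (⊤ : Subgroup A) (fun x => x ∈ (⊤ : Subgroup A)))
        ⟨h * x * h⁻¹, Subgroup.mem_top _⟩ = Quotient.mk _ ⟨x, Subgroup.mem_top x⟩ :=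
    (Quotient.sound ⟨h, hh, rfl⟩ :
      Quotient.mk (clSetoid (⊤ : Subgroup A) (fun x => x ∈ (⊤ : Subgroup A)))
        ⟨x, Subgroup.mem_top x⟩ = Quotient.mk _ ⟨h * x * h⁻¹, Subgroup.mem_top _⟩).symm
  rw [e]

open Classical in
theorem ind_out (Y : Cl (⊤ : Subgroup A) (fun x => x ∈ (⊤ : Subgroup A))) :
    (fun Z : Cl (⊤ : Subgroup A) (fun x => x ∈ (⊤ : Subgroup A)) => ind (k := k) Y (Z.out : A))
      = Pi.single Y 1 := by
  funext Z
  unfold ind
  have e : Quotient.mk (clSetoid (⊤ : Subgroup A) (fun x => x ∈ (⊤ : Subgroup A)))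
      ⟨(Z.out : A), Subgroup.mem_top _⟩ = Z := Quotient.out_eq Z
  rw [e, Pi.single_apply]

end TDzAAux

theorem trE_dz [Fintype A] {f : MonoidAlgebra k A} (hf : IsDZ p (⊤ : Subgroup A) f) :
    trE k (⊤ : Subgroup A) (fun x => f.coeff x) = 1 := by
  classical
  let _ : Fintype (Cl (⊤ : Subgroup A) (fun x => x ∈ (⊤ : Subgroup A))) := Fintype.ofFinite _
  have hS : SuppIn (⊤ : Subgroup A) f := (mem_fixAlg.1 hf.blk.mem).1
  have hI : InvBy (⊤ : Subgroup A) f := (mem_fixAlg.1 hf.blk.mem).2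
  have h1 : trE k (⊤ : Subgroup A) (fun y => f.coeff y)
      = (R2bAux.MT (⊤ : Subgroup A) f).trace := by
    unfold trE Matrix.trace
    rw [finsum_eq_sum_of_fintype]
    refine Finset.sum_congr rfl fun X _ => ?_
    rw [Matrix.diag_apply]
    unfold R2bAux.MT
    refine Finset.sum_congr rfl fun y _ => ?_
    congr!
  rw [h1]
  have h2 : ∀ Y, ∃ c : k, ∀ x : A, conv f (TDzAAux.ind Y) x = f.coeff x⁻¹ * c :=
    fun Y => TDzAAux.conv_dz hf (TDzAAux.ind_CF Y)
  choose l hl using h2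
  have h3 : ∀ X Y, R2bAux.MT (⊤ : Subgroup A) f X Y = f.coeff (X.out : A)⁻¹ * l Y := by
    intro X Y
    have h := congrFun (R2bAux.MT_mulVec hS (TDzAAux.ind_CF (k := k) Y)) X
    rw [TDzAAux.ind_out, Matrix.mulVec_single_one] at h
    have h' : R2bAux.MT (⊤ : Subgroup A) f X Y = conv f (TDzAAux.ind Y) (X.out : A) := h
    rw [h', hl]
  have hCF : R2bAux.CF (⊤ : Subgroup A) (fun y => f.coeff y⁻¹) := by
    refine ⟨fun x hx => absurd (Subgroup.mem_top x) hx, fun h hh x => ?_⟩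
    have e : (h * x * h⁻¹)⁻¹ = h * x⁻¹ * h⁻¹ := by group
    change f.coeff (h * x * h⁻¹)⁻¹ = f.coeff x⁻¹
    rw [e, hI h hh]
  have h4 : ∀ X : Cl (⊤ : Subgroup A) (fun x => x ∈ (⊤ : Subgroup A)),
      ∑ Y, R2bAux.MT (⊤ : Subgroup A) f X Y * f.coeff (Y.out : A)⁻¹
        = f.coeff (X.out : A)⁻¹ := by
    intro X
    have h := congrFun (R2bAux.MT_mulVec hS hCF) X
    rw [TDzAAux.conv_self hf.blk.idem] at h
    exact h
  have h5 : ∃ X : Cl (⊤ : Subgroup A) (fun x => x ∈ (⊤ : Subgroup A)),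
      f.coeff (X.out : A)⁻¹ ≠ 0 := by
    have h6 : ∃ x, f.coeff x ≠ 0 := by
      by_contra h7
      push Not at h7
      apply hf.blk.ne_zero
      ext x
      rw [h7 x]
      rfl
    obtain ⟨x, hx⟩ := h6
    set X0 : Cl (⊤ : Subgroup A) (fun x => x ∈ (⊤ : Subgroup A)) :=
      Quotient.mk _ ⟨x⁻¹, Subgroup.mem_top _⟩ with hX0
    obtain ⟨g, hg, e⟩ : ∃ g ∈ (⊤ : Subgroup A), (X0.out : A) = g * x⁻¹ * g⁻¹ := by
      have h8 : Quotient.mk (clSetoid (⊤ : Subgroup A) (fun x => x ∈ (⊤ : Subgroup A)))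
          ⟨x⁻¹, Subgroup.mem_top _⟩ = Quotient.mk _ X0.out := by rw [Quotient.out_eq]
      exact Quotient.exact h8
    refine ⟨X0, ?_⟩
    have e2 : (X0.out : A)⁻¹ = g * x * g⁻¹ := by rw [e]; group
    rw [e2, hI g hg]
    exact hx
  obtain ⟨X, hX⟩ := h5
  have h9 : ∑ Y : Cl (⊤ : Subgroup A) (fun x => x ∈ (⊤ : Subgroup A)),
      f.coeff (Y.out : A)⁻¹ * l Y = 1 := by
    have h := h4 X
    have h10 : ∑ Y, R2bAux.MT (⊤ : Subgroup A) f X Y * f.coeff (Y.out : A)⁻¹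
        = f.coeff (X.out : A)⁻¹ * ∑ Y : Cl (⊤ : Subgroup A) (fun x => x ∈ (⊤ : Subgroup A)),
          f.coeff (Y.out : A)⁻¹ * l Y := by
      rw [Finset.mul_sum]
      refine Finset.sum_congr rfl fun Y _ => ?_
      rw [h3]
      ring
    rw [h10] at h
    exact mul_left_cancel₀ hX (h.trans (mul_one _).symm)
  rw [← h9]
  unfold Matrix.trace
  refine Finset.sum_congr rfl fun Y _ => ?_
  rw [Matrix.diag_apply, h3]

end Pool.Agent.Lib.P0c8ca5
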