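import Pool.Agent.Lib.P0c8ca5V.TDefs

/-!
# TFrb (1 h): a power of the Frobenius fixes the coefficients of all blocks

PROOF. Let `φ : MonoidAlgebra k A →+* MonoidAlgebra k A` be the coefficientwise Frobenius `c ↦ c ^ p`
(`MonoidAlgebra.mapRangeRingHom` with `frobenius k p`, or by hand: `(φ a).coeff x = (a.coeff x) ^ p`; additive and multiplicative by
`add_pow_char`, `sum_pow_char`, `mul_pow` and `coeff_mul_fin`). It is bijective, `k` being algebraically closed
(`frobenius` is injective on a field, surjective because every element has a `p`-th root: `IsAlgClosed.exists_pow_nat_eq`).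
It maps blocks of `k⊤` to blocks: centre to centre (`single g 1` is fixed), idempotents to idempotents, and if `g` is a central
idempotent with `g * φ f = g` then `g = φ g'` with `g'` a central idempotent and `g' * f = g'`. So `φ` is an injective map of the finite set of the
blocks (`finite_isBlock`) into itself, and some power `φ ^ N`, `N > 0`, is the identity on it (a permutation of a finite type has finite order:
`Equiv.ofInjective`/`Finite.injective_iff_bijective`, `isOfFinOrder_of_finite`, `orderOf_pos`), i.e. `f.coeff x ^ p ^ N = f.coeff x`.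
Let `uexp p A = p ^ M` (`y ^ p ^ M = pr p y` by definition; `M > 0` if `M = card A * totient ..` : `Nat.card_pos`, `Nat.totient_pos`). Take `n = M * N`:
`y ^ p ^ (M * N) = pr p y` by `pr_pr` (iterate `N > 0` times) and `c ^ p ^ (N * M) = c` (iterate `M` times).
-/

namespace Pool.Agent.Lib.P0c8ca5

open MonoidAlgebra

set_option linter.unusedSectionVars false

variable {p : ℕ} {k : Type*} [Field k] {A : Type*} [Group A] [Finite A]

namespace TFrbAux

omit [Finite A] in
/-- a ring automorphism of `k` acting on the coefficients maps blocks to blocks -/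
theorem isBlock_map (σ : k ≃+* k) {f : MonoidAlgebra k A} (hf : IsBlock (⊤ : Subgroup A) f) :
    IsBlock (⊤ : Subgroup A) (mapRingEquiv A σ f) := by
  have hmem : ∀ (τ : k ≃+* k) (g : MonoidAlgebra k A), g ∈ fixAlg k (⊤ : Subgroup A) ⊤ →
      mapRingEquiv A τ g ∈ fixAlg k (⊤ : Subgroup A) ⊤ := by
    intro τ g hg
    rw [mem_fixAlg] at hg ⊢
    refine ⟨fun x _ => Subgroup.mem_top x, fun h hh x => ?_⟩
    rw [coeff_mapRingEquiv, coeff_mapRingEquiv, hg.2 h hh x]
  refine ⟨hmem σ f hf.mem, ?_, ?_, ?_⟩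
  · rw [← map_mul, hf.idem]
  · intro h
    exact hf.ne_zero ((map_eq_zero_iff _ (mapRingEquiv A σ).injective).1 h)
  · intro g hg hgg hgf
    have h1 := hf.prim ((mapRingEquiv A σ).symm g) (by
      rw [symm_mapRingEquiv]
      exact hmem σ.symm g hg) (by rw [← map_mul, hgg]) (by
        apply (mapRingEquiv A σ).injective
        rw [map_mul, RingEquiv.apply_symm_apply, hgf])
    rcases h1 with h1 | h1
    · left
      have h2 := congrArg (mapRingEquiv A σ) h1
      rwa [RingEquiv.apply_symm_apply, map_zero] at h2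
    · right
      have h2 := congrArg (mapRingEquiv A σ) h1
      rwa [RingEquiv.apply_symm_apply] at h2

/-- the permutation of the blocks -/
noncomputable def perm (σ : k ≃+* k) (A : Type*) [Group A] :
    Equiv.Perm {f : MonoidAlgebra k A | IsBlock (⊤ : Subgroup A) f} where
  toFun f := ⟨mapRingEquiv A σ f.1, isBlock_map σ f.2⟩
  invFun f := ⟨mapRingEquiv A σ.symm f.1, isBlock_map σ.symm f.2⟩
  left_inv f := by
    apply Subtype.ext
    change mapRingEquiv A σ.symm (mapRingEquiv A σ f.1) = f.1
    rw [← symm_mapRingEquiv, RingEquiv.symm_apply_apply]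
  right_inv f := by
    apply Subtype.ext
    change mapRingEquiv A σ (mapRingEquiv A σ.symm f.1) = f.1
    rw [← symm_mapRingEquiv, RingEquiv.apply_symm_apply]

omit [Finite A] in
theorem perm_pow (p : ℕ) (σ : k ≃+* k) (hσ : ∀ c, σ c = c ^ p) (n : ℕ)
    (f : {f : MonoidAlgebra k A | IsBlock (⊤ : Subgroup A) f}) (x : A) :
    ((perm σ A ^ n) f).1.coeff x = f.1.coeff x ^ p ^ n := by
  induction n generalizing f with
  | zero => rw [pow_zero, pow_zero, pow_one]; rfl
  | succ n ih =>
    rw [pow_succ, Equiv.Perm.mul_apply, ih]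
    change (mapRingEquiv A σ f.1).coeff x ^ p ^ n = _
    rw [coeff_mapRingEquiv, hσ, ← pow_mul, pow_succ, mul_comm]

theorem exists_N (p : ℕ) (k : Type*) [Field k] (A : Type*) [Group A] [Finite A]
    [Fact p.Prime] [CharP k p] [IsAlgClosed k] : ∃ N : ℕ, 0 < N ∧
    ∀ f : MonoidAlgebra k A, IsBlock (⊤ : Subgroup A) f → ∀ x, f.coeff x ^ p ^ N = f.coeff x := by
  have hp : p.Prime := Fact.out
  have : Finite {f : MonoidAlgebra k A | IsBlock (⊤ : Subgroup A) f} :=
    (finite_isBlock (k := k) (⊤ : Subgroup A)).to_subtype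
  have : ExpChar k p := ExpChar.prime hp
  have hbij : Function.Bijective (frobenius k p) := by
    refine ⟨frobenius_inj k p, fun c => ?_⟩
    obtain ⟨z, hz⟩ := IsAlgClosed.exists_pow_nat_eq c hp.pos
    exact ⟨z, hz⟩
  have hσ : ∀ c, (RingEquiv.ofBijective (frobenius k p) hbij) c = c ^ p := fun c => rfl
  refine ⟨orderOf (perm (RingEquiv.ofBijective (frobenius k p) hbij) A), orderOf_pos _,
    fun f hf x => ?_⟩
  have h := perm_pow p _ hσ
    (orderOf (perm (RingEquiv.ofBijective (frobenius k p) hbij) A)) ⟨f, hf⟩ x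
  rw [pow_orderOf_eq_one] at h
  exact h.symm

theorem pow_iter {c : k} {N : ℕ} (h : c ^ p ^ N = c) (M : ℕ) : c ^ p ^ (N * M) = c := by
  induction M with
  | zero => rw [mul_zero, pow_zero, pow_one]
  | succ M ih => rw [Nat.mul_succ, pow_add, pow_mul, ih, h]

theorem pr_iter [Fact p.Prime] (M : ℕ) (hM : uexp p A = p ^ M) (N : ℕ) (y : A) :
    y ^ p ^ (M * (N + 1)) = pr p y := by
  induction N with
  | zero => rw [zero_add, mul_one, ← hM]; rfl
  | succ N ih =>
    rw [Nat.mul_succ, pow_add, pow_mul, ih, ← hM]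
    exact pr_pr y

end TFrbAux

theorem exists_q (p : ℕ) (k : Type*) [Field k] (A : Type*) [Group A] [Finite A]
    [Fact p.Prime] [CharP k p] [IsAlgClosed k] : ∃ n : ℕ, 0 < n ∧ (∀ y : A, y ^ p ^ n = pr p y) ∧
    ∀ f : MonoidAlgebra k A, IsBlock (⊤ : Subgroup A) f → ∀ x, f.coeff x ^ p ^ n = f.coeff x := by
  have hp : p.Prime := Fact.out
  obtain ⟨N, hN, hf⟩ := TFrbAux.exists_N p k A
  have hn : Nat.card A ≠ 0 := Nat.card_pos.ne'
  have hM : 0 < Nat.card A * Nat.totient (ordCompl[p] (Nat.card A)) :=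
    Nat.mul_pos Nat.card_pos (Nat.totient_pos.2 (Nat.ordCompl_pos p hn))
  refine ⟨(Nat.card A * Nat.totient (ordCompl[p] (Nat.card A))) * N, Nat.mul_pos hM hN,
    fun y => ?_, fun f hff x => ?_⟩
  · obtain ⟨N', rfl⟩ : ∃ N', N = N' + 1 := ⟨N - 1, by omega⟩
    exact TFrbAux.pr_iter _ rfl N' y
  · rw [mul_comm]
    exact TFrbAux.pow_iter (hf f hff x) _

end Pool.Agent.Lib.P0c8ca5
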