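import Pool.Agent.Lib.P0c8ca5V.TOsi
import Pool.Agent.Lib.P0c8ca5V.TFrb

/-!
# THpA (1.5 h): the sum of the p-elements and the blocks of defect zero

`hpe p k A = ∑ x, if Pel p x then single x 1 else 0`; `Pel p x ↔ ∃ n, x ^ p ^ n = 1`.
PROOF.
`pel_iff_pr`: `→` is `pr_of_pow`; `←`: `exists_pow_mul_inv_pr` with `pr p x = 1`.
`hpe_mem`: conjugation permutes the p-elements (`mem_fixAlg`, `InvBy ⊤`: `coeff (g x g⁻¹) = coeff x`).
`coeff_hpe_mul`: `coeff_mul_fin`; the factor is `if Pel p u then 1 else 0`.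
`hpe_mul_coeff`: `(n, hq1, hq2)` from `exists_q`, `q = p ^ n`. Let `a = f * single g⁻¹ 1`: `a.coeff y = f.coeff (y * g)`. `f` is central and idempotent, so
  `a ^ q = f * single (g⁻¹ ^ q) 1 = f * single (pr p g)⁻¹ 1`. `Fl_pow` (P0c8ca5N.ChC) with `φ` = indicator of `{1}` (a class function):
  left: `(a ^ q).coeff 1 = f.coeff (pr p g)`; right: `∑ y, (f.coeff (y * g)) ^ q * [y ^ q = 1] = ∑_{Pel y} f.coeff (y * g)` by `hq2`, `hq1`, `pel_iff_pr`;
  substitute `y = u⁻¹` (`Pel p u⁻¹ ↔ Pel p u`).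
`hpe_mul_dz`: by coefficients and `hpe_mul_coeff`: `f.coeff (pr p g) = f.coeff g`. If `Preg p g`: `pr_eq_self`. If not: `f.coeff g = 0` by `osima`, and
  `f.coeff (pr p g) = 0`: otherwise `IsDZ.ndvd` says that `p` does not divide the order of `⊤ ⊓ centralizer {pr p g}`, but this group contains the
  nontrivial p-element `g * (pr p g)⁻¹` (`exists_pow_mul_inv_pr`; it is `≠ 1` because `pr p g` is p-regular, `preg_pr`).
`hpe_mul_nilp`: by coefficients at `g`. Let `z ^ N = 0`, `q = p ^ n` with `q ≥ N` and `y ^ q = pr p y` for all `y` (take `(uexp p A) ^ j = p ^ (M j)`, `pr_pr`).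
  `(z * single g⁻¹ 1) ^ q = z ^ q * .. = 0`, so by `Fl_pow` (`φ` = indicator of `{1}`) `∑_{Pel y} z.coeff (y * g) ^ q = 0`, i.e. `(∑_{Pel y} z.coeff (y * g)) ^ q = 0`
  (`sum_pow_char_pow` or `Finset.sum_pow_char..`: the Frobenius is additive), so the sum is `0`, and it is `(hpe * z).coeff g`.
-/

namespace Pool.Agent.Lib.P0c8ca5

open MonoidAlgebra

set_option linter.unusedSectionVars false

variable {p : ℕ} {k : Type*} [Field k] {A : Type*} [Group A] [Finite A]

theorem pel_iff_pr [Fact p.Prime] {x : A} : Pel p x ↔ pr p x = 1 := by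
  constructor
  · rintro ⟨n, hn⟩
    exact pr_of_pow hn
  · intro h
    obtain ⟨n, hn⟩ := exists_pow_mul_inv_pr (p := p) x
    rw [h, inv_one, mul_one] at hn
    exact ⟨n, hn⟩

theorem hpe_mem [Fact p.Prime] : hpe p k A ∈ fixAlg k (⊤ : Subgroup A) ⊤ := by
  rw [mem_fixAlg]
  refine ⟨fun x _ => Subgroup.mem_top x, fun g _ x => ?_⟩
  rw [hpe_coeff, hpe_coeff]
  have h : Pel p (g * x * g⁻¹) ↔ Pel p x := by
    rw [pel_iff_pr, pel_iff_pr, pr_conj, conj_eq_one_iff]
  by_cases hx : Pel p x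
  · rw [if_pos hx, if_pos (h.2 hx)]
  · rw [if_neg hx, if_neg (fun h' => hx (h.1 h'))]

open Classical in
theorem coeff_hpe_mul [Fintype A] (z : MonoidAlgebra k A) (y : A) :
    (hpe p k A * z).coeff y = ∑ u : A, if Pel p u then z.coeff (u⁻¹ * y) else 0 := by
  rw [coeff_mul_fin]
  refine Finset.sum_congr rfl fun u _ => ?_
  rw [hpe_coeff]
  split_ifs
  · rw [one_mul]
  · rw [zero_mul]

namespace THpAAux

open Classical in
/-- the sum over the p-elements, with `y` in place of `u⁻¹` -/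
theorem coeff_hpe_mul' [Fact p.Prime] [Fintype A] (z : MonoidAlgebra k A) (g : A) :
    (hpe p k A * z).coeff g = ∑ y : A, if Pel p y then z.coeff (y * g) else 0 := by
  rw [coeff_hpe_mul]
  refine Fintype.sum_equiv (Equiv.inv A) _ _ fun u => ?_
  have h : Pel p u⁻¹ ↔ Pel p u := by
    unfold Pel
    refine exists_congr fun n => ?_
    rw [inv_pow, inv_eq_one]
  rw [Equiv.inv_apply]
  by_cases hu : Pel p u
  · rw [if_pos hu, if_pos (h.2 hu)]
  · rw [if_neg hu, if_neg (fun h' => hu (h.1 h'))]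

open Classical in
theorem key [Fact p.Prime] [CharP k p] [Fintype A] {n : ℕ} (hn : ∀ y : A, y ^ p ^ n = pr p y)
    (z : MonoidAlgebra k A) (g : A) :
    ∑ y : A, (if Pel p y then z.coeff (y * g) ^ p ^ n else 0) =
      ((z * single g⁻¹ 1) ^ p ^ n).coeff 1 := by
  have h := ChC.Fl_pow (p := p) (k := k) (G := A) (fun x => if x = 1 then 1 else 0)
    (fun x y => by
      have : x * y = 1 ↔ y * x = 1 := ⟨mul_eq_one_comm.1, mul_eq_one_comm.1⟩
      by_cases hxy : x * y = 1
      · rw [if_pos hxy, if_pos (this.1 hxy)]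
      · rw [if_neg hxy, if_neg (fun h' => hxy (this.2 h'))]) (z * single g⁻¹ 1) n
  rw [ChC.Fl_apply, Finset.sum_eq_single (1 : A)] at h
  · rw [if_pos rfl, mul_one] at h
    rw [h]
    refine Finset.sum_congr rfl fun y _ => ?_
    rw [hn, coeff_mul_single_apply, inv_inv, mul_one]
    by_cases hy : Pel p y
    · rw [if_pos hy, if_pos (pel_iff_pr.1 hy), mul_one]
    · rw [if_neg hy, if_neg (fun h' => hy (pel_iff_pr.2 h')), mul_zero]
  · intro b _ hb
    rw [if_neg hb, mul_zero]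
  · intro h'
    exact absurd (Finset.mem_univ _) h'

theorem comm {z : MonoidAlgebra k A} (hz : z ∈ fixAlg k (⊤ : Subgroup A) ⊤) (g : A) :
    Commute z (single g (1 : k)) :=
  (hz.2 g (Subgroup.mem_top g)).symm

end THpAAux

section
variable [Fact p.Prime] [CharP k p]

theorem hpe_mul_coeff [IsAlgClosed k] {f : MonoidAlgebra k A} (hf : IsBlock (⊤ : Subgroup A) f)
    (g : A) : (hpe p k A * f).coeff g = f.coeff (pr p g) := by
  classical
  have _ := Fintype.ofFinite A
  obtain ⟨n, hn0, hn, hfn⟩ := exists_q p k A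
  rw [THpAAux.coeff_hpe_mul']
  have h := THpAAux.key (p := p) hn f g
  have h1 : ∀ y : A, (if Pel p y then f.coeff (y * g) ^ p ^ n else 0) =
      if Pel p y then f.coeff (y * g) else 0 := by
    intro y
    rw [hfn f hf]
  simp only [h1] at h
  rw [h, (THpAAux.comm hf.mem g⁻¹).mul_pow, single_pow, one_pow, hn, coeff_mul_single_apply,
    mul_one, one_mul]
  have hq : f ^ p ^ n = f :=
    IsIdempotentElem.pow_eq hf.idem (pow_pos (Fact.out : p.Prime).pos n).ne'
  rw [hq]
  congr 1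
  rw [← hn, ← hn, inv_pow, inv_inv]

theorem hpe_mul_dz [IsAlgClosed k] {f : MonoidAlgebra k A} (hf : IsDZ p (⊤ : Subgroup A) f) :
    hpe p k A * f = f := by
  ext g
  rw [hpe_mul_coeff hf.blk]
  by_cases hg : Preg p g
  · rw [pr_eq_self hg]
  · have h1 : f.coeff g = 0 := by
      by_contra h
      exact hg (osima hf.blk.mem hf.blk.idem h)
    rw [h1]
    by_contra h
    apply hf.ndvd h
    obtain ⟨n, hn⟩ := exists_pow_mul_inv_pr (p := p) g
    have hne : g * (pr p g)⁻¹ ≠ 1 := by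
      intro h'
      rw [mul_inv_eq_one] at h'
      apply hg
      rw [h']
      exact preg_pr g
    have hmem : g * (pr p g)⁻¹ ∈ (⊤ : Subgroup A) ⊓ Subgroup.centralizer {pr p g} := by
      refine Subgroup.mem_inf.2 ⟨Subgroup.mem_top _, ?_⟩
      rw [Subgroup.mem_centralizer_singleton_iff]
      have hc : Commute g (pr p g) := commute_pr (Commute.refl g)
      exact (hc.mul_left ((Commute.refl (pr p g)).inv_left)).eq
    have h2 : orderOf (g * (pr p g)⁻¹) ∣
        Nat.card ↥((⊤ : Subgroup A) ⊓ Subgroup.centralizer {pr p g}) := by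
      have := orderOf_dvd_natCard (⟨_, hmem⟩ : ↥((⊤ : Subgroup A) ⊓ Subgroup.centralizer {pr p g}))
      rwa [Subgroup.orderOf_mk] at this
    refine dvd_trans ?_ h2
    obtain ⟨j, -, hj⟩ := (Nat.dvd_prime_pow (Fact.out : p.Prime)).1 (orderOf_dvd_of_pow_eq_one hn)
    rw [hj]
    refine dvd_pow_self p ?_
    rintro rfl
    rw [pow_zero, orderOf_eq_one_iff] at hj
    exact hne hj

theorem hpe_mul_nilp {z : MonoidAlgebra k A} (hz : z ∈ fixAlg k (⊤ : Subgroup A) ⊤)
    (hn : IsNilpotent z) : hpe p k A * z = 0 := by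
  classical
  have _ := Fintype.ofFinite A
  have hp : p.Prime := Fact.out
  obtain ⟨N, hN⟩ := hn
  have hM : 0 < Nat.card A * Nat.totient (ordCompl[p] (Nat.card A)) :=
    Nat.mul_pos Nat.card_pos (Nat.totient_pos.2 (Nat.ordCompl_pos p Nat.card_pos.ne'))
  set M := Nat.card A * Nat.totient (ordCompl[p] (Nat.card A)) with hMd
  have hq : ∀ y : A, y ^ p ^ (M * (N + 1)) = pr p y := TFrbAux.pr_iter M rfl N
  have hle : N ≤ p ^ (M * (N + 1)) := by
    calc N ≤ M * (N + 1) := (Nat.le_succ N).trans (Nat.le_mul_of_pos_left _ hM)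
      _ ≤ p ^ (M * (N + 1)) := (Nat.lt_pow_self hp.one_lt).le
  have hz0 : z ^ p ^ (M * (N + 1)) = 0 := pow_eq_zero_of_le hle hN
  ext g
  rw [THpAAux.coeff_hpe_mul']
  have h := THpAAux.key (p := p) hq z g
  rw [(THpAAux.comm hz g⁻¹).mul_pow, hz0, zero_mul] at h
  have : ExpChar k p := ExpChar.prime hp
  have h2 : (∑ y : A, if Pel p y then z.coeff (y * g) else 0) ^ p ^ (M * (N + 1)) = 0 := by
    rw [sum_pow_char_pow]
    refine Eq.trans (Finset.sum_congr rfl fun y _ => ?_) h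
    split_ifs
    · rfl
    · exact zero_pow (pow_pos hp.pos _).ne'
  rw [eq_zero_of_pow_eq_zero h2]
  rfl

end

end Pool.Agent.Lib.P0c8ca5
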