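import Pool.Agent.Lib.P0c8ca5V.THpB
import Pool.Agent.Lib.P0c8ca5V.TDzA

/-!
# TDzB (0.8 h): the number of the blocks of defect zero below a central idempotent, modulo `p`

PROOF. `Bl` = the finite set of the blocks `b` of `k⊤` with `b * c ≠ 0`; `∑ b ∈ Bl, b = c` (`sum_blocks` in P0c8ca5N.WSum) and `b * c = b` for `b ∈ Bl` (`IsBlock.mul_eq`).
`hpe * c = ∑ b ∈ Bl, hpe * b`; `trE` is additive (`trE_add`; induction over the finset, coefficients of a sum). `trE (hpe * b)` is `trE b = 1` if `b` is `IsDZ` (`hpe_mul_dz`, `trE_dz`) and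
`0` otherwise (`hpe_nonDZ`, `trE_nilpotent` of R2b with `H = ⊤`: `hpe * b` is central by `hpe_mem`). The number of the `b ∈ Bl` with `IsDZ` is the `Nat.card` on the right
(`f * c = f ↔ f * c ≠ 0` for blocks).
-/

namespace Pool.Agent.Lib.P0c8ca5

open MonoidAlgebra

set_option linter.unusedSectionVars false

variable {p : ℕ} {k : Type*} [Field k] {A : Type*} [Group A] [Fintype A]
variable [Fact p.Prime] [CharP k p] [IsAlgClosed k]

namespace TDzBAux

omit [Fact p.Prime] [CharP k p] [IsAlgClosed k] in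
theorem trE_zero (H : Subgroup A) :
    trE k H (fun x => (0 : MonoidAlgebra k A).coeff x) = 0 := by
  have h := trE_smul (k := k) H 0 (fun x : A => (0 : MonoidAlgebra k A).coeff x)
  rw [zero_mul] at h
  rw [← h]
  congr 1
  funext x
  rw [zero_mul, coeff_zero]
  rfl

omit [Fact p.Prime] [CharP k p] [IsAlgClosed k] in
theorem trE_sum (H : Subgroup A) {ι : Type*} (S : Finset ι) (F : ι → MonoidAlgebra k A) :
    trE k H (fun x => (∑ i ∈ S, F i).coeff x) = ∑ i ∈ S, trE k H (fun x => (F i).coeff x) := by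
  classical
  induction S using Finset.induction_on with
  | empty => rw [Finset.sum_empty, Finset.sum_empty, trE_zero]
  | insert a S ha ih =>
    rw [Finset.sum_insert ha, Finset.sum_insert ha, ← ih, ← trE_add]
    congr 1

end TDzBAux

theorem trE_hpe {c : MonoidAlgebra k A} (hc : c ∈ fixAlg k (⊤ : Subgroup A) ⊤)
    (hcc : c * c = c) : trE k (⊤ : Subgroup A) (fun x => (hpe p k A * c).coeff x)
      = (Nat.card {f : MonoidAlgebra k A | IsDZ p (⊤ : Subgroup A) f ∧ f * c = f} : k) := by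
  classical
  have hfin : {b : MonoidAlgebra k A | IsBlock (⊤ : Subgroup A) b ∧ b * c ≠ 0}.Finite :=
    (finite_isBlock (k := k) (⊤ : Subgroup A)).subset (fun b hb => hb.1)
  have hB : ∀ b, b ∈ hfin.toFinset ↔ IsBlock (⊤ : Subgroup A) b ∧ b * c ≠ 0 := by
    intro b
    rw [Set.Finite.mem_toFinset]
    rfl
  generalize hfin.toFinset = B at hB
  have hmul : ∀ b ∈ B, b * c = b := by
    intro b hb
    obtain ⟨h1, h2⟩ := (hB b).1 hb
    rcases h1.mul_eq hc hcc with h | h
    · exact absurd (by rw [commute_of h1.suppIn (mem_fixAlg.1 hc).2, h]) h2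
    · rw [commute_of h1.suppIn (mem_fixAlg.1 hc).2, h]
  have hsum := WSumAux.sum_blocks (p := p) hc hcc B hB
  have h1 : hpe p k A * c = ∑ b ∈ B, hpe p k A * b := by
    rw [← hsum, Finset.mul_sum]
  have h2 : ∀ b ∈ B, trE k (⊤ : Subgroup A) (fun x => (hpe p k A * b).coeff x)
      = if IsDZ p (⊤ : Subgroup A) b then 1 else 0 := by
    intro b hb
    obtain ⟨hb1, _⟩ := (hB b).1 hb
    split_ifs with hdz
    · rw [hpe_mul_dz hdz]
      exact trE_dz hdz
    · have hm : hpe p k A * b ∈ fixAlg k (⊤ : Subgroup A) ⊤ :=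
        (fixAlg k (⊤ : Subgroup A) ⊤).mul_mem hpe_mem hb1.mem
      exact trE_nilpotent (p := p) (mem_fixAlg.1 hm).1 (mem_fixAlg.1 hm).2 (hpe_nonDZ hb1 hdz)
  rw [h1, TDzBAux.trE_sum, Finset.sum_congr rfl h2, Finset.sum_boole]
  congr 1
  have h3 : {f : MonoidAlgebra k A | IsDZ p (⊤ : Subgroup A) f ∧ f * c = f}
      = ((B.filter (fun b => IsDZ p (⊤ : Subgroup A) b) : Finset (MonoidAlgebra k A)) :
        Set (MonoidAlgebra k A)) := by
    ext f
    rw [Finset.mem_coe, Finset.mem_filter, hB, Set.mem_ofPred_eq]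
    constructor
    · rintro ⟨h4, h5⟩
      refine ⟨⟨h4.blk, ?_⟩, h4⟩
      rw [h5]
      exact h4.blk.ne_zero
    · rintro ⟨h4, h5⟩
      exact ⟨h5, hmul f ((hB f).2 h4)⟩
  rw [Nat.card_coe_set_eq, h3, Set.ncard_coe_finset]

end Pool.Agent.Lib.P0c8ca5
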