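import Mathlib
import Pool.Agent.Lib.P0c8ca5V.RelW
import Pool.Agent.Lib.P0c8ca5Bx.PC
import Pool.Agent.Lib.P0c8ca5Bx.ABb

/-! The pairs version of `RelW`: classes of groups and families of weights. -/

namespace Pool.Agent.Lib.P0c8ca5

open MonoidAlgebra Bx

universe u v

namespace RelW2Aux

open DCAux

section
variable {p : ℕ} {A : Type u} [Group A]

open Classical in
/-- the sum over the pairs with `O^p(gn t) = H` -/
noncomputable def FG (p : ℕ) (f : A → ℤ) (H : Subgroup A) : ℤ :=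
  ∑ᶠ t : A × A, (if Opr p (gn t) = H then f (cmt t.1 t.2)⁻¹ * fK p (gn t) else 0)

/-- conjugation of pairs -/
def cjE (g : A) : A × A ≃ A × A :=
  (MulAut.conj g).toEquiv.prodCongr (MulAut.conj g).toEquiv

theorem cjE_eq (g : A) (t : A × A) : cjE g t = cj2 g t := rfl

theorem FG_cg [Fact p.Prime] [Finite A] {f : A → ℤ} (hf : CF f) (g : A) (H : Subgroup A) :
    FG p f (cg g H) = FG p f H := by
  classical
  unfold FG
  rw [← finsum_comp_equiv (cjE g)]
  refine finsum_congr (fun t => ?_)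
  rw [cjE_eq, gn_cj2, Opr_cg, fK_conj]
  have h : cg g (Opr p (gn t)) = cg g H ↔ Opr p (gn t) = H := by
    constructor
    · intro h
      have := congrArg (cg g⁻¹) h
      rwa [cg_cg, cg_cg, inv_mul_cancel, cg_one, cg_one] at this
    · intro h
      rw [h]
  have h1 : f (cmt (cj2 g t).1 (cj2 g t).2)⁻¹ = f (cmt t.1 t.2)⁻¹ := by
    have h2 : (cmt (cj2 g t).1 (cj2 g t).2)⁻¹ = g * (cmt t.1 t.2)⁻¹ * g⁻¹ := by
      unfold cmt cj2
      group
    rw [h2, hf]
  rw [h1]
  exact if_congr h rfl rfl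

theorem sum_FG [Finite A] (f : A → ℤ) : eE p f = ∑ᶠ H : Subgroup A, FG p f H := by
  classical
  have := Fintype.ofFinite A
  have := Fintype.ofFinite (Subgroup A)
  rw [eE_eq]
  simp only [FG, finsum_eq_sum_of_fintype]
  rw [Finset.sum_comm]
  refine Finset.sum_congr rfl (fun t _ => ?_)
  rw [Finset.sum_ite_eq]
  simp

/-- the term `H = O^p(A)` -/
theorem FG_top [Fact p.Prime] [Finite A] (f : A → ℤ) (hA : NoP p (⊤ : Subgroup A)) :
    FG p f (Opr p ⊤) = bQ p (⊤ : Subgroup A) f := by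
  classical
  unfold FG bQ
  refine finsum_congr (fun t => ?_)
  have h : Opr p (gn t) = Opr p ⊤ ↔ (gn t ≤ ⊤ ∧ Opr p ⊤ ≤ gn t) := by
    constructor
    · intro h
      exact ⟨le_top, h ▸ Opr_le _⟩
    · rintro ⟨-, h⟩
      exact Opr_eq_of_le h le_top
  by_cases h1 : Opr p (gn t) = Opr p ⊤
  · rw [if_pos h1, if_pos (h.1 h1), fK_one, mul_one]
    intro R hR hn
    exact norm_trivial hA le_top hR ((h.1 h1).2.trans hn)
  · rw [if_neg h1, if_neg (fun h2 => h1 (h.2 h2))]

/-- `eE` is additive -/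
theorem eE_sf [Finite A] [Fact p.Prime] {m : A → ℤ} (hm : IsWt p ⊤ m) :
    eE p (sf p m) = eE p (pf p m) - eE p m := by
  have := Fintype.ofFinite A
  rw [eE_eq, eE_eq, eE_eq, finsum_eq_sum_of_fintype, finsum_eq_sum_of_fintype,
    finsum_eq_sum_of_fintype, ← Finset.sum_sub_distrib]
  refine Finset.sum_congr rfl fun t _ => ?_
  rw [sf_eq hm, sub_mul]

end

section
variable {C : ∀ (G : Type u) [Group G], Prop} {W : ∀ (G : Type u) [Group G], (G → ℤ) → Prop}
  {p : ℕ}

open RelAux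

theorem keyW2 [Fact p.Prime] (hC : SecCl C) (hW : WFam p W)
    (H : ∀ (G : Type u) [Group G] [Finite G], C G → ∀ (m : G → ℤ), W G m →
      (p : ℤ) * (Nat.card G : ℤ) ∣ eE p (sf p m)) :
    ∀ n : ℕ, ∀ (G : Type u) [Group G] [Finite G] (m : G → ℤ), Nat.card G = n → C G →
        W G m → NoP p (⊤ : Subgroup G) →
        (p : ℤ) * (ordProj[p] (Nat.card G) : ℕ) ∣ bQ p (⊤ : Subgroup G) (sf p m) := by
  intro n
  induction n using Nat.strong_induction_on with
  | _ n ih =>
  intro G _ _ m hn hCG hWm hG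
  classical
  have hm := hW.wt G m hWm
  have hf : CF (sf p m) := CF_sf (CF_of_wt hm)
  have := Fintype.ofFinite (Subgroup G)
  have h1 : (p : ℤ) * (ordProj[p] (Nat.card G) : ℕ) ∣ ∑ᶠ H : Subgroup G, FG p (sf p m) H := by
    rw [← sum_FG]
    refine dvd_trans (mul_dvd_mul_left _ ?_) (H G hCG m hWm)
    exact_mod_cast Nat.ordProj_dvd (Nat.card G) p
  have h2 : (p : ℤ) * (ordProj[p] (Nat.card G) : ℕ) ∣
      ∑ᶠ H : Subgroup G, (if H = Opr p ⊤ then 0 else FG p (sf p m) H) := by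
    refine sub_dvd_p _ ?_ _ ?_
    · intro g U
      have h3 : cg g U = Opr p ⊤ ↔ U = Opr p ⊤ := by
        constructor
        · intro h
          have := congrArg (cg g⁻¹) h
          rwa [cg_cg, inv_mul_cancel, cg_one, cg_Opr_top] at this
        · intro h
          rw [h, cg_Opr_top]
      simp only [h3, FG_cg hf]
    · intro K
      split_ifs with hK
      · exact dvd_zero _
      · refine sum_H2 hf (fun U hU hU2 => ?_)
        have hlt : Nat.card U < n := by
          rw [← hn]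
          refine lt_of_le_of_ne (Subgroup.card_le_card_group U) ?_
          intro h
          have : U = ⊤ := Subgroup.eq_top_of_card_eq U h
          exact hK (by rw [← hU, this])
        have := ih _ hlt (↥U) (fun x : ↥U => m x) rfl (cSub hC hCG U) (hW.sub G m hWm U)
          ((NoP_dn U).2 hU2)
        rwa [sf_dn, bQ_dn] at this
  have h4 : ∑ᶠ H : Subgroup G, FG p (sf p m) H =
      (∑ᶠ H : Subgroup G, (if H = Opr p ⊤ then 0 else FG p (sf p m) H))
        + FG p (sf p m) (Opr p ⊤) := by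
    rw [finsum_eq_sum_of_fintype, finsum_eq_sum_of_fintype,
      ← Finset.sum_erase_add _ _ (Finset.mem_univ (Opr p (⊤ : Subgroup G))),
      ← Finset.sum_erase_add (Finset.univ : Finset (Subgroup G))
        (fun H => if H = Opr p ⊤ then 0 else FG p (sf p m) H)
        (Finset.mem_univ (Opr p (⊤ : Subgroup G)))]
    simp only [if_true, add_zero]
    congr 1
    refine Finset.sum_congr rfl (fun K hK => ?_)
    rw [if_neg (Finset.ne_of_mem_erase hK)]
  rw [h4] at h1
  rw [← FG_top _ hG]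
  exact (dvd_add_right h2).1 h1

end

end RelW2Aux

open RelAux RelWAux RelW2Aux

theorem nE_dvd_cf {A : Type u} [Group A] [Finite A] (H : Subgroup A) {m : A → ℤ} (hm : CF m) :
    (Nat.card H : ℤ) ∣ nE H m := by
  classical
  have h1 : nE H m = ∑ᶠ t : ↥H × ↥H, m ((cmt (t.1 : A) (t.2 : A))⁻¹) := by
    have _ := Fintype.ofFinite A
    unfold nE
    simp only [finsum_eq_sum_of_fintype]
    rw [← Finset.sum_filter]
    exact Finset.sum_bij' (fun t ht => (⟨t.1, (Finset.mem_filter.1 ht).2.1⟩,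
        ⟨t.2, (Finset.mem_filter.1 ht).2.2⟩)) (fun t _ => ((t.1 : A), (t.2 : A)))
      (fun _ _ => Finset.mem_univ _)
      (fun t _ => Finset.mem_filter.2 ⟨Finset.mem_univ _, t.1.2, t.2.2⟩) (fun _ _ => rfl)
      (fun _ _ => rfl) (fun _ _ => rfl)
  rw [h1, comm_sum H (fun x => m x⁻¹) (fun h _ x => by
    rw [← hm h x⁻¹]; congr 1; group)]
  exact Dvd.intro _ rfl

theorem eE_dvd_cf {p : ℕ} [Fact p.Prime] {A : Type u} [Group A] [Finite A] {m : A → ℤ}
    (hm : CF m) : (Nat.card A : ℤ) ∣ eE p m := by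
  have h := chS_dvd (p := p) (fun U : Subgroup A => nE U m)
    (fun g U => nE_conj U g (fun x => hm g x)) 1
    (fun σ _ => by rw [one_mul]; exact nE_dvd_cf (sN σ) hm)
  rwa [one_mul] at h

/-- from `|A|_p` to `|A|` -/
theorem eE_full {p : ℕ} [Fact p.Prime] {A : Type u} [Group A] [Finite A] {f : A → ℤ} (hf : CF f)
    (h1 : (p : ℤ) * (ordProj[p] (Nat.card A) : ℕ) ∣ eE p f) :
    (p : ℤ) * (Nat.card A : ℤ) ∣ eE p f := by
  have h2 : (Nat.card A : ℤ) ∣ eE p f := eE_dvd_cf hf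
  have h3 : ((ordCompl[p] (Nat.card A) : ℕ) : ℤ) ∣ eE p f :=
    dvd_trans (by exact_mod_cast Nat.ordCompl_dvd (Nat.card A) p) h2
  have h4 : IsCoprime ((p : ℤ) * (ordProj[p] (Nat.card A) : ℕ))
      ((ordCompl[p] (Nat.card A) : ℕ) : ℤ) := by
    have h5 : Nat.Coprime (p * ordProj[p] (Nat.card A)) (ordCompl[p] (Nat.card A)) := by
      have h6 := Nat.coprime_ordCompl (Fact.out : p.Prime) (Nat.card_pos (α := A)).ne'
      rw [Nat.coprime_mul_iff_left]
      exact ⟨h6, h6.pow_left _⟩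
    have := h5.isCoprime
    exact_mod_cast this
  have h7 := h4.mul_dvd h1 h3
  have h8 : (p : ℤ) * (ordProj[p] (Nat.card A) : ℕ) * ((ordCompl[p] (Nat.card A) : ℕ) : ℤ)
      = (p : ℤ) * (Nat.card A : ℤ) := by
    rw [mul_assoc]
    congr 1
    exact_mod_cast Nat.ordProj_mul_ordCompl_eq_self (Nat.card A) p
  rwa [h8] at h7

/-- The difference of the two sides and the pairs, inside a class of groups and a family of
weights. -/
theorem relW2 {C : ∀ (G : Type u) [Group G], Prop} (hC : SecCl C) {p : ℕ} [Fact p.Prime]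
    {W : ∀ (G : Type u) [Group G], (G → ℤ) → Prop} (hW : WFam p W) :
    (∀ (G : Type u) [Group G] [Finite G], C G → ∀ (m : G → ℤ), W G m →
      (p : ℤ) * (Nat.card G : ℤ) ∣ nL p (⊤ : Subgroup G) m - wS p m) ↔
    (∀ (G : Type u) [Group G] [Finite G], C G → NoP p (⊤ : Subgroup G) → ∀ (m : G → ℤ),
      W G m → (p : ℤ) * (ordProj[p] (Nat.card G) : ℕ) ∣ bQ p (⊤ : Subgroup G) (sf p m)) := by
  constructor
  · intro h G _ _ hCG hG m hWm
    refine keyW2 hC hW (fun G _ _ hCG m hWm => ?_) _ G m rfl hCG hWm hG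
    have hm := hW.wt G m hWm
    have e3 := forthW hC hW h _ G rfl hCG m hWm
    have e1 := eE_eL (p := p) hm
    have e2 := nA_eA (p := p) hm
    have e5 := eA_pf (p := p) hm
    rw [eE_sf hm]
    have e4 : eE p (pf p m) - eE p m
        = -((nA p (⊤ : Subgroup G) m - eA p m) + (eE p m - eL p m)
          + (eL p m - nA p (⊤ : Subgroup G) m)) - (eA p m - eE p (pf p m)) := by ring
    rw [e4]
    refine dvd_sub ?_ e5
    rw [dvd_neg]
    exact dvd_add (dvd_add e2 e1) e3
  · intro h G _ _ hCG m hWm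
    have hm := hW.wt G m hWm
    rw [CCAux.diff_eq hm]
    refine sub_dvd (CCAux.FF p m) (fun g U => CCAux.FF_cg hm g U) (p : ℤ) fun Q => ?_
    refine CCAux.FF_dvd Q fun hQ => ?_
    have hWQ := hW.mb G m hWm Q hQ
    have hm1 : IsWt p (⊤ : Subgroup (NQ Q)) (mb Q m) := hW.wt _ _ hWQ
    have hf : CF (sf p (mb Q m)) := CF_sf (CF_of_wt hm1)
    have h1 := eE_full hf (eE_of_bQ hf (fun U hU => by
      have h2 := h ↥U (cSub hC (cNQ hC hCG Q) U) ((NoP_dn U).2 hU) _ (hW.sub _ _ hWQ U)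
      rwa [sf_dn, bQ_dn] at h2))
    rw [eE_sf hm1] at h1
    have e1 := eE_eL (p := p) hm1
    have e2 := nA_eA (p := p) hm1
    have e5 := eA_pf (p := p) hm1
    have e4 : eL p (mb Q m) - nA p (⊤ : Subgroup (NQ Q)) (mb Q m)
        = -((nA p (⊤ : Subgroup (NQ Q)) (mb Q m) - eA p (mb Q m))
          + (eE p (mb Q m) - eL p (mb Q m))
          + ((eA p (mb Q m) - eE p (pf p (mb Q m)))
            + (eE p (pf p (mb Q m)) - eE p (mb Q m)))) := by ring
    rw [e4, dvd_neg]
    exact dvd_add (dvd_add e2 e1) (dvd_add e5 h1)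

end Pool.Agent.Lib.P0c8ca5
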