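import Mathlib
import Pool.Agent.Lib.P0c8ca5.WtEquiv
import Pool.Agent.Lib.P0c8ca5N.Gap

/-! The two sides of Navarro's equality modulo p. -/

namespace Pool.Agent.Lib.P0c8ca5

open MonoidAlgebra

namespace GapMAux

/-- a p-group acting: the number of fixed points modulo p -/
theorem fix_mod {p : ℕ} [Fact p.Prime] {A X : Type*} [Group A] [MulAction A X] [Finite X]
    {G : Subgroup A} [G.Normal] (hp : IsPGroup p (A ⧸ G))
    (hG : ∀ x : X, G ≤ MulAction.stabilizer A x) :
    Nat.card X ≡ Nat.card {x : X // (⊤ : Subgroup A) ≤ MulAction.stabilizer A x} [MOD p] := by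
  let φ : A ⧸ G →* Equiv.Perm X := QuotientGroup.lift G (MulAction.toPermHom A X) (by
    intro g hg
    refine Equiv.ext fun x => ?_
    exact hG x hg)
  let _ : MulAction (A ⧸ G) X := MulAction.compHom X φ
  have hsm : ∀ (a : A) (x : X), (QuotientGroup.mk a : A ⧸ G) • x = a • x := fun a x => rfl
  have h1 := hp.card_modEq_card_fixedPoints X
  have h2 : Nat.card (MulAction.fixedPoints (A ⧸ G) X)
      = Nat.card {x : X // (⊤ : Subgroup A) ≤ MulAction.stabilizer A x} := by
    refine Nat.card_congr (Equiv.subtypeEquivRight fun x => ?_)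
    rw [MulAction.mem_fixedPoints]
    constructor
    · intro h a _
      exact (hsm a x).symm.trans (h _)
    · intro h y
      obtain ⟨a, rfl⟩ := QuotientGroup.mk_surjective y
      exact (hsm a x).trans (h (Subgroup.mem_top a))
  rwa [h2] at h1

variable {p : ℕ} {k : Type*} [Field k] {A : Type*} [Group A]
variable [Fintype A] [Fact p.Prime] [CharP k p] [IsAlgClosed k] {G : Subgroup A}
  [hG : G.Normal] {e : MonoidAlgebra k A}

/-- the gap in terms of the two actions -/
theorem gap_fixed {H : Subgroup A} (hGH : G ≤ H)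
    (hp : ∀ x : A, ∃ n : ℕ, x ^ p ^ n ∈ G)
    (he : IsBlock G e) (hinv : InvBy ⊤ e) [Fintype (IrX G e)] [Fintype (WtC p G e)] :
    gap p G H e = (Nat.card {x : IrX G e // H ≤ stX (G := G) hinv x} : ℚ)
      - (Nat.card {x : WtC p G e // H ≤ stZ (p := p) he hinv x} : ℚ) := by
  classical
  have : Fintype (Subgroup A) := Fintype.ofFinite _
  have : Fintype (PT p G e) := Fintype.ofFinite _
  have hn : H ≤ Subgroup.normalizer (G : Set A) := fun x _ => mem_norm_of_normal G x
  obtain ⟨T, hT1, hT2⟩ := exists_transversal H (Theta p G H e)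
  rw [gap_eq hGH hn (fun x _ => hp x) he (hinv.mono le_top) T hT1 hT2]
  let S : Finset (Subgroup A) := Finset.univ.filter (fun Q => Q ∈ Supp p G H)
  have hS : ∀ Q, Q ∈ S ↔ Q ∈ Supp p G H := by
    intro Q; simp [S]
  have h1 := sum_DZ_supp hGH hn (fun x _ => hp x) he (hinv.mono le_top) T hT1 hT2 S hS
  have h2 := cnt_stP (p := p) (le_refl G) hGH hp he.suppIn hinv he.idem S hS
  rw [← h2, cnt_weights hGH hn he hinv, ← cnt_stZ (le_refl G) hGH hn he hinv,
    cnt_fixed hGH (fun x => G_le_stZ he hinv x)] at h1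
  have h3 := cnt_stX (p := p) (le_refl G) hGH hn hp he.suppIn hinv he.idem
  rw [cnt_fixed hGH (fun x => G_le_stX hinv x)] at h3
  have h4 := Nat.eq_of_mul_eq_mul_left Nat.card_pos h1
  have h5 := Nat.eq_of_mul_eq_mul_left Nat.card_pos h3
  rw [h4, h5]

end GapMAux

open GapMAux

/-- The difference of the two sides of Navarro's equality is congruent modulo `p` to the difference
of the two sides of the blockwise Alperin weight conjecture. -/
theorem gap_mod {p : ℕ} {k : Type*} [Field k] {A : Type*} [Group A] [Finite A] [Fact p.Prime]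
    [CharP k p] [IsAlgClosed k] {G : Subgroup A} [hG : G.Normal] (hp : IsPGroup p (A ⧸ G))
    {e : MonoidAlgebra k A} (he : IsBlock G e) (hinv : InvBy ⊤ e) :
    ∃ t : ℤ, gap p G ⊤ e = gap p G G e + (p : ℚ) * t := by
  classical
  have : Fintype A := Fintype.ofFinite A
  have hp' : ∀ x : A, ∃ n : ℕ, x ^ p ^ n ∈ G := by
    intro x
    obtain ⟨n, hn⟩ := hp (QuotientGroup.mk x)
    refine ⟨n, ?_⟩
    rwa [← QuotientGroup.mk_pow, QuotientGroup.eq_one_iff] at hn
  have hfinW : Finite (Wt p G e) := finite_Wt he hinv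
  have : Finite (IrX G e) := inferInstance
  have : Fintype (IrX G e) := Fintype.ofFinite _
  have : Fintype (WtC p G e) := Fintype.ofFinite _
  rw [gap_fixed (le_top : G ≤ ⊤) hp' he hinv, gap_fixed (le_refl G) hp' he hinv]
  let _ := actX (G := G) hinv
  let _ := actZ (p := p) he hinv
  have h1 : Nat.card (IrX G e) ≡
      Nat.card {x : IrX G e // (⊤ : Subgroup A) ≤ stX (G := G) hinv x} [MOD p] :=
    fix_mod hp (fun x => G_le_stX hinv x)
  have h2 : Nat.card (WtC p G e) ≡
      Nat.card {x : WtC p G e // (⊤ : Subgroup A) ≤ stZ (p := p) he hinv x} [MOD p] :=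
    fix_mod hp (fun x => G_le_stZ he hinv x)
  have e1 : Nat.card {x : IrX G e // G ≤ stX (G := G) hinv x} = Nat.card (IrX G e) :=
    Nat.card_congr (Equiv.subtypeUnivEquiv (fun x => G_le_stX hinv x))
  have e2 : Nat.card {x : WtC p G e // G ≤ stZ (p := p) he hinv x} = Nat.card (WtC p G e) :=
    Nat.card_congr (Equiv.subtypeUnivEquiv (fun x => G_le_stZ he hinv x))
  rw [e1, e2]
  obtain ⟨s, hs⟩ := (Nat.modEq_iff_dvd).1 h1
  obtain ⟨t, ht⟩ := (Nat.modEq_iff_dvd).1 h2
  refine ⟨s - t, ?_⟩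
  have hs' : ((Nat.card {x : IrX G e // (⊤ : Subgroup A) ≤ stX (G := G) hinv x} : ℤ) : ℚ)
      - ((Nat.card (IrX G e) : ℤ) : ℚ) = (p : ℚ) * s := by
    have := congrArg (Int.cast : ℤ → ℚ) hs
    push_cast at this ⊢
    linarith
  have ht' : ((Nat.card {x : WtC p G e // (⊤ : Subgroup A) ≤ stZ (p := p) he hinv x} : ℤ) : ℚ)
      - ((Nat.card (WtC p G e) : ℤ) : ℚ) = (p : ℚ) * t := by
    have := congrArg (Int.cast : ℤ → ℚ) ht
    push_cast at this ⊢
    linarith
  push_cast at hs' ht' ⊢
  linarith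

end Pool.Agent.Lib.P0c8ca5
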