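import Mathlib
import Pool.Agent.Lib.P0c8ca5N.TrC

/-! The gap and the transport to a subgroup as a group. -/

namespace Pool.Agent.Lib.P0c8ca5

open MonoidAlgebra

variable {p : ℕ} {k : Type*} [Field k] {A : Type*} [Group A]

theorem gap_transport [Fact p.Prime] [CharP k p] [IsAlgClosed k] [Finite A]
    {H : Subgroup A} {b : MonoidAlgebra k A} (hb : IsBlock H b) :
    gap p (⊤ : Subgroup ↥H) ⊤ (dn H b) = gap p H H b := by
  classical
  have : Fintype A := Fintype.ofFinite A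
  have : Fintype ↥H := Fintype.ofFinite _
  have : Fintype (Subgroup A) := Fintype.ofFinite _
  have : Fintype (Subgroup ↥H) := Fintype.ofFinite _
  have hb' := dn_isBlock hb
  obtain ⟨T, hT1, hT2⟩ := exists_transversal H (Theta p H H b)
  obtain ⟨T', hT1', hT2'⟩ := exists_transversal (⊤ : Subgroup ↥H)
    (Theta p (⊤ : Subgroup ↥H) ⊤ (dn H b))
  let D : Finset (Subgroup A) := Finset.univ.filter (fun Q => Q ∈ Supp p H H)
  have hD : ∀ Q, Q ∈ D ↔ Q ∈ Supp p H H := by intro Q; simp [D]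
  let D' : Finset (Subgroup ↥H) := Finset.univ.filter (fun Q => Q ∈ Supp p ⊤ ⊤)
  have hD' : ∀ Q, Q ∈ D' ↔ Q ∈ Supp p (⊤ : Subgroup ↥H) ⊤ := by intro Q; simp [D']
  have hp : ∀ x ∈ H, ∃ n : ℕ, x ^ p ^ n ∈ H := fun x hx => ⟨0, by simpa using hx⟩
  have hp' : ∀ x ∈ (⊤ : Subgroup ↥H), ∃ n : ℕ, x ^ p ^ n ∈ (⊤ : Subgroup ↥H) :=
    fun x hx => ⟨0, trivial⟩
  have h1 := sum_DZ_supp (le_refl H) Subgroup.le_normalizer hp hb hb.invBy T hT1 hT2 D hD
  have h2 := sum_DZ_supp (le_refl (⊤ : Subgroup ↥H)) Subgroup.le_normalizer hp' hb'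
    hb'.invBy T' hT1' hT2' D' hD'
  have h4 : ∑ Q ∈ D', Nat.card ↥((⊤ : Subgroup ↥H) ⊓ Subgroup.normalizer (Q : Set ↥H))
          * Nat.card {f : MonoidAlgebra k (NQ Q) | IsDZ p (sec ⊤ Q) f ∧
            f * proj Q (dn H b) = f}
      = ∑ Q ∈ D, Nat.card ↥(H ⊓ Subgroup.normalizer (Q : Set A))
          * Nat.card {f : MonoidAlgebra k (NQ Q) | IsDZ p (sec H Q) f ∧ f * proj Q b = f} := by
    refine Finset.sum_bij (fun Q _ => Q.map H.subtype) ?_ ?_ ?_ ?_
    · intro Q hQ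
      rw [hD'] at hQ
      rw [hD]
      refine ⟨?_, hQ.2.1.map _, ?_⟩
      · intro x hx
        obtain ⟨y, _, rfl⟩ := hx
        exact y.2
      · apply le_antisymm
        · apply sup_le (le_refl H)
          intro x hx
          obtain ⟨y, _, rfl⟩ := hx
          exact y.2
        · exact le_sup_left
    · intro Q _ Q' _ h
      exact Subgroup.map_injective H.subtype_injective h
    · intro Q hQ
      rw [hD] at hQ
      refine ⟨Q.subgroupOf H, ?_, ?_⟩
      · rw [hD']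
        refine ⟨le_top, hQ.2.1.comap_of_injective _ H.subtype_injective, ?_⟩
        rw [top_sup_eq]
      · rw [Subgroup.subgroupOf_map_subtype]
        exact inf_eq_left.2 hQ.1
    · intro Q _
      rw [dn_normalizer, dn_card_dz (p := p) H hb.suppIn Q]
  rw [h4, ← h1, Subgroup.card_top] at h2
  have h5 := Nat.eq_of_mul_eq_mul_left Nat.card_pos h2
  rw [gap_eq (le_refl H) Subgroup.le_normalizer hp hb hb.invBy T hT1 hT2,
    gap_eq (le_refl (⊤ : Subgroup ↥H)) Subgroup.le_normalizer hp' hb' hb'.invBy T' hT1' hT2',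
    h5, card_irr_eq, dn_card_irr, card_irr_eq]

end Pool.Agent.Lib.P0c8ca5
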