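import Pool.Agent.Lib.P0c8ca5V.TDefs
import Pool.Agent.Lib.P0c8ca5N.ChC
import Pool.Agent.Lib.P0c8ca5N.TrDef

/-!
# TOsi (1 h): central idempotents are supported on the p-regular elements (Osima)

PROOF. Let `s = pr p x`, `u = x * s⁻¹`: a p-element (`exists_pow_mul_inv_pr`) that commutes with `x` and `s`
(`s` is a power of `x`). Suppose `¬ Preg p x`; then `u ≠ 1` (`preg_pr`). Let `D = zpowers u` (a p-group), `C = centralizer D`
(`x, s, u ∈ C`). Let `e' = resS (C : Set A) e` (`resS`, `coeff_resS_of_mem`, P0c8ca5.Basic) and `e'' = dn C e'` in `k[↥C]`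
(`dn` in P0c8ca5N.TrDef, `coeff_dn`; or any direct definition): `e' * e' = e'` by `resS_mul` (D is a p-group, `e` is D-invariant),
so `e'' * e'' = e''` (`dn` is multiplicative on elements supported in `C`, or argue with coefficients), and `e''` commutes with
`single s⁻¹ 1`. Let `q = uexp p A = p ^ n`, so `y ^ q = pr p y` in `A`; `s ^ q = s` (`pr_pr`/`pr_eq_self`). Then
`(e'' * single s⁻¹ 1) ^ q = e'' * single s⁻¹ 1` (commuting factors, `e''` idempotent). Apply `Fl_pow` (P0c8ca5N.ChC; `Fl φ a = ∑ a.coeff x * φ x`)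
in the group `↥C` with `φ` = indicator of `{u}`, a class function because `u` is central in `C`: the right side is `0` because
`g ^ q` is p-regular (`preg_pr`) and `u` is not (`u ≠ 1` is a p-element: `pr_of_pow`, `pr_eq_self`). The left side is the coefficient of
`e'' * single s⁻¹ 1` at `u`, that is `e.coeff (u * s) = e.coeff x`.
-/

namespace Pool.Agent.Lib.P0c8ca5

open MonoidAlgebra

set_option linter.unusedSectionVars false

variable {p : ℕ} {k : Type*} [Field k] {A : Type*} [Group A] [Finite A]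

namespace TOsiAux

/-- `dn` is multiplicative if the first factor is supported in the subgroup -/
theorem dn_mul_supp [Fintype A] (C : Subgroup A) (a b : MonoidAlgebra k A)
    (ha : ∀ x, x ∉ C → a.coeff x = 0) : dn C (a * b) = dn C a * dn C b := by
  classical
  ext x
  rw [coeff_dn, coeff_mul_fin, coeff_mul_fin]
  symm
  refine Finset.sum_of_injOn (fun y : ↥C => (y : A)) (fun y _ z _ h => Subtype.ext h)
    (fun y _ => Finset.mem_coe.2 (Finset.mem_univ _)) ?_ ?_
  · intro y _ hy
    rw [ha y, zero_mul]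
    intro hyC
    exact hy ⟨⟨y, hyC⟩, Finset.mem_coe.2 (Finset.mem_univ _), rfl⟩
  · intro y _
    rw [coeff_dn, coeff_dn]
    rfl

end TOsiAux

theorem osima [Fact p.Prime] [CharP k p] {e : MonoidAlgebra k A}
    (he : e ∈ fixAlg k (⊤ : Subgroup A) ⊤) (hee : e * e = e) {x : A} (hx : e.coeff x ≠ 0) :
    Preg p x := by
  classical
  cases nonempty_fintype A
  have hpp : p.Prime := Fact.out
  obtain ⟨-, hinv⟩ := mem_fixAlg.1 he
  by_contra hnp
  obtain ⟨m, hm⟩ := exists_pow_mul_inv_pr (p := p) x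
  have hxs : Commute x (pr p x) := (Commute.refl x).pow_right _
  have hss : Commute (pr p x) (pr p x) := Commute.refl _
  obtain ⟨s, hs⟩ : ∃ s, s = pr p x := ⟨_, rfl⟩
  rw [← hs] at hm hxs hss
  obtain ⟨u, hu⟩ : ∃ u, u = x * s⁻¹ := ⟨_, rfl⟩
  rw [← hu] at hm
  have hu1 : u ≠ 1 := by
    intro h
    rw [h] at hu
    have h2 : x = s := by
      have := hu.symm
      rwa [mul_inv_eq_one] at this
    exact hnp (by rw [h2, hs]; exact preg_pr x)
  have hux : Commute u x := by
    rw [hu]; exact (Commute.refl x).mul_left hxs.symm.inv_left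
  have hus : Commute u s := by
    rw [hu]; exact hxs.mul_left (Commute.refl s).inv_left
  have husx : u * s = x := by rw [hu]; group
  have hD : IsPGroup p (Subgroup.zpowers u) := by
    rintro ⟨g, hg⟩
    obtain ⟨j, hj⟩ := Subgroup.mem_zpowers_iff.1 hg
    refine ⟨m, Subtype.ext ?_⟩
    change g ^ p ^ m = 1
    rw [← hj, ← zpow_natCast, ← zpow_mul, mul_comm, zpow_mul, zpow_natCast, hm, one_zpow]
  obtain ⟨C, hC⟩ : ∃ C : Subgroup A, C = Subgroup.centralizer (Subgroup.zpowers u : Set A) :=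
    ⟨_, rfl⟩
  have hCmem : ∀ g : A, Commute u g → g ∈ C := by
    intro g hg
    rw [hC, Subgroup.mem_centralizer_iff]
    intro h hh
    obtain ⟨j, hj⟩ := Subgroup.mem_zpowers_iff.1 hh
    rw [← hj]
    exact (hg.zpow_left j).eq
  have huC : u ∈ C := hCmem u (Commute.refl u)
  have hsC : s ∈ C := hCmem s hus
  have hcen : ∀ g ∈ C, u * g = g * u := by
    intro g hg
    rw [hC, Subgroup.mem_centralizer_iff] at hg
    exact hg u (Subgroup.mem_zpowers u)
  have hinvD : InvBy (Subgroup.zpowers u) e := hinv.mono le_top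
  have he' : resS (C : Set A) e * resS (C : Set A) e = resS (C : Set A) e := by
    have h := resS_mul (p := p) hD hinvD hinvD
    rw [hee, ← hC] at h
    exact h.symm
  obtain ⟨f, hf⟩ : ∃ f : MonoidAlgebra k ↥C, f = dn C (resS (C : Set A) e) := ⟨_, rfl⟩
  have hfc : ∀ y : ↥C, f.coeff y = e.coeff (y : A) := by
    intro y
    rw [hf, coeff_dn, coeff_resS_of_mem _ y.2]
  have hff : f * f = f := by
    rw [hf, ← TOsiAux.dn_mul_supp C _ _ (fun y hy => coeff_resS_of_notMem _ hy), he']
  have hfinv : InvBy (⊤ : Subgroup ↥C) f := by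
    intro g _ y
    rw [hfc, hfc]
    exact hinv (g : A) (Subgroup.mem_top _) (y : A)
  have hfcom := invBy_iff_commute.1 hfinv
  obtain ⟨r, hr⟩ := uexp_eq p A
  have hq0 : p ^ r ≠ 0 := pow_ne_zero _ hpp.ne_zero
  have hprq : ∀ y : A, y ^ p ^ r = pr p y := by
    intro y; unfold pr; rw [hr]
  obtain ⟨s', hs'⟩ : ∃ s' : ↥C, s' = ⟨s, hsC⟩ := ⟨_, rfl⟩
  obtain ⟨u', hu'⟩ : ∃ u' : ↥C, u' = ⟨u, huC⟩ := ⟨_, rfl⟩
  have hsq : s'⁻¹ ^ p ^ r = s'⁻¹ := by
    apply Subtype.ext
    rw [hs']
    change s⁻¹ ^ p ^ r = s⁻¹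
    rw [inv_pow, hprq, hs, pr_pr]
  have hfq : f ^ p ^ r = f := by
    obtain ⟨n, hn⟩ := Nat.exists_eq_succ_of_ne_zero hq0
    rw [hn]
    exact IsIdempotentElem.pow_succ_eq n hff
  obtain ⟨a, ha⟩ : ∃ a : MonoidAlgebra k ↥C, a = f * single s'⁻¹ 1 := ⟨_, rfl⟩
  have haq : a ^ p ^ r = a := by
    rw [ha, ((hfcom s'⁻¹ (Subgroup.mem_top _)).symm).mul_pow, hfq, single_pow, one_pow, hsq]
  obtain ⟨φ, hφ⟩ : ∃ φ : ↥C → k, φ = fun g => if g = u' then 1 else 0 := ⟨_, rfl⟩
  have hcen' : ∀ g : ↥C, u' * g = g * u' := by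
    intro g
    apply Subtype.ext
    rw [hu']
    exact hcen g g.2
  have hφc : ∀ y z : ↥C, φ (y * z) = φ (z * y) := by
    intro y z
    have hiff : y * z = u' ↔ z * y = u' := by
      constructor
      · intro h
        have : z * y = y⁻¹ * (y * z) * y := by group
        rw [this, h, mul_assoc, hcen' y, ← mul_assoc, inv_mul_cancel, one_mul]
      · intro h
        have : y * z = z⁻¹ * (z * y) * z := by group
        rw [this, h, mul_assoc, hcen' z, ← mul_assoc, inv_mul_cancel, one_mul]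
    rw [hφ]
    simp only [hiff]
  have h1 := ChC.Fl_pow (p := p) φ hφc a r
  rw [haq] at h1
  have h2 : ∑ g : ↥C, a.coeff g ^ p ^ r * φ (g ^ p ^ r) = 0 := by
    refine Finset.sum_eq_zero (fun g _ => ?_)
    have hne : g ^ p ^ r ≠ u' := by
      intro h
      have h3 : (g : A) ^ p ^ r = u := by
        have := congrArg Subtype.val h
        rw [hu'] at this
        exact this
      rw [hprq] at h3
      have h4 : Preg p u := h3 ▸ preg_pr (g : A)
      have h5 := pr_eq_self h4
      rw [pr_of_pow hm] at h5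
      exact hu1 h5.symm
    rw [hφ]
    simp only [hne, if_false, mul_zero]
  rw [h2, ChC.Fl_apply, Finset.sum_eq_single u'] at h1
  · rw [hφ] at h1
    simp only [if_true, mul_one] at h1
    rw [ha, coeff_mul_single_apply, inv_inv, mul_one, hfc, hs', hu'] at h1
    apply hx
    rw [← husx]
    exact h1
  · intro g _ hg
    rw [hφ]
    simp only [hg, if_false, mul_zero]
  · intro h; exact absurd (Finset.mem_univ _) h

end Pool.Agent.Lib.P0c8ca5
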