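import Mathlib
import Pool.Agent.Lib.P0c8ca5V.GalE

/-! Conjugacy of powers of a p-element inside p-subgroups. -/

namespace Pool.Agent.Lib.P0c8ca5

namespace FusAux

variable {p : ℕ} {G : Type*} [Group G]

theorem pel_isPGroup {y : G} (hy : Pel p y) : IsPGroup p ↥(Subgroup.zpowers y) := by
  obtain ⟨n, hn⟩ := hy
  rintro ⟨z, hz⟩
  refine ⟨n, ?_⟩
  obtain ⟨i, rfl⟩ := Subgroup.mem_zpowers_iff.1 hz
  apply Subtype.ext
  rw [Subgroup.coe_pow]
  change (y ^ i) ^ p ^ n = 1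
  rw [← zpow_natCast, ← zpow_mul, mul_comm, zpow_mul, zpow_natCast, hn, one_zpow]

theorem pel_order [Fact p.Prime] {y : G} (hy : Pel p y) : ∃ n, orderOf y = p ^ n := by
  obtain ⟨n, hn⟩ := hy
  obtain ⟨k, _, hk⟩ := (Nat.dvd_prime_pow (Fact.out : p.Prime)).1 (orderOf_dvd_of_pow_eq_one hn)
  exact ⟨k, hk⟩

theorem conj_iter {y g : G} {j : ℕ} (hg : g * y * g⁻¹ = y ^ j) (i : ℕ) :
    g ^ i * y * (g ^ i)⁻¹ = y ^ j ^ i := by
  induction i with
  | zero => simp
  | succ i ih =>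
    have h1 : g ^ (i + 1) * y * (g ^ (i + 1))⁻¹ = g * (g ^ i * y * (g ^ i)⁻¹) * g⁻¹ := by
      rw [pow_succ']
      group
    rw [h1, ih, ← conj_pow, hg, ← pow_mul, pow_succ']

/-- `j ^ p ^ n = 1` modulo `p ^ n` if `j = 1` modulo `p` -/
theorem pow_mod {j : ℕ} (hj : j ≡ 1 [MOD p]) (n : ℕ) : j ^ p ^ n ≡ 1 [MOD p ^ n] := by
  have h1 : (p : ℤ) ∣ (j : ℤ) - 1 := by
    have h2 := Nat.modEq_iff_dvd.1 hj.symm
    exact_mod_cast h2
  have h2 := dvd_sub_pow_of_dvd_sub (R := ℤ) (p := p) h1 n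
  have h3 : ((p ^ n : ℕ) : ℤ) ∣ ((j ^ p ^ n : ℕ) : ℤ) - ((1 : ℕ) : ℤ) := by
    push_cast
    refine dvd_trans ?_ (by simpa using h2)
    exact pow_dvd_pow _ (Nat.le_succ n)
  exact (Nat.modEq_iff_dvd.2 h3).symm

/-- the conjugating element can be chosen as a p-element -/
theorem exists_pel_conj [Finite G] [Fact p.Prime] {y : G} (hy : Pel p y) {j : ℕ}
    (hj : j ≡ 1 [MOD p]) (hc : IsConj y (y ^ j)) : ∃ s : G, Pel p s ∧ s * y * s⁻¹ = y ^ j := by
  obtain ⟨g, hg⟩ := isConj_iff.1 hc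
  obtain ⟨n, hn⟩ := pel_order hy
  have hp : p.Prime := Fact.out
  have hcop : Nat.Coprime (p ^ n) (ordCompl[p] (orderOf g)) :=
    (Nat.coprime_ordCompl hp (orderOf_pos g).ne').pow_left n
  obtain ⟨r, hr1, hr2⟩ := Nat.chineseRemainder hcop 1 0
  refine ⟨g ^ r, ⟨(orderOf g).factorization p, ?_⟩, ?_⟩
  · rw [← pow_mul]
    have h1 : ordCompl[p] (orderOf g) ∣ r := (Nat.modEq_zero_iff_dvd).1 hr2
    obtain ⟨t, rfl⟩ := h1
    have h2 : ordCompl[p] (orderOf g) * t * p ^ (orderOf g).factorization p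
        = orderOf g * t := by
      have h3 := Nat.ordProj_mul_ordCompl_eq_self (orderOf g) p
      calc ordCompl[p] (orderOf g) * t * p ^ (orderOf g).factorization p
          = ordProj[p] (orderOf g) * ordCompl[p] (orderOf g) * t := by ring
        _ = orderOf g * t := by rw [h3]
    rw [h2, pow_mul, pow_orderOf_eq_one, one_pow]
  · rw [conj_iter hg r]
    rw [pow_eq_pow_iff_modEq, hn]
    have h1 := pow_mod hj n
    -- r = 1 modulo p ^ n
    rcases Nat.eq_zero_or_pos n with h0 | h0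
    · subst h0
      rw [pow_zero]
      exact Nat.modEq_one
    · have hr : ∃ t, r = 1 + p ^ n * t := by
        have h2 : 1 ≤ r := by
          by_contra h3
          have h4 : r = 0 := by omega
          rw [h4] at hr1
          have h5 : p ^ n ∣ 1 := (Nat.modEq_zero_iff_dvd).1 hr1.symm
          have h6 : p ^ n = 1 := Nat.dvd_one.1 h5
          have h7 : 1 < p ^ n := Nat.one_lt_pow h0.ne' hp.one_lt
          omega
        have h3 : p ^ n ∣ r - 1 := (Nat.modEq_iff_dvd' h2).1 hr1.symm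
        obtain ⟨t, ht⟩ := h3
        exact ⟨t, by omega⟩
      obtain ⟨t, rfl⟩ := hr
      calc j ^ (1 + p ^ n * t) = j * (j ^ p ^ n) ^ t := by rw [pow_add, pow_one, pow_mul]
        _ ≡ j * 1 ^ t [MOD p ^ n] := (Nat.ModEq.refl j).mul (h1.pow t)
        _ = j := by ring

/-- All conjugacies `y ~ y ^ j`, `j = 1` modulo `p`, take place in one p-subgroup. -/
theorem exists_pgroup [Finite G] [Fact p.Prime] {y : G} (hy : Pel p y) :
    ∃ S : Subgroup G, IsPGroup p S ∧ y ∈ S ∧ ∀ j : ℕ, j ≡ 1 [MOD p] → IsConj y (y ^ j) →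
      ∃ s ∈ S, s * y * s⁻¹ = y ^ j := by
  classical
  have hp : p.Prime := Fact.out
  set N : Subgroup G := Subgroup.normalizer (Subgroup.zpowers y : Set G) with hN
  obtain ⟨n, hn⟩ := pel_order hy
  have hyN : y ∈ N := Subgroup.le_normalizer (Subgroup.mem_zpowers y)
  -- the elements of `N` act by powers
  have hact : ∀ a ∈ N, ∃ i : ℤ, a * y * a⁻¹ = y ^ i := by
    intro a ha
    have h1 := (Subgroup.mem_normalizer_iff.1 ha y).1 (Subgroup.mem_zpowers y)
    obtain ⟨i, hi⟩ := Subgroup.mem_zpowers_iff.1 h1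
    exact ⟨i, hi.symm⟩
  obtain ⟨S0⟩ := (inferInstance : Nonempty (Sylow p ↥N))
  refine ⟨(S0 : Subgroup ↥N).map N.subtype, S0.2.map _, ?_, ?_⟩
  · -- `y` lies in every Sylow subgroup of `N`
    have hz : IsPGroup p ↥(Subgroup.zpowers (⟨y, hyN⟩ : ↥N)) := by
      apply pel_isPGroup
      obtain ⟨m, hm⟩ := hy
      exact ⟨m, Subtype.ext (by rw [Subgroup.coe_pow]; exact hm)⟩
    have hnorm : (Subgroup.zpowers (⟨y, hyN⟩ : ↥N)).Normal := by
      constructor
      intro z hz' a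
      obtain ⟨i, rfl⟩ := Subgroup.mem_zpowers_iff.1 hz'
      obtain ⟨l, hl⟩ := hact a a.2
      rw [Subgroup.mem_zpowers_iff]
      refine ⟨l * i, ?_⟩
      apply Subtype.ext
      push_cast
      rw [zpow_mul, ← hl, conj_zpow]
    obtain ⟨T, hT⟩ := hz.exists_le_sylow
    obtain ⟨a, ha⟩ := MulAction.exists_smul_eq (↥N) T S0
    have h1 : (⟨y, hyN⟩ : ↥N) ∈ (S0 : Subgroup ↥N) := by
      rw [← ha, Sylow.coe_subgroup_smul, Subgroup.mem_pointwise_smul_iff_inv_smul_mem]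
      apply hT
      have h2 := hnorm.conj_mem (⟨y, hyN⟩ : ↥N) (Subgroup.mem_zpowers _) a⁻¹
      rw [MulAut.smul_def, MulAut.conj_inv_apply]
      rwa [inv_inv] at h2
    exact ⟨⟨y, hyN⟩, h1, rfl⟩
  · intro j hj hc
    obtain ⟨s, hs, hsy⟩ := exists_pel_conj hy hj hc
    have hjc : j.Coprime (orderOf y) := by
      rw [hn]
      apply Nat.Coprime.pow_right
      rw [Nat.coprime_comm, Nat.Prime.coprime_iff_not_dvd hp]
      intro h1
      have h2 : p ∣ 1 := (hj.dvd_iff (dvd_refl p)).1 h1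
      exact hp.one_lt.ne' (Nat.dvd_one.1 h2)
    have hsN : s ∈ N := by
      rw [hN, Subgroup.mem_normalizer_iff]
      have hle : ∀ z ∈ Subgroup.zpowers y, s * z * s⁻¹ ∈ Subgroup.zpowers y := by
        intro z hz
        obtain ⟨i, rfl⟩ := Subgroup.mem_zpowers_iff.1 hz
        rw [← conj_zpow, hsy]
        exact Subgroup.zpow_mem _ (Subgroup.pow_mem _ (Subgroup.mem_zpowers y) j) i
      intro z
      refine ⟨hle z, fun hz => ?_⟩
      -- injective map of a finite set into itself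
      have hinj : Function.Injective (fun z : ↥(Subgroup.zpowers y) =>
          (⟨s * z * s⁻¹, hle z z.2⟩ : ↥(Subgroup.zpowers y))) := by
        intro a b hab
        have h3 := congrArg Subtype.val hab
        apply Subtype.ext
        simpa using h3
      obtain ⟨w, hw⟩ := (Finite.injective_iff_surjective.1 hinj) ⟨s * z * s⁻¹, hz⟩
      have h3 := congrArg Subtype.val hw
      have h4 : (w : G) = z := by simpa using h3
      rw [← h4]
      exact w.2
    have hsp : IsPGroup p ↥(Subgroup.zpowers (⟨s, hsN⟩ : ↥N)) := by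
      apply pel_isPGroup
      obtain ⟨m, hm⟩ := hs
      exact ⟨m, Subtype.ext (by rw [Subgroup.coe_pow]; exact hm)⟩
    obtain ⟨T, hT⟩ := hsp.exists_le_sylow
    obtain ⟨a, ha⟩ := MulAction.exists_smul_eq (↥N) T S0
    have h1 : a * (⟨s, hsN⟩ : ↥N) * a⁻¹ ∈ (S0 : Subgroup ↥N) := by
      rw [← ha, Sylow.coe_subgroup_smul, Subgroup.mem_pointwise_smul_iff_inv_smul_mem]
      apply hT
      rw [MulAut.smul_def, MulAut.conj_inv_apply]
      have h2 : a⁻¹ * (a * (⟨s, hsN⟩ : ↥N) * a⁻¹) * a = ⟨s, hsN⟩ := by group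
      rw [h2]
      exact Subgroup.mem_zpowers _
    refine ⟨(a : G) * s * (a : G)⁻¹, ⟨_, h1, rfl⟩, ?_⟩
    obtain ⟨i, hi⟩ := hact (a : G)⁻¹ (N.inv_mem a.2)
    have h4 : (a : G) * s * (a : G)⁻¹ * y * ((a : G) * s * (a : G)⁻¹)⁻¹
        = (a : G) * (s * ((a : G)⁻¹ * y * ((a : G)⁻¹)⁻¹) * s⁻¹) * (a : G)⁻¹ := by group
    rw [h4, hi, ← conj_zpow, hsy]
    have h5 : (y ^ j) ^ i = (y ^ i) ^ j := by
      rw [← zpow_natCast, ← zpow_natCast, ← zpow_mul, ← zpow_mul, mul_comm]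
    rw [h5, ← hi, conj_pow]
    group

end FusAux

end Pool.Agent.Lib.P0c8ca5
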