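import Mathlib
import Pool.Agent.Lib.P0c8ca5V.Fus
import Pool.Agent.Lib.P0c8ca5Bw.Hyp

/-! Defect groups without rational elements of large order, and the coefficients of the images of a
block in the sections `N(Q)/Q`. -/

namespace Pool.Agent.Lib.P0c8ca5

open MonoidAlgebra

/-- In every section `E / R` of `D` the elements `y` conjugate to all `y ^ j` with `j` congruent
to 1 modulo `p` satisfy `y ^ q = 1`. -/
def NoRat (p q : ℕ) {A : Type*} [Group A] (D : Subgroup A) : Prop :=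
  ∀ R E : Subgroup A, R ≤ E → E ≤ D → E ≤ Subgroup.normalizer (R : Set A) → ∀ y ∈ E,
    (∀ j : ℕ, j ≡ 1 [MOD p] → ∃ s ∈ E, s * y * s⁻¹ * (y ^ j)⁻¹ ∈ R) → y ^ q ∈ R

theorem NoRat.mono {p q : ℕ} {A : Type*} [Group A] {D D' : Subgroup A} (h : NoRat p q D)
    (hD : D' ≤ D) : NoRat p q D' :=
  fun R E h1 h2 h3 => h R E h1 (h2.trans hD) h3

/-- exponent dividing `q` -/
theorem noRat_exp {p q : ℕ} {A : Type*} [Group A] {D : Subgroup A} (h : ∀ y ∈ D, y ^ q = 1) :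
    NoRat p q D := by
  intro R E _ h2 _ y hy _
  rw [h y (h2 hy)]
  exact R.one_mem

/-- abelian 3-groups -/
theorem noRat_comm {A : Type*} [Group A] {D : Subgroup A} (h : ∀ x ∈ D, ∀ y ∈ D, x * y = y * x) :
    NoRat 3 3 D := by
  intro R E _ h2 _ y hy hj
  obtain ⟨s, hs, h4⟩ := hj 4 (by decide)
  have h5 : s * y * s⁻¹ = y := by rw [h s (h2 hs) y (h2 hy)]; group
  rw [h5] at h4
  have h6 : y * (y ^ 4)⁻¹ = (y ^ 3)⁻¹ := by group
  rw [h6] at h4
  simpa using R.inv_mem h4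

/-- 2-groups of class at most 2 -/
theorem noRat_class_two {A : Type*} [Group A] [Finite A] {D : Subgroup A} (hp : IsPGroup 2 D)
    (h : ∀ x ∈ D, ∀ y ∈ D, ∀ z ∈ D, x * y * x⁻¹ * y⁻¹ * z = z * (x * y * x⁻¹ * y⁻¹)) :
    NoRat 2 4 D := by
  intro R E hRE h2 h3 y hy hj
  have h2' : Fact (Nat.Prime 2) := ⟨Nat.prime_two⟩
  have hyD := h2 hy
  obtain ⟨n, hn⟩ := hp ⟨y, hyD⟩
  have hn' : y ^ 2 ^ n = 1 := by
    have := congrArg Subtype.val hn
    simpa using this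
  -- `y` is conjugate to its inverse modulo `R`
  have hinv : ∃ s ∈ E, s * y * s⁻¹ * y ∈ R := by
    rcases Nat.eq_zero_or_pos n with h0 | h0
    · subst h0
      have h1 : y = 1 := by simpa using hn'
      exact ⟨1, E.one_mem, by rw [h1]; simpa using R.one_mem⟩
    · have hpos : 0 < 2 ^ n := pow_pos (by norm_num) n
      have heven : 2 ∣ 2 ^ n := dvd_pow_self 2 h0.ne'
      obtain ⟨s, hs, h4⟩ := hj (2 ^ n - 1) (by
        rw [Nat.ModEq]
        omega)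
      refine ⟨s, hs, ?_⟩
      have h5 : (y ^ (2 ^ n - 1))⁻¹ = y := by
        rw [inv_eq_iff_mul_eq_one, ← pow_succ]
        rw [show 2 ^ n - 1 + 1 = 2 ^ n by omega, hn']
      rwa [h5] at h4
  obtain ⟨s, hs, h4⟩ := hinv
  have hsD := h2 hs
  -- the commutator `z = [s, y]`; `z y ^ 2 ∈ R`
  have hz : s * y * s⁻¹ * y⁻¹ * (y * y) ∈ R := by
    have h5 : s * y * s⁻¹ * y⁻¹ * (y * y) = s * y * s⁻¹ * y := by group
    rw [h5]
    exact h4
  have hzs := h s hsD y hyD s hsD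
  have hcomm : s * (s * y * s⁻¹ * y⁻¹) * s⁻¹ = s * y * s⁻¹ * y⁻¹ := by
    rw [← hzs]
    group
  -- conjugation by `s`
  have h6 := (Subgroup.mem_normalizer_iff.1 (h3 hs) _).1 hz
  have h7 : s * (s * y * s⁻¹ * y⁻¹ * (y * y)) * s⁻¹
      = (s * y * s⁻¹ * y⁻¹) * (s * y * s⁻¹ * (s * y * s⁻¹)) := by
    have e1 : s * (s * y * s⁻¹ * y⁻¹ * (y * y)) * s⁻¹
        = (s * (s * y * s⁻¹ * y⁻¹) * s⁻¹) * (s * y * s⁻¹ * (s * y * s⁻¹)) := by group
    rw [e1, hcomm]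
  rw [h7] at h6
  -- modulo `R`: `z y² = 1` and `z (s y s⁻¹)² = 1`, so `y² = (s y s⁻¹)² = y⁻²`
  have h8 : (y * y)⁻¹ * (s * y * s⁻¹ * (s * y * s⁻¹)) ∈ R := by
    have h9 := R.mul_mem (R.inv_mem hz) h6
    have e1 : (s * y * s⁻¹ * y⁻¹ * (y * y))⁻¹ * ((s * y * s⁻¹ * y⁻¹) *
        (s * y * s⁻¹ * (s * y * s⁻¹))) = (y * y)⁻¹ * (s * y * s⁻¹ * (s * y * s⁻¹)) := by group
    rwa [e1] at h9
  -- `s y s⁻¹ = r y⁻¹` with `r ∈ R`
  set w := s * y * s⁻¹ with hw
  -- w = r * y⁻¹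
  have hr : w * y ∈ R := h4
  have hyR : ∀ r ∈ R, y⁻¹ * r * y ∈ R := fun r hr => by
    have := (Subgroup.mem_normalizer_iff.1 (h3 (E.inv_mem hy)) r).1 hr
    simpa using this
  have hyR' : ∀ r ∈ R, y * r * y⁻¹ ∈ R := fun r hr =>
    (Subgroup.mem_normalizer_iff.1 (h3 hy) r).1 hr
  -- `w * w = (w y) (y⁻¹ (w y) y) y⁻²`
  have e2 : w * w = (w * y) * (y⁻¹ * (w * y) * y) * (y ^ 2)⁻¹ := by group
  have h10 : (w * y) * (y⁻¹ * (w * y) * y) ∈ R := R.mul_mem hr (hyR _ hr)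
  have e3 : (y * y)⁻¹ * (w * w) = (y ^ 2)⁻¹ * ((w * y) * (y⁻¹ * (w * y) * y)) * (y ^ 2)⁻¹ := by
    rw [e2]
    group
  rw [e3] at h8
  set r := (w * y) * (y⁻¹ * (w * y) * y) with hrdef
  have h11 : y ^ 2 * ((y ^ 2)⁻¹ * r * (y ^ 2)⁻¹) * (y ^ 2)⁻¹ ∈ R :=
    (Subgroup.mem_normalizer_iff.1 (h3 (E.pow_mem hy 2)) _).1 h8
  have e4 : y ^ 2 * ((y ^ 2)⁻¹ * r * (y ^ 2)⁻¹) * (y ^ 2)⁻¹ = r * (y ^ 4)⁻¹ := by group
  rw [e4] at h11
  have h12 := R.mul_mem (R.inv_mem h10) h11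
  have e5 : r⁻¹ * (r * (y ^ 4)⁻¹) = (y ^ 4)⁻¹ := by group
  rw [e5] at h12
  simpa using R.inv_mem h12

section
variable {p : ℕ} {k : Type*} [Field k] {A : Type*} [Group A] [Finite A]
variable [Fact p.Prime] [CharP k p] [IsAlgClosed k]

/-- a nonzero coefficient of the image of the block in `N(Q)/Q` at an element commuting with a
p-subgroup -/
theorem hasBr_pre_coeff {e : MonoidAlgebra k A} (he : IsBlock (⊤ : Subgroup A) e) {Q : Subgroup A}
    (hQ : IsPGroup p Q) {S : Subgroup (NQ Q)} (hS : IsPGroup p S) {c : NQ Q}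
    (hc : ∀ s ∈ S, c * s = s * c) (h0 : (proj Q e).coeff c ≠ 0) : HasBr (pre Q S) e := by
  classical
  cases nonempty_fintype A
  obtain ⟨-, hinv⟩ := mem_fixAlg.1 he.mem
  have hpre : IsPGroup p (pre Q S) := isPGroup_pre hQ hS
  obtain ⟨n, hn, rfl⟩ := qm_surj c
  have hn' := Subgroup.mem_normalizer_iff.1 hn
  by_contra hcon
  apply h0
  rw [coeff_proj]
  rw [sum_conj_eq (p := p) hQ (fun x => if n⁻¹ * x ∈ Q then e.coeff x else 0) ?_
    (Finset.univ.filter (fun x => x ∈ Subgroup.centralizer (Q : Set A))) (fun x => by simp)]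
  · apply Finset.sum_eq_zero
    intro x hx
    rw [Finset.mem_filter] at hx
    by_cases hxQ : n⁻¹ * x ∈ Q
    · rw [if_pos hxQ]
      by_contra h1
      have hreg : Preg p x := osima he.mem he.idem h1
      apply hcon
      refine ⟨x, ?_, h1⟩
      rw [Subgroup.mem_centralizer_iff]
      intro y hy
      obtain ⟨hyN, hyS⟩ := mem_pre.1 hy
      have hyp : Pel p y := by
        obtain ⟨m, hm⟩ := hpre ⟨y, hy⟩
        exact ⟨m, by simpa using congrArg Subtype.val hm⟩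
      have hxc := Subgroup.mem_centralizer_iff.1 hx.2
      have hxn : x ∈ Subgroup.normalizer (Q : Set A) := by
        have := (Subgroup.normalizer (Q : Set A)).mul_mem hn (Subgroup.le_normalizer hxQ)
        rwa [mul_inv_cancel_left] at this
      have hcx : qm Q n hn = qm Q x hxn := qm_eq_iff.2 hxQ
      have hc2 : qm Q (x * y) ((Subgroup.normalizer (Q : Set A)).mul_mem hxn hyN) =
          qm Q (y * x) ((Subgroup.normalizer (Q : Set A)).mul_mem hyN hxn) := by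
        have h3 := hc _ hyS
        rw [hcx] at h3
        exact h3
      have hq0 : (y * x)⁻¹ * (x * y) ∈ Q := qm_eq_iff.1 hc2.symm
      exact (Bw.HypAux.commute_of_reg hQ hyp hreg hxc hq0).symm
    · exact if_neg hxQ
  · intro d hd x
    have h5 : n⁻¹ * d * n ∈ Q := by
      apply (hn' _).2
      have e2 : n * (n⁻¹ * d * n) * n⁻¹ = d := by group
      rw [e2]; exact hd
    have hcond : n⁻¹ * (d * x * d⁻¹) ∈ Q ↔ n⁻¹ * x ∈ Q := by
      have e1 : n⁻¹ * (d * x * d⁻¹) = (n⁻¹ * d * n) * (n⁻¹ * x) * d⁻¹ := by group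
      rw [e1, Q.mul_mem_cancel_right (Q.inv_mem hd), Q.mul_mem_cancel_left h5]
    simp only [hcond]
    rw [hinv d (Subgroup.mem_top d) x]

/-- The image of a block in `N(Q)/Q` vanishes at the elements `c` commuting with a p-element `y`,
`y ^ q ≠ 1`, which is conjugate to all `y ^ j`, `j = 1` modulo `p`, in the centralizer of `c`, if
the p-subgroups `R` with `Br_R(e) ≠ 0` have no such elements in their sections. -/
theorem proj_rat_zero {e : MonoidAlgebra k A} (he : IsBlock (⊤ : Subgroup A) e) {q : ℕ}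
    (hD : ∀ R : Subgroup A, IsPGroup p R → HasBr R e → NoRat p q R) {Q : Subgroup A}
    (hQ : IsPGroup p Q) {y c : NQ Q} (hy : Pel p y) (hyc : c * y = y * c) (hyq : y ^ q ≠ 1)
    (hrat : ∀ j : ℕ, j ≡ 1 [MOD p] → ∃ g : NQ Q, g * c = c * g ∧ g * y * g⁻¹ = y ^ j) :
    (proj Q e).coeff c = 0 := by
  by_contra h0
  -- inside the centralizer of `c`
  set C : Subgroup (NQ Q) := Subgroup.centralizer ({c} : Set (NQ Q)) with hC
  have hmem : ∀ g : NQ Q, g ∈ C ↔ g * c = c * g := by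
    intro g
    rw [hC, Subgroup.mem_centralizer_singleton_iff]
  have hyC : y ∈ C := (hmem y).2 hyc.symm
  have hy' : Pel p (⟨y, hyC⟩ : ↥C) := by
    obtain ⟨n, hn⟩ := hy
    exact ⟨n, Subtype.ext (by rw [Subgroup.coe_pow]; exact hn)⟩
  obtain ⟨S, hS, hyS, hSj⟩ := FusAux.exists_pgroup (p := p) hy'
  have hS' : IsPGroup p (S.map C.subtype) := hS.map _
  have hcS : ∀ s ∈ S.map C.subtype, c * s = s * c := by
    rintro _ ⟨s, _, rfl⟩
    exact ((hmem _).1 s.2).symm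
  have hbr := hasBr_pre_coeff he hQ hS' hcS h0
  have hno := hD _ (isPGroup_pre hQ hS') hbr
  obtain ⟨y', hy'N, hyy⟩ := qm_surj y
  have hQle : Q ≤ pre Q (S.map C.subtype) := by
    intro x hx
    refine mem_pre.2 ⟨Subgroup.le_normalizer hx, ?_⟩
    have h1 : qm Q x (Subgroup.le_normalizer hx) = 1 := by
      have : qm Q x (Subgroup.le_normalizer hx) = qm Q 1 (Subgroup.one_mem _) :=
        qm_eq_iff.2 (by simpa using Q.inv_mem hx)
      rw [this]
      rfl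
    rw [h1]
    exact Subgroup.one_mem _
  have hnorm : pre Q (S.map C.subtype) ≤ Subgroup.normalizer (Q : Set A) := by
    intro x hx
    exact (mem_pre.1 hx).1
  have hfin := hno Q (pre Q (S.map C.subtype)) hQle le_rfl hnorm y'
    (mem_pre.2 ⟨hy'N, by rw [← hyy]; exact ⟨⟨y, hyC⟩, hyS, rfl⟩⟩) (by
    intro j hj
    obtain ⟨g, hgc, hgy⟩ := hrat j hj
    have hgC : g ∈ C := (hmem g).2 hgc
    obtain ⟨s, hs, hsy⟩ := hSj j hj (isConj_iff.2 ⟨⟨g, hgC⟩, by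
      apply Subtype.ext
      push_cast
      exact hgy⟩)
    obtain ⟨s', hs'N, hss⟩ := qm_surj (s : NQ Q)
    refine ⟨s', mem_pre.2 ⟨hs'N, by rw [← hss]; exact ⟨s, hs, rfl⟩⟩, ?_⟩
    have h1 : (s : NQ Q) * y * (s : NQ Q)⁻¹ = y ^ j := by
      have := congrArg Subtype.val hsy
      push_cast at this
      exact this
    rw [hss, hyy] at h1
    have hN := Subgroup.normalizer (Q : Set A)
    have m1 : s' * y' * s'⁻¹ ∈ Subgroup.normalizer (Q : Set A) :=
      Subgroup.mul_mem _ (Subgroup.mul_mem _ hs'N hy'N) (Subgroup.inv_mem _ hs'N)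
    have m2 : y' ^ j ∈ Subgroup.normalizer (Q : Set A) := Subgroup.pow_mem _ hy'N j
    have h2 : qm Q (y' ^ j) m2 = qm Q (s' * y' * s'⁻¹) m1 := h1.symm
    have h3 := qm_eq_iff.1 h2
    have h4 := (Subgroup.mem_normalizer_iff.1 m2 _).1 h3
    have h5 : y' ^ j * ((y' ^ j)⁻¹ * (s' * y' * s'⁻¹)) * (y' ^ j)⁻¹
        = s' * y' * s'⁻¹ * (y' ^ j)⁻¹ := by group
    rwa [h5] at h4)
  apply hyq
  rw [hyy]
  have m3 : y' ^ q ∈ Subgroup.normalizer (Q : Set A) := Subgroup.pow_mem _ hy'N q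
  have h6 : qm Q (y' ^ q) m3 = qm Q 1 (Subgroup.one_mem _) :=
    qm_eq_iff.2 (by simpa using Q.inv_mem hfin)
  exact h6

end

end Pool.Agent.Lib.P0c8ca5
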