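import Mathlib
import Pool.Agent.Lib.P0c8ca5V.GalF

/-! Coprime powers: elements conjugate to their powers, general form; pairs with given product. -/

namespace Pool.Agent.Lib.P0c8ca5

/-- `x` is conjugate to all `x ^ j`, `j` prime to the order of the group and congruent to 1 modulo
`p` and modulo the p'-part of the order of the group -/
def RatL (p : ℕ) {A : Type*} [Group A] (x : A) : Prop :=
  ∀ j : ℕ, GalJ p A j → j ≡ 1 [MOD p] → IsConj x (x ^ j)

namespace GalG

open GalE RotAux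

variable {p : ℕ} {A : Type*} [Group A]

theorem ratL_conj (g x : A) : RatL p (g * x * g⁻¹) ↔ RatL p x := by
  unfold RatL
  refine forall_congr' fun j => forall_congr' fun _ => forall_congr' fun _ => ?_
  have h1 : IsConj x (g * x * g⁻¹) := isConj_iff.2 ⟨g, rfl⟩
  have h2 : IsConj (x ^ j) ((g * x * g⁻¹) ^ j) := by
    rw [conj_pow]
    exact isConj_iff.2 ⟨g, rfl⟩
  exact ⟨fun h => (h1.trans h).trans h2.symm, fun h => (h1.symm.trans h).trans h2⟩

theorem ratL_of_pow {x : A} (j : ℕ) (h : RatL p x) : RatL p (x ^ j) := by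
  intro i hi hi'
  have h1 := isConj_pow (h i hi hi') j
  rwa [← pow_mul, mul_comm, pow_mul] at h1

theorem ratL_perm [Finite A] {π : Equiv.Perm A} (hπ : π ∈ Lam p A) (x : A) :
    RatL p (π x) ↔ RatL p x := by
  have h1 : ∀ π ∈ Lam p A, ∀ x : A, RatL p x → RatL p (π x) := by
    rintro π ⟨j, _, _, hj⟩ x hx
    rw [hj]
    exact ratL_of_pow j hx
  refine ⟨fun h => ?_, h1 π hπ x⟩
  have h2 := h1 π⁻¹ ((Lam p A).inv_mem hπ) _ h
  have h3 : π⁻¹ (π x) = x := by
    rw [← Equiv.Perm.mul_apply, inv_mul_cancel]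
    rfl
  rwa [h3] at h2

open Classical in
theorem rat_sumL [Fact p.Prime] [Fintype A] {φ : A → ℤ} (hcl : ∀ c x, φ (c * x * c⁻¹) = φ x)
    (hj : ∀ j, GalJ p A j → ∀ x, φ (x ^ j) = φ x)
    (hd : ∀ x, φ x ≠ 0 →
      ((ordProj[p] (Nat.card (Subgroup.centralizer ({x} : Set A))) : ℕ) : ℤ) ∣ φ x) :
    (p : ℤ) * (ordProj[p] (Nat.card A) : ℕ) ∣ ∑ x : A, if RatL p x then 0 else φ x := by
  have hp : p.Prime := Fact.out
  have hCp : IsPGroup p (Lam p A) := Lam_pGroup
  have hcomm : ∀ (g : A) (c : ↥(Lam p A)), Commute (cjA g) ((Lam p A).subtype c) := by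
    rintro g ⟨c, j, hj1, hj2, hj3⟩
    apply Equiv.ext
    intro x
    change g * c x * g⁻¹ = c (g * x * g⁻¹)
    rw [hj3, hj3, conj_pow]
  let Ψ : A × ↥(Lam p A) →* Equiv.Perm A :=
    MonoidHom.noncommCoprod cjA (Lam p A).subtype hcomm
  let _ : MulAction (A × ↥(Lam p A)) A := MulAction.compHom _ Ψ
  have hsm : ∀ (g : A) (c : ↥(Lam p A)) (x : A),
      ((g, c) : A × ↥(Lam p A)) • x = g * (c : Equiv.Perm A) x * g⁻¹ := fun _ _ _ => rfl
  have hcard : ∀ K : Subgroup ↥(Lam p A), ordProj[p] (Nat.card K) = Nat.card K := by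
    intro K
    obtain ⟨n, hn⟩ := IsPGroup.iff_card.1 (hCp.to_subgroup K)
    rw [hn, hp.factorization_pow]
    simp
  have hcard' : ordProj[p] (Nat.card ↥(Lam p A)) = Nat.card ↥(Lam p A) := by
    obtain ⟨n, hn⟩ := IsPGroup.iff_card.1 hCp
    rw [hn, hp.factorization_pow]
    simp
  have key := orb_dvd_p (p := p) (T := A × ↥(Lam p A)) (X := A)
    (fun x => ((Nat.card ↥(Lam p A) : ℕ) : ℤ) * (if RatL p x then 0 else φ x)) ?_ (p : ℤ) ?_
  · rw [← Finset.mul_sum, Nat.card_prod, Nat.ordProj_mul p Nat.card_pos.ne' Nat.card_pos.ne',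
      hcard'] at key
    have h1 : (((Nat.card ↥(Lam p A) : ℕ) : ℤ)) ≠ 0 := by
      exact_mod_cast (Nat.card_pos (α := ↥(Lam p A))).ne'
    have h2 : (p : ℤ) * ((ordProj[p] (Nat.card A) * Nat.card ↥(Lam p A) : ℕ) : ℤ)
        = ((Nat.card ↥(Lam p A) : ℕ) : ℤ) * ((p : ℤ) * (ordProj[p] (Nat.card A) : ℕ)) := by
      push_cast
      ring
    rw [h2] at key
    exact (mul_dvd_mul_iff_left h1).1 key
  · rintro ⟨g, c⟩ x
    simp only [hsm, hcl, phi_perm hj c.2]
    have h1 : RatL p (g * (c : Equiv.Perm A) x * g⁻¹) ↔ RatL p x :=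
      (ratL_conj g _).trans (ratL_perm c.2 x)
    congr 1
    exact if_congr h1 rfl rfl
  · intro x
    by_cases hx : RatL p x
    · simp only [if_pos hx, mul_zero]
      exact dvd_zero _
    by_cases hφ : φ x = 0
    · simp only [hφ, ite_self, mul_zero]
      exact dvd_zero _
    simp only [if_neg hx]
    let S : Subgroup (A × ↥(Lam p A)) := MulAction.stabilizer (A × ↥(Lam p A)) x
    let π : ↥S →* ↥(Lam p A) := (MonoidHom.snd A ↥(Lam p A)).comp S.subtype
    have hπ : ∀ s : ↥S, π s = (s : A × ↥(Lam p A)).2 := fun s => rfl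
    have hker : Nat.card π.ker = Nat.card (Subgroup.centralizer ({x} : Set A)) := by
      refine Nat.card_congr
        { toFun := fun s => ⟨((s : ↥S) : A × ↥(Lam p A)).1, ?_⟩
          invFun := fun g => ⟨⟨((g : A), 1), ?_⟩, ?_⟩
          left_inv := ?_
          right_inv := ?_ }
      · have h2 : ((s : ↥S) : A × ↥(Lam p A)).2 = 1 := s.2
        have h3 : (((s : ↥S) : A × ↥(Lam p A))) • x = x := (s : ↥S).2
        have h4 := hsm ((s : ↥S) : A × ↥(Lam p A)).1 ((s : ↥S) : A × ↥(Lam p A)).2 x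
        rw [Prod.mk.eta, h3, h2] at h4
        rw [Subgroup.mem_centralizer_singleton_iff]
        have h5 : x = ((s : ↥S) : A × ↥(Lam p A)).1 * x * (((s : ↥S) : A × ↥(Lam p A)).1)⁻¹ := h4
        exact (mul_inv_eq_iff_eq_mul.1 h5.symm)
      · change (g : A) * x * (g : A)⁻¹ = x
        have h5 := Subgroup.mem_centralizer_singleton_iff.1 g.2
        rw [mul_inv_eq_iff_eq_mul]
        exact h5
      · rfl
      · intro s
        apply Subtype.ext
        apply Subtype.ext
        have h2 : ((s : ↥S) : A × ↥(Lam p A)).2 = 1 := s.2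
        exact Prod.ext rfl h2.symm
      · intro g
        rfl
    have hidx : p ∣ π.range.index := by
      obtain ⟨n, hn⟩ := hCp.index π.range
      have h1 : n ≠ 0 := by
        rintro rfl
        rw [pow_zero, Subgroup.index_eq_one] at hn
        apply hx
        intro j hj0 hj1
        let σ : ↥(Lam p A) := ⟨powCoprime hj0.1, j, hj0, hj1, fun _ => rfl⟩
        have h2 : σ ∈ π.range := by
          rw [hn]
          exact Subgroup.mem_top _
        obtain ⟨s, hs⟩ := h2
        rw [hπ] at hs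
        have h3 : ((s : A × ↥(Lam p A))) • x = x := s.2
        have h4 := hsm (s : A × ↥(Lam p A)).1 (s : A × ↥(Lam p A)).2 x
        rw [Prod.mk.eta, h3, hs] at h4
        have h5 : x = (s : A × ↥(Lam p A)).1 * x ^ j * ((s : A × ↥(Lam p A)).1)⁻¹ := h4
        exact (isConj_iff.2 ⟨_, h5.symm⟩).symm
      rw [hn]
      exact dvd_pow_self p h1
    have h1 : Nat.card ↥S = Nat.card π.ker * Nat.card π.range := by
      rw [← Subgroup.index_ker, Subgroup.card_mul_index]
    have h2 : Nat.card π.range * π.range.index = Nat.card ↥(Lam p A) :=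
      Subgroup.card_mul_index _
    obtain ⟨i, hi⟩ := hidx
    obtain ⟨d, hd'⟩ := hd x hφ
    change (p : ℤ) * ((ordProj[p] (Nat.card ↥S) : ℕ) : ℤ) ∣ _
    rw [h1, Nat.ordProj_mul p Nat.card_pos.ne' Nat.card_pos.ne', hcard, hker, ← h2, hi, hd']
    refine ⟨(i : ℤ) * d, ?_⟩
    push_cast
    ring


/-! ### pairs with given product -/

open Classical in
/-- the number of the `z` with `z ^ a = 1`, `(z⁻¹ x) ^ b = 1` and `P ⟨z, x⟩` -/
noncomputable def nP [Fintype A] (a b : ℕ) (P : Subgroup A → Prop) (x : A) : ℤ :=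
  ∑ z : A, if z ^ a = 1 ∧ (z⁻¹ * x) ^ b = 1 ∧ P (Subgroup.closure {z, x}) then 1 else 0

theorem pow_eq_one_coprime [Finite A] {j : ℕ} (hj : (Nat.card A).Coprime j) (x : A) (a : ℕ) :
    (x ^ j) ^ a = 1 ↔ x ^ a = 1 := GalFAux.pow_one_iff hj x a

open Classical in
/-- all pairs of one group -/
theorem nP_base [Fintype A] {j : ℕ} (hj : (Nat.card A).Coprime j) (a b : ℕ) (f : A → ℤ) :
    ∑ x : A, ∑ z : A, f (x ^ j) * (if z ^ a = 1 ∧ (z⁻¹ * x) ^ b = 1 then 1 else 0)
      = ∑ x : A, ∑ z : A, f x * (if z ^ a = 1 ∧ (z⁻¹ * x) ^ b = 1 then 1 else 0) := by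
  let F : ℕ → A → ℤ := fun a z => if z ^ a = 1 then 1 else 0
  have hF : ∀ (a : ℕ) (c x : A), F a (c * x * c⁻¹) = F a x := by
    intro a c x
    change (if (c * x * c⁻¹) ^ a = 1 then (1 : ℤ) else 0) = if x ^ a = 1 then 1 else 0
    exact if_congr (by rw [conj_pow, conj_eq_one_iff]) rfl rfl
  have hFj : ∀ (a : ℕ) (x : A), F a (x ^ j) = F a x := by
    intro a x
    exact if_congr (pow_eq_one_coprime hj x a) rfl rfl
  have h0 : ∀ x z : A, (if z ^ a = 1 ∧ (z⁻¹ * x) ^ b = 1 then (1 : ℤ) else 0)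
      = F a z * F b (z⁻¹ * x) := by
    intro x z
    change _ = (if z ^ a = 1 then (1 : ℤ) else 0) * (if (z⁻¹ * x) ^ b = 1 then (1 : ℤ) else 0)
    by_cases h1 : z ^ a = 1
    · by_cases h2 : (z⁻¹ * x) ^ b = 1
      · rw [if_pos ⟨h1, h2⟩, if_pos h1, if_pos h2, one_mul]
      · rw [if_neg (fun h => h2 h.2), if_neg h2, mul_zero]
    · rw [if_neg (fun h => h1 h.1), if_neg h1, zero_mul]
  have h1 : ∀ x : A, ∑ z : A, F a z * F b (z⁻¹ * x) = ∑ z : A, F a z * F b (z⁻¹ * x ^ j) := by
    intro x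
    rw [← GalA.conv_pow hj (hF a) (hF b) x]
    exact Finset.sum_congr rfl fun z _ => by rw [hFj, hFj]
  simp only [h0, ← Finset.mul_sum]
  rw [← Equiv.sum_comp (powCoprime hj) (fun x => f x * ∑ z : A, F a z * F b (z⁻¹ * x))]
  refine Finset.sum_congr rfl fun x _ => ?_
  change f (x ^ j) * _ = f (x ^ j) * _
  rw [h1 x]
  rfl

theorem closure_conj2 (c z x : A) : Subgroup.closure {c * z * c⁻¹, c * x * c⁻¹}
    = (Subgroup.closure {z, x}).map (MulAut.conj c).toMonoidHom := by
  rw [MonoidHom.map_closure, Set.image_pair]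
  rfl

open Classical in
theorem nP_conj [Fintype A] (a b : ℕ) {P : Subgroup A → Prop} (hP : ∀ (c : A) (K : Subgroup A),
    P (K.map (MulAut.conj c).toMonoidHom) ↔ P K) (c x : A) :
    nP a b P (c * x * c⁻¹) = nP a b P x := by
  unfold nP
  rw [← Equiv.sum_comp (MulAut.conj c).toEquiv]
  refine Finset.sum_congr rfl fun z _ => ?_
  change (if (c * z * c⁻¹) ^ a = 1 ∧ ((c * z * c⁻¹)⁻¹ * (c * x * c⁻¹)) ^ b = 1 ∧
    P (Subgroup.closure {c * z * c⁻¹, c * x * c⁻¹}) then (1 : ℤ) else 0) = _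
  have h1 : (c * z * c⁻¹)⁻¹ * (c * x * c⁻¹) = c * (z⁻¹ * x) * c⁻¹ := by group
  rw [h1, closure_conj2]
  refine if_congr ?_ rfl rfl
  rw [conj_pow, conj_pow, conj_eq_one_iff, conj_eq_one_iff, hP]

open Classical in
theorem nP_pow [Fintype A] {j : ℕ} (hj : (Nat.card A).Coprime j) (a b : ℕ)
    {P : Subgroup A → Prop} (hP : ∀ (c : A) (K : Subgroup A),
      P (K.map (MulAut.conj c).toMonoidHom) ↔ P K) (x : A) :
    nP a b P (x ^ j) = nP a b P x := by
  refine GalD.pointwise (nP_conj a b hP) hj (fun f hf => ?_) x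
  have h1 := GalD.sum_gen_zero (A := A) (X := A × A) (fun y => Subgroup.closure {y.2, y.1})
    (fun y => (f (y.1 ^ j) - f y.1) * (if y.2 ^ a = 1 ∧ (y.2⁻¹ * y.1) ^ b = 1 then 1 else 0)) ?_ P
  · have h2 : ∀ u : A → ℤ, ∑ x : A, u x * nP a b P x
        = ∑ x : A, ∑ z : A, (if P (Subgroup.closure {z, x}) then
          u x * (if z ^ a = 1 ∧ (z⁻¹ * x) ^ b = 1 then 1 else 0) else 0) := by
      intro u
      refine Finset.sum_congr rfl fun x _ => ?_
      unfold nP
      rw [Finset.mul_sum]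
      refine Finset.sum_congr rfl fun z _ => ?_
      by_cases h3 : z ^ a = 1 ∧ (z⁻¹ * x) ^ b = 1
      · by_cases h4 : P (Subgroup.closure {z, x})
        · rw [if_pos ⟨h3.1, h3.2, h4⟩, if_pos h4, if_pos h3]
        · rw [if_neg (fun h => h4 h.2.2), if_neg h4, mul_zero]
      · rw [if_neg (fun h => h3 ⟨h.1, h.2.1⟩), if_neg h3, mul_zero]
        split_ifs <;> rfl
    rw [h2 (fun x => f (x ^ j)), h2 f, ← sub_eq_zero, ← Finset.sum_sub_distrib]
    rw [Fintype.sum_prod_type] at h1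
    refine Eq.trans ?_ h1
    refine Finset.sum_congr rfl fun x _ => ?_
    rw [← Finset.sum_sub_distrib]
    refine Finset.sum_congr rfl fun z _ => ?_
    by_cases h4 : P (Subgroup.closure {z, x})
    · rw [if_pos h4, if_pos h4, if_pos h4, sub_mul]
    · rw [if_neg h4, if_neg h4, if_neg h4, sub_zero]
  · intro H
    have hjH : (Nat.card ↥H).Coprime j := Nat.Coprime.coprime_dvd_left H.card_subgroup_dvd_card hj
    have h3 := nP_base (A := ↥H) hjH a b (fun x => f x)
    rw [← sub_eq_zero, ← Finset.sum_sub_distrib] at h3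
    rw [Fintype.sum_prod_type]
    have h4 : ∀ x : A, ∑ z : A, (if Subgroup.closure {z, x} ≤ H then
        (f (x ^ j) - f x) * (if z ^ a = 1 ∧ (z⁻¹ * x) ^ b = 1 then 1 else 0) else 0)
        = if x ∈ H then ∑ z : ↥H, ((f (x ^ j) - f x) *
          (if (z : A) ^ a = 1 ∧ ((z : A)⁻¹ * x) ^ b = 1 then 1 else 0)) else 0 := by
      intro x
      by_cases hx : x ∈ H
      · rw [if_pos hx, ← GalD.sum_sub H (fun z => (f (x ^ j) - f x) *
          (if z ^ a = 1 ∧ (z⁻¹ * x) ^ b = 1 then 1 else 0))]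
        refine Finset.sum_congr rfl fun z _ => ?_
        refine if_congr ?_ rfl rfl
        rw [Subgroup.closure_le]
        constructor
        · intro h; exact h (by simp)
        · rintro h y (rfl | rfl)
          · exact h
          · exact hx
      · rw [if_neg hx]
        refine Finset.sum_eq_zero fun z _ => ?_
        rw [if_neg]
        intro h
        exact hx (h (Subgroup.subset_closure (by simp)))
    rw [Finset.sum_congr rfl (fun x _ => h4 x), GalD.sum_sub H (fun x => ∑ z : ↥H,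
      ((f (x ^ j) - f x) * (if (z : A) ^ a = 1 ∧ ((z : A)⁻¹ * x) ^ b = 1 then 1 else 0)))]
    refine Eq.trans ?_ h3
    refine Finset.sum_congr rfl fun x _ => ?_
    rw [← Finset.sum_sub_distrib]
    refine Finset.sum_congr rfl fun z _ => ?_
    have h5 : ((z : A) ^ a = 1 ∧ ((z : A)⁻¹ * x) ^ b = 1) ↔ (z ^ a = 1 ∧ (z⁻¹ * x) ^ b = 1) := by
      have e1 : ∀ (w : ↥H) (n : ℕ), ((w : A) ^ n = 1) ↔ (w ^ n = 1) := by
        intro w n
        rw [← Subgroup.coe_pow]
        exact OneMemClass.coe_eq_one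
      have e2 : ((z : A)⁻¹ * x) = ((z⁻¹ * x : ↥H) : A) := by push_cast; rfl
      rw [e2, e1, e1]
    have h6 : (if (z : A) ^ a = 1 ∧ ((z : A)⁻¹ * x) ^ b = 1 then (1 : ℤ) else 0)
        = if z ^ a = 1 ∧ (z⁻¹ * x) ^ b = 1 then 1 else 0 := if_congr h5 rfl rfl
    rw [h6, ← sub_mul, Subgroup.coe_pow]
    by_cases h7 : z ^ a = 1 ∧ (z⁻¹ * x) ^ b = 1
    · simp only [if_pos h7]
    · simp only [if_neg h7]

theorem opr_P [Finite A] (c : A) (K : Subgroup A) :
    Opr p (⊤ : Subgroup A) ≤ K.map (MulAut.conj c).toMonoidHom ↔ Opr p (⊤ : Subgroup A) ≤ K := by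
  conv_lhs => rw [← map_Opr_top (p := p) c]
  exact Subgroup.map_le_map_iff_of_injective (MulAut.conj c).injective

open Classical in
theorem nP_dvd [Fact p.Prime] [Fintype A] (hO : NoP p (⊤ : Subgroup A)) (a b : ℕ) (x : A) :
    ((ordProj[p] (Nat.card (Subgroup.centralizer ({x} : Set A))) : ℕ) : ℤ)
      ∣ nP a b (fun K => Opr p (⊤ : Subgroup A) ≤ K) x := by
  let _ := GalFAux.actD x
  have hsm : ∀ (g : Subgroup.centralizer ({x} : Set A)) (z : A),
      g • z = (g : A) * z * (g : A)⁻¹ := fun _ _ => rfl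
  have hgx : ∀ g : Subgroup.centralizer ({x} : Set A), (g : A) * x * (g : A)⁻¹ = x := by
    intro g
    rw [mul_inv_eq_iff_eq_mul]
    exact Subgroup.mem_centralizer_singleton_iff.1 g.2
  have key := orb_dvd_p (p := p) (T := Subgroup.centralizer ({x} : Set A)) (X := A)
    (fun z => if z ^ a = 1 ∧ (z⁻¹ * x) ^ b = 1 ∧
      Opr p (⊤ : Subgroup A) ≤ Subgroup.closure {z, x} then 1 else 0) ?_ 1 ?_
  · rw [one_mul] at key
    exact key
  · intro g z
    simp only [hsm]
    have h1 := closure_conj2 (g : A) z x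
    rw [hgx g] at h1
    have h2 : ((g : A) * z * (g : A)⁻¹)⁻¹ * x = (g : A) * (z⁻¹ * x) * (g : A)⁻¹ := by
      have e1 : ((g : A) * z * (g : A)⁻¹)⁻¹ * x
        = ((g : A) * z * (g : A)⁻¹)⁻¹ * ((g : A) * x * (g : A)⁻¹) :=
        congrArg (fun w => ((g : A) * z * (g : A)⁻¹)⁻¹ * w) (hgx g).symm
      rw [e1]
      group
    rw [h1, h2]
    refine if_congr ?_ rfl rfl
    rw [conj_pow, conj_pow, conj_eq_one_iff, conj_eq_one_iff, opr_P]
  · intro z
    by_cases h : z ^ a = 1 ∧ (z⁻¹ * x) ^ b = 1 ∧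
        Opr p (⊤ : Subgroup A) ≤ Subgroup.closure {z, x}
    · have h1 : ¬ p ∣ Nat.card (MulAction.stabilizer (Subgroup.centralizer ({x} : Set A)) z) := by
        intro h2
        obtain ⟨g, hg⟩ := exists_prime_orderOf_dvd_card' p h2
        have h3 : ((g : Subgroup.centralizer ({x} : Set A)) : A) * z *
            ((g : Subgroup.centralizer ({x} : Set A)) : A)⁻¹ = z := g.2
        have h4 : cj3 ((g : Subgroup.centralizer ({x} : Set A)) : A) (z, x, 1) = (z, x, 1) := by
          unfold cj3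
          simp only [hgx, h3]
          simp
        have h5 : Opr p (⊤ : Subgroup A) ≤ gen (z, x, (1 : A)) := by
          refine h.2.2.trans ?_
          unfold gen
          refine Subgroup.closure_mono ?_
          rintro y (rfl | rfl)
          · simp
          · simp
        refine no_p_cent hO h5 h4 ?_
        rw [Subgroup.orderOf_coe, Subgroup.orderOf_coe, hg]
      rw [GalFAux.ordProj_one h1]
      simp
    · simp only [if_neg h]
      exact dvd_zero _

open Classical in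
/-- Pairs `(z, w)`, `z ^ a = w ^ b = 1`, generating a subgroup containing `O^p(A)`, weighted by a
function of the product `z w`: the products which are not conjugate to their powers do not
contribute. -/
theorem pairs_rat [Fact p.Prime] [Fintype A] (hO : NoP p (⊤ : Subgroup A)) (a b : ℕ) {χ : A → ℤ}
    (hcl : ∀ c x, χ (c * x * c⁻¹) = χ x) (hχ : ∀ j, GalJ p A j → ∀ x, χ (x ^ j) = χ x) :
    (p : ℤ) * (ordProj[p] (Nat.card A) : ℕ) ∣ ∑ t : A × A, (if (t.1 ^ a = 1 ∧ t.2 ^ b = 1 ∧
      Opr p (⊤ : Subgroup A) ≤ Subgroup.closure {t.1, t.2}) ∧ ¬ RatL p (t.1 * t.2) then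
        χ (t.1 * t.2) else 0) := by
  have h := rat_sumL (p := p) (A := A)
    (φ := fun x => χ x * nP a b (fun K => Opr p (⊤ : Subgroup A) ≤ K) x)
    (fun c x => ?_) (fun j hj x => ?_) (fun x _ => ?_)
  · refine dvd_trans h (dvd_of_eq ?_)
    rw [Fintype.sum_prod_type]
    have h1 : ∀ x : A, (if RatL p x then 0 else
        χ x * nP a b (fun K => Opr p (⊤ : Subgroup A) ≤ K) x)
        = ∑ z : A, (if (z ^ a = 1 ∧ (z⁻¹ * x) ^ b = 1 ∧
          Opr p (⊤ : Subgroup A) ≤ Subgroup.closure {z, z⁻¹ * x}) ∧ ¬ RatL p (z * (z⁻¹ * x)) then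
          χ (z * (z⁻¹ * x)) else 0) := by
      intro x
      have hc : ∀ z : A, Subgroup.closure {z, z⁻¹ * x} = Subgroup.closure ({z, x} : Set A) := by
        intro z
        apply le_antisymm
        · rw [Subgroup.closure_le]
          rintro y (rfl | rfl)
          · exact Subgroup.subset_closure (by simp)
          · exact Subgroup.mul_mem _ (Subgroup.inv_mem _ (Subgroup.subset_closure (by simp)))
              (Subgroup.subset_closure (by simp))
        · rw [Subgroup.closure_le]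
          rintro y (rfl | rfl)
          · exact Subgroup.subset_closure (by simp)
          · have h2 : z * (z⁻¹ * y) = y := mul_inv_cancel_left z y
            rw [SetLike.mem_coe, ← h2]
            exact Subgroup.mul_mem _ (Subgroup.subset_closure (by simp))
              (Subgroup.subset_closure (by simp))
      simp only [mul_inv_cancel_left, hc]
      by_cases hx : RatL p x
      · rw [if_pos hx]
        symm
        exact Finset.sum_eq_zero fun z _ => if_neg (fun h3 => h3.2 hx)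
      · rw [if_neg hx]
        unfold nP
        rw [Finset.mul_sum]
        refine Finset.sum_congr rfl fun z _ => ?_
        by_cases h3 : z ^ a = 1 ∧ (z⁻¹ * x) ^ b = 1 ∧
          Opr p (⊤ : Subgroup A) ≤ Subgroup.closure {z, x}
        · rw [if_pos h3, if_pos ⟨h3, hx⟩, mul_one]
        · rw [if_neg h3, if_neg (fun h4 => h3 h4.1), mul_zero]
    rw [Finset.sum_congr rfl (fun x _ => h1 x), Finset.sum_comm]
    refine Finset.sum_congr rfl fun z _ => ?_
    exact Equiv.sum_comp (Equiv.mulLeft z⁻¹) (fun w => if (z ^ a = 1 ∧ w ^ b = 1 ∧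
      Opr p (⊤ : Subgroup A) ≤ Subgroup.closure {z, w}) ∧ ¬ RatL p (z * w) then
        χ (z * w) else 0)
  · rw [hcl, nP_conj a b (fun c K => opr_P c K)]
  · rw [hχ j hj, nP_pow hj.1 a b (fun c K => opr_P c K)]
  · exact Dvd.dvd.mul_left (nP_dvd hO a b x) _

end GalG

end Pool.Agent.Lib.P0c8ca5
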