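import Mathlib
import Pool.Agent.Lib.P0c8ca5V.NoRat
import Pool.Agent.Lib.P0c8ca5Bx.Cop

/-! The hypothesis of the blockwise congruence from the defect groups. -/

namespace Pool.Agent.Lib.P0c8ca5

open MonoidAlgebra

section
variable {p : ℕ} {k : Type*} [Field k] {A : Type*} [Group A] [Finite A]
variable [Fact p.Prime]

/-- If the p-subgroups `R` with `Br_R(e) ≠ 0` have no elements rational in a section and of order
not dividing `q`, then for every p-subgroup `Q`, every `c` in `N(Q)` with `e_c ≠ 0` and every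
p-element `x` of `N(Q)` with `x ^ q ∉ Q` commuting with `c` modulo `Q`, there is `j` such that `xQ`
and `(xQ) ^ j` are not conjugate in the centralizer of `cQ` in `N(Q)/Q`. -/
theorem sup_of_noRat {e : MonoidAlgebra k A} {q : ℕ}
    (hreg : ∀ c, e.coeff c ≠ 0 → Preg p c)
    (hD : ∀ R : Subgroup A, IsPGroup p R → HasBr R e → NoRat p q R) {Q : Subgroup A}
    (hQ : IsPGroup p Q) {c x : ↥(Subgroup.normalizer (Q : Set A))}
    (hc : e.coeff (c : A) ≠ 0) (hx : Pel p (x : A)) (hxq : (x : A) ^ q ∉ Q)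
    (hcomm : Commute (QuotientGroup.mk x : NQ Q) (QuotientGroup.mk c)) :
    ∃ j : ℕ, j ≡ 1 [MOD p] ∧ ∀ g : NQ Q, Commute g (QuotientGroup.mk c) →
      g * QuotientGroup.mk x * g⁻¹ ≠ (QuotientGroup.mk x : NQ Q) ^ j := by
  by_contra hcon
  push Not at hcon
  have hcr : Preg p (c : A) := hreg _ hc
  -- a p-subgroup of the centralizer of `cQ`
  set y : NQ Q := QuotientGroup.mk x with hy
  set C : Subgroup (NQ Q) := Subgroup.centralizer ({(QuotientGroup.mk c : NQ Q)} : Set (NQ Q))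
    with hC
  have hmem : ∀ g : NQ Q, g ∈ C ↔ Commute g (QuotientGroup.mk c) := by
    intro g
    rw [hC, Subgroup.mem_centralizer_singleton_iff]
    exact Iff.rfl
  have hyC : y ∈ C := (hmem y).2 hcomm
  have hy' : Pel p (⟨y, hyC⟩ : ↥C) := by
    obtain ⟨n, hn⟩ := hx
    refine ⟨n, Subtype.ext ?_⟩
    rw [Subgroup.coe_pow]
    change y ^ p ^ n = 1
    have h1 : x ^ p ^ n = 1 := Subtype.ext (by rw [Subgroup.coe_pow]; exact hn)
    rw [hy, ← QuotientGroup.mk_pow, h1]
    rfl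
  obtain ⟨S, hS, hyS, hSj⟩ := FusAux.exists_pgroup (p := p) hy'
  have hS' : IsPGroup p (S.map C.subtype) := hS.map _
  have hpre := isPGroup_pre hQ hS'
  set E : Subgroup A := pre Q (S.map C.subtype) ⊓ Subgroup.centralizer {(c : A)} with hE
  have hEp : IsPGroup p E := hpre.to_le inf_le_left
  have hbr : HasBr E e := by
    refine ⟨(c : A), ?_, hc⟩
    rw [Subgroup.mem_centralizer_iff]
    intro z hz
    exact Subgroup.mem_centralizer_singleton_iff.1 hz.2
  have hno := hD E hEp hbr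
  -- elements of `S` lift to `E`
  have hlift : ∀ s : ↥C, s ∈ S → ∃ z : ↥(Subgroup.normalizer (Q : Set A)), (z : A) ∈ E ∧
      (QuotientGroup.mk z : NQ Q) = s := by
    intro s hs
    obtain ⟨z0, hz0⟩ := QuotientGroup.mk_surjective (s : NQ Q)
    have h1 : Commute (QuotientGroup.mk z0 : NQ Q) (QuotientGroup.mk c) := by
      rw [hz0]
      exact (hmem _).1 s.2
    obtain ⟨z, hz1, hz2⟩ := Bx.cent_lift hQ hcr h1
    refine ⟨z, ⟨mem_pre.2 ⟨z.2, ⟨s, hs, ?_⟩⟩, Subgroup.mem_centralizer_singleton_iff.2 hz2⟩,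
      hz1.trans hz0⟩
    exact (hz1.trans hz0).symm
  obtain ⟨y', hy'E, hyy⟩ := hlift _ hyS
  have hfin := hno (Q ⊓ E) E inf_le_right le_rfl (by
    intro z hz
    have hzN : z ∈ Subgroup.normalizer (Q : Set A) := (mem_pre.1 hz.1).1
    rw [Subgroup.mem_normalizer_iff]
    intro w
    constructor
    · rintro ⟨h1, h2⟩
      exact ⟨(Subgroup.mem_normalizer_iff.1 hzN w).1 h1,
        E.mul_mem (E.mul_mem hz h2) (E.inv_mem hz)⟩
    · rintro ⟨h1, h2⟩
      refine ⟨(Subgroup.mem_normalizer_iff.1 hzN w).2 h1, ?_⟩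
      have h3 := E.mul_mem (E.mul_mem (E.inv_mem hz) h2) hz
      have h4 : z⁻¹ * (z * w * z⁻¹) * z = w := by group
      rwa [h4] at h3) (y' : A) hy'E (by
    intro j hj
    obtain ⟨g, hgc, hgy⟩ := hcon j hj
    have hgC : g ∈ C := (hmem g).2 hgc
    obtain ⟨s, hs, hsy⟩ := hSj j hj (isConj_iff.2 ⟨⟨g, hgC⟩, by
      apply Subtype.ext
      push_cast
      exact hgy⟩)
    obtain ⟨s', hs'E, hss⟩ := hlift s hs
    refine ⟨(s' : A), hs'E, ?_, E.mul_mem (E.mul_mem (E.mul_mem hs'E hy'E) (E.inv_mem hs'E))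
      (E.inv_mem (E.pow_mem hy'E j))⟩
    have h1 : (s : NQ Q) * y * (s : NQ Q)⁻¹ = y ^ j := by
      have := congrArg Subtype.val hsy
      push_cast at this
      exact this
    have h2 : (QuotientGroup.mk (s' * y' * s'⁻¹ * (y' ^ j)⁻¹) : NQ Q) = 1 := by
      rw [QuotientGroup.mk_mul, QuotientGroup.mk_mul, QuotientGroup.mk_mul, QuotientGroup.mk_inv,
        QuotientGroup.mk_inv, QuotientGroup.mk_pow, hss, hyy]
      rw [mul_inv_eq_one]
      exact h1
    have h3 := (QuotientGroup.eq_one_iff _).1 h2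
    rw [Subgroup.mem_subgroupOf] at h3
    simpa using h3)
  apply hxq
  -- `y' ^ q ∈ Q` and `y' = x` modulo `Q`
  have h1 : (QuotientGroup.mk (y' ^ q) : NQ Q) = 1 := by
    rw [QuotientGroup.eq_one_iff, Subgroup.mem_subgroupOf]
    simpa using hfin.1
  have h2 : (QuotientGroup.mk (x ^ q) : NQ Q) = 1 := by
    rw [QuotientGroup.mk_pow] at h1 ⊢
    rw [hyy] at h1
    exact h1
  rw [QuotientGroup.eq_one_iff, Subgroup.mem_subgroupOf] at h2
  simpa using h2

end

end Pool.Agent.Lib.P0c8ca5
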