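import Mathlib
import Pool.Agent.Lib.P0c8ca5V.Sup
import Pool.Agent.Lib.P0c8ca5V.GapM
import Pool.Agent.Lib.P0c8ca5V.GapT
import Pool.Agent.Lib.P0c8ca5E.SmallG
import Pool.Agent.Lib.P0c8ca5Bx.FinD

/-! Congruence of the two sides of Navarro's equality from the defect group. -/

namespace Pool.Agent.Lib.P0c8ca5

open MonoidAlgebra

universe u v

theorem noRat_of_map {p q : ℕ} {A B : Type*} [Group A] [Group B] {φ : A →* B}
    (hφ : Function.Injective φ) {D : Subgroup A} (h : NoRat p q (D.map φ)) : NoRat p q D := by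
  intro R E hRE hED hE y hy hj
  have key := h (R.map φ) (E.map φ) (Subgroup.map_mono hRE) (Subgroup.map_mono hED) (by
    rintro _ ⟨x, hx, rfl⟩
    have h1 := Subgroup.mem_normalizer_iff.1 (hE hx)
    rw [Subgroup.mem_normalizer_iff]
    intro z
    constructor
    · rintro ⟨w, hw, rfl⟩
      exact ⟨x * w * x⁻¹, (h1 w).1 hw, by simp⟩
    · rintro ⟨w, hw, hwz⟩
      refine ⟨x⁻¹ * w * x, (h1 _).2 ?_, ?_⟩
      · have e1 : x * (x⁻¹ * w * x) * x⁻¹ = w := by group
        rw [e1]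
        exact hw
      · have e2 : z = (φ x)⁻¹ * φ w * φ x := by
          have e3 : φ w = φ x * z * (φ x)⁻¹ := hwz
          rw [e3]
          group
        rw [e2]
        simp) (φ y) ⟨y, hy, rfl⟩ (by
    intro j hjj
    obtain ⟨s, hs, hR⟩ := hj j hjj
    exact ⟨φ s, ⟨s, hs, rfl⟩, ⟨_, hR, by simp⟩⟩)
  obtain ⟨w, hw, hwy⟩ := key
  have h2 : w = y ^ q := hφ (by rw [hwy, map_pow])
  rw [← h2]
  exact hw

theorem noRat_cg {p q : ℕ} {A : Type*} [Group A] {D : Subgroup A} (g : A) (h : NoRat p q D) :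
    NoRat p q (cg g D) := by
  refine noRat_of_map (φ := (MulAut.conj g⁻¹).toMonoidHom) (MulAut.conj g⁻¹).injective ?_
  have h1 : (cg g D).map (MulAut.conj g⁻¹).toMonoidHom = D := by
    change cg g⁻¹ (cg g D) = D
    rw [cg_cg, inv_mul_cancel, cg_one]
  rw [h1]
  exact h

/-- 2-groups with an abelian subgroup of index at most 2 -/
theorem noRat_index_two {A : Type*} [Group A] [Finite A] {D A₀ : Subgroup A}
    (hp : IsPGroup 2 D) (hA : A₀ ≤ D) (hc : ∀ x ∈ A₀, ∀ y ∈ A₀, x * y = y * x)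
    (hi : A₀.relIndex D ≤ 2) : NoRat 2 4 D := by
  -- products of two elements outside of `A₀`
  have hmul : ∀ x ∈ D, ∀ y ∈ D, x ∉ A₀ → y ∉ A₀ → x * y ∈ A₀ := by
    intro x hx y hy hxA hyA
    have h0 : A₀.relIndex D ≠ 0 := Subgroup.FiniteIndex.index_ne_zero
    have h12 : (A₀.subgroupOf D).index = 1 ∨ (A₀.subgroupOf D).index = 2 := by
      change A₀.relIndex D = 1 ∨ A₀.relIndex D = 2
      omega
    rcases h12 with h | h
    · rw [Subgroup.index_eq_one, Subgroup.subgroupOf_eq_top] at h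
      exact absurd (h hx) hxA
    · have h1 := Subgroup.mul_mem_iff_of_index_two h (a := (⟨x, hx⟩ : ↥D)) (b := ⟨y, hy⟩)
      rw [Subgroup.mem_subgroupOf, Subgroup.mem_subgroupOf, Subgroup.mem_subgroupOf] at h1
      exact h1.2 (iff_of_false hxA hyA)
  have hsq : ∀ x ∈ D, x * x ∈ A₀ := by
    intro x hx
    by_cases h : x ∈ A₀
    · exact A₀.mul_mem h h
    · exact hmul x hx x hx h h
  intro R E hRE h2 h3 y hy hj
  have hyD := h2 hy
  obtain ⟨n, hn⟩ := hp ⟨y, hyD⟩
  have hn' : y ^ 2 ^ n = 1 := by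
    have := congrArg Subtype.val hn
    simpa using this
  have hnorm : ∀ g ∈ E, ∀ r ∈ R, g * r * g⁻¹ ∈ R := fun g hg r hr =>
    (Subgroup.mem_normalizer_iff.1 (h3 hg) r).1 hr
  -- `y` is conjugate to its inverse modulo `R`
  have hinv : ∃ s ∈ E, s * y * s⁻¹ * y ∈ R := by
    rcases Nat.eq_zero_or_pos n with h0 | h0
    · subst h0
      have h1 : y = 1 := by simpa using hn'
      exact ⟨1, E.one_mem, by rw [h1]; simpa using R.one_mem⟩
    · have hpos : 0 < 2 ^ n := pow_pos (by norm_num) n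
      have heven : 2 ∣ 2 ^ n := dvd_pow_self 2 h0.ne'
      obtain ⟨s, hs, h4⟩ := hj (2 ^ n - 1) (by
        rw [Nat.ModEq]
        omega)
      refine ⟨s, hs, ?_⟩
      have h5 : (y ^ (2 ^ n - 1))⁻¹ = y := by
        rw [inv_eq_iff_mul_eq_one, ← pow_succ]
        rw [show 2 ^ n - 1 + 1 = 2 ^ n by omega, hn']
      rwa [h5] at h4
  obtain ⟨s, hs, h4⟩ := hinv
  have hsD := h2 hs
  by_cases hyA : y ∈ A₀
  · by_cases hsA : s ∈ A₀
    · have h5 : s * y * s⁻¹ = y := by rw [hc s hsA y hyA]; group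
      rw [h5] at h4
      have h6 := R.mul_mem h4 h4
      have h7 : y * y * (y * y) = y ^ 4 := by rw [← pow_two, ← pow_two, ← pow_mul]
      rwa [h7] at h6
    · obtain ⟨t, ht, h5⟩ := hj 5 (by decide)
      by_cases htA : t ∈ A₀
      · have h6 : t * y * t⁻¹ = y := by rw [hc t htA y hyA]; group
        rw [h6] at h5
        have h7 : y * (y ^ 5)⁻¹ = (y ^ 4)⁻¹ := by group
        rw [h7] at h5
        simpa using R.inv_mem h5
      · -- `s⁻¹ t ∈ A₀`
        have h6 : s⁻¹ * t ∈ A₀ := by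
          refine hmul _ (D.inv_mem hsD) _ (h2 ht) (fun h => hsA ?_) htA
          simpa using A₀.inv_mem h
        have h7 : t * y * t⁻¹ = s * y * s⁻¹ := by
          have h8 : (s⁻¹ * t) * y * (s⁻¹ * t)⁻¹ = y := by
            rw [hc _ h6 y hyA]
            group
          calc t * y * t⁻¹ = s * ((s⁻¹ * t) * y * (s⁻¹ * t)⁻¹) * s⁻¹ := by group
            _ = s * y * s⁻¹ := by rw [h8]
        rw [h7] at h5
        -- `y ^ 6 ∈ R`
        have h8 := R.mul_mem (R.inv_mem h5) h4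
        have h9 : (s * y * s⁻¹ * (y ^ 5)⁻¹)⁻¹ * (s * y * s⁻¹ * y) = y ^ 6 := by group
        rw [h9] at h8
        have h10 : y ^ 12 ∈ R := by
          have := R.mul_mem h8 h8
          have e : y ^ 6 * y ^ 6 = y ^ 12 := by group
          rwa [e] at this
        -- `y ^ 4` is a power of `y ^ 12`
        rcases Nat.lt_or_ge n 2 with hn2 | hn2
        · have h11 : y ^ 4 = 1 := by
            have h12 : (2 : ℕ) ^ n ∣ 4 := (pow_dvd_pow 2 (by omega)).trans (dvd_refl (2 ^ 2))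
            obtain ⟨c, hc'⟩ := h12
            rw [hc', pow_mul, hn', one_pow]
          rw [h11]
          exact R.one_mem
        · have hcop : Nat.Coprime 3 (2 ^ n) := Nat.Coprime.pow_right n (by decide)
          obtain ⟨c, hc1, hc2⟩ := Nat.chineseRemainder hcop 0 1
          have hc3 : 3 ∣ c := (Nat.modEq_zero_iff_dvd).1 hc1
          obtain ⟨d, hd⟩ := hc3
          have h11 : y ^ (4 * c) = y ^ 4 := by
            rw [pow_eq_pow_iff_modEq]
            have h12 : orderOf y ∣ 2 ^ n := orderOf_dvd_of_pow_eq_one hn'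
            have h13 : c ≡ 1 [MOD orderOf y] := hc2.of_dvd h12
            simpa using h13.mul_left 4
          rw [← h11, hd]
          have h12 : y ^ (4 * (3 * d)) = (y ^ 12) ^ d := by
            rw [← pow_mul]
            congr 1
            ring
          rw [h12]
          exact R.pow_mem h10 d
  · -- `y ∉ A₀`: we may take `s ∈ A₀`
    have hs' : ∃ s ∈ E, s ∈ A₀ ∧ s * y * s⁻¹ * y ∈ R := by
      by_cases hsA : s ∈ A₀
      · exact ⟨s, hs, hsA, h4⟩
      · refine ⟨s * y, E.mul_mem hs hy, hmul s hsD y hyD hsA hyA, ?_⟩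
        have h5 : s * y * y * (s * y)⁻¹ * y = s * y * s⁻¹ * y := by group
        rw [h5]
        exact h4
    obtain ⟨s, hs, hsA, h4⟩ := hs'
    have hy2 : s * (y * y) * s⁻¹ = y * y := by
      rw [hc s hsA _ (hsq y hyD)]
      group
    -- `(s y s⁻¹ y)` and conjugates: `y² · y² ∈ R`
    have h5 := hnorm y⁻¹ (E.inv_mem hy) _ h4
    -- s y² s⁻¹ y² = (w y) (y⁻¹ (w y) y), w = s y s⁻¹
    have h6 : (s * y * s⁻¹ * y) * (y⁻¹ * (s * y * s⁻¹ * y) * y⁻¹⁻¹)
        = (s * (y * y) * s⁻¹) * (y * y) := by group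
    have h7 := R.mul_mem h4 h5
    rw [h6, hy2] at h7
    have h8 : y * y * (y * y) = y ^ 4 := by rw [← pow_two, ← pow_two, ← pow_mul]
    rwa [h8] at h7

section
variable {p : ℕ} {k : Type v} [Field k] [IsAlgClosed k] [CharP k p] [Fact p.Prime]

/-- the congruence of the two sides of Navarro's equality -/
theorem gap_of_noRat {r s : ℕ}
    (E : ∀ (X : Type u) [Group X], X × X → X × X)
    (hE : ∀ (X : Type u) [Group X], Bx.IsRq (p ^ r) (E X))
    (T : ∀ (X : Type u) [Group X], X → X → X × X)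
    (hT : ∀ (X : Type u) [Group X], Bx.IsPq (p ^ r) s (E X) (T X))
    {Γ : Type u} [Group Γ] [Finite Γ] (G : Subgroup Γ) [G.Normal] (hΓ : IsPGroup p (Γ ⧸ G))
    {e : MonoidAlgebra k Γ} (he : IsBlock G e) (hinv : InvBy ⊤ e) {D : Subgroup Γ}
    (hD : IsDefectGroup p G e D) (hno : NoRat p (p ^ r) D) :
    ∃ t : ℤ, gap p G ⊤ e = (p : ℚ) * t := by
  have : Fintype Γ := Fintype.ofFinite Γ
  obtain ⟨t, ht⟩ := gap_mod hΓ he hinv
  have he' := dn_isBlock he
  have key : ∃ t : ℤ, gap p (⊤ : Subgroup ↥G) ⊤ (dn G e) = (p : ℚ) * t := by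
    refine Bx.gap_of_sup (p := p) (r := r) (s := s) E hE T hT ↥G he' ?_
    intro Q hQ c x hc hx hxq hcomm
    refine sup_of_noRat (p := p) (fun c hc => ?_) (fun R hR hbr => ?_) hQ hc hx hxq hcomm
    · exact osima he'.mem he'.idem hc
    · refine noRat_of_map (φ := G.subtype) G.subtype_injective ?_
      have hbr' : HasBr (R.map G.subtype) e := by
        obtain ⟨c, hc, hc0⟩ := hbr
        refine ⟨(c : Γ), ?_, hc0⟩
        rw [Subgroup.mem_centralizer_iff]
        rintro _ ⟨z, hz, rfl⟩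
        have h1 := Subgroup.mem_centralizer_iff.1 hc z hz
        exact congrArg Subtype.val h1
      obtain ⟨D', hD', hle⟩ := exists_defect (p := p) (N := G) (e := e) (by
        rintro _ ⟨z, _, rfl⟩
        exact z.2) (hR.map G.subtype) hbr'
      obtain ⟨g, _, rfl⟩ := Hy.defect_conj_sub he hD hD'
      exact (noRat_cg g hno).mono hle
  obtain ⟨t', ht'⟩ := key
  rw [gap_transport he] at ht'
  refine ⟨t + t', ?_⟩
  rw [ht, ht']
  push_cast
  ring

end

end Pool.Agent.Lib.P0c8ca5
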