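import Mathlib
import Pool.Agent.Lib.P0c8ca5V.Rel
import Pool.Agent.Lib.P0c8ca5O.Main
import Pool.Agent.Lib.P0c8ca5N.TrC

/-! The equivalences inside a class of groups: pairs, amplification, Navarro's equality. -/

namespace Pool.Agent.Lib.P0c8ca5

open MonoidAlgebra

universe u v

namespace RelAux

open MainRAux MainPAux

/-- pairs, inside a class -/
theorem rel_pairs {C : ∀ (G : Type u) [Group G], Prop} (hC : SecCl C) {p : ℕ} [Fact p.Prime]
    {k : Type v} [Field k] [IsAlgClosed k] [CharP k p] {r s : ℕ}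
    (E : ∀ (X : Type u) [Group X], X × X × X → X × X × X)
    (T : ∀ (X : Type u) [Group X], X → X → X × X × X)
    (hE : ∀ (X : Type u) [Group X], IsRot (p ^ r) (E X))
    (hT : ∀ (X : Type u) [Group X], IsPar (p ^ r) s (E X) (T X)) :
    (∀ (G : Type u) [Group G] [Finite G], C G → ∀ (b : MonoidAlgebra k G),
      IsBlock (⊤ : Subgroup G) b → ∃ t : ℤ, gap p (⊤ : Subgroup G) ⊤ b = (p : ℚ) * t) ↔
    (∀ (G : Type u) [Group G] [Finite G], C G → NoP p (⊤ : Subgroup G) → ∀ x : G, Preg p x →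
      p * ordProj[p] (Nat.card G) ∣ Nat.card {y : G × G // Pel p y.1 ∧ y.1 ^ p ^ r ≠ 1 ∧
        PRat p y.1 ∧ y.2 ^ s = 1 ∧ IsConj x ((y.1 * y.2) ^ p ^ r) ∧
        ∀ w : G, Preg p w → w ∈ Subgroup.closure ({y.1, y.2} : Set G)}) := by
  rw [rel_triples hC]
  constructor
  · intro h G _ _ hCG hG x hx
    exact (pairs_iff_rat hG x hx).1 ((triples_iff_pairs (hE G) (hT G) hG x hx).1
      ((triples_iff_rat hG x hx).2 (h G hCG hG x hx)))
  · intro h G _ _ hCG hG x hx
    exact (triples_iff_rat hG x hx).1 ((triples_iff_pairs (hE G) (hT G) hG x hx).2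
      ((pairs_iff_rat hG x hx).2 (h G hCG hG x hx)))

/-- the iterated construction inside a class closed under wreath products with `C_p` -/
theorem iterC {C : ∀ (G : Type u) [Group G], Prop} {p : ℕ} [Fact p.Prime]
    (hW : ∀ (G : Type u) [Group G], C G → C (Wr.WG p G)) (n : ℕ) {k : Type v} [Field k]
    [IsAlgClosed k] [CharP k p] (G : Type u) [Group G] [Finite G] (hG : C G)
    (b : MonoidAlgebra k G) (hb : IsBlock (⊤ : Subgroup G) b) :
    ∃ (G' : Type u) (_ : Group G') (_ : Finite G') (b' : MonoidAlgebra k G'), C G' ∧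
      IsBlock (⊤ : Subgroup G') b' ∧ Wr.lN b' = (Wr.ff p)^[n] (Wr.lN b) ∧
        Wr.wN p b' = (Wr.ff p)^[n] (Wr.wN p b) := by
  induction n with
  | zero => exact ⟨G, inferInstance, inferInstance, b, hG, hb, rfl, rfl⟩
  | succ n ih =>
    obtain ⟨G', i1, i2, b', h0, h1, h2, h3⟩ := ih
    refine ⟨Wr.WG p G', inferInstance, inferInstance, Wr.el p b', hW G' h0,
      Wr.isBlock_el_top h1, ?_, ?_⟩
    · rw [Wr.step_l h1, h2, Function.iterate_succ_apply']
    · rw [Wr.step_w h1, h3, Function.iterate_succ_apply']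

end RelAux

open RelAux

/-- amplification inside a class closed under wreath products with `C_p` -/
theorem ampC {C : ∀ (G : Type u) [Group G], Prop} {p : ℕ} [Fact p.Prime]
    (hW : ∀ (G : Type u) [Group G], C G → C (Wr.WG p G)) {k : Type v} [Field k]
    [IsAlgClosed k] [CharP k p]
    (h : ∀ (G : Type u) [Group G] [Finite G], C G → ∀ (b : MonoidAlgebra k G),
      IsBlock (⊤ : Subgroup G) b → ∃ t : ℤ, gap p (⊤ : Subgroup G) ⊤ b = (p : ℚ) * t) :
    ∀ (G : Type u) [Group G] [Finite G], C G → ∀ (b : MonoidAlgebra k G),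
      IsBlock (⊤ : Subgroup G) b → gap p (⊤ : Subgroup G) ⊤ b = 0 := by
  intro G _ _ hCG b hb
  have : Fintype G := Fintype.ofFinite G
  have key : Wr.lN b = Wr.wN p b := by
    refine Wr.arith (p := p) Fact.out _ _ (fun n => ?_)
    obtain ⟨G', i1, i2, b', h0, h1, h2, h3⟩ := iterC (p := p) hW n G hCG b hb
    have : Fintype G' := Fintype.ofFinite G'
    obtain ⟨t, ht⟩ := h G' h0 b' h1
    rw [Wr.gap_lw h1, h2, h3] at ht
    refine ⟨t, ?_⟩
    exact_mod_cast ht
  rw [Wr.gap_lw hb, key, sub_self]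

/-- Navarro's equality inside a class closed under subgroups -/
theorem q1C {C : ∀ (G : Type u) [Group G], Prop} (hC : SecCl C) {p : ℕ} [Fact p.Prime]
    {k : Type v} [Field k] [IsAlgClosed k] [CharP k p] :
    (∀ (Γ : Type u) [Group Γ] [Finite Γ], C Γ → ∀ (G : Subgroup Γ) [G.Normal],
      IsPGroup p (Γ ⧸ G) → ∀ e : MonoidAlgebra k Γ, IsBlock G e →
      (∀ g x : Γ, e.coeff (g * x * g⁻¹) = e.coeff x) → NavarroEq p G ⊤ e) ↔
    ∀ (G : Type u) [Group G] [Finite G], C G → ∀ (e : MonoidAlgebra k G),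
      IsBlock (⊤ : Subgroup G) e → gap p (⊤ : Subgroup G) ⊤ e = 0 := by
  have htop : ∀ {G : Type u} [Group G], ∀ x ∈ (⊤ : Subgroup G), ∃ n : ℕ,
      x ^ p ^ n ∈ (⊤ : Subgroup G) := fun x _ => ⟨0, Subgroup.mem_top _⟩
  constructor
  · intro h G _ _ hCG e he
    have : Fintype G := Fintype.ofFinite G
    have h1 := h G hCG ⊤ (by
      intro x
      refine ⟨0, ?_⟩
      obtain ⟨y, rfl⟩ := QuotientGroup.mk_surjective x
      rw [← QuotientGroup.mk_pow, QuotientGroup.eq_one_iff]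
      exact Subgroup.mem_top _) e he (fun g x => he.invBy g (Subgroup.mem_top g) x)
    exact (navarroEq_iff_gap le_rfl (by rw [Subgroup.normalizer_eq_top_iff.2 inferInstance])
      htop he he.invBy).1 h1
  · intro h Γ _ _ hCΓ G _ hΓ e he hinv
    have : Fintype Γ := Fintype.ofFinite Γ
    have hinv' : InvBy ⊤ e := fun g _ x => hinv g x
    have hp : ∀ x ∈ (⊤ : Subgroup Γ), ∃ n : ℕ, x ^ p ^ n ∈ G := by
      intro x _
      obtain ⟨n, hn⟩ := hΓ (QuotientGroup.mk x)
      refine ⟨n, ?_⟩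
      rwa [← QuotientGroup.mk_pow, QuotientGroup.eq_one_iff] at hn
    have hbaw : ∀ (H : Type u) [Group H] [Finite H], C H → ∀ (b : MonoidAlgebra k H),
        IsBlock (⊤ : Subgroup H) b → NavarroEq p ⊤ ⊤ b := by
      intro H _ _ hCH b hb
      have : Fintype H := Fintype.ofFinite H
      exact (navarroEq_iff_gap le_rfl (by rw [Subgroup.normalizer_eq_top_iff.2 inferInstance])
        htop hb hb.invBy).2 (h H hCH b hb)
    exact navarro_of_baw le_top (fun x _ => mem_norm_of_normal G x) hp he hinv'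
      (fun σ _ _ _ b hb _ => navarro_transport hb
        (hbaw _ (cSub hC hCΓ _) (dn _ b) (dn_isBlock hb)))

end Pool.Agent.Lib.P0c8ca5
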